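import Mathlib

/-!
# A compactness criterion for co-recursive-enumerability

A family of local constraints on a colouring `F : ℕ → ℕ` with values below a computable bound:
solvability is a co-r.e. predicate of the parameters.
-/

set_option autoImplicit false

namespace HypQ

namespace CoRe

variable {α : Type*} [Primcodable α]

/-- Unbounded search over a primitive recursive relation is r.e. -/
theorem rePred_exists_nat {Q : α → ℕ → Prop} (hQ : PrimrecRel Q) :
    REPred (fun c => ∃ L, Q c L) := by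
  classical
  have h1 : Computable₂ (fun (c : α) (L : ℕ) => decide (Q c L)) := (hQ.decide).to_comp
  have h2 : Partrec (fun c : α => Nat.rfind (fun L => Part.some (decide (Q c L)))) :=
    Partrec.rfind h1.partrec₂
  refine h2.dom_re.of_eq ?_
  intro c
  constructor
  · intro h
    obtain ⟨L, hL, -⟩ := Nat.rfind_dom.mp h
    exact ⟨L, by simpa using hL⟩
  · rintro ⟨L, hL⟩
    refine Nat.rfind_dom.mpr ⟨L, ?_, ?_⟩
    · simpa using hL
    · intro m _
      trivial

/-- A family of local constraints. The parameters are `c` and four numbers. -/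
structure Fam (α : Type*) [Primcodable α] where
  /-- the list of positions involved -/
  T : α × ℕ × ℕ × ℕ × ℕ → List ℕ
  /-- the constraint on the list of colours -/
  φ : α × ℕ × ℕ × ℕ × ℕ → List ℕ → Prop
  hT : Primrec T
  hφ : PrimrecRel φ

/-- base `n` digit number `t` of `w` -/
def col (n w t : ℕ) : ℕ := w / n ^ t % n

theorem nat_pow_p : Primrec₂ ((· ^ ·) : ℕ → ℕ → ℕ) :=
  Primrec₂.unpaired'.1 Nat.Primrec.pow

theorem col_p {β : Type*} [Primcodable β] {n w t : β → ℕ} (hn : Primrec n) (hw : Primrec w)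
    (ht : Primrec t) : Primrec (fun x => col (n x) (w x) (t x)) := by
  unfold col
  exact Primrec.nat_mod.comp (Primrec.nat_div.comp hw (nat_pow_p.comp hn ht)) hn

theorem col_lt {n w t : ℕ} (hn : 0 < n) : col n w t < n := Nat.mod_lt _ hn

theorem exists_code {n : ℕ} (F : ℕ → ℕ) (hF : ∀ t, F t < n) (L : ℕ) :
    ∃ w < n ^ L, ∀ t < L, col n w t = F t := by
  have hn : 0 < n := lt_of_le_of_lt (Nat.zero_le _) (hF 0)
  induction L with
  | zero => exact ⟨0, by simp, by simp⟩
  | succ L ih =>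
    obtain ⟨w, hw, h⟩ := ih
    refine ⟨w + F L * n ^ L, ?_, ?_⟩
    · have h1 : F L + 1 ≤ n := hF L
      calc w + F L * n ^ L < n ^ L + F L * n ^ L := by omega
        _ = (F L + 1) * n ^ L := by ring
        _ ≤ n * n ^ L := Nat.mul_le_mul_right _ h1
        _ = n ^ (L + 1) := by ring
    · intro t ht
      unfold col
      rcases Nat.lt_succ_iff_lt_or_eq.mp ht with h2 | h2
      · have h3 : n ^ L = n ^ t * n ^ (L - t) := by
          rw [← pow_add]; congr 1; omega
        have h4 : w + F L * n ^ L = w + n ^ t * (F L * n ^ (L - t)) := by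
          rw [h3]; ring
        rw [h4, Nat.add_mul_div_left _ _ (pow_pos hn t)]
        have h5 : F L * n ^ (L - t) = n * (F L * n ^ (L - t - 1)) := by
          have : n ^ (L - t) = n * n ^ (L - t - 1) := by
            rw [← pow_succ']; congr 1; omega
          rw [this]; ring
        rw [h5, Nat.add_mul_mod_self_left]
        exact h t h2
      · subst h2
        rw [Nat.add_mul_div_right _ _ (pow_pos hn t), Nat.div_eq_of_lt hw, zero_add]
        exact Nat.mod_eq_of_lt (hF t)

/-- the finite test -/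
def Test (n : α → ℕ) (J : List (Fam α)) (c : α) (L : ℕ) : Prop :=
  ∃ w < n c ^ L, ∀ j ∈ J, ∀ a < L, ∀ b < L, ∀ d < L, ∀ e < L,
    (∀ t ∈ j.T (c, a, b, d, e), t < L) →
      j.φ (c, a, b, d, e) ((j.T (c, a, b, d, e)).map (col (n c) w))

theorem forall_list_p {β : Type*} [Primcodable β] {ι : Type*} (J : List ι) (P : ι → β → Prop)
    (h : ∀ j, PrimrecPred (P j)) : PrimrecPred (fun x => ∀ j ∈ J, P j x) := by
  induction J with
  | nil =>
    refine PrimrecPred.of_eq (p := fun _ : β => (0 : ℕ) = 0) ?_ ?_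
    · exact Primrec.eq.comp (Primrec.const _) (Primrec.const _)
    · intro a; simp
  | cons j J ih =>
    refine PrimrecPred.of_eq ((h j).and ih) ?_
    intro a; simp

theorem imp_p {β : Type*} [Primcodable β] {p q : β → Prop} (hp : PrimrecPred p)
    (hq : PrimrecPred q) : PrimrecPred (fun x => p x → q x) := by
  refine PrimrecPred.of_eq (hp.not.or hq) ?_
  intro a; tauto

theorem forall_lt_p {β : Type*} [Primcodable β] {p : β → ℕ → Prop} {f : β → ℕ}
    (hf : Primrec f) (hp : PrimrecPred (fun x : β × ℕ => p x.1 x.2)) :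
    PrimrecPred (fun x => ∀ t < f x, p x t) := by
  have h1 : PrimrecRel (fun (t : ℕ) (x : β) => p x t) :=
    hp.comp (Primrec.pair Primrec.snd Primrec.fst)
  refine PrimrecPred.of_eq (h1.forall_mem_list.comp (Primrec.list_range.comp hf) Primrec.id) ?_
  intro x; simp

theorem exists_lt_p {β : Type*} [Primcodable β] {p : β → ℕ → Prop} {f : β → ℕ}
    (hf : Primrec f) (hp : PrimrecPred (fun x : β × ℕ => p x.1 x.2)) :
    PrimrecPred (fun x => ∃ t < f x, p x t) := by
  have h1 : PrimrecRel (fun (t : ℕ) (x : β) => p x t) :=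
    hp.comp (Primrec.pair Primrec.snd Primrec.fst)
  refine PrimrecPred.of_eq (h1.exists_mem_list.comp (Primrec.list_range.comp hf) Primrec.id) ?_
  intro x; simp

theorem forall_mem_p {β : Type*} [Primcodable β] {p : β → ℕ → Prop} {f : β → List ℕ}
    (hf : Primrec f) (hp : PrimrecPred (fun x : β × ℕ => p x.1 x.2)) :
    PrimrecPred (fun x => ∀ t ∈ f x, p x t) := by
  have h1 : PrimrecRel (fun (t : ℕ) (x : β) => p x t) :=
    hp.comp (Primrec.pair Primrec.snd Primrec.fst)
  exact (h1.forall_mem_list).comp hf Primrec.id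

theorem test_p (n : α → ℕ) (hn : Primrec n) (J : List (Fam α)) : PrimrecRel (Test n J) := by
  unfold Test
  have main : PrimrecPred (fun x : (α × ℕ) × ℕ => ∀ j ∈ J, ∀ a < x.1.2, ∀ b < x.1.2, ∀ d < x.1.2,
      ∀ e < x.1.2, (∀ t ∈ j.T (x.1.1, a, b, d, e), t < x.1.2) →
      j.φ (x.1.1, a, b, d, e) ((j.T (x.1.1, a, b, d, e)).map (col (n x.1.1) x.2))) := by
    apply forall_list_p
    intro j
    refine forall_lt_p (Primrec.snd.comp Primrec.fst) ?_
    refine forall_lt_p (Primrec.snd.comp (Primrec.fst.comp Primrec.fst)) ?_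
    refine forall_lt_p (Primrec.snd.comp (Primrec.fst.comp (Primrec.fst.comp Primrec.fst))) ?_
    refine forall_lt_p (Primrec.snd.comp (Primrec.fst.comp (Primrec.fst.comp
      (Primrec.fst.comp Primrec.fst)))) ?_
    -- x : (((((α × ℕ) × ℕ) × ℕ) × ℕ) × ℕ) × ℕ
    have e4 : Primrec (fun x : ((((((α × ℕ) × ℕ) × ℕ) × ℕ) × ℕ) × ℕ) => x.2) := Primrec.snd
    have e3 : Primrec (fun x : ((((((α × ℕ) × ℕ) × ℕ) × ℕ) × ℕ) × ℕ) => x.1.2) :=
      Primrec.snd.comp Primrec.fst
    have e2 : Primrec (fun x : ((((((α × ℕ) × ℕ) × ℕ) × ℕ) × ℕ) × ℕ) => x.1.1.2) :=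
      Primrec.snd.comp (Primrec.fst.comp Primrec.fst)
    have e1 : Primrec (fun x : ((((((α × ℕ) × ℕ) × ℕ) × ℕ) × ℕ) × ℕ) => x.1.1.1.2) :=
      Primrec.snd.comp (Primrec.fst.comp (Primrec.fst.comp Primrec.fst))
    have e0 : Primrec (fun x : ((((((α × ℕ) × ℕ) × ℕ) × ℕ) × ℕ) × ℕ) => x.1.1.1.1) :=
      (Primrec.fst.comp (Primrec.fst.comp (Primrec.fst.comp Primrec.fst)))
    have ew : Primrec (fun x : ((((((α × ℕ) × ℕ) × ℕ) × ℕ) × ℕ) × ℕ) => x.1.1.1.1.2) :=
      Primrec.snd.comp e0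
    have eL : Primrec (fun x : ((((((α × ℕ) × ℕ) × ℕ) × ℕ) × ℕ) × ℕ) => x.1.1.1.1.1.2) :=
      Primrec.snd.comp (Primrec.fst.comp e0)
    have ec : Primrec (fun x : ((((((α × ℕ) × ℕ) × ℕ) × ℕ) × ℕ) × ℕ) => x.1.1.1.1.1.1) :=
      Primrec.fst.comp (Primrec.fst.comp e0)
    have ep : Primrec (fun x : ((((((α × ℕ) × ℕ) × ℕ) × ℕ) × ℕ) × ℕ) =>
        (x.1.1.1.1.1.1, x.1.1.1.2, x.1.1.2, x.1.2, x.2)) :=
      Primrec.pair ec (Primrec.pair e1 (Primrec.pair e2 (Primrec.pair e3 e4)))
    have eT := j.hT.comp ep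
    refine imp_p ?_ ?_
    · refine forall_mem_p eT ?_
      exact Primrec.nat_lt.comp Primrec.snd (eL.comp Primrec.fst)
    · refine j.hφ.comp ep ?_
      refine Primrec.list_map eT ?_
      exact col_p ((hn.comp ec).comp Primrec.fst) (ew.comp Primrec.fst) Primrec.snd
  have := exists_lt_p (β := α × ℕ) (f := fun x => n x.1 ^ x.2)
    (p := fun x w => ∀ j ∈ J, ∀ a < x.2, ∀ b < x.2, ∀ d < x.2,
      ∀ e < x.2, (∀ t ∈ j.T (x.1, a, b, d, e), t < x.2) →
      j.φ (x.1, a, b, d, e) ((j.T (x.1, a, b, d, e)).map (col (n x.1) w)))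
    (nat_pow_p.comp (hn.comp Primrec.fst) Primrec.snd) main
  exact this

/-- satisfaction of all the constraints -/
def Sat (n : α → ℕ) (J : List (Fam α)) (c : α) (F : ℕ → ℕ) : Prop :=
  (∀ t, F t < n c) ∧ ∀ j ∈ J, ∀ a b d e : ℕ,
    j.φ (c, a, b, d, e) ((j.T (c, a, b, d, e)).map F)

theorem test_of_sat {n : α → ℕ} {J : List (Fam α)} {c : α} {F : ℕ → ℕ} (h : Sat n J c F) (L : ℕ) :
    Test n J c L := by
  obtain ⟨w, hw, h1⟩ := exists_code F h.1 L
  refine ⟨w, hw, ?_⟩
  intro j hj a _ b _ d _ e _ ht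
  have h2 : (j.T (c, a, b, d, e)).map (col (n c) w) = (j.T (c, a, b, d, e)).map F := by
    apply List.map_congr_left
    intro t htt
    exact h1 t (ht t htt)
  rw [h2]
  exact h.2 j hj a b d e

theorem exists_sat_of_test {n : α → ℕ} {J : List (Fam α)} {c : α} (h : ∀ L, Test n J c L) :
    ∃ F, Sat n J c F := by
  classical
  have hn : 0 < n c := by
    obtain ⟨w, hw, -⟩ := h 1
    rcases Nat.eq_zero_or_pos (n c) with h0 | h0
    · rw [h0] at hw; simp at hw
    · exact h0
  choose w hw hT using h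
  let U : Ultrafilter ℕ := Filter.hyperfilter ℕ
  have hU : ∀ N : ℕ, ∀ᶠ L in (U : Filter ℕ), N < L := by
    intro N
    have h1 : (U : Filter ℕ) ≤ Filter.atTop := by
      rw [← Nat.cofinite_eq_atTop]
      exact Filter.hyperfilter_le_cofinite
    exact h1 (Filter.eventually_gt_atTop N)
  have key : ∀ t : ℕ, ∃ u < n c, ∀ᶠ L in (U : Filter ℕ), col (n c) (w L) t = u := by
    intro t
    have h1 : ∀ᶠ L in (U : Filter ℕ), ∃ u ∈ Finset.range (n c), col (n c) (w L) t = u := by
      refine Filter.Eventually.of_forall ?_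
      intro L
      exact ⟨_, Finset.mem_range.mpr (col_lt hn), rfl⟩
    have h2 : ∃ u ∈ Finset.range (n c), ∀ᶠ L in (U : Filter ℕ), col (n c) (w L) t = u := by
      by_contra hcon
      have hcon : ∀ u ∈ Finset.range (n c), ¬ ∀ᶠ L in (U : Filter ℕ),
          col (n c) (w L) t = u := fun u hu h => hcon ⟨u, hu, h⟩
      have h3 : ∀ u ∈ Finset.range (n c), ∀ᶠ L in (U : Filter ℕ), ¬ col (n c) (w L) t = u := by
        intro u hu
        exact Ultrafilter.eventually_not.mpr (hcon u hu)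
      have h4 : ∀ᶠ L in (U : Filter ℕ), ∀ u ∈ Finset.range (n c), ¬ col (n c) (w L) t = u :=
        (Filter.eventually_all_finset _).mpr h3
      obtain ⟨L, hL1, hL2⟩ := (h1.and h4).exists
      obtain ⟨u, hu, hu2⟩ := hL1
      exact hL2 u hu hu2
    obtain ⟨u, hu, hu2⟩ := h2
    exact ⟨u, Finset.mem_range.mp hu, hu2⟩
  choose F hF1 hF2 using key
  refine ⟨F, hF1, ?_⟩
  intro j hj a b d e
  have h1 : ∀ᶠ L in (U : Filter ℕ), ∀ t ∈ (j.T (c, a, b, d, e)).toFinset,
      (col (n c) (w L) t = F t ∧ t < L) :=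
    (Filter.eventually_all_finset _).mpr (fun t _ => (hF2 t).and (hU t))
  obtain ⟨L, hL⟩ := (h1.and ((hU a).and ((hU b).and ((hU d).and (hU e))))).exists
  obtain ⟨hL1, hLa, hLb, hLd, hLe⟩ := hL
  have h2 := hT L j hj a hLa b hLb d hLd e hLe
    (fun t ht => (hL1 t (List.mem_toFinset.mpr ht)).2)
  have h3 : (j.T (c, a, b, d, e)).map (col (n c) (w L)) = (j.T (c, a, b, d, e)).map F := by
    apply List.map_congr_left
    intro t htt
    exact (hL1 t (List.mem_toFinset.mpr htt)).1
  rw [h3] at h2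
  exact h2

/-- **Compactness criterion**: unsolvability of a primitive recursive family of local constraints on
a bounded colouring is r.e. -/
theorem re_not_sat (n : α → ℕ) (hn : Primrec n) (J : List (Fam α)) :
    REPred (fun c => ¬ ∃ F, Sat n J c F) := by
  have h1 : REPred (fun c => ∃ L, ¬ Test n J c L) := rePred_exists_nat (test_p n hn J).not
  refine h1.of_eq ?_
  intro c
  constructor
  · rintro ⟨L, hL⟩ ⟨F, hF⟩
    exact hL (test_of_sat hF L)
  · intro h
    by_contra hcon
    push Not at hcon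
    exact h (exists_sat_of_test hcon)

end CoRe

end HypQ
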