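import Mathlib

/-!
# The filtration `BB π X n = X (1 + π^n O)` of a discrete place
-/

set_option autoImplicit false

namespace HypQ

variable {O A : Type*} [CommRing O] [CommGroup A]

/-- `B n = X (1 + π^n O)`. -/
def BB (π : O) (X : Oˣ →* A) (n : ℕ) : Subgroup A :=
  (({ carrier := {u : Oˣ | π ^ n ∣ (u : O) - 1}
      mul_mem' := by
        intro a b ha hb
        have h : ((a * b : Oˣ) : O) - 1 = (a - 1) * b + (b - 1) := by push_cast; ring
        rw [Set.mem_ofPred_eq, h]
        exact dvd_add (Dvd.dvd.mul_right ha _) hb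
      one_mem' := by simp
      inv_mem' := by
        intro a ha
        have h : ((a⁻¹ : Oˣ) : O) - 1 = -((a - 1) * (a⁻¹ : Oˣ)) := by
          have : (a : O) * (a⁻¹ : Oˣ) = 1 := a.mul_inv
          linear_combination this
        rw [Set.mem_ofPred_eq, h]
        exact (Dvd.dvd.mul_right ha _).neg_right } : Subgroup Oˣ)).map X

theorem mem_BB {π : O} {X : Oˣ →* A} {n : ℕ} {a : A} :
    a ∈ BB π X n ↔ ∃ u : Oˣ, π ^ n ∣ (u : O) - 1 ∧ X u = a := Iff.rfl

theorem BB_anti {π : O} {X : Oˣ →* A} {m n : ℕ} (h : m ≤ n) : BB π X n ≤ BB π X m := by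
  rintro a ⟨u, hu, rfl⟩
  exact ⟨u, (pow_dvd_pow π h).trans hu, rfl⟩

end HypQ
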