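import Mathlib

/-!
# Finite quotients of infinite fields: basic definitions and Gallai's theorem

`χ : K →*₀ Γ` is a homomorphism from a field to a finite commutative group with zero (the quotient
map `K → K/G`).
-/

set_option autoImplicit false

namespace HypQ

open Finset

section Gallai

/-- Gallai's theorem in an infinite field, with dilation factors in `K^×`. -/
theorem gallai (K : Type*) [Field K] [Infinite K] (F : Finset K) (κ : Type*) [Finite κ] :
    ∃ C : Finset K, ∀ f : K → κ, ∃ c d : K, c ∈ C ∧ d ≠ 0 ∧ ∀ p ∈ F, f (c + d * p) = f c := by
  classical
  -- work with the alphabet `insert 0 F`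
  set F' : Finset K := insert 0 F with hF'
  obtain ⟨ι, hι, h⟩ := Combinatorics.Line.exists_mono_in_high_dimension F' κ
  -- coefficients such that all nonempty subset sums are nonzero
  obtain ⟨e, he⟩ : ∃ e : ι → K, ∀ s : Finset ι, s.Nonempty → ∑ i ∈ s, e i ≠ 0 := by
    -- build on `Fin n`
    have key : ∀ n : ℕ, ∃ e : Fin n → K, ∀ s : Finset (Fin n), s.Nonempty → ∑ i ∈ s, e i ≠ 0 := by
      intro n
      induction n with
      | zero =>
        refine ⟨fun _ => 0, fun s hs => ?_⟩
        obtain ⟨i, -⟩ := hs
        exact i.elim0
      | succ n ih =>
        obtain ⟨e, he⟩ := ih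
        -- choose new element outside the finite set of negatives of subset sums
        obtain ⟨x, hx⟩ := Infinite.exists_notMem_finset
          ((Finset.univ : Finset (Finset (Fin n))).image (fun s => - ∑ i ∈ s, e i))
        refine ⟨Fin.snoc e x, fun s hs => ?_⟩
        by_cases hl : Fin.last n ∈ s
        · have h1 : ∑ i ∈ s, (Fin.snoc e x : Fin (n+1) → K) i
              = x + ∑ i ∈ s.preimage Fin.castSucc (Fin.castSucc_injective n).injOn, e i := by
            rw [← Finset.add_sum_erase s _ hl]
            congr 1
            · simp
            · rw [← Finset.sum_preimage Fin.castSucc (s.erase (Fin.last n))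
                (Fin.castSucc_injective n).injOn]
              · apply Finset.sum_congr
                · ext i
                  simp [Finset.mem_preimage, Fin.castSucc_ne_last]
                · intro i _
                  simp
              · intro i hi hi'
                exfalso
                apply hi'
                rw [Set.mem_range]
                have : i ≠ Fin.last n := (Finset.mem_erase.mp hi).1
                exact ⟨i.castPred this, by simp⟩
          rw [h1]
          intro h0
          apply hx
          rw [Finset.mem_image]
          exact ⟨_, Finset.mem_univ _, (eq_neg_of_add_eq_zero_left h0).symm⟩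
        · have h1 : ∑ i ∈ s, (Fin.snoc e x : Fin (n+1) → K) i
              = ∑ i ∈ s.preimage Fin.castSucc (Fin.castSucc_injective n).injOn, e i := by
            rw [← Finset.sum_preimage Fin.castSucc s
                (Fin.castSucc_injective n).injOn]
            · apply Finset.sum_congr rfl
              intro i _
              simp
            · intro i hi hi'
              exfalso
              apply hi'
              rw [Set.mem_range]
              have : i ≠ Fin.last n := fun h => hl (h ▸ hi)
              exact ⟨i.castPred this, by simp⟩
          rw [h1]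
          apply he
          obtain ⟨i, hi⟩ := hs
          have : i ≠ Fin.last n := fun h => hl (h ▸ hi)
          exact ⟨i.castPred this, by simp [Finset.mem_preimage, hi]⟩
    obtain ⟨e, he⟩ := key (Fintype.card ι)
    let E := Fintype.equivFin ι
    refine ⟨fun i => e (E i), fun s hs => ?_⟩
    have := he (s.map E.toEmbedding) (by simpa using hs)
    simpa using this
  let Φ : (ι → F') → K := fun w => ∑ i, e i * (w i : K)
  refine ⟨Finset.univ.image Φ, fun f => ?_⟩
  obtain ⟨l, c0, hl⟩ := h (fun w => f (Φ w))
  have h0 : (0 : K) ∈ F' := by simp [hF']
  -- the set of moving coordinates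
  let J : Finset ι := Finset.univ.filter (fun i => l.idxFun i = none)
  have hJ : J.Nonempty := by
    obtain ⟨i, hi⟩ := l.proper
    exact ⟨i, by simp [J, hi]⟩
  refine ⟨Φ (l ⟨0, h0⟩), ∑ i ∈ J, e i, Finset.mem_image_of_mem _ (Finset.mem_univ _), he J hJ, ?_⟩
  intro p hp
  have hp' : p ∈ F' := by simp [hF', hp]
  have h2 : Φ (l ⟨p, hp'⟩) = Φ (l ⟨0, h0⟩) + (∑ i ∈ J, e i) * p := by
    simp only [Φ, J]
    rw [Finset.sum_mul, Finset.sum_filter, ← Finset.sum_add_distrib]
    apply Finset.sum_congr rfl
    intro i _
    by_cases hi : l.idxFun i = none
    · rw [if_pos hi, Combinatorics.Line.apply_none _ _ _ hi,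
        Combinatorics.Line.apply_none _ _ _ hi]
      simp
    · rw [if_neg hi]
      obtain ⟨y, hy⟩ := Option.ne_none_iff_exists'.mp hi
      rw [Combinatorics.Line.apply_some hy, Combinatorics.Line.apply_some hy]
      simp
  rw [← h2]
  exact (hl _).trans (hl _).symm

end Gallai

end HypQ
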