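import Mathlib

/-! # MP_9f0b3e_al (S02499): common definitions (helper62). See /team-store/HF_proof.txt -/

set_option autoImplicit false

namespace HF

/-- Relation set of a character `χ : Kˣ →* A`: classes of triples of nonzero elements with sum zero. -/
def TT {K A : Type*} [Field K] [CommGroup A] (χ : Kˣ →* A) : Set (A × A × A) :=
  {t | ∃ a b c : Kˣ, (a : K) + b + c = 0 ∧ t = (χ a, χ b, χ c)}

/-- `x` is a nonzero element of class `1` (i.e. `x ∈ G = ker χ`). -/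
def InG {K A : Type*} [Field K] [CommGroup A] (χ : Kˣ →* A) (x : K) : Prop :=
  ∃ u : Kˣ, (u : K) = x ∧ χ u = 1

/-- the stabiliser condition for `z`. -/
def IsStab {A : Type*} [CommGroup A] (T : Set (A × A × A)) (z : A) : Prop :=
  ∀ x y w : A, (x, y, w) ∈ T → (z * x, y, w) ∈ T

/-- `T` is reduced: only `1` stabilises. -/
def Reduced {A : Type*} [CommGroup A] (T : Set (A × A × A)) : Prop :=
  ∀ z : A, IsStab T z → z = 1

/-- All permutations of `(x, ε x, y)` (used with `ε ^ 2 = 1`). -/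
def EE {A : Type*} [CommGroup A] (ε : A) : Set (A × A × A) :=
  {t | t.2.1 = ε * t.1 ∨ t.2.2 = ε * t.1 ∨ t.2.2 = ε * t.2.1}

/-- Units of the prime ring. -/
def pu (p : ℕ) (K : Type*) [Ring K] [CharP K p] : (ZMod p)ˣ →* Kˣ :=
  Units.map (ZMod.castHom (dvd_refl p) K).toMonoidHom

/-- Realisability of `(A, T, ω)` by an infinite field of characteristic `p`. -/
def REAL (p : ℕ) (A : Type) [CommGroup A] (T : Set (A × A × A)) (ω : (ZMod p)ˣ →* A) : Prop :=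
  ∃ (K : Type) (_ : Field K) (_ : CharP K p) (_ : Infinite K) (χ : Kˣ →* A),
    Function.Surjective χ ∧ TT χ = T ∧ χ.comp (pu p K) = ω

/-- Preimage of a relation set. -/
def preT {A A' : Type*} (q : A → A') (T' : Set (A' × A' × A')) : Set (A × A × A) :=
  {t | (q t.1, q t.2.1, q t.2.2) ∈ T'}

/-- Product of two relation sets inside `A`. -/
def prodT {A A₁ A₂ : Type*} [CommGroup A] (j₁ : A₁ → A) (j₂ : A₂ → A)
    (T₁ : Set (A₁ × A₁ × A₁)) (T₂ : Set (A₂ × A₂ × A₂)) : Set (A × A × A) :=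
  {t | ∃ s ∈ T₁, ∃ r ∈ T₂, t = (j₁ s.1 * j₂ r.1, j₁ s.2.1 * j₂ r.2.1, j₁ s.2.2 * j₂ r.2.2)}

/-- `A · j(T₀) ∪ E_A(ε)`. -/
def extT {A A₀ : Type*} [CommGroup A] (j : A₀ → A) (T₀ : Set (A₀ × A₀ × A₀)) (ε : A) :
    Set (A × A × A) :=
  {t | ∃ h : A, ∃ s ∈ T₀, t = (h * j s.1, h * j s.2.1, h * j s.2.2)} ∪ EE ε

/-- not all three equal. -/
def TREAL (A : Type*) : Set (A × A × A) := {t | ¬ (t.1 = t.2.1 ∧ t.2.1 = t.2.2)}

/-- the small element in any of the three positions. -/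
def Cyc {A : Type*} (W : Set (A × A × A)) : Set (A × A × A) :=
  {t | (t.1, t.2.1, t.2.2) ∈ W ∨ (t.2.1, t.1, t.2.2) ∈ W ∨ (t.2.2, t.1, t.2.1) ∈ W}

/-- The formula for a discrete valuation, in terms of the ring `L = V / m^N` (`π` the image of the
uniformiser, `χ` the induced character on the units of `L`, `g` the class of the uniformiser). -/
def FormL {L A : Type*} [CommRing L] [CommGroup A] (π : L) (χ : Lˣ →* A) (g : A) :
    Set (A × A × A) :=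
  {t | ∃ (h : A) (a b c : Lˣ), (a : L) + b + c = 0 ∧ t = (h * χ a, h * χ b, h * χ c)} ∪
  Cyc {t | ∃ (h : A) (e : ℕ) (u v : Lˣ), 1 ≤ e ∧ (v : L) = 1 + π ^ e * u ∧
    t = (h * (g ^ e * χ u), h, h * (χ (-1) * χ v))}

/-- The formula for a discrete valuation with infinite residue field. -/
def FormW {A A' : Type*} [CommGroup A] [CommGroup A'] (A₀ : Subgroup A) (g : A)
    (B : ℕ → Subgroup A) (q : A₀ →* A') (T' : Set (A' × A' × A')) (ε : A) : Set (A × A × A) :=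
  {t | ∃ (h : A) (x y z : A₀), (q x, q y, q z) ∈ T' ∧ t = (h * x, h * y, h * z)} ∪
  Cyc {t | ∃ (h : A) (e : ℕ) (w : A₀) (y : A), 1 ≤ e ∧ y ∈ B e ∧
    t = (h * (g ^ e * w), h, h * (ε * y))}

/-- Finite (or any) local principal ring with uniformiser `π`. -/
structure IsChain (L : Type*) [CommRing L] (π : L) : Prop where
  nontrivial : Nontrivial L
  nilp : IsNilpotent π
  unit_or : ∀ x : L, IsUnit x ∨ π ∣ x

/-- The certificate class. -/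
inductive Cert : ∀ (p : ℕ) (A : Type) [CommGroup A], Set (A × A × A) → ((ZMod p)ˣ →* A) → Prop
  | iso {p : ℕ} {A A' : Type} [CommGroup A] [CommGroup A'] [Finite A] [Finite A']
      (f : A ≃* A') {T : Set (A × A × A)} {ω : (ZMod p)ˣ →* A}
      (h : Cert p A T ω) : Cert p A' (preT f.symm T) (f.toMonoidHom.comp ω)
  | triv {p : ℕ} (hp : p = 0 ∨ p.Prime) {A : Type} [CommGroup A] [Subsingleton A]
      (ω : (ZMod p)ˣ →* A) : Cert p A Set.univ ω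
  | lift {p : ℕ} {A A' : Type} [CommGroup A] [CommGroup A'] [Finite A] [Finite A']
      (q : A →* A') (hq : Function.Surjective q) {T' : Set (A' × A' × A')}
      (ω : (ZMod p)ˣ →* A) (h : Cert p A' T' (q.comp ω)) : Cert p A (preT q T') ω
  | prod {p : ℕ} {A A₁ A₂ : Type} [CommGroup A] [CommGroup A₁] [CommGroup A₂]
      [Finite A] [Finite A₁] [Finite A₂]
      (j₁ : A₁ →* A) (j₂ : A₂ →* A) (hj : ∀ a : A, ∃ x y, a = j₁ x * j₂ y)
      {T₁ : Set (A₁ × A₁ × A₁)} {T₂ : Set (A₂ × A₂ × A₂)}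
      {ω₁ : (ZMod p)ˣ →* A₁} {ω₂ : (ZMod p)ˣ →* A₂}
      (h₁ : Cert p A₁ T₁ ω₁) (h₂ : Cert p A₂ T₂ ω₂) :
      Cert p A (prodT j₁ j₂ T₁ T₂) (j₁.comp ω₁ * j₂.comp ω₂)
  | real {A : Type} [CommGroup A] [Finite A] (ω : (ZMod 0)ˣ →* A) (hε : ω (-1) ≠ 1)
      (h : ∀ a : A, a = 1 ∨ a = ω (-1)) : Cert 0 A (TREAL A) ω
  | ext {p : ℕ} {A A₀ : Type} [CommGroup A] [CommGroup A₀] [Finite A] [Finite A₀]
      (j : A₀ →* A) {T₀ : Set (A₀ × A₀ × A₀)} {ω₀ : (ZMod p)ˣ →* A₀}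
      (h : Cert p A₀ T₀ ω₀) : Cert p A (extT j T₀ (j (ω₀ (-1)))) (j.comp ω₀)
  | red {p : ℕ} (hp : p.Prime) {A : Type} [CommGroup A] [Finite A]
      {T : Set (A × A × A)} {ω : (ZMod p)ˣ →* A} (h : Cert p A T ω)
      (ω₀ : (ZMod 0)ˣ →* A) (h0 : ω₀ (-1) = ω (-1)) : Cert 0 A T ω₀
  | chain0 {A L : Type} [CommGroup A] [Finite A] [CommRing L] [Finite L] (π : L)
      (hL : IsChain L π) (χ : Lˣ →* A) (g : A) (hg : ∀ a : A, ∃ (n : ℕ) (u : Lˣ), a = g ^ n * χ u)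
      (ω : (ZMod 0)ˣ →* A) (hω : ω (-1) = χ (-1)) : Cert 0 A (FormL π χ g) ω
  | chainp {p : ℕ} (hp : p.Prime) {A L : Type} [CommGroup A] [Finite A] [CommRing L] [Finite L]
      [CharP L p] (π : L)
      (hL : IsChain L π) (χ : Lˣ →* A) (g : A) (hg : ∀ a : A, ∃ (n : ℕ) (u : Lˣ), a = g ^ n * χ u) :
      Cert p A (FormL π χ g) (χ.comp (pu p L))
  | wildp {p : ℕ} (hp : p.Prime) {A A' : Type} [CommGroup A] [CommGroup A'] [Finite A] [Finite A']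
      (A₀ : Subgroup A) (g : A) (hg : ∀ a : A, ∃ (n : ℕ), ∃ x ∈ A₀, a = g ^ n * x)
      (B : ℕ → Subgroup A) (hB0 : ∀ i, 1 ≤ i → B i ≤ A₀) (hBa : ∀ i, 1 ≤ i → B (i + 1) ≤ B i)
      (hBN : ∃ N, B N = ⊥ ∧ 1 ≤ N) (q : A₀ →* A') (hq : Function.Surjective q)
      (hker : ∀ x : A₀, q x = 1 ↔ (x : A) ∈ B 1)
      (C3 : ∀ i, 1 ≤ i → ∀ b ∈ B i, b ^ p ∈ B (p * i))
      {T' : Set (A' × A' × A')} {ω' : (ZMod p)ˣ →* A'} (h : Cert p A' T' ω')
      (ω : (ZMod p)ˣ →* A₀) (hω : q.comp ω = ω') :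
      Cert p A (FormW A₀ g B q T' (ω (-1))) (A₀.subtype.comp ω)
  | wild0 {p : ℕ} (hp : p.Prime) (e : ℕ) (he : 1 ≤ e)
      {A A' : Type} [CommGroup A] [CommGroup A'] [Finite A] [Finite A']
      (A₀ : Subgroup A) (g : A) (hg : ∀ a : A, ∃ (n : ℕ), ∃ x ∈ A₀, a = g ^ n * x)
      (B : ℕ → Subgroup A) (hB0 : ∀ i, 1 ≤ i → B i ≤ A₀) (hBa : ∀ i, 1 ≤ i → B (i + 1) ≤ B i)
      (hBN : ∃ N, B N = ⊥ ∧ 1 ≤ N) (q : A₀ →* A') (hq : Function.Surjective q)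
      (hker : ∀ x : A₀, q x = 1 ↔ (x : A) ∈ B 1)
      (C3 : ∀ i, 1 ≤ i → ∀ b ∈ B i, b ^ p ∈ B (min (p * i) (i + e)))
      (C4 : ∀ i, 1 ≤ i → e < (p - 1) * i →
        ∀ b ∈ B (i + e), ∃ a ∈ B i, ∃ c ∈ B (i + e + 1), b = a ^ p * c)
      {T' : Set (A' × A' × A')} {ω' : (ZMod p)ˣ →* A'} (h : Cert p A' T' ω')
      (ω : (ZMod 0)ˣ →* A₀) (hω : q (ω (-1)) = ω' (-1)) (h2 : p = 2 → (ω (-1) : A) ∈ B e) :
      Cert 0 A (FormW A₀ g B q T' (ω (-1))) (A₀.subtype.comp ω)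

end HF
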