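import Mathlib

/-!
# Common definitions: the pair set of a character, chain rings, derivations

A character of a field `K` with values in a commutative group `A` is a homomorphism
`χ : K →*₀ WithZero A`. Everything about the quotient hyperfield is contained in
`NN χ = {(χ a, χ b) : a + b = 1}`, the image `HH χ`, and the values on the prime ring.
`ZMod 0 = ℤ`, so `(ZMod c)ˣ` is `{1, -1}` for `c = 0`.
-/

set_option autoImplicit false

namespace HypQ

open Pointwise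

/-! ## Characters of fields and domains -/

/-- The pair set of a character of a domain: `(x, y)` with `a + b = c`, `ψ a = x ψ c`,
`ψ b = y ψ c`, `c ≠ 0`. For a field one may take `c = 1`. -/
def NN {P A : Type*} [CommRing P] [CommGroup A] (ψ : P →*₀ WithZero A) : Set (A × A) :=
  {p | ∃ a b c : P, c ≠ 0 ∧ a + b = c ∧ ψ a = (p.1 : WithZero A) * ψ c ∧
    ψ b = (p.2 : WithZero A) * ψ c}

/-- The image of a character of a domain (on the fraction field). -/
def HH {P A : Type*} [CommRing P] [CommGroup A] (ψ : P →*₀ WithZero A) : Subgroup A :=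
  Subgroup.closure {h : A | ∃ a : P, ψ a = (h : WithZero A)}

/-- `ψ` does not vanish on nonzero elements. -/
def NV {P A : Type*} [CommRing P] [CommGroup A] (ψ : P →*₀ WithZero A) : Prop :=
  ∀ a : P, a ≠ 0 → ψ a ≠ 0

/-- `α` is the restriction of `ψ` to the units of the prime ring. -/
def IsPrimeRes {P A : Type*} [CommRing P] [CommGroup A] (c : ℕ) (ψ : P →*₀ WithZero A)
    (α : (ZMod c)ˣ →* A) : Prop :=
  ∀ (j : ZMod c →+* P) (u : (ZMod c)ˣ), ψ (j (u : ZMod c)) = (α u : WithZero A)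

/-- The data `(c, A, α, H, N)` are realised by an infinite field of characteristic `c`. -/
def Real (c : ℕ) (A : Type) [CommGroup A] (α : (ZMod c)ˣ →* A) (H : Subgroup A)
    (N : Set (A × A)) : Prop :=
  ∃ (K : Type) (_ : Field K) (_ : CharP K c) (_ : Infinite K) (χ : K →*₀ WithZero A),
    NN χ = N ∧ HH χ = H ∧ IsPrimeRes c χ α

/-- The universal domain `F_c[x_1, ..., x_n]`. -/
abbrev UP (c n : ℕ) : Type := MvPolynomial (Fin n) (ZMod c)

/-- The data are realised by `F_c(x_1, ..., x_n)`. -/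
def RealU (c n : ℕ) (A : Type) [CommGroup A] (α : (ZMod c)ˣ →* A) (H : Subgroup A)
    (N : Set (A × A)) : Prop :=
  ∃ ψ : UP c n →*₀ WithZero A, NV ψ ∧ NN ψ = N ∧ HH ψ = H ∧ IsPrimeRes c ψ α

/-- Kronecker dimension, in the form in which it is used: chains of nontrivial valuation rings. -/
def DimLE : ℕ → (K : Type) → [Field K] → Prop
  | 0, K, _ => ∀ O : ValuationSubring K, O = ⊤
  | d + 1, K, _ => ∀ O : ValuationSubring K, O ≠ ⊤ → DimLE d (IsLocalRing.ResidueField O)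

/-! ## The pair sets of the rules -/

/-- pairs `(y, 1), (1, y), (y, ε y)`, `y ∈ H` : what a tame place adds. -/
def tameSet {A : Type*} [CommGroup A] (ε : A) (H : Subgroup A) : Set (A × A) :=
  {p | ∃ y ∈ H, p = (y, 1) ∨ p = (1, y) ∨ p = (y, ε * y)}

/-- pairs `(y, b), (b, y), (y⁻¹, ε b y⁻¹)`. -/
def placeSet {A : Type*} [CommGroup A] (ε : A) (Y : Set (A × A)) : Set (A × A) :=
  {p | ∃ y b : A, (y, b) ∈ Y ∧ (p = (y, b) ∨ p = (b, y) ∨ p = (y⁻¹, ε * b * y⁻¹))}

/-- `R` is a local ring whose maximal ideal is generated by the nilpotent element `π`. -/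
def IsChain (R : Type*) [CommRing R] (π : R) : Prop :=
  Nontrivial R ∧ (∃ N : ℕ, π ^ N = 0) ∧ ∀ x : R, IsUnit x ∨ ∃ y, x = π * y

/-- Unit pairs `(X t, X s)`, `t + s = 1`. -/
def unitSet {R A : Type*} [CommRing R] [CommGroup A] (X : Rˣ →* A) : Set (A × A) :=
  {p | ∃ t s : Rˣ, (t : R) + s = 1 ∧ p = (X t, X s)}

/-- pairs `(X (π^n w), X (1 - π^n w))`, `n ≥ 1`, `w` a unit, `X π = g`. -/
def smallSet {R A : Type*} [CommRing R] [CommGroup A] (π : R) (X : Rˣ →* A) (g : A) :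
    Set (A × A) :=
  {p | ∃ (n : ℕ) (w v : Rˣ), 1 ≤ n ∧ (v : R) = 1 - π ^ n * w ∧ p = (g ^ n * X w, X v)}

/-- The pair set of a character of a discrete valuation ring (`R = O`) or of a chain ring. -/
def NR {R A : Type*} [CommRing R] [CommGroup A] (π : R) (X : Rˣ →* A) (g : A) : Set (A × A) :=
  unitSet X ∪ placeSet (X (-1)) (smallSet π X g)

/-- The pair set of a discrete place with infinite residue field: `A₀ = φ⁻¹ H'`. -/
def wildSet {A A' : Type*} [CommGroup A] [CommGroup A'] (φ : A →* A') (ε g : A)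
    (H' : Subgroup A') (N' : Set (A' × A')) (B : ℕ → Subgroup A) : Set (A × A) :=
  {p | (φ p.1, φ p.2) ∈ N'} ∪
    placeSet ε {p | ∃ n : ℕ, 1 ≤ n ∧ φ (p.1 * (g ^ n)⁻¹) ∈ H' ∧ p.2 ∈ B n}

/-- The conditions on the filtration `B n = X (1 + π^n O)` of a place with residue
characteristic `p` and ramification index `e`, conductor at most `M`. -/
structure ChainOK {A A' : Type*} [CommGroup A] [CommGroup A'] (p e M : ℕ) (φ : A →* A') (ε : A)
    (B : ℕ → Subgroup A) : Prop where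
  e_pos : 1 ≤ e
  M_pos : 1 ≤ M
  anti : ∀ n, 1 ≤ n → B (n + 1) ≤ B n
  one : B 1 = φ.ker
  top : ∀ n, M ≤ n → B n = ⊥
  pow : ∀ n, 1 ≤ n → ∀ b ∈ B n, b ^ p ∈ B (min (p * n) (n + e))
  gen : ∀ n, 1 ≤ n → e < n * (p - 1) → ∀ b ∈ B (n + e), ∃ b₁ ∈ B n, ∃ b₂ ∈ B (n + e + 1),
    b = b₁ ^ p * b₂
  eps : p = 2 → ε ∈ B e

/-- Derivations: the data `(c, A, α, H, N)` that are realised by infinite fields. -/
inductive Der : (c : ℕ) → (A : Type) → [CommGroup A] → ((ZMod c)ˣ →* A) → Subgroup A →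
    Set (A × A) → Prop
  | triv (c : ℕ) (hc : c = 0 ∨ c.Prime) (A : Type) [CommGroup A] : Der c A 1 ⊥ {(1, 1)}
  | sign (A : Type) [CommGroup A] (α : (ZMod 0)ˣ →* A) :
      Der 0 A α (Subgroup.zpowers (α (-1))) {(1, 1), (1, α (-1)), (α (-1), 1)}
  | prod (c : ℕ) (A : Type) [CommGroup A] (α₁ α₂ : (ZMod c)ˣ →* A) (H₁ H₂ : Subgroup A)
      (N₁ N₂ : Set (A × A)) (h₁ : Der c A α₁ H₁ N₁) (h₂ : Der c A α₂ H₂ N₂) :
      Der c A (α₁ * α₂) (H₁ ⊔ H₂) (N₁ * N₂)
  | lift (c : ℕ) (A A' : Type) [CommGroup A] [CommGroup A'] (φ : A →* A')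
      (hφ : Function.Surjective φ) (α : (ZMod c)ˣ →* A) (H' : Subgroup A') (N' : Set (A' × A'))
      (h : Der c A' (φ.comp α) H' N') : Der c A α (H'.comap φ) {p | (φ p.1, φ p.2) ∈ N'}
  | tame (c : ℕ) (A : Type) [CommGroup A] (α : (ZMod c)ˣ →* A) (H : Subgroup A)
      (N : Set (A × A)) (g : A) (h : Der c A α H N) :
      Der c A α (H ⊔ Subgroup.zpowers g) (N ∪ tameSet (α (-1)) (H ⊔ Subgroup.zpowers g))
  | red (p : ℕ) (hp : p.Prime) (A : Type) [CommGroup A] (α : (ZMod p)ˣ →* A)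
      (α₀ : (ZMod 0)ˣ →* A) (hα : α₀ (-1) = α (-1)) (H : Subgroup A) (N : Set (A × A))
      (h : Der p A α H N) : Der 0 A α₀ H N
  | fin (c : ℕ) (hc : c = 0 ∨ c.Prime) (A : Type) [CommGroup A] (R : Type) [CommRing R]
      [Finite R] (π : R) (hR : IsChain R π) (j : ZMod c →+* R) (X : Rˣ →* A) (g : A) :
      Der c A (X.comp (Units.map j.toMonoidHom)) (X.range ⊔ Subgroup.zpowers g) (NR π X g)
  | wild (c p : ℕ) (hp : p.Prime) (A A' : Type) [CommGroup A] [CommGroup A'] (φ : A →* A')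
      (hφ : Function.Surjective φ) (α : (ZMod c)ˣ →* A) (α' : (ZMod p)ˣ →* A')
      (H' : Subgroup A') (N' : Set (A' × A')) (g : A) (B : ℕ → Subgroup A) (e M : ℕ)
      (hc : (c = 0 ∧ φ (α (-1)) = α' (-1)) ∨
        (c = p ∧ M ≤ e ∧ ∀ (u : (ZMod c)ˣ) (v : (ZMod p)ˣ), ((u : ZMod c).val = (v : ZMod p).val) →
          φ (α u) = α' v))
      (hB : ChainOK p e M φ (α (-1)) B) (h : Der p A' α' H' N') :
      Der c A α (H'.comap φ ⊔ Subgroup.zpowers g) (wildSet φ (α (-1)) g H' N' B)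

end HypQ
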