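import Mathlib
import Pool.Agent.Lib.MP_9f0b3e_al.Defs

/-! # MP_9f0b3e_al (S02499), module CHLIFT (helper14): every finite chain ring is a quotient of a
discrete valuation ring, of characteristic `0` or of the characteristic of the chain ring. -/

set_option autoImplicit false

namespace HypQ

open Polynomial

section Chain

variable {R : Type*} [CommRing R] {π : R}

theorem IsChain.not_isUnit (hR : IsChain R π) : ¬ IsUnit π := by
  obtain ⟨_, ⟨N, hN⟩, _⟩ := hR
  intro h
  have := h.pow N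
  rw [hN] at this
  exact not_isUnit_zero this

theorem IsChain.not_isUnit_mul (hR : IsChain R π) (x : R) : ¬ IsUnit (π * x) := fun h =>
  hR.not_isUnit (isUnit_of_mul_isUnit_left h)

theorem IsChain.eq_pow_mul (hR : IsChain R π) (x : R) : ∃ (e : ℕ) (u : Rˣ), x = π ^ e * u := by
  obtain ⟨hnt, ⟨N, hN⟩, hu⟩ := hR
  have key : ∀ n : ℕ, (∃ (e : ℕ) (u : Rˣ), x = π ^ e * u) ∨ ∃ y, x = π ^ n * y := by
    intro n
    induction n with
    | zero => right; exact ⟨x, by simp⟩
    | succ n ih =>
      rcases ih with h | ⟨y, hy⟩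
      · left; exact h
      · rcases hu y with h | ⟨z, hz⟩
        · left
          obtain ⟨u, rfl⟩ := h
          exact ⟨n, u, hy⟩
        · right
          exact ⟨z, by rw [hy, hz, pow_succ, mul_assoc]⟩
  rcases key N with h | ⟨y, hy⟩
  · exact h
  · exact ⟨N, 1, by rw [hy, hN]; simp⟩

theorem IsChain.eq_pow_mul' (hR : IsChain R π) {x : R} (hx : ∃ y, x = π * y) :
    ∃ (e : ℕ) (u : Rˣ), 1 ≤ e ∧ x = π ^ e * u := by
  obtain ⟨y, hy⟩ := hx
  obtain ⟨e, u, h⟩ := hR.eq_pow_mul y
  exact ⟨e + 1, u, by omega, by rw [hy, h, pow_succ]; ring⟩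

theorem IsChain.isLocalRing (hR : IsChain R π) : IsLocalRing R := by
  obtain ⟨hnt, ⟨N, hN⟩, hu⟩ := hR
  refine IsLocalRing.of_nonunits_add ?_
  intro a b ha hb
  have h1 : ∃ y, a = π * y := by
    rcases hu a with h | h
    · exact absurd h ha
    · exact h
  have h2 : ∃ y, b = π * y := by
    rcases hu b with h | h
    · exact absurd h hb
    · exact h
  obtain ⟨y, rfl⟩ := h1
  obtain ⟨z, rfl⟩ := h2
  rw [← mul_add]
  exact IsChain.not_isUnit_mul ⟨hnt, ⟨N, hN⟩, hu⟩ _

theorem IsChain.isMaximal (hR : IsChain R π) : (Ideal.span {π}).IsMaximal := by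
  obtain ⟨hnt, ⟨N, hN⟩, hu⟩ := hR
  rw [Ideal.isMaximal_iff]
  constructor
  · intro h
    rw [Ideal.mem_span_singleton] at h
    exact IsChain.not_isUnit ⟨hnt, ⟨N, hN⟩, hu⟩ (isUnit_of_dvd_one h)
  · intro J x hJ hx hxJ
    rcases hu x with h | ⟨y, hy⟩
    · exact (Ideal.eq_top_of_isUnit_mem J hxJ h).symm ▸ Submodule.mem_top
    · exact absurd (Ideal.mem_span_singleton.2 ⟨y, hy⟩) hx

end Chain

theorem deg_C_mul_lt {W : Type*} [CommRing W] {Q : W[X]} {n : WithBot ℕ} (a : W)
    (h : Q.degree < n) : (Polynomial.C a * Q).degree < n := by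
  rw [← smul_eq_C_mul]
  exact (degree_smul_le a Q).trans_lt h

/-- **Eisenstein lemma**: a DVR `W` with a homomorphism `φ` to a chain ring `R`, surjective modulo
`π`, has an Eisenstein extension which surjects onto `R`. -/
theorem eisenstein_lift {W R : Type} [CommRing W] [IsDomain W] [IsDiscreteValuationRing W]
    [CommRing R] {π : R} (hR : IsChain R π) (φ : W →+* R) {ϖ : W} (hϖ : Irreducible ϖ)
    (h1 : ∀ y : R, ∃ (c : W) (z : R), y = φ c + π * z) (h2 : ∃ z, φ ϖ = π * z) :
    ∃ (O : Type) (_ : CommRing O) (_ : IsDomain O) (_ : IsDiscreteValuationRing O)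
      (i : W →+* O) (_ : Function.Injective i) (ϖ' : O) (f : O →+* R),
      Irreducible ϖ' ∧ f ϖ' = π ∧ Function.Surjective f ∧ (∀ x : O, IsUnit x ↔ IsUnit (f x)) := by
  obtain ⟨hnt, ⟨N, hN⟩, hu⟩ := id hR
  obtain ⟨e, u, he, hpu⟩ := hR.eq_pow_mul' h2
  -- the set of values of polynomials of degree < e
  have hS1 : ∀ y : R, ∃ (Q : W[X]) (z : R), Q.degree < e ∧ y = Q.eval₂ φ π + φ ϖ * z := by
    have aux : ∀ n : ℕ, ∀ y : R, ∃ (Q : W[X]) (z : R), Q.degree < n ∧
        y = Q.eval₂ φ π + π ^ n * z := by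
      intro n
      induction n with
      | zero => intro y; exact ⟨0, y, by simp, by simp⟩
      | succ n ih =>
        intro y
        obtain ⟨Q, z, hQ, hy⟩ := ih y
        obtain ⟨c, w, hz⟩ := h1 z
        refine ⟨Q + C c * X ^ n, w, ?_, ?_⟩
        · have hnn : ((n : ℕ) : WithBot ℕ) < ((n + 1 : ℕ) : WithBot ℕ) := by
            exact_mod_cast Nat.lt_succ_self n
          refine lt_of_le_of_lt (degree_add_le _ _) (max_lt ?_ ?_)
          · exact lt_trans hQ hnn
          · exact lt_of_le_of_lt (degree_C_mul_X_pow_le n c) hnn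
        · rw [eval₂_add, eval₂_mul, eval₂_C, eval₂_X_pow, hy, hz, pow_succ]
          ring
    intro y
    obtain ⟨Q, z, hQ, hy⟩ := aux e y
    refine ⟨Q, ((u⁻¹ : Rˣ) : R) * z, hQ, ?_⟩
    rw [hy, hpu]
    congr 1
    rw [mul_assoc, ← mul_assoc (u : R)]
    simp
  have hS : ∀ y : R, ∃ Q : W[X], Q.degree < e ∧ y = Q.eval₂ φ π := by
    have aux : ∀ n : ℕ, ∀ y : R, ∃ (Q : W[X]) (z : R), Q.degree < e ∧
        y = Q.eval₂ φ π + (φ ϖ) ^ n * z := by
      intro n
      induction n with
      | zero =>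
        intro y
        exact ⟨0, y, by rw [degree_zero]; exact WithBot.bot_lt_coe _, by simp⟩
      | succ n ih =>
        intro y
        obtain ⟨Q, z, hQ, hy⟩ := ih y
        obtain ⟨Q', w, hQ', hz⟩ := hS1 z
        refine ⟨Q + C (ϖ ^ n) * Q', w, ?_, ?_⟩
        · refine lt_of_le_of_lt (degree_add_le _ _) (max_lt hQ ?_)
          exact deg_C_mul_lt _ hQ'
        · rw [eval₂_add, eval₂_mul, eval₂_C, hy, hz, pow_succ, map_pow]
          ring
    intro y
    obtain ⟨Q, z, hQ, hy⟩ := aux N y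
    refine ⟨Q, hQ, ?_⟩
    rw [hy, hpu, mul_pow, ← pow_mul]
    have : π ^ (e * N) = 0 := by
      rw [mul_comm, pow_mul, hN, zero_pow (by omega)]
    rw [this]; ring
  obtain ⟨Q, hQ, hQu⟩ := hS ((u⁻¹ : Rˣ) : R)
  obtain ⟨E, hE⟩ : ∃ E : W[X], E = X ^ e - Polynomial.C ϖ * Q := ⟨_, rfl⟩
  have hdeg : (Polynomial.C ϖ * Q).degree < e := deg_C_mul_lt _ hQ
  have hmonic : E.Monic := hE ▸ monic_X_pow_sub hdeg
  have hnat : E.natDegree = e := by
    have : E.degree = e := by
      rw [hE, degree_sub_eq_left_of_degree_lt (by rw [degree_X_pow]; exact hdeg), degree_X_pow]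
    exact natDegree_eq_of_degree_eq_some this
  have hEval : E.eval₂ φ π = 0 := by
    rw [hE, eval₂_sub, eval₂_mul, eval₂_C, eval₂_X_pow, ← hQu, hpu, mul_assoc]
    simp
  -- the constant coefficient of Q is a unit
  have hloc : ∀ c : W, ¬ IsUnit c → ∃ d, c = ϖ * d := by
    intro c hc
    have : c ∈ IsLocalRing.maximalIdeal W := (IsLocalRing.mem_maximalIdeal c).2 hc
    rw [hϖ.maximalIdeal_eq, Ideal.mem_span_singleton] at this
    exact this
  have hq0 : IsUnit (Q.coeff 0) := by
    by_contra hcon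
    obtain ⟨d, hd⟩ := hloc _ hcon
    obtain ⟨z, hz⟩ := h2
    have h3 : ∃ w, Q.eval₂ φ π = φ (Q.coeff 0) + π * w := by
      have : Q = C (Q.coeff 0) + X * Q.divX := by
        rw [add_comm, X_mul]; exact (divX_mul_X_add Q).symm
      refine ⟨Q.divX.eval₂ φ π, ?_⟩
      conv_lhs => rw [this]
      rw [eval₂_add, eval₂_mul, eval₂_C, eval₂_X]
    obtain ⟨w, hw⟩ := h3
    have h4 : ((u⁻¹ : Rˣ) : R) = π * (z * φ d + w) := by
      rw [hQu, hw, hd, map_mul, hz]; ring
    exact hR.not_isUnit_mul _ (h4 ▸ (u⁻¹).isUnit)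
  have hE0 : E.coeff 0 = - (ϖ * Q.coeff 0) := by
    rw [hE, coeff_sub, coeff_C_mul, coeff_X_pow, if_neg (by omega), zero_sub]
  have hEis : E.IsEisensteinAt (Ideal.span {ϖ}) := by
    refine ⟨?_, ?_, ?_⟩
    · rw [hmonic.leadingCoeff, Ideal.mem_span_singleton]
      intro h
      exact hϖ.not_isUnit (isUnit_of_dvd_one h)
    · intro n hn
      rw [hnat] at hn
      rw [hE, coeff_sub, coeff_C_mul, coeff_X_pow, if_neg (by omega), zero_sub,
        Ideal.mem_span_singleton]
      exact (Dvd.intro _ rfl).neg_right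
    · rw [hE0, Ideal.span_singleton_pow, Ideal.mem_span_singleton]
      intro h
      rw [dvd_neg, pow_two] at h
      have := (mul_dvd_mul_iff_left hϖ.ne_zero).1 h
      exact hϖ.not_isUnit (isUnit_of_dvd_unit this hq0)
  have hprime : (Ideal.span {ϖ}).IsPrime := by
    rw [Ideal.span_singleton_prime hϖ.ne_zero]
    exact hϖ.prime
  have hirr : Irreducible E := hEis.irreducible hprime hmonic.isPrimitive (by rw [hnat]; omega)
  have hEprime : Prime E := hirr.prime
  have : IsDomain (AdjoinRoot E) := AdjoinRoot.isDomain_of_prime hEprime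
  have hEdeg : E.degree ≠ 0 := by
    rw [degree_eq_natDegree hmonic.ne_zero, hnat]
    exact_mod_cast (by omega : e ≠ 0)
  have hinj : Function.Injective (AdjoinRoot.of E) := AdjoinRoot.of.injective_of_degree_ne_zero hEdeg
  set r : AdjoinRoot E := AdjoinRoot.root E with hr
  -- root ^ e = ϖ * Q(root)
  have hroot : r ^ e = AdjoinRoot.of E ϖ * AdjoinRoot.mk E Q := by
    have h3 : AdjoinRoot.mk E (X ^ e - Polynomial.C ϖ * Q) = 0 := by
      rw [← hE]; exact AdjoinRoot.mk_self
    have h4 : AdjoinRoot.mk E (X ^ e - Polynomial.C ϖ * Q)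
        = r ^ e - AdjoinRoot.of E ϖ * AdjoinRoot.mk E Q := by
      rw [map_sub, map_mul, map_pow, AdjoinRoot.mk_X, AdjoinRoot.mk_C]
    rw [h3] at h4
    linear_combination -h4
  -- every element is c + r * y
  have hdec : ∀ x : AdjoinRoot E, ∃ (c : W) (y : AdjoinRoot E), x = AdjoinRoot.of E c + r * y := by
    intro x
    obtain ⟨P, rfl⟩ := AdjoinRoot.mk_surjective x
    refine ⟨P.coeff 0, AdjoinRoot.mk E P.divX, ?_⟩
    have : P = C (P.coeff 0) + X * P.divX := by
      rw [add_comm, X_mul]; exact (divX_mul_X_add P).symm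
    conv_lhs => rw [this]
    rw [map_add, map_mul, AdjoinRoot.mk_X, AdjoinRoot.mk_C]
  let f : AdjoinRoot E →+* R := AdjoinRoot.lift φ π hEval
  have hfr : f r = π := AdjoinRoot.lift_root hEval
  have hfof : ∀ c, f (AdjoinRoot.of E c) = φ c := fun c => AdjoinRoot.lift_of hEval
  -- ϖ is divisible by r
  have hϖr : r ∣ AdjoinRoot.of E ϖ := by
    -- constant coefficient of E is -ϖ q₀
    obtain ⟨q, hq⟩ := hq0
    have h4 : C (E.coeff 0) + X * E.divX = E := by
      rw [add_comm, X_mul]; exact (divX_mul_X_add E)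
    have h3 : AdjoinRoot.mk E (C (E.coeff 0) + X * E.divX) = 0 := by
      rw [h4]; exact AdjoinRoot.mk_self
    have h5 : AdjoinRoot.of E (E.coeff 0) + r * AdjoinRoot.mk E E.divX = 0 := by
      rw [← h3]
      rw [map_add, map_mul, AdjoinRoot.mk_X, AdjoinRoot.mk_C]
    rw [hE0, map_neg, map_mul, ← hq] at h5
    have h6 : AdjoinRoot.of E ϖ = r * (AdjoinRoot.mk E E.divX * AdjoinRoot.of E ((q⁻¹ : Wˣ) : W)) := by
      have h7 : AdjoinRoot.of E (q : W) * AdjoinRoot.of E ((q⁻¹ : Wˣ) : W) = 1 := by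
        rw [← map_mul, Units.mul_inv, map_one]
      linear_combination (-(AdjoinRoot.of E ((q⁻¹ : Wˣ) : W))) * h5 - AdjoinRoot.of E ϖ * h7
    exact ⟨_, h6⟩
  have hr_nu : ¬ IsUnit r := by
    intro h
    exact hR.not_isUnit (hfr ▸ h.map f)
  have hmaxr : (Ideal.span {r}).IsMaximal := by
    rw [Ideal.isMaximal_iff]
    constructor
    · intro h
      rw [Ideal.mem_span_singleton] at h
      exact hr_nu (isUnit_of_dvd_one h)
    · intro J x hJ hx hxJ
      obtain ⟨c, y, hc⟩ := hdec x
      by_cases hcu : IsUnit c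
      · have h3 : AdjoinRoot.of E c ∈ J := by
          have : AdjoinRoot.of E c = x - r * y := by rw [hc]; ring
          rw [this]
          exact J.sub_mem hxJ (J.mul_mem_right _ (hJ (Ideal.mem_span_singleton_self r)))
        exact (Ideal.eq_top_of_isUnit_mem J h3 (hcu.map _)).symm ▸ Submodule.mem_top
      · exfalso
        apply hx
        obtain ⟨d, hd⟩ := hloc c hcu
        rw [hc, Ideal.mem_span_singleton, hd, map_mul]
        exact dvd_add (Dvd.dvd.mul_right hϖr _) (Dvd.intro _ rfl)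
  have huniq : ∀ M : Ideal (AdjoinRoot E), M.IsMaximal → M = Ideal.span {r} := by
    intro M hM
    have : Module.Finite W (AdjoinRoot E) := hmonic.finite_adjoinRoot
    have : Algebra.IsIntegral W (AdjoinRoot E) := Algebra.IsIntegral.of_finite W (AdjoinRoot E)
    have h3 : (M.comap (algebraMap W (AdjoinRoot E))).IsMaximal :=
      Ideal.isMaximal_comap_of_isIntegral_of_isMaximal M
    have h4 : ϖ ∈ M.comap (algebraMap W (AdjoinRoot E)) := by
      rw [IsLocalRing.eq_maximalIdeal h3, hϖ.maximalIdeal_eq]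
      exact Ideal.mem_span_singleton_self ϖ
    have h5 : r ∈ M := by
      have h6 : r ^ e ∈ M := by
        rw [hroot]
        exact M.mul_mem_right _ h4
      exact hM.isPrime.mem_of_pow_mem e h6
    have h7 : Ideal.span {r} ≤ M := by
      rw [Ideal.span_le]; simpa using h5
    exact (hmaxr.eq_of_le hM.ne_top h7).symm
  have : IsLocalRing (AdjoinRoot E) :=
    IsLocalRing.of_unique_max_ideal ⟨Ideal.span {r}, hmaxr, fun M hM => huniq M hM⟩
  have hmaxid : IsLocalRing.maximalIdeal (AdjoinRoot E) = Ideal.span {r} :=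
    (IsLocalRing.eq_maximalIdeal hmaxr).symm
  have : IsNoetherianRing (AdjoinRoot E) := inferInstance
  have hr0 : r ≠ 0 := by
    intro h0
    have : AdjoinRoot.of E ϖ = 0 := by
      obtain ⟨y, hy⟩ := hϖr
      rw [hy, h0, zero_mul]
    exact hϖ.ne_zero (hinj (by rw [this, map_zero]))
  have hnf : ¬ IsField (AdjoinRoot E) := by
    intro hf
    obtain ⟨y, hy⟩ := hf.mul_inv_cancel hr0
    exact hr_nu (IsUnit.of_mul_eq_one _ hy)
  have : IsDiscreteValuationRing (AdjoinRoot E) := by
    have := (IsDiscreteValuationRing.TFAE (AdjoinRoot E) hnf).out 0 4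
    rw [this, hmaxid]
    exact ⟨⟨r, rfl⟩⟩
  have hrirr : Irreducible r := by
    rw [IsDiscreteValuationRing.irreducible_iff_uniformizer, hmaxid]
  refine ⟨AdjoinRoot E, inferInstance, inferInstance, inferInstance, AdjoinRoot.of E, hinj, r, f,
    hrirr, hfr, ?_, ?_⟩
  · intro y
    obtain ⟨P, _, hP⟩ := hS y
    exact ⟨AdjoinRoot.mk E P, by rw [hP]; exact AdjoinRoot.lift_mk hEval P⟩
  · intro x
    refine ⟨fun h => h.map f, fun h => ?_⟩
    by_contra hcon
    have : x ∈ IsLocalRing.maximalIdeal (AdjoinRoot E) := (IsLocalRing.mem_maximalIdeal x).2 hcon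
    rw [hmaxid, Ideal.mem_span_singleton] at this
    obtain ⟨y, hy⟩ := this
    rw [hy, map_mul, hfr] at h
    exact hR.not_isUnit_mul _ h


/-- the base ring in characteristic `p`. -/
theorem exists_base_p {R : Type} [CommRing R] [Finite R] {π : R} (hR : IsChain R π) {p : ℕ}
    [Fact p.Prime] [CharP R p] :
    ∃ (W : Type) (_ : CommRing W) (_ : IsDomain W) (_ : IsDiscreteValuationRing W)
      (_ : CharP W p) (φ : W →+* R) (ϖ : W), Irreducible ϖ ∧
      (∀ y : R, ∃ (c : W) (z : R), y = φ c + π * z) ∧ ∃ z, φ ϖ = π * z := by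
  obtain ⟨hnt, ⟨N, hN⟩, hu⟩ := id hR
  have := hR.isMaximal
  letI : Field (R ⧸ Ideal.span {π}) := Ideal.Quotient.field _
  have hfin : Finite (R ⧸ Ideal.span {π}) :=
    Finite.of_surjective _ (Ideal.Quotient.mk_surjective (I := Ideal.span {π}))
  have : CharP (R ⧸ Ideal.span {π}) p := by
    have hp : ((p : ℕ) : R ⧸ Ideal.span {π}) = 0 := by
      rw [← map_natCast (Ideal.Quotient.mk (Ideal.span {π})), CharP.cast_eq_zero, map_zero]
    obtain ⟨q, hq⟩ := CharP.exists (R ⧸ Ideal.span {π})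
    have hqp : q ∣ p := (CharP.cast_eq_zero_iff _ q p).1 hp
    rcases (Nat.dvd_prime (Fact.out (p := p.Prime))).1 hqp with h | h
    · exact absurd h (CharP.char_ne_one (R ⧸ Ideal.span {π}) q)
    · exact h ▸ hq
  have hpN : N ≤ p ^ N := (Nat.lt_pow_self (Fact.out (p := p.Prime)).one_lt).le
  have hker : ∀ a ∈ Ideal.span {π}, iterateFrobenius R p N a = 0 := by
    intro a ha
    rw [Ideal.mem_span_singleton] at ha
    obtain ⟨b, rfl⟩ := ha
    rw [iterateFrobenius_def, mul_pow]
    have : π ^ p ^ N = 0 := pow_eq_zero_of_le hpN hN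
    rw [this, zero_mul]
  let σ : (R ⧸ Ideal.span {π}) →+* R := Ideal.Quotient.lift _ (iterateFrobenius R p N) hker
  have hσ : ∀ a : R, σ (Ideal.Quotient.mk _ a) = iterateFrobenius R p N a := fun a =>
    Ideal.Quotient.lift_mk _ _ _
  refine ⟨PowerSeries (R ⧸ Ideal.span {π}), inferInstance, inferInstance, inferInstance, ?_,
    σ.comp (PowerSeries.constantCoeff), PowerSeries.X, PowerSeries.X_irreducible, ?_, ?_⟩
  · exact charP_of_injective_ringHom (f := PowerSeries.C (R := (R ⧸ Ideal.span {π})))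
      PowerSeries.C_injective p
  · intro y
    have hsurj : Function.Surjective (iterateFrobenius (R ⧸ Ideal.span {π}) p N) :=
      Finite.surjective_of_injective (iterateFrobenius (R ⧸ Ideal.span {π}) p N).injective
    obtain ⟨c, hc⟩ := hsurj (Ideal.Quotient.mk _ y)
    obtain ⟨c', rfl⟩ := Ideal.Quotient.mk_surjective c
    have h3 : Ideal.Quotient.mk (Ideal.span {π}) (y - σ (Ideal.Quotient.mk _ c')) = 0 := by
      rw [map_sub, hσ, ← hc, sub_eq_zero, iterateFrobenius_def, iterateFrobenius_def, map_pow]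
    rw [Ideal.Quotient.eq_zero_iff_mem, Ideal.mem_span_singleton] at h3
    obtain ⟨z, hz⟩ := h3
    refine ⟨PowerSeries.C (Ideal.Quotient.mk _ c'), z, ?_⟩
    rw [RingHom.comp_apply, PowerSeries.constantCoeff_C]
    linear_combination hz
  · exact ⟨0, by simp⟩

open WittVector in
/-- the base ring in characteristic `0`. -/
theorem exists_base_0 {R : Type} [CommRing R] [Finite R] {π : R} (hR : IsChain R π) :
    ∃ (W : Type) (_ : CommRing W) (_ : IsDomain W) (_ : IsDiscreteValuationRing W)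
      (_ : CharP W 0) (φ : W →+* R) (ϖ : W), Irreducible ϖ ∧
      (∀ y : R, ∃ (c : W) (z : R), y = φ c + π * z) ∧ ∃ z, φ ϖ = π * z := by
  obtain ⟨hnt, ⟨N, hN⟩, hu⟩ := id hR
  have := hR.isMaximal
  letI : Field (R ⧸ Ideal.span {π}) := Ideal.Quotient.field _
  have hfin : Finite (R ⧸ Ideal.span {π}) :=
    Finite.of_surjective _ (Ideal.Quotient.mk_surjective (I := Ideal.span {π}))
  obtain ⟨p, hpc⟩ := CharP.exists (R ⧸ Ideal.span {π})
  have hpp : p.Prime := by
    exact (CharP.char_is_prime_or_zero (R ⧸ Ideal.span {π}) p).resolve_right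
      (fun h => by
        subst h
        have : CharZero (R ⧸ Ideal.span {π}) := CharP.charP_to_charZero _
        exact not_finite (R ⧸ Ideal.span {π}))
  have : Fact p.Prime := ⟨hpp⟩
  have hpR : ∃ z, (p : R) = π * z := by
    have : Ideal.Quotient.mk (Ideal.span {π}) (p : R) = 0 := by
      rw [map_natCast, CharP.cast_eq_zero]
    rw [Ideal.Quotient.eq_zero_iff_mem, Ideal.mem_span_singleton] at this
    exact this
  have : PerfectRing (R ⧸ Ideal.span {π}) p := PerfectRing.ofFiniteOfIsReduced p _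
  let ρ : R →+* (R ⧸ Ideal.span {π}) := Ideal.Quotient.mk _
  have hρ : Function.Surjective ρ := Ideal.Quotient.mk_surjective
  have hmap : Function.Surjective (WittVector.map ρ : WittVector p R →+* WittVector p _) :=
    WittVector.map_surjective ρ hρ
  have hker : RingHom.ker (WittVector.map ρ : WittVector p R →+* WittVector p _) ≤
      RingHom.ker (WittVector.ghostComponent N : WittVector p R →+* R) := by
    intro x hx
    rw [RingHom.mem_ker] at hx ⊢
    have hxi : ∀ i, ∃ z, x.coeff i = π * z := by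
      intro i
      have : ρ (x.coeff i) = 0 := by
        rw [← WittVector.map_coeff, hx, WittVector.zero_coeff]
      rw [Ideal.Quotient.eq_zero_iff_mem, Ideal.mem_span_singleton] at this
      exact this
    rw [WittVector.ghostComponent_apply, aeval_wittPolynomial]
    apply Finset.sum_eq_zero
    intro i hi
    obtain ⟨z, hz⟩ := hxi i
    obtain ⟨z', hz'⟩ := hpR
    rw [hz, hz', mul_pow, mul_pow]
    have hle : N ≤ i + p ^ (N - i) := by
      have : N - i < p ^ (N - i) := Nat.lt_pow_self hpp.one_lt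
      omega
    have h0 : π ^ i * π ^ p ^ (N - i) = 0 := by
      rw [← pow_add]; exact pow_eq_zero_of_le hle hN
    calc π ^ i * z' ^ i * (π ^ p ^ (N - i) * z ^ p ^ (N - i))
        = (π ^ i * π ^ p ^ (N - i)) * (z' ^ i * z ^ p ^ (N - i)) := by ring
      _ = 0 := by rw [h0, zero_mul]
  let φ : WittVector p (R ⧸ Ideal.span {π}) →+* R :=
    (WittVector.map ρ).liftOfSurjective hmap ⟨WittVector.ghostComponent N, hker⟩
  have hφ : ∀ x : WittVector p R, φ (WittVector.map ρ x) = WittVector.ghostComponent N x := by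
    intro x
    exact RingHom.liftOfRightInverse_comp_apply _ _ _ _ x
  refine ⟨WittVector p (R ⧸ Ideal.span {π}), inferInstance, inferInstance, inferInstance, ?_,
    φ, (p : WittVector p (R ⧸ Ideal.span {π})), WittVector.irreducible p, ?_, ?_⟩
  · -- characteristic zero
    obtain ⟨q, hq⟩ := CharP.exists (WittVector p (R ⧸ Ideal.span {π}))
    rcases CharP.char_is_prime_or_zero (WittVector p (R ⧸ Ideal.span {π})) q with h | h
    · exfalso
      have h1 : ((q : ℕ) : R ⧸ Ideal.span {π}) = 0 := by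
        have := congrArg (WittVector.constantCoeff (p := p)) (CharP.cast_eq_zero
          (WittVector p (R ⧸ Ideal.span {π})) q)
        rw [map_natCast, map_zero] at this
        exact this
      have h2 : p ∣ q := (CharP.cast_eq_zero_iff _ p q).1 h1
      have h3 : p = q := (Nat.prime_dvd_prime_iff_eq hpp h).1 h2
      subst h3
      exact WittVector.p_nonzero p (R ⧸ Ideal.span {π}) (CharP.cast_eq_zero _ p)
    · subst h
      exact hq
  · intro y
    have hsurj : Function.Surjective (iterateFrobenius (R ⧸ Ideal.span {π}) p N) :=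
      Finite.surjective_of_injective (iterateFrobenius (R ⧸ Ideal.span {π}) p N).injective
    obtain ⟨c, hc⟩ := hsurj (ρ y)
    obtain ⟨c', rfl⟩ := hρ c
    refine ⟨WittVector.map ρ (WittVector.teichmuller p c'), ?_⟩
    rw [hφ]
    have h3 : ρ (y - WittVector.ghostComponent N (WittVector.teichmuller p c')) = 0 := by
      rw [map_sub, ← hc, sub_eq_zero, iterateFrobenius_def]
      rw [WittVector.ghostComponent_teichmuller, map_pow]
    rw [Ideal.Quotient.eq_zero_iff_mem, Ideal.mem_span_singleton] at h3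
    obtain ⟨z, hz⟩ := h3
    exact ⟨z, by linear_combination hz⟩
  · obtain ⟨z, hz⟩ := hpR
    exact ⟨z, by rw [map_natCast, hz]⟩

/-- every finite chain ring is a quotient of a DVR of characteristic `0`, and of characteristic
`c` if it is a `ZMod c`-algebra. -/
theorem chain_lift {c : ℕ} (hc : c = 0 ∨ c.Prime) {R : Type} [CommRing R] [Finite R] {π : R}
    (hR : IsChain R π) (j : ZMod c →+* R) :
    ∃ (O : Type) (_ : CommRing O) (_ : IsDomain O) (_ : IsDiscreteValuationRing O)
      (_ : CharP O c) (ϖ : O) (f : O →+* R), Irreducible ϖ ∧ f ϖ = π ∧ Function.Surjective f ∧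
      (∀ x : O, IsUnit x ↔ IsUnit (f x)) := by
  have hbase : ∃ (W : Type) (_ : CommRing W) (_ : IsDomain W) (_ : IsDiscreteValuationRing W)
      (_ : CharP W c) (φ : W →+* R) (ϖ : W), Irreducible ϖ ∧
      (∀ y : R, ∃ (c : W) (z : R), y = φ c + π * z) ∧ ∃ z, φ ϖ = π * z := by
    rcases hc with rfl | hc
    · exact exists_base_0 hR
    · have : Fact c.Prime := ⟨hc⟩
      have := hR.1
      have : CharP R c := charP_of_injective_ringHom j.injective c
      exact exists_base_p hR
  obtain ⟨W, _, _, _, hW, φ, ϖ, hϖ, h1, h2⟩ := hbase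
  obtain ⟨O, _, _, _, i, hi, ϖ', f, h3, h4, h5, h6⟩ := eisenstein_lift hR φ hϖ h1 h2
  exact ⟨O, inferInstance, inferInstance, inferInstance, charP_of_injective_ringHom hi c, ϖ', f,
    h3, h4, h5, h6⟩

end HypQ
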