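import Pool.Agent.Lib.MP_9f0b3e_al.Defs
import Pool.Agent.Lib.MP_9f0b3e_al.BBDef

/-!
# The filtration of a discrete place satisfies `ChainOK`
-/

set_option autoImplicit false

namespace HypQ

theorem one_add_pow_prime {R : Type*} [CommRing R] {p : ℕ} (hp : p.Prime) (x : R) :
    ∃ z : R, (1 + x) ^ p = 1 + p * x + p * x ^ 2 * z + x ^ p := by
  have h := add_pow_prime_eq hp x 1
  have hp2 := hp.two_le
  have hIoo : Finset.Ioo 0 p = insert 1 (Finset.Ioo 1 p) := by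
    ext k
    simp only [Finset.mem_Ioo, Finset.mem_insert]
    omega
  rw [hIoo, Finset.sum_insert (by simp)] at h
  refine ⟨∑ k ∈ Finset.Ioo 1 p, x ^ (k - 2) * ((p.choose k / p : ℕ) : R), ?_⟩
  have h2 : ∑ k ∈ Finset.Ioo 1 p, x ^ (k - 1) * 1 ^ (p - k - 1) * ((p.choose k / p : ℕ) : R)
      = x * ∑ k ∈ Finset.Ioo 1 p, x ^ (k - 2) * ((p.choose k / p : ℕ) : R) := by
    rw [Finset.mul_sum]
    apply Finset.sum_congr rfl
    intro k hk
    rw [Finset.mem_Ioo] at hk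
    have hk2 : k - 1 = (k - 2) + 1 := by omega
    rw [one_pow, mul_one, hk2, pow_succ]
    ring
  rw [h2] at h
  rw [add_comm 1 x, h]
  simp only [Nat.choose_one_right, Nat.div_self hp.pos, Nat.cast_one, Nat.sub_self, pow_zero,
    one_pow]
  ring

variable {O : Type} [CommRing O] [IsDomain O] [IsDiscreteValuationRing O]
variable {A : Type} [CommGroup A]

theorem isUnit_one_add_chain {π : O} (hπ : Irreducible π) {n : ℕ} (hn : 1 ≤ n) (w : O) :
    IsUnit (1 + π ^ n * w) := by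
  by_contra h
  have h1 : 1 + π ^ n * w ∈ IsLocalRing.maximalIdeal O := (IsLocalRing.mem_maximalIdeal _).2 h
  have h2 : π ^ n * w ∈ IsLocalRing.maximalIdeal O := by
    apply Ideal.mul_mem_right
    exact Ideal.pow_mem_of_mem _ ((IsLocalRing.mem_maximalIdeal _).2 hπ.not_isUnit) n hn
  have h3 : (1 : O) ∈ IsLocalRing.maximalIdeal O := by
    have := Ideal.sub_mem _ h1 h2
    rwa [add_sub_cancel_right] at this
  exact (IsLocalRing.maximalIdeal.isMaximal O).ne_top ((Ideal.eq_top_iff_one _).2 h3)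

theorem chainOK_of {A' : Type} [CommGroup A'] {π : O} (hπ : Irreducible π)
    {p : ℕ} (hp : p.Prime) (X : Oˣ →* A) {M : ℕ} (hM1 : 1 ≤ M) (hM : BB π X M = ⊥)
    (φ : A →* A') (hker : φ.ker = BB π X 1) (e : ℕ) (he : 1 ≤ e)
    (hpe : (∃ u : Oˣ, (p : O) = π ^ e * u) ∨ ((p : O) = 0 ∧ M ≤ e)) :
    ChainOK p e M φ (X (-1)) (BB π X) := by
  have hpe' : π ^ e ∣ (p : O) := by
    rcases hpe with ⟨u, hu⟩ | ⟨h0, -⟩
    · rw [hu]; exact Dvd.intro _ rfl
    · rw [h0]; exact dvd_zero _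
  have htop : ∀ n, M ≤ n → BB π X n = ⊥ := fun n hn => by
    rw [eq_bot_iff, ← hM]
    exact BB_anti hn
  refine ⟨he, hM1, fun n _ => BB_anti (Nat.le_succ n), hker.symm, htop, ?_, ?_, ?_⟩
  · rintro n hn b ⟨u, ⟨w, hw⟩, rfl⟩
    refine mem_BB.2 ⟨u ^ p, ?_, map_pow X u p⟩
    obtain ⟨z, hz⟩ := one_add_pow_prime hp (π ^ n * w)
    have hu : (u : O) = 1 + π ^ n * w := by linear_combination hw
    rw [Units.val_pow_eq_pow_val, hu, hz]
    obtain ⟨t, ht⟩ := hpe'
    have e1 : 1 + (p : O) * (π ^ n * w) + p * (π ^ n * w) ^ 2 * z + (π ^ n * w) ^ p - 1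
        = π ^ (n + e) * (t * w + t * π ^ n * w ^ 2 * z) + π ^ (p * n) * w ^ p := by
      rw [ht]
      ring
    rw [e1]
    exact dvd_add (Dvd.dvd.mul_right (pow_dvd_pow π (min_le_right _ _)) _)
      (Dvd.dvd.mul_right (pow_dvd_pow π (min_le_left _ _)) _)
  · rintro n hn hne b hb
    rcases hpe with ⟨v, hv⟩ | ⟨-, hMe⟩
    · obtain ⟨u, ⟨w', hw'⟩, rfl⟩ := hb
      set w : O := w' * (v⁻¹ : Oˣ) with hwdef
      obtain ⟨u₁, hu₁⟩ := isUnit_one_add_chain hπ hn w
      obtain ⟨z, hz⟩ := one_add_pow_prime hp (π ^ n * w)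
      refine ⟨X u₁, mem_BB.2 ⟨u₁, ⟨w, by rw [hu₁]; ring⟩, rfl⟩, X (u * (u₁ ^ p)⁻¹),
        mem_BB.2 ⟨u * (u₁ ^ p)⁻¹, ?_, rfl⟩, by
          rw [map_mul, map_inv, map_pow, mul_comm (X u), mul_inv_cancel_left]⟩
      have hvv : (v : O) * (v⁻¹ : Oˣ) = 1 := v.mul_inv
      have h1 : (u : O) - (u₁ ^ p : Oˣ) = π ^ (n + e + 1) *
          (-(π ^ (n - 1) * v * w ^ 2 * z) - π ^ (p * n - (n + e + 1)) * w ^ p) := by
        have h2 : (n + e + 1) + (p * n - (n + e + 1)) = p * n := by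
          have h3 : e + n < n * (p - 1) + n := by omega
          have h4 : n * (p - 1) + n = p * n := by
            obtain ⟨k, hk⟩ : ∃ k, p = k + 1 := ⟨p - 1, by have := hp.pos; omega⟩
            rw [hk]; simp; ring
          omega
        have h5 : n + e + 1 + (n - 1) = 2 * n + e := by omega
        have hu : (u : O) = 1 + π ^ (n + e) * w' := by linear_combination hw'
        rw [Units.val_pow_eq_pow_val, hu₁, hz, hu]
        have e1 : π ^ (n + e + 1) *
          (-(π ^ (n - 1) * v * w ^ 2 * z) - π ^ (p * n - (n + e + 1)) * w ^ p)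
          = -(π ^ (2 * n + e) * v * w ^ 2 * z) - π ^ (p * n) * w ^ p := by
          rw [← h5, ← h2, pow_add π (n + e + 1) (n - 1), pow_add π (n + e + 1) (p * n - (n + e + 1)), h2]
          ring
        rw [e1, hv, hwdef]
        linear_combination (-(π ^ (n + e) * w')) * hvv
      have h6 : ((u * (u₁ ^ p)⁻¹ : Oˣ) : O) - 1
          = ((u : O) - (u₁ ^ p : Oˣ)) * ((u₁ ^ p)⁻¹ : Oˣ) := by
        have h7 : ((u₁ ^ p : Oˣ) : O) * ((u₁ ^ p)⁻¹ : Oˣ) = 1 := (u₁ ^ p).mul_inv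
        rw [Units.val_mul]
        linear_combination h7
      rw [h6, h1]
      exact Dvd.dvd.mul_right (Dvd.intro _ rfl) _
    · have : b = 1 := by
        have h1 := htop (n + e) (by omega)
        rw [h1] at hb
        exact hb
      refine ⟨1, Subgroup.one_mem _, 1, Subgroup.one_mem _, by simp [this]⟩
  · intro hp2
    refine mem_BB.2 ⟨-1, ?_, rfl⟩
    have : ((-1 : Oˣ) : O) - 1 = -(p : O) := by
      rw [hp2]; push_cast; ring
    rw [this]
    exact (dvd_neg).2 hpe'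

end HypQ
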