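import Pool.Agent.Lib.MP_9f0b3e_al.CoReGen

/-!
# The co-r.e. half: unrealisability of tables by quotients of infinite fields is r.e.
-/

set_option autoImplicit false

namespace HypQ

namespace CoRe

/-- the parameters: number of colours, multiplication table, hyperaddition table -/
abbrev Tab : Type := ℕ × List (List ℕ) × List (List (List ℕ))

/-- table multiplication -/
def mulT (c : Tab) (u v : ℕ) : ℕ := (c.2.1.getD u []).getD v 0

/-- table hyperaddition -/
def addT (c : Tab) (u v : ℕ) : List ℕ := (c.2.2.getD u []).getD v []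

/-! ### Coded terms -/

/-- atoms -/
def atomc (i : ℕ) : ℕ := 5 * i
/-- sums -/
def addc (a b : ℕ) : ℕ := 5 * Nat.pair a b + 1
/-- negatives -/
def negc (a : ℕ) : ℕ := 5 * a + 2
/-- products -/
def mulc (a b : ℕ) : ℕ := 5 * Nat.pair a b + 3
/-- inverses -/
def invc (a : ℕ) : ℕ := 5 * a + 4
/-- differences -/
def subc (a b : ℕ) : ℕ := addc a (negc b)
/-- first hyperaddition witness -/
def xc (u v z : ℕ) : ℕ := atomc (4 * Nat.pair u (Nat.pair v z) + 2)
/-- second hyperaddition witness -/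
def yc (u v z : ℕ) : ℕ := atomc (4 * Nat.pair u (Nat.pair v z) + 3)
/-- surjectivity witness -/
def sc (u : ℕ) : ℕ := atomc (4 * u + 4)
/-- infinitely many elements -/
def ic (u : ℕ) : ℕ := atomc (4 * u + 5)

section prim

variable {β : Type*} [Primcodable β] {f g k : β → ℕ}

theorem addc_p (hf : Primrec f) (hg : Primrec g) : Primrec (fun x => addc (f x) (g x)) :=
  Primrec.nat_add.comp (Primrec.nat_mul.comp (Primrec.const 5) (Primrec₂.natPair.comp hf hg))
    (Primrec.const 1)

theorem mulc_p (hf : Primrec f) (hg : Primrec g) : Primrec (fun x => mulc (f x) (g x)) :=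
  Primrec.nat_add.comp (Primrec.nat_mul.comp (Primrec.const 5) (Primrec₂.natPair.comp hf hg))
    (Primrec.const 3)

theorem negc_p (hf : Primrec f) : Primrec (fun x => negc (f x)) :=
  Primrec.nat_add.comp (Primrec.nat_mul.comp (Primrec.const 5) hf) (Primrec.const 2)

theorem invc_p (hf : Primrec f) : Primrec (fun x => invc (f x)) :=
  Primrec.nat_add.comp (Primrec.nat_mul.comp (Primrec.const 5) hf) (Primrec.const 4)

theorem subc_p (hf : Primrec f) (hg : Primrec g) : Primrec (fun x => subc (f x) (g x)) :=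
  addc_p hf (negc_p hg)

theorem atomc_p (hf : Primrec f) : Primrec (fun x => atomc (f x)) :=
  Primrec.nat_mul.comp (Primrec.const 5) hf

theorem xc_p (hf : Primrec f) (hg : Primrec g) (hk : Primrec k) :
    Primrec (fun x => xc (f x) (g x) (k x)) :=
  atomc_p (Primrec.nat_add.comp (Primrec.nat_mul.comp (Primrec.const 4)
    (Primrec₂.natPair.comp hf (Primrec₂.natPair.comp hg hk))) (Primrec.const 2))

theorem yc_p (hf : Primrec f) (hg : Primrec g) (hk : Primrec k) :
    Primrec (fun x => yc (f x) (g x) (k x)) :=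
  atomc_p (Primrec.nat_add.comp (Primrec.nat_mul.comp (Primrec.const 4)
    (Primrec₂.natPair.comp hf (Primrec₂.natPair.comp hg hk))) (Primrec.const 3))

theorem sc_p (hf : Primrec f) : Primrec (fun x => sc (f x)) :=
  atomc_p (Primrec.nat_add.comp (Primrec.nat_mul.comp (Primrec.const 4) hf) (Primrec.const 4))

theorem ic_p (hf : Primrec f) : Primrec (fun x => ic (f x)) :=
  atomc_p (Primrec.nat_add.comp (Primrec.nat_mul.comp (Primrec.const 4) hf) (Primrec.const 5))

end prim

/-- the natural conditions on a colouring of the terms -/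
structure Good (c : Tab) (F : ℕ → ℕ) : Prop where
  lt : ∀ t, F t < c.1
  refl : ∀ a, F (subc a a) = F 0
  symm : ∀ a b, F (subc a b) = F 0 → F (subc b a) = F 0
  trans : ∀ a b d, F (subc a b) = F 0 → F (subc b d) = F 0 → F (subc a d) = F 0
  congr_add : ∀ a b d e, F (subc a b) = F 0 → F (subc d e) = F 0 →
    F (subc (addc a d) (addc b e)) = F 0
  congr_mul : ∀ a b d e, F (subc a b) = F 0 → F (subc d e) = F 0 →
    F (subc (mulc a d) (mulc b e)) = F 0
  congr_neg : ∀ a b, F (subc a b) = F 0 → F (subc (negc a) (negc b)) = F 0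
  congr_inv : ∀ a b, F (subc a b) = F 0 → F (subc (invc a) (invc b)) = F 0
  add_assoc : ∀ a b d, F (subc (addc (addc a b) d) (addc a (addc b d))) = F 0
  add_comm : ∀ a b, F (subc (addc a b) (addc b a)) = F 0
  zero_add : ∀ a, F (subc (addc 0 a) a) = F 0
  neg_add : ∀ a, F (subc (addc (negc a) a) 0) = F 0
  mul_assoc : ∀ a b d, F (subc (mulc (mulc a b) d) (mulc a (mulc b d))) = F 0
  mul_comm : ∀ a b, F (subc (mulc a b) (mulc b a)) = F 0
  one_mul : ∀ a, F (subc (mulc 5 a) a) = F 0
  distrib : ∀ a b d, F (subc (mulc a (addc b d)) (addc (mulc a b) (mulc a d))) = F 0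
  inv_zero : F (subc (invc 0) 0) = F 0
  one_ne : F (subc 5 0) ≠ F 0
  mul_inv : ∀ a, F (subc a 0) ≠ F 0 → F (subc (mulc a (invc a)) 5) = F 0
  col_congr : ∀ a b, F (subc a b) = F 0 → F a = F b
  col_zero : ∀ a, F a = F 0 → F (subc a 0) = F 0
  col_mul : ∀ a b, F (mulc a b) = mulT c (F a) (F b)
  col_add : ∀ a b, F (addc a b) ∈ addT c (F a) (F b)
  wit : ∀ a b d, a < c.1 → b < c.1 → d < c.1 → d ∈ addT c a b →
    F (xc a b d) = a ∧ F (yc a b d) = b ∧ F (addc (xc a b d) (yc a b d)) = d
  surj : ∀ a, a < c.1 → F (sc a) = a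
  inf : ∀ a b, a ≠ b → F (subc (ic a) (ic b)) ≠ F 0

/-- The frozen predicate. -/
def Real (c : Tab) : Prop :=
  ∃ (K : Type) (_inst : Field K), Infinite K ∧ ∃ G : Subgroup Kˣ, ∃ f : K → ℕ,
    (∀ x : K, f x < c.1) ∧
    (∀ i : ℕ, i < c.1 → ∃ x : K, f x = i) ∧
    (∀ x y : K, f x = f y ↔
      ((x = 0 ∧ y = 0) ∨ (∃ hx : x ≠ 0, ∃ hy : y ≠ 0, Units.mk0 x hx / Units.mk0 y hy ∈ G))) ∧
    (∀ x y : K, f (x * y) = (c.2.1.getD (f x) []).getD (f y) 0) ∧
    (∀ x y : K, ∀ z : ℕ, z < c.1 →
      (z ∈ (c.2.2.getD (f x) []).getD (f y) [] ↔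
        ∃ x' y' : K, f x' = f x ∧ f y' = f y ∧ f (x' + y') = z))

/-! ### From a good colouring to a field -/

section toField

variable {c : Tab} {F : ℕ → ℕ}

/-- equality of terms -/
def stp (h : Good c F) : Setoid ℕ where
  r a b := F (subc a b) = F 0
  iseqv := ⟨h.refl, fun h' => h.symm _ _ h', fun h1 h2 => h.trans _ _ _ h1 h2⟩

/-- the field of terms -/
def FT (h : Good c F) : Type := Quotient (stp h)

/-- the class of a term -/
def cls (h : Good c F) (a : ℕ) : FT h := Quotient.mk (stp h) a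

theorem cls_eq (h : Good c F) {a b : ℕ} : cls h a = cls h b ↔ F (subc a b) = F 0 :=
  Quotient.eq (r := stp h)

theorem cls_surj (h : Good c F) (x : FT h) : ∃ a, cls h a = x := Quotient.exists_rep x

/-- The field structure. -/
@[reducible] noncomputable def fld (h : Good c F) : Field (FT h) := by
  letI : Add (FT h) := ⟨Quotient.map₂ addc (fun a b h1 d e h2 => h.congr_add a b d e h1 h2)⟩
  letI : Mul (FT h) := ⟨Quotient.map₂ mulc (fun a b h1 d e h2 => h.congr_mul a b d e h1 h2)⟩
  letI : Neg (FT h) := ⟨Quotient.map negc (fun a b h1 => h.congr_neg a b h1)⟩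
  letI : Inv (FT h) := ⟨Quotient.map invc (fun a b h1 => h.congr_inv a b h1)⟩
  letI : Zero (FT h) := ⟨cls h 0⟩
  letI : One (FT h) := ⟨cls h 5⟩
  refine Field.ofMinimalAxioms (FT h) ?_ ?_ ?_ ?_ ?_ ?_ ?_ ?_ ?_ ?_
  · intro x y z
    obtain ⟨a, rfl⟩ := cls_surj h x
    obtain ⟨b, rfl⟩ := cls_surj h y
    obtain ⟨d, rfl⟩ := cls_surj h z
    exact (cls_eq h).mpr (h.add_assoc a b d)
  · intro x
    obtain ⟨a, rfl⟩ := cls_surj h x
    exact (cls_eq h).mpr (h.zero_add a)
  · intro x
    obtain ⟨a, rfl⟩ := cls_surj h x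
    exact (cls_eq h).mpr (h.neg_add a)
  · intro x y z
    obtain ⟨a, rfl⟩ := cls_surj h x
    obtain ⟨b, rfl⟩ := cls_surj h y
    obtain ⟨d, rfl⟩ := cls_surj h z
    exact (cls_eq h).mpr (h.mul_assoc a b d)
  · intro x y
    obtain ⟨a, rfl⟩ := cls_surj h x
    obtain ⟨b, rfl⟩ := cls_surj h y
    exact (cls_eq h).mpr (h.mul_comm a b)
  · intro x
    obtain ⟨a, rfl⟩ := cls_surj h x
    exact (cls_eq h).mpr (h.one_mul a)
  · intro x hx
    obtain ⟨a, rfl⟩ := cls_surj h x
    exact (cls_eq h).mpr (h.mul_inv a (fun h0 => hx ((cls_eq h).mpr h0)))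
  · exact (cls_eq h).mpr h.inv_zero
  · intro x y z
    obtain ⟨a, rfl⟩ := cls_surj h x
    obtain ⟨b, rfl⟩ := cls_surj h y
    obtain ⟨d, rfl⟩ := cls_surj h z
    exact (cls_eq h).mpr (h.distrib a b d)
  · exact ⟨cls h 5, cls h 0, fun h0 => h.one_ne ((cls_eq h).mp h0)⟩

/-- the colouring on the field -/
def colF (h : Good c F) : FT h → ℕ := Quotient.lift F (fun a b h1 => h.col_congr a b h1)

theorem colF_cls (h : Good c F) (a : ℕ) : colF h (cls h a) = F a := rfl

theorem real_of_good (h : Good c F) : Real c := by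
  let _ := fld h
  have hadd : ∀ a b, cls h a + cls h b = cls h (addc a b) := fun a b => rfl
  have hmul : ∀ a b, cls h a * cls h b = cls h (mulc a b) := fun a b => rfl
  have hzero : (0 : FT h) = cls h 0 := rfl
  have hone : (1 : FT h) = cls h 5 := rfl
  have fmul : ∀ x y : FT h, colF h (x * y) = mulT c (colF h x) (colF h y) := by
    intro x y
    obtain ⟨a, rfl⟩ := cls_surj h x
    obtain ⟨b, rfl⟩ := cls_surj h y
    rw [hmul, colF_cls, colF_cls, colF_cls]
    exact h.col_mul a b
  have fzero : ∀ x : FT h, colF h x = colF h 0 → x = 0 := by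
    intro x hx
    obtain ⟨a, rfl⟩ := cls_surj h x
    exact (cls_eq h).mpr (h.col_zero a hx)
  have key : ∀ x y : FT h, y ≠ 0 → (colF h x = colF h y ↔ colF h (x / y) = colF h 1) := by
    intro x y hy
    constructor
    · intro hxy
      rw [div_eq_mul_inv, fmul, hxy, ← fmul, mul_inv_cancel₀ hy]
    · intro hxy
      have h1 : colF h x = colF h (x / y * y) := by rw [div_mul_cancel₀ _ hy]
      rw [h1, fmul, hxy, ← fmul, one_mul]
  let G : Subgroup (FT h)ˣ :=
    { carrier := {u | colF h (u : FT h) = colF h 1}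
      mul_mem' := by
        intro u v hu hv
        simp only [Set.mem_ofPred_eq] at *
        rw [Units.val_mul, fmul, hu, hv, ← fmul, one_mul]
      one_mem' := by simp
      inv_mem' := by
        intro u hu
        simp only [Set.mem_ofPred_eq] at *
        have h1 : colF h (1 : FT h) = colF h ((u : FT h) * ((u⁻¹ : (FT h)ˣ) : FT h)) := by simp
        rw [h1, fmul, hu, ← fmul, one_mul] }
  have hG : ∀ u : (FT h)ˣ, u ∈ G ↔ colF h (u : FT h) = colF h 1 := fun u => Iff.rfl
  refine ⟨FT h, fld h, ?_, G, colF h, ?_, ?_, ?_, ?_, ?_⟩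
  · refine Infinite.of_injective (fun k : ℕ => cls h (ic k)) ?_
    intro a b hab
    by_contra hne
    exact h.inf a b hne ((cls_eq h).mp hab)
  · intro x
    obtain ⟨a, rfl⟩ := cls_surj h x
    exact h.lt a
  · intro i hi
    exact ⟨cls h (sc i), h.surj i hi⟩
  · intro x y
    constructor
    · intro hxy
      by_cases hx : x = 0
      · left
        refine ⟨hx, fzero y ?_⟩
        rw [← hxy, hx]
      · by_cases hy : y = 0
        · exact absurd (fzero x (by rw [hxy, hy])) hx
        · right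
          refine ⟨hx, hy, ?_⟩
          rw [hG]
          have := (key x y hy).mp hxy
          simpa using this
    · rintro (⟨rfl, rfl⟩ | ⟨hx, hy, hxy⟩)
      · rfl
      · rw [hG] at hxy
        exact (key x y hy).mpr (by simpa using hxy)
  · intro x y
    exact fmul x y
  · intro x y z hz
    obtain ⟨a, rfl⟩ := cls_surj h x
    obtain ⟨b, rfl⟩ := cls_surj h y
    constructor
    · intro hm
      obtain ⟨h1, h2, h3⟩ := h.wit (F a) (F b) z (h.lt a) (h.lt b) hz hm
      exact ⟨cls h (xc (F a) (F b) z), cls h (yc (F a) (F b) z), h1, h2, h3⟩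
    · rintro ⟨x', y', h1, h2, h3⟩
      obtain ⟨a', rfl⟩ := cls_surj h x'
      obtain ⟨b', rfl⟩ := cls_surj h y'
      have h4 := h.col_add a' b'
      rw [hadd, colF_cls] at h3
      rw [colF_cls, colF_cls] at h1 h2
      rw [h1, h2, h3] at h4
      exact h4

end toField

/-! ### From a field to a good colouring -/

section ev

variable {K : Type} [Field K]

/-- evaluation of coded terms -/
noncomputable def ev (x : ℕ → K) (t : ℕ) : K :=
  if h1 : t % 5 = 1 then ev x (t / 5).unpair.1 + ev x (t / 5).unpair.2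
  else if h2 : t % 5 = 2 then - ev x (t / 5)
  else if h3 : t % 5 = 3 then ev x (t / 5).unpair.1 * ev x (t / 5).unpair.2
  else if h4 : t % 5 = 4 then (ev x (t / 5))⁻¹
  else x (t / 5)
termination_by t
decreasing_by
  · exact lt_of_le_of_lt (Nat.unpair_left_le _) (Nat.div_lt_self (by omega) (by norm_num))
  · exact lt_of_le_of_lt (Nat.unpair_right_le _) (Nat.div_lt_self (by omega) (by norm_num))
  · exact (Nat.div_lt_self (by omega) (by norm_num))
  · exact lt_of_le_of_lt (Nat.unpair_left_le _) (Nat.div_lt_self (by omega) (by norm_num))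
  · exact lt_of_le_of_lt (Nat.unpair_right_le _) (Nat.div_lt_self (by omega) (by norm_num))
  · exact (Nat.div_lt_self (by omega) (by norm_num))

theorem ev_add (x : ℕ → K) (a b : ℕ) : ev x (addc a b) = ev x a + ev x b := by
  have h1 : addc a b % 5 = 1 := by unfold addc; omega
  have h2 : addc a b / 5 = Nat.pair a b := by unfold addc; omega
  rw [ev, dif_pos h1, h2, Nat.unpair_pair]

theorem ev_mul (x : ℕ → K) (a b : ℕ) : ev x (mulc a b) = ev x a * ev x b := by
  have h1 : mulc a b % 5 = 3 := by unfold mulc; omega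
  have h2 : mulc a b / 5 = Nat.pair a b := by unfold mulc; omega
  rw [ev, dif_neg (by omega), dif_neg (by omega), dif_pos h1, h2, Nat.unpair_pair]

theorem ev_neg (x : ℕ → K) (a : ℕ) : ev x (negc a) = - ev x a := by
  have h1 : negc a % 5 = 2 := by unfold negc; omega
  have h2 : negc a / 5 = a := by unfold negc; omega
  rw [ev, dif_neg (by omega), dif_pos h1, h2]

theorem ev_inv (x : ℕ → K) (a : ℕ) : ev x (invc a) = (ev x a)⁻¹ := by
  have h1 : invc a % 5 = 4 := by unfold invc; omega
  have h2 : invc a / 5 = a := by unfold invc; omega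
  rw [ev, dif_neg (by omega), dif_neg (by omega), dif_neg (by omega), dif_pos h1, h2]

theorem ev_atom (x : ℕ → K) (i : ℕ) : ev x (atomc i) = x i := by
  have h1 : atomc i % 5 = 0 := by unfold atomc; omega
  have h2 : atomc i / 5 = i := by unfold atomc; omega
  rw [ev, dif_neg (by omega), dif_neg (by omega), dif_neg (by omega), dif_neg (by omega), h2]

theorem ev_sub (x : ℕ → K) (a b : ℕ) : ev x (subc a b) = ev x a - ev x b := by
  rw [subc, ev_add, ev_neg, sub_eq_add_neg]

theorem ev_zero (x : ℕ → K) (h : x 0 = 0) : ev x 0 = 0 := (ev_atom x 0).trans h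

theorem ev_one (x : ℕ → K) (h : x 1 = 1) : ev x 5 = 1 := (ev_atom x 1).trans h

end ev

theorem good_of_real {c : Tab} (hc : Real c) : ∃ F, Good c F := by
  classical
  obtain ⟨K, inst, hinf, G, f, f1, f2, f3, f4, f5⟩ := hc
  have fz : ∀ x : K, f x = f 0 ↔ x = 0 := by
    intro x
    rw [f3]
    constructor
    · rintro (⟨h, -⟩ | ⟨-, h, -⟩)
      · exact h
      · exact absurd rfl h
    · intro h; left; exact ⟨h, rfl⟩
  -- witnesses
  have hw : ∀ k : ℕ, ∃ p : K × K, k.unpair.1 < c.1 → k.unpair.2.unpair.1 < c.1 →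
      k.unpair.2.unpair.2 < c.1 → k.unpair.2.unpair.2 ∈ addT c k.unpair.1 k.unpair.2.unpair.1 →
      f p.1 = k.unpair.1 ∧ f p.2 = k.unpair.2.unpair.1 ∧ f (p.1 + p.2) = k.unpair.2.unpair.2 := by
    intro k
    by_cases hk : k.unpair.1 < c.1 ∧ k.unpair.2.unpair.1 < c.1 ∧ k.unpair.2.unpair.2 < c.1 ∧
      k.unpair.2.unpair.2 ∈ addT c k.unpair.1 k.unpair.2.unpair.1
    · obtain ⟨h1, h2, h3, h4⟩ := hk
      obtain ⟨x, hx⟩ := f2 _ h1
      obtain ⟨y, hy⟩ := f2 _ h2
      rw [← hx, ← hy] at h4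
      obtain ⟨x', y', h5, h6, h7⟩ := (f5 x y _ h3).mp h4
      exact ⟨(x', y'), fun _ _ _ _ => ⟨h5.trans hx, h6.trans hy, h7⟩⟩
    · refine ⟨(0, 0), fun h1 h2 h3 h4 => absurd ⟨h1, h2, h3, h4⟩ hk⟩
  choose w hw using hw
  have hs : ∀ k : ℕ, ∃ x : K, k < c.1 → f x = k := by
    intro k
    by_cases hk : k < c.1
    · obtain ⟨x, hx⟩ := f2 k hk
      exact ⟨x, fun _ => hx⟩
    · exact ⟨0, fun h => absurd h hk⟩
  choose s hs using hs
  let I : ℕ → K := Infinite.natEmbedding K
  have hI : Function.Injective I := (Infinite.natEmbedding K).injective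
  let x : ℕ → K := fun i => if i = 0 then 0 else if i = 1 then 1 else
    if i % 4 = 2 then (w ((i - 2) / 4)).1 else if i % 4 = 3 then (w ((i - 3) / 4)).2 else
    if i % 4 = 0 then s ((i - 4) / 4) else I ((i - 5) / 4)
  have x0 : x 0 = 0 := by simp [x]
  have x1 : x 1 = 1 := by simp [x]
  have x2 : ∀ k, x (4 * k + 2) = (w k).1 := by
    intro k
    have h1 : ¬ (4 * k + 2 = 0) := by omega
    have h2 : ¬ (4 * k + 2 = 1) := by omega
    have h3 : (4 * k + 2) % 4 = 2 := by omega
    have h4 : (4 * k + 2 - 2) / 4 = k := by omega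
    simp only [x]
    rw [if_neg h1, if_neg h2, if_pos h3, h4]
  have x3 : ∀ k, x (4 * k + 3) = (w k).2 := by
    intro k
    have h1 : ¬ (4 * k + 3 = 0) := by omega
    have h2 : ¬ (4 * k + 3 = 1) := by omega
    have h3 : ¬ ((4 * k + 3) % 4 = 2) := by omega
    have h4 : (4 * k + 3) % 4 = 3 := by omega
    have h5 : (4 * k + 3 - 3) / 4 = k := by omega
    simp only [x]
    rw [if_neg h1, if_neg h2, if_neg h3, if_pos h4, h5]
  have x4 : ∀ k, x (4 * k + 4) = s k := by
    intro k
    have h1 : ¬ (4 * k + 4 = 0) := by omega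
    have h2 : ¬ (4 * k + 4 = 1) := by omega
    have h3 : ¬ ((4 * k + 4) % 4 = 2) := by omega
    have h4 : ¬ ((4 * k + 4) % 4 = 3) := by omega
    have h5 : (4 * k + 4) % 4 = 0 := by omega
    have h6 : (4 * k + 4 - 4) / 4 = k := by omega
    simp only [x]
    rw [if_neg h1, if_neg h2, if_neg h3, if_neg h4, if_pos h5, h6]
  have x5 : ∀ k, x (4 * k + 5) = I k := by
    intro k
    have h1 : ¬ (4 * k + 5 = 0) := by omega
    have h2 : ¬ (4 * k + 5 = 1) := by omega
    have h3 : ¬ ((4 * k + 5) % 4 = 2) := by omega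
    have h4 : ¬ ((4 * k + 5) % 4 = 3) := by omega
    have h5 : ¬ ((4 * k + 5) % 4 = 0) := by omega
    have h6 : (4 * k + 5 - 5) / 4 = k := by omega
    simp only [x]
    rw [if_neg h1, if_neg h2, if_neg h3, if_neg h4, if_neg h5, h6]
  have e0 : ev x 0 = 0 := ev_zero x x0
  have e1 : ev x 5 = 1 := ev_one x x1
  have eX : ∀ u v z, ev x (xc u v z) = (w (Nat.pair u (Nat.pair v z))).1 := by
    intro u v z
    rw [xc, ev_atom, x2]
  have eY : ∀ u v z, ev x (yc u v z) = (w (Nat.pair u (Nat.pair v z))).2 := by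
    intro u v z
    rw [yc, ev_atom, x3]
  have eS : ∀ u, ev x (sc u) = s u := by
    intro u
    rw [sc, ev_atom, x4]
  have eI : ∀ u, ev x (ic u) = I u := by
    intro u
    rw [ic, ev_atom, x5]
  have heq : ∀ a b, f (ev x (subc a b)) = f (ev x 0) ↔ ev x a = ev x b := by
    intro a b
    rw [e0, fz, ev_sub, sub_eq_zero]
  refine ⟨fun t => f (ev x t), ?_⟩
  constructor
  · intro t; exact f1 _
  · intro a; rw [heq]
  · intro a b h; rw [heq] at *; exact h.symm
  · intro a b d h1 h2; rw [heq] at *; exact h1.trans h2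
  · intro a b d e h1 h2; rw [heq] at *; rw [ev_add, ev_add, h1, h2]
  · intro a b d e h1 h2; rw [heq] at *; rw [ev_mul, ev_mul, h1, h2]
  · intro a b h1; rw [heq] at *; rw [ev_neg, ev_neg, h1]
  · intro a b h1; rw [heq] at *; rw [ev_inv, ev_inv, h1]
  · intro a b d; rw [heq]; simp only [ev_add]; ring
  · intro a b; rw [heq]; simp only [ev_add]; ring
  · intro a; rw [heq]; simp only [ev_add, e0]; ring
  · intro a; rw [heq]; simp only [ev_add, ev_neg, e0]; ring
  · intro a b d; rw [heq]; simp only [ev_mul]; ring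
  · intro a b; rw [heq]; simp only [ev_mul]; ring
  · intro a; rw [heq]; simp only [ev_mul, e1]; ring
  · intro a b d; rw [heq]; simp only [ev_mul, ev_add]; ring
  · rw [heq, ev_inv, e0, inv_zero]
  · intro h; rw [heq, e1, e0] at h; exact one_ne_zero h
  · intro a h; rw [heq, ev_mul, ev_inv, e1]
    apply mul_inv_cancel₀
    intro h0
    apply h
    rw [heq, h0, e0]
  · intro a b h; rw [heq] at h; show f (ev x a) = f (ev x b); rw [h]
  · intro a h
    rw [heq]
    have h1 : f (ev x a) = f (ev x 0) := h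
    rw [e0, fz] at h1
    rw [h1, e0]
  · intro a b
    show f (ev x (mulc a b)) = _
    rw [ev_mul, f4]; rfl
  · intro a b
    show f (ev x (addc a b)) ∈ addT c (f (ev x a)) (f (ev x b))
    rw [ev_add]
    exact (f5 (ev x a) (ev x b) _ (f1 _)).mpr ⟨_, _, rfl, rfl, rfl⟩
  · intro a b d ha hb hd hm
    have h1 := hw (Nat.pair a (Nat.pair b d))
    simp only [Nat.unpair_pair] at h1
    have h2 := h1 ha hb hd hm
    refine ⟨?_, ?_, ?_⟩
    · show f (ev x (xc a b d)) = a
      rw [eX]; exact h2.1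
    · show f (ev x (yc a b d)) = b
      rw [eY]; exact h2.2.1
    · show f (ev x (addc (xc a b d) (yc a b d))) = d
      rw [ev_add, eX, eY]; exact h2.2.2
  · intro a ha
    show f (ev x (sc a)) = a
    rw [eS]; exact hs a ha
  · intro a b hab h
    rw [heq, eI, eI] at h
    exact hab (hI h)

/-! ### The constraints are primitive recursive -/

/-- the parameter type of the constraints -/
abbrev Pm : Type := Tab × ℕ × ℕ × ℕ × ℕ

theorem pa : Primrec (fun x : Pm => x.2.1) := Primrec.fst.comp Primrec.snd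
theorem pb : Primrec (fun x : Pm => x.2.2.1) :=
  Primrec.fst.comp (Primrec.snd.comp Primrec.snd)
theorem pd : Primrec (fun x : Pm => x.2.2.2.1) :=
  Primrec.fst.comp (Primrec.snd.comp (Primrec.snd.comp Primrec.snd))
theorem pe : Primrec (fun x : Pm => x.2.2.2.2) :=
  Primrec.snd.comp (Primrec.snd.comp (Primrec.snd.comp Primrec.snd))

theorem p0 : Primrec (fun _ : Pm => 0) := Primrec.const 0
theorem p5 : Primrec (fun _ : Pm => 5) := Primrec.const 5

section

variable {β : Type*} [Primcodable β]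

theorem getD_p {f : β → List ℕ} (hf : Primrec f) (i : ℕ) : Primrec (fun x => (f x).getD i 0) :=
  (Primrec.list_getD 0).comp hf (Primrec.const i)

theorem eq_p {f g : β → ℕ} (hf : Primrec f) (hg : Primrec g) : PrimrecPred (fun x => f x = g x) :=
  Primrec.eq.comp hf hg

theorem mulT_p {c : β → Tab} {f g : β → ℕ} (hc : Primrec c) (hf : Primrec f) (hg : Primrec g) :
    Primrec (fun x => mulT (c x) (f x) (g x)) := by
  unfold mulT
  exact (Primrec.list_getD 0).comp ((Primrec.list_getD []).comp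
    (Primrec.fst.comp (Primrec.snd.comp hc)) hf) hg

theorem addT_p {c : β → Tab} {f g : β → ℕ} (hc : Primrec c) (hf : Primrec f) (hg : Primrec g) :
    Primrec (fun x => addT (c x) (f x) (g x)) := by
  unfold addT
  exact (Primrec.list_getD []).comp ((Primrec.list_getD []).comp
    (Primrec.snd.comp (Primrec.snd.comp hc)) hf) hg

theorem mem_p {f : β → ℕ} {g : β → List ℕ} (hf : Primrec f) (hg : Primrec g) :
    PrimrecPred (fun x => f x ∈ g x) := by
  have h1 : PrimrecRel (fun (t : ℕ) (y : ℕ) => t = y) := Primrec.eq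
  refine PrimrecPred.of_eq (h1.exists_mem_list.comp hg hf) ?_
  intro x
  simp

end

/-- constraint: two terms are equal -/
def famEq (s t : Pm → ℕ) (hs : Primrec s) (ht : Primrec t) : Fam Tab where
  T x := [0, subc (s x) (t x)]
  φ _ l := l.getD 1 0 = l.getD 0 0
  hT := Primrec.list_cons.comp (Primrec.const 0) (Primrec.list_cons.comp (subc_p hs ht)
    (Primrec.const []))
  hφ := eq_p (getD_p Primrec.snd 1) (getD_p Primrec.snd 0)

/-- constraint: two equalities imply a third -/
def famImp (s1 t1 s2 t2 s t : Pm → ℕ) (hs1 : Primrec s1) (ht1 : Primrec t1)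
    (hs2 : Primrec s2) (ht2 : Primrec t2) (hs : Primrec s) (ht : Primrec t) : Fam Tab where
  T x := [0, subc (s1 x) (t1 x), subc (s2 x) (t2 x), subc (s x) (t x)]
  φ _ l := l.getD 1 0 = l.getD 0 0 → l.getD 2 0 = l.getD 0 0 → l.getD 3 0 = l.getD 0 0
  hT := Primrec.list_cons.comp (Primrec.const 0) (Primrec.list_cons.comp (subc_p hs1 ht1)
    (Primrec.list_cons.comp (subc_p hs2 ht2) (Primrec.list_cons.comp (subc_p hs ht)
    (Primrec.const []))))
  hφ := imp_p (eq_p (getD_p Primrec.snd 1) (getD_p Primrec.snd 0))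
    (imp_p (eq_p (getD_p Primrec.snd 2) (getD_p Primrec.snd 0))
      (eq_p (getD_p Primrec.snd 3) (getD_p Primrec.snd 0)))

theorem list3_p {f g k : Pm → ℕ} (hf : Primrec f) (hg : Primrec g) (hk : Primrec k) :
    Primrec (fun x => [f x, g x, k x]) :=
  Primrec.list_cons.comp hf (Primrec.list_cons.comp hg (Primrec.list_cons.comp hk
    (Primrec.const [])))

/-- `1 ≠ 0` -/
def famOne : Fam Tab where
  T _ := [0, subc 5 0]
  φ _ l := ¬ l.getD 1 0 = l.getD 0 0
  hT := Primrec.const _
  hφ := PrimrecPred.not (eq_p (getD_p Primrec.snd 1) (getD_p Primrec.snd 0))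

/-- inverses -/
def famInv : Fam Tab where
  T x := [0, subc x.2.1 0, subc (mulc x.2.1 (invc x.2.1)) 5]
  φ _ l := ¬ l.getD 1 0 = l.getD 0 0 → l.getD 2 0 = l.getD 0 0
  hT := list3_p p0 (subc_p pa p0) (subc_p (mulc_p pa (invc_p pa)) p5)
  hφ := imp_p (PrimrecPred.not (eq_p (getD_p Primrec.snd 1) (getD_p Primrec.snd 0)))
    (eq_p (getD_p Primrec.snd 2) (getD_p Primrec.snd 0))

/-- equal terms have equal colours -/
def famCol : Fam Tab where
  T x := [0, subc x.2.1 x.2.2.1, x.2.1, x.2.2.1]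
  φ _ l := l.getD 1 0 = l.getD 0 0 → l.getD 2 0 = l.getD 3 0
  hT := Primrec.list_cons.comp p0 (list3_p (subc_p pa pb) pa pb)
  hφ := imp_p (eq_p (getD_p Primrec.snd 1) (getD_p Primrec.snd 0))
    (eq_p (getD_p Primrec.snd 2) (getD_p Primrec.snd 3))

/-- only zero has the colour of zero -/
def famZero : Fam Tab where
  T x := [0, x.2.1, subc x.2.1 0]
  φ _ l := l.getD 1 0 = l.getD 0 0 → l.getD 2 0 = l.getD 0 0
  hT := list3_p p0 pa (subc_p pa p0)
  hφ := imp_p (eq_p (getD_p Primrec.snd 1) (getD_p Primrec.snd 0))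
    (eq_p (getD_p Primrec.snd 2) (getD_p Primrec.snd 0))

/-- multiplication table -/
def famMul : Fam Tab where
  T x := [mulc x.2.1 x.2.2.1, x.2.1, x.2.2.1]
  φ x l := l.getD 0 0 = mulT x.1 (l.getD 1 0) (l.getD 2 0)
  hT := list3_p (mulc_p pa pb) pa pb
  hφ := eq_p (getD_p Primrec.snd 0) (mulT_p (Primrec.fst.comp Primrec.fst)
    (getD_p Primrec.snd 1) (getD_p Primrec.snd 2))

/-- hyperaddition table -/
def famAdd : Fam Tab where
  T x := [addc x.2.1 x.2.2.1, x.2.1, x.2.2.1]
  φ x l := l.getD 0 0 ∈ addT x.1 (l.getD 1 0) (l.getD 2 0)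
  hT := list3_p (addc_p pa pb) pa pb
  hφ := mem_p (getD_p Primrec.snd 0) (addT_p (Primrec.fst.comp Primrec.fst)
    (getD_p Primrec.snd 1) (getD_p Primrec.snd 2))

/-- hyperaddition witnesses -/
def famWit : Fam Tab where
  T x := [xc x.2.1 x.2.2.1 x.2.2.2.1, yc x.2.1 x.2.2.1 x.2.2.2.1,
    addc (xc x.2.1 x.2.2.1 x.2.2.2.1) (yc x.2.1 x.2.2.1 x.2.2.2.1)]
  φ x l := x.2.1 < x.1.1 → x.2.2.1 < x.1.1 → x.2.2.2.1 < x.1.1 →
    x.2.2.2.1 ∈ addT x.1 x.2.1 x.2.2.1 →
    l.getD 0 0 = x.2.1 ∧ l.getD 1 0 = x.2.2.1 ∧ l.getD 2 0 = x.2.2.2.1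
  hT := list3_p (xc_p pa pb pd) (yc_p pa pb pd) (addc_p (xc_p pa pb pd) (yc_p pa pb pd))
  hφ := by
    have hc : Primrec (fun x : Pm × List ℕ => x.1.1) := Primrec.fst.comp Primrec.fst
    have hn : Primrec (fun x : Pm × List ℕ => x.1.1.1) := Primrec.fst.comp hc
    have ha : Primrec (fun x : Pm × List ℕ => x.1.2.1) := pa.comp Primrec.fst
    have hb : Primrec (fun x : Pm × List ℕ => x.1.2.2.1) := pb.comp Primrec.fst
    have hd : Primrec (fun x : Pm × List ℕ => x.1.2.2.2.1) := pd.comp Primrec.fst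
    refine imp_p (Primrec.nat_lt.comp ha hn) (imp_p (Primrec.nat_lt.comp hb hn)
      (imp_p (Primrec.nat_lt.comp hd hn) (imp_p (mem_p hd (addT_p hc ha hb)) ?_)))
    exact PrimrecPred.and (eq_p (getD_p Primrec.snd 0) ha)
      (PrimrecPred.and (eq_p (getD_p Primrec.snd 1) hb) (eq_p (getD_p Primrec.snd 2) hd))

/-- surjectivity -/
def famSurj : Fam Tab where
  T x := [sc x.2.1]
  φ x l := x.2.1 < x.1.1 → l.getD 0 0 = x.2.1
  hT := Primrec.list_cons.comp (sc_p pa) (Primrec.const [])
  hφ := imp_p (Primrec.nat_lt.comp (pa.comp Primrec.fst)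
    (Primrec.fst.comp (Primrec.fst.comp Primrec.fst)))
    (eq_p (getD_p Primrec.snd 0) (pa.comp Primrec.fst))

/-- infinitely many elements -/
def famInf : Fam Tab where
  T x := [0, subc (ic x.2.1) (ic x.2.2.1)]
  φ x l := ¬ x.2.1 = x.2.2.1 → ¬ l.getD 1 0 = l.getD 0 0
  hT := Primrec.list_cons.comp (Primrec.const 0) (Primrec.list_cons.comp
    (subc_p (ic_p pa) (ic_p pb)) (Primrec.const []))
  hφ := imp_p (PrimrecPred.not (eq_p (pa.comp Primrec.fst) (pb.comp Primrec.fst)))
    (PrimrecPred.not (eq_p (getD_p Primrec.snd 1) (getD_p Primrec.snd 0)))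

/-- all the constraints -/
def fams : List (Fam Tab) :=
  [famEq _ _ pa pa,
   famImp _ _ _ _ _ _ pa pb pa pb pb pa,
   famImp _ _ _ _ _ _ pa pb pb pd pa pd,
   famImp _ _ _ _ _ _ pa pb pd pe (addc_p pa pd) (addc_p pb pe),
   famImp _ _ _ _ _ _ pa pb pd pe (mulc_p pa pd) (mulc_p pb pe),
   famImp _ _ _ _ _ _ pa pb pa pb (negc_p pa) (negc_p pb),
   famImp _ _ _ _ _ _ pa pb pa pb (invc_p pa) (invc_p pb),
   famEq _ _ (addc_p (addc_p pa pb) pd) (addc_p pa (addc_p pb pd)),
   famEq _ _ (addc_p pa pb) (addc_p pb pa),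
   famEq _ _ (addc_p p0 pa) pa,
   famEq _ _ (addc_p (negc_p pa) pa) p0,
   famEq _ _ (mulc_p (mulc_p pa pb) pd) (mulc_p pa (mulc_p pb pd)),
   famEq _ _ (mulc_p pa pb) (mulc_p pb pa),
   famEq _ _ (mulc_p p5 pa) pa,
   famEq _ _ (mulc_p pa (addc_p pb pd)) (addc_p (mulc_p pa pb) (mulc_p pa pd)),
   famEq _ _ (invc_p p0) p0,
   famOne, famInv, famCol, famZero, famMul, famAdd, famWit, famSurj, famInf]

theorem sat_iff_good (c : Tab) (F : ℕ → ℕ) : Sat (fun c : Tab => c.1) fams c F ↔ Good c F := by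
  unfold Sat
  simp only [fams, List.forall_mem_cons]
  constructor
  · rintro ⟨h0, h1, h2, h3, h4, h5, h6, h7, h8, h9, h10, h11, h12, h13, h14, h15, h16, h17, h18,
      h19, h20, h21, h22, h23, h24, h25, -⟩
    exact
      { lt := h0
        refl := fun a => h1 a a a a
        symm := fun a b h => h2 a b a a h h
        trans := fun a b d h h' => h3 a b d a h h'
        congr_add := fun a b d e h h' => h4 a b d e h h'
        congr_mul := fun a b d e h h' => h5 a b d e h h'
        congr_neg := fun a b h => h6 a b a a h h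
        congr_inv := fun a b h => h7 a b a a h h
        add_assoc := fun a b d => h8 a b d a
        add_comm := fun a b => h9 a b a a
        zero_add := fun a => h10 a a a a
        neg_add := fun a => h11 a a a a
        mul_assoc := fun a b d => h12 a b d a
        mul_comm := fun a b => h13 a b a a
        one_mul := fun a => h14 a a a a
        distrib := fun a b d => h15 a b d a
        inv_zero := h16 0 0 0 0
        one_ne := h17 0 0 0 0
        mul_inv := fun a h => h18 a a a a h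
        col_congr := fun a b h => h19 a b a a h
        col_zero := fun a h => h20 a a a a h
        col_mul := fun a b => h21 a b a a
        col_add := fun a b => h22 a b a a
        wit := fun a b d ha hb hd hm => h23 a b d a ha hb hd hm
        surj := fun a ha => h24 a a a a ha
        inf := fun a b hab => h25 a b a a hab }
  · intro h
    refine ⟨h.lt, fun a _ _ _ => h.refl a, fun a b _ _ h1 _ => h.symm a b h1,
      fun a b d _ h1 h2 => h.trans a b d h1 h2, fun a b d e h1 h2 => h.congr_add a b d e h1 h2,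
      fun a b d e h1 h2 => h.congr_mul a b d e h1 h2, fun a b _ _ h1 _ => h.congr_neg a b h1,
      fun a b _ _ h1 _ => h.congr_inv a b h1, fun a b d _ => h.add_assoc a b d,
      fun a b _ _ => h.add_comm a b, fun a _ _ _ => h.zero_add a, fun a _ _ _ => h.neg_add a,
      fun a b d _ => h.mul_assoc a b d, fun a b _ _ => h.mul_comm a b,
      fun a _ _ _ => h.one_mul a, fun a b d _ => h.distrib a b d, fun _ _ _ _ => h.inv_zero,
      fun _ _ _ _ => h.one_ne, fun a _ _ _ h1 => h.mul_inv a h1,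
      fun a b _ _ h1 => h.col_congr a b h1, fun a _ _ _ h1 => h.col_zero a h1,
      fun a b _ _ => h.col_mul a b, fun a b _ _ => h.col_add a b,
      fun a b d _ h1 h2 h3 h4 => h.wit a b d h1 h2 h3 h4, fun a _ _ _ h1 => h.surj a h1,
      fun a b _ _ h1 => h.inf a b h1, ?_⟩
    intro j hj
    simp at hj

theorem real_iff (c : Tab) : Real c ↔ ∃ F, Sat (fun c : Tab => c.1) fams c F := by
  constructor
  · intro h
    obtain ⟨F, hF⟩ := good_of_real h
    exact ⟨F, (sat_iff_good c F).mpr hF⟩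
  · rintro ⟨F, hF⟩
    exact real_of_good ((sat_iff_good c F).mp hF)

/-- **The set of realisable tables is co-r.e.** -/
theorem re_not_real : REPred (fun c : Tab => ¬ Real c) :=
  (re_not_sat (fun c : Tab => c.1) Primrec.fst fams).of_eq
    (fun c => not_congr (real_iff c).symm)

/-- The same with the frozen predicate spelled out. -/
theorem coRe : REPred (fun c : ℕ × List (List ℕ) × List (List (List ℕ)) =>
    ¬ ∃ (K : Type) (_inst : Field K), Infinite K ∧ ∃ G : Subgroup Kˣ, ∃ f : K → ℕ,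
        (∀ x : K, f x < c.1) ∧
        (∀ i : ℕ, i < c.1 → ∃ x : K, f x = i) ∧
        (∀ x y : K, f x = f y ↔
          ((x = 0 ∧ y = 0) ∨ (∃ hx : x ≠ 0, ∃ hy : y ≠ 0, Units.mk0 x hx / Units.mk0 y hy ∈ G))) ∧
        (∀ x y : K, f (x * y) = (c.2.1.getD (f x) []).getD (f y) 0) ∧
        (∀ x y : K, ∀ z : ℕ, z < c.1 →
          (z ∈ (c.2.2.getD (f x) []).getD (f y) [] ↔
            ∃ x' y' : K, f x' = f x ∧ f y' = f y ∧ f (x' + y') = z))) :=
  re_not_real

/-- Decidability of the frozen predicate follows from its recursive enumerability. -/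
theorem computable_of_re (h : REPred Real) : ComputablePred Real :=
  ComputablePred.computable_iff_re_compl_re'.mpr ⟨h, re_not_real⟩

end CoRe

end HypQ
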