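import Pool.Agent.Lib.MP_9f0b3e_al.Decomp

/-!
# The component characters
-/

set_option autoImplicit false

namespace HypQ

open Finset Filter

section abstract

variable {K L Γ : Type*} [Field K] [Field L] [Algebra K L] [CommGroupWithZero Γ]
variable {ψ : L →*₀ Γ} (hR : RedExt K ψ) {C : Finset K}
  (hC : ∀ x : L, ∃ c ∈ C, x + algebraMap K L c ≠ 0 ∧ (x + algebraMap K L c)⁻¹ ∈ ringR hR)
  (hP : ∀ u : L, MemD K ψ u → u ≠ 0 → ∃ v : L, v ≠ 0 ∧ MemD K ψ v ∧ MemD K ψ (u / v))

/-- idempotent property -/
def Idem (e : MaximalSpectrum (ringR hR) → ringR hR) : Prop :=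
  ∀ i j, (i = j → e i - 1 ∈ j.asIdeal) ∧ (i ≠ j → e i ∈ j.asIdeal)

include hC hP in
theorem memD_of_forall {y : ringR hR} (h : ∀ M : MaximalSpectrum (ringR hR), y ∈ M.asIdeal) :
    MemD K ψ (y : L) := by
  have := (mem_idealD_iff hR hC hP y).mpr (fun M hM => h ⟨M, hM⟩)
  exact this

/-- the element `1 + (a - 1) e i` -/
def lift1 (e : MaximalSpectrum (ringR hR) → ringR hR) (i : MaximalSpectrum (ringR hR)) (a : K) :
    ringR hR := 1 + (kR hR a - 1) * e i

theorem lift1_sub {e : MaximalSpectrum (ringR hR) → ringR hR} (he : Idem hR e)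
    (i : MaximalSpectrum (ringR hR)) (a : K) : lift1 hR e i a - kR hR a ∈ i.asIdeal := by
  have h := (he i i).1 rfl
  have : lift1 hR e i a - kR hR a = (kR hR a - 1) * (e i - 1) := by
    unfold lift1; ring
  rw [this]
  exact i.asIdeal.mul_mem_left _ h

theorem lift1_sub_one {e : MaximalSpectrum (ringR hR) → ringR hR} (he : Idem hR e)
    {i j : MaximalSpectrum (ringR hR)} (hij : i ≠ j) (a : K) :
    lift1 hR e i a - 1 ∈ j.asIdeal := by
  have h := (he i j).2 hij
  have : lift1 hR e i a - 1 = (kR hR a - 1) * (e i) := by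
    unfold lift1; ring
  rw [this]
  exact j.asIdeal.mul_mem_left _ h

theorem notMem_of_sub {M : MaximalSpectrum (ringR hR)} {y : ringR hR} {a : K} (ha : a ≠ 0)
    (h : y - kR hR a ∈ M.asIdeal) : y ∉ M.asIdeal := by
  intro hy
  apply kR_notMem hR ha M
  have := M.asIdeal.sub_mem hy h
  rwa [sub_sub_cancel] at this

theorem mem_mul_sub {M : Ideal (ringR hR)} {y y' z z' : ringR hR}
    (h : y - z ∈ M) (h' : y' - z' ∈ M) : y * y' - z * z' ∈ M := by
  have : y * y' - z * z' = y * (y' - z') + z' * (y - z) := by ring
  rw [this]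
  exact M.add_mem (M.mul_mem_left _ h') (M.mul_mem_left _ h)

include hC hP in
theorem psi_eq_of_congr {y y' : ringR hR} (h1 : ∀ M : MaximalSpectrum (ringR hR), y ∉ M.asIdeal)
    (h2 : ∀ M : MaximalSpectrum (ringR hR), y' - y ∈ M.asIdeal) : ψ (y' : L) = ψ (y : L) := by
  obtain ⟨h0, h3⟩ := inv_mem_of_forall hR h1
  apply psi_congr hR h0 h3
  exact memD_of_forall hR hC hP h2

/-- component character -/
noncomputable def compChar {e : MaximalSpectrum (ringR hR) → ringR hR} (he : Idem hR e)
    (i : MaximalSpectrum (ringR hR)) : K →*₀ Γ := by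
  classical
  exact
  { toFun := fun a => if a = 0 then 0 else ψ (lift1 hR e i a : L)
    map_zero' := by simp
    map_one' := by
      rw [if_neg one_ne_zero]
      have : lift1 hR e i (1 : K) = 1 := by unfold lift1; rw [kR_one]; ring
      rw [this]; simp
    map_mul' := by
      intro a b
      by_cases ha : a = 0
      · simp [ha]
      by_cases hb : b = 0
      · simp [hb]
      rw [if_neg (mul_ne_zero ha hb), if_neg ha, if_neg hb, ← map_mul]
      have := psi_eq_of_congr hR hC hP (y := lift1 hR e i a * lift1 hR e i b)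
        (y' := lift1 hR e i (a * b)) ?_ ?_
      · simpa using this
      · intro M hM
        have hp := M.isMaximal.isPrime
        by_cases hiM : i = M
        · subst hiM
          rcases hp.mem_or_mem hM with h | h
          · exact notMem_of_sub hR ha (lift1_sub hR he i a) h
          · exact notMem_of_sub hR hb (lift1_sub hR he i b) h
        · have hone : (1 : K) ≠ 0 := one_ne_zero
          rcases hp.mem_or_mem hM with h | h
          · refine notMem_of_sub hR hone ?_ h
            rw [kR_one]; exact lift1_sub_one hR he hiM a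
          · refine notMem_of_sub hR hone ?_ h
            rw [kR_one]; exact lift1_sub_one hR he hiM b
      · intro M
        by_cases hiM : i = M
        · subst hiM
          have h1 := lift1_sub hR he i (a * b)
          have h2 := mem_mul_sub hR (lift1_sub hR he i a) (lift1_sub hR he i b)
          rw [← kR_mul] at h2
          have := i.asIdeal.sub_mem h1 h2
          convert this using 1
          ring
        · have h1 := lift1_sub_one hR he hiM (a * b)
          have h2 := mem_mul_sub hR (lift1_sub_one hR he hiM a) (lift1_sub_one hR he hiM b)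
          have := M.asIdeal.sub_mem h1 h2
          convert this using 1
          ring }

theorem compChar_apply {e : MaximalSpectrum (ringR hR) → ringR hR} (he : Idem hR e)
    (i : MaximalSpectrum (ringR hR)) {a : K} (ha : a ≠ 0) :
    compChar hR hC hP he i a = ψ (lift1 hR e i a : L) := by
  unfold compChar
  simp [ha]

theorem psi_eq_prod [Fintype (MaximalSpectrum (ringR hR))]
    {e : MaximalSpectrum (ringR hR) → ringR hR} (he : Idem hR e)
    {a : MaximalSpectrum (ringR hR) → K} (ha : ∀ i, a i ≠ 0) {y : ringR hR}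
    (hy : ∀ i : MaximalSpectrum (ringR hR), y - kR hR (a i) ∈ i.asIdeal) :
    ψ (y : L) = ∏ i, compChar hR hC hP he i (a i) := by
  classical
  have h1 : ∀ j : MaximalSpectrum (ringR hR),
      (∏ i, lift1 hR e i (a i)) - kR hR (a j) ∈ j.asIdeal := by
    intro j
    rw [← Ideal.Quotient.eq, map_prod]
    rw [Finset.prod_eq_single j]
    · rw [Ideal.Quotient.eq]
      exact lift1_sub hR he j (a j)
    · intro i _ hij
      rw [← map_one (Ideal.Quotient.mk j.asIdeal), Ideal.Quotient.eq]
      exact lift1_sub_one hR he hij (a i)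
    · intro h; exact absurd (Finset.mem_univ _) h
  have h2 : ψ (y : L) = ψ ((∏ i, lift1 hR e i (a i) : ringR hR) : L) := by
    apply psi_eq_of_congr hR hC hP
    · intro M
      exact notMem_of_sub hR (ha M) (h1 M)
    · intro M
      have := M.asIdeal.sub_mem (hy M) (h1 M)
      convert this using 1
      ring
  rw [h2]
  rw [show ((∏ i, lift1 hR e i (a i) : ringR hR) : L) = ∏ i, (lift1 hR e i (a i) : L) by
    exact map_prod (ringR hR).subtype _ _]
  rw [map_prod]
  apply Finset.prod_congr rfl
  intro i _
  rw [compChar_apply hR hC hP he i (ha i)]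

/-- product formula on `K` -/
theorem compChar_prod [Fintype (MaximalSpectrum (ringR hR))]
    {e : MaximalSpectrum (ringR hR) → ringR hR} (he : Idem hR e) {a : K} (ha : a ≠ 0) :
    ψ (algebraMap K L a) = ∏ i, compChar hR hC hP he i a := by
  refine psi_eq_prod hR hC hP he (a := fun _ => a) (fun _ => ha) (y := kR hR a) ?_
  intro i
  rw [sub_self]
  exact i.asIdeal.zero_mem

/-- the element `∑ a_i e_i` -/
def comb [Fintype (MaximalSpectrum (ringR hR))] (e : MaximalSpectrum (ringR hR) → ringR hR)
    (a : MaximalSpectrum (ringR hR) → K) : ringR hR := ∑ i, kR hR (a i) * e i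

theorem comb_sub [Fintype (MaximalSpectrum (ringR hR))]
    {e : MaximalSpectrum (ringR hR) → ringR hR} (he : Idem hR e)
    (a : MaximalSpectrum (ringR hR) → K) (j : MaximalSpectrum (ringR hR)) :
    comb hR e a - kR hR (a j) ∈ j.asIdeal := by
  classical
  rw [← Ideal.Quotient.eq]
  unfold comb
  rw [map_sum, Finset.sum_eq_single j]
  · rw [Ideal.Quotient.eq]
    have : kR hR (a j) * e j - kR hR (a j) = kR hR (a j) * (e j - 1) := by ring
    rw [this]
    exact j.asIdeal.mul_mem_left _ ((he j j).1 rfl)
  · intro i _ hij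
    rw [Ideal.Quotient.eq_zero_iff_mem]
    exact j.asIdeal.mul_mem_left _ ((he i j).2 hij)
  · intro h; exact absurd (Finset.mem_univ _) h

theorem psi_comb [Fintype (MaximalSpectrum (ringR hR))]
    {e : MaximalSpectrum (ringR hR) → ringR hR} (he : Idem hR e)
    {a : MaximalSpectrum (ringR hR) → K} (ha : ∀ i, a i ≠ 0) :
    ψ (comb hR e a : L) = ∏ i, compChar hR hC hP he i (a i) :=
  psi_eq_prod hR hC hP he ha (comb_sub hR he a)

theorem comb_add [Fintype (MaximalSpectrum (ringR hR))]
    (e : MaximalSpectrum (ringR hR) → ringR hR)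
    (a b : MaximalSpectrum (ringR hR) → K) : comb hR e (fun i => a i + b i)
      = comb hR e a + comb hR e b := by
  unfold comb
  rw [← Finset.sum_add_distrib]
  apply Finset.sum_congr rfl
  intro i _
  rw [kR_add, add_mul]

/-- zero-sum triples of components combine -/
theorem comb_triple [Fintype (MaximalSpectrum (ringR hR))]
    {e : MaximalSpectrum (ringR hR) → ringR hR} (he : Idem hR e)
    {a b c : MaximalSpectrum (ringR hR) → K} (ha : ∀ i, a i ≠ 0) (hb : ∀ i, b i ≠ 0)
    (hc : ∀ i, c i ≠ 0) (hs : ∀ i, a i + b i + c i = 0) :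
    ∃ a' b' c' : L, a' + b' + c' = 0 ∧ ψ a' = ∏ i, compChar hR hC hP he i (a i) ∧
      ψ b' = ∏ i, compChar hR hC hP he i (b i) ∧
      ψ c' = ∏ i, compChar hR hC hP he i (c i) := by
  refine ⟨comb hR e a, comb hR e b, comb hR e c, ?_, psi_comb hR hC hP he ha,
    psi_comb hR hC hP he hb, psi_comb hR hC hP he hc⟩
  have h1 : comb hR e a + comb hR e b + comb hR e c = 0 := by
    rw [← comb_add, ← comb_add]
    unfold comb
    apply Finset.sum_eq_zero
    intro i _
    change kR hR (a i + b i + c i) * e i = 0
    rw [hs i, kR_zero, zero_mul]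
  have := congrArg (Subtype.val) h1
  simpa using this

/-- A nontrivial component is reduced. -/
theorem compChar_red [Fintype (MaximalSpectrum (ringR hR))]
    {e : MaximalSpectrum (ringR hR) → ringR hR} (he : Idem hR e)
    (i : MaximalSpectrum (ringR hR)) (hnt : ¬ Triv (compChar hR hC hP he i)) :
    RedExt K (compChar hR hC hP he i) := by
  classical
  intro z hz
  set X := compChar hR hC hP he i with hX
  by_cases hz0 : z = 0
  · subst hz0
    unfold Triv at hnt
    push Not at hnt
    obtain ⟨g, hg0, hg⟩ := hnt
    have hg1 : g ≠ 1 := by rintro rfl; exact hg (map_one _)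
    refine ⟨1 - g, g, -1, sub_ne_zero.mpr (Ne.symm hg1), hg0, by norm_num, by ring, ?_⟩
    intro a' b' c' hs h1 h2 h3
    simp only [Algebra.algebraMap_self, RingHom.id_apply, zero_mul] at h1 h2 h3
    rw [map_eq_zero] at h1
    rw [h1, zero_add] at hs
    have h4 : b' = -1 * c' := by linear_combination hs
    rw [h4, map_mul, h3] at h2
    apply hg
    rw [← h2, ← map_mul]
    simp
  · obtain ⟨a0, b0, c0, ha, hb, hc, habc, H⟩ := hR z hz
    refine ⟨a0, b0, c0, ha, hb, hc, habc, ?_⟩
    intro a' b' c' hs h1 h2 h3
    simp only [Algebra.algebraMap_self, RingHom.id_apply] at h1 h2 h3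
    have hne : ∀ x : K, x ≠ 0 → X x ≠ 0 := fun x hx => by simpa [map_eq_zero] using hx
    have ha' : a' ≠ 0 := by
      intro h
      rw [h, map_zero] at h1
      exact (mul_ne_zero hz0 (hne _ ha)) h1.symm
    have hb' : b' ≠ 0 := by
      intro h
      rw [h, map_zero] at h2
      exact (hne _ hb) h2.symm
    have hc' : c' ≠ 0 := by
      intro h
      rw [h, map_zero] at h3
      exact (hne _ hc) h3.symm
    let A : MaximalSpectrum (ringR hR) → K := fun j => if j = i then a' else a0
    let B : MaximalSpectrum (ringR hR) → K := fun j => if j = i then b' else b0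
    let E : MaximalSpectrum (ringR hR) → K := fun j => if j = i then c' else c0
    have hA : ∀ j, A j ≠ 0 := by intro j; simp only [A]; split_ifs <;> assumption
    have hB : ∀ j, B j ≠ 0 := by intro j; simp only [B]; split_ifs <;> assumption
    have hE : ∀ j, E j ≠ 0 := by intro j; simp only [E]; split_ifs <;> assumption
    have hsum : ∀ j, A j + B j + E j = 0 := by
      intro j; simp only [A, B, E]; split_ifs <;> assumption
    obtain ⟨x, y, w, hxyw, hx, hy, hw⟩ := comb_triple hR hC hP he hA hB hE hsum
    refine H x y w hxyw ?_ ?_ ?_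
    · rw [hx, compChar_prod hR hC hP he ha]
      rw [← Finset.mul_prod_erase _ _ (Finset.mem_univ i),
        ← Finset.mul_prod_erase _ (fun j => compChar hR hC hP he j a0) (Finset.mem_univ i),
        ← mul_assoc]
      congr 1
      · simp only [A, if_true]
        exact h1
      · apply Finset.prod_congr rfl
        intro j hj
        simp only [A, if_neg (Finset.ne_of_mem_erase hj)]
    · rw [hy, compChar_prod hR hC hP he hb]
      apply Finset.prod_congr rfl
      intro j _
      simp only [B]
      split_ifs with hj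
      · subst hj; exact h2
      · rfl
    · rw [hw, compChar_prod hR hC hP he hc]
      apply Finset.prod_congr rfl
      intro j _
      simp only [E]
      split_ifs with hj
      · subst hj; exact h3
      · rfl

end abstract

end HypQ
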