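import Pool.Agent.Lib.MP_9f0b3e_al.Local

/-!
# Decomposition theorem (countable fields) and the valuation ring of a local character
-/

set_option autoImplicit false

namespace HypQ

open Finset Filter

noncomputable section

variable {K Γ : Type*} [Field K] [Infinite K] [Countable K] [CommGroupWithZero Γ] [Finite Γ]

/-- **Decomposition theorem.** A reduced character of a countable infinite field is a product of
finitely many characters, each trivial or reduced and local, and zero-sum triples of the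
components can be combined. -/
theorem decomposition {χ : K →*₀ Γ} (hχ : RedExt K χ) :
    ∃ (n : ℕ) (X : Fin n → (K →*₀ Γ)), (∀ a : K, a ≠ 0 → χ a = ∏ i, X i a) ∧
      (∀ a b c : Fin n → K, (∀ i, a i ≠ 0) → (∀ i, b i ≠ 0) → (∀ i, c i ≠ 0) →
        (∀ i, a i + b i + c i = 0) → ∃ a' b' c' : K, a' + b' + c' = 0 ∧
          χ a' = ∏ i, X i (a i) ∧ χ b' = ∏ i, X i (b i) ∧ χ c' = ∏ i, X i (c i)) ∧
      ∀ i, Triv (X i) ∨ (RedExt K (X i) ∧ Loc (X i)) := by
  classical
  have hR := redExt_ultra hχ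
  obtain ⟨C, hC⟩ := exists_good_shift hR
  have hP : ∀ u : UL K, MemD K (ultra χ) u → u ≠ 0 →
      ∃ v : UL K, v ≠ 0 ∧ MemD K (ultra χ) v ∧ MemD K (ultra χ) (u / v) :=
    fun u hu _ => memD_split χ u hu
  have hfin := (card_maximal_lt hR hC).1
  have := Fintype.ofFinite (MaximalSpectrum (ringR hR))
  obtain ⟨e, he⟩ := exists_idem hR hC
  let E := Fintype.equivFin (MaximalSpectrum (ringR hR))
  refine ⟨_, fun i => compChar hR hC hP he (E.symm i), ?_, ?_, ?_⟩
  · intro a ha
    rw [← ultra_algebraMap, compChar_prod hR hC hP he ha]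
    exact (Equiv.prod_comp E.symm (fun i => compChar hR hC hP he i a)).symm
  · intro a b c ha hb hc hs
    obtain ⟨x, y, w, hxyw, hx, hy, hw⟩ := comb_triple hR hC hP he (a := fun i => a (E i))
      (b := fun i => b (E i)) (c := fun i => c (E i)) (fun i => ha _) (fun i => hb _)
      (fun i => hc _) (fun i => hs _)
    obtain ⟨f, rfl⟩ := ofSeq_surj x
    obtain ⟨g, rfl⟩ := ofSeq_surj y
    obtain ⟨k, rfl⟩ := ofSeq_surj w
    rw [← ofSeq_add, ← ofSeq_add, ← ofSeq_zero, ofSeq_eq] at hxyw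
    rw [ultra_ofSeq] at hx hy hw
    obtain ⟨n, ⟨⟨h1, h2⟩, h3⟩, h4⟩ := (((hxyw.and hx).and hy).and hw).exists
    refine ⟨f n, g n, k n, h1, ?_, ?_, ?_⟩
    · rw [h2, ← Equiv.prod_comp E.symm]
      simp
    · rw [h3, ← Equiv.prod_comp E.symm]
      simp
    · rw [h4, ← Equiv.prod_comp E.symm]
      simp
  · intro i
    by_cases hnt : Triv (compChar hR hC hP he (E.symm i))
    · left; exact hnt
    · right
      exact ⟨compChar_red hR hC hP he _ hnt, compChar_loc hχ hR hC hP he _ hnt⟩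

omit [Infinite K] [Countable K] in
theorem loc_key {X : K →*₀ Γ} (hR : RedExt K (ultra X)) (hX : Loc X) (x : UL K) :
    (x ≠ 0 ∧ x⁻¹ ∈ ringR hR) ∨ (x + 1 ≠ 0 ∧ (x + 1)⁻¹ ∈ ringR hR) := by
  classical
  obtain ⟨F, hF⟩ := hX
  obtain ⟨f, rfl⟩ := ofSeq_surj x
  have h1 : Ae (fun n => (f n ≠ 0 ∧ ∀ a : K, (∀ g ∈ F, X (1 + g * a) = 1) →
      X (1 + a / f n) = 1) ∨ (f n + 1 ≠ 0 ∧ ∀ a : K, (∀ g ∈ F, X (1 + g * a) = 1) →
      X (1 + a / (f n + 1)) = 1)) := Ae.of_forall (fun n => hF (f n))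
  rw [ae_or] at h1
  rcases h1 with h1 | h1
  · left
    refine ⟨ofSeq_ne_zero.mpr (h1.mono fun n hn => hn.1), ?_⟩
    apply mem_ringR_of
    intro u hu
    obtain ⟨w, rfl⟩ := ofSeq_surj u
    rw [← ofSeq_inv, ← ofSeq_mul, ← ofSeq_one, ← ofSeq_add, ultra_ofSeq]
    have h2 : Ae (fun n => ∀ g ∈ F, X (1 + g * w n) = 1) :=
      ae_forall_finset F (fun g _ => memD_ofSeq.mp hu g)
    refine (h1.and h2).mono ?_
    rintro n ⟨hn, hn2⟩
    rw [← hn.2 _ hn2]
    congr 1
    simp only [Pi.add_apply, Pi.mul_apply, Pi.inv_apply]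
    rw [div_eq_mul_inv, mul_comm]
  · right
    have e1 : ofSeq f + 1 = ofSeq (fun n => f n + 1) := rfl
    rw [e1]
    refine ⟨ofSeq_ne_zero.mpr (h1.mono fun n hn => hn.1), ?_⟩
    apply mem_ringR_of
    intro u hu
    obtain ⟨w, rfl⟩ := ofSeq_surj u
    rw [← ofSeq_inv, ← ofSeq_mul, ← ofSeq_one, ← ofSeq_add, ultra_ofSeq]
    have h2 : Ae (fun n => ∀ g ∈ F, X (1 + g * w n) = 1) :=
      ae_forall_finset F (fun g _ => memD_ofSeq.mp hu g)
    refine (h1.and h2).mono ?_
    rintro n ⟨hn, hn2⟩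
    rw [← hn.2 _ hn2]
    congr 1
    simp only [Pi.add_apply, Pi.mul_apply, Pi.inv_apply]
    rw [div_eq_mul_inv, mul_comm]

/-- The valuation property of a local character in the ultrapower. -/
theorem val_of_loc {X : K →*₀ Γ} (hR : RedExt K (ultra X)) (hX : Loc X) (x : UL K) :
    x ∈ ringR hR ∨ (x ≠ 0 ∧ MemD K (ultra X) x⁻¹) := by
  classical
  obtain ⟨C, hC⟩ := exists_good_shift hR
  have hP : ∀ u : UL K, MemD K (ultra X) u → u ≠ 0 →
      ∃ v : UL K, v ≠ 0 ∧ MemD K (ultra X) v ∧ MemD K (ultra X) (u / v) :=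
    fun u hu _ => memD_split X u hu
  -- nonunits are in `D`
  have hnon : ∀ y : ringR hR, ¬ IsUnit y → MemD K (ultra X) (y : UL K) := by
    intro y hy
    obtain ⟨M, hM, hyM⟩ := exists_max_ideal_of_mem_nonunits hy
    have : y ∈ idealD hR := by
      rw [mem_idealD_iff hR hC hP]
      intro M' hM'
      by_cases hMM : M = M'
      · rw [← hMM]; exact hyM
      · exfalso
        have hco : IsCoprime M M' := Ideal.isCoprime_of_isMaximal hMM
        rw [Ideal.isCoprime_iff_exists] at hco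
        obtain ⟨r, hr, s, hs, hrs⟩ := hco
        rcases loc_key hR hX ((-r : ringR hR) : UL K) with h | h
        · exact not_mem_of_inv_mem hR h.1 h.2 ⟨M, hM⟩ (M.neg_mem hr)
        · have e : ((-r : ringR hR) : UL K) + 1 = (s : UL K) := by
            have : -r + 1 = s := by rw [← hrs]; ring
            have := congrArg Subtype.val this
            simpa using this
          rw [e] at h
          exact not_mem_of_inv_mem hR h.1 h.2 ⟨M', hM'⟩ hs
    exact this
  have hcase : ∀ w : UL K, w ≠ 0 → w ∈ ringR hR → w⁻¹ ∈ ringR hR ∨ MemD K (ultra X) w := by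
    intro w hw0 hw
    by_cases hu : IsUnit (⟨w, hw⟩ : ringR hR)
    · left
      obtain ⟨v, hv⟩ := hu
      have h1 : (v.val : ringR hR) * (v⁻¹ : (ringR hR)ˣ).val = 1 := v.mul_inv
      rw [hv] at h1
      have h2 : w * ((v⁻¹ : (ringR hR)ˣ).val : UL K) = 1 := by
        have := congrArg Subtype.val h1
        simpa using this
      rw [← eq_inv_of_mul_eq_one_right h2]
      exact ((v⁻¹ : (ringR hR)ˣ).val).2
    · right
      exact hnon _ hu
  rcases loc_key hR hX x with ⟨h0, h1⟩ | ⟨h0, h1⟩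
  · rcases hcase _ (inv_ne_zero h0) h1 with h | h
    · left; rwa [inv_inv] at h
    · right; exact ⟨h0, h⟩
  · rcases hcase _ (inv_ne_zero h0) h1 with h | h
    · left
      rw [inv_inv] at h
      have := (ringR hR).sub_mem h (ringR hR).one_mem
      rwa [add_sub_cancel_right] at this
    · by_cases hx : x = 0
      · left; rw [hx]; exact (ringR hR).zero_mem
      · right
        refine ⟨hx, ?_⟩
        have h2 := MemD.inv_one_add hR h.neg
        have h3 : x⁻¹ = (1 + -(x + 1)⁻¹)⁻¹ * (x + 1)⁻¹ := by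
          have h4 : 1 + -(x + 1)⁻¹ = x / (x + 1) := by field_simp; ring
          rw [h4]; field_simp
        rw [h3]
        exact h2.2 _ h

end

end HypQ
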