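import Pool.Agent.Lib.MP_9f0b3e_al.Defs

/-!
# Module DIM: Kronecker dimension

`KD d K`: every family of `d + 1` (characteristic `p`) or `d` (characteristic `0`) elements of `K`
is algebraically dependent over the prime ring. `KD d K → DimLE d K`, and a subfield generated by
finitely many witnesses has the same data as `K`.
-/

set_option autoImplicit false

namespace HypQ

open MvPolynomial

/-- `y` is algebraically independent over the prime field, stated with integer polynomials. -/
def PInd (K : Type*) [Field K] {m : ℕ} (y : Fin m → K) : Prop :=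
  ∀ f : MvPolynomial (Fin m) ℤ, eval₂Hom (Int.castRingHom K) y f = 0 →
    ∀ s, ((f.coeff s : ℤ) : K) = 0

/-- bound for the Kronecker dimension. -/
def KD (d : ℕ) (K : Type*) [Field K] : Prop :=
  (CharZero K → ∀ y : Fin d → K, ¬ PInd K y) ∧
  (¬ CharZero K → ∀ y : Fin (d + 1) → K, ¬ PInd K y)

theorem eval_cons {R : Type*} [CommRing R] {m : ℕ} (y : Fin m → R) (t : R)
    (f : MvPolynomial (Fin (m + 1)) ℤ) :
    eval₂Hom (Int.castRingHom R) (Fin.cons t y : Fin (m + 1) → R) f =
      Polynomial.eval₂ (eval₂Hom (Int.castRingHom R) y) t (finSuccEquiv ℤ m f) := by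
  have h : eval₂Hom (Int.castRingHom R) (Fin.cons t y : Fin (m + 1) → R) =
      (Polynomial.eval₂RingHom (eval₂Hom (Int.castRingHom R) y) t).comp
        (finSuccEquiv ℤ m : MvPolynomial (Fin (m + 1)) ℤ →+* _) := by
    apply ringHom_ext
    · intro r
      simp
    · intro i
      refine Fin.cases ?_ (fun j => ?_) i
      · simp [finSuccEquiv_X_zero]
      · simp [finSuccEquiv_X_succ]
  rw [h]
  rfl

theorem eval_zero_of_coeff {K : Type*} [CommRing K] {m : ℕ} (y : Fin m → K)
    (f : MvPolynomial (Fin m) ℤ) (h : ∀ s, ((f.coeff s : ℤ) : K) = 0) :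
    eval₂Hom (Int.castRingHom K) y f = 0 := by
  rw [coe_eval₂Hom, eval₂_eq]
  apply Finset.sum_eq_zero
  intro s _
  rw [eq_intCast, h s, zero_mul]

theorem eval_hom {R S : Type*} [CommRing R] [CommRing S] (g : R →+* S) {m : ℕ} (y : Fin m → R)
    (f : MvPolynomial (Fin m) ℤ) :
    g (eval₂Hom (Int.castRingHom R) y f) = eval₂Hom (Int.castRingHom S) (fun i => g (y i)) f := by
  have h : g.comp (eval₂Hom (Int.castRingHom R) y) =
      eval₂Hom (Int.castRingHom S) (fun i => g (y i)) := by
    apply ringHom_ext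
    · intro r
      simp
    · intro i
      simp
  exact congrArg (fun φ : MvPolynomial (Fin m) ℤ →+* S => φ f) h

section place

variable {K : Type*} [Field K] (O : ValuationSubring K)

/-- a nontrivial valuation ring has a nonzero non-unit. -/
theorem exists_small_val (hO : O ≠ ⊤) : ∃ t : O, t ≠ 0 ∧ IsLocalRing.residue O t = 0 := by
  obtain ⟨x, hx⟩ : ∃ x : K, x ∉ O := by
    by_contra h
    push Not at h
    apply hO
    ext x
    simp [h x]
  have hx0 : x ≠ 0 := by
    rintro rfl
    exact hx O.zero_mem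
  have hxi : x⁻¹ ∈ O := (O.mem_or_inv_mem x).resolve_left hx
  refine ⟨⟨x⁻¹, hxi⟩, ?_, ?_⟩
  · intro h
    have : x⁻¹ = 0 := congrArg Subtype.val h
    exact inv_ne_zero hx0 this
  · rw [IsLocalRing.residue_eq_zero_iff, IsLocalRing.mem_maximalIdeal, mem_nonunits_iff]
    rintro ⟨u, hu⟩
    apply hx
    have h1 : x⁻¹ * ((u⁻¹ : Oˣ) : O) = 1 := by
      have h2 : (u : O) * ((u⁻¹ : Oˣ) : O) = 1 := u.mul_inv
      rw [hu] at h2
      exact congrArg Subtype.val h2
    have h3 : x = ((u⁻¹ : Oˣ) : O) := by
      have := congrArg (fun z => x * z) h1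
      simp only [← mul_assoc, mul_inv_cancel₀ hx0, one_mul, mul_one] at this
      exact this.symm
    rw [h3]
    exact ((u⁻¹ : Oˣ) : O).2

/-- lifts of independent residues, together with a small element, are independent (equal
characteristic). -/
theorem pInd_cons (hs : ∀ a : ℤ, (a : IsLocalRing.ResidueField O) = 0 → (a : K) = 0)
    {m : ℕ} (z : Fin m → IsLocalRing.ResidueField O) (hz : PInd _ z) (y : Fin m → O)
    (hy : ∀ i, IsLocalRing.residue O (y i) = z i) (t : O) (ht0 : t ≠ 0)
    (ht : IsLocalRing.residue O t = 0) :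
    PInd K (Fin.cons (t : K) (fun i => (y i : K)) : Fin (m + 1) → K) := by
  intro f hf
  set F := finSuccEquiv ℤ m f with hF
  have hsO : ∀ a : ℤ, (a : K) = 0 → (a : O) = 0 := by
    intro a ha
    apply Subtype.ext
    simpa using ha
  -- the equation in `O`
  have hO : Polynomial.eval₂ (eval₂Hom (Int.castRingHom O) y) t F = 0 := by
    rw [hF, ← eval_cons]
    apply Subtype.ext
    have h1 := eval_hom O.subtype (Fin.cons t y : Fin (m + 1) → O) f
    have h2 : (fun i => O.subtype ((Fin.cons t y : Fin (m + 1) → O) i)) =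
        (Fin.cons (t : K) (fun i => (y i : K)) : Fin (m + 1) → K) := by
      funext i
      refine Fin.cases ?_ (fun j => ?_) i
      · simp
      · simp
    rw [h2, hf] at h1
    exact h1
  have key : ∀ i : ℕ, ∀ s, (((F.coeff i).coeff s : ℤ) : K) = 0 := by
    intro i
    induction i using Nat.strong_induction_on with
    | _ i ih =>
      set P : Polynomial O := F.map (eval₂Hom (Int.castRingHom O) y) with hP
      have hP0 : P.eval t = 0 := by
        rw [hP, Polynomial.eval_map]
        exact hO
      have hPc : ∀ j < i, P.coeff j = 0 := by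
        intro j hj
        rw [hP, Polynomial.coeff_map]
        exact eval_zero_of_coeff y _ (fun s => hsO _ (ih j hj s))
      obtain ⟨Q, hQ⟩ := (Polynomial.X_pow_dvd_iff).mpr hPc
      have hQ0 : Q.eval t = 0 := by
        rw [hQ, Polynomial.eval_mul, Polynomial.eval_pow, Polynomial.eval_X] at hP0
        exact (mul_eq_zero.mp hP0).resolve_left (pow_ne_zero i ht0)
      have hQc : Q.coeff 0 = P.coeff i := by
        rw [hQ, Polynomial.coeff_X_pow_mul' ]
        simp
      have hres : IsLocalRing.residue O (P.coeff i) = 0 := by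
        rw [← hQc]
        have h3 : Q.coeff 0 = - (t * (Q.divX.eval t)) := by
          have h4 := congrArg (Polynomial.eval t) (Polynomial.divX_mul_X_add Q)
          rw [hQ0] at h4
          simp only [Polynomial.eval_add, Polynomial.eval_mul, Polynomial.eval_X,
            Polynomial.eval_C] at h4
          linear_combination h4
        rw [h3, map_neg, map_mul, ht, zero_mul, neg_zero]
      rw [hP, Polynomial.coeff_map, eval_hom] at hres
      have h5 : (fun i => IsLocalRing.residue O (y i)) = z := funext hy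
      rw [h5] at hres
      intro s
      exact hs _ (hz _ hres s)
  intro s
  have h6 := key (s 0) s.tail
  rw [hF, finSuccEquiv_coeff_coeff, Finsupp.cons_tail] at h6
  exact h6

/-- lifts of independent residues are independent (mixed characteristic). -/
theorem pInd_mixed [CharZero K] {p : ℕ} (hp : p.Prime) [CharP (IsLocalRing.ResidueField O) p]
    {m : ℕ} (z : Fin m → IsLocalRing.ResidueField O) (hz : PInd _ z) (y : Fin m → O)
    (hy : ∀ i, IsLocalRing.residue O (y i) = z i) :
    PInd K (fun i => (y i : K)) := by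
  intro f hf
  by_contra hcon
  have hf0 : f ≠ 0 := by
    rintro rfl
    apply hcon
    intro s
    simp
  have hnu : ¬ IsUnit (C (p : ℤ) : MvPolynomial (Fin m) ℤ) := by
    intro h
    have h1 : IsUnit (p : ℤ) := by simpa using h.map (constantCoeff (σ := Fin m) (R := ℤ))
    rw [Int.ofNat_isUnit, Nat.isUnit_iff] at h1
    exact hp.one_lt.ne' h1
  obtain ⟨n, g, hg, hfg⟩ := WfDvdMonoid.max_power_factor' hf0 hnu
  have hg0 : eval₂Hom (Int.castRingHom K) (fun i => (y i : K)) g = 0 := by
    rw [hfg, map_mul, map_pow] at hf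
    have h1 : eval₂Hom (Int.castRingHom K) (fun i => (y i : K)) (C (p : ℤ)) ≠ 0 := by
      simp [hp.ne_zero]
    exact (mul_eq_zero.mp hf).resolve_left (pow_ne_zero n h1)
  have hgO : eval₂Hom (Int.castRingHom O) y g = 0 := by
    apply Subtype.ext
    have h1 := eval_hom O.subtype y g
    exact h1.trans hg0
  have hgk : eval₂Hom (Int.castRingHom (IsLocalRing.ResidueField O)) z g = 0 := by
    have h1 := eval_hom (IsLocalRing.residue O) y g
    have h5 : (fun i => IsLocalRing.residue O (y i)) = z := funext hy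
    rw [hgO, map_zero, h5] at h1
    exact h1.symm
  apply hg
  rw [C_dvd_iff_dvd_coeff]
  intro s
  exact (CharP.intCast_eq_zero_iff _ p _).mp (hz g hgk s)

/-- characteristics. -/
theorem charZero_of_residue [CharZero (IsLocalRing.ResidueField O)] : CharZero K := by
  refine charZero_of_inj_zero (fun n hn => ?_)
  have h1 : ((n : O) : K) = 0 := by simpa using hn
  have h2 : (n : O) = 0 := Subtype.ext h1
  have h3 : (n : IsLocalRing.ResidueField O) = 0 := by
    have := congrArg (IsLocalRing.residue O) h2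
    simpa using this
  exact_mod_cast h3

theorem exists_char {F : Type*} [Field F] (h : ¬ CharZero F) : ∃ p : ℕ, p.Prime ∧ CharP F p := by
  obtain ⟨p, hp⟩ := CharP.exists F
  rcases CharP.char_is_prime_or_zero F p with h1 | h1
  · exact ⟨p, h1, hp⟩
  · subst h1
    exact absurd (CharP.charP_to_charZero F) h

theorem same_zero [CharZero (IsLocalRing.ResidueField O)] (a : ℤ)
    (h : (a : IsLocalRing.ResidueField O) = 0) : (a : K) = 0 := by
  have : a = 0 := by exact_mod_cast h
  simp [this]

theorem same_p (h : ¬ CharZero K) (a : ℤ)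
    (ha : (a : IsLocalRing.ResidueField O) = 0) : (a : K) = 0 := by
  obtain ⟨p, hp, hK⟩ := exists_char h
  have h1 : ((p : O) : K) = 0 := by simp
  have h2 : (p : O) = 0 := Subtype.ext h1
  have h3 : (p : IsLocalRing.ResidueField O) = 0 := by
    have := congrArg (IsLocalRing.residue O) h2
    simpa using this
  have h4 : CharP (IsLocalRing.ResidueField O) p := by
    have : Fact p.Prime := ⟨hp⟩
    obtain ⟨q, hq⟩ := CharP.exists (IsLocalRing.ResidueField O)
    have h5 : q ∣ p := (CharP.cast_eq_zero_iff _ q p).mp h3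
    rcases (Nat.dvd_prime hp).mp h5 with h6 | h6
    · subst h6
      exact absurd rfl (CharP.char_ne_one (IsLocalRing.ResidueField O) 1)
    · subst h6
      exact hq
  have h5 : (p : ℤ) ∣ a := (CharP.intCast_eq_zero_iff _ p a).mp ha
  exact (CharP.intCast_eq_zero_iff K p a).mpr h5

theorem exists_lifts {m : ℕ} (z : Fin m → IsLocalRing.ResidueField O) :
    ∃ y : Fin m → O, ∀ i, IsLocalRing.residue O (y i) = z i :=
  ⟨fun i => (IsLocalRing.residue_surjective (z i)).choose,
    fun i => (IsLocalRing.residue_surjective (z i)).choose_spec⟩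

theorem KD_residue {d : ℕ} (h : KD (d + 1) K) (hO : O ≠ ⊤) :
    KD d (IsLocalRing.ResidueField O) := by
  obtain ⟨t, ht0, ht⟩ := exists_small_val O hO
  constructor
  · intro hκ z hz
    obtain ⟨y, hy⟩ := exists_lifts O z
    exact h.1 (charZero_of_residue O) _ (pInd_cons O (same_zero O) z hz y hy t ht0 ht)
  · intro hκ z hz
    obtain ⟨y, hy⟩ := exists_lifts O z
    by_cases hK : CharZero K
    · obtain ⟨p, hp, hpκ⟩ := exists_char hκ
      exact h.1 hK _ (pInd_mixed O hp z hz y hy)
    · exact h.2 hK _ (pInd_cons O (same_p O hK) z hz y hy t ht0 ht)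

theorem KD_zero (h : KD 0 K) : O = ⊤ := by
  by_contra hO
  obtain ⟨t, ht0, ht⟩ := exists_small_val O hO
  by_cases hK : CharZero K
  · apply h.1 hK (fun i => i.elim0)
    intro f hf s
    rw [eq_C_of_isEmpty f, coe_eval₂Hom, eval₂_C] at hf
    have hs : s = 0 := Subsingleton.elim _ _
    rw [hs]
    simpa using hf
  · refine h.2 hK _ (pInd_cons O (same_p O hK) (m := 0) (fun i => i.elim0) ?_ (fun i => i.elim0)
      (fun i => i.elim0) t ht0 ht)
    intro f hf s
    rw [eq_C_of_isEmpty f, coe_eval₂Hom, eval₂_C] at hf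
    have hs : s = 0 := Subsingleton.elim _ _
    rw [hs]
    simpa using hf

end place

theorem dimLE_of_KD : ∀ (d : ℕ) (K : Type) [Field K], KD d K → DimLE d K
  | 0, _, _, h => fun O => KD_zero O h
  | d + 1, _, _, h => fun O hO => dimLE_of_KD d _ (KD_residue O h hO)

/-! ### Upper bounds -/

theorem algInd_int {F : Type*} [Field F] [CharZero F] {m : ℕ} (y : Fin m → F) (h : PInd F y) :
    AlgebraicIndependent ℤ y := by
  rw [algebraicIndependent_iff]
  intro f hf
  ext s
  have h1 := h f (by rw [← hf]; rfl) s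
  simpa using h1

theorem algInd_zmod {F : Type*} [Field F] {p : ℕ} [hp : Fact p.Prime] [CharP F p]
    [Algebra (ZMod p) F] {m : ℕ} (y : Fin m → F) (h : PInd F y) :
    AlgebraicIndependent (ZMod p) y := by
  rw [algebraicIndependent_iff]
  intro g hg
  obtain ⟨f, rfl⟩ := MvPolynomial.map_surjective (σ := Fin m) (Int.castRingHom (ZMod p))
    (ZMod.intCast_surjective) g
  ext s
  rw [coeff_map, coeff_zero, eq_intCast]
  have h1 : eval₂Hom (Int.castRingHom F) y f = 0 := by
    rw [← hg, aeval_def, eval₂_map]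
    have h2 : (algebraMap (ZMod p) F).comp (Int.castRingHom (ZMod p)) = Int.castRingHom F :=
      RingHom.ext_int _ _
    rw [h2]
    rfl
  have h2 := h f h1 s
  rw [CharP.intCast_eq_zero_iff F p] at h2
  exact (ZMod.intCast_zmod_eq_zero_iff_dvd _ _).mpr h2

theorem isAlgebraic_of_div {R F : Type*} [CommRing R] [IsDomain R] [Field F] [Algebra R F]
    [FaithfulSMul R F] (x : F) (a b : R) (hb : algebraMap R F b ≠ 0)
    (hx : algebraMap R F a / algebraMap R F b = x) : IsAlgebraic R x := by
  refine ⟨Polynomial.C b * Polynomial.X - Polynomial.C a, ?_, ?_⟩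
  · intro h
    have := congrArg (fun q => Polynomial.coeff q 1) h
    simp at this
    apply hb
    rw [this, map_zero]
  · simp only [map_sub, map_mul, Polynomial.aeval_C, Polynomial.aeval_X]
    rw [← hx]
    field_simp
    ring

theorem card_le_of_gen {R F : Type} [CommRing R] [IsDomain R] [Field F] [Algebra R F]
    [FaithfulSMul R F] (s : Set F) (hs : s.Finite)
    (hgen : ∀ x : F, ∃ a ∈ Subring.closure s, ∃ b ∈ Subring.closure s, a / b = x)
    {m : ℕ} (y : Fin m → F) (hy : AlgebraicIndependent R y) : m ≤ s.ncard := by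
  have hle : Subring.closure s ≤ (Algebra.adjoin R s).toSubring :=
    Subring.closure_le.mpr Algebra.subset_adjoin
  have halg : Algebra.IsAlgebraic (Algebra.adjoin R s) F := by
    constructor
    intro x
    obtain ⟨a, ha, b, hb, hab⟩ := hgen x
    by_cases hb0 : b = 0
    · rw [hb0, div_zero] at hab
      rw [← hab]
      exact isAlgebraic_zero
    · exact isAlgebraic_of_div x (⟨a, hle ha⟩ : Algebra.adjoin R s) ⟨b, hle hb⟩ hb0 hab
  have h1 : Algebra.trdeg R F ≤ Cardinal.mk s := Algebra.IsAlgebraic.trdeg_le_cardinalMk R s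
  have h2 : Cardinal.mk (Fin m) ≤ Algebra.trdeg R F := hy.cardinalMk_le_trdeg
  have h3 : Cardinal.mk s = (s.ncard : Cardinal) := by
    rw [Set.cast_ncard hs]
  rw [Cardinal.mk_fin] at h2
  rw [h3] at h1
  exact_mod_cast h2.trans h1

theorem KD_of_gen {F : Type} [Field F] (s : Set F) (hs : s.Finite)
    (hgen : ∀ x : F, ∃ a ∈ Subring.closure s, ∃ b ∈ Subring.closure s, a / b = x) :
    KD (s.ncard + 1) F := by
  constructor
  · intro hF y hy
    have : FaithfulSMul ℤ F :=
      (faithfulSMul_iff_algebraMap_injective ℤ F).mpr (RingHom.injective_int (algebraMap ℤ F))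
    have := card_le_of_gen s hs hgen y (algInd_int y hy)
    omega
  · intro hF y hy
    obtain ⟨p, hp, hpF⟩ := exists_char hF
    have : Fact p.Prime := ⟨hp⟩
    let _ : Algebra (ZMod p) F := ZMod.algebra F p
    have := card_le_of_gen (R := ZMod p) s hs hgen y (algInd_zmod y hy)
    omega

theorem pInd_coe {K : Type*} [Field K] (F : Subfield K) {m : ℕ} (y : Fin m → F)
    (h : PInd F y) : PInd K (fun i => (y i : K)) := by
  intro f hf s
  have h1 : eval₂Hom (Int.castRingHom F) y f = 0 := by
    apply Subtype.ext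
    exact (eval_hom F.subtype y f).trans hf
  have h2 := congrArg (Subtype.val : F → K) (h f h1 s)
  simpa using h2

theorem KD_of_algebraic {K : Type} [Field K] {p : ℕ} [Fact p.Prime] [CharP K p]
    [Algebra (ZMod p) K] (hK : Algebra.IsAlgebraic (ZMod p) K) (F : Subfield K) : KD 0 F := by
  constructor
  · intro hF
    have h1 : ((p : F) : K) = 0 := by simp
    have h2 : (p : F) = 0 := Subtype.ext h1
    exact absurd (Nat.cast_eq_zero.mp h2) (Fact.out : p.Prime).ne_zero
  · intro _ y hy
    exact (algInd_zmod _ (pInd_coe F y hy)).isEmpty_of_isAlgebraic.false 0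

theorem gen_closure {K : Type*} [Field K] (S : Set K) (x : Subfield.closure S) :
    ∃ a ∈ Subring.closure {y : Subfield.closure S | (y : K) ∈ S},
      ∃ b ∈ Subring.closure {y : Subfield.closure S | (y : K) ∈ S}, a / b = x := by
  obtain ⟨a, ha, b, hb, hab⟩ := Subfield.mem_closure_iff.mp x.2
  have hle : Subring.closure S ≤
      (Subring.closure {y : Subfield.closure S | (y : K) ∈ S}).map
        (Subfield.closure S).subtype := by
    rw [Subring.closure_le]
    intro z hz
    refine ⟨⟨z, Subfield.subset_closure hz⟩, ?_, rfl⟩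
    exact Subring.subset_closure hz
  obtain ⟨a', ha', rfl⟩ := hle ha
  obtain ⟨b', hb', rfl⟩ := hle hb
  refine ⟨a', ha', b', hb', ?_⟩
  apply Subtype.ext
  exact hab

theorem subfield_aux {K A : Type} [Field K] [CommGroup A] [Finite A]
    (χ : K →*₀ WithZero A) (T : Set K) (hT : T.Finite)
    (hinf : ∀ F : Subfield K, T ⊆ F → Infinite F) : ∃ F : Subfield K, Infinite F ∧ Countable F ∧
      (∃ d, DimLE d F) ∧ NN (χ.comp F.subtype.toMonoidWithZeroHom) = NN χ ∧
      HH (χ.comp F.subtype.toMonoidWithZeroHom) = HH χ := by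
  classical
  have hNN : ∀ q : NN χ, ∃ a b c : K, c ≠ 0 ∧ a + b = c ∧
      χ a = (q.1.1 : WithZero A) * χ c ∧ χ b = (q.1.2 : WithZero A) * χ c := fun q => q.2
  choose wa wb wc hc habc hwa hwb using hNN
  have hHH : ∀ h : {h : A | ∃ a : K, χ a = (h : WithZero A)}, ∃ a : K,
      χ a = (h.1 : WithZero A) := fun h => h.2
  choose wh hwh using hHH
  set S : Set K := Set.range wa ∪ Set.range wb ∪ Set.range wc ∪ Set.range wh ∪ T with hS
  have hSf : S.Finite := by
    refine Set.Finite.union (Set.Finite.union (Set.Finite.union (Set.Finite.union ?_ ?_) ?_) ?_) hT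
    all_goals exact Set.finite_range _
  set F := Subfield.closure S with hF
  have hsub : S ⊆ F := Subfield.subset_closure
  refine ⟨F, hinf F (fun x hx => hsub (Or.inr hx)), ?_, ?_, ?_, ?_⟩
  · rw [← Cardinal.mk_le_aleph0_iff]
    refine (Subfield.cardinalMk_closure_le_max S).trans (max_le ?_ le_rfl)
    exact Cardinal.mk_le_aleph0_iff.mpr hSf.countable
  · refine ⟨_, dimLE_of_KD _ F (KD_of_gen {y : F | (y : K) ∈ S} ?_ (gen_closure S))⟩
    exact hSf.preimage Subtype.val_injective.injOn
  · ext q
    constructor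
    · rintro ⟨a, b, c, hc', habc', h1, h2⟩
      exact ⟨a, b, c, fun h => hc' (Subtype.ext h), by rw [← habc']; rfl, h1, h2⟩
    · intro hq
      have ha : wa ⟨q, hq⟩ ∈ F := hsub (Or.inl (Or.inl (Or.inl (Or.inl ⟨_, rfl⟩))))
      have hb : wb ⟨q, hq⟩ ∈ F := hsub (Or.inl (Or.inl (Or.inl (Or.inr ⟨_, rfl⟩))))
      have hc' : wc ⟨q, hq⟩ ∈ F := hsub (Or.inl (Or.inl (Or.inr ⟨_, rfl⟩)))
      refine ⟨⟨_, ha⟩, ⟨_, hb⟩, ⟨_, hc'⟩, ?_, ?_, hwa ⟨q, hq⟩, hwb ⟨q, hq⟩⟩
      · intro h
        exact hc ⟨q, hq⟩ (congrArg Subtype.val h)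
      · exact Subtype.ext (habc ⟨q, hq⟩)
  · unfold HH
    congr 1
    ext h
    constructor
    · rintro ⟨a, ha⟩
      exact ⟨a, ha⟩
    · intro hh
      have hw : wh ⟨h, hh⟩ ∈ F := hsub (Or.inl (Or.inr ⟨_, rfl⟩))
      exact ⟨⟨_, hw⟩, hwh ⟨h, hh⟩⟩

theorem infinite_of_transcendental {K : Type} [Field K] {p : ℕ} [Fact p.Prime]
    [Algebra (ZMod p) K] (t : K) (ht : Transcendental (ZMod p) t) (F : Subfield K) (hF : t ∈ F) :
    Infinite F := by
  by_contra hfin
  rw [not_infinite_iff_finite] at hfin
  have : Fintype F := Fintype.ofFinite F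
  apply ht
  have h1 : (⟨t, hF⟩ : F) ^ Fintype.card F = ⟨t, hF⟩ := FiniteField.pow_card _
  have h2 : t ^ Fintype.card F = t := congrArg Subtype.val h1
  have hq : 1 < Fintype.card F := Fintype.one_lt_card
  refine ⟨Polynomial.X ^ Fintype.card F - Polynomial.X, ?_, ?_⟩
  · intro h
    have := congrArg (fun q => Polynomial.coeff q 1) h
    simp only [Polynomial.coeff_sub, Polynomial.coeff_X_pow, Polynomial.coeff_X_one,
      Polynomial.coeff_zero] at this
    rw [if_neg (by omega)] at this
    simp at this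
  · simp [h2]

theorem exists_subfield {K A : Type} [Field K] [Infinite K] [CommGroup A] [Finite A]
    (χ : K →*₀ WithZero A) : ∃ F : Subfield K, Infinite F ∧ Countable F ∧
      (∃ d, DimLE d F) ∧ NN (χ.comp F.subtype.toMonoidWithZeroHom) = NN χ ∧
      HH (χ.comp F.subtype.toMonoidWithZeroHom) = HH χ := by
  classical
  by_cases hK : CharZero K
  · refine subfield_aux χ ∅ Set.finite_empty (fun F _ => ?_)
    infer_instance
  · obtain ⟨p, hp, hpK⟩ := exists_char hK
    have : Fact p.Prime := ⟨hp⟩
    let _ : Algebra (ZMod p) K := ZMod.algebra K p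
    by_cases halg : Algebra.IsAlgebraic (ZMod p) K
    · refine ⟨⊤, ?_, ?_, ⟨0, dimLE_of_KD 0 _ (KD_of_algebraic halg ⊤)⟩, ?_, ?_⟩
      · exact Infinite.of_injective (fun x : K => (⟨x, trivial⟩ : (⊤ : Subfield K)))
          (fun x y h => congrArg Subtype.val h)
      · have h1 : Countable K := by
          rw [← Cardinal.mk_le_aleph0_iff]
          refine (Algebra.IsAlgebraic.cardinalMk_le_max (ZMod p) K).trans (max_le ?_ le_rfl)
          exact Cardinal.mk_le_aleph0_iff.mpr inferInstance
        exact Subtype.val_injective.countable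
      · ext q
        constructor
        · rintro ⟨a, b, c, hc', habc', h1, h2⟩
          exact ⟨a, b, c, fun h => hc' (Subtype.ext h), by rw [← habc']; rfl, h1, h2⟩
        · rintro ⟨a, b, c, hc', habc', h1, h2⟩
          refine ⟨⟨a, trivial⟩, ⟨b, trivial⟩, ⟨c, trivial⟩, ?_, ?_, h1, h2⟩
          · intro h
            exact hc' (congrArg Subtype.val h)
          · exact Subtype.ext habc'
      · unfold HH
        congr 1
        ext h
        constructor
        · rintro ⟨a, ha⟩
          exact ⟨a, ha⟩
        · rintro ⟨a, ha⟩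
          exact ⟨⟨a, trivial⟩, ha⟩
    · have hex : ∃ t : K, Transcendental (ZMod p) t := by
        by_contra h
        apply halg
        constructor
        intro x
        by_contra hx
        exact h ⟨x, hx⟩
      obtain ⟨t, ht⟩ := hex
      refine subfield_aux χ {t} (Set.finite_singleton t) (fun F hF => ?_)
      exact infinite_of_transcendental t ht F (hF rfl)

end HypQ
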