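import Pool.Agent.Lib.MP_9f0b3e_al.Pair
import Pool.Agent.Lib.MP_9f0b3e_al.DecompThm
import Pool.Agent.Lib.MP_9f0b3e_al.Dim

/-!
# Completeness: every character of an infinite field is derivable, given the local step
-/

set_option autoImplicit false

namespace HypQ

open Pointwise

noncomputable section

/-- the local step (module DERLOC), as a proposition -/
def LocalStep : Prop :=
  ∀ (c : ℕ), (c = 0 ∨ c.Prime) → ∀ (K A : Type) [Field K] [Infinite K] [Countable K] [CharP K c]
    [CommGroup A] [Finite A] (X : K →*₀ WithZero A), RedExt K X → Loc X →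
    (∃ a, a ≠ 0 ∧ X a ≠ 1) → ∀ (α : (ZMod c)ˣ →* A), IsPrimeRes c X α →
    (∀ O : ValuationSubring K, O ≠ ⊤ → Infinite (IsLocalRing.ResidueField O) →
      ∀ (p : ℕ) [CharP (IsLocalRing.ResidueField O) p] (A' : Type) [CommGroup A'] [Finite A']
        (χ : IsLocalRing.ResidueField O →*₀ WithZero A') (α' : (ZMod p)ˣ →* A'),
        IsPrimeRes p χ α' → Der p A' α' (HH χ) (NN χ)) →
    Der c A α (HH X) (NN X)

section prime

variable {K A : Type} [Field K] [CommGroup A]

/-- the values of a character at the units of the prime ring -/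
def primeRes (c : ℕ) [CharP K c] (X : K →*₀ WithZero A) : (ZMod c)ˣ →* A :=
  (WithZero.unitsWithZeroEquiv (α := A)).toMonoidHom.comp
    ((Units.map (X : K →* WithZero A)).comp
      (Units.map ((ZMod.castHom (dvd_refl c) K : ZMod c →+* K) : ZMod c →* K)))

theorem isPrimeRes_primeRes (c : ℕ) [CharP K c] (X : K →*₀ WithZero A) :
    IsPrimeRes c X (primeRes c X) := by
  intro j u
  have hj : j = ZMod.castHom (dvd_refl c) K := Subsingleton.elim _ _
  have h : ((primeRes c X u : A) : WithZero A) =
      (((Units.map (X : K →* WithZero A)).comp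
      (Units.map ((ZMod.castHom (dvd_refl c) K : ZMod c →+* K) : ZMod c →* K)) u :
        (WithZero A)ˣ) : WithZero A) := by
    unfold primeRes
    simp [WithZero.unitsWithZeroEquiv]
  rw [h, hj]
  rfl

theorem IsPrimeRes.eq {c : ℕ} [CharP K c] {X : K →*₀ WithZero A} {α : (ZMod c)ˣ →* A}
    (h : IsPrimeRes c X α) : α = primeRes c X := by
  ext u
  have h1 := h (ZMod.castHom (dvd_refl c) K) u
  have h2 := isPrimeRes_primeRes c X (ZMod.castHom (dvd_refl c) K) u
  rw [h1] at h2
  exact_mod_cast h2

end prime

/-! ### finite products -/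

section prod

variable {A : Type} [CommGroup A] {c : ℕ}

theorem der_fin_prod (hc : c = 0 ∨ c.Prime) : ∀ (n : ℕ) (α : Fin n → ((ZMod c)ˣ →* A))
    (H : Fin n → Subgroup A) (N : Fin n → Set (A × A)),
    (∀ i, Der c A (α i) (H i) (N i)) → Der c A (∏ i, α i) (⨆ i, H i) (∏ i, N i) := by
  intro n
  induction n with
  | zero =>
    intro α H N _
    have := Der.triv c hc A
    simp only [Finset.univ_eq_empty, Finset.prod_empty, iSup_of_empty]
    exact this
  | succ n ih =>
    intro α H N h
    have h1 := ih (fun i => α i.castSucc) (fun i => H i.castSucc) (fun i => N i.castSucc)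
      (fun i => h _)
    have h2 := Der.prod c A _ _ _ _ _ _ h1 (h (Fin.last n))
    rw [Fin.prod_univ_castSucc, Fin.prod_univ_castSucc]
    have h3 : (⨆ i, H i) = (⨆ i : Fin n, H i.castSucc) ⊔ H (Fin.last n) := by
      apply le_antisymm
      · apply iSup_le
        intro i
        induction i using Fin.lastCases with
        | last => exact le_sup_right
        | cast i => exact le_sup_of_le_left (le_iSup (fun i : Fin n => H i.castSucc) i)
      · apply sup_le
        · exact iSup_le (fun i => le_iSup H i.castSucc)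
        · exact le_iSup H (Fin.last n)
    rw [h3]
    exact h2

end prod

/-! ### triples -/

section triples

variable {K A : Type} [Field K] [CommGroup A]

/-- triple relation -/
def T3 (χ : K →*₀ WithZero A) (x y w : A) : Prop :=
  ∃ a b c : K, a + b + c = 0 ∧ χ a = x ∧ χ b = y ∧ χ c = w

theorem T3.swap {χ : K →*₀ WithZero A} {x y w : A} (h : T3 χ x y w) : T3 χ y x w := by
  obtain ⟨a, b, c, h0, h1, h2, h3⟩ := h
  exact ⟨b, a, c, by linear_combination h0, h2, h1, h3⟩

theorem T3.pow {χ : K →*₀ WithZero A} {z : A}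
    (hz : ∀ x y w, T3 χ x y w → T3 χ (z * x) y w) {x y w : A} (h : T3 χ x y w) (n : ℕ) :
    T3 χ (z ^ n * x) y w := by
  induction n with
  | zero => simpa using h
  | succ n ih =>
    have := hz _ _ _ ih
    rwa [← mul_assoc, ← pow_succ'] at this

theorem T3.zpow [Finite A] {χ : K →*₀ WithZero A} {z : A}
    (hz : ∀ x y w, T3 χ x y w → T3 χ (z * x) y w) {x x' y w : A}
    (hx : x⁻¹ * x' ∈ Subgroup.zpowers z) (h : T3 χ x y w) : T3 χ x' y w := by
  obtain ⟨n, hn⟩ := (mem_powers_iff_mem_zpowers (x := z)).mpr hx
  have := h.pow hz n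
  have e : z ^ n * x = x' := by
    have hn' : z ^ n = x⁻¹ * x' := hn
    rw [hn', mul_comm x⁻¹ x', inv_mul_cancel_right]
  rwa [e] at this

end triples

/-! ### the reduction to reduced characters -/

section reduce

variable {K A : Type} [Field K] [Infinite K] [CommGroup A] [Finite A]

theorem triv_data {χ : K →*₀ WithZero A} (h : ∀ a : K, a ≠ 0 → χ a = 1) :
    HH χ = ⊥ ∧ NN χ = {(1, 1)} := by
  classical
  constructor
  · rw [eq_bot_iff]
    intro x hx
    obtain ⟨a, ha⟩ := (mem_HH_field χ x).mp hx
    have h1 := h a (ne_zero_of_coe χ ha)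
    rw [h1] at ha
    rw [Subgroup.mem_bot]
    exact_mod_cast ha.symm
  · ext ⟨x, y⟩
    rw [mem_NN_field, Set.mem_singleton_iff, Prod.mk.injEq]
    constructor
    · rintro ⟨a, b, -, ha, hb⟩
      have h1 := h a (ne_zero_of_coe χ ha)
      have h2 := h b (ne_zero_of_coe χ hb)
      rw [h1] at ha
      rw [h2] at hb
      exact ⟨by exact_mod_cast ha.symm, by exact_mod_cast hb.symm⟩
    · rintro ⟨rfl, rfl⟩
      obtain ⟨a, ha⟩ := Infinite.exists_notMem_finset ({0, 1} : Finset K)
      simp only [Finset.mem_insert, Finset.mem_singleton, not_or] at ha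
      refine ⟨a, 1 - a, by ring, ?_, ?_⟩
      · rw [h a ha.1]; rfl
      · rw [h (1 - a) (sub_ne_zero.mpr (Ne.symm ha.2))]; rfl

theorem der_triv_data {c : ℕ} (hc : c = 0 ∨ c.Prime) [CharP K c] {χ : K →*₀ WithZero A}
    (h : ∀ a : K, a ≠ 0 → χ a = 1) {α : (ZMod c)ˣ →* A} (hα : IsPrimeRes c χ α) :
    Der c A α (HH χ) (NN χ) := by
  have h1 : α = 1 := by
    ext u
    have h2 := hα (ZMod.castHom (dvd_refl c) K) u
    have h3 : (ZMod.castHom (dvd_refl c) K) (u : ZMod c) ≠ 0 := by
      have : IsUnit ((ZMod.castHom (dvd_refl c) K) (u : ZMod c)) := u.isUnit.map _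
      exact this.ne_zero
    rw [h _ h3] at h2
    exact_mod_cast h2.symm
  rw [h1, (triv_data h).1, (triv_data h).2]
  exact Der.triv c hc A

/-- a character that is not reduced is trivial or has a stabiliser -/
theorem exists_stab {χ : K →*₀ WithZero A} (h : ¬ RedExt K χ) :
    (∀ a : K, a ≠ 0 → χ a = 1) ∨
      ∃ z : A, z ≠ 1 ∧ ∀ x y w, T3 χ x y w → T3 χ (z * x) y w := by
  obtain ⟨ε, hε⟩ := exists_eps χ
  unfold RedExt at h
  push Not at h
  obtain ⟨z, hz, h⟩ := h
  simp only [Algebra.algebraMap_self, RingHom.id_apply] at h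
  by_cases hz0 : z = 0
  · left
    -- every class equals `ε`
    have key : ∀ y ∈ HH χ, y = ε := by
      intro y hy
      have h1 : (y, (1 : A)) ∈ NN χ :=
        tameSet_subset_NN χ ε hε ⟨y, hy, Or.inl rfl⟩
      obtain ⟨a, b, hab, ha, hb⟩ := (mem_NN_field χ _ _).mp h1
      obtain ⟨a', b', c', h0, h1, h2, h3, -⟩ := h (-1) b a (by simp)
        (ne_zero_of_coe χ hb) (ne_zero_of_coe χ ha) (by linear_combination hab)
      rw [hz0, zero_mul, map_eq_zero] at h1
      have h4 : c' = -b' := by rw [h1] at h0; linear_combination h0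
      rw [h4, char_neg χ hε, h2, hb, ha] at h3
      have : ε * 1 = y := by exact_mod_cast h3
      rw [← this, mul_one]
    intro a ha
    have h1 : (1 : A) = ε := key 1 (HH χ).one_mem
    obtain ⟨x, hx⟩ := exists_coe χ ha
    have h2 := key x ((mem_HH_field χ x).mpr ⟨a, hx⟩)
    rw [hx, h2, ← h1]; rfl
  · right
    obtain ⟨z', hz'⟩ := WithZero.ne_zero_iff_exists.mp hz0
    refine ⟨z', ?_, ?_⟩
    · rintro rfl
      exact hz hz'.symm
    · rintro x y w ⟨a, b, c, h0, h1, h2, h3⟩
      obtain ⟨a', b', c', h4, h5, h6, h7, -⟩ := h a b c (ne_zero_of_coe χ h1)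
        (ne_zero_of_coe χ h2) (ne_zero_of_coe χ h3) h0
      refine ⟨a', b', c', h4, ?_, h6.trans h2, h7.trans h3⟩
      rw [h5, h1, ← hz']; norm_cast

/-- data of a stabilised character are pulled back from the quotient -/
theorem data_quot {χ : K →*₀ WithZero A} {z : A}
    (hz : ∀ x y w, T3 χ x y w → T3 χ (z * x) y w) :
    HH χ = (HH ((WithZero.map' (QuotientGroup.mk' (Subgroup.zpowers z))).comp χ)).comap
        (QuotientGroup.mk' (Subgroup.zpowers z)) ∧
    NN χ = {p | ((QuotientGroup.mk' (Subgroup.zpowers z)) p.1,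
      (QuotientGroup.mk' (Subgroup.zpowers z)) p.2) ∈
        NN ((WithZero.map' (QuotientGroup.mk' (Subgroup.zpowers z))).comp χ)} := by
  obtain ⟨ε, hε⟩ := exists_eps χ
  set φ := QuotientGroup.mk' (Subgroup.zpowers z) with hφ
  set χ' := (WithZero.map' φ).comp χ with hχ'
  have happ : ∀ (a : K) (x : A), χ a = x → χ' a = (φ x : WithZero _) := by
    intro a x h
    rw [hχ', MonoidWithZeroHom.comp_apply, h]
    exact WithZero.map'_coe φ x
  have hinv : ∀ (a : K) (x : A), χ' a = (φ x : WithZero _) →
      ∃ x0 : A, χ a = x0 ∧ x0⁻¹ * x ∈ Subgroup.zpowers z := by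
    intro a x h
    have ha : a ≠ 0 := ne_zero_of_coe χ' h
    obtain ⟨x0, hx0⟩ := exists_coe χ ha
    refine ⟨x0, hx0, ?_⟩
    have h1 := happ a x0 hx0
    rw [h] at h1
    have h2 : φ x = φ x0 := by exact_mod_cast h1
    exact QuotientGroup.eq.mp h2.symm
  have hzH : z ∈ HH χ := by
    have h1 : ((1 : A), (1 : A)) ∈ NN χ :=
      tameSet_subset_NN χ ε hε ⟨1, (HH χ).one_mem, Or.inl rfl⟩
    obtain ⟨a, b, hab, ha, hb⟩ := (mem_NN_field χ _ _).mp h1
    obtain ⟨a', b', c', -, h5, -, -⟩ := hz 1 1 ε ⟨a, b, -1, by linear_combination hab, ha, hb, hε⟩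
    rw [mul_one] at h5
    exact (mem_HH_field χ z).mpr ⟨a', h5⟩
  constructor
  · ext x
    rw [Subgroup.mem_comap, mem_HH_field, mem_HH_field]
    constructor
    · rintro ⟨a, ha⟩
      exact ⟨a, happ a x ha⟩
    · rintro ⟨a, ha⟩
      obtain ⟨x0, hx0, hx⟩ := hinv a x ha
      have h1 : x0⁻¹ * x ∈ HH χ := (Subgroup.zpowers_le.mpr hzH) hx
      have h2 : x0 ∈ HH χ := (mem_HH_field χ x0).mpr ⟨a, hx0⟩
      have h3 := (HH χ).mul_mem h2 h1
      rw [mul_inv_cancel_left] at h3
      exact (mem_HH_field χ x).mp h3
  · ext ⟨x, y⟩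
    rw [Set.mem_ofPred_eq, mem_NN_field, mem_NN_field]
    constructor
    · rintro ⟨a, b, h, ha, hb⟩
      exact ⟨a, b, h, happ a x ha, happ b y hb⟩
    · rintro ⟨a, b, h, ha, hb⟩
      obtain ⟨x0, hx0, hx⟩ := hinv a x ha
      obtain ⟨y0, hy0, hy⟩ := hinv b y hb
      have h1 : T3 χ x0 y0 ε := ⟨a, b, -1, by linear_combination h, hx0, hy0, hε⟩
      have h2 : T3 χ x y0 ε := h1.zpow hz hx
      have h3 : T3 χ x y ε := (h2.swap.zpow hz hy).swap
      obtain ⟨a', b', c', h4, h5, h6, h7⟩ := h3
      have h8 := NN_of_triple χ ε hε h4 h5 h6 h7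
      rw [eps_mul_eps χ hε, inv_one, mul_one, mul_one] at h8
      exact (mem_NN_field χ x y).mp h8

end reduce

/-! ### the reduced case -/

section reduced

variable {K A : Type} [Field K] [Infinite K] [Countable K] [CommGroup A] [Finite A]

theorem data_prod {χ : K →*₀ WithZero A} {n : ℕ} {X : Fin n → (K →*₀ WithZero A)}
    (h1 : ∀ a : K, a ≠ 0 → χ a = ∏ i, X i a)
    (h2 : ∀ a b c : Fin n → K, (∀ i, a i ≠ 0) → (∀ i, b i ≠ 0) → (∀ i, c i ≠ 0) →
        (∀ i, a i + b i + c i = 0) → ∃ a' b' c' : K, a' + b' + c' = 0 ∧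
          χ a' = ∏ i, X i (a i) ∧ χ b' = ∏ i, X i (b i) ∧ χ c' = ∏ i, X i (c i)) :
    HH χ = ⨆ i, HH (X i) ∧ NN χ = ∏ i, NN (X i) := by
  classical
  obtain ⟨ε, hε⟩ := exists_eps χ
  have hcoe : ∀ (x : Fin n → A), (∏ i, (x i : WithZero A)) = ((∏ i, x i : A) : WithZero A) := by
    intro x
    exact (map_prod (WithZero.coeMonoidHom : A →* WithZero A) x Finset.univ).symm
  constructor
  · apply le_antisymm
    · intro x hx
      obtain ⟨a, ha⟩ := (mem_HH_field χ x).mp hx
      have ha0 := ne_zero_of_coe χ ha
      choose x' hx' using fun i => exists_coe (X i) ha0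
      have : (x : WithZero A) = ((∏ i, x' i : A) : WithZero A) := by
        rw [← ha, h1 a ha0, ← hcoe]
        exact Finset.prod_congr rfl (fun i _ => hx' i)
      have hxe : x = ∏ i, x' i := by exact_mod_cast this
      rw [hxe]
      apply Subgroup.prod_mem
      intro i _
      exact (le_iSup (fun i => HH (X i)) i) ((mem_HH_field (X i) _).mpr ⟨a, hx' i⟩)
    · apply iSup_le
      intro i x hx
      obtain ⟨a, ha⟩ := (mem_HH_field (X i) x).mp hx
      have ha0 := ne_zero_of_coe (X i) ha
      obtain ⟨b, hb⟩ := Infinite.exists_notMem_finset ({0, -a} : Finset K)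
      simp only [Finset.mem_insert, Finset.mem_singleton, not_or] at hb
      obtain ⟨d, hd⟩ := Infinite.exists_notMem_finset ({0, -1} : Finset K)
      simp only [Finset.mem_insert, Finset.mem_singleton, not_or] at hd
      obtain ⟨a', b', c', -, h3, -, -⟩ := h2 (Function.update (fun _ => 1) i a)
        (Function.update (fun _ => d) i b) (Function.update (fun _ => -1 - d) i (-a - b))
        (by
          intro j
          by_cases hj : j = i
          · subst hj; simpa using ha0
          · rw [Function.update_of_ne hj]; exact one_ne_zero)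
        (by
          intro j
          by_cases hj : j = i
          · subst hj; simpa using hb.1
          · rw [Function.update_of_ne hj]; exact hd.1)
        (by
          intro j
          by_cases hj : j = i
          · subst hj
            rw [Function.update_self]
            intro h
            exact hb.2 (by linear_combination -h)
          · rw [Function.update_of_ne hj]
            intro h
            exact hd.2 (by linear_combination -h))
        (by
          intro j
          by_cases hj : j = i
          · subst hj; rw [Function.update_self, Function.update_self, Function.update_self]; ring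
          · rw [Function.update_of_ne hj, Function.update_of_ne hj, Function.update_of_ne hj]; ring)
      refine (mem_HH_field χ x).mpr ⟨a', ?_⟩
      rw [h3, Finset.prod_eq_single i]
      · rw [Function.update_self, ha]
      · intro j _ hj
        rw [Function.update_of_ne hj, map_one]
      · intro h; exact absurd (Finset.mem_univ i) h
  · ext ⟨x, y⟩
    rw [mem_NN_field, Set.mem_fintype_prod]
    constructor
    · rintro ⟨a, b, h, ha, hb⟩
      have ha0 := ne_zero_of_coe χ ha
      have hb0 := ne_zero_of_coe χ hb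
      choose x' hx' using fun i => exists_coe (X i) ha0
      choose y' hy' using fun i => exists_coe (X i) hb0
      refine ⟨fun i => (x' i, y' i), fun i => (mem_NN_field (X i) _ _).mpr
        ⟨a, b, h, hx' i, hy' i⟩, ?_⟩
      rw [Prod.ext_iff]
      constructor
      · rw [Prod.fst_prod]
        have : ((∏ i, x' i : A) : WithZero A) = (x : WithZero A) := by
          rw [← ha, h1 a ha0, ← hcoe]
          exact Finset.prod_congr rfl (fun i _ => (hx' i).symm)
        exact_mod_cast this
      · rw [Prod.snd_prod]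
        have : ((∏ i, y' i : A) : WithZero A) = (y : WithZero A) := by
          rw [← hb, h1 b hb0, ← hcoe]
          exact Finset.prod_congr rfl (fun i _ => (hy' i).symm)
        exact_mod_cast this
    · rintro ⟨g, hg, hgp⟩
      have hg' : ∀ i, ∃ a b : K, a + b = 1 ∧ X i a = (g i).1 ∧ X i b = (g i).2 :=
        fun i => (mem_NN_field (X i) (g i).1 (g i).2).mp (hg i)
      choose a b hab ha hb using hg'
      obtain ⟨a', b', c', h0, h3, h4, h5⟩ := h2 a b (fun _ => -1)
        (fun i => ne_zero_of_coe (X i) (ha i)) (fun i => ne_zero_of_coe (X i) (hb i))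
        (fun i => neg_ne_zero.mpr one_ne_zero) (fun i => by linear_combination hab i)
      have hx : x = ∏ i, (g i).1 := by rw [← Prod.fst_prod, hgp]
      have hy : y = ∏ i, (g i).2 := by rw [← Prod.snd_prod, hgp]
      have h6 : χ a' = (x : WithZero A) := by
        rw [h3, hx, ← hcoe]
        exact Finset.prod_congr rfl (fun i _ => ha i)
      have h7 : χ b' = (y : WithZero A) := by
        rw [h4, hy, ← hcoe]
        exact Finset.prod_congr rfl (fun i _ => hb i)
      have h8 : χ c' = (ε : WithZero A) := by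
        rw [h5, ← h1 (-1) (neg_ne_zero.mpr one_ne_zero), hε]
      have h9 := NN_of_triple χ ε hε h0 h6 h7 h8
      rw [eps_mul_eps χ hε, inv_one, mul_one, mul_one] at h9
      exact (mem_NN_field χ x y).mp h9

end reduced

/-! ### the induction -/

instance countable_residue {K : Type} [Field K] [Countable K] (O : ValuationSubring K) :
    Countable (IsLocalRing.ResidueField O) :=
  Function.Surjective.countable (IsLocalRing.residue_surjective (R := O))

theorem charP_cases {K : Type} [Field K] (p : ℕ) [CharP K p] : p = 0 ∨ p.Prime := by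
  rcases CharP.char_is_prime_or_zero K p with h | h
  · exact Or.inr h
  · exact Or.inl h

theorem compl_step (hL : LocalStep) {K : Type} [Field K] [Infinite K] [Countable K] (c : ℕ)
    [CharP K c]
    (IH : ∀ O : ValuationSubring K, O ≠ ⊤ → Infinite (IsLocalRing.ResidueField O) →
      ∀ (p : ℕ) [CharP (IsLocalRing.ResidueField O) p] (A' : Type) [CommGroup A'] [Finite A']
        (χ : IsLocalRing.ResidueField O →*₀ WithZero A') (α' : (ZMod p)ˣ →* A'),
        IsPrimeRes p χ α' → Der p A' α' (HH χ) (NN χ)) :
    ∀ (m : ℕ) (A : Type) [CommGroup A] [Finite A], Nat.card A ≤ m →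
        ∀ (χ : K →*₀ WithZero A) (α : (ZMod c)ˣ →* A), IsPrimeRes c χ α →
          Der c A α (HH χ) (NN χ) := by
  have hc := charP_cases (K := K) c
  intro m
  induction m with
  | zero =>
    intro A _ _ hm
    have : 0 < Nat.card A := Nat.card_pos
    omega
  | succ m ihm =>
    intro A _ _ hm χ α hα
    by_cases hred : RedExt K χ
    · -- reduced: decomposition
      have : Finite (WithZero A) := inferInstanceAs (Finite (Option A))
      obtain ⟨n, X, h1, h2, h3⟩ := decomposition hred
      obtain ⟨hH, hN⟩ := data_prod h1 h2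
      have hαp : α = ∏ i, primeRes c (X i) := by
        ext u
        have h4 := hα (ZMod.castHom (dvd_refl c) K) u
        have hne : (ZMod.castHom (dvd_refl c) K) (u : ZMod c) ≠ 0 := by
          have : IsUnit ((ZMod.castHom (dvd_refl c) K) (u : ZMod c)) := u.isUnit.map _
          exact this.ne_zero
        rw [h1 _ hne] at h4
        have h5 : ∀ i, X i ((ZMod.castHom (dvd_refl c) K) (u : ZMod c)) =
            ((primeRes c (X i) u : A) : WithZero A) :=
          fun i => isPrimeRes_primeRes c (X i) (ZMod.castHom (dvd_refl c) K) u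
        rw [Finset.prod_congr rfl (fun i _ => h5 i)] at h4
        have h6 : ((∏ i, primeRes c (X i) u : A) : WithZero A) =
            ∏ i, ((primeRes c (X i) u : A) : WithZero A) :=
          map_prod (WithZero.coeMonoidHom : A →* WithZero A) _ Finset.univ
        rw [← h6] at h4
        rw [MonoidHom.finsetProd_apply]
        exact_mod_cast h4.symm
      rw [hH, hN, hαp]
      apply der_fin_prod hc
      intro i
      by_cases ht : Triv (X i)
      · exact der_triv_data hc ht (isPrimeRes_primeRes c (X i))
      · rcases h3 i with h4 | ⟨h4, h5⟩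
        · exact absurd h4 ht
        · refine hL c hc K A (X i) h4 h5 ?_ _ (isPrimeRes_primeRes c (X i)) IH
          unfold Triv at ht
          push Not at ht
          exact ht
    · rcases exists_stab hred with h | ⟨z, hz1, hz⟩
      · exact der_triv_data hc h hα
      · obtain ⟨hH, hN⟩ := data_quot hz
        have hcard : Nat.card (A ⧸ Subgroup.zpowers z) ≤ m := by
          have h1 := Subgroup.card_eq_card_quotient_mul_card_subgroup (Subgroup.zpowers z)
          have h2 : 2 ≤ Nat.card (Subgroup.zpowers z) := by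
            rw [Nat.card_zpowers]
            have : 0 < orderOf z := orderOf_pos z
            have : orderOf z ≠ 1 := fun h => hz1 (orderOf_eq_one_iff.mp h)
            omega
          have h3 : 0 < Nat.card (A ⧸ Subgroup.zpowers z) := Nat.card_pos
          nlinarith
        have h4 := ihm (A ⧸ Subgroup.zpowers z) hcard
          ((WithZero.map' (QuotientGroup.mk' (Subgroup.zpowers z))).comp χ)
          ((QuotientGroup.mk' (Subgroup.zpowers z)).comp α) (by
            intro j u
            rw [MonoidWithZeroHom.comp_apply, hα j u]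
            exact WithZero.map'_coe _ _)
        have h5 := Der.lift c A (A ⧸ Subgroup.zpowers z) (QuotientGroup.mk' (Subgroup.zpowers z))
          (QuotientGroup.mk'_surjective _) α _ _ h4
        rw [← hH, ← hN] at h5
        exact h5

theorem completeness_dim (hL : LocalStep) : ∀ (d : ℕ) (K : Type) [Field K] [Infinite K]
    [Countable K], DimLE d K → ∀ (c : ℕ) [CharP K c] (A : Type) [CommGroup A] [Finite A]
    (χ : K →*₀ WithZero A) (α : (ZMod c)ˣ →* A), IsPrimeRes c χ α →
      Der c A α (HH χ) (NN χ) := by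
  intro d
  induction d with
  | zero =>
    intro K _ _ _ hd c _ A _ _ χ α hα
    refine compl_step hL c (fun O hO => ?_) (Nat.card A) A le_rfl χ α hα
    exact absurd (hd O) hO
  | succ d ih =>
    intro K _ _ _ hd c _ A _ _ χ α hα
    refine compl_step hL c (fun O hO hi p _ A' _ _ χ' α' hα' => ?_) (Nat.card A) A le_rfl χ α hα
    exact ih _ (hd O hO) p A' χ' α' hα'

/-- **Completeness**, given the local step. -/
theorem completeness_of_local (hL : LocalStep) {c : ℕ} {K A : Type} [Field K] [Infinite K]
    [CharP K c] [CommGroup A] [Finite A] (χ : K →*₀ WithZero A) (α : (ZMod c)ˣ →* A)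
    (hα : IsPrimeRes c χ α) : Der c A α (HH χ) (NN χ) := by
  obtain ⟨F, hF1, hF2, ⟨d, hd⟩, hN, hH⟩ := exists_subfield χ
  rw [← hN, ← hH]
  have hcF : CharP F c := (RingHom.charP_iff F.subtype F.subtype.injective c).mpr inferInstance
  refine completeness_dim hL d F hd c A _ α ?_
  intro j u
  exact hα (F.subtype.comp j) u

end

end HypQ
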