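import Pool.Agent.Lib.MP_9f0b3e_al.Defs
import Pool.Agent.Lib.MP_9f0b3e_al.Basic

/-!
# Basic lemmas on pair sets
-/

set_option autoImplicit false

namespace HypQ

section pair

variable {K A : Type*} [Field K] [CommGroup A]

theorem char_ne_zero (χ : K →*₀ WithZero A) {a : K} (ha : a ≠ 0) : χ a ≠ 0 := by
  simpa [map_eq_zero] using ha

theorem exists_coe (χ : K →*₀ WithZero A) {a : K} (ha : a ≠ 0) : ∃ x : A, χ a = (x : WithZero A) := by
  obtain ⟨x, hx⟩ := WithZero.ne_zero_iff_exists.mp (char_ne_zero χ ha)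
  exact ⟨x, hx.symm⟩

theorem ne_zero_of_coe (χ : K →*₀ WithZero A) {a : K} {x : A} (h : χ a = (x : WithZero A)) :
    a ≠ 0 := by
  rintro rfl
  rw [map_zero] at h
  exact WithZero.coe_ne_zero h.symm

theorem exists_eps (χ : K →*₀ WithZero A) : ∃ ε : A, χ (-1) = (ε : WithZero A) :=
  exists_coe χ (neg_ne_zero.mpr one_ne_zero)

theorem eps_mul_eps (χ : K →*₀ WithZero A) {ε : A} (hε : χ (-1) = (ε : WithZero A)) :
    ε * ε = 1 := by
  have h : χ (-1) * χ (-1) = 1 := by rw [← map_mul]; simp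
  rw [hε] at h
  exact_mod_cast h

theorem char_neg (χ : K →*₀ WithZero A) {ε : A} (hε : χ (-1) = (ε : WithZero A)) (a : K) :
    χ (-a) = ε * χ a := by
  rw [← hε, ← map_mul]; simp

theorem mem_NN_field (χ : K →*₀ WithZero A) (x y : A) :
    (x, y) ∈ NN χ ↔ ∃ a b : K, a + b = 1 ∧ χ a = x ∧ χ b = y := by
  constructor
  · rintro ⟨a, b, c, hc, h, h1, h2⟩
    have hc' := char_ne_zero χ hc
    refine ⟨a / c, b / c, ?_, ?_, ?_⟩
    · rw [← add_div, h, div_self hc]
    · rw [map_div₀, h1, mul_div_assoc, div_self hc', mul_one]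
    · rw [map_div₀, h2, mul_div_assoc, div_self hc', mul_one]
  · rintro ⟨a, b, h, h1, h2⟩
    exact ⟨a, b, 1, one_ne_zero, h, by simp [h1], by simp [h2]⟩

theorem mem_HH_field (χ : K →*₀ WithZero A) (x : A) : x ∈ HH χ ↔ ∃ a : K, χ a = x := by
  constructor
  · intro h
    unfold HH at h
    induction h using Subgroup.closure_induction with
    | mem x hx => exact hx
    | one => exact ⟨1, by simp⟩
    | mul x y _ _ hx hy =>
      obtain ⟨a, ha⟩ := hx
      obtain ⟨b, hb⟩ := hy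
      exact ⟨a * b, by rw [map_mul, ha, hb]; norm_cast⟩
    | inv x _ hx =>
      obtain ⟨a, ha⟩ := hx
      exact ⟨a⁻¹, by rw [map_inv₀, ha]; norm_cast⟩
  · intro h
    exact Subgroup.subset_closure h

theorem NN_subset (χ : K →*₀ WithZero A) {x y : A} (h : (x, y) ∈ NN χ) :
    x ∈ HH χ ∧ y ∈ HH χ := by
  obtain ⟨a, b, -, h1, h2⟩ := (mem_NN_field χ x y).mp h
  exact ⟨(mem_HH_field χ x).mpr ⟨a, h1⟩, (mem_HH_field χ y).mpr ⟨b, h2⟩⟩

theorem NN_symm (χ : K →*₀ WithZero A) {x y : A} (h : (x, y) ∈ NN χ) : (y, x) ∈ NN χ := by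
  obtain ⟨a, b, h0, h1, h2⟩ := (mem_NN_field χ x y).mp h
  exact (mem_NN_field χ y x).mpr ⟨b, a, by rw [add_comm, h0], h2, h1⟩

theorem NN_inv (χ : K →*₀ WithZero A) (ε : A) (hε : χ (-1) = ε) {x y : A} (h : (x, y) ∈ NN χ) :
    (x⁻¹, ε * y * x⁻¹) ∈ NN χ := by
  obtain ⟨a, b, h0, h1, h2⟩ := (mem_NN_field χ x y).mp h
  have ha : a ≠ 0 := ne_zero_of_coe χ h1
  refine (mem_NN_field χ _ _).mpr ⟨a⁻¹, -b * a⁻¹, ?_, ?_, ?_⟩
  · field_simp
    linear_combination (-1 : K) * h0
  · rw [map_inv₀, h1]; norm_cast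
  · rw [map_mul, char_neg χ hε, map_inv₀, h1, h2]; norm_cast

theorem NN_neg (χ : K →*₀ WithZero A) (ε : A) (hε : χ (-1) = ε) {x y : A} (h : (x, y) ∈ NN χ) :
    (ε * x * y⁻¹, y⁻¹) ∈ NN χ := NN_symm χ (NN_inv χ ε hε (NN_symm χ h))

/-- membership in `NN` from a zero-sum triple. -/
theorem NN_of_triple (χ : K →*₀ WithZero A) (ε : A) (hε : χ (-1) = ε) {a b c : K} {x y w : A}
    (h : a + b + c = 0) (ha : χ a = x) (hb : χ b = y) (hc : χ c = w) :
    (x * (ε * w)⁻¹, y * (ε * w)⁻¹) ∈ NN χ := by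
  have hc0 : c ≠ 0 := ne_zero_of_coe χ hc
  have hnc : χ (-c) = ((ε * w : A) : WithZero A) := by
    rw [char_neg χ hε, hc]; norm_cast
  refine (mem_NN_field χ _ _).mpr ⟨a / (-c), b / (-c), ?_, ?_, ?_⟩
  · rw [← add_div]
    have : a + b = -c := by linear_combination h
    rw [this, div_self (neg_ne_zero.mpr hc0)]
  · rw [map_div₀, ha, hnc, div_eq_mul_inv]; norm_cast
  · rw [map_div₀, hb, hnc, div_eq_mul_inv]; norm_cast

/-- a zero-sum triple with given classes from membership in `NN`. -/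
theorem triple_of_NN (χ : K →*₀ WithZero A) (ε : A) (hε : χ (-1) = ε) {x y w : A}
    (hw : w ∈ HH χ) (h : (x * (ε * w)⁻¹, y * (ε * w)⁻¹) ∈ NN χ) :
    ∃ a b c : K, a + b + c = 0 ∧ χ a = x ∧ χ b = y ∧ χ c = w := by
  obtain ⟨a, b, h0, h1, h2⟩ := (mem_NN_field χ _ _).mp h
  obtain ⟨c, hc⟩ := (mem_HH_field χ w).mp hw
  have hnc : χ (-c) = ((ε * w : A) : WithZero A) := by
    rw [char_neg χ hε, hc]; norm_cast
  refine ⟨a * (-c), b * (-c), c, ?_, ?_, ?_, hc⟩
  · linear_combination (-c) * h0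
  · rw [map_mul, h1, hnc]
    have : x * (ε * w)⁻¹ * (ε * w) = x := inv_mul_cancel_right _ _
    exact_mod_cast this
  · rw [map_mul, h2, hnc]
    have : y * (ε * w)⁻¹ * (ε * w) = y := inv_mul_cancel_right _ _
    exact_mod_cast this

/-- For an infinite field: for every finite set `F` there is `u ≠ 0` with `χ (1 + l u) = 1` for
`l ∈ F`. -/
theorem exists_small [Infinite K] [Finite A] (χ : K →*₀ WithZero A) (F : Finset K) :
    ∃ u : K, u ≠ 0 ∧ ∀ l ∈ F, χ (1 + l * u) = 1 := by
  classical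
  have : Finite (WithZero A) := inferInstanceAs (Finite (Option A))
  obtain ⟨C, hC⟩ := gallai K (insert 1 F) (WithZero A)
  obtain ⟨c, d, -, hd, h⟩ := hC χ
  have hc : c ≠ 0 := by
    rintro rfl
    have := h 1 (Finset.mem_insert_self _ _)
    rw [map_zero, zero_add, mul_one, map_eq_zero] at this
    exact hd this
  refine ⟨d / c, div_ne_zero hd hc, fun l hl => ?_⟩
  have h1 := h l (Finset.mem_insert_of_mem hl)
  have h2 : c + d * l = c * (1 + l * (d / c)) := by field_simp
  rw [h2, map_mul] at h1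
  have hc' := char_ne_zero χ hc
  exact mul_left_cancel₀ hc' (by rw [h1, mul_one])

/-- Infinitely many such `u`: one can avoid a finite set. -/
theorem exists_small' [Infinite K] [Finite A] (χ : K →*₀ WithZero A) (F E : Finset K) :
    ∃ u : K, u ≠ 0 ∧ u ∉ E ∧ ∀ l ∈ F, χ (1 + l * u) = 1 := by
  classical
  by_cases hχ : ∀ a : K, a ≠ 0 → χ a = 1
  · obtain ⟨u, hu⟩ := Infinite.exists_notMem_finset
      (insert 0 (E ∪ F.image (fun l => -l⁻¹)))
    rw [Finset.mem_insert, Finset.mem_union, not_or, not_or] at hu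
    refine ⟨u, hu.1, hu.2.1, fun l hl => hχ _ ?_⟩
    intro h
    apply hu.2.2
    rw [Finset.mem_image]
    refine ⟨l, hl, ?_⟩
    have hl0 : l ≠ 0 := by rintro rfl; simp at h
    have : l * u = -1 := by linear_combination h
    field_simp
    linear_combination (-1 : K) * this
  · push Not at hχ
    obtain ⟨g, hg0, hg⟩ := hχ
    obtain ⟨u, hu0, hu⟩ := exists_small χ (F ∪ E.image (fun e => (g - 1) / e))
    refine ⟨u, hu0, ?_, fun l hl => hu l (Finset.mem_union_left _ hl)⟩
    intro hE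
    have h1 := hu _ (Finset.mem_union_right _ (Finset.mem_image_of_mem _ hE))
    apply hg
    rw [← h1]
    congr 1
    field_simp
    ring

/-- for infinite `K` (from `gallai`). -/
theorem tameSet_subset_NN [Infinite K] [Finite A] (χ : K →*₀ WithZero A) (ε : A)
    (hε : χ (-1) = ε) : tameSet ε (HH χ) ⊆ NN χ := by
  classical
  have key : ∀ y ∈ HH χ, (y, 1) ∈ NN χ := by
    -- representatives of all classes
    have hrep : ∀ y : A, ∃ l : K, y ∈ HH χ → χ l = y := by
      intro y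
      by_cases hy : y ∈ HH χ
      · obtain ⟨l, hl⟩ := (mem_HH_field χ y).mp hy
        exact ⟨l, fun _ => hl⟩
      · exact ⟨0, fun h => absurd h hy⟩
    choose l hl using hrep
    have := Fintype.ofFinite A
    obtain ⟨u, hu0, hu⟩ := exists_small χ (Finset.univ.image l)
    intro y hy
    obtain ⟨v, hv⟩ := exists_coe χ hu0
    have hvH : v ∈ HH χ := (mem_HH_field χ v).mpr ⟨u, hv⟩
    have hεH : ε ∈ HH χ := (mem_HH_field χ ε).mpr ⟨-1, hε⟩
    have hz : y * (ε * v)⁻¹ ∈ HH χ :=
      (HH χ).mul_mem hy ((HH χ).inv_mem ((HH χ).mul_mem hεH hvH))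
    set z := y * (ε * v)⁻¹ with hzdef
    refine (mem_NN_field χ y 1).mpr ⟨-(l z * u), 1 + l z * u, by ring, ?_, ?_⟩
    · rw [char_neg χ hε, map_mul, hl z hz, hv, hzdef]
      have : ε * (y * (ε * v)⁻¹ * v) = y := by
        rw [mul_inv]
        calc ε * (y * (ε⁻¹ * v⁻¹) * v) = y * (ε * ε⁻¹) * (v⁻¹ * v) := by
              simp only [mul_assoc, mul_comm, mul_left_comm]
          _ = y := by simp
      exact_mod_cast this
    · rw [hu _ (Finset.mem_image_of_mem _ (Finset.mem_univ _))]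
      simp
  rintro ⟨a, b⟩ ⟨y, hy, h | h | h⟩
  · rw [h]; exact key y hy
  · rw [h]; exact NN_symm χ (key y hy)
  · rw [h]
    have := NN_inv χ ε hε (key y⁻¹ ((HH χ).inv_mem hy))
    simpa using this

/-- from a domain to its fraction field. -/
theorem frac_char {P : Type} [CommRing P] [IsDomain P] {A : Type} [CommGroup A]
    (ψ : P →*₀ WithZero A) (hψ : NV ψ) : ∃ χ : FractionRing P →*₀ WithZero A,
      (∀ a : P, χ (algebraMap P (FractionRing P) a) = ψ a) ∧ NN χ = NN ψ ∧ HH χ = HH ψ := by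
  classical
  set F := FractionRing P
  have hinj : Function.Injective (algebraMap P F) := IsFractionRing.injective P F
  have hne : ∀ a : P, a ≠ 0 → algebraMap P F a ≠ 0 := fun a ha => by
    rw [Ne, ← (algebraMap P F).map_zero]
    exact fun h => ha (hinj h)
  -- choose numerators and denominators
  have hnd : ∀ x : F, ∃ a b : P, b ≠ 0 ∧ x * algebraMap P F b = algebraMap P F a := by
    intro x
    obtain ⟨a, b, hb, h⟩ := IsFractionRing.div_surjective (A := P) x
    have hb0 : b ≠ 0 := nonZeroDivisors.ne_zero hb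
    refine ⟨a, b, hb0, ?_⟩
    rw [← h, div_mul_cancel₀ _ (hne b hb0)]
  choose nu de hde hnu using hnd
  have hwd : ∀ (x : F) (a b : P), b ≠ 0 → x * algebraMap P F b = algebraMap P F a →
      ψ (nu x) * (ψ (de x))⁻¹ = ψ a * (ψ b)⁻¹ := by
    intro x a b hb h
    have h1 : nu x * b = a * de x := by
      apply hinj
      rw [map_mul, map_mul, ← hnu x, ← h]
      ring
    have h2 : ψ (nu x) * ψ b = ψ a * ψ (de x) := by rw [← map_mul, h1, map_mul]
    have hb' := hψ b hb
    have hd' := hψ _ (hde x)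
    rw [← div_eq_mul_inv, ← div_eq_mul_inv, div_eq_div_iff hd' hb', h2]
  let χ : F →*₀ WithZero A :=
    { toFun := fun x => ψ (nu x) * (ψ (de x))⁻¹
      map_zero' := by
        rw [hwd 0 0 1 one_ne_zero (by simp)]; simp
      map_one' := by
        rw [hwd 1 1 1 one_ne_zero (by simp)]; simp
      map_mul' := by
        intro x y
        rw [hwd (x * y) (nu x * nu y) (de x * de y) (mul_ne_zero (hde x) (hde y))
          (by rw [map_mul, map_mul, ← hnu x, ← hnu y]; ring)]
        rw [map_mul, map_mul, mul_inv]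
        simp only [mul_assoc, mul_left_comm] }
  have hχ : ∀ a : P, χ (algebraMap P F a) = ψ a := by
    intro a
    change ψ (nu (algebraMap P F a)) * (ψ (de (algebraMap P F a)))⁻¹ = ψ a
    rw [hwd (algebraMap P F a) a 1 one_ne_zero (by simp)]
    simp
  have hχ' : ∀ x : F, χ x * ψ (de x) = ψ (nu x) := by
    intro x
    rw [← hχ, ← map_mul, hnu, hχ]
  refine ⟨χ, hχ, ?_, ?_⟩
  · ext ⟨x, y⟩
    constructor
    · intro h
      obtain ⟨a, b, h0, h1, h2⟩ := (mem_NN_field χ x y).mp h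
      refine ⟨nu a * de b, nu b * de a, de a * de b, mul_ne_zero (hde a) (hde b), ?_, ?_, ?_⟩
      · apply hinj
        rw [map_add, map_mul, map_mul, map_mul, ← hnu a, ← hnu b]
        linear_combination (algebraMap P F (de a) * algebraMap P F (de b)) * h0
      · rw [map_mul, ← hχ' a, h1, map_mul, mul_assoc]
      · rw [map_mul, ← hχ' b, h2, map_mul, mul_assoc]
        simp only [mul_comm]
    · rintro ⟨a, b, c, hc, h, h1, h2⟩
      have hc' := hψ c hc
      refine (mem_NN_field χ x y).mpr ⟨algebraMap P F a / algebraMap P F c,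
        algebraMap P F b / algebraMap P F c, ?_, ?_, ?_⟩
      · rw [← add_div, ← map_add, h, div_self (hne c hc)]
      · rw [map_div₀, hχ, hχ, h1, mul_div_assoc, div_self hc', mul_one]
      · rw [map_div₀, hχ, hχ, h2, mul_div_assoc, div_self hc', mul_one]
  · apply le_antisymm
    · unfold HH
      rw [Subgroup.closure_le]
      rintro x ⟨a, ha⟩
      have ha0 : a ≠ 0 := ne_zero_of_coe χ ha
      have hn0 : nu a ≠ 0 := by
        intro h
        have := hnu a
        rw [h, map_zero] at this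
        exact (mul_ne_zero ha0 (hne _ (hde a))) this
      obtain ⟨s, hs⟩ := WithZero.ne_zero_iff_exists.mp (hψ _ hn0)
      obtain ⟨t, ht⟩ := WithZero.ne_zero_iff_exists.mp (hψ _ (hde a))
      have h3 : (x : WithZero A) * t = s := by rw [← ha, ht, hχ', hs]
      have h4 : x = s * t⁻¹ := by
        rw [eq_mul_inv_iff_mul_eq]
        exact_mod_cast h3
      rw [h4]
      exact Subgroup.mul_mem _ (Subgroup.subset_closure ⟨_, hs.symm⟩)
        (Subgroup.inv_mem _ (Subgroup.subset_closure ⟨_, ht.symm⟩))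
    · unfold HH
      rw [Subgroup.closure_le]
      rintro x ⟨a, ha⟩
      exact Subgroup.subset_closure ⟨algebraMap P F a, by rw [hχ, ha]⟩

end pair

end HypQ
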