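import Mathlib
import Pool.Agent.Lib.MP_9f0b3e_al.Defs
import Pool.Agent.Lib.MP_9f0b3e_al.Pair

/-! # MP_9f0b3e_al (S02499), module TAMEF (helper14): the formula for a tame place. -/

set_option autoImplicit false

namespace HypQ

section Tame

variable {K A : Type*} [Field K] [CommGroup A]

/-- residue character of a tame place. -/
theorem exists_tameChar (X : K →*₀ WithZero A) (O : ValuationSubring K)
    (h : ∀ x : O, x ∈ IsLocalRing.maximalIdeal O → X (1 + (x : K)) = 1) :
    ∃ χ : IsLocalRing.ResidueField O →*₀ WithZero A,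
      ∀ x : O, IsUnit x → χ (IsLocalRing.residue O x) = X (x : K) := by
  classical
  have hsurj : Function.Surjective (IsLocalRing.residue O) := IsLocalRing.residue_surjective
  have hker : ∀ x : O, IsLocalRing.residue O x = 0 ↔ ¬ IsUnit x := fun x => by
    rw [IsLocalRing.residue_eq_zero_iff, IsLocalRing.mem_maximalIdeal]; rfl
  have hconst : ∀ x y : O, IsLocalRing.residue O x = IsLocalRing.residue O y → IsUnit x →
      X (x : K) = X (y : K) := by
    intro x y hxy hx
    obtain ⟨u, rfl⟩ := hx
    have h1 : y - u ∈ IsLocalRing.maximalIdeal O := by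
      rw [← IsLocalRing.residue_eq_zero_iff, map_sub, hxy, sub_self]
    have h2 : ((u⁻¹ : Oˣ) : O) * (y - u) ∈ IsLocalRing.maximalIdeal O := Ideal.mul_mem_left _ _ h1
    have h3 := h _ h2
    have h4 : (y : K) = (u : O) * (1 + ((((u⁻¹ : Oˣ) : O) * (y - u) : O) : K)) := by
      have h5 : ((u : O) : K) * (((u⁻¹ : Oˣ) : O) : K) = 1 := by
        have : ((u : O) * ((u⁻¹ : Oˣ) : O)) = 1 := u.mul_inv
        exact_mod_cast congrArg (Subtype.val) this
      push_cast
      linear_combination (((u : O) : K) - (y : K)) * h5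
    rw [h4, map_mul, h3, mul_one]
  choose l hl using hsurj
  refine ⟨{ toFun := fun y => if y = 0 then 0 else X (l y : K)
            map_zero' := by simp
            map_one' := ?_
            map_mul' := ?_ }, ?_⟩
  · rw [if_neg one_ne_zero]
    have : X ((1 : O) : K) = X (l 1 : K) := hconst 1 (l 1) (by rw [hl, map_one]) isUnit_one
    rw [← this]; simp
  · intro x y
    by_cases hx : x = 0
    · simp [hx]
    by_cases hy : y = 0
    · simp [hy]
    rw [if_neg (mul_ne_zero hx hy), if_neg hx, if_neg hy, ← map_mul]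
    have hu : ∀ z, z ≠ 0 → IsUnit (l z) := by
      intro z hz
      by_contra hcon
      exact hz (by rw [← hl z]; exact (hker _).2 hcon)
    have := hconst (l x * l y) (l (x * y)) (by rw [map_mul, hl, hl, hl]) ((hu x hx).mul (hu y hy))
    rw [← this]; simp
  · intro x hx
    change (if IsLocalRing.residue O x = 0 then (0 : WithZero A) else _) = _
    rw [if_neg (fun h0 => (hker x).1 h0 hx)]
    exact (hconst x _ (hl _).symm hx).symm

/-- every class has a representative in the maximal ideal. -/
theorem exists_mem_max [Finite A] (X : K →*₀ WithZero A) (O : ValuationSubring K) (hO : O ≠ ⊤)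
    {y : A} (hy : y ∈ HH X) : ∃ t : O, t ∈ IsLocalRing.maximalIdeal O ∧ X (t : K) = y := by
  obtain ⟨a, ha⟩ := (mem_HH_field X y).1 hy
  have ha0 : a ≠ 0 := ne_zero_of_coe X ha
  -- a nonzero element of the maximal ideal
  obtain ⟨m, hm, hm0⟩ : ∃ m : O, m ∈ IsLocalRing.maximalIdeal O ∧ m ≠ 0 := by
    by_contra hcon
    push Not at hcon
    apply hO
    rw [eq_top_iff]
    intro x _
    rcases O.mem_or_inv_mem x with h1 | h1
    · exact h1
    · by_cases hx : x = 0
      · rw [hx]; exact O.zero_mem
      · have hu : IsUnit (⟨x⁻¹, h1⟩ : O) := by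
          by_contra hnu
          have := hcon _ ((IsLocalRing.mem_maximalIdeal _).2 hnu)
          exact (inv_ne_zero hx) (congrArg Subtype.val this)
        obtain ⟨u, hu⟩ := hu
        have h2 : ((u : O) : K) = x⁻¹ := by rw [hu]
        have h3 : (((u⁻¹ : Oˣ) : O) : K) = x := by
          have h4 : ((u : O) : K) * (((u⁻¹ : Oˣ) : O) : K) = 1 := by
            have : ((u : O) * ((u⁻¹ : Oˣ) : O)) = 1 := u.mul_inv
            exact_mod_cast congrArg (Subtype.val) this
          rw [h2] at h4
          field_simp at h4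
          exact h4
        rw [← h3]; exact ((u⁻¹ : Oˣ) : O).2
  have hm0' : (m : K) ≠ 0 := fun h0 => hm0 (Subtype.ext h0)
  have hcard : 0 < Nat.card A := Nat.card_pos
  have hpow : ∀ b : K, b ≠ 0 → X (b ^ Nat.card A) = 1 := by
    intro b hb
    obtain ⟨z, hz⟩ := exists_coe X hb
    rw [map_pow, hz, ← WithZero.coe_pow, pow_card_eq_one', WithZero.coe_one]
  by_cases hao : a ∈ O
  · refine ⟨⟨a, hao⟩ * m ^ Nat.card A, ?_, ?_⟩
    · exact Ideal.mul_mem_left _ _ (Ideal.pow_mem_of_mem _ hm _ hcard)
    · have : ((⟨a, hao⟩ * m ^ Nat.card A : O) : K) = a * (m : K) ^ Nat.card A := by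
        push_cast; rfl
      rw [this, map_mul, hpow _ hm0', mul_one, ha]
  · have hai : a⁻¹ ∈ O := (O.mem_or_inv_mem a).resolve_left hao
    set a' : O := ⟨a⁻¹, hai⟩ with ha'
    obtain ⟨n, hn⟩ := Nat.exists_eq_succ_of_ne_zero hcard.ne'
    refine ⟨m * (a' * m) ^ n, ?_, ?_⟩
    · exact Ideal.mul_mem_right _ _ hm
    · have : ((m * (a' * m) ^ n : O) : K) = a * (a⁻¹ * (m : K)) ^ Nat.card A := by
        rw [hn, pow_succ]
        have h5 : ((m * (a' * m) ^ n : O) : K) = m * (a⁻¹ * m) ^ n := by push_cast; rfl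
        rw [h5]
        field_simp
      rw [this, map_mul, hpow _ (mul_ne_zero (inv_ne_zero ha0) hm0'), mul_one, ha]

theorem tame_formula {K A : Type} [Field K] [CommGroup A] (X : K →*₀ WithZero A)
    (O : ValuationSubring K) (hO : O ≠ ⊤)
    (h : ∀ x : O, x ∈ IsLocalRing.maximalIdeal O → X (1 + (x : K)) = 1) (ε : A)
    (hε : X (-1) = ε) [Finite A] :
    ∃ χ : IsLocalRing.ResidueField O →*₀ WithZero A,
      (∀ x : O, IsUnit x → χ (IsLocalRing.residue O x) = X (x : K)) ∧
      NN X = NN χ ∪ tameSet ε (HH X) := by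
  obtain ⟨χ, hχ⟩ := exists_tameChar X O h
  have hker : ∀ x : O, IsLocalRing.residue O x = 0 ↔ ¬ IsUnit x := fun x => by
    rw [IsLocalRing.residue_eq_zero_iff, IsLocalRing.mem_maximalIdeal]; rfl
  have hm1 : ∀ x : O, x ∈ IsLocalRing.maximalIdeal O → X (1 - (x : K)) = 1 := by
    intro x hx
    have := h (-x) ((IsLocalRing.maximalIdeal O).neg_mem hx)
    rw [← this]
    congr 1
    push_cast
    ring
  refine ⟨χ, hχ, ?_⟩
  ext ⟨x, y⟩
  constructor
  · intro hxy
    obtain ⟨hxH, hyH⟩ := NN_subset X hxy
    obtain ⟨a, b, hab, ha, hb⟩ := (mem_NN_field X x y).1 hxy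
    have ha0 := ne_zero_of_coe X ha
    by_cases hao : a ∈ O
    · by_cases hau : IsUnit (⟨a, hao⟩ : O)
      · have hbo : b ∈ O := by
          have : b = 1 - a := by linear_combination hab
          rw [this]; exact O.sub_mem O.one_mem hao
        by_cases hbu : IsUnit (⟨b, hbo⟩ : O)
        · left
          rw [mem_NN_field]
          refine ⟨IsLocalRing.residue O ⟨a, hao⟩, IsLocalRing.residue O ⟨b, hbo⟩, ?_, ?_, ?_⟩
          · rw [← map_add, ← map_one (IsLocalRing.residue O)]
            congr 1
            exact Subtype.ext hab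
          · rw [hχ _ hau]; exact ha
          · rw [hχ _ hbu]; exact hb
        · right
          have h1 := hm1 ⟨b, hbo⟩ ((IsLocalRing.mem_maximalIdeal _).2 hbu)
          have h2 : a = 1 - b := by linear_combination hab
          rw [h2] at ha
          have h3 : x = 1 := by
            have : (x : WithZero A) = (1 : A) := by rw [← ha]; exact h1
            exact WithZero.coe_inj.1 this
          exact ⟨y, hyH, Or.inr (Or.inl (by rw [h3]))⟩
      · right
        have h1 := hm1 ⟨a, hao⟩ ((IsLocalRing.mem_maximalIdeal _).2 hau)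
        have h2 : b = 1 - a := by linear_combination hab
        rw [h2] at hb
        have h3 : y = 1 := by
          have : (y : WithZero A) = (1 : A) := by rw [← hb]; exact h1
          exact WithZero.coe_inj.1 this
        exact ⟨x, hxH, Or.inl (by rw [h3])⟩
    · right
      have hai : a⁻¹ ∈ O := (O.mem_or_inv_mem a).resolve_left hao
      have hnu : ¬ IsUnit (⟨a⁻¹, hai⟩ : O) := by
        rintro ⟨u, hu⟩
        apply hao
        have h2 : ((u : O) : K) = a⁻¹ := by rw [hu]
        have h4 : ((u : O) : K) * (((u⁻¹ : Oˣ) : O) : K) = 1 := by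
          have : ((u : O) * ((u⁻¹ : Oˣ) : O)) = 1 := u.mul_inv
          exact_mod_cast congrArg (Subtype.val) this
        rw [h2] at h4
        have h5 : (((u⁻¹ : Oˣ) : O) : K) = a := by
          field_simp at h4
          exact h4
        rw [← h5]; exact ((u⁻¹ : Oˣ) : O).2
      have h1 := hm1 ⟨a⁻¹, hai⟩ ((IsLocalRing.mem_maximalIdeal _).2 hnu)
      have h2 : b = (-1) * (a * (1 - a⁻¹)) := by
        have : a * a⁻¹ = 1 := mul_inv_cancel₀ ha0
        linear_combination hab + (-1 : K) * this
      rw [h2, map_mul, map_mul, hε, ha] at hb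
      have h3 : y = ε * x := by
        have h4 : X (1 - a⁻¹) = 1 := h1
        rw [h4, mul_one] at hb
        have : (y : WithZero A) = ((ε * x : A) : WithZero A) := by rw [← hb]; norm_cast
        exact WithZero.coe_inj.1 this
      exact ⟨x, hxH, Or.inr (Or.inr (by rw [h3]))⟩
  · rintro (hxy | ⟨z, hz, hp⟩)
    · obtain ⟨a, b, hab, ha, hb⟩ := (mem_NN_field χ x y).1 hxy
      have ha0 := ne_zero_of_coe χ ha
      have hb0 := ne_zero_of_coe χ hb
      obtain ⟨a', rfl⟩ := IsLocalRing.residue_surjective a
      have hau : IsUnit a' := by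
        by_contra hcon
        exact ha0 ((hker a').2 hcon)
      have hb' : b = IsLocalRing.residue O (1 - a') := by
        rw [map_sub, map_one]; linear_combination hab
      have hbu : IsUnit (1 - a') := by
        by_contra hcon
        exact hb0 (by rw [hb']; exact (hker _).2 hcon)
      rw [mem_NN_field]
      refine ⟨(a' : K), ((1 - a' : O) : K), ?_, ?_, ?_⟩
      · push_cast; ring
      · rw [← hχ _ hau]; exact ha
      · rw [← hχ _ hbu, ← hb']; exact hb
    · rcases hp with hp | hp | hp
      · simp only [Prod.mk.injEq] at hp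
        obtain ⟨rfl, rfl⟩ := hp
        obtain ⟨t, ht, htx⟩ := exists_mem_max X O hO hz
        rw [mem_NN_field]
        exact ⟨t, 1 - t, by ring, htx, by rw [hm1 t ht, WithZero.coe_one]⟩
      · simp only [Prod.mk.injEq] at hp
        obtain ⟨rfl, rfl⟩ := hp
        obtain ⟨t, ht, htx⟩ := exists_mem_max X O hO hz
        rw [mem_NN_field]
        exact ⟨1 - t, t, by ring, by rw [hm1 t ht, WithZero.coe_one], htx⟩
      · simp only [Prod.mk.injEq] at hp
        obtain ⟨rfl, rfl⟩ := hp
        obtain ⟨t, ht, htx⟩ := exists_mem_max X O hO ((HH X).inv_mem hz)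
        have ht0 : (t : K) ≠ 0 := ne_zero_of_coe X htx
        have h1 : X ((t : K)⁻¹) = (x : WithZero A) := by
          rw [map_inv₀, htx, ← WithZero.coe_inv, inv_inv]
        rw [mem_NN_field]
        refine ⟨(t : K)⁻¹, (-1) * ((t : K)⁻¹ * (1 - t)), ?_, h1, ?_⟩
        · field_simp
          ring
        · rw [map_mul, map_mul, hε, h1, hm1 t ht, mul_one]
          norm_cast

end Tame

end HypQ
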