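import Pool.Agent.Lib.MP_9f0b3e_al.DerLoc
import Pool.Agent.Lib.MP_9f0b3e_al.TameF

/-!
# The local step of completeness: discrete places and the final theorem
-/

set_option autoImplicit false

namespace HypQ

open IsLocalRing

section disc

variable {K A : Type} [Field K] [CommGroup A]

/-- the character on the units of a valuation ring -/
noncomputable def unitChar (O : ValuationSubring K) (X : K →*₀ WithZero A) : Oˣ →* A :=
  (WithZero.unitsWithZeroEquiv : (WithZero A)ˣ ≃* A).toMonoidHom.comp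
    (Units.map ((X : K →* WithZero A).comp O.subtype.toMonoidHom))

theorem unitChar_coe (O : ValuationSubring K) (X : K →*₀ WithZero A) (u : Oˣ) :
    X ((u : O) : K) = (unitChar O X u : WithZero A) := by
  simp [unitChar]

variable {O : ValuationSubring K} [IsDiscreteValuationRing O] {π : O} (hπ : Irreducible π)
  (X : K →*₀ WithZero A)

include hπ in
theorem exists_pow_dvd {c : K} (hc : c ≠ 0) :
    ∃ M : ℕ, 1 ≤ M ∧ ∀ x : O, π ^ M ∣ x → ∃ y : O, (x : K) = c * (y : K) := by
  obtain ⟨a, b, hb, hab⟩ := IsFractionRing.div_surjective (A := O) c⁻¹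
  have hb0 : b ≠ 0 := nonZeroDivisors.ne_zero hb
  obtain ⟨k, u, hu⟩ := IsDiscreteValuationRing.eq_unit_mul_pow_irreducible hb0 hπ
  refine ⟨k + 1, by omega, ?_⟩
  rintro _ ⟨z, rfl⟩
  refine ⟨a * ((u⁻¹ : Oˣ) : O) * π * z, ?_⟩
  have hu1 : ((u : O) : K) * (((u⁻¹ : Oˣ) : O) : K) = 1 := by
    rw [← MulMemClass.coe_mul, Units.mul_inv]; rfl
  have hub : (b : K) = ((u : O) : K) * (π : K) ^ k := by
    rw [hu]; push_cast; rfl
  have hbK : (b : K) ≠ 0 := by
    intro h; exact hb0 (Subtype.ext h)
  have hab' : (a : K) * c = (b : K) := by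
    have h1 : (a : K) / (b : K) = c⁻¹ := hab
    field_simp at h1
    exact h1
  push_cast
  have h2 : (π : K) ^ (k + 1) = (b : K) * (((u⁻¹ : Oˣ) : O) : K) * (π : K) := by
    rw [hub, pow_succ]
    linear_combination (-(π : K) ^ k * (π : K)) * hu1
  rw [h2, ← hab']
  ring

include hπ in
theorem BB_eq_bot {c : K} (hc0 : c ≠ 0) (hc : ∀ x ∈ O, X (1 + c * x) = 1) :
    ∃ M : ℕ, 1 ≤ M ∧ BB π (unitChar O X) M = ⊥ := by
  obtain ⟨M, hM1, hM⟩ := exists_pow_dvd hπ hc0
  refine ⟨M, hM1, ?_⟩
  rw [eq_bot_iff]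
  rintro b ⟨u, hu, rfl⟩
  obtain ⟨y, hy⟩ := hM _ hu
  have h1 := hc y y.2
  rw [← hy] at h1
  have h2 : (1 : K) + ((u : O) - 1 : O) = ((u : O) : K) := by
    push_cast; ring
  rw [h2, unitChar_coe] at h1
  rw [Subgroup.mem_bot]
  exact (by exact_mod_cast h1)

end disc

section charzero

variable {O A : Type*} [CommRing O] [IsDomain O] [IsDiscreteValuationRing O] [CommGroup A]
  [Finite A]

omit [Finite A] in
/-- if `card A` is a unit, the filtration is constant. -/
theorem BB_le_succ {π : O} (hπ : Irreducible π) (X : Oˣ →* A)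
    (hcard : IsUnit ((Nat.card A : ℕ) : O)) (n : ℕ) (hn : 1 ≤ n) :
    BB π X n ≤ BB π X (n + 1) := by
  rintro b ⟨u, ⟨w, hw⟩, rfl⟩
  obtain ⟨v, hv⟩ := hcard
  set m := Nat.card A with hm
  have hvi : (v : O) * ((v⁻¹ : Oˣ) : O) = 1 := v.mul_inv
  obtain ⟨u', hu'⟩ : IsUnit (1 + π ^ n * (((v⁻¹ : Oˣ) : O) * w)) :=
    isUnit_one_add hπ (Dvd.dvd.mul_right (dvd_pow_self π (by omega)) _)
  obtain ⟨k, hk⟩ := Polynomial.powAddExpansion (1 : O) (π ^ n * (((v⁻¹ : Oˣ) : O) * w)) m
  rw [← hu', one_pow, one_pow, mul_one, ← hv] at hk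
  have hXu' : X (u' ^ m) = 1 := by rw [map_pow]; exact pow_card_eq_one'
  refine ⟨u * (u' ^ m)⁻¹, ?_, ?_⟩
  · have hinv : ((u' ^ m : Oˣ) : O) * (((u' ^ m)⁻¹ : Oˣ) : O) = 1 := (u' ^ m).mul_inv
    change π ^ (n + 1) ∣ ((u * (u' ^ m)⁻¹ : Oˣ) : O) - 1
    have h1 : ((u * (u' ^ m)⁻¹ : Oˣ) : O) - 1
        = ((u : O) - (u' : O) ^ m) * (((u' ^ m)⁻¹ : Oˣ) : O) := by
      push_cast at hinv ⊢
      linear_combination hinv
    rw [h1]
    apply Dvd.dvd.mul_right
    have h2 : (u : O) - (u' : O) ^ m
        = π ^ (n + 1) * (-k * π ^ (n - 1) * (((v⁻¹ : Oˣ) : O) * w) ^ 2) := by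
      have h3 : (π : O) ^ n * π ^ n = π ^ (n + 1) * π ^ (n - 1) := by
        rw [← pow_add, ← pow_add]; congr 1; omega
      have h4 : (u : O) = 1 + π ^ n * w := by linear_combination hw
      rw [hk, h4]
      linear_combination (-(π : O) ^ n * w) * hvi - k * (((v⁻¹ : Oˣ) : O) * w) ^ 2 * h3
    exact ⟨_, h2⟩
  · rw [map_mul, map_inv, hXu', inv_one, mul_one]

theorem BB_one_eq_bot [CharZero (ResidueField O)] {π : O} (hπ : Irreducible π) (X : Oˣ →* A)
    {M : ℕ} (hM1 : 1 ≤ M) (hM : BB π X M = ⊥) : BB π X 1 = ⊥ := by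
  have hcard : IsUnit ((Nat.card A : ℕ) : O) := by
    rw [isUnit_iff_residue, map_natCast]
    exact Nat.cast_ne_zero.mpr Nat.card_pos.ne'
  have h : ∀ k, BB π X 1 ≤ BB π X (1 + k) := by
    intro k
    induction k with
    | zero => exact le_rfl
    | succ k ih => exact ih.trans (BB_le_succ hπ X hcard (1 + k) (by omega))
  have := h (M - 1)
  rw [show 1 + (M - 1) = M by omega, hM] at this
  exact eq_bot_iff.mpr this

end charzero

/-! ### the final theorem -/

theorem der_disc {c : ℕ} (hc : c = 0 ∨ c.Prime) {K A : Type} [Field K] [Infinite K] [CharP K c]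
    [CommGroup A] [Finite A] (X : K →*₀ WithZero A) (α : (ZMod c)ˣ →* A)
    (hα : IsPrimeRes c X α) (O : ValuationSubring K) (hO : O ≠ ⊤)
    [IsDiscreteValuationRing O] (hb : ∃ b : K, b ≠ 0 ∧ ∀ x ∈ O, X (1 + b * x) = 1)
    (IH : Infinite (ResidueField O) → ∀ (p : ℕ) [CharP (ResidueField O) p] (A' : Type)
      [CommGroup A'] [Finite A'] (χ : ResidueField O →*₀ WithZero A') (α' : (ZMod p)ˣ →* A'),
      IsPrimeRes p χ α' → Der p A' α' (HH χ) (NN χ)) :
    Der c A α (HH X) (NN X) := by
  classical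
  have hOc : CharP O c := charP_valuationSubring O
  let jO : ZMod c →+* O := ZMod.castHom (dvd_refl c) O
  obtain ⟨π, hπ⟩ := IsDiscreteValuationRing.exists_irreducible O
  obtain ⟨b, hb0, hb⟩ := hb
  obtain ⟨M, hM1, hM⟩ := BB_eq_bot hπ X hb0 hb
  have hπ0 : (π : K) ≠ 0 := by
    intro h
    exact hπ.ne_zero (Subtype.ext h)
  obtain ⟨g, hg⟩ := exists_coe X hπ0
  set Xu := unitChar O X with hXu
  let ψ : O →*₀ WithZero A :=
    { toFun := fun x => X (x : K)
      map_zero' := by simp
      map_one' := by simp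
      map_mul' := by intro x y; simp }
  have hψ : ∀ u : Oˣ, ψ u = Xu u := fun u => unitChar_coe O X u
  have hψ' : ∀ a : O, ψ a = X (algebraMap O K a) := fun a => rfl
  have hN : NN X = NR π Xu g := by
    rw [← NN_frac X ψ hψ', NN_dvr hπ ψ Xu g hψ hg]
  have hH : HH X = Xu.range ⊔ Subgroup.zpowers g := by
    rw [← HH_frac X ψ hψ', HH_dvr hπ ψ Xu g hψ hg]
  have hXα : ∀ u : (ZMod c)ˣ, Xu (Units.map jO.toMonoidHom u) = α u := by
    intro u
    have e1 := hα (O.subtype.comp jO) u
    have e2 := hψ (Units.map jO.toMonoidHom u)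
    have e3 : ψ ((Units.map jO.toMonoidHom u : Oˣ) : O) = (α u : WithZero A) := by
      rw [← e1]; rfl
    rw [e3] at e2
    exact (by exact_mod_cast e2.symm)
  have hXm : Xu (-1) = α (-1) := by
    rw [← hXα]
    congr 1
    ext
    simp
  by_cases hfin : Finite (ResidueField O)
  · -- finite residue field
    obtain ⟨R, _, _, π', hR, q, X', -, -, hX', hNR, hr⟩ :=
      fin_formula hπ Xu g M (by
        intro u hu
        have : Xu u ∈ BB π Xu M := ⟨u, hu, rfl⟩
        rw [hM, Subgroup.mem_bot] at this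
        exact this)
    have h1 := Der.fin c hc A R π' hR (q.comp jO) X' g
    have h2 : X'.comp (Units.map (q.comp jO).toMonoidHom) = α := by
      ext u
      rw [← hXα u, ← hX']
      rfl
    rwa [h2, hr, ← hNR, ← hH, ← hN] at h1
  · have hinf : Infinite (ResidueField O) := not_finite_iff_infinite.mp hfin
    obtain ⟨p, hp⟩ := CharP.exists (ResidueField O)
    by_cases hp0 : p = 0
    · -- residue characteristic zero: tame
      subst hp0
      have : CharZero (ResidueField O) := CharP.charP_to_charZero _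
      have hB1 := BB_one_eq_bot hπ Xu hM1 hM
      have htame : ∀ x : O, x ∈ maximalIdeal O → X (1 + (x : K)) = 1 := by
        intro x hx
        have hdvd : π ∣ x := by
          rwa [hπ.maximalIdeal_eq, Ideal.mem_span_singleton] at hx
        obtain ⟨u, hu⟩ := isUnit_one_add hπ hdvd
        have h1 : Xu u ∈ BB π Xu 1 := by
          refine ⟨u, ?_, rfl⟩
          change π ^ 1 ∣ (u : O) - 1
          rw [hu, pow_one, add_sub_cancel_left]
          exact hdvd
        rw [hB1, Subgroup.mem_bot] at h1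
        have h2 := hψ u
        rw [h1, WithZero.coe_one] at h2
        rw [← h2]
        change X (1 + (x : K)) = X ((u : O) : K)
        rw [hu]
        rfl
      obtain ⟨ε, hε⟩ := exists_eps X
      obtain ⟨χ, hχ, hNX⟩ := tame_formula X O hO htame ε hε
      exact der_tame hc X α hα O χ hχ ε hε hNX IH
    · -- residue characteristic `p`: wild
      have hpp : p.Prime := (CharP.char_is_prime_or_zero (ResidueField O) p).resolve_right hp0
      let A' := A ⧸ BB π Xu 1
      let φ : A →* A' := QuotientGroup.mk' (BB π Xu 1)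
      have hφ : Function.Surjective φ := QuotientGroup.mk'_surjective _
      have hker : φ.ker = BB π Xu 1 := QuotientGroup.ker_mk' _
      obtain ⟨χ, hχ⟩ := exists_resChar hπ Xu φ hker.ge
      obtain ⟨α', hα'⟩ := exists_primeRes p χ
      have h := IH hinf p A' χ α' hα'
      have hrange : (HH χ).comap φ = Xu.range := by
        ext a
        rw [Subgroup.mem_comap]
        exact range_resChar Xu φ hker χ hχ a
      have hwf := wild_formula hπ hpp Xu g hM1 hM φ hφ hker χ hχ
      -- the ramification index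
      have hres : residue O (p : O) = 0 := by
        rw [map_natCast, CharP.cast_eq_zero]
      have hcp : (∃ e, 1 ≤ e ∧ ((∃ u : Oˣ, (p : O) = π ^ e * u) ∨ ((p : O) = 0 ∧ M ≤ e)) ∧
          ((c = 0 ∧ φ (α (-1)) = α' (-1)) ∨
          (c = p ∧ M ≤ e ∧ ∀ (u : (ZMod c)ˣ) (v : (ZMod p)ˣ),
            ((u : ZMod c).val = (v : ZMod p).val) → φ (α u) = α' v))) := by
        rcases residue_char hc (O := O) p with rfl | ⟨rfl, -⟩
        · -- equal characteristic
          have hf : Fact p.Prime := ⟨hpp⟩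
          refine ⟨M, hM1, Or.inr ⟨CharP.cast_eq_zero O p, le_rfl⟩,
            Or.inr ⟨rfl, le_rfl, fun u v huv => ?_⟩⟩
          have huv' : u = v := by
            ext
            exact ZMod.val_injective p huv
          subst huv'
          have e1 := hα' ((residue O).comp jO) u
          have e2 := hχ (Units.map jO.toMonoidHom u)
          rw [hXα] at e2
          have e3 : χ (residue O ((Units.map jO.toMonoidHom u : Oˣ) : O)) = (α' u : WithZero A') :=
            e1
          rw [e3] at e2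
          exact (by exact_mod_cast e2.symm)
        · -- mixed characteristic
          have hcz : CharZero O := CharP.charP_to_charZero O
          have hp0' : (p : O) ≠ 0 := Nat.cast_ne_zero.mpr hp0
          obtain ⟨e, u, hu⟩ := IsDiscreteValuationRing.eq_unit_mul_pow_irreducible hp0' hπ
          have he : 1 ≤ e := by
            by_contra he
            have he0 : e = 0 := by omega
            rw [he0, pow_zero, mul_one] at hu
            have : IsUnit (p : O) := hu ▸ u.isUnit
            rw [isUnit_iff_residue] at this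
            exact this hres
          refine ⟨e, he, Or.inl ⟨u, by rw [hu, mul_comm]⟩, Or.inl ⟨rfl, ?_⟩⟩
          have e1 := primeRes_neg_one (ZMod.castHom (dvd_refl p) (ResidueField O)) hα'
          have e2 := hχ (-1)
          rw [hXm] at e2
          have e3 : residue O (((-1 : Oˣ)) : O) = -1 := by
            rw [Units.val_neg, Units.val_one, map_neg, map_one]
          rw [e3, e1] at e2
          exact (by exact_mod_cast e2.symm)
      obtain ⟨e, he, hpe, hcc⟩ := hcp
      have hB := chainOK_of hπ hpp Xu hM1 hM φ hker e he hpe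
      rw [hXm] at hB
      have hw := Der.wild c p hpp A A' φ hφ α α' (HH χ) (NN χ) g (BB π Xu) e M hcc hB h
      rw [hXm] at hwf
      rwa [hrange, ← hwf, ← hH, ← hN] at hw

/-- **The local step.** A nontrivial reduced local character is derivable, if this holds for the
residue fields. -/
theorem der_of_local {c : ℕ} (hc : c = 0 ∨ c.Prime) {K A : Type} [Field K] [Infinite K]
    [Countable K] [CharP K c] [CommGroup A] [Finite A] (X : K →*₀ WithZero A)
    (hR : RedExt K X) (hL : Loc X) (hX : ∃ a, a ≠ 0 ∧ X a ≠ 1) (α : (ZMod c)ˣ →* A)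
    (hα : IsPrimeRes c X α)
    (IH : ∀ O : ValuationSubring K, O ≠ ⊤ → Infinite (ResidueField O) → ∀ (p : ℕ)
      [CharP (ResidueField O) p] (A' : Type) [CommGroup A'] [Finite A']
      (χ : ResidueField O →*₀ WithZero A') (α' : (ZMod p)ˣ →* A'),
      IsPrimeRes p χ α' → Der p A' α' (HH χ) (NN χ)) :
    Der c A α (HH X) (NN X) := by
  have htame : ∀ O : ValuationSubring K, O ≠ ⊤ → (∀ x : K, O.valuation x < 1 → X (1 + x) = 1) →
      Der c A α (HH X) (NN X) := by
    intro O hO h
    obtain ⟨ε, hε⟩ := exists_eps X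
    obtain ⟨χ, hχ, hN⟩ := tame_formula X O hO
      (fun x hx => h x ((O.valuation_lt_one_iff x).mp hx)) ε hε
    exact der_tame hc X α hα O χ hχ ε hε hN (IH O hO)
  have hfin : Finite (WithZero A) := inferInstanceAs (Finite (Option A))
  rcases local_trichotomy hR hL with ⟨h0, h1, h2⟩ | ⟨O, hO, h⟩ | ⟨O, hO, hrank, hb⟩
  · exact der_sign X hX α hα h1 h2
  · exact htame O hO h
  · rcases rankOne_cases X hR O hO hrank hb with h | hD
    · exact htame O hO h
    · exact der_disc hc X α hα O hO hb (IH O hO)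

end HypQ
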