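import Pool.Agent.Lib.MP_9f0b3e_al.Compl
import Pool.Agent.Lib.MP_9f0b3e_al.DerDisc

/-!
# Completeness: the datum of every finite quotient of an infinite field is derivable (MP_9f0b3e_al)
-/

set_option autoImplicit false

namespace HypQ

theorem completeness {c : ℕ} (_hc : c = 0 ∨ c.Prime) {K A : Type} [Field K] [Infinite K] [CharP K c]
    [CommGroup A] [Finite A] (χ : K →*₀ WithZero A) (α : (ZMod c)ˣ →* A)
    (hα : IsPrimeRes c χ α) : Der c A α (HH χ) (NN χ) :=
  completeness_of_local @der_of_local χ α hα
end HypQ
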