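import Pool.Agent.Lib.MP_9f0b3e_al.Ultra

/-!
# Decomposition of a reduced character into local characters
-/

set_option autoImplicit false

namespace HypQ

open Finset Filter

/-- `X` is local: V-topology property in finite form. -/
def Loc {K Γ : Type*} [Field K] [CommGroupWithZero Γ] (X : K →*₀ Γ) : Prop :=
  ∃ F : Finset K, ∀ x : K,
    (x ≠ 0 ∧ ∀ a : K, (∀ f ∈ F, X (1 + f * a) = 1) → X (1 + a / x) = 1) ∨
    (x + 1 ≠ 0 ∧ ∀ a : K, (∀ f ∈ F, X (1 + f * a) = 1) → X (1 + a / (x + 1)) = 1)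

/-- `X` is trivial -/
def Triv {K Γ : Type*} [Field K] [CommGroupWithZero Γ] (X : K →*₀ Γ) : Prop :=
  ∀ a : K, a ≠ 0 → X a = 1

section abstract

variable {K L Γ : Type*} [Field K] [Field L] [Algebra K L] [CommGroupWithZero Γ]
variable {ψ : L →*₀ Γ} (hR : RedExt K ψ) {C : Finset K}
  (hC : ∀ x : L, ∃ c ∈ C, x + algebraMap K L c ≠ 0 ∧ (x + algebraMap K L c)⁻¹ ∈ ringR hR)
  (hP : ∀ u : L, MemD K ψ u → u ≠ 0 → ∃ v : L, v ≠ 0 ∧ MemD K ψ v ∧ MemD K ψ (u / v))

/-- an element of `R` outside all maximal ideals is a unit of `R` -/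
theorem inv_mem_of_forall {y : ringR hR} (h : ∀ M : MaximalSpectrum (ringR hR), y ∉ M.asIdeal) :
    (y : L) ≠ 0 ∧ (y : L)⁻¹ ∈ ringR hR := by
  have hu : IsUnit y := by
    by_contra hn
    obtain ⟨M, hM, hy⟩ := exists_max_ideal_of_mem_nonunits hn
    exact h ⟨M, hM⟩ hy
  obtain ⟨w, hw⟩ := hu
  have h1 : (w.val : ringR hR) * (w⁻¹ : (ringR hR)ˣ).val = 1 := w.mul_inv
  rw [hw] at h1
  have h2 : (y : L) * ((w⁻¹ : (ringR hR)ˣ).val : L) = 1 := by
    have := congrArg Subtype.val h1
    simpa using this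
  have h0 : (y : L) ≠ 0 := left_ne_zero_of_mul_eq_one h2
  refine ⟨h0, ?_⟩
  have : (y : L)⁻¹ = ((w⁻¹ : (ringR hR)ˣ).val : L) := by
    rw [eq_comm]; exact eq_inv_of_mul_eq_one_right h2
  rw [this]
  exact ((w⁻¹ : (ringR hR)ˣ).val).2

theorem not_mem_of_inv_mem {y : ringR hR} (h0 : (y : L) ≠ 0) (h : (y : L)⁻¹ ∈ ringR hR)
    (M : MaximalSpectrum (ringR hR)) : y ∉ M.asIdeal := fun hy =>
  M.isMaximal.ne_top (Ideal.eq_top_of_isUnit_mem _ hy (isUnit_of_inv_mem h0 h))

theorem psi_congr {y y' : L} (h0 : y ≠ 0) (h : y⁻¹ ∈ ringR hR)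
    (hd : MemD K ψ (y' - y)) : ψ y' = ψ y := by
  have h1 : y' = y * (1 + y⁻¹ * (y' - y)) := by field_simp; ring
  rw [h1, map_mul, (h _ hd).one_add, mul_one]

/-- elements of `K` in `R` -/
def kR (a : K) : ringR hR := ⟨algebraMap K L a, algebraMap_mem_ringR hR a⟩

theorem kR_add (a b : K) : kR hR (a + b) = kR hR a + kR hR b := by ext; simp [kR]
theorem kR_mul (a b : K) : kR hR (a * b) = kR hR a * kR hR b := by ext; simp [kR]
theorem kR_sub (a b : K) : kR hR (a - b) = kR hR a - kR hR b := by ext; simp [kR]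
theorem kR_neg (a : K) : kR hR (-a) = - kR hR a := by ext; simp [kR]
theorem kR_one : kR hR (1 : K) = 1 := by ext; simp [kR]
theorem kR_zero : kR hR (0 : K) = 0 := by ext; simp [kR]

theorem kR_notMem {a : K} (ha : a ≠ 0) (M : MaximalSpectrum (ringR hR)) :
    kR hR a ∉ M.asIdeal := by
  apply not_mem_of_inv_mem hR
  · simpa [kR] using ha
  · change (algebraMap K L a)⁻¹ ∈ ringR hR
    rw [← map_inv₀]
    exact algebraMap_mem_ringR hR _

include hC in
/-- if `C'` has more elements than there are maximal ideals, some shift by `C'` is good -/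
theorem good_of_card (C' : Finset K) (hcard : Nat.card (MaximalSpectrum (ringR hR)) < C'.card)
    (y : L) : ∃ c ∈ C', y + algebraMap K L c ≠ 0 ∧ (y + algebraMap K L c)⁻¹ ∈ ringR hR := by
  classical
  have hfin := (card_maximal_lt hR hC).1
  have := Fintype.ofFinite (MaximalSpectrum (ringR hR))
  obtain ⟨c0, -, hg, hs⟩ := hC y
  set g := y + algebraMap K L c0 with hgdef
  let s : ringR hR := ⟨g⁻¹, hs⟩
  let r : ringR hR := 1 - kR hR c0 * s
  have hr : (r : L) = y * g⁻¹ := by
    have h1 : (r : L) = 1 - algebraMap K L c0 * g⁻¹ := rfl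
    have h2 : y = g - algebraMap K L c0 := by rw [hgdef]; ring
    rw [h1, h2]
    field_simp
  by_contra hbad
  push Not at hbad
  have hM : ∀ c : C', ∃ M : MaximalSpectrum (ringR hR), r + kR hR c * s ∈ M.asIdeal := by
    intro c
    by_contra h
    push Not at h
    obtain ⟨h0, h1⟩ := inv_mem_of_forall hR h
    have e : ((r + kR hR (c : K) * s : ringR hR) : L) = (y + algebraMap K L c) * g⁻¹ := by
      simp only [Subring.coe_add, Subring.coe_mul, hr, s, kR]
      ring
    rw [e] at h0 h1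
    have h2 : y + algebraMap K L c ≠ 0 := left_ne_zero_of_mul h0
    apply hbad c c.2 h2
    have h3 : (y + algebraMap K L (c : K))⁻¹ = g⁻¹ * ((y + algebraMap K L c) * g⁻¹)⁻¹ := by
      field_simp
    rw [h3]
    exact (ringR hR).mul_mem hs h1
  choose f hf using hM
  have hninj : ¬ Function.Injective f := by
    intro hinj
    have := Fintype.card_le_of_injective f hinj
    rw [Fintype.card_coe, ← Nat.card_eq_fintype_card] at this
    omega
  rw [Function.not_injective_iff] at hninj
  obtain ⟨c, c', hcc, hne⟩ := hninj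
  have h1 := hf c
  have h2 := hf c'
  rw [← hcc] at h2
  have h3 : (kR hR (c : K) - kR hR (c' : K)) * s ∈ (f c).asIdeal := by
    have := (f c).asIdeal.sub_mem h1 h2
    convert this using 1
    ring
  have hp := (f c).isMaximal.isPrime
  have h4 : s ∈ (f c).asIdeal := by
    rcases hp.mem_or_mem h3 with h | h
    · exfalso
      rw [← kR_sub] at h
      refine kR_notMem hR ?_ _ h
      intro h5
      exact hne (Subtype.ext (sub_eq_zero.mp h5))
    · exact h
  have h5 : r ∈ (f c).asIdeal := by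
    have := (f c).asIdeal.sub_mem h1 ((f c).asIdeal.mul_mem_left (kR hR (c : K)) h4)
    convert this using 1
    ring
  apply (f c).isMaximal.ne_top
  rw [Ideal.eq_top_iff_one]
  have h6 : (1 : ringR hR) = r + kR hR c0 * s := by simp [r]
  rw [h6]
  exact (f c).asIdeal.add_mem h5 ((f c).asIdeal.mul_mem_left _ h4)

include hC in
/-- orthogonal idempotents modulo the radical -/
theorem exists_idem : ∃ e : MaximalSpectrum (ringR hR) → ringR hR, ∀ i j,
    (i = j → e i - 1 ∈ j.asIdeal) ∧ (i ≠ j → e i ∈ j.asIdeal) := by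
  classical
  have hfin := (card_maximal_lt hR hC).1
  have hcop : Pairwise (Function.onFun IsCoprime
      (fun i : MaximalSpectrum (ringR hR) => i.asIdeal)) := by
    intro i j hij
    have hne : i.asIdeal ≠ j.asIdeal := fun h => hij (MaximalSpectrum.ext h)
    have := i.isMaximal
    have := j.isMaximal
    exact Ideal.isCoprime_of_isMaximal hne
  have := fun i : MaximalSpectrum (ringR hR) => Ideal.exists_forall_sub_mem_ideal hcop
    (fun j => if i = j then (1 : ringR hR) else 0)
  choose e he using this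
  refine ⟨e, fun i j => ⟨fun h => ?_, fun h => ?_⟩⟩
  · have := he i j
    rwa [if_pos h] at this
  · have := he i j
    rwa [if_neg h, sub_zero] at this

end abstract

end HypQ
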