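import Pool.Agent.Lib.MP_9f0b3e_al.Ext

/-!
# MP_9f0b3e_al: a rank one valuation with dense value group and a wild character is never reduced
(helper62; section 4.2 of /team-store/HF_proof.txt)
-/

set_option autoImplicit false

namespace HypQ

open Finset

namespace Dense

variable {K Γ Γ₀ : Type*} [Field K] [CommGroupWithZero Γ] [LinearOrderedCommGroupWithZero Γ₀]
variable (X : K →*₀ Γ) (v : Valuation K Γ₀)

/-- membership in the largest ideal `I` with `X (1 + I) = 1`. -/
def In (x : K) : Prop := ∀ y, v y ≤ v x → X (1 + y) = 1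

variable {X v}

theorem In.val {x : K} (h : In X v x) : X (1 + x) = 1 := h x le_rfl

theorem In.mono {x y : K} (h : In X v x) (hy : v y ≤ v x) : In X v y :=
  fun z hz => h z (hz.trans hy)

theorem v_one_add {x : K} (h : v x < 1) : v (1 + x) = 1 := by
  have := Valuation.map_add_eq_of_lt_left v (x := 1) (y := x) (by simpa using h)
  rw [this, map_one]

theorem one_add_ne {x : K} (h : v x < 1) : (1 + x) ≠ 0 := by
  intro h0
  have := v_one_add h
  rw [h0, map_zero] at this
  exact zero_ne_one this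

/-- square roots in a dense group -/
theorem exists_sq (hdense : ∀ x, v x < 1 → ∃ y, v x < v y ∧ v y < 1) {x : K} (hx : v x < 1) :
    ∃ y, v x < v y ^ 2 ∧ v y < 1 := by
  obtain ⟨x', h1, h2⟩ := hdense x hx
  obtain ⟨k, h3, h4⟩ := hdense x' h2
  have hk0 : v k ≠ 0 := fun h => by rw [h] at h3; exact not_lt_zero h3
  have hk : k ≠ 0 := fun h => hk0 (by rw [h, map_zero])
  rcases le_total (v k) (v (x' / k)) with h | h
  · refine ⟨x' / k, ?_, ?_⟩
    · refine h1.trans_le ?_
      calc v x' = v k * v (x' / k) := by rw [← map_mul, mul_div_cancel₀ _ hk]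
        _ ≤ v (x' / k) * v (x' / k) := by gcongr
        _ = _ := (sq _).symm
    · rw [map_div₀]
      exact (div_lt_one₀ (zero_lt_iff.mpr hk0)).mpr h3
  · refine ⟨k, ?_, h4⟩
    refine h1.trans_le ?_
    calc v x' = v k * v (x' / k) := by rw [← map_mul, mul_div_cancel₀ _ hk]
      _ ≤ v k * v k := by gcongr
      _ = _ := (sq _).symm

/-- roots in a dense group -/
theorem exists_pow (hdense : ∀ x, v x < 1 → ∃ y, v x < v y ∧ v y < 1) {x : K} (hx : v x < 1)
    (n : ℕ) : ∃ y, v x < v y ^ n ∧ v y < 1 := by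
  -- use powers of two
  have key : ∀ m : ℕ, ∃ y, v x < v y ^ (2 ^ m) ∧ v y < 1 := by
    intro m
    induction m with
    | zero =>
      obtain ⟨y, h1, h2⟩ := hdense x hx
      exact ⟨y, by simpa using h1, h2⟩
    | succ m ih =>
      obtain ⟨y, h1, h2⟩ := ih
      obtain ⟨z, h3, h4⟩ := exists_sq hdense h2
      refine ⟨z, ?_, h4⟩
      rw [pow_succ', pow_mul]
      exact h1.trans_le (pow_le_pow_left' h3.le _)
  obtain ⟨y, h1, h2⟩ := key n
  refine ⟨y, h1.trans_le ?_, h2⟩
  exact pow_le_pow_right_of_le_one' h2.le (Nat.lt_two_pow_self).le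

/-- Windows: an element `e` with `v e` close to `1`, `X (1 + f e) = 1` for all `f ∈ F`. -/
theorem exists_window [Finite Γ] (hdense : ∀ x, v x < 1 → ∃ y, v x < v y ∧ v y < 1)
    (F : Finset K) (hF : ∀ f ∈ F, v f ≤ 1) {d : K} (hd : v d < 1) :
    ∃ e, v d < v e ∧ v e < 1 ∧ ∀ f ∈ F, X (1 + f * e) = 1 := by
  classical
  set F' : Finset K := insert 0 F with hF'
  have hF1 : ∀ f ∈ F', v f ≤ 1 := by
    intro f hf
    rw [hF', mem_insert] at hf
    rcases hf with rfl | hf
    · simp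
    · exact hF f hf
  obtain ⟨ι, hι, h⟩ := Combinatorics.Line.exists_mono_in_high_dimension F' Γ
  -- a sequence with strictly increasing valuations
  have hseq : ∀ n : ℕ, ∃ l : Fin n → K, (∀ i, v d < v (l i) ∧ v (l i) < 1) ∧
      Function.Injective (fun i => v (l i)) := by
    intro n
    induction n with
    | zero => exact ⟨fun i => i.elim0, fun i => i.elim0, fun i => i.elim0⟩
    | succ n ih =>
      obtain ⟨l, h1, h2⟩ := ih
      -- an element above all
      have : ∀ s : Finset (Fin n), ∃ y, v d < v y ∧ v y < 1 ∧ ∀ i ∈ s, v (l i) < v y := by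
        intro s
        induction s using Finset.induction_on with
        | empty =>
          obtain ⟨y, h3, h4⟩ := hdense d hd
          exact ⟨y, h3, h4, by simp⟩
        | insert i s hi ih =>
          obtain ⟨y, h3, h4, h5⟩ := ih
          obtain ⟨z, h6, h7⟩ := hdense (l i) (h1 i).2
          rcases le_total (v y) (v z) with h8 | h8
          · refine ⟨z, h3.trans_le h8, h7, ?_⟩
            intro j hj
            rw [mem_insert] at hj
            rcases hj with rfl | hj
            · exact h6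
            · exact (h5 j hj).trans_le h8
          · refine ⟨y, h3, h4, ?_⟩
            intro j hj
            rw [mem_insert] at hj
            rcases hj with rfl | hj
            · exact h6.trans_le h8
            · exact h5 j hj
      obtain ⟨y, h3, h4, h5⟩ := this univ
      refine ⟨Fin.snoc l y, ?_, ?_⟩
      · intro i
        refine Fin.lastCases ?_ (fun j => ?_) i
        · simpa using ⟨h3, h4⟩
        · simpa using h1 j
      · intro i j
        refine Fin.lastCases ?_ (fun i' => ?_) i <;> refine Fin.lastCases ?_ (fun j' => ?_) j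
        · intro _; rfl
        · intro hij
          simp only [Fin.snoc_last, Fin.snoc_castSucc] at hij
          exact absurd hij (h5 j' (mem_univ _)).ne'
        · intro hij
          simp only [Fin.snoc_last, Fin.snoc_castSucc] at hij
          exact absurd hij (h5 i' (mem_univ _)).ne
        · intro hij
          simp only [Fin.snoc_castSucc] at hij
          rw [h2 hij]
  obtain ⟨l', hl1, hl2⟩ := hseq (Fintype.card ι)
  let E := Fintype.equivFin ι
  set l : ι → K := fun i => l' (E i) with hl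
  have hl1' : ∀ i, v d < v (l i) ∧ v (l i) < 1 := fun i => hl1 _
  have hl2' : ∀ i j, v (l i) = v (l j) → i = j := fun i j hij => E.injective (hl2 hij)
  obtain ⟨L, hL⟩ := h (fun w : ι → F' => X (1 + ∑ i, l i * (w i : K)))
  obtain ⟨c, hc⟩ := hL
  set I : Finset ι := univ.filter (fun i => L.idxFun i = none) with hI
  have hIne : I.Nonempty := by
    obtain ⟨i, hi⟩ := L.proper
    exact ⟨i, by simp [hI, hi]⟩
  set P : K := 1 + ∑ i ∈ Iᶜ, l i * ((L.idxFun i).getD ⟨0, by simp [hF']⟩ : F') with hP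
  set θ : K := ∑ i ∈ I, l i with hθ
  have hval : ∀ f : F', X (P + (f : K) * θ) = c := by
    intro f
    rw [← hc f]
    congr 1
    rw [hP, hθ, add_assoc]
    congr 1
    rw [← Finset.sum_compl_add_sum I (fun i => l i * ((L f i : F') : K))]
    congr 1
    · apply Finset.sum_congr rfl
      intro i hi
      have : L.idxFun i ≠ none := by simpa [hI] using hi
      obtain ⟨b, hb⟩ := Option.ne_none_iff_exists'.mp this
      rw [Combinatorics.Line.coe_apply, hb]
      rfl
    · rw [Finset.mul_sum]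
      apply Finset.sum_congr rfl
      intro i hi
      have : L.idxFun i = none := by simpa [hI] using hi
      rw [Combinatorics.Line.coe_apply, this]
      simp [mul_comm]
  have hsumlt : ∀ (s : Finset ι) (f : ι → K), (∀ i ∈ s, v (f i) < 1) → v (∑ i ∈ s, f i) < 1 := by
    intro s f hf
    exact Valuation.map_sum_lt v one_ne_zero hf
  have hPv : v P = 1 := by
    apply v_one_add
    apply hsumlt
    intro i _
    rw [map_mul]
    calc v (l i) * _ ≤ v (l i) * 1 := by
          gcongr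
          exact hF1 _ ((L.idxFun i).getD ⟨0, by simp [hF']⟩ : F').2
      _ < 1 := by rw [mul_one]; exact (hl1' i).2
  have hP0 : P ≠ 0 := by
    intro h0; rw [h0, map_zero] at hPv; exact zero_ne_one hPv
  -- valuation of θ
  obtain ⟨k, hkI, hkmax⟩ := Finset.exists_max_image I (fun i => v (l i)) hIne
  have hθv : v θ = v (l k) := by
    rw [hθ, ← Finset.add_sum_erase I l hkI]
    apply Valuation.map_add_eq_of_lt_left
    apply Valuation.map_sum_lt
    · intro h0
      have := (hl1' k).1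
      rw [h0] at this
      exact not_lt_zero this
    · intro i hi
      rw [mem_erase] at hi
      exact lt_of_le_of_ne (hkmax i hi.2) (fun hh => hi.1 (hl2' _ _ hh))
  refine ⟨θ / P, ?_, ?_, ?_⟩
  · rw [map_div₀, hPv, div_one, hθv]; exact (hl1' k).1
  · rw [map_div₀, hPv, div_one, hθv]; exact (hl1' k).2
  · intro f hf
    have h0 := hval ⟨0, by simp [hF']⟩
    have h1 := hval ⟨f, by simp [hF', hf]⟩
    simp only [zero_mul, add_zero] at h0
    have : 1 + f * (θ / P) = (P + f * θ) / P := by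
      field_simp
    rw [this, map_div₀, h0]
    simp only at h1
    rw [h1]
    have hc0 : c ≠ 0 := by
      rw [← h0]; exact (map_ne_zero X).mpr hP0
    exact div_self hc0

/-- many windows -/
theorem exists_windows [Finite Γ] (hdense : ∀ x, v x < 1 → ∃ y, v x < v y ∧ v y < 1)
    (F : Finset K) (hF : ∀ f ∈ F, v f ≤ 1) {d : K} (hd : v d < 1) (m : ℕ) :
    ∃ e : Fin m → K, (∀ i, v d < v (e i) ∧ v (e i) < 1 ∧ ∀ f ∈ F, X (1 + f * e i) = 1) ∧
      ∀ i j, i ≠ j → v d < v (e i - e j) := by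
  classical
  suffices h : ∃ e : Fin m → K, (∀ i, v d < v (e i) ∧ v (e i) < 1 ∧
      ∀ f ∈ F, X (1 + f * e i) = 1) ∧ ∀ i j, i < j → v (e i) < v (e j) by
    obtain ⟨e, h1, h2⟩ := h
    refine ⟨e, h1, ?_⟩
    intro i j hij
    rcases lt_or_gt_of_ne hij with h | h
    · have := h2 i j h
      rw [Valuation.map_sub_swap, sub_eq_add_neg,
        Valuation.map_add_eq_of_lt_left v (by rwa [Valuation.map_neg])]
      exact (h1 j).1
    · have := h2 j i h
      rw [sub_eq_add_neg,
        Valuation.map_add_eq_of_lt_left v (by rwa [Valuation.map_neg])]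
      exact (h1 i).1
  induction m with
  | zero => exact ⟨fun i => i.elim0, fun i => i.elim0, fun i => i.elim0⟩
  | succ m ih =>
    obtain ⟨e, h1, h2⟩ := ih
    -- the maximum so far
    obtain ⟨y, hy1, hy2, hy3⟩ : ∃ y, v d ≤ v y ∧ v y < 1 ∧ ∀ i : Fin m, v (e i) ≤ v y := by
      rcases m.eq_zero_or_pos with rfl | hm
      · exact ⟨d, le_rfl, hd, fun i => i.elim0⟩
      · refine ⟨e ⟨m - 1, by omega⟩, (h1 _).1.le, (h1 _).2.1, ?_⟩
        intro i
        rcases (show i ≤ ⟨m - 1, by omega⟩ from by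
          rw [Fin.le_def]; have := i.2; simp only; omega).eq_or_lt with h | h
        · rw [h]
        · exact (h2 _ _ h).le
    obtain ⟨z, hz1, hz2, hz3⟩ := exists_window (X := X) hdense F hF hy2
    refine ⟨Fin.snoc e z, ?_, ?_⟩
    · intro i
      refine Fin.lastCases ?_ (fun j => ?_) i
      · simp only [Fin.snoc_last]
        exact ⟨hy1.trans_lt hz1, hz2, hz3⟩
      · simp only [Fin.snoc_castSucc]
        exact h1 j
    · intro i j hij
      revert hij
      refine Fin.lastCases ?_ (fun j' => ?_) j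
      · refine Fin.lastCases ?_ (fun i' => ?_) i
        · intro h; exact absurd h (lt_irrefl _)
        · intro _
          simp only [Fin.snoc_last, Fin.snoc_castSucc]
          exact (hy3 i').trans_lt hz1
      · refine Fin.lastCases ?_ (fun i' => ?_) i
        · intro h
          exact absurd h (not_lt.mpr (Fin.le_last _))
        · intro h
          simp only [Fin.snoc_castSucc]
          exact h2 _ _ (by simpa using h)

section Core

/-- the groups `B_t` -/
def Bs (X : K →*₀ Γ) (v : Valuation K Γ₀) (t : K) : Set Γ :=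
  {z | ∃ y, In X v (t * y) ∧ v y < 1 ∧ X (1 + y) = z}

theorem Bs_anti {t t' : K} (h : v t ≤ v t') : Bs X v t' ⊆ Bs X v t := by
  rintro z ⟨y, h1, h2, h3⟩
  refine ⟨y, h1.mono ?_, h2, h3⟩
  rw [map_mul, map_mul]
  gcongr

theorem fact1 (hrank : ∀ x y : K, v x < 1 → y ≠ 0 → ∃ n : ℕ, v x ^ n ≤ v y)
    {b : K} (hb : b ≠ 0) (hIb : In X v b) {w : K} (hw : v w < 1) (hIw : ¬ In X v w)
    {t : K} (ht : v t < 1) : ∃ y, In X v (t * y) ∧ ¬ In X v y ∧ v y < 1 := by
  classical
  have hex : ∃ n : ℕ, In X v (t ^ n * w) := by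
    obtain ⟨n, hn⟩ := hrank t b ht hb
    refine ⟨n, hIb.mono ?_⟩
    rw [map_mul, map_pow]
    calc v t ^ n * v w ≤ v t ^ n * 1 := by gcongr
      _ ≤ v b := by rwa [mul_one]
  set n := Nat.find hex with hn
  have h1 : In X v (t ^ n * w) := Nat.find_spec hex
  have h0 : n ≠ 0 := by
    intro h0
    rw [h0] at h1
    exact hIw (by simpa using h1)
  obtain ⟨k, hk⟩ := Nat.exists_eq_succ_of_ne_zero h0
  refine ⟨t ^ k * w, ?_, Nat.find_min hex (by omega), ?_⟩
  · rw [hk, pow_succ'] at h1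
    rwa [← mul_assoc]
  · rw [map_mul, map_pow]
    calc v t ^ k * v w ≤ 1 * v w := mul_le_mul_left (pow_le_one' ht.le _) _
      _ < 1 := by rwa [one_mul]

variable {w t₀ : K} (hw : v w < 1) (hIw : ¬ In X v w) (ht₀ : t₀ ≠ 0) (ht₁ : v t₀ < 1)
  (ht₂ : v w ≤ v t₀ ^ 2)

include hIw ht₀ ht₂ in
theorem lt_t₀ {y : K} (hy : In X v (t₀ * y)) : v y < v t₀ := by
  have h1 : v (t₀ * y) < v w := by
    by_contra h
    exact hIw (hy.mono (not_lt.mp h))
  have h2 : 0 < v t₀ := zero_lt_iff.mpr ((Valuation.ne_zero_iff v).mpr ht₀)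
  rw [map_mul] at h1
  have h3 : v t₀ * v y < v t₀ * v t₀ := (h1.trans_le ht₂).trans_eq (sq _)
  by_contra h
  exact absurd h3 (not_lt.mpr (mul_le_mul_right (not_lt.mp h) _))

include hIw ht₀ ht₂ in
theorem In_mul {y y' : K} (hy : In X v (t₀ * y)) (hy' : In X v (t₀ * y')) :
    In X v (y * y') := by
  refine hy.mono ?_
  rw [map_mul, map_mul, mul_comm (v t₀)]
  gcongr
  exact (lt_t₀ hIw ht₀ ht₂ hy').le

include hIw ht₀ ht₁ ht₂ in
theorem phi_add {y y' : K} (hy : In X v (t₀ * y)) (hy' : In X v (t₀ * y')) :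
    X (1 + (y + y')) = X (1 + y) * X (1 + y') := by
  have h1 : v y < 1 := (lt_t₀ hIw ht₀ ht₂ hy).trans ht₁
  have h2 : v y' < 1 := (lt_t₀ hIw ht₀ ht₂ hy').trans ht₁
  have h3 : v (y + y') < 1 := (Valuation.map_add v _ _).trans_lt (max_lt h1 h2)
  have h4 := one_add_ne h3
  have h5 : In X v (y * y' / (1 + (y + y'))) := by
    refine (In_mul hIw ht₀ ht₂ hy hy').mono ?_
    rw [map_div₀, v_one_add h3, div_one]
  have : (1 + y) * (1 + y') = (1 + (y + y')) * (1 + y * y' / (1 + (y + y'))) := by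
    field_simp
    ring
  rw [← map_mul, this, map_mul, h5.val, mul_one]

/-- `In` is stable under addition -/
theorem In.add {x y : K} (hx : In X v x) (hy : In X v y) : In X v (x + y) := by
  rcases le_total (v x) (v y) with h | h
  · exact hy.mono ((Valuation.map_add v _ _).trans (max_le h le_rfl))
  · exact hx.mono ((Valuation.map_add v _ _).trans (max_le le_rfl h))

theorem In.neg {x : K} (hx : In X v x) : In X v (-x) := hx.mono (by rw [Valuation.map_neg])

theorem In_zero : In X v (0 : K) := by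
  intro y hy
  rw [map_zero, le_zero_iff, map_eq_zero] at hy
  rw [hy]; simp

theorem In.small {x y : K} (hx : In X v x) (hy : v y ≤ 1) : In X v (y * x) :=
  hx.mono (by rw [map_mul]; exact mul_le_of_le_one_left' hy)

include hIw ht₀ ht₁ ht₂ in
theorem phi_neg {y : K} (hy : In X v (t₀ * y)) :
    X (1 + -y) = (X (1 + y))⁻¹ := by
  have h := phi_add hIw ht₀ ht₁ ht₂ hy (by simpa using hy.neg : In X v (t₀ * -y))
  rw [add_neg_cancel, add_zero, map_one] at h
  exact (inv_eq_of_mul_eq_one_right h.symm).symm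

/-- the main pigeonhole lemma -/
theorem good [Finite Γ] (hIw : ¬ In X v w) (ht₀ : t₀ ≠ 0)
    (ht₁ : v t₀ < 1) (ht₂ : v w ≤ v t₀ ^ 2)
    (hBs : ∀ t, v t₀ ≤ v t → v t < 1 → Bs X v t = Bs X v t₀)
    {c t : K} (ht : v t₀ ≤ v t) (ht' : v t < 1) (hc : ¬ In X v (t ^ 2 * c))
    {m : ℕ} (hm : Nat.card (Set (Γ × Γ)) < m) (e : Fin m → K) (he : ∀ i, v (e i) < 1)
    (hee : ∀ i j, i ≠ j → v t < v (e i - e j)) :
    ∃ i, ∀ z ∈ Bs X v t₀, ∃ γ, In X v (t * c * γ) ∧ X (1 + γ) = 1 ∧
      X (1 + c * (1 + e i) * γ) = z := by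
  classical
  have hc0 : c ≠ 0 := by
    rintro rfl
    exact hc (by rw [mul_zero]; exact In_zero)
  have hvt0 : v t ≠ 0 := fun h => by
    rw [h, le_zero_iff] at ht
    exact ht₀ ((map_eq_zero v).mp ht)
  have ht0 : t ≠ 0 := fun h => hvt0 (by rw [h, map_zero])
  -- sizes of the elements of `M`
  have hM : ∀ γ, In X v (t * c * γ) → v γ < v t := by
    intro γ hγ
    by_contra h
    refine hc (hγ.mono ?_)
    have h' : v t ≤ v γ := not_lt.mp h
    have e1 : v (t ^ 2 * c) = v t * v c * v t := by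
      rw [map_mul, map_pow, sq, mul_right_comm]
    have e2 : v (t * c * γ) = v t * v c * v γ := by rw [map_mul, map_mul]
    rw [e1, e2]
    gcongr
  by_contra hcon
  push Not at hcon
  choose z hz hzn using hcon
  set R : Fin m → Set (Γ × Γ) := fun i =>
    {q | ∃ γ, In X v (t * c * γ) ∧ q = (X (1 + γ), X (1 + c * (1 + e i) * γ))} with hR
  -- pigeonhole
  obtain ⟨i, j, hij, hRij⟩ : ∃ i j, i ≠ j ∧ R i = R j := by
    by_contra hn
    push Not at hn
    have hinj : Function.Injective R := by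
      intro i j h
      by_contra hne
      exact hn i j hne h
    have := Nat.card_le_card_of_injective R hinj
    rw [Nat.card_eq_fintype_card, Fintype.card_fin] at this
    omega
  set δ := e i - e j with hδ
  have hδt : v t < v δ := hee i j hij
  have hδ1 : v δ < 1 := (Valuation.map_sub v _ _).trans_lt (max_lt (he i) (he j))
  have hδ0' : 0 < v δ := (zero_lt_iff.mpr hvt0).trans hδt
  have hδ0 : δ ≠ 0 := fun h => by rw [h, map_zero] at hδ0'; exact lt_irrefl _ hδ0'
  -- from `t` to `t₀`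
  have hdown : ∀ y, In X v (t * y) → In X v (t₀ * y) := by
    intro y hy
    refine hy.mono ?_
    rw [map_mul, map_mul]
    gcongr
  have hz' : z i ∈ Bs X v (t / δ) := by
    rw [hBs (t / δ)]
    · exact hz i
    · rw [map_div₀]
      refine ht.trans ?_
      rw [le_div_iff₀ hδ0']
      exact mul_le_of_le_one_right' hδ1.le
    · rw [map_div₀]
      exact (div_lt_one₀ hδ0').mpr hδt
  obtain ⟨y, hy1, hy2, hy3⟩ := hz'
  set γ := y / (c * δ) with hγ
  have hγM : In X v (t * c * γ) := by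
    have : t * c * γ = t / δ * y := by
      rw [hγ]; field_simp
    rwa [this]
  have h1e : ∀ i, v (1 + e i) = 1 := fun i => v_one_add (he i)
  have hYM : ∀ i γ, In X v (t * c * γ) → In X v (t * (c * (1 + e i) * γ)) := by
    intro i γ h
    refine h.mono ?_
    have : t * (c * (1 + e i) * γ) = (t * c * γ) * (1 + e i) := by ring
    rw [this, map_mul, h1e, mul_one]
  have hyt : In X v (t₀ * y) := by
    refine hy1.mono ?_
    rw [map_mul, map_mul, map_div₀]
    gcongr
    refine ht.trans ?_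
    rw [le_div_iff₀ hδ0']
    exact mul_le_of_le_one_right' hδ1.le
  have e1 : X (1 + c * (1 + e i) * γ) = X (1 + c * (1 + e j) * γ) * z i := by
    rw [← hy3, ← phi_add hIw ht₀ ht₁ ht₂ (hdown _ (hYM j γ hγM)) hyt]
    congr 2
    have : c * δ * γ = y := by rw [hγ]; field_simp
    rw [← this, hδ]; ring
  have hmem : (X (1 + γ), X (1 + c * (1 + e j) * γ)) ∈ R i := by
    rw [hRij]
    exact ⟨γ, hγM, rfl⟩
  obtain ⟨γ₂, hγ₂M, hγ₂⟩ := hmem
  rw [Prod.mk.injEq] at hγ₂
  obtain ⟨h2a, h2b⟩ := hγ₂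
  have hvγ : v γ < 1 := (hM γ hγM).trans ht'
  have hvγ₂ : v γ₂ < 1 := (hM γ₂ hγ₂M).trans ht'
  have hne : (1 + γ₂) ≠ 0 := one_add_ne hvγ₂
  have hXne : X (1 + γ₂) ≠ 0 := (map_ne_zero X).mpr hne
  set γ₃ := (γ - γ₂) / (1 + γ₂) with hγ₃
  have hd : In X v (t * c * (γ - γ₂)) := by
    have : t * c * (γ - γ₂) = t * c * γ + -(t * c * γ₂) := by ring
    rw [this]
    exact hγM.add hγ₂M.neg
  have hγ₃M : In X v (t * c * γ₃) := by
    refine hd.mono ?_
    rw [hγ₃, mul_div_assoc', map_div₀, v_one_add hvγ₂, div_one]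
  have h3a : X (1 + γ₃) = 1 := by
    have : 1 + γ₃ = (1 + γ) / (1 + γ₂) := by rw [hγ₃]; field_simp; ring
    rw [this, map_div₀, h2a, div_self hXne]
  have hzi0 : X (1 + c * (1 + e j) * γ) ≠ 0 := by
    apply (map_ne_zero X).mpr
    apply one_add_ne (v := v)
    exact (lt_t₀ hIw ht₀ ht₂ (hdown _ (hYM j γ hγM))).trans ht₁
  refine hzn i γ₃ hγ₃M h3a ?_
  -- compute
  set Y := c * (1 + e i) * γ with hY
  set Y₂ := c * (1 + e i) * γ₂ with hY₂
  set W := -((Y - Y₂) * (γ₂ / (1 + γ₂))) with hW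
  have hYY : c * (1 + e i) * γ₃ = Y + -Y₂ + W := by
    rw [hW, hY, hY₂, hγ₃]; field_simp; ring
  have hY1 : In X v (t₀ * Y) := hdown _ (hYM i γ hγM)
  have hY2 : In X v (t₀ * Y₂) := hdown _ (hYM i γ₂ hγ₂M)
  have hY2' : In X v (t₀ * -Y₂) := by simpa using hY2.neg
  have hWI : In X v W := by
    rw [hW]
    apply In.neg
    refine (hYM i _ hd).mono ?_
    have e3 : Y - Y₂ = c * (1 + e i) * (γ - γ₂) := by rw [hY, hY₂]; ring
    rw [← e3, map_mul, map_mul, map_div₀, v_one_add hvγ₂, div_one, mul_comm (v t)]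
    exact mul_le_mul_right (hM γ₂ hγ₂M).le _
  have hWI' : In X v (t₀ * W) := hWI.small ht₁.le
  have hYs : In X v (t₀ * (Y + -Y₂)) := by
    rw [mul_add]; exact hY1.add hY2'
  rw [hYY, phi_add hIw ht₀ ht₁ ht₂ hYs hWI', phi_add hIw ht₀ ht₁ ht₂ hY1 hY2', hWI.val, mul_one,
    phi_neg hIw ht₀ ht₁ ht₂ hY2, ← h2b, e1]
  field_simp

end Core

theorem pow_card_units [Finite Γ] {x : K} (hx : x ≠ 0) : X (x ^ Nat.card Γˣ) = 1 := by
  have h : X x ≠ 0 := (map_ne_zero X).mpr hx
  have h1 : (Units.mk0 (X x) h) ^ Nat.card Γˣ = 1 := pow_card_eq_one'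
  have h2 := congrArg Units.val h1
  rw [Units.val_pow_eq_pow_val, Units.val_mk0, Units.val_one] at h2
  rw [map_pow]
  exact h2

/-- every class has a representative with valuation close to `1` -/
theorem exists_rep [Finite Γ] (hrank : ∀ x y : K, v x < 1 → y ≠ 0 → ∃ n : ℕ, v x ^ n ≤ v y)
    (hdense : ∀ x, v x < 1 → ∃ y, v x < v y ∧ v y < 1) {a t : K} (ha : a ≠ 0) (ht : v t < 1) :
    ∃ f, X f = X a ∧ v t ≤ v f ∧ v f ≤ 1 := by
  classical
  set N := Nat.card Γˣ with hN
  have hN0 : N ≠ 0 := Nat.card_pos.ne'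
  obtain ⟨h, hh1, hh2⟩ := exists_pow hdense ht N
  set u := h ^ N with hu
  have hut : v t < v u := by rwa [hu, map_pow]
  have hu0' : 0 < v u := lt_of_le_of_lt zero_le hut
  have hu0 : u ≠ 0 := fun h => by rw [h, map_zero] at hu0'; exact lt_irrefl _ hu0'
  have hh0 : h ≠ 0 := fun h' => hu0 (by rw [hu, h', zero_pow hN0])
  have hu1 : v u < 1 := by
    rw [hu, map_pow]
    exact pow_lt_one₀ zero_le hh2 hN0
  have hXu : X u = 1 := pow_card_units hh0
  -- make `a` integral
  obtain ⟨a', ha'0, hXa', hva'⟩ : ∃ a', a' ≠ 0 ∧ X a' = X a ∧ v a' ≤ 1 := by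
    obtain ⟨n, hn⟩ := hrank u a⁻¹ hu1 (inv_ne_zero ha)
    refine ⟨u ^ n * a, mul_ne_zero (pow_ne_zero _ hu0) ha, by rw [map_mul, map_pow, hXu]; simp, ?_⟩
    rw [map_mul, map_pow]
    calc v u ^ n * v a ≤ v a⁻¹ * v a := mul_le_mul_left hn _
      _ = 1 := by rw [← map_mul, inv_mul_cancel₀ ha, map_one]
  have hex := hrank u a' hu1 ha'0
  set n := Nat.find hex with hn
  have h1 : v u ^ n ≤ v a' := Nat.find_spec hex
  rcases Nat.eq_zero_or_pos n with h0 | h0
  · rw [h0, pow_zero] at h1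
    exact ⟨a', hXa', ht.le.trans h1, hva'⟩
  · obtain ⟨k, hk⟩ := Nat.exists_eq_succ_of_ne_zero h0.ne'
    have h2 : v a' < v u ^ k := not_le.mp (Nat.find_min hex (by omega))
    have hk0 : 0 < v u ^ k := pow_pos hu0' _
    refine ⟨a' / u ^ k, by rw [map_div₀, map_pow, hXu]; simpa using hXa', ?_, ?_⟩
    · rw [map_div₀, map_pow]
      refine hut.le.trans ?_
      rw [le_div_iff₀ hk0]
      rw [hk, pow_succ'] at h1
      exact h1
    · rw [map_div₀, map_pow]
      exact ((div_lt_one₀ hk0).mpr h2).le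

section Main

variable [Finite Γ] {w t₀ : K}

/-- shift by an element of `B` at a unit, the third element having good size -/
theorem shift_good (hdense : ∀ x, v x < 1 → ∃ y, v x < v y ∧ v y < 1)
    (hIw : ¬ In X v w) (ht₀ : t₀ ≠ 0)
    (ht₁ : v t₀ < 1) (ht₂ : v w ≤ v t₀ ^ 2)
    (hBs : ∀ t, v t₀ ≤ v t → v t < 1 → Bs X v t = Bs X v t₀)
    {c t : K} (ht : v t₀ ≤ v t) (ht' : v t < 1) (hc : ¬ In X v (t ^ 2 * c))
    (hc1 : v c ≤ 1) (hc2 : v (1 + c) = 1) {z : Γ} (hz : z ∈ Bs X v t₀) :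
    ∃ b' c', X (b' + c') = z * X (1 + c) ∧ X b' = 1 ∧ X c' = X c := by
  classical
  have h1c0 : (1 + c) ≠ 0 := fun h => by rw [h, map_zero] at hc2; exact zero_ne_one hc2
  obtain ⟨e, he, hee⟩ := exists_windows (X := X) hdense ({1, c / (1 + c)} : Finset K) (by
    intro f hf
    rw [mem_insert, mem_singleton] at hf
    rcases hf with rfl | rfl
    · simp
    · rw [map_div₀, hc2, div_one]; exact hc1) ht' (Nat.card (Set (Γ × Γ)) + 1)
  obtain ⟨i, hi⟩ := good hIw ht₀ ht₁ ht₂ hBs ht ht' hc (Nat.lt_succ_self _) e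
    (fun i => (he i).2.1) hee
  have h1e : v (1 + e i) = 1 := v_one_add (he i).2.1
  have hXe : X (1 + e i) = 1 := by simpa using (he i).2.2 1 (by simp)
  have hXe' : X (1 + c / (1 + c) * e i) = 1 := (he i).2.2 _ (by simp)
  set c' := c * (1 + e i) with hc'
  have hXc' : X c' = X c := by rw [hc', map_mul, hXe, mul_one]
  have h1c' : 1 + c' = (1 + c) * (1 + c / (1 + c) * e i) := by rw [hc']; field_simp; ring
  have hX1c' : X (1 + c') = X (1 + c) := by rw [h1c', map_mul, hXe', mul_one]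
  have hv1c' : v (1 + c') = 1 := by
    rw [h1c', map_mul, hc2, one_mul]
    apply v_one_add
    rw [map_mul, map_div₀, hc2, div_one]
    calc v c * v (e i) ≤ 1 * v (e i) := mul_le_mul_left hc1 _
      _ < 1 := by rw [one_mul]; exact (he i).2.1
  have hz' := hz
  rw [← hBs t ht ht'] at hz'
  obtain ⟨α, hα1, hα2, hα3⟩ := hz'
  have hdown : ∀ y, In X v (t * y) → In X v (t₀ * y) := by
    intro y hy
    refine hy.mono ?_
    rw [map_mul, map_mul]
    exact mul_le_mul_left ht _
  have hα' : In X v (t * ((1 + c') * α)) := by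
    refine hα1.mono ?_
    rw [map_mul, map_mul, map_mul, hv1c', one_mul]
  have hvα' : v ((1 + c') * α) < 1 := by rwa [map_mul, hv1c', one_mul]
  obtain ⟨γ, hγ1, hγ2, hγ3⟩ := hi (X (1 + (1 + c') * α)) ⟨(1 + c') * α, hdown _ hα', hvα', rfl⟩
  have hcγ : In X v (t * (c' * γ)) := by
    refine hγ1.mono ?_
    have : t * (c' * γ) = t * c * γ * (1 + e i) := by rw [hc']; ring
    rw [this, map_mul, h1e, mul_one]
  have hcγ' : In X v (t₀ * -(c' * γ)) := by
    have := (hdown _ hcγ).neg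
    simpa using this
  refine ⟨1 + ((1 + c') * α + -(c' * γ)), c' * (1 + γ), ?_, ?_, ?_⟩
  · have : 1 + ((1 + c') * α + -(c' * γ)) + c' * (1 + γ) = (1 + c') * (1 + α) := by ring
    rw [this, map_mul, hα3, hX1c', mul_comm]
  · rw [phi_add hIw ht₀ ht₁ ht₂ (hdown _ hα') hcγ', phi_neg hIw ht₀ ht₁ ht₂ (hdown _ hcγ), hγ3]
    exact mul_inv_cancel₀ ((map_ne_zero X).mpr (one_add_ne hvα'))
  · rw [map_mul, hγ2, mul_one, hXc']

omit [Finite Γ] in
theorem Bs_mul (hIw : ¬ In X v w) (ht₀ : t₀ ≠ 0)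
    (ht₁ : v t₀ < 1) (ht₂ : v w ≤ v t₀ ^ 2) {z z' : Γ} (hz : z ∈ Bs X v t₀)
    (hz' : z' ∈ Bs X v t₀) : z * z' ∈ Bs X v t₀ := by
  obtain ⟨y, h1, h2, h3⟩ := hz
  obtain ⟨y', h1', h2', h3'⟩ := hz'
  refine ⟨y + y', ?_, ?_, ?_⟩
  · rw [mul_add]; exact h1.add h1'
  · exact (Valuation.map_add v _ _).trans_lt (max_lt h2 h2')
  · rw [phi_add hIw ht₀ ht₁ ht₂ h1 h1', h3, h3']

/-- shift by an element of `B` at a unit, general size -/
theorem shift_unit (hrank : ∀ x y : K, v x < 1 → y ≠ 0 → ∃ n : ℕ, v x ^ n ≤ v y)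
    (hdense : ∀ x, v x < 1 → ∃ y, v x < v y ∧ v y < 1)
    (hIw : ¬ In X v w) (ht₀ : t₀ ≠ 0)
    (ht₁ : v t₀ < 1) (ht₂ : v w ≤ v t₀ ^ 2)
    (hBs : ∀ t, v t₀ ≤ v t → v t < 1 → Bs X v t = Bs X v t₀)
    {c : K} (hc0 : c ≠ 0) (hc1 : v c ≤ 1) (hc2 : v (1 + c) = 1) {z : Γ} (hz : z ∈ Bs X v t₀) :
    ∃ b' c', X (b' + c') = z * X (1 + c) ∧ X b' = 1 ∧ X c' = X c := by
  classical
  by_cases hgood : ∃ t, v t₀ ≤ v t ∧ v t < 1 ∧ ¬ In X v (t ^ 2 * c)
  · obtain ⟨t, h1, h2, h3⟩ := hgood
    exact shift_good hdense hIw ht₀ ht₁ ht₂ hBs h1 h2 h3 hc1 hc2 hz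
  push Not at hgood
  -- `v c < 1`
  have hc1' : v c < 1 := by
    refine lt_of_le_of_ne hc1 ?_
    intro h
    refine hIw ((hgood t₀ le_rfl ht₁).mono ?_)
    rw [map_mul, map_pow, h, mul_one]
    exact ht₂
  -- `X (1 + c) ∈ B`
  obtain ⟨t, ht, ht'⟩ := exists_pow hdense ht₁ 4
  have htt : v t ^ 4 ≤ v t := by
    calc v t ^ 4 ≤ v t ^ 1 := pow_le_pow_right_of_le_one' ht'.le (by norm_num)
      _ = v t := pow_one _
  have htt2 : v t ^ 4 ≤ v t ^ 2 := pow_le_pow_right_of_le_one' ht'.le (by norm_num)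
  have ht0' : v t₀ ≤ v t := ht.le.trans htt
  have ht2 : v t₀ ≤ v (t ^ 2) := by rw [map_pow]; exact ht.le.trans htt2
  have ht2' : v (t ^ 2) < 1 := by rw [map_pow]; exact pow_lt_one₀ zero_le ht' (by norm_num)
  have hXc : X (1 + c) ∈ Bs X v t₀ := by
    rw [← hBs (t ^ 2) ht2 ht2']
    exact ⟨c, hgood t ht0' ht', hc1', rfl⟩
  -- representatives
  have hrep : ∀ y : Γˣ, ∃ f : K, (∃ a : K, a ≠ 0 ∧ X a = y) → (X f = y ∧ v t ≤ v f ∧ v f ≤ 1) := by
    intro y
    by_cases h : ∃ a : K, a ≠ 0 ∧ X a = y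
    · obtain ⟨a, ha, hay⟩ := h
      obtain ⟨f, h1, h2, h3⟩ := exists_rep (X := X) hrank hdense ha ht'
      exact ⟨f, fun _ => ⟨h1.trans hay, h2, h3⟩⟩
    · exact ⟨0, fun h' => absurd h' h⟩
  choose f hf using hrep
  have : Fintype Γˣ := Fintype.ofFinite _
  set F : Finset K := (univ.image f).filter (fun x => v x ≤ 1) with hF
  obtain ⟨e, he1, he2, he3⟩ := exists_window (X := X) hdense F (by
    intro x hx
    rw [hF, mem_filter] at hx
    exact hx.2) ht'
  have he0 : e ≠ 0 := fun h => by rw [h, map_zero] at he1; exact not_lt_zero he1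
  have hXe0 : X e ≠ 0 := (map_ne_zero X).mpr he0
  have hXc0 : X c ≠ 0 := (map_ne_zero X).mpr hc0
  obtain ⟨h1, h2, h3⟩ := hf (Units.mk0 (X c) hXc0 / Units.mk0 (X e) hXe0)
    ⟨c / e, div_ne_zero hc0 he0, by simp⟩
  set g := f (Units.mk0 (X c) hXc0 / Units.mk0 (X e) hXe0) with hg
  have hgF : g ∈ F := by
    rw [hF, mem_filter]
    exact ⟨mem_image_of_mem _ (mem_univ _), h3⟩
  have h4 : X (1 + g * e) = 1 := he3 g hgF
  have h5 : X (g * e) = X c := by
    rw [map_mul, h1]
    simp [div_mul_cancel₀ _ hXe0]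
  have h6 : v t ^ 2 ≤ v (g * e) := by
    rw [map_mul, sq]
    exact mul_le_mul' h2 he1.le
  have h7 : v (g * e) < 1 := by
    rw [map_mul]
    calc v g * v e ≤ 1 * v e := mul_le_mul_left h3 _
      _ < 1 := by rwa [one_mul]
  have h8 : ¬ In X v (t ^ 2 * (g * e)) := by
    intro h
    refine hIw (h.mono ?_)
    rw [map_mul, map_pow]
    calc v w ≤ v t₀ ^ 2 := ht₂
      _ ≤ v t₀ ^ 1 := pow_le_pow_right_of_le_one' ht₁.le (by norm_num)
      _ = v t₀ := pow_one _
      _ ≤ v t ^ 4 := ht.le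
      _ = v t ^ 2 * v t ^ 2 := by rw [← pow_add]
      _ ≤ v t ^ 2 * v (g * e) := mul_le_mul_right h6 _
  obtain ⟨b', c', hb1, hb2, hb3⟩ := shift_good hdense hIw ht₀ ht₁ ht₂ hBs ht0' ht' h8 h7.le
    (v_one_add h7) (Bs_mul hIw ht₀ ht₁ ht₂ hz hXc)
  exact ⟨b', c', by rw [hb1, h4, mul_one], hb2, by rw [hb3, h5]⟩

/-- the main theorem: dense rank one and wild is never reduced -/
theorem not_redExt (hrank : ∀ x y : K, v x < 1 → y ≠ 0 → ∃ n : ℕ, v x ^ n ≤ v y)
    (hdense : ∀ x, v x < 1 → ∃ y, v x < v y ∧ v y < 1)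
    {b : K} (hb : b ≠ 0) (hIb : In X v b) (hw : v w < 1) (hIw : ¬ In X v w) :
    ¬ RedExt K X := by
  classical
  -- the choice of `t₀`
  obtain ⟨t₁, ht₁w, ht₁⟩ := exists_sq hdense hw
  have hex : ∃ n : ℕ, ∃ t, v t₁ ≤ v t ∧ v t < 1 ∧ (Bs X v t).ncard = n :=
    ⟨_, t₁, le_rfl, ht₁, rfl⟩
  obtain ⟨t₀, h1, h2, h3⟩ := Nat.find_spec hex
  have hmin : ∀ t, v t₁ ≤ v t → v t < 1 → (Bs X v t₀).ncard ≤ (Bs X v t).ncard := by
    intro t ht ht'
    rw [h3]
    exact Nat.find_min' hex ⟨t, ht, ht', rfl⟩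
  have hBs : ∀ t, v t₀ ≤ v t → v t < 1 → Bs X v t = Bs X v t₀ := by
    intro t ht ht'
    exact Set.eq_of_subset_of_ncard_le (Bs_anti ht) (hmin t (h1.trans ht) ht') (Set.toFinite _)
  have ht₂ : v w ≤ v t₀ ^ 2 := ht₁w.le.trans (pow_le_pow_left' h1 2)
  have ht₀ : t₀ ≠ 0 := by
    rintro rfl
    rw [map_zero, le_zero_iff] at h1
    rw [h1, zero_pow two_ne_zero] at ht₁w
    exact not_lt_zero ht₁w
  -- the element `z`
  obtain ⟨y, hy1, hy2, hy3⟩ := fact1 hrank hb hIb hw hIw h2
  obtain ⟨y', hy', hXy'⟩ : ∃ y', v y' ≤ v y ∧ X (1 + y') ≠ 1 := by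
    by_contra h
    push Not at h
    exact hy2 h
  have hz : X (1 + y') ∈ Bs X v t₀ := by
    refine ⟨y', hy1.mono ?_, hy'.trans_lt hy3, rfl⟩
    rw [map_mul, map_mul]
    exact mul_le_mul_right hy' _
  intro hR
  obtain ⟨a, b, c, ha, hb0, hc, habc, H⟩ := hR _ hXy'
  simp only [Algebra.algebraMap_self, RingHom.id_apply] at H
  set z := X (1 + y') with hzdef
  -- two reductions
  have hunit : ∀ b c : K, b ≠ 0 → c ≠ 0 → a + b + c = 0 → v a = v b → v c ≤ v b →
      ∃ a' b' c', a' + b' + c' = 0 ∧ X a' = z * X a ∧ X b' = X b ∧ X c' = X c := by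
    intro b c hb hc habc hab hcb
    have hvb : 0 < v b := zero_lt_iff.mpr ((Valuation.ne_zero_iff v).mpr hb)
    have h1c : 1 + c / b = -(a / b) := by
      field_simp
      linear_combination habc
    obtain ⟨b', c', e1, e2, e3⟩ := shift_unit (X := X) hrank hdense hIw ht₀ h2 ht₂ hBs
      (c := c / b) (div_ne_zero hc hb) (by
        rw [map_div₀]; exact div_le_one_of_le₀ hcb zero_le) (by
        rw [h1c, Valuation.map_neg, map_div₀, hab, div_self hvb.ne']) hz
    refine ⟨-(b * (b' + c')), b * b', b * c', by ring, ?_, ?_, ?_⟩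
    · have : -(b * (b' + c')) = (-b) * (b' + c') := by ring
      have hba : (-b) * (1 + c / b) = a := by
        rw [h1c]; field_simp
      rw [this, map_mul, e1, mul_left_comm, ← map_mul, hba]
    · rw [map_mul, e2, mul_one]
    · rw [map_mul, e3, ← map_mul, mul_div_cancel₀ _ hb]
  have hca : v a ≤ max (v b) (v c) := by
    have : a = -b + -c := by linear_combination habc
    rw [this]
    exact (Valuation.map_add v _ _).trans (by rw [Valuation.map_neg, Valuation.map_neg])
  have hcb : v b ≤ max (v a) (v c) := by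
    have : b = -a + -c := by linear_combination habc
    rw [this]
    exact (Valuation.map_add v _ _).trans (by rw [Valuation.map_neg, Valuation.map_neg])
  have hcc : v c ≤ max (v a) (v b) := by
    have : c = -a + -b := by linear_combination habc
    rw [this]
    exact (Valuation.map_add v _ _).trans (by rw [Valuation.map_neg, Valuation.map_neg])
  rcases lt_or_ge (v a) (v b) with hlt | hge
  · -- `a` is small
    have hvb : 0 < v b := zero_le.trans_lt hlt
    have hab1 : v (a / b) < 1 := by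
      rw [map_div₀]; exact (div_lt_one₀ hvb).mpr hlt
    obtain ⟨t, ht, ht', htab⟩ : ∃ t, v t₀ ≤ v t ∧ v t < 1 ∧ v (a / b) ≤ v t := by
      rcases le_total (v (a / b)) (v t₀) with h | h
      · exact ⟨t₀, le_rfl, h2, h⟩
      · exact ⟨a / b, h, hab1, le_rfl⟩
    have hz' := hz
    rw [← hBs t ht ht'] at hz'
    obtain ⟨α, hα1, hα2, hα3⟩ := hz'
    refine H (a * (1 + α)) (b * (1 + -(a / b * α))) c ?_ ?_ ?_ rfl
    · have : a * (1 + α) + b * (1 + -(a / b * α)) + c = a + b + c := by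
        field_simp; ring
      rw [this, habc]
    · rw [map_mul, hα3, mul_comm]
    · have hI : In X v (-(a / b * α)) := by
        refine hα1.mono ?_
        rw [Valuation.map_neg, map_mul, map_mul]
        exact mul_le_mul_left htab _
      rw [map_mul, hI.val, mul_one]
  · rcases le_or_gt (v c) (v a) with h4 | h4
    · -- `v a` is maximal
      rcases le_total (v c) (v b) with h5 | h5
      · have hab : v a = v b := le_antisymm (hca.trans (max_le le_rfl h5)) hge
        obtain ⟨a', b', c', e0, e1, e2, e3⟩ := hunit b c hb0 hc habc hab h5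
        exact H a' b' c' e0 e1 e2 e3
      · have hac : v a = v c := le_antisymm (hca.trans (max_le h5 le_rfl)) h4
        obtain ⟨a', c', b', e0, e1, e2, e3⟩ := hunit c b hc hb0 (by rw [← habc]; ring) hac h5
        exact H a' b' c' (by rw [← e0]; ring) e1 e3 e2
    · -- `v b ≤ v a < v c`: impossible
      exact absurd (hcc.trans (max_le le_rfl hge)) (not_le.mpr h4)

end Main

end Dense

/-- A nonarchimedean absolute value with dense value group and a reduced character with open kernel: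
the character is tame. -/
theorem dense_stab {K A : Type} [Field K] [CommGroup A] [Finite A]
    (v : AbsoluteValue K ℝ) (hv : IsNonarchimedean v)
    (hd : ∀ a b : ℝ, 0 < a → a < b → ∃ x : K, a < v x ∧ v x < b)
    (X : K →*₀ WithZero A) {r : ℝ} (hr : 0 < r) (hX : ∀ x : K, v x < r → X (1 + x) = 1)
    (hR : RedExt K X) : ∀ x : K, v x < 1 → X (1 + x) = 1 := by
  intro x hx
  by_contra hXx
  -- the valuation
  set w : Valuation K NNReal :=
    { toFun := fun x => Real.toNNReal (v x)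
      map_zero' := by rw [map_zero, Real.toNNReal_zero]
      map_one' := by rw [map_one, Real.toNNReal_one]
      map_mul' := fun x y => by rw [map_mul, Real.toNNReal_mul (v.nonneg x)]
      map_add_le_max' := fun x y => by
        rw [← Monotone.map_max (f := Real.toNNReal) (fun _ _ h => Real.toNNReal_mono h)]
        exact Real.toNNReal_mono (hv x y) } with hw
  have hwv : ∀ y, (w y : ℝ) = v y := fun y => Real.coe_toNNReal _ (v.nonneg y)
  have hlt : ∀ y z, w y < w z ↔ v y < v z := fun y z => by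
    rw [← NNReal.coe_lt_coe, hwv, hwv]
  have hle : ∀ y z, w y ≤ w z ↔ v y ≤ v z := fun y z => by
    rw [← NNReal.coe_le_coe, hwv, hwv]
  have hlt1 : ∀ y, w y < 1 ↔ v y < 1 := fun y => by
    rw [← NNReal.coe_lt_coe, hwv, NNReal.coe_one]
  have : Finite (WithZero A) := inferInstanceAs (Finite (Option A))
  obtain ⟨b, hb1, hb2⟩ := hd (r / 2) r (by positivity) (by linarith)
  have hb0 : b ≠ 0 := by
    rintro rfl
    rw [map_zero] at hb1
    linarith
  refine Dense.not_redExt (X := X) (v := w) (b := b) (w := x) ?_ ?_ hb0 ?_ ((hlt1 x).mpr hx) ?_ hR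
  · intro y z hy hz
    have hz' : 0 < v z := by
      have := v.nonneg z
      exact lt_of_le_of_ne this (fun h => hz ((map_eq_zero v).mp h.symm))
    obtain ⟨n, hn⟩ := exists_pow_lt_of_lt_one hz' ((hlt1 y).mp hy)
    refine ⟨n, ?_⟩
    rw [← map_pow, hle, map_pow]
    exact hn.le
  · intro y hy
    rw [hlt1] at hy
    have hy0 := v.nonneg y
    obtain ⟨z, hz1, hz2⟩ := hd ((v y + 1) / 2) 1 (by linarith) (by linarith)
    exact ⟨z, (hlt y z).mpr (by linarith), (hlt1 z).mpr hz2⟩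
  · intro y hy
    rw [hle] at hy
    exact hX y (hy.trans_lt hb2)
  · intro h
    exact hXx h.val

end HypQ
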