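import Pool.Agent.Lib.MP_9f0b3e_al.Defs
import Pool.Agent.Lib.MP_9f0b3e_al.Pair

/-!
# Small lemmas on derivations: restriction to the prime ring, tame extension by a subgroup,
fraction fields
-/

set_option autoImplicit false

namespace HypQ

section prime

variable {P A : Type*} [CommRing P] [CommGroup A]

/-- every character has a restriction to the units of the prime ring. -/
theorem exists_primeRes (c : ℕ) (χ : P →*₀ WithZero A) : ∃ α : (ZMod c)ˣ →* A, IsPrimeRes c χ α := by
  classical
  by_cases h : Nonempty (ZMod c →+* P)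
  · obtain ⟨j⟩ := h
    refine ⟨(WithZero.unitsWithZeroEquiv : (WithZero A)ˣ ≃* A).toMonoidHom.comp
      (Units.map ((χ : P →* WithZero A).comp j.toMonoidHom)), ?_⟩
    intro j' u
    have : j' = j := Subsingleton.elim _ _
    subst this
    simp
  · exact ⟨1, fun j => absurd ⟨j⟩ h⟩

theorem primeRes_unique {c : ℕ} {χ : P →*₀ WithZero A} {α β : (ZMod c)ˣ →* A} (j : ZMod c →+* P)
    (hα : IsPrimeRes c χ α) (hβ : IsPrimeRes c χ β) : α = β := by
  ext u
  have h1 := hα j u
  rw [hβ j u] at h1
  exact (by exact_mod_cast h1 : β u = α u).symm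

theorem primeRes_neg_one {c : ℕ} {χ : P →*₀ WithZero A} {α : (ZMod c)ˣ →* A} (j : ZMod c →+* P)
    (hα : IsPrimeRes c χ α) : χ (-1) = (α (-1) : WithZero A) := by
  have := hα j (-1)
  simpa using this

end prime

section tame

variable {A : Type} [CommGroup A]

theorem tameSet_mono {ε : A} {H H' : Subgroup A} (h : H ≤ H') : tameSet ε H ⊆ tameSet ε H' := by
  rintro p ⟨y, hy, hp⟩
  exact ⟨y, h hy, hp⟩

/-- the tame rule for a finitely generated enlargement of the image. -/
theorem Der.tame_closure {c : ℕ} {α : (ZMod c)ˣ →* A} {H : Subgroup A} {N : Set (A × A)}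
    (h : Der c A α H N) (S : Finset A) :
    Der c A α (H ⊔ Subgroup.closure (S : Set A))
      (N ∪ tameSet (α (-1)) (H ⊔ Subgroup.closure (S : Set A))) := by
  classical
  induction S using Finset.induction_on with
  | empty =>
    have := Der.tame c A α H N 1 h
    simpa using this
  | insert g S _ ih =>
    have := Der.tame c A α _ _ g ih
    have e1 : H ⊔ Subgroup.closure (S : Set A) ⊔ Subgroup.zpowers g
        = H ⊔ Subgroup.closure ((insert g S : Finset A) : Set A) := by
      rw [Finset.coe_insert, Set.insert_eq, Subgroup.closure_union, Subgroup.zpowers_eq_closure,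
        sup_assoc, sup_comm (Subgroup.closure (S : Set A))]
    rw [e1] at this
    have e2 : N ∪ tameSet (α (-1)) (H ⊔ Subgroup.closure (S : Set A)) ∪
        tameSet (α (-1)) (H ⊔ Subgroup.closure ((insert g S : Finset A) : Set A))
        = N ∪ tameSet (α (-1)) (H ⊔ Subgroup.closure ((insert g S : Finset A) : Set A)) := by
      rw [Set.union_assoc, Set.union_eq_self_of_subset_left (tameSet_mono ?_)]
      rw [← e1]
      exact le_sup_left
    rw [e2] at this
    exact this

/-- the tame rule for a larger image. -/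
theorem Der.tame_le [Finite A] {c : ℕ} {α : (ZMod c)ˣ →* A} {H H' : Subgroup A}
    {N : Set (A × A)} (h : Der c A α H N) (hle : H ≤ H') :
    Der c A α H' (N ∪ tameSet (α (-1)) H') := by
  classical
  have := Fintype.ofFinite A
  have h1 := h.tame_closure (Finset.univ.filter (· ∈ H'))
  have e1 : H ⊔ Subgroup.closure ((Finset.univ.filter (· ∈ H') : Finset A) : Set A) = H' := by
    have : ((Finset.univ.filter (· ∈ H') : Finset A) : Set A) = (H' : Set A) := by
      ext x; simp
    rw [this, Subgroup.closure_eq, sup_eq_right]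
    exact hle
  rwa [e1] at h1

end tame

section frac

variable {P K A : Type*} [CommRing P] [Field K] [Algebra P K] [IsFractionRing P K]
  [CommGroup A]

/-- the pair set of a character of a field, from a subring with the same fraction field -/
theorem NN_frac (χ : K →*₀ WithZero A) (ψ : P →*₀ WithZero A)
    (h : ∀ a : P, ψ a = χ (algebraMap P K a)) : NN ψ = NN χ := by
  have hinj : Function.Injective (algebraMap P K) := IsFractionRing.injective P K
  ext ⟨x, y⟩
  rw [mem_NN_field]
  constructor
  · rintro ⟨a, b, c, hc, habc, h1, h2⟩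
    simp only at h1 h2
    have hc' : algebraMap P K c ≠ 0 := by
      rwa [Ne, map_eq_zero_iff _ hinj]
    have hcc : χ (algebraMap P K c) ≠ 0 := char_ne_zero χ hc'
    refine ⟨algebraMap P K a / algebraMap P K c, algebraMap P K b / algebraMap P K c, ?_, ?_, ?_⟩
    · rw [← add_div, ← map_add, habc, div_self hc']
    · rw [map_div₀, ← h, h1, h, mul_div_cancel_right₀ _ hcc]
    · rw [map_div₀, ← h, h2, h, mul_div_cancel_right₀ _ hcc]
  · rintro ⟨a, b, hab, h1, h2⟩
    obtain ⟨u, v, hv, rfl⟩ := IsFractionRing.div_surjective (A := P) a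
    have hv0 : algebraMap P K v ≠ 0 := by
      have : Nontrivial P := (algebraMap P K).domain_nontrivial
      rw [Ne, map_eq_zero_iff _ hinj]
      exact nonZeroDivisors.ne_zero hv
    have hb : b = algebraMap P K (v - u) / algebraMap P K v := by
      rw [map_sub, sub_div, div_self hv0]
      linear_combination hab
    have hvv : χ (algebraMap P K v) ≠ 0 := char_ne_zero χ hv0
    refine ⟨u, v - u, v, ?_, by ring, ?_, ?_⟩
    · intro hv'
      exact hv0 (by rw [hv', map_zero])
    · simp only
      rw [h, h, ← h1, map_div₀, div_mul_cancel₀ _ hvv]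
    · simp only
      rw [h, h, ← h2, hb, map_div₀, div_mul_cancel₀ _ hvv]

theorem HH_frac (χ : K →*₀ WithZero A) (ψ : P →*₀ WithZero A)
    (h : ∀ a : P, ψ a = χ (algebraMap P K a)) : HH ψ = HH χ := by
  have hinj : Function.Injective (algebraMap P K) := IsFractionRing.injective P K
  apply le_antisymm
  · unfold HH
    rw [Subgroup.closure_le]
    rintro x ⟨a, ha⟩
    exact Subgroup.subset_closure ⟨algebraMap P K a, by rw [← h, ha]⟩
  · intro x hx
    obtain ⟨a, ha⟩ := (mem_HH_field χ x).mp hx
    obtain ⟨u, v, hv, rfl⟩ := IsFractionRing.div_surjective (A := P) a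
    have hne := ne_zero_of_coe χ ha
    rw [div_ne_zero_iff] at hne
    obtain ⟨y, hy⟩ := exists_coe χ hne.1
    obtain ⟨z, hz⟩ := exists_coe χ hne.2
    have hx' : x = y * z⁻¹ := by
      rw [map_div₀, hy, hz, div_eq_mul_inv] at ha
      exact (by exact_mod_cast ha.symm)
    rw [hx']
    unfold HH
    refine Subgroup.mul_mem _ (Subgroup.subset_closure ⟨u, ?_⟩)
      (Subgroup.inv_mem _ (Subgroup.subset_closure ⟨v, ?_⟩))
    · rw [h, hy]
    · rw [h, hz]

end frac

end HypQ
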