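import Mathlib
import Pool.Agent.Lib.MP_9f0b3e_al.Defs
import Pool.Agent.Lib.MP_9f0b3e_al.Pair
import Pool.Agent.Lib.MP_9f0b3e_al.ChainLift

/-! # MP_9f0b3e_al (S02499), module DVRF (helper14): characters of a discrete valuation ring,
the rule `fin`, and the certificate of a discrete place with finite residue field. -/

set_option autoImplicit false

namespace HypQ

section Dvr

variable {O : Type*} [CommRing O] [IsDomain O] [IsDiscreteValuationRing O] {π : O}
variable {A : Type*} [CommGroup A]

theorem dvr_decomp (hπ : Irreducible π) {a : O} (ha : a ≠ 0) :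
    ∃ p : ℕ × Oˣ, a = p.2 * π ^ p.1 := by
  obtain ⟨n, u, h⟩ := IsDiscreteValuationRing.eq_unit_mul_pow_irreducible ha hπ
  exact ⟨(n, u), h⟩

theorem dvr_decomp_unique (hπ : Irreducible π) {m n : ℕ} {u v : Oˣ}
    (h : (u : O) * π ^ m = v * π ^ n) : m = n ∧ u = v :=
  ⟨IsDiscreteValuationRing.unit_mul_pow_congr_pow hπ hπ u v m n h,
    IsDiscreteValuationRing.unit_mul_pow_congr_unit hπ u v m n h⟩

open Classical in
/-- value of the character with `X` on units and `g` at `π`. -/
noncomputable def dvrFun (π : O) (X : Oˣ →* A) (g : A) (a : O) : WithZero A :=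
  if h : ∃ p : ℕ × Oˣ, a = p.2 * π ^ p.1 then
    ((g ^ (Classical.choose h).1 * X (Classical.choose h).2 : A) : WithZero A) else 0

theorem dvrFun_unit_mul_pow (hπ : Irreducible π) (X : Oˣ →* A) (g : A) (n : ℕ) (u : Oˣ) :
    dvrFun π X g (u * π ^ n) = ((g ^ n * X u : A) : WithZero A) := by
  have h : ∃ p : ℕ × Oˣ, (u : O) * π ^ n = p.2 * π ^ p.1 := ⟨(n, u), rfl⟩
  unfold dvrFun
  rw [dif_pos h]
  have hs := Classical.choose_spec h
  obtain ⟨h1, h2⟩ := dvr_decomp_unique hπ hs
  rw [← h1, ← h2]

theorem dvrFun_zero (hπ : Irreducible π) (X : Oˣ →* A) (g : A) : dvrFun π X g 0 = 0 := by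
  unfold dvrFun
  rw [dif_neg]
  rintro ⟨p, hp⟩
  have : (p.2 : O) * π ^ p.1 ≠ 0 := mul_ne_zero p.2.ne_zero (pow_ne_zero _ hπ.ne_zero)
  exact this hp.symm

/-- the character with `X` on units and `g` at `π`. -/
noncomputable def dvrChar (hπ : Irreducible π) (X : Oˣ →* A) (g : A) : O →*₀ WithZero A where
  toFun := dvrFun π X g
  map_zero' := dvrFun_zero hπ X g
  map_one' := by
    have := dvrFun_unit_mul_pow hπ X g 0 1
    simpa using this
  map_mul' := by
    intro a b
    by_cases ha : a = 0
    · simp [ha, dvrFun_zero hπ]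
    by_cases hb : b = 0
    · simp [hb, dvrFun_zero hπ]
    obtain ⟨⟨m, u⟩, rfl⟩ := dvr_decomp hπ ha
    obtain ⟨⟨n, v⟩, rfl⟩ := dvr_decomp hπ hb
    simp only
    have : (u : O) * π ^ m * (v * π ^ n) = ((u * v : Oˣ) : O) * π ^ (m + n) := by
      push_cast; ring
    rw [this, dvrFun_unit_mul_pow hπ, dvrFun_unit_mul_pow hπ, dvrFun_unit_mul_pow hπ]
    norm_cast
    rw [map_mul, pow_add]
    exact mul_mul_mul_comm _ _ _ _

theorem dvrChar_apply (hπ : Irreducible π) (X : Oˣ →* A) (g : A) (n : ℕ) (u : Oˣ) :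
    dvrChar hπ X g (u * π ^ n) = ((g ^ n * X u : A) : WithZero A) :=
  dvrFun_unit_mul_pow hπ X g n u

/-- the pair set of a character of a DVR. -/
theorem NN_dvr (hπ : Irreducible π) (ψ : O →*₀ WithZero A) (X : Oˣ →* A) (g : A)
    (hX : ∀ u : Oˣ, ψ u = X u) (hg : ψ π = g) : NN ψ = NR π X g := by
  have hval : ∀ (n : ℕ) (u : Oˣ), ψ (u * π ^ n) = ((g ^ n * X u : A) : WithZero A) := by
    intro n u
    rw [map_mul, map_pow, hX, hg, mul_comm]; norm_cast
  have hX1 : X (-1) * X (-1) = 1 := by rw [← map_mul]; simp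
  have hunit : ∀ (n : ℕ) (w : O), 1 ≤ n → ∃ v : Oˣ, (v : O) = 1 - π ^ n * w := by
    intro n w hn
    have : IsUnit (1 - π ^ n * w) := by
      by_contra hcon
      have h1 : (1 - π ^ n * w) ∈ IsLocalRing.maximalIdeal O :=
        (IsLocalRing.mem_maximalIdeal _).2 hcon
      have h2 : π ^ n * w ∈ IsLocalRing.maximalIdeal O := by
        have : π ∈ IsLocalRing.maximalIdeal O := (IsLocalRing.mem_maximalIdeal _).2 hπ.not_isUnit
        exact Ideal.mul_mem_right _ _ (Ideal.pow_mem_of_mem _ this n (by omega))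
      have h3 : (1 : O) ∈ IsLocalRing.maximalIdeal O := by
        have := Ideal.add_mem _ h1 h2
        rwa [sub_add_cancel] at this
      exact (IsLocalRing.mem_maximalIdeal _).1 h3 isUnit_one
    obtain ⟨v, hv⟩ := this
    exact ⟨v, hv⟩
  ext ⟨x, y⟩
  constructor
  · rintro ⟨a, b, c, hc, habc, h1, h2⟩
    simp only at h1 h2
    have ha : a ≠ 0 := by
      rintro rfl
      rw [map_zero] at h1
      obtain ⟨⟨k, u⟩, rfl⟩ := dvr_decomp hπ hc
      rw [hval] at h1
      have : ((x * (g ^ k * X u) : A) : WithZero A) = 0 := by rw [WithZero.coe_mul]; exact h1.symm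
      exact WithZero.coe_ne_zero this
    have hb : b ≠ 0 := by
      rintro rfl
      rw [map_zero] at h2
      obtain ⟨⟨k, u⟩, rfl⟩ := dvr_decomp hπ hc
      rw [hval] at h2
      have : ((y * (g ^ k * X u) : A) : WithZero A) = 0 := by rw [WithZero.coe_mul]; exact h2.symm
      exact WithZero.coe_ne_zero this
    obtain ⟨⟨i, u⟩, rfl⟩ := dvr_decomp hπ ha
    obtain ⟨⟨j, v⟩, rfl⟩ := dvr_decomp hπ hb
    obtain ⟨⟨k, w⟩, rfl⟩ := dvr_decomp hπ hc
    simp only at *
    rw [hval, hval] at h1 h2
    have h1' : g ^ i * X u = x * (g ^ k * X w) := by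
      rw [← WithZero.coe_mul] at h1; exact WithZero.coe_inj.1 h1
    have h2' : g ^ j * X v = y * (g ^ k * X w) := by
      rw [← WithZero.coe_mul] at h2; exact WithZero.coe_inj.1 h2
    rcases lt_trichotomy i j with hij | hij | hij
    · -- b small
      obtain ⟨d, rfl⟩ := Nat.exists_eq_add_of_lt hij
      obtain ⟨s, hs⟩ := hunit (d + 1) (-(v * u⁻¹ : Oˣ)) (by omega)
      have e1 : ((u * s : Oˣ) : O) * π ^ i = w * π ^ k := by
        rw [← habc]
        push_cast
        rw [hs]
        push_cast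
        have hu : (u : O) * (u⁻¹ : Oˣ) = 1 := u.mul_inv
        have : π ^ (i + d + 1) = π ^ i * π ^ (d + 1) := by rw [← pow_add]; rfl
        rw [this]
        linear_combination (π ^ (d + 1) * v * π ^ i) * hu
      obtain ⟨rfl, rfl⟩ := dvr_decomp_unique hπ e1
      right
      -- b / c = π^(d+1) * (v / (u s)), a / c = 1 / s
      obtain ⟨s', hs'⟩ := hunit (d + 1) ((v * (u * s)⁻¹ : Oˣ) : O) (by omega)
      have e2 : s' = s⁻¹ := by
        have h3 : (s' : O) * s = 1 := by
          rw [hs']
          have hus : ((u * s : Oˣ) : O) * ((u * s)⁻¹ : Oˣ) = 1 := (u * s).mul_inv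
          have hu : (u : O) * (u⁻¹ : Oˣ) = 1 := u.mul_inv
          have hss : (s : O) * ((s⁻¹ : Oˣ) : O) = 1 := s.mul_inv
          have h4 : ((v * (u * s)⁻¹ : Oˣ) : O) * s = v * (u⁻¹ : Oˣ) := by
            rw [mul_inv]
            push_cast
            linear_combination ((v : O) * (u⁻¹ : Oˣ)) * hss
          have h5 : (s : O) = 1 + π ^ (d + 1) * (v * (u⁻¹ : Oˣ)) := by
            rw [hs]; push_cast; ring
          linear_combination h5 - π ^ (d + 1) * h4
        have : s' * s = 1 := by ext; simpa using h3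
        exact eq_inv_of_mul_eq_one_left this
      refine ⟨y, x, ?_, Or.inr (Or.inl rfl)⟩
      refine ⟨d + 1, v * (u * s)⁻¹, s', by omega, hs', ?_⟩
      simp only [Prod.mk.injEq]
      constructor
      · rw [map_mul, map_inv]
        have h6 : g ^ (i + d + 1) = g ^ i * g ^ (d + 1) := by rw [← pow_add]; rfl
        rw [h6] at h2'
        rw [← mul_assoc, eq_mul_inv_iff_mul_eq]
        have h7 : g ^ i * (y * X (u * s)) = g ^ i * (g ^ (d + 1) * X v) := by
          rw [← mul_assoc (g ^ i) (g ^ (d + 1)), h2']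
          exact mul_left_comm _ _ _
        exact mul_left_cancel h7
      · rw [e2, map_inv, eq_inv_iff_mul_eq_one]
        rw [map_mul] at h1'
        have h7 : (g ^ i * X u) * (x * X s) = (g ^ i * X u) * 1 := by
          rw [mul_one]
          conv_rhs => rw [h1']
          simp only [mul_assoc, mul_left_comm, mul_comm]
        exact mul_left_cancel h7
    · subst hij
      -- u + v = π^m * w
      have e1 : π ^ i * ((u : O) + v) = w * π ^ k := by rw [← habc]; ring
      rcases lt_trichotomy i k with hik | hik | hik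
      · -- c small
        obtain ⟨d, rfl⟩ := Nat.exists_eq_add_of_lt hik
        have e2 : (u : O) + v = π ^ (d + 1) * w := by
          have h3 : π ^ i * ((u : O) + v) = π ^ i * (π ^ (d + 1) * w) := by
            rw [e1]
            have : π ^ (i + d + 1) = π ^ i * π ^ (d + 1) := by rw [← pow_add]; rfl
            rw [this]; ring
          exact mul_left_cancel₀ (pow_ne_zero _ hπ.ne_zero) h3
        have hv : ((-1 * (v * u⁻¹) : Oˣ) : O) = 1 - π ^ (d + 1) * ((w * u⁻¹ : Oˣ) : O) := by
          push_cast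
          have hu : (u : O) * (u⁻¹ : Oˣ) = 1 := u.mul_inv
          linear_combination (-((u⁻¹ : Oˣ) : O)) * e2 + hu
        right
        refine ⟨x⁻¹, X (-1) * y * x⁻¹, ?_, Or.inr (Or.inr ?_)⟩
        · refine ⟨d + 1, w * u⁻¹, -1 * (v * u⁻¹), by omega, hv, ?_⟩
          have h6 : g ^ (i + d + 1) = g ^ i * g ^ (d + 1) := by rw [← pow_add]; rfl
          rw [h6] at h1' h2'
          have h8 : x⁻¹ = g ^ (d + 1) * X (w * u⁻¹) := by
            rw [map_mul, map_inv, ← mul_assoc, eq_mul_inv_iff_mul_eq, inv_mul_eq_iff_eq_mul]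
            have h7 : g ^ i * X u = g ^ i * (x * (g ^ (d + 1) * X w)) := by
              rw [h1']
              simp only [mul_assoc, mul_left_comm, mul_comm]
            exact mul_left_cancel h7
          have h9 : y * x⁻¹ = X (v * u⁻¹) := by
            rw [map_mul, map_inv, eq_mul_inv_iff_mul_eq, mul_assoc, mul_comm, mul_assoc,
              inv_mul_eq_iff_eq_mul]
            have h7 : (g ^ i * g ^ (d + 1) * X w) * (g ^ i * (X u * y))
                = (g ^ i * g ^ (d + 1) * X w) * (g ^ i * (x * X v)) := by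
              have e3 : g ^ i * (X u * y) = (g ^ i * X u) * y := by rw [mul_assoc]
              have e4 : g ^ i * (x * X v) = x * (g ^ i * X v) := mul_left_comm _ _ _
              rw [e3, e4, h1', h2']
              simp only [mul_assoc, mul_left_comm, mul_comm]
            exact mul_left_cancel (mul_left_cancel h7)
          rw [← h8, map_mul, ← h9, mul_assoc]
        · rw [inv_inv]
          simp only [Prod.mk.injEq, true_and]
          rw [mul_assoc, mul_assoc, mul_assoc, inv_mul_cancel, mul_one, ← mul_assoc, hX1, one_mul]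
      · subst hik
        have e2 : (u : O) + v = w := by
          have h3 : π ^ i * ((u : O) + v) = π ^ i * w := by rw [e1]; ring
          exact mul_left_cancel₀ (pow_ne_zero _ hπ.ne_zero) h3
        left
        refine ⟨u * w⁻¹, v * w⁻¹, ?_, ?_⟩
        · push_cast
          rw [← add_mul, e2]; exact w.mul_inv
        · simp only [Prod.mk.injEq, map_mul, map_inv]
          constructor
          · rw [eq_mul_inv_iff_mul_eq]
            have h7 : g ^ i * (x * X w) = g ^ i * X u := by rw [h1']; exact mul_left_comm _ _ _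
            exact mul_left_cancel h7
          · rw [eq_mul_inv_iff_mul_eq]
            have h7 : g ^ i * (y * X w) = g ^ i * X v := by rw [h2']; exact mul_left_comm _ _ _
            exact mul_left_cancel h7
      · exfalso
        obtain ⟨d, rfl⟩ := Nat.exists_eq_add_of_lt hik
        have h3 : π ^ k * (π ^ (d + 1) * ((u : O) + v)) = π ^ k * w := by
          have : π ^ (k + d + 1) = π ^ k * π ^ (d + 1) := by rw [← pow_add]; rfl
          rw [this] at e1
          linear_combination e1
        have h4 := mul_left_cancel₀ (pow_ne_zero _ hπ.ne_zero) h3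
        have h5 : π ∣ (w : O) := by
          rw [← h4, pow_succ', mul_assoc]; exact Dvd.intro _ rfl
        exact hπ.not_isUnit (isUnit_of_dvd_unit h5 w.isUnit)
    · -- a small
      obtain ⟨d, rfl⟩ := Nat.exists_eq_add_of_lt hij
      obtain ⟨s, hs⟩ := hunit (d + 1) (-(u * v⁻¹ : Oˣ)) (by omega)
      have e1 : ((v * s : Oˣ) : O) * π ^ j = w * π ^ k := by
        rw [← habc]
        push_cast
        rw [hs]
        push_cast
        have hv : (v : O) * (v⁻¹ : Oˣ) = 1 := v.mul_inv
        have : π ^ (j + d + 1) = π ^ j * π ^ (d + 1) := by rw [← pow_add]; rfl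
        rw [this]
        linear_combination (π ^ (d + 1) * u * π ^ j) * hv
      obtain ⟨rfl, rfl⟩ := dvr_decomp_unique hπ e1
      right
      obtain ⟨s', hs'⟩ := hunit (d + 1) ((u * (v * s)⁻¹ : Oˣ) : O) (by omega)
      have e2 : s' = s⁻¹ := by
        have h3 : (s' : O) * s = 1 := by
          rw [hs']
          have hss : (s : O) * ((s⁻¹ : Oˣ) : O) = 1 := s.mul_inv
          have h4 : ((u * (v * s)⁻¹ : Oˣ) : O) * s = u * (v⁻¹ : Oˣ) := by
            rw [mul_inv]
            push_cast
            linear_combination ((u : O) * (v⁻¹ : Oˣ)) * hss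
          have h5 : (s : O) = 1 + π ^ (d + 1) * (u * (v⁻¹ : Oˣ)) := by
            rw [hs]; push_cast; ring
          linear_combination h5 - π ^ (d + 1) * h4
        have : s' * s = 1 := by ext; simpa using h3
        exact eq_inv_of_mul_eq_one_left this
      refine ⟨x, y, ?_, Or.inl rfl⟩
      refine ⟨d + 1, u * (v * s)⁻¹, s', by omega, hs', ?_⟩
      simp only [Prod.mk.injEq]
      constructor
      · rw [map_mul, map_inv]
        have h6 : g ^ (j + d + 1) = g ^ j * g ^ (d + 1) := by rw [← pow_add]; rfl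
        rw [h6] at h1'
        rw [← mul_assoc, eq_mul_inv_iff_mul_eq]
        have h7 : g ^ j * (x * X (v * s)) = g ^ j * (g ^ (d + 1) * X u) := by
          rw [← mul_assoc (g ^ j) (g ^ (d + 1)), h1']
          exact mul_left_comm _ _ _
        exact mul_left_cancel h7
      · rw [e2, map_inv, eq_inv_iff_mul_eq_one]
        rw [map_mul] at h2'
        have h7 : (g ^ j * X v) * (y * X s) = (g ^ j * X v) * 1 := by
          rw [mul_one]
          conv_rhs => rw [h2']
          simp only [mul_assoc, mul_left_comm, mul_comm]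
        exact mul_left_cancel h7
  · have hm1 : ψ (-1) = X (-1) := by
      have := hX (-1)
      simpa using this
    rintro (⟨t, s, hts, hp⟩ | ⟨y', b', ⟨n, w, v, hn, hv, hyb⟩, hp⟩)
    · simp only [Prod.mk.injEq] at hp
      obtain ⟨rfl, rfl⟩ := hp
      exact ⟨t, s, 1, one_ne_zero, hts, by simp [hX], by simp [hX]⟩
    · simp only [Prod.mk.injEq] at hyb
      obtain ⟨rfl, rfl⟩ := hyb
      have hw := hval n w
      rcases hp with hp | hp | hp
      · simp only [Prod.mk.injEq] at hp
        obtain ⟨rfl, rfl⟩ := hp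
        exact ⟨w * π ^ n, v, 1, one_ne_zero, by rw [hv]; ring, by simp [hw], by simp [hX]⟩
      · simp only [Prod.mk.injEq] at hp
        obtain ⟨rfl, rfl⟩ := hp
        exact ⟨v, w * π ^ n, 1, one_ne_zero, by rw [hv]; ring, by simp [hX], by simp [hw]⟩
      · simp only [Prod.mk.injEq] at hp
        obtain ⟨rfl, rfl⟩ := hp
        refine ⟨1, -v, w * π ^ n, mul_ne_zero w.ne_zero (pow_ne_zero _ hπ.ne_zero),
          by rw [hv]; ring, ?_, ?_⟩
        · rw [map_one, hw]
          norm_cast
          simp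
        · have : ψ (-(v : O)) = ((X (-1) * X v : A) : WithZero A) := by
            have h5 : (-(v : O)) = (-1) * v := by ring
            rw [h5, map_mul, hm1, hX]; norm_cast
          rw [this, hw]
          norm_cast
          exact (inv_mul_cancel_right _ _).symm

theorem HH_dvr (hπ : Irreducible π) (ψ : O →*₀ WithZero A) (X : Oˣ →* A) (g : A)
    (hX : ∀ u : Oˣ, ψ u = X u) (hg : ψ π = g) : HH ψ = X.range ⊔ Subgroup.zpowers g := by
  apply le_antisymm
  · unfold HH
    rw [Subgroup.closure_le]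
    rintro h ⟨a, ha⟩
    have ha0 : a ≠ 0 := by
      rintro rfl
      rw [map_zero] at ha
      exact WithZero.coe_ne_zero ha.symm
    obtain ⟨⟨n, u⟩, rfl⟩ := dvr_decomp hπ ha0
    simp only at ha
    rw [map_mul, map_pow, hX, hg] at ha
    have : X u * g ^ n = h := by exact_mod_cast ha
    rw [← this]
    exact Subgroup.mul_mem_sup ⟨u, rfl⟩ (Subgroup.pow_mem _ (Subgroup.mem_zpowers g) n)
  · rw [sup_le_iff]
    constructor
    · rintro _ ⟨u, rfl⟩
      exact Subgroup.subset_closure ⟨u, hX u⟩
    · rw [Subgroup.zpowers_le]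
      exact Subgroup.subset_closure ⟨π, hg⟩

end Dvr

/-- the character of a DVR given by `X` on units and `g` on the uniformiser. -/
theorem dvr_formula {O : Type} [CommRing O] [IsDomain O] [IsDiscreteValuationRing O] {π : O}
    (hπ : Irreducible π) {A : Type} [CommGroup A] (X : Oˣ →* A) (g : A) :
    ∃ ψ : O →*₀ WithZero A, NV ψ ∧ (∀ u : Oˣ, ψ u = X u) ∧ ψ π = g ∧ NN ψ = NR π X g ∧
      HH ψ = X.range ⊔ Subgroup.zpowers g := by
  have h1 : ∀ u : Oˣ, dvrChar hπ X g u = X u := by
    intro u
    have := dvrChar_apply hπ X g 0 u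
    simpa using this
  have h2 : dvrChar hπ X g π = g := by
    have := dvrChar_apply hπ X g 1 1
    simpa using this
  refine ⟨dvrChar hπ X g, ?_, h1, h2, NN_dvr hπ _ X g h1 h2, HH_dvr hπ _ X g h1 h2⟩
  intro a ha
  obtain ⟨⟨n, u⟩, rfl⟩ := dvr_decomp hπ ha
  simp only
  rw [dvrChar_apply]
  exact WithZero.coe_ne_zero

/-- the pair set only depends on a quotient through which the character factors. -/
theorem NR_eq_of_surj {O R A : Type*} [CommRing O] [CommRing R] [CommGroup A] {π : O} {π' : R}
    (f : O →+* R) (hf : Function.Surjective f) (hfπ : f π = π')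
    (hfu : ∀ x : O, IsUnit x ↔ IsUnit (f x)) (X : Oˣ →* A) (X' : Rˣ →* A)
    (hX : ∀ u : Oˣ, X u = X' (Units.map f.toMonoidHom u)) (g : A) :
    NR π X g = NR π' X' g := by
  have hlift : ∀ (x : O) (u : Rˣ), f x = u → ∃ u' : Oˣ, (u' : O) = x ∧
      Units.map f.toMonoidHom u' = u := by
    intro x u hxu
    have : IsUnit x := (hfu x).2 (by rw [hxu]; exact u.isUnit)
    obtain ⟨u', rfl⟩ := this
    exact ⟨u', rfl, by ext; simpa using hxu⟩
  have hlift' : ∀ (u : Rˣ), ∃ u' : Oˣ, Units.map f.toMonoidHom u' = u := by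
    intro u
    obtain ⟨x, hx⟩ := hf u
    obtain ⟨u', -, h⟩ := hlift x u hx
    exact ⟨u', h⟩
  have hm1 : X (-1) = X' (-1) := by
    rw [hX]; congr 1; ext; simp
  have h1 : unitSet X = unitSet X' := by
    ext p
    constructor
    · rintro ⟨t, s, hts, rfl⟩
      refine ⟨Units.map f.toMonoidHom t, Units.map f.toMonoidHom s, ?_, by rw [← hX, ← hX]⟩
      have := congrArg f hts
      simpa using this
    · rintro ⟨t, s, hts, rfl⟩
      obtain ⟨t', rfl⟩ := hlift' t
      obtain ⟨s', hs', h⟩ := hlift (1 - t') s (by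
        rw [map_sub, map_one]
        have : f t' + (s : R) = 1 := by simpa using hts
        linear_combination -this)
      exact ⟨t', s', by rw [hs']; ring, by rw [hX, hX, h]⟩
  have h2 : smallSet π X g = smallSet π' X' g := by
    ext p
    constructor
    · rintro ⟨n, w, v, hn, hv, rfl⟩
      refine ⟨n, Units.map f.toMonoidHom w, Units.map f.toMonoidHom v, hn, ?_,
        by rw [← hX, ← hX]⟩
      have := congrArg f hv
      simpa [hfπ] using this
    · rintro ⟨n, w, v, hn, hv, rfl⟩
      obtain ⟨w', rfl⟩ := hlift' w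
      obtain ⟨v', hv', h⟩ := hlift (1 - π ^ n * w') v (by
        rw [hv, map_sub, map_one, map_mul, map_pow, hfπ]
        simp)
      exact ⟨n, w', v', hn, hv', by rw [hX, hX, h]⟩
  unfold NR
  rw [h1, h2, hm1]

/-- soundness of the rule `fin`. -/
theorem real_fin {c : ℕ} (hc : c = 0 ∨ c.Prime) {A : Type} [CommGroup A] [Finite A] {R : Type}
    [CommRing R] [Finite R] {π : R} (hR : IsChain R π) (j : ZMod c →+* R) (X : Rˣ →* A) (g : A) :
    Real c A (X.comp (Units.map j.toMonoidHom)) (X.range ⊔ Subgroup.zpowers g) (NR π X g) := by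
  obtain ⟨O, _, _, _, hcO, ϖ, f, hϖ, hfϖ, hf, hfu⟩ := chain_lift hc hR j
  obtain ⟨ψ, hNV, hψu, hψϖ, hNN, hHH⟩ :=
    dvr_formula hϖ (X.comp (Units.map f.toMonoidHom)) g
  obtain ⟨χ, hχ, hχN, hχH⟩ := frac_char ψ hNV
  have hinj : Function.Injective (algebraMap O (FractionRing O)) :=
    IsFractionRing.injective O (FractionRing O)
  have hcK : CharP (FractionRing O) c := charP_of_injective_ringHom hinj c
  have hinf : Infinite O := by
    by_contra hfin
    rw [not_infinite_iff_finite] at hfin
    exact IsDiscreteValuationRing.not_isField O (Finite.isField_of_domain O)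
  have hinfK : Infinite (FractionRing O) := Infinite.of_injective _ hinj
  refine ⟨FractionRing O, inferInstance, hcK, hinfK, χ, ?_, ?_, ?_⟩
  · rw [hχN, hNN]
    exact NR_eq_of_surj f hf hfϖ hfu _ _ (fun u => rfl) g
  · rw [hχH, hHH]
    congr 1
    apply le_antisymm
    · rintro _ ⟨u, rfl⟩
      exact ⟨_, rfl⟩
    · rintro _ ⟨u, rfl⟩
      obtain ⟨x, hx⟩ := hf u
      have : IsUnit x := (hfu x).2 (by rw [hx]; exact u.isUnit)
      obtain ⟨u', rfl⟩ := this
      exact ⟨u', by
        rw [MonoidHom.comp_apply]; congr 1; ext; simpa using hx⟩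
  · intro j' u
    have e1 : j' = (algebraMap O (FractionRing O)).comp (ZMod.castHom (dvd_refl c) O) :=
      RingHom.ext_zmod _ _
    have e2 : j = f.comp (ZMod.castHom (dvd_refl c) O) := RingHom.ext_zmod _ _
    rw [e1, RingHom.comp_apply, hχ]
    have e3 : (ZMod.castHom (dvd_refl c) O) (u : ZMod c)
        = (Units.map (ZMod.castHom (dvd_refl c) O).toMonoidHom u : Oˣ) := rfl
    rw [e3, hψu, MonoidHom.comp_apply, MonoidHom.comp_apply]
    congr 2
    ext
    rw [e2]
    simp

/-- the certificate of a discrete place with finite residue field. -/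
theorem fin_formula {O : Type} [CommRing O] [IsDomain O] [IsDiscreteValuationRing O]
    [Finite (IsLocalRing.ResidueField O)] {π : O} (hπ : Irreducible π) {A : Type} [CommGroup A]
    (X : Oˣ →* A) (g : A) (M : ℕ) (hM : ∀ u : Oˣ, π ^ M ∣ (u : O) - 1 → X u = 1) :
    ∃ (R : Type) (_ : CommRing R) (_ : Finite R) (π' : R) (_ : IsChain R π') (q : O →+* R)
      (X' : Rˣ →* A), Function.Surjective q ∧ q π = π' ∧
      (∀ u : Oˣ, X' (Units.map q.toMonoidHom u) = X u) ∧ NR π X g = NR π' X' g ∧
      X'.range = X.range := by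
  set I : Ideal O := IsLocalRing.maximalIdeal O ^ (M + 1) with hI
  have hmI : ∀ x : O, x ∈ I ↔ π ^ (M + 1) ∣ x := by
    intro x
    rw [hI, hπ.maximalIdeal_eq, Ideal.span_singleton_pow, Ideal.mem_span_singleton]
  have hfin : Finite (O ⧸ I) := by
    have : Finite (O ⧸ IsLocalRing.maximalIdeal O) :=
      inferInstanceAs (Finite (IsLocalRing.ResidueField O))
    exact Ideal.finite_quotient_pow (IsNoetherian.noetherian _) _
  let q : O →+* O ⧸ I := Ideal.Quotient.mk I
  have hq : Function.Surjective q := Ideal.Quotient.mk_surjective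
  have hnt : Nontrivial (O ⧸ I) := by
    rw [Ideal.Quotient.nontrivial_iff]
    intro h
    have h1 : (1 : O) ∈ I := h ▸ Submodule.mem_top
    rw [hmI] at h1
    exact hπ.not_isUnit (isUnit_of_dvd_one ((dvd_pow_self π (by omega)).trans h1))
  have hchain : IsChain (O ⧸ I) (q π) := by
    refine ⟨hnt, ⟨M + 1, ?_⟩, ?_⟩
    · rw [← map_pow]
      exact Ideal.Quotient.eq_zero_iff_mem.2 ((hmI _).2 dvd_rfl)
    · intro x
      obtain ⟨x, rfl⟩ := hq x
      by_cases hx : IsUnit x
      · left; exact hx.map q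
      · right
        have : x ∈ IsLocalRing.maximalIdeal O := (IsLocalRing.mem_maximalIdeal x).2 hx
        rw [hπ.maximalIdeal_eq, Ideal.mem_span_singleton] at this
        obtain ⟨y, rfl⟩ := this
        exact ⟨q y, map_mul q π y⟩
  have hqu : ∀ x : O, IsUnit x ↔ IsUnit (q x) := by
    intro x
    refine ⟨fun h => h.map q, fun h => ?_⟩
    by_contra hcon
    have : x ∈ IsLocalRing.maximalIdeal O := (IsLocalRing.mem_maximalIdeal x).2 hcon
    rw [hπ.maximalIdeal_eq, Ideal.mem_span_singleton] at this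
    obtain ⟨y, rfl⟩ := this
    rw [map_mul] at h
    exact hchain.not_isUnit_mul _ h
  have hus : Function.Surjective (Units.map q.toMonoidHom : Oˣ →* (O ⧸ I)ˣ) := by
    intro u
    obtain ⟨x, hx⟩ := hq u
    have : IsUnit x := (hqu x).2 (by rw [hx]; exact u.isUnit)
    obtain ⟨u', rfl⟩ := this
    exact ⟨u', by ext; simpa using hx⟩
  have hker : (Units.map q.toMonoidHom : Oˣ →* (O ⧸ I)ˣ).ker ≤ X.ker := by
    intro u hu
    rw [MonoidHom.mem_ker] at hu ⊢
    apply hM
    have h1 : q (u : O) = 1 := by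
      have := congrArg Units.val hu
      simpa using this
    have h2 : (u : O) - 1 ∈ I := by
      rw [← Ideal.Quotient.eq_zero_iff_mem]
      change q ((u : O) - 1) = 0
      rw [map_sub, h1, map_one, sub_self]
    rw [hmI] at h2
    exact (pow_dvd_pow π (by omega)).trans h2
  let X' : (O ⧸ I)ˣ →* A :=
    (Units.map q.toMonoidHom).liftOfSurjective hus ⟨X, hker⟩
  have hX' : ∀ u : Oˣ, X' (Units.map q.toMonoidHom u) = X u := by
    intro u
    exact MonoidHom.liftOfRightInverse_comp_apply _ _ _ _ u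
  refine ⟨O ⧸ I, inferInstance, hfin, q π, hchain, q, X', hq, rfl, hX', ?_, ?_⟩
  · exact NR_eq_of_surj q hq rfl hqu X X' (fun u => (hX' u).symm) g
  · apply le_antisymm
    · rintro _ ⟨u, rfl⟩
      obtain ⟨u', rfl⟩ := hus u
      exact ⟨u', (hX' u').symm⟩
    · rintro _ ⟨u, rfl⟩
      exact ⟨_, hX' u⟩

end HypQ
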