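import Pool.Agent.Lib.MP_9f0b3e_al.Dense

/-!
# MP_9f0b3e_al: rank one valuation rings: tame or discrete (helper62)
-/

set_option autoImplicit false

namespace HypQ

variable {K Γ : Type*} [Field K] [CommGroupWithZero Γ] [Finite Γ]

/-- a rank one valuation ring whose value group has a largest element `< 1` is discrete -/
theorem isDVR_of_max (O : ValuationSubring K) (hO : O ≠ ⊤)
    (hrank : ∀ x b : K, b ≠ 0 → O.valuation x < 1 → ∃ n : ℕ, O.valuation (x ^ n) < O.valuation b)
    {ϖ : K} (h1 : O.valuation ϖ < 1) (h2 : ∀ y, O.valuation y < 1 → O.valuation y ≤ O.valuation ϖ) :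
    IsDiscreteValuationRing O := by
  classical
  have hϖ0 : ϖ ≠ 0 := by
    rintro rfl
    apply hO
    ext x
    simp only [ValuationSubring.mem_top, iff_true]
    rw [← ValuationSubring.valuation_le_one_iff]
    by_contra h
    have hx0 : x ≠ 0 := by
      rintro rfl
      exact h (by simp)
    have h3 : O.valuation x⁻¹ < 1 := by
      rw [map_inv₀]
      exact inv_lt_one_of_one_lt₀ (not_le.mp h)
    have h4 := h2 _ h3
    rw [map_zero, le_zero_iff, map_eq_zero] at h4
    exact inv_ne_zero hx0 h4
  have hϖ0' : 0 < O.valuation ϖ := zero_lt_iff.mpr ((Valuation.ne_zero_iff _).mpr hϖ0)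
  have hϖO : ϖ ∈ O := (O.valuation_le_one_iff _).mp h1.le
  have hunit : ∀ x : O, IsUnit x ↔ O.valuation (x : K) = 1 := fun x =>
    O.valuation_eq_one_iff x
  refine IsDiscreteValuationRing.ofHasUnitMulPowIrreducibleFactorization
    ⟨⟨ϖ, hϖO⟩, ?_, ?_⟩
  · -- irreducible
    constructor
    · rw [hunit]
      exact h1.ne
    · intro a b hab
      rw [hunit, hunit]
      by_contra hcon
      push Not at hcon
      have ha : O.valuation (a : K) < 1 := lt_of_le_of_ne ((O.valuation_le_one_iff _).mpr a.2) hcon.1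
      have hb : O.valuation (b : K) < 1 := lt_of_le_of_ne ((O.valuation_le_one_iff _).mpr b.2) hcon.2
      have hab' : ϖ = (a : K) * b := by
        have := congrArg (Subtype.val) hab
        simpa using this
      have h3 : O.valuation ϖ < O.valuation ϖ := by
        calc O.valuation ϖ = O.valuation (a : K) * O.valuation (b : K) := by rw [← map_mul, ← hab']
          _ ≤ O.valuation ϖ * O.valuation (b : K) := mul_le_mul_left (h2 _ ha) _
          _ < O.valuation ϖ * 1 := (mul_lt_mul_iff_right₀ hϖ0').mpr hb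
          _ = O.valuation ϖ := mul_one _
      exact lt_irrefl _ h3
  · intro x hx
    have hx0 : (x : K) ≠ 0 := fun h => hx (Subtype.ext h)
    have hex : ∃ n : ℕ, O.valuation (ϖ ^ n) < O.valuation (x : K) := hrank ϖ x hx0 h1
    set n := Nat.find hex with hn
    have h3 := Nat.find_spec hex
    rw [← hn] at h3
    have hn0 : n ≠ 0 := by
      intro h0
      rw [h0, pow_zero, map_one] at h3
      exact absurd ((O.valuation_le_one_iff _).mpr x.2) (not_le.mpr h3)
    obtain ⟨k, hk⟩ := Nat.exists_eq_succ_of_ne_zero hn0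
    have h4 : O.valuation (x : K) ≤ O.valuation (ϖ ^ k) :=
      not_lt.mp (Nat.find_min hex (by omega))
    have hk0 : 0 < O.valuation (ϖ ^ k) := by rw [map_pow]; exact pow_pos hϖ0' _
    -- the quotient
    have hq : O.valuation ((x : K) / ϖ ^ k) = 1 := by
      apply le_antisymm
      · rw [map_div₀]; exact div_le_one_of_le₀ h4 zero_le
      · by_contra h
        have h5 := h2 _ (not_le.mp h)
        rw [map_div₀, div_le_iff₀ hk0, ← map_mul, ← pow_succ', ← Nat.succ_eq_add_one, ← hk] at h5
        exact absurd h5 (not_le.mpr h3)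
    have hqO : (x : K) / ϖ ^ k ∈ O := (O.valuation_le_one_iff _).mp hq.le
    have hqU : IsUnit (⟨(x : K) / ϖ ^ k, hqO⟩ : O) := (hunit _).mpr hq
    obtain ⟨u, hu⟩ := hqU
    refine ⟨k, u, ?_⟩
    apply Subtype.ext
    have : ((u : O) : K) = (x : K) / ϖ ^ k := by rw [hu]
    simp only [MulMemClass.coe_mul, SubmonoidClass.coe_pow, this]
    rw [mul_div_cancel₀ _ (pow_ne_zero _ hϖ0)]

/-- (E3) of the trichotomy: a rank one valuation ring `O` with `X (1 + c O) = 1` is tame or
discrete, if `X` is reduced. -/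
theorem rankOne_cases (X : K →*₀ Γ) (hR : RedExt K X) (O : ValuationSubring K) (hO : O ≠ ⊤)
    (hrank : ∀ x b : K, b ≠ 0 → O.valuation x < 1 → ∃ n : ℕ, O.valuation (x ^ n) < O.valuation b)
    (hc : ∃ c : K, c ≠ 0 ∧ ∀ x ∈ O, X (1 + c * x) = 1) :
    (∀ x : K, O.valuation x < 1 → X (1 + x) = 1) ∨ IsDiscreteValuationRing O := by
  classical
  by_cases hdense : ∀ x, O.valuation x < 1 → ∃ y, O.valuation x < O.valuation y ∧ O.valuation y < 1
  · left
    intro w hw
    by_contra hXw
    obtain ⟨c, hc0, hc⟩ := hc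
    refine Dense.not_redExt (X := X) (v := O.valuation) (b := c) (w := w) ?_ hdense hc0 ?_ hw
      (fun h => hXw h.val) hR
    · intro x y hx hy
      obtain ⟨n, hn⟩ := hrank x y hy hx
      exact ⟨n, by rw [← map_pow]; exact hn.le⟩
    · intro y hy
      have hc' : 0 < O.valuation c := zero_lt_iff.mpr ((Valuation.ne_zero_iff _).mpr hc0)
      have h1 : y / c ∈ O := by
        rw [← O.valuation_le_one_iff, map_div₀]
        exact div_le_one_of_le₀ hy zero_le
      have := hc _ h1
      rwa [mul_div_cancel₀ _ hc0] at this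
  · right
    push Not at hdense
    obtain ⟨ϖ, h1, h2⟩ := hdense
    refine isDVR_of_max O hO hrank h1 (fun y hy => ?_)
    by_contra h
    exact absurd (h2 y (not_le.mp h)) (not_le.mpr hy)

end HypQ
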