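import Pool.Agent.Lib.MP_9f0b3e_al.VTopSign
import Pool.Agent.Lib.MP_9f0b3e_al.DecompThm

/-!
# A reduced local character has open kernel in a V-topology
-/

set_option autoImplicit false
set_option linter.unusedSectionVars false

namespace HypQ

open Filter Topology Pointwise

noncomputable section

variable {K Γ : Type*} [Field K] [Infinite K] [Countable K] [CommGroupWithZero Γ] [Finite Γ]

/-- basic neighbourhoods -/
def NF (X : K →*₀ Γ) (F : Finset K) : Set K := {a | ∀ f ∈ F, X (1 + f * a) = 1}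

/-- transfer: a sequence with `u n ∈ NF (first n elements)` lies in `D`. -/
theorem memD_of_seq (X : K →*₀ Γ) {f : ℕ → K} (hf : Function.Surjective f) [DecidableEq K]
    {u : ℕ → K} (hu : ∀ n, u n ∈ NF X ((Finset.range (n + 1)).image f)) :
    MemD K (ultra X) (ofSeq u) := by
  rw [memD_ofSeq]
  intro l
  obtain ⟨k, rfl⟩ := hf l
  refine (ae_ge k).mono (fun n hn => ?_)
  exact hu n _ (Finset.mem_image_of_mem _ (Finset.mem_range.mpr (Nat.lt_succ_of_le hn)))

theorem exists_of_forall_notMem {X : K →*₀ Γ} {F : Finset K} {u : ℕ → K}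
    (h : ∀ n, u n ∉ NF X F) (hD : MemD K (ultra X) (ofSeq u)) : False := by
  have h1 : Ae (fun n => ∀ g ∈ F, X (1 + g * u n) = 1) :=
    ae_forall_finset F (fun g _ => memD_ofSeq.mp hD g)
  obtain ⟨n, hn⟩ := h1.exists
  exact h n hn

theorem ofSeq_memD_cases {X : K →*₀ Γ} {F : Finset K} {u : ℕ → K}
    (h : ∀ n, u n ∉ NF X F) : ¬ MemD K (ultra X) (ofSeq u) := fun hD =>
  exists_of_forall_notMem h hD

variable {X : K →*₀ Γ} (hred : RedExt K X) (hX : Loc X)

include hred in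
theorem nf_add (F : Finset K) : ∃ F' : Finset K, ∀ u ∈ NF X F', ∀ v ∈ NF X F', u + v ∈ NF X F := by
  classical
  by_contra hcon
  push Not at hcon
  obtain ⟨f, hf⟩ := exists_surjective_nat K
  choose u hu v hv huv using fun n : ℕ => hcon ((Finset.range (n + 1)).image f)
  have hD := (memD_of_seq X hf hu).add (redExt_ultra hred) (memD_of_seq X hf hv)
  exact exists_of_forall_notMem (u := u + v) huv hD

include hred in
theorem nf_mul (F : Finset K) : ∃ F' : Finset K, ∀ u ∈ NF X F', ∀ v ∈ NF X F', u * v ∈ NF X F := by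
  classical
  by_contra hcon
  push Not at hcon
  obtain ⟨f, hf⟩ := exists_surjective_nat K
  choose u hu v hv huv using fun n : ℕ => hcon ((Finset.range (n + 1)).image f)
  have hD := (memD_of_seq X hf hu).mul (redExt_ultra hred) (memD_of_seq X hf hv)
  exact exists_of_forall_notMem (u := u * v) huv hD

include hred hX in
theorem nf_vprop (F : Finset K) : ∃ F' : Finset K, ∀ u v : K, u * v ∈ NF X F' →
    u ∈ NF X F ∨ v ∈ NF X F := by
  classical
  by_contra hcon
  push Not at hcon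
  obtain ⟨f, hf⟩ := exists_surjective_nat K
  choose u v huv hu hv using fun n : ℕ => hcon ((Finset.range (n + 1)).image f)
  have hR := redExt_ultra hred
  have hD : MemD K (ultra X) (ofSeq u * ofSeq v) := memD_of_seq X hf huv
  have h1 := ofSeq_memD_cases hu
  have h2 := ofSeq_memD_cases hv
  have h3 : ∀ x : UL K, ¬ MemD K (ultra X) x → x ≠ 0 ∧ x⁻¹ ∈ ringR hR := by
    intro x hx
    refine ⟨fun h0 => hx (by rw [h0]; exact memD_zero _), ?_⟩
    rcases val_of_loc hR hX x⁻¹ with h | ⟨-, h⟩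
    · exact h
    · rw [inv_inv] at h; exact absurd h hx
  obtain ⟨h40, h4⟩ := h3 _ h1
  obtain ⟨h50, h5⟩ := h3 _ h2
  have h6 : MemD K (ultra X) ((ofSeq u)⁻¹ * (ofSeq v)⁻¹ * (ofSeq u * ofSeq v)) :=
    (ringR hR).mul_mem h4 h5 _ hD
  have h7 : (ofSeq u)⁻¹ * (ofSeq v)⁻¹ * (ofSeq u * ofSeq v) = 1 := by field_simp
  rw [h7] at h6
  have h8 := h6 (-1)
  rw [map_neg, map_one, mul_one, add_neg_cancel, map_zero] at h8
  exact zero_ne_one h8

/-- the filter basis of the topology defined by `X` -/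
@[reducible] def basisX (hred : RedExt K X) : RingFilterBasis K where
  sets := Set.range (NF X)
  nonempty := ⟨_, ∅, rfl⟩
  inter_sets := by
    classical
    rintro _ _ ⟨F, rfl⟩ ⟨F', rfl⟩
    refine ⟨_, ⟨F ∪ F', rfl⟩, fun a ha => ⟨fun f hf => ha f (Finset.mem_union_left _ hf),
      fun f hf => ha f (Finset.mem_union_right _ hf)⟩⟩
  zero' := by
    rintro _ ⟨F, rfl⟩ f _
    rw [mul_zero, add_zero, map_one]
  add' := by
    rintro _ ⟨F, rfl⟩
    obtain ⟨F', hF'⟩ := nf_add hred F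
    refine ⟨_, ⟨F', rfl⟩, ?_⟩
    rintro _ ⟨u, hu, v, hv, rfl⟩
    exact hF' u hu v hv
  neg' := by
    classical
    rintro _ ⟨F, rfl⟩
    refine ⟨_, ⟨F.image Neg.neg, rfl⟩, fun a ha f hf => ?_⟩
    have := ha (-f) (Finset.mem_image_of_mem _ hf)
    rw [← this]; congr 1; ring
  conj' := by
    rintro x0 _ ⟨F, rfl⟩
    refine ⟨_, ⟨F, rfl⟩, fun a ha => ?_⟩
    have : x0 + a + -x0 = a := by ring
    change x0 + a + -x0 ∈ NF X F
    rw [this]; exact ha
  mul' := by
    rintro _ ⟨F, rfl⟩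
    obtain ⟨F', hF'⟩ := nf_mul hred F
    refine ⟨_, ⟨F', rfl⟩, ?_⟩
    rintro _ ⟨u, hu, v, hv, rfl⟩
    exact hF' u hu v hv
  mul_left' := by
    classical
    rintro x0 _ ⟨F, rfl⟩
    refine ⟨_, ⟨F.image (fun f => f * x0), rfl⟩, fun a ha f hf => ?_⟩
    have := ha (f * x0) (Finset.mem_image_of_mem _ hf)
    rw [← this]; congr 1; ring
  mul_right' := by
    classical
    rintro x0 _ ⟨F, rfl⟩
    refine ⟨_, ⟨F.image (fun f => f * x0), rfl⟩, fun a ha f hf => ?_⟩
    have := ha (f * x0) (Finset.mem_image_of_mem _ hf)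
    rw [← this]; congr 1; ring

theorem mem_nhds_iff' (hred : RedExt K X) {N : Set K} :
    N ∈ @nhds K (basisX hred).topology 0 ↔ ∃ F : Finset K, NF X F ⊆ N := by
  rw [((basisX hred).toAddGroupFilterBasis.nhds_zero_hasBasis).mem_iff]
  constructor
  · rintro ⟨_, ⟨F, rfl⟩, h⟩; exact ⟨F, h⟩
  · rintro ⟨F, h⟩; exact ⟨_, ⟨F, rfl⟩, h⟩

/-- **Local classification, first step.** A reduced local character of a countable infinite field
is of sign type, tame, or has a rank one valuation ring. -/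
theorem local_trichotomy (hred : RedExt K X) (hX : Loc X) :
    (CharZero K ∧ (∀ a : K, a ≠ 0 → X a = 1 ∨ X (-a) = 1) ∧
      (X (-1) ≠ 1 → ∀ x y : K, x ≠ 0 → X x = X y → x + y ≠ 0 ∧ X (x + y) = X x)) ∨
    (∃ O : ValuationSubring K, O ≠ ⊤ ∧ ∀ x : K, O.valuation x < 1 → X (1 + x) = 1) ∨
    (∃ O : ValuationSubring K, O ≠ ⊤ ∧
      (∀ x b : K, b ≠ 0 → O.valuation x < 1 → ∃ n : ℕ, O.valuation (x ^ n) < O.valuation b) ∧
      ∃ c : K, c ≠ 0 ∧ ∀ x ∈ O, X (1 + c * x) = 1) := by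
  classical
  let _ : TopologicalSpace K := (basisX hred).topology
  have : IsTopologicalRing K := (basisX hred).isTopologicalRing
  have hn : ∀ {N : Set K}, N ∈ 𝓝 (0 : K) ↔ ∃ F : Finset K, NF X F ⊆ N := mem_nhds_iff' hred
  have : T2Space K := by
    apply IsTopologicalAddGroup.t2Space_of_zero_sep
    intro x hx
    refine ⟨NF X {-x⁻¹}, hn.mpr ⟨_, subset_rfl⟩, fun h => ?_⟩
    have := h _ (Finset.mem_singleton_self _)
    rw [neg_mul, inv_mul_cancel₀ hx, add_neg_cancel, map_zero] at this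
    exact zero_ne_one this
  have hd : (𝓝[≠] (0 : K)).NeBot := by
    rw [nhdsWithin, Filter.inf_principal_neBot_iff]
    intro N hN
    obtain ⟨F, hF⟩ := hn.mp hN
    obtain ⟨v, hv0, hv⟩ := exists_small_ul X F
    exact ⟨v, hF hv, hv0⟩
  have hV : VTop.VProp K := by
    intro N hN
    obtain ⟨F, hF⟩ := hn.mp hN
    obtain ⟨F', hF'⟩ := nf_vprop hred hX F
    refine ⟨NF X F', hn.mpr ⟨_, subset_rfl⟩, fun x y hxy => ?_⟩
    rcases hF' x y hxy with h | h
    · exact Or.inl (hF h)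
    · exact Or.inr (hF h)
  refine VTop.trichotomy hV hd X (N := NF X {1}) (hn.mpr ⟨_, subset_rfl⟩) (fun u hu => ?_)
  have := hu 1 (Finset.mem_singleton_self _)
  rwa [one_mul] at this

end

end HypQ
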