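import Pool.Agent.Lib.MP_9f0b3e_al.FieldLem
import Pool.Agent.Lib.MP_9f0b3e_al.BBDef

/-!
# The pair set of a discrete place with infinite residue field
-/

set_option autoImplicit false

namespace HypQ

open IsLocalRing

section unitfun

variable {O A : Type*} [CommRing O] [CommGroup A]

open Classical in
/-- total version of a character of the units -/
noncomputable def XT (X : Oˣ →* A) (a : O) : A := if h : IsUnit a then X h.unit else 1

theorem XT_coe (X : Oˣ →* A) (u : Oˣ) : XT X (u : O) = X u := by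
  unfold XT
  rw [dif_pos u.isUnit]
  congr 1
  ext
  simp

theorem XT_eq (X : Oˣ →* A) {a : O} (u : Oˣ) (h : (u : O) = a) : XT X a = X u := by
  rw [← h, XT_coe]

theorem XT_mul (X : Oˣ →* A) {a b : O} (ha : IsUnit a) (hb : IsUnit b) :
    XT X (a * b) = XT X a * XT X b := by
  obtain ⟨u, rfl⟩ := ha
  obtain ⟨v, rfl⟩ := hb
  rw [← Units.val_mul, XT_coe, XT_coe, XT_coe, map_mul]

theorem XT_one (X : Oˣ →* A) : XT X 1 = 1 := by
  rw [← Units.val_one, XT_coe, map_one]

end unitfun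

section wildf

variable {O : Type*} [CommRing O] [IsDomain O] [IsDiscreteValuationRing O]
variable {A : Type*} [CommGroup A]

theorem residue_zero_iff {π : O} (hπ : Irreducible π) (a : O) :
    residue O a = 0 ↔ π ∣ a := by
  rw [residue_eq_zero_iff, hπ.maximalIdeal_eq, Ideal.mem_span_singleton]

theorem residue_eq_iff {π : O} (hπ : Irreducible π) (a b : O) :
    residue O a = residue O b ↔ π ∣ a - b := by
  rw [← residue_zero_iff hπ, map_sub, sub_eq_zero]

theorem isUnit_iff_residue (a : O) : IsUnit a ↔ residue O a ≠ 0 := by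
  rw [Ne, residue_eq_zero_iff, mem_maximalIdeal, mem_nonunits_iff, not_not]

theorem isUnit_one_add {π : O} (hπ : Irreducible π) {z : O} (h : π ∣ z) : IsUnit (1 + z) := by
  rw [isUnit_iff_residue, map_add, (residue_zero_iff hπ z).mpr h, add_zero, map_one]
  exact one_ne_zero

omit [IsDomain O] [IsDiscreteValuationRing O] in
theorem dvd_pow_succ_mul {π : O} (n : ℕ) (w : O) : π ∣ π ^ (n + 1) * w :=
  Dvd.dvd.mul_right (dvd_pow_self π (Nat.succ_ne_zero n)) w

theorem isUnit_one_add_pow {π : O} (hπ : Irreducible π) (n : ℕ) (w : O) :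
    IsUnit (1 + π ^ (n + 1) * w) := isUnit_one_add hπ (dvd_pow_succ_mul n w)

theorem mem_BB_iff {π : O} (hπ : Irreducible π) (X : Oˣ →* A) (n : ℕ) (b : A) :
    b ∈ BB π X (n + 1) ↔ ∃ w : O, XT X (1 + π ^ (n + 1) * w) = b := by
  rw [mem_BB]
  constructor
  · rintro ⟨u, ⟨w, hw⟩, rfl⟩
    refine ⟨w, XT_eq X u ?_⟩
    linear_combination hw
  · rintro ⟨w, rfl⟩
    obtain ⟨u, hu⟩ := isUnit_one_add_pow hπ n w
    refine ⟨u, ?_, (XT_eq X u hu).symm⟩
    rw [hu]
    exact ⟨w, by ring⟩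

theorem XT_mem_BB {π : O} (hπ : Irreducible π) (X : Oˣ →* A) (n : ℕ) (w : O) :
    XT X (1 + π ^ (n + 1) * w) ∈ BB π X (n + 1) := (mem_BB_iff hπ X n _).mpr ⟨w, rfl⟩

/-- changing the lift changes the value by an element of the next group. -/
theorem XT_change {π : O} (hπ : Irreducible π) (X : Oˣ →* A) (n : ℕ) {w w' : O}
    (h : π ∣ w' - w) : ∃ b ∈ BB π X (n + 2),
      XT X (1 + π ^ (n + 1) * w') = XT X (1 + π ^ (n + 1) * w) * b := by
  obtain ⟨d, hd⟩ := h
  obtain ⟨u, hu⟩ := isUnit_one_add_pow hπ n w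
  have huu : (u : O) * (u⁻¹ : Oˣ) = 1 := u.mul_inv
  refine ⟨XT X (1 + π ^ (n + 2) * (d * (u⁻¹ : Oˣ))), XT_mem_BB hπ X (n + 1) _, ?_⟩
  rw [← XT_mul X (isUnit_one_add_pow hπ n w) (isUnit_one_add_pow hπ (n + 1) _)]
  congr 1
  have h1 : w' = w + π * d := by linear_combination hd
  have h2 : (u : O) * (1 + π ^ (n + 2) * (d * (u⁻¹ : Oˣ)))
      = u + π ^ (n + 2) * d * (u * (u⁻¹ : Oˣ)) := by ring
  rw [h1, ← hu, h2, huu, hu]
  ring

/-- The kernel of `w ↦ X (1 + π^(j+1) w)` modulo the next group. -/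
def VV {π : O} (hπ : Irreducible π) (X : Oˣ →* A) (j : ℕ) : AddSubgroup (ResidueField O) where
  carrier := {x | ∃ w : O, residue O w = x ∧ XT X (1 + π ^ (j + 1) * w) ∈ BB π X (j + 2)}
  zero_mem' := ⟨0, by simp, by simp [XT_one, one_mem]⟩
  add_mem' := by
    rintro x y ⟨w, rfl, hw⟩ ⟨w', rfl, hw'⟩
    refine ⟨w + w' + π ^ (j + 1) * (w * w'), ?_, ?_⟩
    · rw [map_add, map_add, (residue_zero_iff hπ _).mpr (dvd_pow_succ_mul j _), add_zero]
    · have h : 1 + π ^ (j + 1) * (w + w' + π ^ (j + 1) * (w * w'))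
          = (1 + π ^ (j + 1) * w) * (1 + π ^ (j + 1) * w') := by ring
      rw [h, XT_mul X (isUnit_one_add_pow hπ j w) (isUnit_one_add_pow hπ j w')]
      exact mul_mem hw hw'
  neg_mem' := by
    rintro x ⟨w, rfl, hw⟩
    obtain ⟨u, hu⟩ := isUnit_one_add_pow hπ j w
    have huu : (u : O) * (u⁻¹ : Oˣ) = 1 := u.mul_inv
    have hr : residue O (u : O) = 1 := by
      rw [hu, map_add, (residue_zero_iff hπ _).mpr (dvd_pow_succ_mul j _), add_zero, map_one]
    have hr' : residue O ((u⁻¹ : Oˣ) : O) = 1 := by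
      have := congrArg (residue O) huu
      rwa [map_mul, hr, one_mul, map_one] at this
    refine ⟨-(w * (u⁻¹ : Oˣ)), ?_, ?_⟩
    · rw [map_neg, map_mul, hr', mul_one]
    · have h : (1 + π ^ (j + 1) * w) * (1 + π ^ (j + 1) * -(w * (u⁻¹ : Oˣ))) = 1 := by
        rw [← hu]
        have h1 : π ^ (j + 1) * w = u - 1 := by rw [hu]; ring
        have h2 : (u : O) * (1 + π ^ (j + 1) * -(w * (u⁻¹ : Oˣ)))
            = u - (π ^ (j + 1) * w) * (u * (u⁻¹ : Oˣ)) := by ring
        rw [h2, huu, h1]; ring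
      have h3 := XT_mul X (isUnit_one_add_pow hπ j w)
        (isUnit_one_add_pow hπ j (-(w * (u⁻¹ : Oˣ))))
      rw [h, XT_one] at h3
      have h4 := (inv_eq_of_mul_eq_one_right h3.symm)
      rw [← h4]
      exact inv_mem hw

theorem mem_VV {π : O} (hπ : Irreducible π) (X : Oˣ →* A) (j : ℕ) (w : O) :
    residue O w ∈ VV hπ X j ↔ XT X (1 + π ^ (j + 1) * w) ∈ BB π X (j + 2) := by
  constructor
  · rintro ⟨w', h, hw'⟩
    obtain ⟨b, hb, h1⟩ := XT_change hπ X j ((residue_eq_iff hπ w w').mp h.symm)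
    rw [h1]
    exact mul_mem hw' hb
  · intro h
    exact ⟨w, rfl, h⟩

theorem sub_mem_VV {π : O} (hπ : Irreducible π) (X : Oˣ →* A) (j : ℕ) (w w' : O) :
    residue O w - residue O w' ∈ VV hπ X j ↔
      XT X (1 + π ^ (j + 1) * w) * (XT X (1 + π ^ (j + 1) * w'))⁻¹ ∈ BB π X (j + 2) := by
  obtain ⟨u, hu⟩ := isUnit_one_add_pow hπ j w'
  have huu : (u : O) * (u⁻¹ : Oˣ) = 1 := u.mul_inv
  have hr : residue O (u : O) = 1 := by
    rw [hu, map_add, (residue_zero_iff hπ _).mpr (dvd_pow_succ_mul j _), add_zero, map_one]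
  have hr' : residue O ((u⁻¹ : Oˣ) : O) = 1 := by
    have := congrArg (residue O) huu
    rwa [map_mul, hr, one_mul, map_one] at this
  have h1 : residue O w - residue O w' = residue O ((w - w') * (u⁻¹ : Oˣ)) := by
    rw [map_mul, hr', mul_one, map_sub]
  have h2 : 1 + π ^ (j + 1) * w
      = (1 + π ^ (j + 1) * w') * (1 + π ^ (j + 1) * ((w - w') * (u⁻¹ : Oˣ))) := by
    have h3 : (1 + π ^ (j + 1) * w') * (1 + π ^ (j + 1) * ((w - w') * (u⁻¹ : Oˣ)))
        = (1 + π ^ (j + 1) * w') + π ^ (j + 1) * (w - w') *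
          ((1 + π ^ (j + 1) * w') * (u⁻¹ : Oˣ)) := by ring
    rw [h3, ← hu, huu, hu]; ring
  have h3 : XT X (1 + π ^ (j + 1) * w) * (XT X (1 + π ^ (j + 1) * w'))⁻¹
      = XT X (1 + π ^ (j + 1) * ((w - w') * (u⁻¹ : Oˣ))) := by
    conv_lhs => rw [h2]
    rw [XT_mul X (isUnit_one_add_pow hπ j w') (isUnit_one_add_pow hπ j _)]
    rw [mul_comm (XT X (1 + π ^ (j + 1) * w')), mul_inv_cancel_right]
  rw [h1, mem_VV, h3]

theorem finite_VV [Finite A] {π : O} (hπ : Irreducible π) (X : Oˣ →* A) (j : ℕ) :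
    Finite (ResidueField O ⧸ VV hπ X j) := by
  classical
  have hs : ∀ x : ResidueField O, ∃ w : O, residue O w = x := residue_surjective
  choose l hl using hs
  let g : ResidueField O ⧸ VV hπ X j → A := fun q => XT X (1 + π ^ (j + 1) * l q.out)
  apply Finite.of_injective g
  intro q r h
  have h1 : XT X (1 + π ^ (j + 1) * l q.out) * (XT X (1 + π ^ (j + 1) * l r.out))⁻¹
      ∈ BB π X (j + 2) := by
    have : XT X (1 + π ^ (j + 1) * l q.out) = XT X (1 + π ^ (j + 1) * l r.out) := h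
    rw [this, mul_inv_cancel]
    exact one_mem _
  rw [← sub_mem_VV, hl, hl] at h1
  rw [← QuotientAddGroup.out_eq' q, ← QuotientAddGroup.out_eq' r, eq_comm, QuotientAddGroup.eq]
  rwa [neg_add_eq_sub]

/-- general position of the ratio `ρ` at all levels. -/
def Good {π : O} (hπ : Irreducible π) (X : Oˣ →* A) (n : ℕ) (ρ : ResidueField O) : Prop :=
  ∀ j : ℕ, ∀ x y : ResidueField O, ∃ z : ResidueField O,
    z - x ∈ VV hπ X j ∧ ρ * z - y ∈ VV hπ X (n + j)

theorem VV_top {π : O} (hπ : Irreducible π) (X : Oˣ →* A) {M : ℕ} (hM : BB π X M = ⊥) (j : ℕ)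
    (hj : M ≤ j + 1) (x : ResidueField O) : x ∈ VV hπ X j := by
  obtain ⟨w, rfl⟩ := residue_surjective x
  rw [mem_VV]
  have h1 := XT_mem_BB hπ X j w
  have h2 := BB_anti (π := π) (X := X) hj h1
  rw [hM, Subgroup.mem_bot] at h2
  rw [h2]
  exact one_mem _

theorem finite_not_good [Finite A] {p : ℕ} (hp : p.Prime) [CharP (ResidueField O) p] {π : O}
    (hπ : Irreducible π) (X : Oˣ →* A) {M : ℕ} (hM : BB π X M = ⊥) (n : ℕ) :
    {ρ : ResidueField O | ρ ≠ 0 ∧ ¬ Good hπ X n ρ}.Finite := by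
  have := Fact.mk hp
  have hfin : ∀ j, Finite (ResidueField O ⧸ VV hπ X j) := fun j => finite_VV hπ X j
  apply Set.Finite.subset (Set.Finite.biUnion (Set.finite_Iio M)
    (fun j _ => finite_bad p (VV hπ X j) (VV hπ X (n + j))))
  rintro ρ ⟨h0, hρ⟩
  unfold Good at hρ
  push Not at hρ
  obtain ⟨j, x, y, h⟩ := hρ
  have hj : j < M := by
    by_contra hj
    exact h x (VV_top hπ X hM j (by omega) _) (VV_top hπ X hM (n + j) (by omega) _)
  refine Set.mem_biUnion hj ⟨h0, ?_⟩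
  intro h2
  obtain ⟨z, hz1, hz2⟩ := h2 x y
  exact h z hz1 hz2

/-- (J1): simultaneous approximation. -/
theorem joint_lift {π : O} (hπ : Irreducible π) (X : Oˣ →* A) {M : ℕ}
    (hM : BB π X M = ⊥) (n : ℕ) (ω : O) (hgood : Good hπ X n (residue O ω)) {δ γ : A}
    (hδ : δ ∈ BB π X 1) (hγ : γ ∈ BB π X (n + 1)) :
    ∃ u : O, π ∣ u ∧ XT X (1 + u) = δ ∧ XT X (1 + π ^ n * ω * u) = γ := by
  have key : ∀ k : ℕ, ∃ u : O, π ∣ u ∧ δ * (XT X (1 + u))⁻¹ ∈ BB π X (k + 1) ∧
      γ * (XT X (1 + π ^ n * ω * u))⁻¹ ∈ BB π X (n + k + 1) := by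
    intro k
    induction k with
    | zero =>
      refine ⟨0, dvd_zero _, ?_, ?_⟩
      · simpa [XT_one] using hδ
      · simpa [XT_one] using hγ
    | succ k ih =>
      obtain ⟨u, hu, h1, h2⟩ := ih
      obtain ⟨w1, hw1⟩ := (mem_BB_iff hπ X k _).mp h1
      obtain ⟨w2, hw2⟩ := (mem_BB_iff hπ X (n + k) _).mp h2
      obtain ⟨z, hz1, hz2⟩ := hgood k (residue O w1) (residue O w2)
      obtain ⟨w, rfl⟩ := residue_surjective z
      have hu1 : IsUnit (1 + u) := isUnit_one_add hπ hu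
      have hu2 : IsUnit (1 + π ^ n * ω * u) := isUnit_one_add hπ (Dvd.dvd.mul_left hu _)
      obtain ⟨v, hv⟩ := hu2
      have hvv : (v : O) * (v⁻¹ : Oˣ) = 1 := v.mul_inv
      have hru : residue O u = 0 := (residue_zero_iff hπ u).mpr hu
      have hrv : residue O (v : O) = 1 := by
        rw [hv, map_add, map_mul, hru, mul_zero, add_zero, map_one]
      have hrv' : residue O ((v⁻¹ : Oˣ) : O) = 1 := by
        have := congrArg (residue O) hvv
        rwa [map_mul, hrv, one_mul, map_one] at this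
      refine ⟨u + π ^ (k + 1) * w * (1 + u), ?_, ?_, ?_⟩
      · exact dvd_add hu (Dvd.dvd.mul_right (dvd_pow_succ_mul k w) _)
      · have e1 : 1 + (u + π ^ (k + 1) * w * (1 + u)) = (1 + u) * (1 + π ^ (k + 1) * w) := by ring
        rw [e1, XT_mul X hu1 (isUnit_one_add_pow hπ k w), mul_inv, ← mul_assoc, ← hw1]
        rw [sub_mem_VV] at hz1
        have := inv_mem hz1
        rwa [mul_inv, inv_inv, mul_comm] at this
      · set w' : O := ω * w * (1 + u) * (v⁻¹ : Oˣ) with hw'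
        have e2 : 1 + π ^ n * ω * (u + π ^ (k + 1) * w * (1 + u))
            = (1 + π ^ n * ω * u) * (1 + π ^ (n + k + 1) * w') := by
          rw [hw', ← hv]
          have e3 : (v : O) * (1 + π ^ (n + k + 1) * (ω * w * (1 + u) * (v⁻¹ : Oˣ)))
              = v + π ^ (n + k + 1) * (ω * w * (1 + u)) * (v * (v⁻¹ : Oˣ)) := by ring
          rw [e3, hvv, hv]
          ring
        have hr : residue O w' = residue O ω * residue O w := by
          rw [hw', map_mul, map_mul, map_mul, map_add, hru, hrv', map_one, add_zero, mul_one,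
            mul_one]
        rw [← hr] at hz2
        rw [e2, XT_mul X ⟨v, hv⟩ (isUnit_one_add_pow hπ (n + k) w'), mul_inv, ← mul_assoc, ← hw2]
        rw [sub_mem_VV] at hz2
        have := inv_mem hz2
        rwa [mul_inv, inv_inv, mul_comm] at this
  obtain ⟨u, hu, h1, h2⟩ := key M
  refine ⟨u, hu, ?_, ?_⟩
  · have := BB_anti (π := π) (X := X) (show M ≤ M + 1 by omega) h1
    rw [hM, Subgroup.mem_bot, mul_inv_eq_one] at this
    exact this.symm
  · have := BB_anti (π := π) (X := X) (show M ≤ n + M + 1 by omega) h2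
    rw [hM, Subgroup.mem_bot, mul_inv_eq_one] at this
    exact this.symm

/-- existence of the residue character. -/
theorem exists_resChar {A' : Type*} [CommGroup A'] {π : O} (hπ : Irreducible π)
    (X : Oˣ →* A) (φ : A →* A') (hker : BB π X 1 ≤ φ.ker) :
    ∃ χ : ResidueField O →*₀ WithZero A',
      ∀ u : Oˣ, χ (residue O u) = φ (X u) := by
  classical
  have hs : ∀ x : (ResidueField O)ˣ, ∃ u : Oˣ, residue O u = x := by
    intro x
    obtain ⟨w, hw⟩ := residue_surjective (x : ResidueField O)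
    have : IsUnit w := by
      rw [isUnit_iff_residue, hw]
      exact x.ne_zero
    obtain ⟨u, rfl⟩ := this
    exact ⟨u, hw⟩
  choose l hl using hs
  have hwd : ∀ u v : Oˣ, residue O u = residue O v → φ (X u) = φ (X v) := by
    intro u v h
    have h1 : (u * v⁻¹ : Oˣ) ∈ ((⊤ : Subgroup Oˣ)) := trivial
    have h2 : X (u * v⁻¹) ∈ BB π X 1 := by
      refine ⟨u * v⁻¹, ?_, rfl⟩
      change π ^ 1 ∣ ((u * v⁻¹ : Oˣ) : O) - 1
      rw [pow_one]
      have h3 : ((u * v⁻¹ : Oˣ) : O) - 1 = (u - v) * (v⁻¹ : Oˣ) := by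
        push_cast
        have : (v : O) * (v⁻¹ : Oˣ) = 1 := v.mul_inv
        linear_combination this
      rw [h3]
      exact Dvd.dvd.mul_right ((residue_eq_iff hπ _ _).mp h) _
    have h3 := hker h2
    rw [MonoidHom.mem_ker, map_mul, map_mul, map_inv, map_inv, mul_inv_eq_one] at h3
    exact h3
  let χ : ResidueField O →*₀ WithZero A' :=
    { toFun := fun x => if h : x = 0 then 0 else ((φ (X (l (Units.mk0 x h))) : A') : WithZero A')
      map_zero' := by simp
      map_one' := by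
        rw [dif_neg one_ne_zero]
        have : φ (X (l (Units.mk0 1 one_ne_zero))) = φ (X 1) := by
          apply hwd
          rw [hl]
          simp
        rw [this]
        simp
      map_mul' := by
        intro x y
        by_cases hx : x = 0
        · simp [hx]
        by_cases hy : y = 0
        · simp [hy]
        rw [dif_neg (mul_ne_zero hx hy), dif_neg hx, dif_neg hy, ← WithZero.coe_mul, ← map_mul,
          ← map_mul]
        congr 1
        apply hwd
        rw [hl]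
        push_cast
        rw [map_mul, hl, hl]
        simp }
  refine ⟨χ, fun u => ?_⟩
  have hne : residue O (u : O) ≠ 0 := (isUnit_iff_residue _).mp u.isUnit
  change (if h : residue O (u : O) = 0 then (0 : WithZero A') else
    ((φ (X (l (Units.mk0 (residue O (u : O)) h))) : A') : WithZero A')) = _
  rw [dif_neg hne]
  congr 1
  apply hwd
  rw [hl]
  simp

section formula

variable [Finite A] {A' : Type*} [CommGroup A'] {π : O} (hπ : Irreducible π)
  [Infinite (ResidueField O)] {p : ℕ} (hp : p.Prime)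
  [CharP (ResidueField O) p] (X : Oˣ →* A) (g : A) {M : ℕ}
  (hM : BB π X M = ⊥) (φ : A →* A') (hφ : Function.Surjective φ) (hker : φ.ker = BB π X 1)
  (χ : ResidueField O →*₀ WithZero A')
  (hχ : ∀ u : Oˣ, χ (residue O u) = φ (X u))

omit [Finite A] [Infinite (ResidueField O)] in
include hker hχ in
theorem range_resChar (a : A) : φ a ∈ HH χ ↔ a ∈ X.range := by
  rw [mem_HH_field]
  constructor
  · rintro ⟨x, hx⟩
    have hx0 : x ≠ 0 := ne_zero_of_coe χ hx
    obtain ⟨w, rfl⟩ := residue_surjective x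
    obtain ⟨u, rfl⟩ : IsUnit w := (isUnit_iff_residue w).mpr hx0
    rw [hχ] at hx
    have h1 : φ (X u) = φ a := by exact_mod_cast hx
    have h2 : a * (X u)⁻¹ ∈ φ.ker := by
      rw [MonoidHom.mem_ker, map_mul, map_inv, h1, mul_inv_cancel]
    rw [hker] at h2
    obtain ⟨v, -, hv⟩ := h2
    refine ⟨v * u, ?_⟩
    rw [map_mul]
    rw [hv, inv_mul_cancel_right]
  · rintro ⟨u, rfl⟩
    exact ⟨residue O u, hχ u⟩

include hπ hp hM hφ hker hχ in
/-- (I1) -/
theorem small_pair (n : ℕ) {α β : A} (hα : α ∈ X.range) (hβ : β ∈ BB π X (n + 1)) :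
    ∃ w v : Oˣ, (v : O) = 1 - π ^ (n + 1) * w ∧ X w = α ∧ X v = β := by
  classical
  have hA' : Finite A' := Finite.of_surjective φ hφ
  obtain ⟨wβ, hwβ⟩ := (mem_BB_iff hπ X n β).mp hβ
  have hbad := finite_not_good hp hπ X hM (n + 1)
  have hfin := finite_VV hπ X n
  obtain ⟨x, hxE, hxV, hx⟩ := field_lemma χ (VV hπ X n) (-residue O wβ) (φ α)
    ((range_resChar X φ hker χ hχ α).mpr hα)
    (hbad.toFinset.image (fun x => -x))
  have hx0 : x ≠ 0 := ne_zero_of_coe χ hx
  obtain ⟨w0', rfl⟩ := residue_surjective x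
  obtain ⟨w0, rfl⟩ : IsUnit w0' := (isUnit_iff_residue w0').mpr hx0
  have hgood : Good hπ X (n + 1) (-residue O (w0 : O)) := by
    by_contra h
    apply hxE
    rw [Finset.mem_image]
    refine ⟨-residue O (w0 : O), ?_, by simp⟩
    rw [Set.Finite.mem_toFinset]
    exact ⟨neg_ne_zero.mpr hx0, h⟩
  -- the unit `1 - π^(n+1) w0`
  obtain ⟨v0, hv0⟩ := isUnit_one_add_pow hπ n (-(w0 : O))
  have hvv : (v0 : O) * (v0⁻¹ : Oˣ) = 1 := v0.mul_inv
  have hrv : residue O (v0 : O) = 1 := by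
    rw [hv0, map_add, (residue_zero_iff hπ _).mpr (dvd_pow_succ_mul n _), add_zero, map_one]
  have hrv' : residue O ((v0⁻¹ : Oˣ) : O) = 1 := by
    have := congrArg (residue O) hvv
    rwa [map_mul, hrv, one_mul, map_one] at this
  set ω : O := -(w0 : O) * (v0⁻¹ : Oˣ) with hω
  have hrω : residue O ω = -residue O (w0 : O) := by
    rw [hω, map_mul, hrv', mul_one, map_neg]
  rw [← hrω] at hgood
  have hδ : α * (X w0)⁻¹ ∈ BB π X 1 := by
    rw [← hker, MonoidHom.mem_ker, map_mul, map_inv]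
    rw [hχ] at hx
    have : φ (X w0) = φ α := by exact_mod_cast hx
    rw [this, mul_inv_cancel]
  have hγ : β * (X v0)⁻¹ ∈ BB π X (n + 1 + 1) := by
    have h1 : residue O (-(w0 : O)) - residue O wβ ∈ VV hπ X n := by
      have := (VV hπ X n).neg_mem hxV
      have h2 : -(residue O (w0 : O) - -residue O wβ) = residue O (-(w0 : O)) - residue O wβ := by
        rw [map_neg]; ring
      rwa [h2] at this
    rw [sub_mem_VV, hwβ, ← hv0, XT_coe] at h1
    have := inv_mem h1
    rwa [mul_inv, inv_inv, mul_comm] at this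
  obtain ⟨u, hu, h1, h2⟩ := joint_lift hπ X hM (n + 1) ω hgood hδ hγ
  obtain ⟨u1, hu1⟩ := isUnit_one_add hπ hu
  obtain ⟨u2, hu2⟩ : IsUnit (1 + π ^ (n + 1) * ω * u) := isUnit_one_add hπ (Dvd.dvd.mul_left hu _)
  refine ⟨w0 * u1, v0 * u2, ?_, ?_, ?_⟩
  · push_cast
    rw [hu1, hu2, hω]
    have e : (v0 : O) * (1 + π ^ (n + 1) * (-(w0 : O) * (v0⁻¹ : Oˣ)) * u)
        = v0 - π ^ (n + 1) * w0 * u * (v0 * (v0⁻¹ : Oˣ)) := by ring
    rw [e, hvv, hv0]
    ring
  · rw [map_mul, ← XT_coe X u1, hu1, h1, mul_comm, inv_mul_cancel_right]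
  · rw [map_mul, ← XT_coe X u2, hu2, h2, mul_comm, inv_mul_cancel_right]

include hπ hp hM hφ hker hχ in
/-- (I2) -/
theorem unit_pair {x y : A} (h : (φ x, φ y) ∈ NN χ) :
    ∃ t s : Oˣ, (t : O) + s = 1 ∧ X t = x ∧ X s = y := by
  classical
  have hA' : Finite A' := Finite.of_surjective φ hφ
  have hbad := finite_not_good hp hπ X hM 0
  obtain ⟨t', htE, ht, hs⟩ := pair_infinite χ h
    (hbad.toFinset.image (fun ρ => ρ / (ρ - 1)))
  have ht0 : t' ≠ 0 := ne_zero_of_coe χ ht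
  have hs0 : 1 - t' ≠ 0 := ne_zero_of_coe χ hs
  have hgood : Good hπ X 0 (-(t' / (1 - t'))) := by
    by_contra hb
    apply htE
    rw [Finset.mem_image]
    refine ⟨-(t' / (1 - t')), ?_, ?_⟩
    · rw [Set.Finite.mem_toFinset]
      exact ⟨neg_ne_zero.mpr (div_ne_zero ht0 hs0), hb⟩
    · have : -(t' / (1 - t')) - 1 = -(1 / (1 - t')) := by field_simp; ring
      rw [this]
      field_simp
  obtain ⟨t0', rfl⟩ := residue_surjective t'
  obtain ⟨t0, rfl⟩ : IsUnit t0' := (isUnit_iff_residue t0').mpr ht0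
  obtain ⟨s0, hs0'⟩ : IsUnit (1 - (t0 : O)) := by
    rw [isUnit_iff_residue, map_sub, map_one]
    exact hs0
  have hss : (s0 : O) * (s0⁻¹ : Oˣ) = 1 := s0.mul_inv
  have hrs : residue O (s0 : O) = 1 - residue O (t0 : O) := by rw [hs0', map_sub, map_one]
  have hrs' : residue O ((s0⁻¹ : Oˣ) : O) = (1 - residue O (t0 : O))⁻¹ := by
    have := congrArg (residue O) hss
    rw [map_mul, hrs, map_one] at this
    exact eq_inv_of_mul_eq_one_right this
  set ω : O := -((t0 : O) * (s0⁻¹ : Oˣ)) with hω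
  have hrω : residue O ω = -(residue O (t0 : O) / (1 - residue O (t0 : O))) := by
    rw [hω, map_neg, map_mul, hrs', div_eq_mul_inv]
  rw [← hrω] at hgood
  have hδ : x * (X t0)⁻¹ ∈ BB π X 1 := by
    rw [← hker, MonoidHom.mem_ker, map_mul, map_inv]
    rw [hχ] at ht
    have : φ (X t0) = φ x := by exact_mod_cast ht
    rw [this, mul_inv_cancel]
  have hγ : y * (X s0)⁻¹ ∈ BB π X (0 + 1) := by
    rw [zero_add, ← hker, MonoidHom.mem_ker, map_mul, map_inv]
    rw [← hrs, hχ] at hs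
    have : φ (X s0) = φ y := by exact_mod_cast hs
    rw [this, mul_inv_cancel]
  obtain ⟨u, hu, h1, h2⟩ := joint_lift hπ X hM 0 ω hgood hδ hγ
  rw [pow_zero, one_mul] at h2
  obtain ⟨u1, hu1⟩ := isUnit_one_add hπ hu
  obtain ⟨u2, hu2⟩ : IsUnit (1 + ω * u) := isUnit_one_add hπ (Dvd.dvd.mul_left hu _)
  refine ⟨t0 * u1, s0 * u2, ?_, ?_, ?_⟩
  · push_cast
    rw [hu1, hu2, hω]
    have e : (t0 : O) * (1 + u) + s0 * (1 + -((t0 : O) * (s0⁻¹ : Oˣ)) * u)
        = t0 * (1 + u) + s0 - t0 * u * (s0 * (s0⁻¹ : Oˣ)) := by ring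
    rw [e, hss, hs0']
    ring
  · rw [map_mul, ← XT_coe X u1, hu1, h1, mul_comm, inv_mul_cancel_right]
  · rw [map_mul, ← XT_coe X u2, hu2, h2, mul_comm, inv_mul_cancel_right]

include hπ hp hM hφ hker hχ in
theorem wild_formula' :
    NR π X g = wildSet φ (X (-1)) g (HH χ) (NN χ) (BB π X) := by
  unfold NR wildSet
  have hsmall : smallSet π X g
      = {q : A × A | ∃ n : ℕ, 1 ≤ n ∧ φ (q.1 * (g ^ n)⁻¹) ∈ HH χ ∧ q.2 ∈ BB π X n} := by
    ext ⟨a, b⟩
    constructor
    · rintro ⟨n, w, v, hn, hv, h⟩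
      obtain ⟨m, rfl⟩ : ∃ m, n = m + 1 := ⟨n - 1, by omega⟩
      have h1 : a = g ^ (m + 1) * X w := congrArg Prod.fst h
      have h2 : b = X v := congrArg Prod.snd h
      refine ⟨m + 1, hn, ?_, ?_⟩
      · rw [range_resChar X φ hker χ hχ]
        refine ⟨w, ?_⟩
        simp only [h1]
        rw [mul_comm (g ^ (m + 1)), mul_inv_cancel_right]
      · refine ⟨v, ?_, h2.symm⟩
        change π ^ (m + 1) ∣ (v : O) - 1
        rw [hv]
        exact ⟨-w, by ring⟩
    · rintro ⟨n, hn, h1, h2⟩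
      obtain ⟨m, rfl⟩ : ∃ m, n = m + 1 := ⟨n - 1, by omega⟩
      rw [range_resChar X φ hker χ hχ] at h1
      obtain ⟨w, v, hv, hw1, hw2⟩ := small_pair hπ hp X hM φ hφ hker χ hχ m h1 h2
      refine ⟨m + 1, w, v, hn, hv, ?_⟩
      rw [hw1, hw2]
      have : g ^ (m + 1) * (a * (g ^ (m + 1))⁻¹) = a := by
        rw [mul_comm, inv_mul_cancel_right]
      rw [this]
  rw [hsmall]
  congr 1
  ext ⟨a, b⟩
  constructor
  · rintro ⟨t, s, hts, h⟩
    have h1 : a = X t := congrArg Prod.fst h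
    have h2 : b = X s := congrArg Prod.snd h
    change (φ a, φ b) ∈ NN χ
    rw [mem_NN_field]
    refine ⟨residue O t, residue O s, ?_, ?_, ?_⟩
    · rw [← map_add, hts, map_one]
    · rw [hχ, h1]
    · rw [hχ, h2]
  · intro h
    obtain ⟨t, s, hts, h1, h2⟩ := unit_pair hπ hp X hM φ hφ hker χ hχ h
    exact ⟨t, s, hts, by rw [h1, h2]⟩

end formula

/-- The pair set of a discrete place with infinite residue field of characteristic `p`. -/
theorem wild_formula [Finite A] {A' : Type*} [CommGroup A'] {π : O} (hπ : Irreducible π)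
    [Infinite (IsLocalRing.ResidueField O)] {p : ℕ} (hp : p.Prime)
    [CharP (IsLocalRing.ResidueField O) p] (X : Oˣ →* A) (g : A) {M : ℕ} (_hM1 : 1 ≤ M)
    (hM : BB π X M = ⊥) (φ : A →* A') (hφ : Function.Surjective φ) (hker : φ.ker = BB π X 1)
    (χ : IsLocalRing.ResidueField O →*₀ WithZero A')
    (hχ : ∀ u : Oˣ, χ (IsLocalRing.residue O u) = φ (X u)) :
    NR π X g = wildSet φ (X (-1)) g (HH χ) (NN χ) (BB π X) :=
  wild_formula' hπ hp X g hM φ hφ hker χ hχ

end wildf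

end HypQ
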