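import Pool.Agent.Lib.MP_9f0b3e_al.DerBase
import Pool.Agent.Lib.MP_9f0b3e_al.VTopChar
import Pool.Agent.Lib.MP_9f0b3e_al.RankOne
import Pool.Agent.Lib.MP_9f0b3e_al.WildF
import Pool.Agent.Lib.MP_9f0b3e_al.ChainOk
import Pool.Agent.Lib.MP_9f0b3e_al.DvrForm

/-!
# The local step of completeness: reduced local characters are derivable
-/

set_option autoImplicit false

namespace HypQ

open IsLocalRing

/-! ### sign type -/

theorem der_sign {c : ℕ} {K A : Type} [Field K] [Infinite K] [CharP K c] [CharZero K]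
    [CommGroup A] [Finite A] (X : K →*₀ WithZero A) (hX : ∃ a, a ≠ 0 ∧ X a ≠ 1)
    (α : (ZMod c)ˣ →* A) (hα : IsPrimeRes c X α)
    (h1 : ∀ a : K, a ≠ 0 → X a = 1 ∨ X (-a) = 1)
    (h2 : X (-1) ≠ 1 → ∀ x y : K, x ≠ 0 → X x = X y → x + y ≠ 0 ∧ X (x + y) = X x) :
    Der c A α (HH X) (NN X) := by
  obtain rfl : c = 0 := CharP.eq K ‹CharP K c› (CharP.ofCharZero K)
  have hε : X (-1) = (α (-1) : WithZero A) :=
    primeRes_neg_one (ZMod.castHom (dvd_refl 0) K) hα
  set ε := α (-1) with hεdef
  have hε1 : X (-1) ≠ 1 := by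
    intro h
    obtain ⟨a, ha, hXa⟩ := hX
    rcases h1 a ha with h3 | h3
    · exact hXa h3
    · rw [char_neg X hε, ← hε, h, one_mul] at h3
      exact hXa h3
  have hεε := eps_mul_eps X hε
  have hεne : ε ≠ 1 := by
    intro h
    apply hε1
    rw [hε, h, WithZero.coe_one]
  have hval : ∀ (a : K) (x : A), X a = x → x = 1 ∨ x = ε := by
    intro a x hx
    rcases h1 a (ne_zero_of_coe X hx) with h3 | h3
    · left
      rw [hx] at h3
      exact_mod_cast h3
    · right
      rw [char_neg X hε, hx] at h3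
      have h4 : ε * x = 1 := by exact_mod_cast h3
      calc x = ε * ε * x := by rw [hεε, one_mul]
        _ = ε * (ε * x) := by rw [mul_assoc]
        _ = ε := by rw [h4, mul_one]
  have hH : HH X = Subgroup.zpowers ε := by
    apply le_antisymm
    · intro x hx
      obtain ⟨a, ha⟩ := (mem_HH_field X x).mp hx
      rcases hval a x ha with h3 | h3
      · rw [h3]; exact Subgroup.one_mem _
      · rw [h3]; exact Subgroup.mem_zpowers _
    · rw [Subgroup.zpowers_le]
      exact (mem_HH_field X ε).mpr ⟨-1, hε⟩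
  have hεH : ε ∈ HH X := (mem_HH_field X ε).mpr ⟨-1, hε⟩
  have hN : NN X = {(1, 1), (1, ε), (ε, 1)} := by
    apply Set.Subset.antisymm
    · rintro ⟨x, y⟩ hxy
      obtain ⟨a, b, hab, ha, hb⟩ := (mem_NN_field X x y).mp hxy
      rcases hval a x ha with hx | hx <;> rcases hval b y hb with hy | hy
      · left; rw [hx, hy]
      · right; left; rw [hx, hy]
      · right; right; rw [hx, hy]; rfl
      · exfalso
        have h3 := h2 hε1 a b (ne_zero_of_coe X ha) (by rw [ha, hb, hx, hy])
        rw [hab, map_one, ha, hx] at h3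
        apply hεne
        exact (by exact_mod_cast h3.2.symm)
    · have ht := tameSet_subset_NN X ε hε
      rintro p (rfl | rfl | rfl)
      · exact ht ⟨1, Subgroup.one_mem _, Or.inl rfl⟩
      · exact ht ⟨ε, hεH, Or.inr (Or.inl rfl)⟩
      · exact ht ⟨ε, hεH, Or.inl rfl⟩
  rw [hH, hN]
  exact Der.sign A α

/-! ### residue characteristic -/

theorem residue_char {c : ℕ} (hc : c = 0 ∨ c.Prime) {O : Type*} [CommRing O] [IsLocalRing O]
    [CharP O c] (p : ℕ) [CharP (ResidueField O) p] : p = c ∨ (c = 0 ∧ p.Prime) := by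
  rcases hc with rfl | hc
  · rcases CharP.char_is_prime_or_zero (ResidueField O) p with h | h
    · exact Or.inr ⟨rfl, h⟩
    · exact Or.inl h
  · left
    have h1 : (c : ResidueField O) = 0 := by
      rw [← map_natCast (residue O), CharP.cast_eq_zero O c, map_zero]
    have h2 : p ∣ c := (CharP.cast_eq_zero_iff (ResidueField O) p c).mp h1
    rcases (Nat.dvd_prime hc).mp h2 with h3 | h3
    · exfalso
      have := CharP.char_ne_one (ResidueField O) p
      exact this h3
    · exact h3

theorem charP_valuationSubring {c : ℕ} {K : Type*} [Field K] [CharP K c]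
    (O : ValuationSubring K) : CharP O c :=
  RingHom.charP O.subtype Subtype.val_injective c

/-- restriction to the prime ring of a residue character -/
theorem primeRes_residue {c : ℕ} {K A : Type*} [Field K] [CommGroup A] (O : ValuationSubring K)
    (X : K →*₀ WithZero A) (χ : ResidueField O →*₀ WithZero A)
    (hχ : ∀ x : O, IsUnit x → χ (residue O x) = X (x : K)) {α : (ZMod c)ˣ →* A}
    (hα : IsPrimeRes c X α) (jO : ZMod c →+* O) : IsPrimeRes c χ α := by
  intro j u
  have h1 : j = (residue O).comp jO := Subsingleton.elim _ _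
  rw [h1]
  have h2 := hα (O.subtype.comp jO) u
  rw [← h2]
  exact hχ (jO u) (u.isUnit.map jO)

/-- the units of the residue field see the character -/
theorem HH_residue_le {K A : Type*} [Field K] [CommGroup A] (O : ValuationSubring K)
    (X : K →*₀ WithZero A) (χ : ResidueField O →*₀ WithZero A)
    (hχ : ∀ x : O, IsUnit x → χ (residue O x) = X (x : K)) : HH χ ≤ HH X := by
  intro a ha
  obtain ⟨y, hy⟩ := (mem_HH_field χ a).mp ha
  have hy0 := ne_zero_of_coe χ hy
  obtain ⟨x, rfl⟩ := residue_surjective y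
  refine (mem_HH_field X a).mpr ⟨x, ?_⟩
  rw [← hχ x, hy]
  by_contra h
  exact hy0 ((residue_eq_zero_iff x).mpr ((mem_maximalIdeal x).mpr h))

/-! ### tame type -/

/-- the pair set of the chain ring given by a finite field -/
theorem NR_field {k A : Type*} [Field k] [CommGroup A] (χ : k →*₀ WithZero A) (X : kˣ →* A)
    (hX : ∀ u : kˣ, χ u = X u) : NR (0 : k) X 1 = NN χ ∪ tameSet (X (-1)) (HH χ) := by
  have hr : ∀ y : A, y ∈ HH χ ↔ ∃ w : kˣ, X w = y := by
    intro y
    rw [mem_HH_field]
    constructor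
    · rintro ⟨a, ha⟩
      have ha0 := ne_zero_of_coe χ ha
      refine ⟨Units.mk0 a ha0, ?_⟩
      have := hX (Units.mk0 a ha0)
      rw [Units.val_mk0, ha] at this
      exact (by exact_mod_cast this.symm)
    · rintro ⟨w, rfl⟩
      exact ⟨w, hX w⟩
  have h1 : unitSet X = NN χ := by
    ext ⟨x, y⟩
    rw [mem_NN_field]
    constructor
    · rintro ⟨t, s, hts, h⟩
      have e1 : x = X t := congrArg Prod.fst h
      have e2 : y = X s := congrArg Prod.snd h
      exact ⟨t, s, hts, by rw [hX, e1], by rw [hX, e2]⟩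
    · rintro ⟨a, b, hab, ha, hb⟩
      have ha0 := ne_zero_of_coe χ ha
      have hb0 := ne_zero_of_coe χ hb
      refine ⟨Units.mk0 a ha0, Units.mk0 b hb0, by simpa using hab, ?_⟩
      have e1 := hX (Units.mk0 a ha0)
      have e2 := hX (Units.mk0 b hb0)
      rw [Units.val_mk0, ha] at e1
      rw [Units.val_mk0, hb] at e2
      have e1' : x = X (Units.mk0 a ha0) := by exact_mod_cast e1
      have e2' : y = X (Units.mk0 b hb0) := by exact_mod_cast e2
      rw [← e1', ← e2']
  have h2 : smallSet (0 : k) X 1 = {p | p.1 ∈ HH χ ∧ p.2 = 1} := by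
    ext ⟨x, y⟩
    constructor
    · rintro ⟨n, w, v, hn, hv, h⟩
      have e1 : x = 1 ^ n * X w := congrArg Prod.fst h
      have e2 : y = X v := congrArg Prod.snd h
      have hv1 : v = 1 := by
        ext
        rw [hv, zero_pow (by omega)]
        simp
      refine ⟨?_, ?_⟩
      · change x ∈ HH χ
        rw [hr, e1]
        exact ⟨w, by simp⟩
      · change y = 1
        rw [e2, hv1, map_one]
    · rintro ⟨h3, h4⟩
      change x ∈ HH χ at h3
      change y = 1 at h4
      obtain ⟨w, hw⟩ := (hr x).mp h3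
      exact ⟨1, w, 1, le_rfl, by simp, by rw [h4, hw]; simp⟩
  have h3 : placeSet (X (-1)) (smallSet (0 : k) X 1) = tameSet (X (-1)) (HH χ) := by
    rw [h2]
    ext p
    constructor
    · rintro ⟨y, b, ⟨hy, hb⟩, hp⟩
      change y ∈ HH χ at hy
      change b = 1 at hb
      subst hb
      rcases hp with hp | hp | hp
      · exact ⟨y, hy, Or.inl hp⟩
      · exact ⟨y, hy, Or.inr (Or.inl hp)⟩
      · exact ⟨y⁻¹, Subgroup.inv_mem _ hy, Or.inr (Or.inr (by rw [hp, mul_one]))⟩
    · rintro ⟨y, hy, hp⟩
      rcases hp with hp | hp | hp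
      · exact ⟨y, 1, ⟨hy, rfl⟩, Or.inl hp⟩
      · exact ⟨y, 1, ⟨hy, rfl⟩, Or.inr (Or.inl hp)⟩
      · exact ⟨y⁻¹, 1, ⟨Subgroup.inv_mem _ hy, rfl⟩, Or.inr (Or.inr (by rw [hp]; simp))⟩
  rw [NR, h1, h3]

theorem der_tame {c : ℕ} (hc : c = 0 ∨ c.Prime) {K A : Type} [Field K] [CharP K c]
    [CommGroup A] [Finite A] (X : K →*₀ WithZero A) (α : (ZMod c)ˣ →* A)
    (hα : IsPrimeRes c X α) (O : ValuationSubring K) (χ : ResidueField O →*₀ WithZero A)
    (hχ : ∀ x : O, IsUnit x → χ (residue O x) = X (x : K)) (ε : A) (hε : X (-1) = ε)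
    (hN : NN X = NN χ ∪ tameSet ε (HH X))
    (IH : Infinite (ResidueField O) → ∀ (p : ℕ) [CharP (ResidueField O) p] (A' : Type)
      [CommGroup A'] [Finite A'] (χ : ResidueField O →*₀ WithZero A') (α' : (ZMod p)ˣ →* A'),
      IsPrimeRes p χ α' → Der p A' α' (HH χ) (NN χ)) :
    Der c A α (HH X) (NN X) := by
  have : CharP O c := charP_valuationSubring O
  let jO : ZMod c →+* O := ZMod.castHom (dvd_refl c) O
  have hα1 : ε = α (-1) := by
    have := primeRes_neg_one (ZMod.castHom (dvd_refl c) K) hα
    rw [hε] at this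
    exact (by exact_mod_cast this)
  have hle : HH χ ≤ HH X := HH_residue_le O X χ hχ
  have hχα : IsPrimeRes c χ α := primeRes_residue O X χ hχ hα jO
  rw [hN, hα1]
  by_cases hfin : Finite (ResidueField O)
  · -- finite residue field
    let j : ZMod c →+* ResidueField O := (residue O).comp jO
    let Xk : (ResidueField O)ˣ →* A :=
      (WithZero.unitsWithZeroEquiv : (WithZero A)ˣ ≃* A).toMonoidHom.comp
        (Units.map (χ : ResidueField O →* WithZero A))
    have hXk : ∀ u : (ResidueField O)ˣ, χ u = Xk u := by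
      intro u
      simp [Xk]
    have hchain : IsChain (ResidueField O) (0 : ResidueField O) := by
      refine ⟨inferInstance, ⟨1, by simp⟩, fun x => ?_⟩
      by_cases hx : x = 0
      · right; exact ⟨0, by simp [hx]⟩
      · left; exact isUnit_iff_ne_zero.mpr hx
    have h1 := Der.fin c hc A (ResidueField O) 0 hchain j Xk 1
    have h2 : Xk.comp (Units.map j.toMonoidHom) = α := by
      ext u
      have e1 := hXk (Units.map j.toMonoidHom u)
      have e2 := hχα j u
      have e3 : ((Units.map j.toMonoidHom u : (ResidueField O)ˣ) : ResidueField O)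
          = j (u : ZMod c) := rfl
      rw [e3, e2] at e1
      exact (by exact_mod_cast e1.symm)
    have h3 : Xk.range ⊔ Subgroup.zpowers (1 : A) = HH χ := by
      rw [Subgroup.zpowers_one_eq_bot, sup_bot_eq]
      ext y
      rw [mem_HH_field]
      constructor
      · rintro ⟨w, rfl⟩
        exact ⟨w, hXk w⟩
      · rintro ⟨a, ha⟩
        have ha0 := ne_zero_of_coe χ ha
        refine ⟨Units.mk0 a ha0, ?_⟩
        have := hXk (Units.mk0 a ha0)
        rw [Units.val_mk0, ha] at this
        exact (by exact_mod_cast this.symm)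
    have h4 : Xk (-1) = α (-1) := by
      have e1 := hXk (-1)
      have e2 := primeRes_neg_one j hχα
      rw [Units.val_neg, Units.val_one, e2] at e1
      exact (by exact_mod_cast e1.symm)
    rw [h2, h3, NR_field χ Xk hXk, h4] at h1
    have h5 := h1.tame_le hle
    rwa [Set.union_assoc, Set.union_eq_self_of_subset_left (tameSet_mono hle)] at h5
  · -- infinite residue field
    have hinf : Infinite (ResidueField O) := not_finite_iff_infinite.mp hfin
    obtain ⟨p, hp⟩ := CharP.exists (ResidueField O)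
    have h1 : Der c A α (HH χ) (NN χ) := by
      rcases residue_char hc (O := O) p with rfl | ⟨rfl, hpp⟩
      · exact IH hinf p A χ α hχα
      · obtain ⟨α', hα'⟩ := exists_primeRes p χ
        refine Der.red p hpp A α' α ?_ _ _ (IH hinf p A χ α' hα')
        have e1 := primeRes_neg_one (ZMod.castHom (dvd_refl p) (ResidueField O)) hα'
        have e2 := primeRes_neg_one ((residue O).comp jO) hχα
        rw [e2] at e1
        exact (by exact_mod_cast e1)
    exact h1.tame_le hle

end HypQ
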