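import Mathlib

/-!
# Module DISC: a nonarchimedean real absolute value is dense or discrete
-/

set_option autoImplicit false

namespace HypQ

/-- The valuation subring of a nonarchimedean absolute value. -/
def absRing {K : Type*} [Field K] (v : AbsoluteValue K ℝ) (hv : IsNonarchimedean v) :
    ValuationSubring K where
  carrier := {x | v x ≤ 1}
  mul_mem' := by
    intro a b ha hb
    simp only [Set.mem_setOf_eq, map_mul] at *
    exact mul_le_one₀ ha (v.nonneg b) hb
  one_mem' := by simp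
  add_mem' := by
    intro a b ha hb
    simp only [Set.mem_setOf_eq] at *
    exact (hv a b).trans (max_le ha hb)
  zero_mem' := by simp
  neg_mem' := by
    intro a ha
    simpa using ha
  mem_or_inv_mem' := by
    intro x
    simp only [Set.mem_setOf_eq]
    by_cases h : v x ≤ 1
    · exact Or.inl h
    · right
      rw [map_inv₀]
      exact inv_le_one_of_one_le₀ (not_le.mp h).le

theorem mem_absRing {K : Type*} [Field K] (v : AbsoluteValue K ℝ) (hv : IsNonarchimedean v)
    (x : K) : x ∈ absRing v hv ↔ v x ≤ 1 := Iff.rfl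

theorem isUnit_absRing {K : Type*} [Field K] (v : AbsoluteValue K ℝ) (hv : IsNonarchimedean v)
    (x : absRing v hv) : IsUnit x ↔ v (x : K) = 1 := by
  constructor
  · rintro ⟨u, rfl⟩
    have h1 : v ((u : absRing v hv) : K) ≤ 1 := (u : absRing v hv).2
    have h2 : v (((u⁻¹ : (absRing v hv)ˣ) : absRing v hv) : K) ≤ 1 :=
      ((u⁻¹ : (absRing v hv)ˣ) : absRing v hv).2
    have h3 : v ((u : absRing v hv) : K) * v (((u⁻¹ : (absRing v hv)ˣ) : absRing v hv) : K)
        = 1 := by
      rw [← map_mul]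
      have : ((u : absRing v hv) : K) * (((u⁻¹ : (absRing v hv)ˣ) : absRing v hv) : K) = 1 := by
        have := u.mul_inv
        exact_mod_cast congrArg (Subtype.val) this
      rw [this, map_one]
    have h0 := v.nonneg ((u : absRing v hv) : K)
    have h0' := v.nonneg (((u⁻¹ : (absRing v hv)ˣ) : absRing v hv) : K)
    nlinarith
  · intro h
    have hx : (x : K) ≠ 0 := by
      intro h0
      rw [h0, map_zero] at h
      exact zero_ne_one h
    refine ⟨⟨x, ⟨(x : K)⁻¹, ?_⟩, ?_, ?_⟩, rfl⟩
    · rw [mem_absRing, map_inv₀, h, inv_one]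
    · ext
      simp [mul_inv_cancel₀ hx]
    · ext
      simp [inv_mul_cancel₀ hx]

theorem disc_of_abs {K : Type} [Field K] (v : AbsoluteValue K ℝ) (hv : IsNonarchimedean v)
    (hnt : ∃ x : K, x ≠ 0 ∧ v x ≠ 1) :
    (∀ a b : ℝ, 0 < a → a < b → ∃ x : K, a < v x ∧ v x < b) ∨
    (∃ O : ValuationSubring K, O ≠ ⊤ ∧ IsDiscreteValuationRing O ∧
      ∀ x : K, x ∈ O ↔ v x ≤ 1) := by
  classical
  -- the value group
  let S : AddSubgroup ℝ :=
    { carrier := {r | ∃ x : K, x ≠ 0 ∧ Real.log (v x) = r}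
      add_mem' := by
        rintro _ _ ⟨x, hx, rfl⟩ ⟨y, hy, rfl⟩
        refine ⟨x * y, mul_ne_zero hx hy, ?_⟩
        rw [map_mul, Real.log_mul (v.ne_zero hx) (v.ne_zero hy)]
      zero_mem' := ⟨1, one_ne_zero, by simp⟩
      neg_mem' := by
        rintro _ ⟨x, hx, rfl⟩
        refine ⟨x⁻¹, inv_ne_zero hx, ?_⟩
        rw [map_inv₀, Real.log_inv] }
  have hS : ∀ r, r ∈ S ↔ ∃ x : K, x ≠ 0 ∧ Real.log (v x) = r := fun r => Iff.rfl
  obtain ⟨x₀, hx₀, hvx₀⟩ := hnt
  rcases AddSubgroup.dense_or_cyclic S with hd | ⟨a, ha⟩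
  · left
    intro a b ha hab
    obtain ⟨r, hr, hrS⟩ := hd.exists_mem_open isOpen_Ioo (Set.nonempty_Ioo.mpr
      (Real.log_lt_log ha hab))
    obtain ⟨x, hx, hxr⟩ := (hS r).mp hr
    refine ⟨x, ?_, ?_⟩
    · rw [← hxr] at hrS
      exact (Real.log_lt_log_iff ha (v.pos hx)).mp hrS.1
    · rw [← hxr] at hrS
      exact (Real.log_lt_log_iff (v.pos hx) (ha.trans hab)).mp hrS.2
  · right
    have hlog0 : Real.log (v x₀) ≠ 0 := by
      intro h
      rcases Real.log_eq_zero.mp h with h | h | h
      · exact v.ne_zero hx₀ h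
      · exact hvx₀ h
      · have := v.nonneg x₀
        linarith
    have ha0 : a ≠ 0 := by
      rintro rfl
      have : Real.log (v x₀) ∈ S := ⟨x₀, hx₀, rfl⟩
      rw [ha, AddSubgroup.closure_singleton_zero, AddSubgroup.mem_bot] at this
      exact hlog0 this
    -- a generator of negative logarithm
    obtain ⟨b, hb0, hbS, hbgen⟩ : ∃ b : ℝ, b < 0 ∧ b ∈ S ∧ ∀ r ∈ S, ∃ n : ℤ, r = n * b := by
      have haS : a ∈ S := by
        rw [ha]
        exact AddSubgroup.subset_closure rfl
      have hgen : ∀ r ∈ S, ∃ n : ℤ, r = n * a := by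
        intro r hr
        rw [ha, AddSubgroup.mem_closure_singleton] at hr
        obtain ⟨n, hn⟩ := hr
        exact ⟨n, by rw [← hn, zsmul_eq_mul]⟩
      rcases lt_or_gt_of_ne ha0 with h | h
      · exact ⟨a, h, haS, hgen⟩
      · refine ⟨-a, by linarith, S.neg_mem haS, fun r hr => ?_⟩
        obtain ⟨n, hn⟩ := hgen r hr
        exact ⟨-n, by rw [hn]; push_cast; ring⟩
    obtain ⟨π, hπ0, hπ⟩ := (hS b).mp hbS
    have hvπ : v π < 1 := by
      rw [← hπ] at hb0
      by_contra h
      push Not at h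
      exact absurd (Real.log_nonneg h) (not_le.mpr hb0)
    have hvπ0 : 0 < v π := v.pos hπ0
    -- every value is a power
    have hpow : ∀ x : K, x ≠ 0 → ∃ n : ℤ, v x = v π ^ n := by
      intro x hx
      obtain ⟨n, hn⟩ := hbgen (Real.log (v x)) ⟨x, hx, rfl⟩
      refine ⟨n, ?_⟩
      have h1 : Real.log (v x) = Real.log (v π ^ n) := by
        rw [Real.log_zpow, hπ, hn]
      exact Real.log_injOn_pos (v.pos hx) (zpow_pos hvπ0 n) h1
    set O := absRing v hv with hO
    have hπO : π ∈ O := (mem_absRing v hv π).mpr hvπ.le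
    have hfac : ∀ x : O, x ≠ 0 → ∃ n : ℕ, v (x : K) = v π ^ n := by
      intro x hx
      have hx' : (x : K) ≠ 0 := by
        intro h
        exact hx (Subtype.ext h)
      obtain ⟨n, hn⟩ := hpow x hx'
      have hn0 : 0 ≤ n := by
        by_contra h
        push Not at h
        have h1 : 1 < v π ^ n := one_lt_zpow_of_neg₀ hvπ0 hvπ h
        have h2 : v (x : K) ≤ 1 := x.2
        rw [hn] at h2
        exact absurd h1 (not_lt.mpr h2)
      obtain ⟨m, rfl⟩ := Int.eq_ofNat_of_zero_le hn0
      exact ⟨m, by simpa using hn⟩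
    have hirr : Irreducible (⟨π, hπO⟩ : O) := by
      refine ⟨?_, ?_⟩
      · rw [isUnit_absRing]
        exact ne_of_lt hvπ
      · intro x y hxy
        have hxy' : π = (x : K) * y := congrArg Subtype.val hxy
        have hx0 : x ≠ 0 := by
          rintro rfl
          apply hπ0
          rw [hxy']
          simp
        have hy0 : y ≠ 0 := by
          rintro rfl
          apply hπ0
          rw [hxy']
          simp
        obtain ⟨n, hn⟩ := hfac x hx0
        obtain ⟨m, hm⟩ := hfac y hy0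
        have h1 : v π ^ (n + m) = v π ^ 1 := by
          rw [pow_add, ← hn, ← hm, ← map_mul, ← hxy', pow_one]
        have h2 : n + m = 1 := pow_right_injective₀ hvπ0 hvπ.ne h1
        rw [isUnit_absRing, isUnit_absRing]
        rcases Nat.eq_zero_or_pos n with h | h
        · left
          rw [hn, h, pow_zero]
        · right
          have : m = 0 := by omega
          rw [hm, this, pow_zero]
    refine ⟨O, ?_, ?_, fun x => mem_absRing v hv x⟩
    · intro htop
      have : π⁻¹ ∈ O := by rw [htop]; trivial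
      rw [hO, mem_absRing, map_inv₀] at this
      have h1 : 1 < (v π)⁻¹ := (one_lt_inv₀ hvπ0).mpr hvπ
      linarith
    · apply IsDiscreteValuationRing.ofHasUnitMulPowIrreducibleFactorization
      refine ⟨⟨π, hπO⟩, hirr, ?_⟩
      intro x hx
      obtain ⟨n, hn⟩ := hfac x hx
      refine ⟨n, ?_⟩
      have hπn : π ^ n ≠ 0 := pow_ne_zero n hπ0
      have hy : v ((x : K) * (π ^ n)⁻¹) = 1 := by
        rw [map_mul, map_inv₀, map_pow, hn]
        exact mul_inv_cancel₀ (pow_ne_zero n hvπ0.ne')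
      have hyO : (x : K) * (π ^ n)⁻¹ ∈ O := (mem_absRing v hv _).mpr hy.le
      obtain ⟨u, hu⟩ := (isUnit_absRing v hv ⟨_, hyO⟩).mpr hy
      refine ⟨u, ?_⟩
      apply Subtype.ext
      have h1 : (((⟨π, hπO⟩ : O) ^ n * (u : O) : O) : K) = π ^ n * ((u : O) : K) := rfl
      rw [h1, hu]
      change π ^ n * ((x : K) * (π ^ n)⁻¹) = x
      field_simp

end HypQ
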