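import Mathlib

/-!
# Discrete valuation rings from the height theorem

A Noetherian local ring whose maximal ideal is generated by a non-nilpotent element is a discrete
valuation ring; this is applied to the localisation of `R/(s)` at the prime `P = (y, s)`, where
`height P > card s`.
-/

set_option autoImplicit false

namespace HypQ

namespace DvrAux

section loc

variable {O : Type} [CommRing O] [IsNoetherianRing O] [IsLocalRing O] {y : O}

/-- in a Noetherian local ring with maximal ideal `(y)` every nonzero element is `u y^k`. -/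
lemma exists_pow (hy : IsLocalRing.maximalIdeal O = Ideal.span {y}) (x : O) (hx : x ≠ 0) :
    ∃ (k : ℕ) (u : O), IsUnit u ∧ x = u * y ^ k := by
  classical
  have hm : Ideal.span {y} ≠ ⊤ := by
    rw [← hy]; exact Ideal.IsPrime.ne_top'
  have h1 := Ideal.iInf_pow_eq_bot_of_isLocalRing (Ideal.span {y}) hm
  have h2 : ∃ n : ℕ, x ∉ (Ideal.span {y}) ^ n := by
    by_contra hcon
    push Not at hcon
    apply hx
    have : x ∈ ⨅ i : ℕ, (Ideal.span {y}) ^ i := by
      rw [Submodule.mem_iInf]; exact hcon
    rw [h1] at this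
    exact this
  have h3 := Nat.find_spec h2
  rcases Nat.eq_zero_or_pos (Nat.find h2) with h0 | h0
  · rw [h0, pow_zero] at h3
    exact absurd (by rw [Ideal.one_eq_top]; trivial) h3
  · obtain ⟨k, hk⟩ : ∃ k, Nat.find h2 = k + 1 := ⟨Nat.find h2 - 1, by omega⟩
    have h4 : x ∈ (Ideal.span {y}) ^ k := by
      by_contra hcon
      exact Nat.find_min h2 (by omega) hcon
    rw [Ideal.span_singleton_pow, Ideal.mem_span_singleton] at h4
    obtain ⟨u, hu⟩ := h4
    refine ⟨k, u, ?_, by rw [hu, mul_comm]⟩
    by_contra hnu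
    have h5 : u ∈ IsLocalRing.maximalIdeal O := hnu
    rw [hy, Ideal.mem_span_singleton] at h5
    obtain ⟨v, hv⟩ := h5
    apply h3
    rw [hk, Ideal.span_singleton_pow, Ideal.mem_span_singleton]
    exact ⟨v, by rw [hu, hv]; ring⟩

lemma isDomain_of (hy : IsLocalRing.maximalIdeal O = Ideal.span {y}) (hn : ¬ IsNilpotent y) :
    IsDomain O := by
  have : NoZeroDivisors O := by
    constructor
    intro a b hab
    by_contra hcon
    push Not at hcon
    obtain ⟨k, u, hu, rfl⟩ := exists_pow hy a hcon.1
    obtain ⟨l, v, hv, rfl⟩ := exists_pow hy b hcon.2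
    apply hn
    refine ⟨k + l, ?_⟩
    have h1 : (u * v) * y ^ (k + l) = 0 := by rw [← hab]; ring
    exact (hu.mul hv).mul_right_eq_zero.1 h1
  exact NoZeroDivisors.to_isDomain O

lemma irreducible_of (hy : IsLocalRing.maximalIdeal O = Ideal.span {y}) (hn : ¬ IsNilpotent y) :
    Irreducible y := by
  have hmem : y ∈ IsLocalRing.maximalIdeal O := by
    rw [hy]; exact Ideal.mem_span_singleton_self y
  have := isDomain_of hy hn
  have hy0 : y ≠ 0 := fun h => hn (by rw [h]; exact IsNilpotent.zero)
  refine ⟨hmem, ?_⟩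
  intro a b hab
  by_contra hcon
  push Not at hcon
  have ha : a ∈ IsLocalRing.maximalIdeal O := hcon.1
  have hb : b ∈ IsLocalRing.maximalIdeal O := hcon.2
  rw [hy, Ideal.mem_span_singleton] at ha hb
  obtain ⟨a', rfl⟩ := ha
  obtain ⟨b', rfl⟩ := hb
  have h1 : y * (1 - y * (a' * b')) = 0 := by linear_combination hab
  rcases mul_eq_zero.1 h1 with h2 | h2
  · exact hy0 h2
  · apply hmem
    exact IsUnit.of_mul_eq_one (a' * b') (by linear_combination -h2)

lemma isDVR_of [IsDomain O] (hy : IsLocalRing.maximalIdeal O = Ideal.span {y})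
    (hn : ¬ IsNilpotent y) : IsDiscreteValuationRing O := by
  apply IsDiscreteValuationRing.ofHasUnitMulPowIrreducibleFactorization
  refine ⟨y, irreducible_of hy hn, ?_⟩
  intro x hx
  obtain ⟨k, u, hu, rfl⟩ := exists_pow hy x hx
  refine ⟨k, hu.unit, ?_⟩
  rw [IsUnit.unit_spec, mul_comm]

end loc

end DvrAux

open DvrAux in
/-- A Noetherian local ring quotient by a regular-type sequence is a DVR. -/
theorem dvr_of_height {R : Type} [CommRing R] [IsNoetherianRing R] (P : Ideal R) [P.IsPrime]
    (s : Finset R) (y : R) (hP : Ideal.span (insert y (s : Set R)) = P)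
    (hh : (s.card : ℕ∞) < P.height) :
    ∃ (O : Type) (_ : CommRing O) (_ : IsDomain O) (_ : IsDiscreteValuationRing O)
      (f : R →+* O), (∀ r ∈ s, f r = 0) ∧ Irreducible (f y) ∧
      (∀ r : R, r ∉ P ↔ IsUnit (f r)) ∧
      (∀ (T : Type) [CommRing T] (g : R →+* T), (∀ r ∈ s, g r = 0) → (∀ r ∉ P, IsUnit (g r)) →
        ∃ g' : O →+* T, g'.comp f = g) ∧
      (∀ x : O, ∃ a b : R, b ∉ P ∧ x * f b = f a) := by
  classical
  let I : Ideal R := Ideal.span (s : Set R)
  have hIP : I ≤ P := by rw [← hP]; exact Ideal.span_mono (Set.subset_insert _ _)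
  have hyP : y ∈ P := by rw [← hP]; exact Ideal.subset_span (Set.mem_insert _ _)
  let RP := Localization.AtPrime P
  let J : Ideal RP := I.map (algebraMap R RP)
  let O := RP ⧸ J
  let f : R →+* O := (Ideal.Quotient.mk J).comp (algebraMap R RP)
  have hJ : J ≤ IsLocalRing.maximalIdeal RP := by
    rw [← Localization.AtPrime.map_eq_maximalIdeal]
    exact Ideal.map_mono hIP
  have hJt : J ≠ ⊤ := fun h => by
    rw [h, top_le_iff] at hJ
    exact Ideal.IsPrime.ne_top' hJ
  have hnt : Nontrivial O := Ideal.Quotient.nontrivial_iff.2 hJt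
  have hloc : IsLocalRing O := IsLocalRing.of_surjective' (Ideal.Quotient.mk J)
    Ideal.Quotient.mk_surjective
  have hnoeth : IsNoetherianRing O := inferInstance
  have hunit : ∀ z : RP, IsUnit (Ideal.Quotient.mk J z) ↔ IsUnit z := by
    intro z
    constructor
    · intro h
      by_contra hz
      obtain ⟨w, hw⟩ := isUnit_iff_exists_inv.1 h
      obtain ⟨w, rfl⟩ := Ideal.Quotient.mk_surjective w
      rw [← map_mul, ← map_one (Ideal.Quotient.mk J), Ideal.Quotient.eq] at hw
      have h1 : z * w - 1 ∈ IsLocalRing.maximalIdeal RP := hJ hw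
      have h2 : z * w ∈ IsLocalRing.maximalIdeal RP :=
        Ideal.mul_mem_right _ _ (show z ∈ IsLocalRing.maximalIdeal RP from hz)
      have h3 : (1 : RP) ∈ IsLocalRing.maximalIdeal RP := by
        have := Ideal.sub_mem _ h2 h1
        rwa [sub_sub_cancel] at this
      exact (IsLocalRing.mem_maximalIdeal _).1 h3 isUnit_one
    · intro h
      exact h.map _
  have hfunit : ∀ r : R, r ∉ P ↔ IsUnit (f r) := by
    intro r
    show r ∉ P ↔ IsUnit (Ideal.Quotient.mk J (algebraMap R RP r))
    rw [hunit, IsLocalization.AtPrime.isUnit_to_map_iff RP P]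
    rfl
  have hs : ∀ r ∈ s, f r = 0 := by
    intro r hr
    show Ideal.Quotient.mk J (algebraMap R RP r) = 0
    rw [Ideal.Quotient.eq_zero_iff_mem]
    exact Ideal.mem_map_of_mem _ (Ideal.subset_span hr)
  have hfrac : ∀ x : O, ∃ a b : R, b ∉ P ∧ x * f b = f a := by
    intro x
    obtain ⟨z, rfl⟩ := Ideal.Quotient.mk_surjective x
    obtain ⟨⟨a, b⟩, hab⟩ := IsLocalization.surj P.primeCompl z
    refine ⟨a, b, b.2, ?_⟩
    show Ideal.Quotient.mk J z * Ideal.Quotient.mk J (algebraMap R RP b) =
      Ideal.Quotient.mk J (algebraMap R RP a)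
    rw [← map_mul, hab]
  -- maximal ideal
  have hmax : IsLocalRing.maximalIdeal O = Ideal.span {f y} := by
    apply le_antisymm
    · intro x hx
      obtain ⟨a, b, hb, hab⟩ := hfrac x
      have hbu := (hfunit b).1 hb
      have ha : a ∈ P := by
        by_contra ha
        have hau := (hfunit a).1 ha
        rw [← hab] at hau
        exact hx (isUnit_of_mul_isUnit_left hau)
      have h1 : ∀ c ∈ P, f c ∈ Ideal.span {f y} := by
        intro c hc
        rw [← hP] at hc
        induction hc using Submodule.span_induction with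
        | mem c hc =>
          rcases hc with rfl | hc
          · exact Ideal.mem_span_singleton_self _
          · rw [hs c hc]; exact Ideal.zero_mem _
        | zero => rw [map_zero]; exact Ideal.zero_mem _
        | add c d _ _ hc hd => rw [map_add]; exact Ideal.add_mem _ hc hd
        | smul r c _ hc => rw [smul_eq_mul, map_mul]; exact Ideal.mul_mem_left _ _ hc
      have h2 := h1 a ha
      rw [← hab] at h2
      exact (Ideal.mul_unit_mem_iff_mem _ hbu).1 h2
    · rw [Ideal.span_le, Set.singleton_subset_iff]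
      intro hu
      exact (hfunit y).2 hu hyP
  -- not nilpotent
  have hnil : ¬ IsNilpotent (f y) := by
    rintro ⟨n, hn⟩
    have h1 : algebraMap R RP (y ^ n) ∈ J := by
      rw [← Ideal.Quotient.eq_zero_iff_mem, map_pow, map_pow]
      exact hn
    obtain ⟨⟨a, m⟩, ham⟩ := (IsLocalization.mem_map_algebraMap_iff P.primeCompl RP).1 h1
    rw [← map_mul] at ham
    obtain ⟨c, hc⟩ := (IsLocalization.eq_iff_exists P.primeCompl RP).1 ham
    have hmin : P ∈ (Ideal.span (s : Set R)).minimalPrimes := by
      refine ⟨⟨inferInstance, hIP⟩, ?_⟩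
      rintro q ⟨hq, hIq⟩ hqP
      have hcm : (c : R) * (y ^ n * (m : R)) ∈ q := by
        rw [hc]
        exact q.mul_mem_left _ (hIq a.2)
      have hyq : y ∈ q := by
        rcases hq.mem_or_mem hcm with h2 | h2
        · exact absurd (hqP h2) c.2
        · rcases hq.mem_or_mem h2 with h3 | h3
          · exact hq.mem_of_pow_mem _ h3
          · exact absurd (hqP h3) m.2
      rw [← hP, Ideal.span_le]
      intro r hr
      rcases hr with rfl | hr
      · exact hyq
      · exact hIq (Ideal.subset_span hr)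
    exact absurd hh (not_lt.2 (Ideal.height_le_card_of_mem_minimalPrimes_span_finset hmin))
  have hdom := isDomain_of hmax hnil
  refine ⟨O, inferInstance, hdom, isDVR_of hmax hnil, f, hs, irreducible_of hmax hnil, hfunit,
    ?_, hfrac⟩
  intro T _ g hg hgu
  let g₁ : RP →+* T := IsLocalization.lift (M := P.primeCompl) (g := g) (fun r => hgu r r.2)
  have hg₁ : ∀ z ∈ J, g₁ z = 0 := by
    intro z hz
    have : J ≤ RingHom.ker g₁ := by
      rw [Ideal.map_le_iff_le_comap, Ideal.span_le]
      intro r hr
      show g₁ (algebraMap R RP r) = 0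
      rw [IsLocalization.lift_eq, hg r hr]
    exact this hz
  refine ⟨Ideal.Quotient.lift J g₁ hg₁, ?_⟩
  ext r
  show Ideal.Quotient.lift J g₁ hg₁ (Ideal.Quotient.mk J (algebraMap R RP r)) = g r
  rw [Ideal.Quotient.lift_mk, IsLocalization.lift_eq]

end HypQ
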