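import Pool.Agent.Lib.MP_9f0b3e_al.Basic

/-!
# The ideal `D` and the ring `R` attached to a reduced character of an extension

`K ⊆ L` fields, `ψ : L →*₀ Γ`. `RedExt K ψ` says that the type of `ψ` is reduced, with witnesses in
`K`.
-/

set_option autoImplicit false

namespace HypQ

open Finset

variable {K L Γ : Type*} [Field K] [Field L] [Algebra K L] [CommGroupWithZero Γ]

/-- `(L, ψ)` is reduced with witnesses in `K`: for every `z ≠ 1` (also `z = 0`) there is a zero-sum
triple `(a, b, c)` of nonzero elements of `K` such that no zero-sum triple of `L` has classes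
`(z ψ(a), ψ(b), ψ(c))`. -/
def RedExt (K : Type*) {L Γ : Type*} [Field K] [Field L] [Algebra K L] [CommGroupWithZero Γ]
    (ψ : L →*₀ Γ) : Prop :=
  ∀ z : Γ, z ≠ 1 → ∃ a b c : K, a ≠ 0 ∧ b ≠ 0 ∧ c ≠ 0 ∧ a + b + c = 0 ∧
    ∀ a' b' c' : L, a' + b' + c' = 0 → ψ a' = z * ψ (algebraMap K L a) →
      ψ b' = ψ (algebraMap K L b) → ψ c' = ψ (algebraMap K L c) → False

/-- Membership in `D`. -/
def MemD (K : Type*) {L Γ : Type*} [Field K] [Field L] [Algebra K L] [CommGroupWithZero Γ]
    (ψ : L →*₀ Γ) (u : L) : Prop :=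
  ∀ l : K, ψ (1 + algebraMap K L l * u) = 1

theorem MemD.one_add {ψ : L →*₀ Γ} {u : L} (h : MemD K ψ u) : ψ (1 + u) = 1 := by
  simpa using h 1

theorem MemD.smul {ψ : L →*₀ Γ} {u : L} (h : MemD K ψ u) (l : K) :
    MemD K ψ (algebraMap K L l * u) := by
  intro m
  have := h (m * l)
  rwa [map_mul, mul_assoc] at this

theorem memD_zero (ψ : L →*₀ Γ) : MemD K ψ 0 := by
  intro l; simp

theorem MemD.neg {ψ : L →*₀ Γ} {u : L} (h : MemD K ψ u) : MemD K ψ (-u) := by
  have := h.smul (-1)
  simpa using this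

theorem MemD.add {ψ : L →*₀ Γ} (hR : RedExt K ψ) {u v : L} (hu : MemD K ψ u) (hv : MemD K ψ v) :
    MemD K ψ (u + v) := by
  intro l
  by_contra h
  obtain ⟨a, b, c, ha, hb, hc, habc, H⟩ := hR _ h
  set i := algebraMap K L with hi
  have hb' : i b ≠ 0 := by simpa [hi] using hb
  have hc' : i c ≠ 0 := by simpa [hi] using hc
  have hs : i a + i b + i c = 0 := by rw [← map_add, ← map_add, habc, map_zero]
  have h1 : ψ (1 + i (-(a * l / b)) * u) = 1 := hu _
  have h2 : ψ (1 + i (-(a * l / c)) * v) = 1 := hv _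
  refine H (i a * (1 + i l * (u + v))) (i b * (1 + i (-(a * l / b)) * u))
    (i c * (1 + i (-(a * l / c)) * v)) ?_ ?_ ?_ ?_
  · simp only [map_neg, map_div₀, map_mul]
    field_simp
    linear_combination hs
  · rw [map_mul, mul_comm]
  · rw [map_mul, h1, mul_one]
  · rw [map_mul, h2, mul_one]

theorem MemD.mul {ψ : L →*₀ Γ} (hR : RedExt K ψ) {u v : L} (hu : MemD K ψ u) (hv : MemD K ψ v) :
    MemD K ψ (u * v) := by
  intro l
  by_contra h
  obtain ⟨a, b, c, ha, hb, hc, habc, H⟩ := hR _ h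
  set i := algebraMap K L with hi
  have hb' : i b ≠ 0 := by simpa [hi] using hb
  have hc' : i c ≠ 0 := by simpa [hi] using hc
  have hs : i a + i b + i c = 0 := by rw [← map_add, ← map_add, habc, map_zero]
  have h1 : ψ (1 + (i (-(c / b)) * u + i (a * l / b) * v)) = 1 :=
    ((hu.smul _).add hR (hv.smul _)).one_add
  have h2 : ψ (1 + i (-(a * l / c)) * v) = 1 := hv _
  have h3 : ψ (1 + u) = 1 := hu.one_add
  refine H (i a * (1 + i l * (u * v))) (i b * (1 + (i (-(c / b)) * u + i (a * l / b) * v)))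
    (i c * ((1 + u) * (1 + i (-(a * l / c)) * v))) ?_ ?_ ?_ ?_
  · simp only [map_neg, map_div₀, map_mul]
    field_simp
    linear_combination hs
  · rw [map_mul, mul_comm]
  · rw [map_mul, h1, mul_one]
  · rw [map_mul, map_mul, h2, h3, mul_one, mul_one]

/-- The ring `R = {x : x D ⊆ D}`. -/
def ringR {ψ : L →*₀ Γ} (hR : RedExt K ψ) : Subring L where
  carrier := {x | ∀ u, MemD K ψ u → MemD K ψ (x * u)}
  mul_mem' := by
    intro x y hx hy u hu
    rw [mul_assoc]
    exact hx _ (hy _ hu)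
  one_mem' := by intro u hu; simpa using hu
  add_mem' := by
    intro x y hx hy u hu
    rw [add_mul]
    exact (hx _ hu).add hR (hy _ hu)
  zero_mem' := by intro u hu; simpa using memD_zero ψ
  neg_mem' := by
    intro x hx u hu
    rw [neg_mul]
    exact (hx _ hu).neg

theorem mem_ringR {ψ : L →*₀ Γ} (hR : RedExt K ψ) {x : L} :
    x ∈ ringR hR ↔ ∀ u, MemD K ψ u → MemD K ψ (x * u) := Iff.rfl

/-- it is enough to test `ψ (1 + x u) = 1`. -/
theorem mem_ringR_of {ψ : L →*₀ Γ} (hR : RedExt K ψ) {x : L}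
    (h : ∀ u, MemD K ψ u → ψ (1 + x * u) = 1) : x ∈ ringR hR := by
  intro u hu l
  have := h _ (hu.smul l)
  rw [← this]
  congr 2
  ring

theorem algebraMap_mem_ringR {ψ : L →*₀ Γ} (hR : RedExt K ψ) (l : K) :
    algebraMap K L l ∈ ringR hR := fun _ hu => hu.smul l

theorem MemD.mem_ringR {ψ : L →*₀ Γ} (hR : RedExt K ψ) {u : L} (hu : MemD K ψ u) :
    u ∈ ringR hR := fun _ hv => hu.mul hR hv

theorem MemD.inv_one_add {ψ : L →*₀ Γ} (hR : RedExt K ψ) {u : L} (hu : MemD K ψ u) :
    1 + u ≠ 0 ∧ (1 + u)⁻¹ ∈ ringR hR := by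
  have h1 : ψ (1 + u) = 1 := hu.one_add
  have h0 : 1 + u ≠ 0 := by
    intro h; rw [h, map_zero] at h1; exact zero_ne_one h1
  refine ⟨h0, mem_ringR_of hR ?_⟩
  intro v hv
  have h2 : ψ (1 + (u + v)) = 1 := (hu.add hR hv).one_add
  have h3 : (1 + u)⁻¹ * (1 + (u + v)) = 1 + (1 + u)⁻¹ * v := by
    field_simp
    ring
  rw [← h3, map_mul, h2, map_inv₀, h1]; simp

/-- Property (★): there is a finite set `C ⊆ K` such that for all `x ∈ L` some `x + c` is nonzero
with inverse in `R`. -/
theorem exists_good_shift [Infinite K] [Finite Γ] {ψ : L →*₀ Γ} (hR : RedExt K ψ) :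
    ∃ C : Finset K, ∀ x : L, ∃ c ∈ C, x + algebraMap K L c ≠ 0 ∧
      (x + algebraMap K L c)⁻¹ ∈ ringR hR := by
  classical
  have := Fintype.ofFinite Γ
  set i := algebraMap K L with hi
  have hR' := hR
  choose a b c ha hb hc habc H using hR'
  -- the pattern
  let κ : Γ → K := fun z => if h : z ≠ 1 then -(b z h / c z h) else 1
  let F : Finset K := insert 1 (Finset.univ.image κ)
  obtain ⟨C, hC⟩ := gallai K F Γ
  refine ⟨C, fun x => ?_⟩
  obtain ⟨c0, d, hc0, hd, hmono⟩ := hC (fun e => ψ (x + i e))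
  have h1 : ψ (x + i (c0 + d)) = ψ (x + i c0) := by
    have := hmono 1 (Finset.mem_insert_self _ _)
    simpa using this
  have hne : x + i c0 ≠ 0 := by
    intro h
    rw [h, map_zero, map_eq_zero] at h1
    have : i d = 0 := by
      have h3 : x + i (c0 + d) = (x + i c0) + i d := by rw [map_add]; ring
      rw [h3, h, zero_add] at h1
      exact h1
    rw [hi, map_eq_zero] at this
    exact hd this
  have hα : ψ (x + i c0) ≠ 0 := by simpa [map_eq_zero] using hne
  refine ⟨c0, hc0, hne, mem_ringR_of _ ?_⟩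
  intro u hu
  by_contra hz
  set z := ψ (1 + (x + i c0)⁻¹ * u) with hzdef
  set A := a z hz
  set B := b z hz
  set E := c z hz
  have hA : A ≠ 0 := ha z hz
  have hB : B ≠ 0 := hb z hz
  have hE : E ≠ 0 := hc z hz
  have hABE : A + B + E = 0 := habc z hz
  have hκ : κ z = -(B / E) := by simp only [κ]; rw [dif_pos hz]
  set k := κ z with hk
  have h2 : ψ (x + i (c0 + d * k)) = ψ (x + i c0) :=
    hmono k (Finset.mem_insert_of_mem (Finset.mem_image_of_mem _ (Finset.mem_univ _)))
  have hk1 : 1 - k ≠ 0 := by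
    rw [hκ]
    intro h
    apply hA
    have : E + B = 0 := by
      field_simp at h
      linear_combination h
    linear_combination hABE - this
  have hEk : E * k = -B := by rw [hκ]; field_simp
  -- the multipliers
  let l2 : K := -(A / (B * d * (1 - k)))
  let l3 : K := A / (E * d * (1 - k))
  have e2 : ψ (1 + i l2 * u) = 1 := hu _
  have e3 : ψ (1 + i l3 * u) = 1 := hu _
  have r1 : B * l2 + E * l3 = 0 := by
    simp only [l2, l3]; field_simp; ring
  have r2 : A + B * l2 * d + E * l3 * (d * k) = 0 := by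
    simp only [l2, l3]; field_simp; ring
  have hs : i A + i B + i E = 0 := by rw [← map_add, ← map_add, hABE, map_zero]
  have r1' : i B * i l2 + i E * i l3 = 0 := by
    simpa only [map_add, map_mul, map_zero] using congrArg i r1
  have r2' : i A + i B * i l2 * i d + i E * i l3 * (i d * i k) = 0 := by
    simpa only [map_add, map_mul, map_zero] using congrArg i r2
  have hEk' : i E * i k = -i B := by rw [← map_mul, hEk, map_neg]
  set t := x + i c0 with ht
  have t2 : x + i (c0 + d) = t + i d := by rw [map_add, ht]; ring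
  have t3 : x + i (c0 + d * k) = t + i d * i k := by rw [map_add, map_mul, ht]; ring
  rw [t2] at h1
  rw [t3] at h2
  refine H z hz (i A * (1 + t⁻¹ * u)) (i B * ((t + i d) / t * (1 + i l2 * u)))
    (i E * ((t + i d * i k) / t * (1 + i l3 * u))) ?_ ?_ ?_ ?_
  · field_simp
    linear_combination (t + u * t * 0) * hs + u * r2' + (u * t) * r1' + i d * hEk'
  · rw [map_mul, mul_comm]
  · rw [map_mul, map_mul, e2, map_div₀, h1, div_self hα, one_mul, mul_one]
  · rw [map_mul, map_mul, e3, map_div₀, h2, div_self hα, one_mul, mul_one]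

end HypQ
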