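import Pool.Agent.Lib.MP_9f0b3e_al.Pair

/-!
# Additive versus multiplicative subgroups of finite index in an infinite field
-/

set_option autoImplicit false

namespace HypQ

section add

variable {κ : Type*} [Field κ]

/-- pigeonhole: among many elements two differ by an element that all multipliers send to `V`. -/
theorem exists_diff (V : AddSubgroup κ) [Finite (κ ⧸ V)] (F S : Finset κ)
    (hS : Nat.card (κ ⧸ V) ^ F.card < S.card) :
    ∃ s ∈ S, ∃ t ∈ S, s ≠ t ∧ ∀ m ∈ F, m * (s - t) ∈ V := by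
  classical
  have := Fintype.ofFinite (κ ⧸ V)
  let f : κ → (F → κ ⧸ V) := fun s m => ((m : κ) * s : κ)
  have hcard : (Finset.univ : Finset (F → κ ⧸ V)).card < S.card := by
    rw [Finset.card_univ, Fintype.card_fun, Fintype.card_coe, ← Nat.card_eq_fintype_card]
    exact hS
  obtain ⟨s, hs, t, ht, hst, h⟩ := Finset.exists_ne_map_eq_of_card_lt_of_maps_to hcard
    (f := f) (fun a _ => Finset.mem_univ _)
  refine ⟨s, hs, t, ht, hst, fun m hm => ?_⟩
  have h1 := congrFun h ⟨m, hm⟩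
  simp only [f] at h1
  have h2 := (QuotientAddGroup.eq (s := V)).mp h1.symm
  have h3 : m * (s - t) = -(m * t) + m * s := by ring
  rw [h3]
  exact h2

variable {A : Type*} [CommGroup A] [Finite A]

/-- A finite set which meets every class `y` inside every additive subgroup of index at most `m`. -/
theorem exists_uniform_set [Infinite κ] (χ : κ →*₀ WithZero A) (m : ℕ) (y : A)
    (hy : y ∈ HH χ) : ∃ C : Finset κ, ∀ V : AddSubgroup κ, Finite (κ ⧸ V) →
      Nat.card (κ ⧸ V) ≤ m → ∃ c ∈ C, c ∈ V ∧ χ c = y := by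
  classical
  have := Fintype.ofFinite A
  obtain ⟨b, hb⟩ := (mem_HH_field χ y).mp hy
  have hrep : ∀ x : A, ∃ l : κ, x ∈ HH χ → χ l = x := by
    intro x
    by_cases hx : x ∈ HH χ
    · obtain ⟨l, hl⟩ := (mem_HH_field χ x).mp hx
      exact ⟨l, fun _ => hl⟩
    · exact ⟨0, fun h => absurd h hx⟩
  choose l hl using hrep
  let F : Finset κ := Finset.univ.image (fun x => b * (l x)⁻¹)
  obtain ⟨S, hS⟩ := Infinite.exists_subset_card_eq κ (m ^ F.card + 1)
  refine ⟨(F ×ˢ (S ×ˢ S)).image (fun q => q.1 * (q.2.1 - q.2.2)), fun V hV hm => ?_⟩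
  have hlt : Nat.card (κ ⧸ V) ^ F.card < S.card := by
    rw [hS]
    exact Nat.lt_succ_of_le (Nat.pow_le_pow_left hm _)
  obtain ⟨s, hs, t, ht, hst, h⟩ := exists_diff V F S hlt
  have hne : s - t ≠ 0 := sub_ne_zero.mpr hst
  obtain ⟨x, hx⟩ := exists_coe χ hne
  have hxH : x ∈ HH χ := (mem_HH_field χ x).mpr ⟨_, hx⟩
  have hmem : b * (l x)⁻¹ ∈ F := Finset.mem_image_of_mem _ (Finset.mem_univ _)
  refine ⟨b * (l x)⁻¹ * (s - t), ?_, h _ hmem, ?_⟩
  · rw [Finset.mem_image]
    exact ⟨(b * (l x)⁻¹, (s, t)), by simp [hmem, hs, ht], rfl⟩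
  · rw [map_mul, map_mul, map_inv₀, hb, hl x hxH, hx]
    have : y * x⁻¹ * x = y := inv_mul_cancel_right _ _
    exact_mod_cast this

/-- FIELD LEMMA (J2): a coset of an additive subgroup of finite index of an infinite field contains
elements of every class, outside any given finite set. -/
theorem field_lemma [Infinite κ] (χ : κ →*₀ WithZero A) (V : AddSubgroup κ) [Finite (κ ⧸ V)]
    (a : κ) (y : A) (hy : y ∈ HH χ) (E : Finset κ) :
    ∃ w : κ, w ∉ E ∧ w - a ∈ V ∧ χ w = y := by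
  classical
  have := Fintype.ofFinite A
  have hC : ∀ z : A, ∃ C : Finset κ, z ∈ HH χ → ∀ V' : AddSubgroup κ, Finite (κ ⧸ V') →
      Nat.card (κ ⧸ V') ≤ Nat.card (κ ⧸ V) → ∃ c ∈ C, c ∈ V' ∧ χ c = z := by
    intro z
    by_cases hz : z ∈ HH χ
    · obtain ⟨C, hC⟩ := exists_uniform_set χ (Nat.card (κ ⧸ V)) z hz
      exact ⟨C, fun _ => hC⟩
    · exact ⟨∅, fun h => absurd h hz⟩
  choose C hC using hC
  let D : Finset κ := Finset.univ.biUnion C
  obtain ⟨u, hu0, huE, hu⟩ := exists_small' χ (D.image (fun c => a / c))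
    ((D ×ˢ E).image (fun q => q.1 / (q.2 - a)))
  obtain ⟨v, hv⟩ := exists_coe χ hu0
  have hvH : v ∈ HH χ := (mem_HH_field χ v).mpr ⟨u, hv⟩
  -- the subgroup `V_u`
  let f : κ →+ κ := AddMonoidHom.mulRight u⁻¹
  have hfb : Function.Surjective f := by
    intro x
    exact ⟨x * u, by simp [f, hu0]⟩
  let V' : AddSubgroup κ := V.comap f
  let q : κ →+ κ ⧸ V := (QuotientAddGroup.mk' V).comp f
  have hqs : Function.Surjective q := (QuotientAddGroup.mk'_surjective V).comp hfb
  have hker : q.ker = V' := by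
    ext x
    simp only [q, V', AddMonoidHom.mem_ker, AddMonoidHom.comp_apply, AddSubgroup.mem_comap,
      QuotientAddGroup.mk'_apply, QuotientAddGroup.eq_zero_iff]
  have e : κ ⧸ V' ≃+ κ ⧸ V :=
    (QuotientAddGroup.quotientAddEquivOfEq hker.symm).trans
      (QuotientAddGroup.quotientKerEquivOfSurjective q hqs)
  have hfin : Finite (κ ⧸ V') := Finite.of_equiv _ e.symm.toEquiv
  obtain ⟨c, hcC, hcV, hc⟩ := hC (y * v) ((HH χ).mul_mem hy hvH) V' hfin
    (Nat.card_congr e.toEquiv).le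
  have hc0 : c ≠ 0 := ne_zero_of_coe χ hc
  have hcD : c ∈ D := Finset.mem_biUnion.mpr ⟨_, Finset.mem_univ _, hcC⟩
  have h1 : χ (1 + a / c * u) = 1 := hu _ (Finset.mem_image_of_mem _ hcD)
  refine ⟨c * u⁻¹ + a, ?_, ?_, ?_⟩
  · intro hE
    apply huE
    rw [Finset.mem_image]
    refine ⟨(c, c * u⁻¹ + a), by simp [hcD, hE], ?_⟩
    simp only [add_sub_cancel_right]
    field_simp
  · rw [add_sub_cancel_right]
    exact hcV
  · have h2 : c * u⁻¹ + a = c * u⁻¹ * (1 + a / c * u) := by field_simp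
    rw [h2, map_mul, h1, mul_one, map_mul, map_inv₀, hc, hv]
    have : y * v * v⁻¹ = y := mul_inv_cancel_right _ _
    exact_mod_cast this

/-- (J3): pairs are attained outside any finite set. -/
theorem pair_infinite [Infinite κ] (χ : κ →*₀ WithZero A) {x y : A} (h : (x, y) ∈ NN χ)
    (E : Finset κ) : ∃ t : κ, t ∉ E ∧ χ t = x ∧ χ (1 - t) = y := by
  classical
  obtain ⟨a, b, h0, h1, h2⟩ := (mem_NN_field χ x y).mp h
  have ha : a ≠ 0 := ne_zero_of_coe χ h1
  have hb : b ≠ 0 := ne_zero_of_coe χ h2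
  obtain ⟨u, hu0, huE, hu⟩ := exists_small' χ {1, -(a / b)} (E.image (fun e => (e - a) / a))
  refine ⟨a * (1 + u), ?_, ?_, ?_⟩
  · intro hE
    apply huE
    rw [Finset.mem_image]
    refine ⟨_, hE, ?_⟩
    field_simp
    ring
  · have := hu 1 (by simp)
    rw [one_mul] at this
    rw [map_mul, this, mul_one, h1]
  · have := hu (-(a / b)) (by simp)
    have h3 : 1 - a * (1 + u) = b * (1 + -(a / b) * u) := by
      field_simp
      linear_combination (-1 : κ) * h0
    rw [h3, map_mul, this, mul_one, h2]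

end add

section J0

variable {κ : Type*} [Field κ]

/-- (J0): two additive subgroups of finite index are in general position for almost all ratios. -/
theorem finite_bad (p : ℕ) [Fact p.Prime] [CharP κ p] (V V' : AddSubgroup κ) [Finite (κ ⧸ V)] [Finite (κ ⧸ V')] :
    {ρ : κ | ρ ≠ 0 ∧ ¬ ∀ x y : κ, ∃ z : κ, z - x ∈ V ∧ ρ * z - y ∈ V'}.Finite := by
  classical
  let _ : Algebra (ZMod p) κ := ZMod.algebra κ p
  let W : Submodule (ZMod p) κ := AddSubgroup.toZModSubmodule p V
  let W' : Submodule (ZMod p) κ := AddSubgroup.toZModSubmodule p V'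
  have hW : ∀ x, x ∈ W ↔ x ∈ V := fun x => AddSubgroup.mem_toZModSubmodule p
  have hW' : ∀ x, x ∈ W' ↔ x ∈ V' := fun x => AddSubgroup.mem_toZModSubmodule p
  -- finiteness of the sets of functionals
  have hfin : ∀ (U : AddSubgroup κ), Finite (κ ⧸ U) →
      {l : κ →ₗ[ZMod p] ZMod p | ∀ x ∈ U, l x = 0}.Finite := by
    intro U hU
    let g : (κ →ₗ[ZMod p] ZMod p) → (κ ⧸ U → ZMod p) := fun l q => l q.out
    apply Set.Finite.of_finite_image (f := g) (Set.toFinite _)
    intro l hl m hm hlm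
    ext x
    have h1 := congrFun hlm (x : κ ⧸ U)
    simp only [g] at h1
    have h2 : -(x : κ) + ((x : κ ⧸ U)).out ∈ U := by
      rw [← QuotientAddGroup.eq]
      exact (QuotientAddGroup.out_eq' (x : κ ⧸ U)).symm
    have h3 := hl _ h2
    have h4 := hm _ h2
    rw [map_add, map_neg] at h3 h4
    have h5 : l x = l ((x : κ ⧸ U)).out := by linear_combination (-1 : ZMod p) * h3
    have h6 : m x = m ((x : κ ⧸ U)).out := by linear_combination (-1 : ZMod p) * h4
    rw [h5, h6, h1]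
  have key : ∀ ρ : κ, ∃ l : κ →ₗ[ZMod p] ZMod p,
      (ρ ≠ 0 ∧ ¬ ∀ x y : κ, ∃ z : κ, z - x ∈ V ∧ ρ * z - y ∈ V') →
      l ≠ 0 ∧ (∀ x ∈ V, l x = 0) ∧ ∀ x ∈ V', l (ρ⁻¹ * x) = 0 := by
    intro ρ
    by_cases hρ : ρ ≠ 0 ∧ ¬ ∀ x y : κ, ∃ z : κ, z - x ∈ V ∧ ρ * z - y ∈ V'
    · obtain ⟨hρ0, hbad⟩ := hρ
      let R : κ →ₗ[ZMod p] κ := LinearMap.mulLeft (ZMod p) ρ⁻¹
      let U : Submodule (ZMod p) κ := W ⊔ W'.map R
      have hU : U < ⊤ := by
        rw [lt_top_iff_ne_top]
        intro hU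
        apply hbad
        intro x y
        have h1 : x - ρ⁻¹ * y ∈ U := by rw [hU]; trivial
        obtain ⟨v, hv, w, hw, hvw⟩ := Submodule.mem_sup.mp h1
        obtain ⟨w', hw', rfl⟩ := Submodule.mem_map.mp hw
        have hR : R w' = ρ⁻¹ * w' := rfl
        rw [hR] at hvw
        refine ⟨x - v, ?_, ?_⟩
        · have : x - v - x = -v := by ring
          rw [this]
          exact V.neg_mem ((hW v).mp hv)
        · have : ρ * (x - v) - y = w' := by
            have : x - v = ρ⁻¹ * (y + w') := by linear_combination (-1 : κ) * hvw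
            rw [this]
            field_simp
            ring
          rw [this]
          exact (hW' w').mp hw'
      obtain ⟨l, hl0, hl⟩ := Submodule.exists_le_ker_of_lt_top U hU
      refine ⟨l, fun _ => ⟨hl0, ?_, ?_⟩⟩
      · intro x hx
        exact hl (Submodule.mem_sup_left ((hW x).mpr hx))
      · intro x hx
        exact hl (Submodule.mem_sup_right (Submodule.mem_map_of_mem (f := R) ((hW' x).mpr hx)))
    · exact ⟨0, fun h => absurd h hρ⟩
  choose l hl using key
  let G : κ → (κ →ₗ[ZMod p] ZMod p) × (κ →ₗ[ZMod p] ZMod p) := fun ρ =>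
    (l ρ, (l ρ).comp (LinearMap.mulLeft (ZMod p) ρ⁻¹))
  apply Set.Finite.of_finite_image (f := G)
  · apply Set.Finite.subset ((hfin V inferInstance).prod (hfin V' inferInstance))
    rintro _ ⟨ρ, hρ, rfl⟩
    obtain ⟨-, h1, h2⟩ := hl ρ hρ
    exact ⟨h1, h2⟩
  · intro ρ hρ σ hσ h
    have h1 : l ρ = l σ := congrArg Prod.fst h
    have h2 : (l ρ).comp (LinearMap.mulLeft (ZMod p) ρ⁻¹)
        = (l σ).comp (LinearMap.mulLeft (ZMod p) σ⁻¹) := congrArg Prod.snd h
    by_contra hne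
    have hne' : ρ⁻¹ - σ⁻¹ ≠ 0 := by
      rw [sub_ne_zero]
      exact fun h => hne (inv_injective h)
    apply (hl ρ hρ).1
    ext x
    have h3 := LinearMap.congr_fun h2 (x / (ρ⁻¹ - σ⁻¹))
    rw [← h1] at h3
    simp only [LinearMap.comp_apply, LinearMap.mulLeft_apply] at h3
    have h4 : l ρ ((ρ⁻¹ - σ⁻¹) * (x / (ρ⁻¹ - σ⁻¹))) = 0 := by
      rw [sub_mul, map_sub, h3, sub_self]
    rw [mul_div_cancel₀ _ hne'] at h4
    simpa using h4

end J0

end HypQ
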