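import Pool.Agent.Lib.MP_9f0b3e_al.FiltGroup

/-!
# The unit filtration of a discrete valuation ring and `p`-th powers

Module FILT: levels and leading coefficients of units `1 + π^j y`.
-/

set_option autoImplicit false

namespace HypQ

namespace Filt

open IsLocalRing

section levels

variable {O : Type*} [CommRing O]

/-- The group `{u | π^m ∣ u - 1}`. -/
def UU (π : O) (m : ℕ) : Subgroup Oˣ where
  carrier := {u : Oˣ | π ^ m ∣ (u : O) - 1}
  mul_mem' := by
    intro a b ha hb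
    have h : ((a * b : Oˣ) : O) - 1 = (a - 1) * b + (b - 1) := by push_cast; ring
    rw [Set.mem_ofPred_eq, h]
    exact dvd_add (Dvd.dvd.mul_right ha _) hb
  one_mem' := by simp
  inv_mem' := by
    intro a ha
    have h : ((a⁻¹ : Oˣ) : O) - 1 = -((a - 1) * (a⁻¹ : Oˣ)) := by
      have : (a : O) * (a⁻¹ : Oˣ) = 1 := a.mul_inv
      linear_combination this
    rw [Set.mem_ofPred_eq, h]
    exact (Dvd.dvd.mul_right ha _).neg_right

theorem mem_UU {π : O} {m : ℕ} {u : Oˣ} : u ∈ UU π m ↔ π ^ m ∣ (u : O) - 1 := Iff.rfl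

theorem UU_anti {π : O} {m n : ℕ} (h : m ≤ n) : UU π n ≤ UU π m := fun _ hu =>
  (pow_dvd_pow π h).trans hu

variable [IsLocalRing O]

/-- `u = 1 + π^j y` with `y` of residue `h`. -/
def Lc (π : O) (j : ℕ) (u : Oˣ) (h : ResidueField O) : Prop :=
  ∃ y : O, (u : O) = 1 + π ^ j * y ∧ residue O y = h

theorem Lc.mem {π : O} {j : ℕ} {u : Oˣ} {h : ResidueField O} (H : Lc π j u h) : u ∈ UU π j := by
  obtain ⟨y, hy, -⟩ := H
  rw [mem_UU, hy]
  exact ⟨y, by ring⟩

theorem exists_Lc {π : O} {j : ℕ} {u : Oˣ} (H : u ∈ UU π j) : ∃ h, Lc π j u h := by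
  obtain ⟨y, hy⟩ := H
  exact ⟨_, y, by rw [← hy]; ring, rfl⟩

theorem Lc.mul {π : O} (hπ0 : residue O π = 0) {j : ℕ} (hj : 1 ≤ j) {u u' : Oˣ}
    {h h' : ResidueField O} (H : Lc π j u h) (H' : Lc π j u' h') : Lc π j (u * u') (h + h') := by
  obtain ⟨y, hy, rfl⟩ := H
  obtain ⟨y', hy', rfl⟩ := H'
  refine ⟨y + y' + π ^ j * y * y', ?_, ?_⟩
  · rw [Units.val_mul, hy, hy']
    ring
  · obtain ⟨m, rfl⟩ : ∃ m, j = m + 1 := ⟨j - 1, by omega⟩
    simp [hπ0]

theorem Lc.inv {π : O} (hπ0 : residue O π = 0) {j : ℕ} (hj : 1 ≤ j) {u : Oˣ}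
    {h : ResidueField O} (H : Lc π j u h) : Lc π j u⁻¹ (-h) := by
  obtain ⟨y, hy, rfl⟩ := H
  refine ⟨-(y * (u⁻¹ : Oˣ)), ?_, ?_⟩
  · have h1 : (u : O) * (u⁻¹ : Oˣ) = 1 := u.mul_inv
    have h2 : π ^ j * y = u - 1 := by rw [hy]; ring
    have h3 : (1 : O) + π ^ j * -(y * (u⁻¹ : Oˣ)) = 1 - (π ^ j * y) * (u⁻¹ : Oˣ) := by ring
    rw [h3, h2]
    linear_combination h1
  · have h1 : (u : O) * (u⁻¹ : Oˣ) = 1 := u.mul_inv
    have h2 : residue O (u : O) = 1 := by
      obtain ⟨m, rfl⟩ : ∃ m, j = m + 1 := ⟨j - 1, by omega⟩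
      rw [hy]
      simp [hπ0]
    have h3 : residue O ((u⁻¹ : Oˣ) : O) = 1 := by
      have h4 := congrArg (residue O) h1
      rw [map_mul, h2, one_mul, map_one] at h4
      exact h4
    rw [map_neg, map_mul, h3, mul_one]

theorem Lc.of_mem {π : O} (hπ0 : residue O π = 0) {j : ℕ} {u : Oˣ} (H : u ∈ UU π (j + 1)) :
    Lc π j u 0 := by
  obtain ⟨y, hy⟩ := H
  refine ⟨π * y, ?_, ?_⟩
  · have : (u : O) = 1 + π ^ (j + 1) * y := by rw [← hy]; ring
    rw [this]
    ring
  · rw [map_mul, hπ0, zero_mul]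

variable [IsDomain O]

theorem Lc.unique {π : O} (hπ : π ≠ 0) {j : ℕ} {u : Oˣ} {h h' : ResidueField O}
    (H : Lc π j u h) (H' : Lc π j u h') : h = h' := by
  obtain ⟨y, hy, rfl⟩ := H
  obtain ⟨y', hy', rfl⟩ := H'
  rw [hy] at hy'
  have h1 := mul_left_cancel₀ (pow_ne_zero j hπ) (add_left_cancel hy')
  rw [h1]

theorem Lc.eq_zero_iff {π : O} (hπ : π ≠ 0) (hres : ∀ y : O, residue O y = 0 ↔ π ∣ y) {j : ℕ}
    {u : Oˣ} {h : ResidueField O} (H : Lc π j u h) : h = 0 ↔ u ∈ UU π (j + 1) := by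
  constructor
  · rintro rfl
    obtain ⟨y, hy, hy0⟩ := H
    obtain ⟨y', rfl⟩ := (hres y).1 hy0
    rw [mem_UU, hy]
    exact ⟨y', by ring⟩
  · intro hu
    exact H.unique hπ (Lc.of_mem ((hres π).2 dvd_rfl) hu)

omit [IsLocalRing O] [IsDomain O] in
/-- the exact level -/
theorem exists_exact {π : O} {i j : ℕ} (hij : i ≤ j) {u : Oˣ} (hu : u ∈ UU π i)
    (hu' : u ∉ UU π j) : ∃ k, i ≤ k ∧ k < j ∧ u ∈ UU π k ∧ u ∉ UU π (k + 1) := by
  induction j, hij using Nat.le_induction with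
  | base => exact absurd hu hu'
  | succ j hj ih =>
    by_cases h : u ∈ UU π j
    · exact ⟨j, hj, Nat.lt_succ_self j, h, hu'⟩
    · obtain ⟨k, h1, h2, h3, h4⟩ := ih h
      exact ⟨k, h1, by omega, h3, h4⟩

/-- The binomial formula. -/
theorem one_add_pow_prime {R : Type*} [CommRing R] {p : ℕ} (hp : p.Prime) (a : R) :
    ∃ t : R, (1 + a) ^ p = 1 + p * a * (1 + a * t) + a ^ p := by
  obtain ⟨m, rfl⟩ : ∃ m, p = m + 2 := ⟨p - 2, by have := hp.two_le; omega⟩
  have h1 : (1 + a) ^ (m + 2) = 1 + (∑ k ∈ Finset.range m,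
      a ^ (k + 2) * ((m + 2).choose (k + 2) : R)) + ((m + 2 : ℕ) : R) * a + a ^ (m + 2) := by
    rw [add_comm 1 a, add_pow, Finset.sum_range_succ, Finset.sum_range_succ',
      Finset.sum_range_succ']
    simp only [one_pow, mul_one, Nat.choose_self, Nat.cast_one, pow_zero, Nat.choose_zero_right,
      zero_add, pow_one, Nat.choose_one_right]
    ring_nf
  have h2 : ∀ k ∈ Finset.range m, ((m + 2 : ℕ) : R) * a ^ 2 ∣
      a ^ (k + 2) * ((m + 2).choose (k + 2) : R) := by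
    intro k hk
    rw [Finset.mem_range] at hk
    obtain ⟨c, hc⟩ := hp.dvd_choose_self (by omega : k + 2 ≠ 0) (by omega : k + 2 < m + 2)
    rw [hc]
    exact ⟨a ^ k * c, by push_cast; ring⟩
  obtain ⟨t, ht⟩ := Finset.dvd_sum h2
  refine ⟨t, ?_⟩
  rw [h1, ht]
  ring

end levels

/-- The hypotheses on the discrete valuation ring: `p = π^e z`, the residue of `z` is `x` if
`e < M`, and `x` has order one for a valuation of the residue field. -/
structure Ctx (O : Type*) [CommRing O] [IsDomain O] [IsLocalRing O] (p e M : ℕ) (π z : O)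
    (v : Valuation (ResidueField O) (WithZero (Multiplicative ℤ))) (x : ResidueField O) :
    Prop where
  hp : p.Prime
  he : 1 ≤ e
  π0 : π ≠ 0
  res : ∀ y : O, residue O y = 0 ↔ π ∣ y
  pz : (p : O) = π ^ e * z
  zx : e < M → residue O z = x
  vx : v x = WithZero.exp (-1)

section ctx

variable {O : Type*} [CommRing O] [IsDomain O] [IsLocalRing O] {p e M : ℕ} {π z : O}
  {v : Valuation (ResidueField O) (WithZero (Multiplicative ℤ))} {x : ResidueField O}

theorem Ctx.res0 (C : Ctx O p e M π z v x) : residue O π = 0 := (C.res π).2 dvd_rfl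

theorem Ctx.x_ne (C : Ctx O p e M π z v x) : x ≠ 0 := by
  intro h
  have := C.vx
  rw [h, map_zero] at this
  exact WithZero.exp_ne_zero this.symm

theorem Ctx.cast_eq_zero (C : Ctx O p e M π z v x) : (p : ResidueField O) = 0 := by
  have h1 : (p : ResidueField O) = residue O (p : O) := by simp
  obtain ⟨m, hm⟩ : ∃ m, e = m + 1 := ⟨e - 1, by have := C.he; omega⟩
  rw [h1, C.pz, hm, map_mul, map_pow, C.res0]
  simp

theorem Ctx.pow (C : Ctx O p e M π z v x) {i : ℕ} (hi : 1 ≤ i) {u : Oˣ} {w : ResidueField O}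
    (H : Lc π i u w) :
    (p * i < i + e → Lc π (p * i) (u ^ p) (w ^ p)) ∧
    (i + e < p * i → Lc π (i + e) (u ^ p) (residue O z * w)) ∧
    (p * i = i + e → Lc π (p * i) (u ^ p) (w ^ p + residue O z * w)) := by
  obtain ⟨y, hy, rfl⟩ := H
  obtain ⟨t, ht⟩ := one_add_pow_prime C.hp (π ^ i * y)
  have hu : ((u ^ p : Oˣ) : O) =
      1 + π ^ (i + e) * (z * y * (1 + π ^ i * y * t)) + π ^ (p * i) * y ^ p := by
    rw [Units.val_pow_eq_pow_val, hy, ht, C.pz]
    ring
  have h0 := C.res0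
  have hres : residue O (z * y * (1 + π ^ i * y * t)) = residue O z * residue O y := by
    obtain ⟨m, rfl⟩ : ∃ m, i = m + 1 := ⟨i - 1, by omega⟩
    simp [h0]
  refine ⟨?_, ?_, ?_⟩
  · intro h
    obtain ⟨d, hd⟩ : ∃ d, i + e = p * i + (d + 1) := ⟨i + e - p * i - 1, by omega⟩
    refine ⟨y ^ p + π ^ (d + 1) * (z * y * (1 + π ^ i * y * t)), ?_, ?_⟩
    · rw [hu, hd]
      ring
    · rw [map_add, map_pow, map_mul, map_pow, h0]
      simp
  · intro h
    obtain ⟨d, hd⟩ : ∃ d, p * i = i + e + (d + 1) := ⟨p * i - (i + e) - 1, by omega⟩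
    refine ⟨z * y * (1 + π ^ i * y * t) + π ^ (d + 1) * y ^ p, ?_, ?_⟩
    · rw [hu, hd]
      ring
    · rw [map_add, hres, map_mul, map_pow, h0]
      simp
  · intro h
    refine ⟨y ^ p + z * y * (1 + π ^ i * y * t), ?_, ?_⟩
    · rw [hu, h]
      ring
    · rw [map_add, hres, map_pow]

theorem Ctx.pow_mem (C : Ctx O p e M π z v x) {i : ℕ} (hi : 1 ≤ i) {u : Oˣ}
    (H : u ∈ UU π i) : u ^ p ∈ UU π (min (p * i) (i + e)) := by
  obtain ⟨w, hw⟩ := exists_Lc H
  obtain ⟨h1, h2, h3⟩ := C.pow hi hw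
  rcases lt_trichotomy (p * i) (i + e) with h | h | h
  · rw [min_eq_left h.le]
    exact (h1 h).mem
  · rw [← h, min_self]
    exact (h3 h).mem
  · rw [min_eq_right h.le]
    exact (h2 h).mem

/-! ### valuations -/

theorem Ctx.exp_pow (n : ℤ) (k : ℕ) :
    (WithZero.exp n : WithZero (Multiplicative ℤ)) ^ k = WithZero.exp (k * n) := by
  rw [← WithZero.exp_nsmul]
  simp

/-- `t^{pk+1} - t^{pl+1}`, `t = x⁻¹`, is not `w^p + a w + b` with `a, b` integral. -/
theorem Ctx.gap (C : Ctx O p e M π z v x) {k l : ℕ} (hkl : k ≠ l) {w a b : ResidueField O}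
    (ha : v a ≤ 1) (hb : v b ≤ 1)
    (h : (x⁻¹) ^ (p * k + 1) - (x⁻¹) ^ (p * l + 1) = w ^ p + a * w + b) : False := by
  have hp2 := C.hp.two_le
  have ht : v x⁻¹ = WithZero.exp 1 := by
    rw [map_inv₀, C.vx, ← WithZero.exp_neg]
    simp
  have hpow : ∀ m : ℕ, v ((x⁻¹) ^ (p * m + 1)) = WithZero.exp ((p * m + 1 : ℕ) : ℤ) := by
    intro m
    rw [map_pow, ht, Ctx.exp_pow, mul_one]
  obtain ⟨m, hm⟩ : ∃ m : ℕ, v ((x⁻¹) ^ (p * k + 1) - (x⁻¹) ^ (p * l + 1)) =
      WithZero.exp ((p * m + 1 : ℕ) : ℤ) := by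
    rcases lt_or_gt_of_ne hkl with hlt | hlt
    · refine ⟨l, ?_⟩
      rw [← hpow l]
      apply Valuation.map_sub_eq_of_lt_right
      rw [hpow, hpow, WithZero.exp_lt_exp]
      have : p * k < p * l := Nat.mul_lt_mul_of_pos_left hlt (by omega)
      exact_mod_cast (by omega : p * k + 1 < p * l + 1)
    · refine ⟨k, ?_⟩
      rw [← hpow k]
      apply Valuation.map_sub_eq_of_lt_left
      rw [hpow, hpow, WithZero.exp_lt_exp]
      have : p * l < p * k := Nat.mul_lt_mul_of_pos_left hlt (by omega)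
      exact_mod_cast (by omega : p * l + 1 < p * k + 1)
  have h1 : (1 : WithZero (Multiplicative ℤ)) < WithZero.exp ((p * m + 1 : ℕ) : ℤ) := by
    rw [← WithZero.exp_zero, WithZero.exp_lt_exp]
    positivity
  rw [h] at hm
  rcases le_or_gt (v w) 1 with hw | hw
  · have h2 : v (w ^ p + a * w + b) ≤ 1 := by
      apply (v.map_add _ _).trans
      apply max_le _ hb
      apply (v.map_add _ _).trans
      apply max_le
      · rw [map_pow]
        exact pow_le_one' hw p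
      · rw [map_mul]
        exact mul_le_one' ha hw
    rw [hm] at h2
    exact absurd h1 (not_lt.2 h2)
  · have hw0 : v w ≠ 0 := (lt_trans zero_lt_one hw).ne'
    obtain ⟨n, hn⟩ : ∃ n : ℤ, v w = WithZero.exp n := ⟨_, (WithZero.exp_log hw0).symm⟩
    have hn1 : 0 < n := by
      rw [hn, ← WithZero.exp_zero, WithZero.exp_lt_exp] at hw
      exact hw
    have hwp : v (w ^ p) = WithZero.exp (p * n) := by
      rw [map_pow, hn, Ctx.exp_pow]
    have h3 : v (a * w) < v (w ^ p) := by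
      rw [hwp, map_mul]
      calc v a * v w ≤ 1 * v w := by gcongr
        _ = WithZero.exp n := by rw [one_mul, hn]
        _ < WithZero.exp (p * n) := by
          rw [WithZero.exp_lt_exp]
          have : (2 : ℤ) ≤ p := by exact_mod_cast hp2
          nlinarith
    have h4 : v b < v (w ^ p) := by
      refine lt_of_le_of_lt hb ?_
      rw [hwp, ← WithZero.exp_zero, WithZero.exp_lt_exp]
      have : (2 : ℤ) ≤ p := by exact_mod_cast hp2
      positivity
    have h5 : v (w ^ p + a * w) = v (w ^ p) := Valuation.map_add_eq_of_lt_left v h3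
    have h6 : v (w ^ p + a * w + b) = v (w ^ p) := by
      rw [← h5]
      apply Valuation.map_add_eq_of_lt_left
      rw [h5]
      exact h4
    rw [h6, hwp, WithZero.exp_inj] at hm
    have h7 : (p : ℤ) ∣ 1 := by
      have : (1 : ℤ) = p * (n - m) := by
        have h8 : ((p * m + 1 : ℕ) : ℤ) = p * m + 1 := by push_cast; ring
        rw [h8] at hm
        linarith
      exact ⟨_, this⟩
    have h8 : (p : ℤ) = 1 := by
      have := Int.eq_one_of_dvd_one (by positivity) h7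
      exact this
    have : p = 1 := by exact_mod_cast h8
    omega

theorem Ctx.not_pow (C : Ctx O p e M π z v x) {w : ResidueField O} (h : v (w ^ p) = v x) :
    False := by
  have hp2 := C.hp.two_le
  have hw0 : v w ≠ 0 := by
    intro h0
    rw [map_pow, h0, zero_pow (by omega), C.vx] at h
    exact WithZero.exp_ne_zero h.symm
  obtain ⟨n, hn⟩ : ∃ n : ℤ, v w = WithZero.exp n := ⟨_, (WithZero.exp_log hw0).symm⟩
  rw [map_pow, hn, Ctx.exp_pow, C.vx, WithZero.exp_inj] at h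
  have h7 : (p : ℤ) ∣ 1 := ⟨-n, by linarith⟩
  have := Int.eq_one_of_dvd_one (by positivity) h7
  have : p = 1 := by exact_mod_cast this
  omega

theorem Ctx.eq_neg_x (C : Ctx O p e M π z v x) {w : ResidueField O} (hw : w ≠ 0)
    (h : w ^ p + x * w = 0) : p = 2 ∧ w = -x := by
  have hp2 := C.hp.two_le
  obtain ⟨m, rfl⟩ : ∃ m, p = m + 1 := ⟨p - 1, by omega⟩
  have h1 : w ^ m = -x := by
    have h2 : w * (w ^ m + x) = 0 := by rw [← h]; ring
    rcases mul_eq_zero.1 h2 with h3 | h3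
    · exact absurd h3 hw
    · exact eq_neg_of_add_eq_zero_left h3
  have hw0 : v w ≠ 0 := (Valuation.ne_zero_iff v).2 hw
  obtain ⟨n, hn⟩ : ∃ n : ℤ, v w = WithZero.exp n := ⟨_, (WithZero.exp_log hw0).symm⟩
  have h2 := congrArg v h1
  rw [map_pow, hn, Ctx.exp_pow, Valuation.map_neg, C.vx, WithZero.exp_inj] at h2
  have h7 : (m : ℤ) ∣ 1 := ⟨-n, by linarith⟩
  have := Int.eq_one_of_dvd_one (by positivity) h7
  have hm : m = 1 := by exact_mod_cast this
  subst hm
  exact ⟨rfl, by rw [← h1, pow_one]⟩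

theorem Ctx.neg_one_Lc (C : Ctx O p e M π z v x) (h2 : p = 2) :
    Lc π e (-1 : Oˣ) (-(residue O z)) := by
  refine ⟨-z, ?_, by rw [map_neg]⟩
  have h1 : (2 : O) = π ^ e * z := by
    rw [← C.pz, h2]
    norm_num
  rw [Units.val_neg, Units.val_one, mul_neg, ← h1]
  ring

/-- The exceptional units for `p = 2`: those congruent to `-1` modulo `π^{e+1}`. -/
def Exc (p e M : ℕ) (π : O) (u : Oˣ) : Prop :=
  p = 2 ∧ e < M ∧ -u ∈ UU π (e + 1) ∧ u ∉ UU π (e + 1)

theorem Ctx.exc_of (C : Ctx O p e M π z v x) (heM : e < M) {i : ℕ} {u : Oˣ}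
    {w : ResidueField O} (hw : w ≠ 0) (H : Lc π i u w) (hi : p * i = i + e)
    (h : w ^ p + x * w = 0) : Exc p e M π u ∧ i = e := by
  obtain ⟨h2, hwx⟩ := C.eq_neg_x hw h
  have hie : i = e := by rw [h2] at hi; omega
  subst hie
  refine ⟨⟨h2, heM, ?_, ?_⟩, rfl⟩
  · have h3 := (C.neg_one_Lc h2).mul C.res0 C.he H
    rw [C.zx heM, hwx, neg_one_mul] at h3
    apply (h3.eq_zero_iff C.π0 C.res).1
    have h4 := C.cast_eq_zero
    rw [h2] at h4
    have h5 : (2 : ResidueField O) = 0 := by exact_mod_cast h4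
    linear_combination -x * h5
  · intro hu
    exact hw ((H.eq_zero_iff C.π0 C.res).2 hu)

/-- exact levels of `p`-th powers -/
theorem Ctx.level (C : Ctx O p e M π z v x) {j : ℕ} (hj : 1 ≤ j) (hjM : j < M) {i₀ : ℕ}
    (hi₀ : 1 ≤ i₀) {u : Oˣ} (hu : u ∈ UU π i₀) (hup : u ^ p ∈ UU π (j + 1)) :
    (∃ i, i₀ ≤ i ∧ j + 1 ≤ min (p * i) (i + e) ∧ u ∈ UU π i) ∨ Exc p e M π u := by
  have hp2 := C.hp.two_le
  have he := C.he
  have hρ : ∀ i, j ≤ i → j + 1 ≤ min (p * i) (i + e) := by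
    intro i hi
    refine le_min ?_ (by omega)
    calc j + 1 ≤ 2 * i := by omega
      _ ≤ p * i := Nat.mul_le_mul_right _ hp2
  by_cases h : u ∈ UU π (max i₀ j)
  · exact Or.inl ⟨max i₀ j, le_max_left _ _, hρ _ (le_max_right _ _), h⟩
  · obtain ⟨i, h1, h2, h3, h4⟩ := exists_exact (le_max_left i₀ j) hu h
    have hij : i < j := by
      rcases le_total i₀ j with h5 | h5
      · rwa [max_eq_right h5] at h2
      · rw [max_eq_left h5] at h2
        omega
    obtain ⟨w, hw⟩ := exists_Lc h3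
    have hw0 : w ≠ 0 := fun h5 => h4 ((hw.eq_zero_iff C.π0 C.res).1 h5)
    obtain ⟨c1, c2, c3⟩ := C.pow (hi₀.trans h1) hw
    by_contra hcon
    push Not at hcon
    obtain ⟨hcon1, hcon2⟩ := hcon
    have hlt : min (p * i) (i + e) ≤ j := by
      by_contra h5
      push Not at h5
      exact hcon1 i h1 h5 h3
    rcases lt_trichotomy (p * i) (i + e) with h6 | h6 | h6
    · rw [min_eq_left h6.le] at hlt
      have h7 := ((c1 h6).eq_zero_iff C.π0 C.res).2 (UU_anti (by omega) hup)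
      exact hw0 (pow_eq_zero_iff C.hp.ne_zero |>.1 h7)
    · rw [min_eq_left h6.le] at hlt
      have h7 := ((c3 h6).eq_zero_iff C.π0 C.res).2 (UU_anti (by omega) hup)
      rw [C.zx (by omega)] at h7
      exact hcon2 (C.exc_of (by omega) hw0 hw h6 h7).1
    · rw [min_eq_right h6.le] at hlt
      have h7 := ((c2 h6).eq_zero_iff C.π0 C.res).2 (UU_anti (by omega) hup)
      rw [C.zx (by omega)] at h7
      rcases mul_eq_zero.1 h7 with h8 | h8
      · exact C.x_ne h8
      · exact hw0 h8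

theorem Ctx.level' (C : Ctx O p e M π z v x) {j : ℕ} (hj : 1 ≤ j) (hjM : j < M)
    {u : Oˣ} (hu : u ∈ UU π 1) (hup : u ^ p ∈ UU π (j + 1)) :
    (∃ i, 1 ≤ i ∧ j + 1 ≤ min (p * i) (i + e) ∧ u ∈ UU π i) ∨
    (p = 2 ∧ ∃ i, 1 ≤ i ∧ j + 1 ≤ min (p * i) (i + e) ∧ -u ∈ UU π i) := by
  rcases C.level hj hjM le_rfl hu hup with h | h
  · exact Or.inl h
  · obtain ⟨h1, h2, h3, h4⟩ := h
    right
    refine ⟨h1, ?_⟩
    have h5 : (-u) ^ p ∈ UU π (j + 1) := by
      rw [h1] at hup ⊢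
      rwa [neg_sq]
    rcases C.level hj hjM (by omega) h3 h5 with ⟨i, h6, h7, h8⟩ | h
    · exact ⟨i, by omega, h7, h8⟩
    · exact absurd h3 h.2.2.2

/-- leading coefficients of `p`-th powers -/
theorem Ctx.coeff₁ (C : Ctx O p e M π z v x) {j : ℕ} (hj : 1 ≤ j) (hjM : j < M)
    (hns : ∀ i, 1 ≤ i → e < i * (p - 1) → j ≠ i + e) {u : Oˣ} (hu : u ∈ UU π 1)
    {h : ResidueField O} (H : Lc π j (u ^ p) h) :
    (∃ w, h = w ^ p) ∨ (e < j ∧ ∃ w, h = w ^ p + x * w) ∨ Exc p e M π u := by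
  have hp2 := C.hp.two_le
  have he := C.he
  have hz : u ^ p ∈ UU π (j + 1) → ∃ w, h = w ^ p := by
    intro h1
    refine ⟨0, ?_⟩
    rw [zero_pow C.hp.ne_zero]
    exact (H.eq_zero_iff C.π0 C.res).2 h1
  have hρ : j + 1 ≤ min (p * j) (j + e) := by
    refine le_min ?_ (by omega)
    calc j + 1 ≤ 2 * j := by omega
      _ ≤ p * j := Nat.mul_le_mul_right _ hp2
  by_cases h1 : u ∈ UU π j
  · exact Or.inl (hz (UU_anti hρ (C.pow_mem hj h1)))
  · obtain ⟨i, h2, h3, h4, h5⟩ := exists_exact hj hu h1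
    obtain ⟨w, hw⟩ := exists_Lc h4
    have hw0 : w ≠ 0 := fun h6 => h5 ((hw.eq_zero_iff C.π0 C.res).1 h6)
    obtain ⟨c1, c2, c3⟩ := C.pow h2 hw
    rcases lt_trichotomy (p * i) (i + e) with h6 | h6 | h6
    · have c := c1 h6
      rcases lt_trichotomy (p * i) j with h7 | h7 | h7
      · have h8 := (c.eq_zero_iff C.π0 C.res).2 (UU_anti (by omega) H.mem)
        exact absurd (pow_eq_zero_iff C.hp.ne_zero |>.1 h8) hw0
      · rw [h7] at c
        exact Or.inl ⟨w, H.unique C.π0 c⟩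
      · exact Or.inl (hz (UU_anti (by omega) c.mem))
    · have c := c3 h6
      rcases lt_trichotomy (p * i) j with h7 | h7 | h7
      · have h8 := (c.eq_zero_iff C.π0 C.res).2 (UU_anti (by omega) H.mem)
        rw [C.zx (by omega)] at h8
        exact Or.inr (Or.inr (C.exc_of (by omega) hw0 hw h6 h8).1)
      · rw [h7, C.zx (by omega)] at c
        exact Or.inr (Or.inl ⟨by omega, w, H.unique C.π0 c⟩)
      · exact Or.inl (hz (UU_anti (by omega) c.mem))
    · have c := c2 h6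
      have h9 : e < i * (p - 1) := by
        obtain ⟨m, hm⟩ : ∃ m, p = m + 1 := ⟨p - 1, by omega⟩
        rw [hm] at h6 ⊢
        rw [Nat.add_sub_cancel]
        nlinarith
      rcases lt_trichotomy (i + e) j with h7 | h7 | h7
      · have h8 := (c.eq_zero_iff C.π0 C.res).2 (UU_anti (by omega) H.mem)
        rw [C.zx (by omega)] at h8
        rcases mul_eq_zero.1 h8 with h8 | h8
        · exact absurd h8 C.x_ne
        · exact absurd h8 hw0
      · exact absurd h7.symm (hns i h2 h9)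
      · exact Or.inl (hz (UU_anti (by omega) c.mem))

theorem Ctx.coeff (C : Ctx O p e M π z v x) {j : ℕ} (hj : 1 ≤ j) (hjM : j < M)
    (hns : ∀ i, 1 ≤ i → e < i * (p - 1) → j ≠ i + e) {u : Oˣ} (hu : u ∈ UU π 1)
    {h : ResidueField O} (H : Lc π j (u ^ p) h) :
    (∃ w, h = w ^ p) ∨ (e < j ∧ ∃ w, h = w ^ p + x * w) := by
  rcases C.coeff₁ hj hjM hns hu H with h1 | h1 | h1
  · exact Or.inl h1
  · exact Or.inr h1
  · obtain ⟨h2, h3, h4, h5⟩ := h1
    have h6 : Lc π j ((-u) ^ p) h := by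
      rw [h2] at H ⊢
      rwa [neg_sq]
    rcases C.coeff₁ hj hjM hns (UU_anti (by omega) h4) h6 with h1 | h1 | h1
    · exact Or.inl h1
    · exact Or.inr h1
    · exact absurd h4 h1.2.2.2

/-- `-1` is not a square modulo `U_{e+1}`. -/
theorem Ctx.neg_sq (C : Ctx O p e M π z v x) (h2 : p = 2) (heM : e < M) {u : Oˣ}
    (hu : u ∈ UU π 1) (h : -(u ^ 2) ∈ UU π (e + 1)) : False := by
  have h1 := (C.neg_one_Lc h2).mul C.res0 C.he (Lc.of_mem C.res0 h)
  have h3 : (-1 : Oˣ) * -(u ^ 2) = u ^ p := by rw [h2]; simp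
  rw [h3, C.zx heM, add_zero] at h1
  rcases C.coeff C.he heM (by intro i hi _; omega) hu h1 with ⟨w, hw⟩ | ⟨h4, -⟩
  · apply C.not_pow (w := w)
    rw [← hw, Valuation.map_neg]
  · omega

theorem Ctx.exists_unit (C : Ctx O p e M π z v x) {j : ℕ} (hj : 1 ≤ j) (h : ResidueField O) :
    ∃ u : Oˣ, Lc π j u h := by
  obtain ⟨y, rfl⟩ := residue_surjective h
  have h1 : IsUnit (1 + π ^ j * y) := by
    rw [← residue_ne_zero_iff_isUnit]
    obtain ⟨m, rfl⟩ : ∃ m, j = m + 1 := ⟨j - 1, by omega⟩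
    simp [C.res0]
  obtain ⟨u, hu⟩ := h1
  exact ⟨u, y, hu, rfl⟩

/-- units that are pairwise incongruent modulo `p`-th powers, `±1` and `U_{j+1}` -/
theorem Ctx.exists_seq (C : Ctx O p e M π z v x) {j : ℕ} (hj : 1 ≤ j) (hjM : j < M)
    (hns : ∀ i, 1 ≤ i → e < i * (p - 1) → j ≠ i + e) :
    ∃ g : ℕ → Oˣ, (∀ k, g k ∈ UU π j) ∧ ∀ k l, k ≠ l → ∀ u ∈ UU π 1, ∀ w ∈ UU π (j + 1),
      g k * (g l)⁻¹ ≠ u ^ p * w ∧ (p = 2 → g k * (g l)⁻¹ ≠ u ^ p * w * (-1)) := by
  choose g hg using fun k : ℕ => C.exists_unit hj ((x⁻¹) ^ (p * k + 1))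
  have hvx : v x ≤ 1 := by
    rw [C.vx, ← WithZero.exp_zero, WithZero.exp_le_exp]
    norm_num
  have hgk : ∀ k l, Lc π j (g k * (g l)⁻¹) ((x⁻¹) ^ (p * k + 1) - (x⁻¹) ^ (p * l + 1)) := by
    intro k l
    rw [sub_eq_add_neg]
    exact (hg k).mul C.res0 hj ((hg l).inv C.res0 hj)
  have key : ∀ k l, k ≠ l → ∀ u ∈ UU π 1, ∀ w ∈ UU π (j + 1), g k * (g l)⁻¹ ≠ u ^ p * w := by
    intro k l hkl u hu w hw heq
    have h1 : u ^ p = g k * (g l)⁻¹ * w⁻¹ := by rw [heq, mul_inv_cancel_right]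
    have h2 := (hgk k l).mul C.res0 hj ((Lc.of_mem C.res0 hw).inv C.res0 hj)
    rw [← h1, neg_zero, add_zero] at h2
    rcases C.coeff hj hjM hns hu h2 with ⟨w', h3⟩ | ⟨-, w', h3⟩
    · refine C.gap hkl (w := w') (a := 0) (b := 0) (by simp) (by simp) ?_
      rw [h3]
      ring
    · refine C.gap hkl (w := w') (a := x) (b := 0) hvx (by simp) ?_
      rw [h3]
      ring
  refine ⟨g, fun k => (hg k).mem, ?_⟩
  intro k l hkl u hu w hw
  refine ⟨key k l hkl u hu w hw, ?_⟩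
  intro h2 heq
  rcases lt_trichotomy j e with hje | hje | hje
  · apply key k l hkl u hu (w * (-1)) ((UU π (j + 1)).mul_mem hw
      (UU_anti (by omega) (C.neg_one_Lc h2).mem))
    rw [heq, mul_assoc]
  · have h1 : u ^ p = g k * (g l)⁻¹ * w⁻¹ * (-1) := by
      rw [heq]
      simp
    have h3 := (hgk k l).mul C.res0 hj ((Lc.of_mem C.res0 hw).inv C.res0 hj)
    rw [neg_zero, add_zero] at h3
    have h4 := C.neg_one_Lc h2
    rw [← hje, C.zx (by omega)] at h4
    have h5 := h3.mul C.res0 hj h4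
    rw [← h1] at h5
    rcases C.coeff hj hjM hns hu h5 with ⟨w', h6⟩ | ⟨h6, -⟩
    · refine C.gap hkl (w := w') (a := 0) (b := x) (by simp) hvx ?_
      rw [← h6]
      ring
    · omega
  · apply C.neg_sq h2 (by omega) hu
    have h1 : -(u ^ 2) = g k * (g l)⁻¹ * w⁻¹ := by
      rw [heq, h2]
      simp
    rw [h1]
    refine UU_anti (show e + 1 ≤ j by omega) ?_
    exact (UU π j).mul_mem (hgk k l).mem ((UU π j).inv_mem (UU_anti (by omega) hw))

theorem Ctx.main (C : Ctx O p e M π z v x) (hM : 1 ≤ M) {A : Type*} [CommGroup A] [Finite A]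
    (ε : A) (hε : ε ^ 2 = 1) (B : ℕ → Subgroup A) (Banti : ∀ n, 1 ≤ n → B (n + 1) ≤ B n)
    (Btop : ∀ n, M ≤ n → B n = ⊥)
    (Bpow : ∀ n, 1 ≤ n → ∀ b ∈ B n, b ^ p ∈ B (min (p * n) (n + e)))
    (Bgen : ∀ n, 1 ≤ n → e < n * (p - 1) → ∀ b ∈ B (n + e), ∃ b₁ ∈ B n, ∃ b₂ ∈ B (n + e + 1),
      b = b₁ ^ p * b₂) (Beps : p = 2 → ε ∈ B e) :
    ∃ X : UU π 1 →* A, (∀ m, 1 ≤ m → ((UU π m).subgroupOf (UU π 1)).map X = B m) ∧
      (p = 2 → ∀ u : UU π 1, (u : Oˣ) = -1 → X u = ε) := by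
  have hp2 := C.hp.two_le
  have Ganti : ∀ n, 1 ≤ n → (UU π (n + 1)).subgroupOf (UU π 1) ≤
      (UU π n).subgroupOf (UU π 1) := by
    intro n _ u hu
    rw [Subgroup.mem_subgroupOf] at hu ⊢
    exact UU_anti (Nat.le_succ n) hu
  have hc : ∀ i, 1 ≤ i → ∀ u ∈ (UU π i).subgroupOf (UU π 1),
      u ^ p ∈ (UU π (min (p * i) (i + e))).subgroupOf (UU π 1) := by
    intro i hi u hu
    rw [Subgroup.mem_subgroupOf] at hu ⊢
    rw [Subgroup.coe_pow]
    exact C.pow_mem hi hu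
  by_cases h2 : p = 2
  · have hneg : (-1 : Oˣ) ∈ UU π e := (C.neg_one_Lc h2).mem
    have hneg1 : (-1 : Oˣ) ∈ UU π 1 := UU_anti C.he hneg
    obtain ⟨X, hX1, hX2⟩ := filt_group (M := M) C.hp C.he hM
      (fun m => (UU π m).subgroupOf (UU π 1)) Ganti B Banti Btop Bpow Bgen ⟨-1, hneg1⟩ ε
      (by rw [h2]; exact hε) (anti_of Banti le_rfl C.he (Beps h2))
      (by
        intro j hj hjM u hu
        rw [Subgroup.mem_subgroupOf, Subgroup.coe_pow] at hu
        rcases C.level' hj hjM u.2 hu with ⟨i, h3, h4, h5⟩ | ⟨-, i, h3, h4, h5⟩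
        · exact ⟨i, 0, h3, h4, by rw [Subgroup.mem_subgroupOf]; simpa using h5⟩
        · exact ⟨i, 1, h3, h4, by rw [Subgroup.mem_subgroupOf]; simpa using h5⟩)
      (by
        intro j hj hjM hns
        obtain ⟨g, hg1, hg2⟩ := C.exists_seq hj hjM hns
        refine ⟨fun k => ⟨g k, UU_anti hj (hg1 k)⟩, fun k => by
          rw [Subgroup.mem_subgroupOf]; exact hg1 k, ?_⟩
        intro k l hkl u δ w hw heq
        rw [Subgroup.mem_subgroupOf] at hw
        obtain ⟨h3, h4⟩ := hg2 k l hkl u u.2 w hw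
        have h5 := congrArg Subtype.val heq
        simp only [Subgroup.coe_mul, Subgroup.coe_inv, Subgroup.coe_pow] at h5
        rcases Nat.even_or_odd δ with h6 | h6
        · rw [h6.neg_one_pow, mul_one] at h5
          exact h3 h5
        · rw [h6.neg_one_pow] at h5
          exact h4 h2 h5)
      hc
      (by
        intro j hj hjM u δ w hw heq
        rw [Subgroup.mem_subgroupOf] at hw
        have h5 := congrArg Subtype.val heq
        simp only [Subgroup.coe_mul, Subgroup.coe_pow] at h5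
        rcases Nat.even_or_odd δ with h6 | h6
        · constructor
          · rw [Subgroup.mem_subgroupOf, Subgroup.coe_pow, h6.neg_one_pow]
            exact Subgroup.one_mem _
          · obtain ⟨m, hm⟩ := h6
            rw [hm, ← two_mul, pow_mul, hε, one_pow]
            exact Subgroup.one_mem _
        · rcases Nat.lt_or_ge j e with hje | hje
          · constructor
            · rw [Subgroup.mem_subgroupOf, Subgroup.coe_pow, h6.neg_one_pow]
              exact UU_anti (by omega) hneg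
            · exact Subgroup.pow_mem _ (anti_of Banti (by omega) (by omega) (Beps h2)) _
          · exfalso
            rw [h6.neg_one_pow] at h5
            apply C.neg_sq h2 (lt_of_le_of_lt hje hjM) ((UU π 1).inv_mem u.2)
            have h7 : -(((u : Oˣ)⁻¹) ^ 2) = w := by
              have h8 : (w : Oˣ) = ((u : Oˣ) ^ p)⁻¹ * (-1) := by
                rw [h5]
                simp
              rw [h8, h2]
              simp
            rw [h7]
            exact UU_anti (by omega) hw)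
    refine ⟨X, hX1, fun _ u hu => ?_⟩
    rw [← hX2]
    congr 1
    ext
    simp [hu]
  · obtain ⟨X, hX1, hX2⟩ := filt_group (M := M) C.hp C.he hM
      (fun m => (UU π m).subgroupOf (UU π 1)) Ganti B Banti Btop Bpow Bgen 1 1
      (one_pow _) (Subgroup.one_mem _)
      (by
        intro j hj hjM u hu
        rw [Subgroup.mem_subgroupOf, Subgroup.coe_pow] at hu
        rcases C.level' hj hjM u.2 hu with ⟨i, h3, h4, h5⟩ | ⟨h3, -⟩
        · exact ⟨i, 0, h3, h4, by rw [Subgroup.mem_subgroupOf]; simpa using h5⟩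
        · exact absurd h3 h2)
      (by
        intro j hj hjM hns
        obtain ⟨g, hg1, hg2⟩ := C.exists_seq hj hjM hns
        refine ⟨fun k => ⟨g k, UU_anti hj (hg1 k)⟩, fun k => by
          rw [Subgroup.mem_subgroupOf]; exact hg1 k, ?_⟩
        intro k l hkl u δ w hw heq
        rw [Subgroup.mem_subgroupOf] at hw
        obtain ⟨h3, -⟩ := hg2 k l hkl u u.2 w hw
        have h5 := congrArg Subtype.val heq
        simp only [Subgroup.coe_mul, Subgroup.coe_inv, Subgroup.coe_pow, one_pow, mul_one] at h5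
        exact h3 h5)
      hc
      (by
        intro j hj hjM u δ w hw heq
        rw [one_pow, one_pow]
        exact ⟨Subgroup.one_mem _, Subgroup.one_mem _⟩)
    exact ⟨X, hX1, fun h => absurd h h2⟩

end ctx

end Filt

end HypQ
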