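import Pool.Agent.Lib.MP_9f0b3e_al.Defs
import Pool.Agent.Lib.MP_9f0b3e_al.FiltDvr

/-!
# Module FILT: filtered homomorphisms on the one-units of the standard DVR
-/

set_option autoImplicit false

namespace HypQ

open IsLocalRing

namespace Filt

/-- the order of vanishing along `x_1 = 0` on `F_p(x_1, ..., x_n)`. -/
theorem exists_valuation {p n : ℕ} (hp : p.Prime) (hn : 1 ≤ n) {κ : Type} [Field κ]
    (f : UP p n →+* κ) (hf : Function.Injective f)
    (hfr : ∀ y : κ, ∃ a b : UP p n, b ≠ 0 ∧ y * f b = f a) :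
    ∃ v : Valuation κ (WithZero (Multiplicative ℤ)),
      v (f (MvPolynomial.X ⟨0, hn⟩)) = WithZero.exp (-1) := by
  have : Fact p.Prime := ⟨hp⟩
  obtain ⟨m, rfl⟩ : ∃ m, n = m + 1 := ⟨n - 1, by omega⟩
  let S := MvPolynomial (Fin m) (ZMod p)
  let F := FractionRing S
  let j₁ : UP p (m + 1) →+* Polynomial S :=
    (MvPolynomial.finSuccEquiv (ZMod p) m).toRingEquiv.toRingHom
  let j₂ : Polynomial S →+* Polynomial F := Polynomial.mapRingHom (algebraMap S F)
  let j₃ : Polynomial F →+* RatFunc F := algebraMap (Polynomial F) (RatFunc F)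
  let j : UP p (m + 1) →+* RatFunc F := j₃.comp (j₂.comp j₁)
  have hj : Function.Injective j := by
    apply (RatFunc.algebraMap_injective F).comp
    apply (Polynomial.map_injective _ (IsFractionRing.injective S F)).comp
    exact (MvPolynomial.finSuccEquiv (ZMod p) m).injective
  have hjX : j (MvPolynomial.X ⟨0, hn⟩) = RatFunc.X := by
    have h1 : j₁ (MvPolynomial.X ⟨0, hn⟩) = Polynomial.X :=
      MvPolynomial.finSuccEquiv_X_zero
    have h2 : j₂ Polynomial.X = Polynomial.X := Polynomial.map_X _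
    change j₃ (j₂ (j₁ _)) = _
    rw [h1, h2]
    exact RatFunc.algebraMap_X
  let _ : Algebra (UP p (m + 1)) κ := f.toAlgebra
  have hfrac : IsFractionRing (UP p (m + 1)) κ := by
    rw [IsFractionRing, isLocalization_iff]
    refine ⟨?_, ?_, ?_⟩
    · intro y
      apply IsUnit.mk0
      intro h
      have h1 : (y : UP p (m + 1)) = 0 := hf (by rw [map_zero]; exact h)
      exact nonZeroDivisors.coe_ne_zero y h1
    · intro y
      obtain ⟨a, b, hb, hab⟩ := hfr y
      exact ⟨(a, ⟨b, mem_nonZeroDivisors_of_ne_zero hb⟩), hab⟩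
    · intro a b hab
      exact ⟨1, by rw [hf hab]⟩
  let L : κ →+* RatFunc F := IsFractionRing.lift (A := UP p (m + 1)) (K := κ) hj
  have hL : L (f (MvPolynomial.X ⟨0, hn⟩)) = RatFunc.X := by
    rw [← hjX]
    exact IsFractionRing.lift_algebraMap hj _
  refine ⟨((Polynomial.idealX F).valuation (RatFunc F)).comap L, ?_⟩
  rw [Valuation.comap_apply, hL]
  exact Polynomial.valuation_X_eq_neg_one F

end Filt

/-- a filtered homomorphism with prescribed images. -/
theorem exists_filtered {O : Type} [CommRing O] [IsDomain O] [IsDiscreteValuationRing O] {π : O}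
    (hπ : Irreducible π) {p : ℕ} (hp : p.Prime) {n e : ℕ} (hn : 1 ≤ n) (he : 1 ≤ e) (c : ℕ)
    (hc : c = 0 ∨ c = p) [CharP O c] (f : UP p n →+* IsLocalRing.ResidueField O)
    (hf : Function.Injective f)
    (hfr : ∀ y : IsLocalRing.ResidueField O, ∃ a b : UP p n, b ≠ 0 ∧ y * f b = f a) (x : O)
    (hx : IsLocalRing.residue O x = f (MvPolynomial.X ⟨0, hn⟩))
    (hpx : c = 0 → (p : O) = π ^ e * x) {A A' : Type} [CommGroup A] [Finite A] [CommGroup A']
    (φ : A →* A') (ε : A) (M : ℕ) (B : ℕ → Subgroup A) (hB : ChainOK p e M φ ε B)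
    (hcM : c = p → M ≤ e) (hε : ε ^ 2 = 1) :
    ∃ X₁ : {u : Oˣ // π ∣ (u : O) - 1} → A,
      (∀ u v w : {u : Oˣ // π ∣ (u : O) - 1}, (w : Oˣ) = u * v → X₁ w = X₁ u * X₁ v) ∧
      (∀ m, 1 ≤ m → ∀ b : A, b ∈ B m ↔ ∃ u : {u : Oˣ // π ∣ (u : O) - 1},
        π ^ m ∣ ((u : Oˣ) : O) - 1 ∧ X₁ u = b) ∧
      (p = 2 → ∀ u : {u : Oˣ // π ∣ (u : O) - 1}, (u : Oˣ) = -1 → X₁ u = ε) := by
  obtain ⟨v, hv⟩ := Filt.exists_valuation hp hn f hf hfr
  obtain ⟨z, hz1, hz2⟩ : ∃ z : O, (p : O) = π ^ e * z ∧ (e < M → residue O z = residue O x) := by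
    rcases hc with rfl | rfl
    · exact ⟨x, hpx rfl, fun _ => rfl⟩
    · refine ⟨0, ?_, fun h => ?_⟩
      · rw [mul_zero]
        exact CharP.cast_eq_zero O c
      · have := hcM rfl
        omega
  have C : Filt.Ctx O p e M π z v (f (MvPolynomial.X ⟨0, hn⟩)) :=
    { hp := hp
      he := he
      π0 := hπ.ne_zero
      res := by
        intro y
        rw [residue_eq_zero_iff, hπ.maximalIdeal_eq, Ideal.mem_span_singleton]
      pz := hz1
      zx := fun h => by rw [hz2 h, hx]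
      vx := hv }
  obtain ⟨X, hX1, hX2⟩ := C.main hB.M_pos ε hε B hB.anti hB.top hB.pow hB.gen hB.eps
  have hmem : ∀ u : {u : Oˣ // π ∣ (u : O) - 1}, (u : Oˣ) ∈ Filt.UU π 1 := by
    intro u
    rw [Filt.mem_UU, pow_one]
    exact u.2
  refine ⟨fun u => X ⟨u, hmem u⟩, ?_, ?_, ?_⟩
  · intro u v w h
    rw [← map_mul]
    exact congrArg X (Subtype.ext h)
  · intro m hm b
    rw [← hX1 m hm, Subgroup.mem_map]
    constructor
    · rintro ⟨u, hu, hb⟩
      refine ⟨⟨u, by have := u.2; rwa [Filt.mem_UU, pow_one] at this⟩, ?_, hb⟩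
      rw [Subgroup.mem_subgroupOf, Filt.mem_UU] at hu
      exact hu
    · rintro ⟨u, hu, hb⟩
      exact ⟨⟨u, hmem u⟩, by rw [Subgroup.mem_subgroupOf]; exact hu, hb⟩
  · intro h2 u hu
    exact hX2 h2 _ hu

end HypQ
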