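import Pool.Agent.Lib.MP_9f0b3e_al.FiltLin

/-!
# Filtered homomorphisms with prescribed images, abstract group version

Module FILT: induction over the levels with the step lemma of `FiltLin`.
-/

set_option autoImplicit false

namespace HypQ

namespace Filt

theorem anti_of {G : Type*} [CommGroup G] {F : ℕ → Subgroup G}
    (h : ∀ n, 1 ≤ n → F (n + 1) ≤ F n) {m n : ℕ} (hm : 1 ≤ m) (hmn : m ≤ n) : F n ≤ F m := by
  induction n, hmn using Nat.le_induction with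
  | base => exact le_rfl
  | succ n hn ih => exact (h n (hm.trans hn)).trans ih

/-- The statement at level `j`. -/
def Stage {G A : Type*} [CommGroup G] [CommGroup A] (Gf : ℕ → Subgroup G) (B : ℕ → Subgroup A)
    (s : G) (ε : A) (j : ℕ) : Prop :=
  ∃ X : G →* A ⧸ B j, (∀ i, 1 ≤ i → i ≤ j →
    (Gf i).map X = (B i).map (QuotientGroup.mk' (B j))) ∧ X s = (ε : A ⧸ B j)

theorem stage_succ {G A : Type*} [CommGroup G] [CommGroup A] [Finite A] {p e M : ℕ}
    (hp : p.Prime) (he : 1 ≤ e) (Gf : ℕ → Subgroup G)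
    (Ganti : ∀ n, 1 ≤ n → Gf (n + 1) ≤ Gf n)
    (B : ℕ → Subgroup A) (Banti : ∀ n, 1 ≤ n → B (n + 1) ≤ B n)
    (Bpow : ∀ n, 1 ≤ n → ∀ b ∈ B n, b ^ p ∈ B (min (p * n) (n + e)))
    (Bgen : ∀ n, 1 ≤ n → e < n * (p - 1) → ∀ b ∈ B (n + e), ∃ b₁ ∈ B n, ∃ b₂ ∈ B (n + e + 1),
      b = b₁ ^ p * b₂)
    (s : G) (ε : A) (hεp : ε ^ p = 1)
    (ha : ∀ j, 1 ≤ j → j < M → ∀ u : G, u ^ p ∈ Gf (j + 1) →
      ∃ i k, 1 ≤ i ∧ j + 1 ≤ min (p * i) (i + e) ∧ u * s ^ k ∈ Gf i)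
    (hb : ∀ j, 1 ≤ j → j < M → (∀ i, 1 ≤ i → e < i * (p - 1) → j ≠ i + e) →
      ∃ g : ℕ → G, (∀ k, g k ∈ Gf j) ∧ ∀ k l, k ≠ l → ∀ (v : G) (δ : ℕ), ∀ w ∈ Gf (j + 1),
        g k * (g l)⁻¹ ≠ v ^ p * w * s ^ δ)
    (hc : ∀ i, 1 ≤ i → ∀ u ∈ Gf i, u ^ p ∈ Gf (min (p * i) (i + e)))
    (hd : ∀ j, 1 ≤ j → j < M → ∀ (v : G) (δ : ℕ), ∀ w ∈ Gf (j + 1), s ^ δ = v ^ p * w →
      s ^ δ ∈ Gf (j + 1) ∧ ε ^ δ ∈ B (j + 1))
    (j : ℕ) (hj : 1 ≤ j) (hjM : j < M) (h : Stage Gf B s ε j) : Stage Gf B s ε (j + 1) := by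
  obtain ⟨X, hX, hXs⟩ := h
  have hρj : j + 1 ≤ min (p * j) (j + e) := by
    have := hp.two_le
    refine le_min ?_ (by omega)
    calc j + 1 ≤ 2 * j := by omega
      _ ≤ p * j := Nat.mul_le_mul_right _ this
  -- the quotient map
  let q : A ⧸ B (j + 1) →* A ⧸ B j := QuotientGroup.map (B (j + 1)) (B j) (MonoidHom.id A)
    (by rw [Subgroup.comap_id]; exact Banti j hj)
  have hqmk : ∀ a : A, q (a : A ⧸ B (j + 1)) = (a : A ⧸ B j) := fun a => rfl
  have hq : Function.Surjective q := by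
    intro x
    obtain ⟨a, rfl⟩ := QuotientGroup.mk_surjective x
    exact ⟨a, hqmk a⟩
  have hker : ∀ b ∈ q.ker, ∃ a ∈ B j, b = (a : A ⧸ B (j + 1)) := by
    intro b hb
    obtain ⟨a, rfl⟩ := QuotientGroup.mk_surjective b
    rw [MonoidHom.mem_ker, hqmk, QuotientGroup.eq_one_iff] at hb
    exact ⟨a, hb, rfl⟩
  have hXmem : ∀ i, 1 ≤ i → i ≤ j → ∀ u ∈ Gf i, ∃ b ∈ B i, X u = (b : A ⧸ B j) := by
    intro i hi hij u hu
    have h1 : X u ∈ (Gf i).map X := Subgroup.mem_map_of_mem _ hu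
    rw [hX i hi hij] at h1
    obtain ⟨b, hb, hb2⟩ := h1
    exact ⟨b, hb, hb2.symm⟩
  have hXmem' : ∀ i, 1 ≤ i → i ≤ j → ∀ b ∈ B i, ∃ u ∈ Gf i, X u = (b : A ⧸ B j) := by
    intro i hi hij b hb
    have h1 : (b : A ⧸ B j) ∈ (B i).map (QuotientGroup.mk' (B j)) :=
      Subgroup.mem_map_of_mem (QuotientGroup.mk' (B j)) hb
    rw [← hX i hi hij] at h1
    exact h1
  have hX1 : ∀ u ∈ Gf j, X u = 1 := by
    intro u hu
    obtain ⟨b, hb, hb2⟩ := hXmem j hj le_rfl u hu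
    rw [hb2, QuotientGroup.eq_one_iff]
    exact hb
  -- lifts of elements of `X (Gf i)`
  have hlift : ∀ i, 1 ≤ i → i ≤ j → ∀ u ∈ Gf i, ∀ a : A, X u = (a : A ⧸ B j) → a ∈ B i := by
    intro i hi hij u hu a hua
    obtain ⟨b, hb, hb2⟩ := hXmem i hi hij u hu
    rw [hua, QuotientGroup.eq] at hb2
    have h3 := anti_of Banti hi hij hb2
    have h4 := (B i).mul_mem hb ((B i).inv_mem h3)
    simpa using h4
  obtain ⟨Y, hY1, hY2, hY3, hY4⟩ := step (p := p) hp q hq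
    (by
      intro b hb
      obtain ⟨a, ha1, rfl⟩ := hker b hb
      rw [← QuotientGroup.mk_pow, QuotientGroup.eq_one_iff]
      exact anti_of Banti (by omega) hρj (Bpow j hj a ha1))
    X (Gf j) (Gf (j + 1)) (fun w hw => hX1 w (Ganti j hj hw)) hX1 s (ε : A ⧸ B (j + 1)) hXs
    (by
      intro u a w δ h1 h2 h3
      have h4 : s ^ δ = (u⁻¹) ^ p * w⁻¹ := by
        rw [inv_pow, ← mul_inv, eq_comm, inv_eq_iff_mul_eq_one]
        exact h3
      obtain ⟨h5, h6⟩ := hd j hj hjM u⁻¹ δ w⁻¹ ((Gf (j + 1)).inv_mem h2) h4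
      have h7 : ((ε : A ⧸ B (j + 1))) ^ δ = 1 := by
        rw [← QuotientGroup.mk_pow, QuotientGroup.eq_one_iff]
        exact h6
      rw [h7, mul_one]
      have h8 : u ^ p ∈ Gf (j + 1) := by
        have h9 : u ^ p = (w * s ^ δ)⁻¹ := by
          rw [eq_inv_iff_mul_eq_one, ← mul_assoc]
          exact h3
        rw [h9]
        exact (Gf (j + 1)).inv_mem ((Gf (j + 1)).mul_mem h2 h5)
      obtain ⟨i, k, hi, hik, hu⟩ := ha j hj hjM u h8
      obtain ⟨a₀, rfl⟩ := QuotientGroup.mk_surjective a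
      have hi' : 1 ≤ min i j := le_min hi hj
      have h10 : a₀ * ε ^ k ∈ B (min i j) := by
        apply hlift (min i j) hi' (min_le_right _ _) (u * s ^ k)
          (anti_of Ganti hi' (min_le_left _ _) hu)
        rw [map_mul, map_pow, h1, hXs, hqmk]
        rfl
      have h11 : (a₀ * ε ^ k) ^ p ∈ B (j + 1) := by
        refine anti_of Banti (by omega) ?_ (Bpow _ hi' _ h10)
        rcases le_total i j with hij | hij
        · rw [min_eq_left hij]
          exact hik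
        · rw [min_eq_right hij]
          exact hρj
      have h12 : (a₀ * ε ^ k) ^ p = a₀ ^ p := by
        rw [mul_pow, ← pow_mul, mul_comm k p, pow_mul, hεp, one_pow, mul_one]
      rw [h12] at h11
      rw [← QuotientGroup.mk_pow, QuotientGroup.eq_one_iff]
      exact h11)
    (by
      by_cases hcase : ∀ i, 1 ≤ i → e < i * (p - 1) → j ≠ i + e
      · exact Or.inl (hb j hj hjM hcase)
      · right
        push Not at hcase
        obtain ⟨i, hi, hi2, hji⟩ := hcase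
        intro b hb
        obtain ⟨a, ha1, rfl⟩ := hker b hb
        rw [hji] at ha1
        obtain ⟨b₁, hb₁, b₂, hb₂, hab⟩ := Bgen i hi hi2 a ha1
        obtain ⟨u, hu, hu2⟩ := hXmem' i hi (by omega) b₁ hb₁
        refine ⟨u, (b₁ : A ⧸ B (j + 1)), by rw [hu2, hqmk], ?_, ?_⟩
        · have h13 := hc i hi u hu
          have h14 : min (p * i) (i + e) = j := by
            rw [hji]
            apply min_eq_right
            have h15 : i * (p - 1) + i = p * i := by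
              obtain ⟨m, rfl⟩ : ∃ m, p = m + 1 := ⟨p - 1, by have := hp.pos; omega⟩
              rw [Nat.add_sub_cancel]
              ring
            omega
          rwa [h14] at h13
        · rw [hab, ← QuotientGroup.mk_pow, QuotientGroup.eq]
          have h16 : (b₁ ^ p)⁻¹ * (b₁ ^ p * b₂) = b₂ := by group
          rw [h16, hji]
          exact hb₂)
  refine ⟨Y, ?_, hY3⟩
  intro i hi hij
  rcases Nat.lt_or_ge j i with h | h
  · have hi' : i = j + 1 := by omega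
    subst hi'
    ext x
    constructor
    · rintro ⟨u, hu, rfl⟩
      rw [hY2 u hu]
      exact Subgroup.one_mem _
    · rintro ⟨b, hb, rfl⟩
      have h17 : (QuotientGroup.mk' (B (j + 1))) b = 1 := by
        rw [QuotientGroup.mk'_apply, QuotientGroup.eq_one_iff]
        exact hb
      rw [h17]
      exact Subgroup.one_mem _
  · ext x
    constructor
    · rintro ⟨u, hu, rfl⟩
      obtain ⟨a, hx⟩ := QuotientGroup.mk_surjective (Y u)
      refine ⟨a, ?_, hx⟩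
      apply hlift i hi h u hu a
      rw [← hY1, ← hx, hqmk]
    · rintro ⟨b, hb, rfl⟩
      obtain ⟨u, hu, hu2⟩ := hXmem' i hi h b hb
      have h18 : Y u * ((b : A ⧸ B (j + 1)))⁻¹ ∈ q.ker := by
        rw [MonoidHom.mem_ker, map_mul, map_inv, hY1, hqmk, hu2, mul_inv_cancel]
      obtain ⟨u', hu', hu2'⟩ := hY4 _ h18
      refine ⟨u * u'⁻¹, (Gf i).mul_mem hu ((Gf i).inv_mem (anti_of Ganti hi h hu')), ?_⟩
      rw [map_mul, map_inv, hu2', QuotientGroup.mk'_apply]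
      simp

theorem filt_group {G A : Type*} [CommGroup G] [CommGroup A] [Finite A] {p e M : ℕ}
    (hp : p.Prime) (he : 1 ≤ e) (hM : 1 ≤ M) (Gf : ℕ → Subgroup G)
    (Ganti : ∀ n, 1 ≤ n → Gf (n + 1) ≤ Gf n)
    (B : ℕ → Subgroup A) (Banti : ∀ n, 1 ≤ n → B (n + 1) ≤ B n) (Btop : ∀ n, M ≤ n → B n = ⊥)
    (Bpow : ∀ n, 1 ≤ n → ∀ b ∈ B n, b ^ p ∈ B (min (p * n) (n + e)))
    (Bgen : ∀ n, 1 ≤ n → e < n * (p - 1) → ∀ b ∈ B (n + e), ∃ b₁ ∈ B n, ∃ b₂ ∈ B (n + e + 1),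
      b = b₁ ^ p * b₂)
    (s : G) (ε : A) (hεp : ε ^ p = 1) (hε1 : ε ∈ B 1)
    (ha : ∀ j, 1 ≤ j → j < M → ∀ u : G, u ^ p ∈ Gf (j + 1) →
      ∃ i k, 1 ≤ i ∧ j + 1 ≤ min (p * i) (i + e) ∧ u * s ^ k ∈ Gf i)
    (hb : ∀ j, 1 ≤ j → j < M → (∀ i, 1 ≤ i → e < i * (p - 1) → j ≠ i + e) →
      ∃ g : ℕ → G, (∀ k, g k ∈ Gf j) ∧ ∀ k l, k ≠ l → ∀ (v : G) (δ : ℕ), ∀ w ∈ Gf (j + 1),
        g k * (g l)⁻¹ ≠ v ^ p * w * s ^ δ)
    (hc : ∀ i, 1 ≤ i → ∀ u ∈ Gf i, u ^ p ∈ Gf (min (p * i) (i + e)))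
    (hd : ∀ j, 1 ≤ j → j < M → ∀ (v : G) (δ : ℕ), ∀ w ∈ Gf (j + 1), s ^ δ = v ^ p * w →
      s ^ δ ∈ Gf (j + 1) ∧ ε ^ δ ∈ B (j + 1)) :
    ∃ X : G →* A, (∀ m, 1 ≤ m → (Gf m).map X = B m) ∧ X s = ε := by
  have h1 : Stage Gf B s ε 1 := by
    refine ⟨1, ?_, ?_⟩
    · intro i hi hi1
      have : i = 1 := le_antisymm hi1 hi
      subst this
      ext x
      constructor
      · rintro ⟨u, -, rfl⟩
        exact Subgroup.one_mem _
      · rintro ⟨b, hb, rfl⟩
        have h17 : (QuotientGroup.mk' (B 1)) b = 1 := by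
          rw [QuotientGroup.mk'_apply, QuotientGroup.eq_one_iff]
          exact hb
        rw [h17]
        exact Subgroup.one_mem _
    · rw [MonoidHom.one_apply, eq_comm, QuotientGroup.eq_one_iff]
      exact hε1
  have h2 : ∀ j, 1 ≤ j → j ≤ M → Stage Gf B s ε j := by
    intro j hj
    induction j, hj using Nat.le_induction with
    | base => exact fun _ => h1
    | succ j hj ih =>
      exact fun hjM => stage_succ hp he Gf Ganti B Banti Bpow Bgen s ε hεp ha hb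
        hc hd j hj hjM (ih (by omega))
  obtain ⟨X, hX, hXs⟩ := h2 M hM le_rfl
  have hinj : Function.Injective (QuotientGroup.mk' (B M)) := by
    rw [injective_iff_map_eq_one]
    intro a ha
    rw [QuotientGroup.mk'_apply, QuotientGroup.eq_one_iff, Btop M le_rfl] at ha
    exact ha
  let E : A ≃* A ⧸ B M := MulEquiv.ofBijective (QuotientGroup.mk' (B M))
    ⟨hinj, QuotientGroup.mk'_surjective _⟩
  have hE : ∀ a, E a = (a : A ⧸ B M) := fun a => rfl
  refine ⟨E.symm.toMonoidHom.comp X, ?_, ?_⟩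
  · intro m hm
    have h3 : ∀ u a, (E.symm.toMonoidHom.comp X) u = a ↔ X u = (a : A ⧸ B M) := by
      intro u a
      rw [MonoidHom.comp_apply, ← hE]
      exact E.symm_apply_eq
    ext a
    rw [Subgroup.mem_map]
    simp_rw [h3]
    rcases le_or_gt m M with hmM | hmM
    · have h4 := hX m hm hmM
      constructor
      · rintro ⟨u, hu, hu2⟩
        have h5 : (a : A ⧸ B M) ∈ (Gf m).map X := ⟨u, hu, hu2⟩
        rw [h4] at h5
        obtain ⟨b, hb, hb2⟩ := h5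
        rwa [← hinj hb2]
      · intro ha
        have h5 : (a : A ⧸ B M) ∈ (B m).map (QuotientGroup.mk' (B M)) :=
          Subgroup.mem_map_of_mem (QuotientGroup.mk' (B M)) ha
        rw [← h4] at h5
        exact h5
    · constructor
      · rintro ⟨u, hu, hu2⟩
        have h5 : X u ∈ (Gf M).map X := Subgroup.mem_map_of_mem _ (anti_of Ganti hM hmM.le hu)
        rw [hX M hM le_rfl, hu2] at h5
        obtain ⟨b, hb, hb2⟩ := h5
        have h6 := hinj hb2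
        rw [Btop M le_rfl] at hb
        rw [Btop m hmM.le, ← h6]
        exact hb
      · intro ha
        rw [Btop m hmM.le, Subgroup.mem_bot] at ha
        exact ⟨1, Subgroup.one_mem _, by rw [map_one, ha]; rfl⟩
  · rw [MonoidHom.comp_apply]
    exact E.symm_apply_eq.2 hXs

end Filt

end HypQ
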