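import Mathlib

/-!
# A retraction with prescribed image on an infinite-dimensional subspace

Linear algebra and the extension step for the filtered homomorphisms of module FILT.
-/

set_option autoImplicit false

namespace HypQ

namespace Filt

/-- A retraction of `ι` that is onto on a subspace which is infinite-dimensional modulo `ι`. -/
theorem exists_retraction {F V E : Type*} [Field F] [AddCommGroup V] [Module F V]
    [AddCommGroup E] [Module F E] [FiniteDimensional F E] (ι : E →ₗ[F] V)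
    (hι : Function.Injective ι) (W : Submodule F V)
    (hW : ¬ FiniteDimensional F (W.map (LinearMap.range ι).mkQ)) :
    ∃ r : V →ₗ[F] E, (∀ b, r (ι b) = b) ∧ ∀ b, ∃ w ∈ W, r w = b := by
  classical
  obtain ⟨r₀, hr₀⟩ := LinearMap.exists_leftInverse_of_injective ι (LinearMap.ker_eq_bot.2 hι)
  set W' := W.map (LinearMap.range ι).mkQ with hW'
  let b := Module.finBasis F E
  set d := Module.finrank F E with hd
  -- a linearly independent family of size `d` in `W'`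
  have h1 : ∃ f : Fin d → W', LinearIndependent F f := by
    have hrank : (d : Cardinal) ≤ Module.rank F W' := by
      by_contra h
      rw [not_le] at h
      exact hW (Module.rank_lt_aleph0_iff.1 (h.trans (Cardinal.natCast_lt_aleph0)))
    obtain ⟨s, hs⟩ := le_rank_iff_exists_linearIndependent_finset.1 hrank
    obtain ⟨hs1, hs2⟩ := hs
    let e : Fin d ≃ s := (s.equivFinOfCardEq hs1).symm
    exact ⟨fun i => (e i : W'), hs2.comp e e.injective⟩
  obtain ⟨f, hf⟩ := h1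
  have hf' : LinearIndependent F (fun i => (f i : V ⧸ LinearMap.range ι)) :=
    hf.map' W'.subtype (Submodule.ker_subtype _)
  have h2 : ∀ i, ∃ w ∈ W, (LinearMap.range ι).mkQ w = f i := fun i =>
    by exact Submodule.mem_map.1 (f i).2
  choose w hwW hw using h2
  -- the correction
  let bs := Module.Basis.span hf'
  let t₀ : Submodule.span F (Set.range fun i => (f i : V ⧸ LinearMap.range ι)) →ₗ[F] E :=
    bs.constr F (fun i => b i - r₀ (w i))
  obtain ⟨t, ht⟩ := LinearMap.exists_extend t₀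
  have ht' : ∀ i, t (f i : V ⧸ LinearMap.range ι) = b i - r₀ (w i) := by
    intro i
    have h3 : (f i : V ⧸ LinearMap.range ι) = ((bs i :
        Submodule.span F (Set.range fun i => (f i : V ⧸ LinearMap.range ι))) :
          V ⧸ LinearMap.range ι) := by
      rw [Module.Basis.span_apply]
    have h4 := LinearMap.congr_fun ht (bs i)
    rw [LinearMap.comp_apply, Submodule.subtype_apply] at h4
    rw [h3, h4]
    exact Module.Basis.constr_basis _ _ _ _
  refine ⟨r₀ + t ∘ₗ (LinearMap.range ι).mkQ, ?_, ?_⟩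
  · intro x
    have h5 : (LinearMap.range ι).mkQ (ι x) = 0 := by
      rw [Submodule.mkQ_apply, Submodule.Quotient.mk_eq_zero]
      exact ⟨x, rfl⟩
    rw [LinearMap.add_apply, LinearMap.comp_apply, h5, map_zero, add_zero]
    exact LinearMap.congr_fun hr₀ x
  · have h6 : ∀ i, (r₀ + t ∘ₗ (LinearMap.range ι).mkQ) (w i) = b i := by
      intro i
      rw [LinearMap.add_apply, LinearMap.comp_apply, hw, ht']
      abel
    intro x
    refine ⟨∑ i, b.repr x i • w i, Submodule.sum_mem _ fun i _ => Submodule.smul_mem _ _ (hwW i),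
      ?_⟩
    rw [map_sum]
    simp_rw [map_smul, h6]
    exact b.sum_repr x

theorem add_retract {V E : Type*} [AddCommGroup V] [AddCommGroup E] [Finite E] {p : ℕ}
    (hp : p.Prime) (hV : ∀ x : V, p • x = 0) (hE : ∀ x : E, p • x = 0) (i : E →+ V)
    (hi : Function.Injective i) : ∃ r : V →+ E, ∀ b, r (i b) = b := by
  have : Fact p.Prime := ⟨hp⟩
  let _ : Module (ZMod p) V := AddCommGroup.zmodModule hV
  let _ : Module (ZMod p) E := AddCommGroup.zmodModule hE
  let ι : E →ₗ[ZMod p] V := i.toZModLinearMap p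
  obtain ⟨r, hr⟩ := LinearMap.exists_leftInverse_of_injective ι (LinearMap.ker_eq_bot.2 hi)
  exact ⟨r.toAddMonoidHom, fun b => LinearMap.congr_fun hr b⟩

theorem lin_retract_onto {F V E : Type*} [Field F] [Finite F] [AddCommGroup V] [Module F V]
    [AddCommGroup E] [Module F E] [FiniteDimensional F E] (ι : E →ₗ[F] V)
    (hι : Function.Injective ι) (W : Submodule F V) (g : ℕ → V) (hgW : ∀ k, g k ∈ W)
    (hg : ∀ k l, k ≠ l → g k - g l ∉ LinearMap.range ι) :
    ∃ r : V →ₗ[F] E, (∀ b, r (ι b) = b) ∧ ∀ b, ∃ w ∈ W, r w = b := by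
  apply exists_retraction ι hι W
  intro hfin
  have : Finite (W.map (LinearMap.range ι).mkQ) := Module.finite_of_finite F
  have hmem : ∀ k, (LinearMap.range ι).mkQ (g k) ∈ W.map (LinearMap.range ι).mkQ :=
    fun k => Submodule.mem_map_of_mem (hgW k)
  refine not_injective_infinite_finite (fun k : ℕ => (⟨_, hmem k⟩ :
    W.map (LinearMap.range ι).mkQ)) ?_
  intro k l hkl
  by_contra hne
  have h3 := congrArg Subtype.val hkl
  simp only [Submodule.mkQ_apply] at h3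
  rw [Submodule.Quotient.eq] at h3
  exact hg k l hne h3

theorem zmod_retract_onto {V E : Type*} {p : ℕ} [Fact p.Prime] [AddCommGroup V]
    [Module (ZMod p) V] [AddCommGroup E] [Module (ZMod p) E] [Finite E] (i : E →+ V)
    (hi : Function.Injective i) (W₀ : AddSubgroup V) (g : ℕ → V) (hgW : ∀ k, g k ∈ W₀)
    (hg : ∀ k l, k ≠ l → g k - g l ∉ i.range) :
    ∃ r : V →+ E, (∀ b, r (i b) = b) ∧ ∀ b, ∃ w ∈ W₀, r w = b := by
  have : FiniteDimensional (ZMod p) E := Module.Finite.of_finite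
  let ι : E →ₗ[ZMod p] V := i.toZModLinearMap p
  let W : Submodule (ZMod p) V := AddSubgroup.toZModSubmodule p W₀
  obtain ⟨r, hr1, hr2⟩ := lin_retract_onto ι hi W g hgW hg
  exact ⟨r.toAddMonoidHom, hr1, hr2⟩

theorem add_retract_onto {V E : Type*} [AddCommGroup V] [AddCommGroup E] [Finite E] {p : ℕ}
    (hp : p.Prime) (hV : ∀ x : V, p • x = 0) (hE : ∀ x : E, p • x = 0) (i : E →+ V)
    (hi : Function.Injective i) (W₀ : AddSubgroup V) (g : ℕ → V) (hgW : ∀ k, g k ∈ W₀)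
    (hg : ∀ k l, k ≠ l → g k - g l ∉ i.range) :
    ∃ r : V →+ E, (∀ b, r (i b) = b) ∧ ∀ b, ∃ w ∈ W₀, r w = b := by
  have : Fact p.Prime := ⟨hp⟩
  exact @zmod_retract_onto V E p _ _ (AddCommGroup.zmodModule hV) _
    (AddCommGroup.zmodModule hE) _ i hi W₀ g hgW hg

theorem mul_retract {V E : Type*} [CommGroup V] [CommGroup E] [Finite E] {p : ℕ}
    (hp : p.Prime) (hV : ∀ x : V, x ^ p = 1) (hE : ∀ x : E, x ^ p = 1) (i : E →* V)
    (hi : Function.Injective i) : ∃ r : V →* E, ∀ b, r (i b) = b := by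
  obtain ⟨r, hr⟩ := add_retract (V := Additive V) (E := Additive E) hp hV hE
    (MonoidHom.toAdditive i) hi
  exact ⟨MonoidHom.toAdditive.symm r, hr⟩

theorem mul_retract_onto {V E : Type*} [CommGroup V] [CommGroup E] [Finite E] {p : ℕ}
    (hp : p.Prime) (hV : ∀ x : V, x ^ p = 1) (hE : ∀ x : E, x ^ p = 1) (i : E →* V)
    (hi : Function.Injective i) (W₀ : Subgroup V) (g : ℕ → V) (hgW : ∀ k, g k ∈ W₀)
    (hg : ∀ k l, k ≠ l → g k / g l ∉ i.range) :
    ∃ r : V →* E, (∀ b, r (i b) = b) ∧ ∀ b, ∃ w ∈ W₀, r w = b := by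
  obtain ⟨r, hr, hr2⟩ := add_retract_onto (V := Additive V) (E := Additive E) hp hV hE
    (MonoidHom.toAdditive i) hi (Subgroup.toAddSubgroup W₀) g hgW hg
  exact ⟨MonoidHom.toAdditive.symm r, hr, hr2⟩

/-- The extension step: a homomorphism `X : G → Q'` lifts through `q : Q → Q'` to a homomorphism
`Y` that is trivial on `N`, sends `s` to `ε` and has `Y L ⊇ ker q`. -/
theorem step {G Q Q' : Type*} [CommGroup G] [CommGroup Q] [CommGroup Q'] {p : ℕ}
    (hp : p.Prime) (q : Q →* Q') (hq : Function.Surjective q) [Finite q.ker]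
    (hEp : ∀ b ∈ q.ker, b ^ p = 1) (X : G →* Q') (L N : Subgroup G)
    (hN : ∀ w ∈ N, X w = 1) (hL : ∀ w ∈ L, X w = 1) (s : G) (ε : Q) (hsε : X s = q ε)
    (h1 : ∀ (u : G) (a : Q) (w : G) (δ : ℕ), X u = q a → w ∈ N → u ^ p * w * s ^ δ = 1 →
      a ^ p * ε ^ δ = 1)
    (h2 : (∃ g : ℕ → G, (∀ k, g k ∈ L) ∧ ∀ k l, k ≠ l → ∀ (v : G) (δ : ℕ), ∀ w ∈ N,
        g k * (g l)⁻¹ ≠ v ^ p * w * s ^ δ) ∨
      (∀ b ∈ q.ker, ∃ (u : G) (a : Q), X u = q a ∧ u ^ p ∈ L ∧ a ^ p = b)) :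
    ∃ Y : G →* Q, (∀ u, q (Y u) = X u) ∧ (∀ w ∈ N, Y w = 1) ∧ Y s = ε ∧
      ∀ b ∈ q.ker, ∃ u ∈ L, Y u = b := by
  classical
  -- the pullback
  let P : Subgroup (G × Q) :=
    { carrier := {x | X x.1 = q x.2}
      mul_mem' := by
        intro x y hx hy
        simp only [Set.mem_ofPred_eq] at hx hy ⊢
        rw [Prod.fst_mul, Prod.snd_mul, map_mul, map_mul, hx, hy]
      one_mem' := by simp
      inv_mem' := by
        intro x hx
        simp only [Set.mem_ofPred_eq] at hx ⊢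
        rw [Prod.fst_inv, Prod.snd_inv, map_inv, map_inv, hx] }
  have hPmem : ∀ x : G × Q, x ∈ P ↔ X x.1 = q x.2 := fun x => Iff.rfl
  -- the relations
  let R : Subgroup P :=
    { carrier := {x | ∃ (u : G) (a : Q) (w : G) (δ : ℕ), X u = q a ∧ w ∈ N ∧
        (x : G × Q).1 = u ^ p * w * s ^ δ ∧ (x : G × Q).2 = a ^ p * ε ^ δ}
      mul_mem' := by
        rintro x y ⟨u, a, w, δ, h3, h4, h5, h6⟩ ⟨u', a', w', δ', h3', h4', h5', h6'⟩
        refine ⟨u * u', a * a', w * w', δ + δ', by rw [map_mul, map_mul, h3, h3'],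
          N.mul_mem h4 h4', ?_, ?_⟩
        · rw [Subgroup.coe_mul, Prod.fst_mul, h5, h5', mul_pow, pow_add]
          exact by
            rw [mul_mul_mul_comm, mul_mul_mul_comm (u ^ p)]
        · rw [Subgroup.coe_mul, Prod.snd_mul, h6, h6', mul_pow, pow_add, mul_mul_mul_comm]
      one_mem' := ⟨1, 1, 1, 0, by simp, N.one_mem, by simp, by simp⟩
      inv_mem' := by
        rintro x ⟨u, a, w, δ, h3, h4, h5, h6⟩
        have hp1 : p ≠ 0 := hp.ne_zero
        obtain ⟨m, hm⟩ : ∃ m, p = m + 1 := ⟨p - 1, by omega⟩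
        refine ⟨u⁻¹ * (s⁻¹) ^ δ, a⁻¹ * (ε⁻¹) ^ δ, w⁻¹, m * δ, ?_, N.inv_mem h4, ?_, ?_⟩
        · rw [map_mul, map_mul, map_inv, map_pow, map_inv, map_inv, map_pow, map_inv, h3, hsε]
        · rw [Subgroup.coe_inv, Prod.fst_inv, h5, hm]
          have : (u⁻¹ * s⁻¹ ^ δ) ^ (m + 1) * w⁻¹ * s ^ (m * δ)
              = (u ^ (m + 1) * w * s ^ δ)⁻¹ := by
            have e1 : (s⁻¹ ^ δ) ^ (m + 1) = (s ^ (m * δ))⁻¹ * (s ^ δ)⁻¹ := by
              rw [← pow_mul, inv_pow, Nat.mul_add, mul_one, pow_add, mul_inv, mul_comm δ m]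
            rw [mul_pow, e1, mul_inv, mul_inv, inv_pow]
            have : (u ^ (m + 1))⁻¹ * ((s ^ (m * δ))⁻¹ * (s ^ δ)⁻¹) * w⁻¹ * s ^ (m * δ)
              = (u ^ (m + 1))⁻¹ * w⁻¹ * (s ^ δ)⁻¹ * ((s ^ (m * δ))⁻¹ * s ^ (m * δ)) := by
              ac_rfl
            rw [this, inv_mul_cancel, mul_one]
          exact this.symm
        · rw [Subgroup.coe_inv, Prod.snd_inv, h6, hm]
          have e1 : (ε⁻¹ ^ δ) ^ (m + 1) = (ε ^ (m * δ))⁻¹ * (ε ^ δ)⁻¹ := by
            rw [← pow_mul, inv_pow, Nat.mul_add, mul_one, pow_add, mul_inv, mul_comm δ m]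
          rw [mul_pow, e1, mul_inv, inv_pow]
          have : (a ^ (m + 1))⁻¹ * ((ε ^ (m * δ))⁻¹ * (ε ^ δ)⁻¹) * ε ^ (m * δ)
            = (a ^ (m + 1))⁻¹ * (ε ^ δ)⁻¹ * ((ε ^ (m * δ))⁻¹ * ε ^ (m * δ)) := by
            ac_rfl
          rw [this, inv_mul_cancel, mul_one] }
  have hR : ∀ x : P, x ∈ R ↔ ∃ (u : G) (a : Q) (w : G) (δ : ℕ), X u = q a ∧ w ∈ N ∧
        (x : G × Q).1 = u ^ p * w * s ^ δ ∧ (x : G × Q).2 = a ^ p * ε ^ δ := fun x => Iff.rfl
  -- the embeddings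
  let iP : q.ker →* P :=
    { toFun := fun b => ⟨(1, (b : Q)), by
        rw [hPmem]
        have := b.2
        rw [MonoidHom.mem_ker] at this
        simp [this]⟩
      map_one' := by ext <;> simp
      map_mul' := by intro x y; ext <;> simp }
  have hiP1 : ∀ b, (iP b : G × Q).1 = 1 := fun b => rfl
  have hiP2 : ∀ b, (iP b : G × Q).2 = b := fun b => rfl
  let iL : L →* P :=
    { toFun := fun u => ⟨((u : G), 1), by
        rw [hPmem]
        simp [hL u u.2]⟩
      map_one' := by ext <;> simp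
      map_mul' := by intro x y; ext <;> simp }
  have hiL1 : ∀ b, (iL b : G × Q).1 = b := fun b => rfl
  have hiL2 : ∀ b, (iL b : G × Q).2 = 1 := fun b => rfl
  -- exponent `p`
  have hV : ∀ x : P ⧸ R, x ^ p = 1 := by
    intro x
    obtain ⟨y, rfl⟩ := QuotientGroup.mk_surjective x
    rw [← QuotientGroup.mk_pow, QuotientGroup.eq_one_iff, hR]
    refine ⟨(y : G × Q).1, (y : G × Q).2, 1, 0, y.2, N.one_mem, ?_, ?_⟩ <;> simp
  have hVE : ∀ x : q.ker, x ^ p = 1 := by
    intro x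
    ext
    rw [Subgroup.coe_pow, hEp _ x.2, Subgroup.coe_one]
  let iE : q.ker →* P ⧸ R := (QuotientGroup.mk' R).comp iP
  have hιdef : ∀ b : q.ker, iE b = ((iP b : P) : P ⧸ R) := fun b => rfl
  have hιinj : Function.Injective iE := by
    rw [injective_iff_map_eq_one]
    intro b hb
    rw [hιdef, QuotientGroup.eq_one_iff, hR] at hb
    obtain ⟨u, a, w, δ, h3, h4, h5, h6⟩ := hb
    have h7 := h1 u a w δ h3 h4 (by rw [← h5, hiP1])
    ext
    rw [← hiP2, h6, h7, Subgroup.coe_one]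
  -- the retraction
  have key : ∃ ρ : P →* q.ker, (∀ x ∈ R, ρ x = 1) ∧ (∀ b, ρ (iP b) = b) ∧
      ((∃ g : ℕ → G, (∀ k, g k ∈ L) ∧ ∀ k l, k ≠ l → ∀ (v : G) (δ : ℕ), ∀ w ∈ N,
        g k * (g l)⁻¹ ≠ v ^ p * w * s ^ δ) → ∀ b, ∃ u : L, ρ (iL u) = b) := by
    have conv : ∀ r : P ⧸ R →* q.ker, (∀ b, r (iE b) = b) →
        ∃ ρ : P →* q.ker, (∀ x ∈ R, ρ x = 1) ∧ (∀ b, ρ (iP b) = b) ∧
          ∀ x : P, ρ x = r ((x : P) : P ⧸ R) := by
      intro r hr
      refine ⟨r.comp (QuotientGroup.mk' R), ?_, ?_, fun x => rfl⟩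
      · intro x hx
        have h3 : ((x : P) : P ⧸ R) = 1 := (QuotientGroup.eq_one_iff x).2 hx
        rw [MonoidHom.comp_apply, QuotientGroup.mk'_apply, h3, map_one]
      · intro b
        rw [MonoidHom.comp_apply, QuotientGroup.mk'_apply, ← hιdef, hr]
    by_cases hg : (∃ g : ℕ → G, (∀ k, g k ∈ L) ∧ ∀ k l, k ≠ l → ∀ (v : G) (δ : ℕ), ∀ w ∈ N,
        g k * (g l)⁻¹ ≠ v ^ p * w * s ^ δ)
    · obtain ⟨g, hgL, hg⟩ := hg
      have hW : ∀ k l, k ≠ l → ((iL ⟨g k, hgL k⟩ : P) : P ⧸ R) / ((iL ⟨g l, hgL l⟩ : P) : P ⧸ R)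
          ∉ iE.range := by
        rintro k l hne ⟨b, hb⟩
        rw [hιdef, ← QuotientGroup.mk_div, QuotientGroup.eq, hR] at hb
        obtain ⟨u, a, w, δ, -, h4, h5, -⟩ := hb
        apply hg k l hne u δ w h4
        rw [← h5]
        simp [hiP1, hiL1, div_eq_mul_inv]
      obtain ⟨r, hr1, hr2⟩ := mul_retract_onto hp hV hVE iE hιinj
        ((QuotientGroup.mk' R).comp iL).range (fun k => ((iL ⟨g k, hgL k⟩ : P) : P ⧸ R))
        (fun k => ⟨_, rfl⟩) hW
      obtain ⟨ρ, h3, h4, h5⟩ := conv r hr1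
      refine ⟨ρ, h3, h4, fun _ b => ?_⟩
      obtain ⟨w, ⟨u, rfl⟩, hwb⟩ := hr2 b
      refine ⟨u, ?_⟩
      rw [h5, ← hwb]
      rfl
    · obtain ⟨r, hr⟩ := mul_retract hp hV hVE iE hιinj
      obtain ⟨ρ, h3, h4, -⟩ := conv r hr
      exact ⟨ρ, h3, h4, fun h => absurd h hg⟩
  obtain ⟨ρ, hρR, hρE, hρL⟩ := key
  -- the lift
  let σ : P →* Q :=
    { toFun := fun x => (x : G × Q).2 * ((ρ x : q.ker) : Q)⁻¹
      map_one' := by simp
      map_mul' := by
        intro x y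
        rw [Subgroup.coe_mul, Prod.snd_mul, map_mul, Subgroup.coe_mul, mul_inv, mul_mul_mul_comm] }
  have hσ : ∀ x, σ x = (x : G × Q).2 * ((ρ x : q.ker) : Q)⁻¹ := fun x => rfl
  let sec : G → P := fun u => ⟨(u, Function.surjInv hq (X u)), by
    rw [hPmem]
    exact (Function.surjInv_eq hq _).symm⟩
  have hsec1 : ∀ u, (sec u : G × Q).1 = u := fun u => rfl
  have hσE : ∀ b, σ (iP b) = 1 := by
    intro b
    rw [hσ, hρE, hiP2, mul_inv_cancel]
  have hσsec : ∀ x : P, σ (sec (x : G × Q).1) = σ x := by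
    intro x
    have h3 : (x : G × Q).2 * (sec (x : G × Q).1 : G × Q).2⁻¹ ∈ q.ker := by
      rw [MonoidHom.mem_ker, map_mul, map_inv]
      have h4 := (hPmem x).1 x.2
      have h5 := (hPmem (sec (x : G × Q).1)).1 (sec (x : G × Q).1).2
      rw [hsec1] at h5
      rw [← h4, ← h5, mul_inv_cancel]
    have h6 : x = iP ⟨_, h3⟩ * sec (x : G × Q).1 := by
      ext
      · rw [Subgroup.coe_mul, Prod.fst_mul, hiP1, hsec1, one_mul]
      · rw [Subgroup.coe_mul, Prod.snd_mul, hiP2]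
        simp
    conv_rhs => rw [h6]
    rw [map_mul, hσE, one_mul]
  let Y : G →* Q :=
    { toFun := fun u => σ (sec u)
      map_one' := by
        have := hσsec 1
        rw [Subgroup.coe_one, Prod.fst_one] at this
        rw [this, map_one]
      map_mul' := by
        intro u v
        have := hσsec (sec u * sec v)
        rw [Subgroup.coe_mul, Prod.fst_mul, hsec1, hsec1] at this
        rw [this, map_mul] }
  have hY : ∀ x : P, Y (x : G × Q).1 = (x : G × Q).2 * ((ρ x : q.ker) : Q)⁻¹ := fun x => by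
    rw [← hσ, ← hσsec]
    rfl
  refine ⟨Y, ?_, ?_, ?_, ?_⟩
  · intro u
    have h3 := hY (sec u)
    rw [hsec1] at h3
    rw [h3, map_mul, map_inv]
    have h4 := (ρ (sec u)).2
    rw [MonoidHom.mem_ker] at h4
    rw [h4, inv_one, mul_one]
    exact Function.surjInv_eq hq _
  · intro w hw
    have h3 : ((w, 1) : G × Q) ∈ P := by
      rw [hPmem]
      simp [hN w hw]
    have h4 := hY ⟨(w, 1), h3⟩
    have h5 : ρ ⟨(w, 1), h3⟩ = 1 := by
      apply hρR
      rw [hR]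
      exact ⟨1, 1, w, 0, by simp, hw, by simp, by simp⟩
    rw [h5] at h4
    simpa using h4
  · have h3 : ((s, ε) : G × Q) ∈ P := by
      rw [hPmem]
      exact hsε
    have h4 := hY ⟨(s, ε), h3⟩
    have h5 : ρ ⟨(s, ε), h3⟩ = 1 := by
      apply hρR
      rw [hR]
      exact ⟨1, 1, 1, 1, by simp, N.one_mem, by simp, by simp⟩
    rw [h5] at h4
    simpa using h4
  · intro b hb
    rcases h2 with h2 | h2
    · obtain ⟨u, hu⟩ := hρL h2 ⟨b⁻¹, q.ker.inv_mem hb⟩
      refine ⟨u, u.2, ?_⟩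
      have h4 := hY (iL u)
      rw [hu, hiL1, hiL2] at h4
      simpa using h4
    · obtain ⟨u, a, h3, h4, h5⟩ := h2 b hb
      refine ⟨u ^ p, h4, ?_⟩
      have h6 : ρ (iL ⟨u ^ p, h4⟩ * iP ⟨b, hb⟩) = 1 := by
        apply hρR
        rw [hR]
        refine ⟨u, a, 1, 0, h3, N.one_mem, ?_, ?_⟩
        · rw [Subgroup.coe_mul, Prod.fst_mul, hiL1, hiP1]
          simp
        · rw [Subgroup.coe_mul, Prod.snd_mul, hiL2, hiP2]
          simp [h5]
      rw [map_mul, hρE] at h6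
      have h7 := hY (iL ⟨u ^ p, h4⟩)
      rw [hiL1, hiL2, one_mul] at h7
      rw [h7, mul_eq_one_iff_eq_inv.1 h6]
      simp

end Filt

end HypQ
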