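import Pool.Agent.Lib.MP_9f0b3e_al.Pair

/-!
# The tame extension of a character of a domain `P` to `P[T]`
-/

set_option autoImplicit false

namespace HypQ

open Polynomial

section tameChar

variable {P A : Type*} [CommRing P] [IsDomain P] [CommGroup A]

/-- The character `f ↦ ψ (lowest coefficient of f) * g ^ (lowest degree of f)` of `P[T]`. -/
noncomputable def tameChar (ψ : P →*₀ WithZero A) (g : A) : P[X] →*₀ WithZero A where
  toFun f := ψ f.trailingCoeff * ((g ^ f.natTrailingDegree : A) : WithZero A)
  map_zero' := by simp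
  map_one' := by simp [trailingCoeff]
  map_mul' := by
    intro f h
    by_cases hf : f = 0
    · simp [hf]
    by_cases hh : h = 0
    · simp [hh]
    rw [trailingCoeff_mul, natTrailingDegree_mul hf hh, map_mul, pow_add, WithZero.coe_mul]
    ac_rfl

theorem tameChar_apply (ψ : P →*₀ WithZero A) (g : A) (f : P[X]) :
    tameChar ψ g f = ψ f.trailingCoeff * ((g ^ f.natTrailingDegree : A) : WithZero A) := rfl

theorem tameChar_C (ψ : P →*₀ WithZero A) (g : A) (a : P) : tameChar ψ g (C a) = ψ a := by
  rw [tameChar_apply]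
  simp [trailingCoeff]

theorem tameChar_X (ψ : P →*₀ WithZero A) (g : A) : tameChar ψ g X = (g : WithZero A) := by
  rw [tameChar_apply]
  simp [trailingCoeff, natTrailingDegree_X]

theorem tameChar_NV (ψ : P →*₀ WithZero A) (g : A) (h : NV ψ) : NV (tameChar ψ g) := by
  intro f hf
  rw [tameChar_apply]
  exact mul_ne_zero (h _ (trailingCoeff_nonzero_iff_nonzero.mpr hf)) WithZero.coe_ne_zero

/-- If the constant coefficient is nonzero it determines the value. -/
theorem tameChar_of_coeff_zero (ψ : P →*₀ WithZero A) (g : A) (f : P[X]) (h : f.coeff 0 ≠ 0) :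
    tameChar ψ g f = ψ (f.coeff 0) := by
  have h0 : f.natTrailingDegree = 0 := Nat.le_zero.mp (natTrailingDegree_le_of_ne_zero h)
  rw [tameChar_apply, trailingCoeff, h0]
  simp

omit [IsDomain P] in
/-- The image of a character with values in a finite group. -/
theorem mem_HH_dom [Finite A] (ψ : P →*₀ WithZero A) (y : A) :
    y ∈ HH ψ ↔ ∃ a : P, ψ a = (y : WithZero A) := by
  constructor
  · intro h
    unfold HH at h
    induction h using Subgroup.closure_induction with
    | mem x hx => exact hx
    | one => exact ⟨1, by simp⟩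
    | mul x y _ _ hx hy =>
      obtain ⟨a, ha⟩ := hx
      obtain ⟨b, hb⟩ := hy
      exact ⟨a * b, by rw [map_mul, ha, hb]; norm_cast⟩
    | inv x _ hx =>
      obtain ⟨a, ha⟩ := hx
      have hf : IsOfFinOrder x := isOfFinOrder_of_finite x
      refine ⟨a ^ (orderOf x - 1), ?_⟩
      have h1 : x⁻¹ = x ^ (orderOf x - 1) := by
        have h2 : x ^ (orderOf x - 1) * x = 1 := by
          rw [← pow_succ, Nat.sub_add_cancel hf.orderOf_pos, pow_orderOf_eq_one]
        exact (eq_inv_of_mul_eq_one_left h2).symm
      rw [map_pow, ha, h1]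
      norm_cast
  · rintro ⟨a, ha⟩
    exact Subgroup.subset_closure ⟨a, ha⟩

theorem HH_tameChar [Finite A] (ψ : P →*₀ WithZero A) (g : A) (hψ : NV ψ) :
    HH (tameChar ψ g) = HH ψ ⊔ Subgroup.zpowers g := by
  apply le_antisymm
  · intro y hy
    obtain ⟨f, hf⟩ := (mem_HH_dom _ y).mp hy
    have hf0 : f ≠ 0 := by
      rintro rfl
      rw [map_zero] at hf
      exact WithZero.coe_ne_zero hf.symm
    obtain ⟨x, hx⟩ := WithZero.ne_zero_iff_exists.mp
      (hψ _ (trailingCoeff_nonzero_iff_nonzero.mpr hf0))
    rw [tameChar_apply, ← hx] at hf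
    have hy' : y = x * g ^ f.natTrailingDegree := by
      have : ((x * g ^ f.natTrailingDegree : A) : WithZero A) = y := by
        rw [← hf]; norm_cast
      exact (WithZero.coe_inj.mp this).symm
    rw [hy']
    exact Subgroup.mul_mem_sup ((mem_HH_dom ψ x).mpr ⟨_, hx.symm⟩)
      (Subgroup.pow_mem _ (Subgroup.mem_zpowers g) _)
  · apply sup_le
    · intro y hy
      obtain ⟨a, ha⟩ := (mem_HH_dom _ y).mp hy
      exact (mem_HH_dom _ y).mpr ⟨C a, by rw [tameChar_C, ha]⟩
    · rw [Subgroup.zpowers_le]
      exact (mem_HH_dom _ g).mpr ⟨X, tameChar_X ψ g⟩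

theorem NN_tameChar_subset (ψ : P →*₀ WithZero A) (g : A) (hψ : NV ψ) (ε : A)
    (hε : ψ (-1) = ε) : NN (tameChar ψ g) ⊆ NN ψ ∪ tameSet ε (HH (tameChar ψ g)) := by
  rintro ⟨x, y⟩ ⟨a, b, c, hc, habc, ha, hb⟩
  dsimp only at ha hb
  have hneg : ∀ q : P, ψ (-q) = ε * ψ q := by
    intro q
    rw [← hε, ← map_mul]; simp
  have hN := tameChar_NV ψ g hψ
  have ha0 : a ≠ 0 := by
    rintro rfl
    rw [map_zero] at ha
    exact mul_ne_zero WithZero.coe_ne_zero (hN c hc) ha.symm
  have hb0 : b ≠ 0 := by
    rintro rfl
    rw [map_zero] at hb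
    exact mul_ne_zero WithZero.coe_ne_zero (hN c hc) hb.symm
  -- values are in `A`
  obtain ⟨za, hza⟩ := WithZero.ne_zero_iff_exists.mp (hN a ha0)
  obtain ⟨zb, hzb⟩ := WithZero.ne_zero_iff_exists.mp (hN b hb0)
  obtain ⟨zc, hzc⟩ := WithZero.ne_zero_iff_exists.mp (hN c hc)
  have hxa : za = x * zc := by
    rw [← hza, ← hzc] at ha
    exact_mod_cast ha
  have hyb : zb = y * zc := by
    rw [← hzb, ← hzc] at hb
    exact_mod_cast hb
  have hmem : ∀ (f : P[X]) (z : A), (z : WithZero A) = tameChar ψ g f → z ∈ HH (tameChar ψ g) :=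
    fun f z h => Subgroup.subset_closure ⟨f, h.symm⟩
  have hHa := hmem a za hza
  have hHb := hmem b zb hzb
  have hHc := hmem c zc hzc
  have hxH : x ∈ HH (tameChar ψ g) := by
    have : x = za * zc⁻¹ := by rw [hxa]; group
    rw [this]
    exact mul_mem hHa (inv_mem hHc)
  have hyH : y ∈ HH (tameChar ψ g) := by
    have : y = zb * zc⁻¹ := by rw [hyb]; group
    rw [this]
    exact mul_mem hHb (inv_mem hHc)
  set da := a.natTrailingDegree with hda
  set db := b.natTrailingDegree with hdb
  set dc := c.natTrailingDegree with hdc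
  have hca : a.coeff da ≠ 0 := trailingCoeff_nonzero_iff_nonzero.mpr ha0
  have hcb : b.coeff db ≠ 0 := trailingCoeff_nonzero_iff_nonzero.mpr hb0
  have hcc : c.coeff dc ≠ 0 := trailingCoeff_nonzero_iff_nonzero.mpr hc
  have hcoeff : ∀ i, a.coeff i + b.coeff i = c.coeff i := by
    intro i; rw [← coeff_add, habc]
  have hva : ((za : A) : WithZero A) = ψ (a.coeff da) * ((g ^ da : A) : WithZero A) := hza
  have hvb : ((zb : A) : WithZero A) = ψ (b.coeff db) * ((g ^ db : A) : WithZero A) := hzb
  have hvc : ((zc : A) : WithZero A) = ψ (c.coeff dc) * ((g ^ dc : A) : WithZero A) := hzc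
  have la : ∀ i, i < da → a.coeff i = 0 := fun i h => coeff_eq_zero_of_lt_natTrailingDegree h
  have lb : ∀ i, i < db → b.coeff i = 0 := fun i h => coeff_eq_zero_of_lt_natTrailingDegree h
  have lc : ∀ i, i < dc → c.coeff i = 0 := fun i h => coeff_eq_zero_of_lt_natTrailingDegree h
  rcases lt_trichotomy da db with h | h | h
  · -- `a` and `c` have the same trailing term
    have e1 : a.coeff da = c.coeff da := by rw [← hcoeff, lb da h, add_zero]
    have h1 : dc ≤ da := by
      by_contra hlt
      push Not at hlt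
      exact hca (by rw [e1, lc da hlt])
    have h2 : dc = da := by
      apply le_antisymm h1
      by_contra hlt
      push Not at hlt
      apply hcc
      rw [← hcoeff, la dc hlt, lb dc (hlt.trans h), add_zero]
    have hzz : za = zc := by
      have : (za : WithZero A) = zc := by rw [hva, hvc, h2, e1]
      exact_mod_cast this
    right
    refine ⟨y, hyH, Or.inr (Or.inl ?_)⟩
    have : x = 1 := by
      have h3 : zc = x * zc := by rw [← hxa, hzz]
      exact (mul_eq_right.mp h3.symm)
    rw [this]
  · -- same trailing degree of `a`, `b`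
    by_cases h0 : a.coeff da + b.coeff da = 0
    · right
      have hbz : b.coeff db = - a.coeff da := by
        rw [← h]
        exact (neg_eq_of_add_eq_zero_right h0).symm
      have hzz : zb = ε * za := by
        have : (zb : WithZero A) = ((ε * za : A) : WithZero A) := by
          rw [WithZero.coe_mul, hva, hvb, hbz, hneg, h, mul_assoc]
        exact_mod_cast this
      refine ⟨x, hxH, Or.inr (Or.inr ?_)⟩
      have : y = ε * x := by
        have h3 : y * zc = (ε * x) * zc := by rw [← hyb, hzz, hxa]; group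
        exact mul_right_cancel h3
      rw [this]
    · left
      have h1 : dc ≤ da := by
        by_contra hlt
        push Not at hlt
        exact h0 (by rw [hcoeff, lc da hlt])
      have h2 : dc = da := by
        apply le_antisymm h1
        by_contra hlt
        push Not at hlt
        apply hcc
        rw [← hcoeff, la dc hlt, lb dc (h ▸ hlt), add_zero]
      refine ⟨a.coeff da, b.coeff da, c.coeff da, by rw [← h2]; exact hcc, hcoeff da, ?_, ?_⟩
      · dsimp only
        have h3 : ((za : A) : WithZero A) = (x : WithZero A) * zc := by rw [hxa]; norm_cast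
        rw [hva, hvc, h2, ← mul_assoc] at h3
        exact mul_right_cancel₀ WithZero.coe_ne_zero h3
      · dsimp only
        have h3 : ((zb : A) : WithZero A) = (y : WithZero A) * zc := by rw [hyb]; norm_cast
        rw [hvb, hvc, h2, ← h, ← mul_assoc] at h3
        exact mul_right_cancel₀ WithZero.coe_ne_zero h3
  · -- `b` and `c` have the same trailing term
    have e1 : b.coeff db = c.coeff db := by rw [← hcoeff, la db h, zero_add]
    have h1 : dc ≤ db := by
      by_contra hlt
      push Not at hlt
      exact hcb (by rw [e1, lc db hlt])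
    have h2 : dc = db := by
      apply le_antisymm h1
      by_contra hlt
      push Not at hlt
      apply hcc
      rw [← hcoeff, lb dc hlt, la dc (hlt.trans h), add_zero]
    have hzz : zb = zc := by
      have : (zb : WithZero A) = zc := by rw [hvb, hvc, h2, e1]
      exact_mod_cast this
    right
    refine ⟨x, hxH, Or.inl ?_⟩
    have : y = 1 := by
      have h3 : zc = y * zc := by rw [← hyb, hzz]
      exact (mul_eq_right.mp h3.symm)
    rw [this]

theorem NN_tameChar [Finite A] (ψ : P →*₀ WithZero A) (g : A) (hψ : NV ψ) (ε : A)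
    (hε : ψ (-1) = ε) :
    NN (tameChar ψ g) = NN ψ ∪ tameSet ε (HH ψ ⊔ Subgroup.zpowers g) := by
  apply Set.Subset.antisymm
  · have := NN_tameChar_subset ψ g hψ ε hε
    rwa [HH_tameChar ψ g hψ] at this
  · rintro ⟨x, y⟩ (⟨a, b, c, hc, habc, ha, hb⟩ | ⟨z, hz, h⟩)
    · refine ⟨C a, C b, C c, by simpa using hc, by rw [← C_add, habc], ?_, ?_⟩
      · simpa only [tameChar_C] using ha
      · simpa only [tameChar_C] using hb
    · rw [← HH_tameChar ψ g hψ] at hz
      obtain ⟨f, hf⟩ := (mem_HH_dom _ z).mp hz
      set n := orderOf g with hn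
      have hn0 : 0 < n := (isOfFinOrder_of_finite g).orderOf_pos
      have hX : tameChar ψ g (X ^ n) = 1 := by
        rw [map_pow, tameChar_X]
        have : ((g : WithZero A)) ^ n = ((g ^ n : A) : WithZero A) := by norm_cast
        rw [this, hn, pow_orderOf_eq_one]; rfl
      have hf1 : tameChar ψ g (f * X ^ n) = (z : WithZero A) := by rw [map_mul, hf, hX, mul_one]
      have hc0 : (f * X ^ n).coeff 0 = 0 := by
        rw [mul_coeff_zero, coeff_X_pow, if_neg hn0.ne, mul_zero]
      have hv : ∀ q : P[X], q.coeff 0 = 1 → tameChar ψ g q = 1 := by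
        intro q hq
        rw [tameChar_of_coeff_zero ψ g q (by rw [hq]; exact one_ne_zero), hq, map_one]
      have h1 : tameChar ψ g (1 - f * X ^ n) = 1 := hv _ (by rw [coeff_sub, hc0]; simp)
      rcases h with h | h | h
      · rw [h]
        exact ⟨f * X ^ n, 1 - f * X ^ n, 1, one_ne_zero, by ring, by
          dsimp only; rw [hf1, map_one, mul_one], by dsimp only; rw [h1, map_one, mul_one]; rfl⟩
      · rw [h]
        exact ⟨1 - f * X ^ n, f * X ^ n, 1, one_ne_zero, by ring, by
          dsimp only; rw [h1, map_one, mul_one]; rfl, by dsimp only; rw [hf1, map_one, mul_one]⟩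
      · rw [h]
        have hf0 : f ≠ 0 := by
          rintro rfl
          rw [map_zero] at hf
          exact WithZero.coe_ne_zero hf.symm
        have hd : f.natTrailingDegree < n * (f.natTrailingDegree + 1) :=
          lt_of_lt_of_le (Nat.lt_succ_self _) (Nat.le_mul_of_pos_left _ hn0)
        set d := f.natTrailingDegree with hd'
        set m := n * (d + 1) with hm
        have hXm : tameChar ψ g (X ^ m) = 1 := by rw [hm, pow_mul, map_pow, hX, one_pow]
        have hco : ∀ i, i < m → (X ^ m - f).coeff i = - f.coeff i := by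
          intro i hi
          rw [coeff_sub, coeff_X_pow, if_neg hi.ne, zero_sub]
        have hcd : f.coeff d ≠ 0 := trailingCoeff_nonzero_iff_nonzero.mpr hf0
        have hdeg : (X ^ m - f).natTrailingDegree = d := by
          apply le_antisymm
          · apply natTrailingDegree_le_of_ne_zero
            rw [hco d hd]
            exact neg_ne_zero.mpr hcd
          · by_contra hlt
            push Not at hlt
            have hne : (X ^ m - f) ≠ 0 := by
              intro h0
              have := hco d hd
              rw [h0, coeff_zero] at this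
              exact hcd (neg_eq_zero.mp this.symm)
            have h4 : (X ^ m - f).coeff (X ^ m - f).natTrailingDegree ≠ 0 :=
              trailingCoeff_nonzero_iff_nonzero.mpr hne
            rw [hco _ (hlt.trans hd), coeff_eq_zero_of_lt_natTrailingDegree hlt, neg_zero] at h4
            exact h4 rfl
        have hv2 : tameChar ψ g (X ^ m - f) = ((ε * z : A) : WithZero A) := by
          rw [tameChar_apply, trailingCoeff, hdeg, hco d hd, WithZero.coe_mul, ← hf, tameChar_apply,
            trailingCoeff, ← hd', ← mul_assoc, ← hε, ← map_mul]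
          simp
        have hne : (X ^ m : P[X]) ≠ 0 := pow_ne_zero _ X_ne_zero
        exact ⟨f, X ^ m - f, X ^ m, hne, by ring, by
          dsimp only; rw [hf, hXm, mul_one], by dsimp only; rw [hv2, hXm, mul_one]⟩

end tameChar

/-! ### Prime restrictions -/

/-- The value at `-1`. -/
theorem IsPrimeRes.neg_one {P A : Type*} [CommRing P] [CommGroup A] {c : ℕ} [CharP P c]
    {ψ : P →*₀ WithZero A} {α : (ZMod c)ˣ →* A} (h : IsPrimeRes c ψ α) :
    ψ (-1) = (α (-1) : WithZero A) := by
  have := h (ZMod.castHom (dvd_refl c) P) (-1)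
  rw [← this]
  congr 1
  rw [Units.val_neg, Units.val_one, map_neg, map_one]

/-- Prime restrictions are carried along ring homomorphisms. -/
theorem IsPrimeRes.of_hom {P Q A : Type*} [CommRing P] [CommRing Q] [CommGroup A] {c : ℕ}
    [CharP P c] {ψ : P →*₀ WithZero A} {χ : Q →*₀ WithZero A} {α : (ZMod c)ˣ →* A} (f : P →+* Q)
    (hf : ∀ a, χ (f a) = ψ a) (h : IsPrimeRes c ψ α) : IsPrimeRes c χ α := by
  intro j u
  have hj : j = f.comp (ZMod.castHom (dvd_refl c) P) := RingHom.ext_zmod _ _
  rw [hj, RingHom.comp_apply, hf]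
  exact h _ u

/-- Prime restrictions can be restricted along ring homomorphisms. -/
theorem IsPrimeRes.of_hom' {P Q A : Type*} [CommRing P] [CommRing Q] [CommGroup A] {c : ℕ}
    {ψ : P →*₀ WithZero A} {χ : Q →*₀ WithZero A} {α : (ZMod c)ˣ →* A} (f : P →+* Q)
    (hf : ∀ a, χ (f a) = ψ a) (h : IsPrimeRes c χ α) : IsPrimeRes c ψ α := by
  intro j u
  have := h (f.comp j) u
  rwa [RingHom.comp_apply, hf] at this

section real

variable {A : Type} [CommGroup A]

/-- A domain character realises its data (pass to the fraction field). -/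
theorem real_of_dom {c : ℕ} {P : Type} [CommRing P] [IsDomain P] [CharP P c] [Infinite P]
    (ψ : P →*₀ WithZero A) (hψ : NV ψ) {α : (ZMod c)ˣ →* A} (hα : IsPrimeRes c ψ α) :
    Real c A α (HH ψ) (NN ψ) := by
  obtain ⟨χ, h1, h2, h3⟩ := frac_char ψ hψ
  have hinj : Function.Injective (algebraMap P (FractionRing P)) :=
    IsFractionRing.injective P (FractionRing P)
  exact ⟨FractionRing P, inferInstance, charP_of_injective_ringHom hinj c,
    Infinite.of_injective _ hinj, χ, h2, h3, IsPrimeRes.of_hom _ h1 hα⟩

theorem real_tame [Finite A] {c : ℕ} {α : (ZMod c)ˣ →* A} {H : Subgroup A} {N : Set (A × A)} (g : A)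
    (h : Real c A α H N) : Real c A α (H ⊔ Subgroup.zpowers g)
      (N ∪ tameSet (α (-1)) (H ⊔ Subgroup.zpowers g)) := by
  obtain ⟨K, _, _, _, χ, rfl, rfl, hα⟩ := h
  have hNV : NV χ := fun a ha => char_ne_zero χ ha
  have hε := hα.neg_one
  have h := real_of_dom (tameChar χ g) (tameChar_NV χ g hNV)
    (IsPrimeRes.of_hom C (fun a => tameChar_C χ g a) hα)
  rwa [NN_tameChar χ g hNV (α (-1)) hε, HH_tameChar χ g hNV] at h

theorem real_triv {c : ℕ} (hc : c = 0 ∨ c.Prime) : Real c A 1 ⊥ {(1, 1)} := by
  classical
  have hdom : IsDomain (ZMod c) := by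
    rcases hc with rfl | hc
    · exact inferInstanceAs (IsDomain ℤ)
    · have := Fact.mk hc
      infer_instance
  have : Nontrivial (ZMod c) := hdom.toNontrivial
  let ψ : (ZMod c)[X] →*₀ WithZero A :=
    { toFun := fun a => if a = 0 then 0 else 1
      map_zero' := by simp
      map_one' := by simp
      map_mul' := by
        intro a b
        by_cases ha : a = 0
        · simp [ha]
        by_cases hb : b = 0
        · simp [hb]
        simp [ha, hb] }
  have hval : ∀ a, a ≠ 0 → ψ a = 1 := fun a ha => if_neg ha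
  have hNV : NV ψ := fun a ha => by rw [hval a ha]; exact one_ne_zero
  have hα : IsPrimeRes c ψ (1 : (ZMod c)ˣ →* A) := by
    intro j u
    rw [hval]
    · rfl
    · exact (u.isUnit.map j).ne_zero
  have h := real_of_dom ψ hNV hα
  have hN : NN ψ = {(1, 1)} := by
    apply Set.Subset.antisymm
    · rintro ⟨x, y⟩ ⟨a, b, d, hd, -, h1, h2⟩
      dsimp only at h1 h2
      rw [hval d hd, mul_one] at h1 h2
      have ha : a ≠ 0 := by
        rintro rfl
        rw [map_zero] at h1
        exact WithZero.coe_ne_zero h1.symm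
      have hb : b ≠ 0 := by
        rintro rfl
        rw [map_zero] at h2
        exact WithZero.coe_ne_zero h2.symm
      rw [hval a ha] at h1
      rw [hval b hb] at h2
      have hx : x = 1 := by exact_mod_cast h1.symm
      have hy : y = 1 := by exact_mod_cast h2.symm
      rw [hx, hy]; rfl
    · rintro p hp
      rw [Set.mem_singleton_iff] at hp
      rw [hp]
      have h1 : (X + 1 : (ZMod c)[X]) ≠ 0 := by
        have := Polynomial.X_add_C_ne_zero (1 : ZMod c)
        rwa [C_1] at this
      exact ⟨X, 1, X + 1, h1, rfl, by rw [hval _ X_ne_zero, hval _ h1]; simp,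
        by rw [hval _ one_ne_zero, hval _ h1]; simp⟩
  have hH : HH ψ = ⊥ := by
    rw [eq_bot_iff]
    unfold HH
    rw [Subgroup.closure_le]
    rintro x ⟨a, ha⟩
    have ha0 : a ≠ 0 := by
      rintro rfl
      rw [map_zero] at ha
      exact WithZero.coe_ne_zero ha.symm
    rw [hval a ha0] at ha
    have hx : x = 1 := by exact_mod_cast ha.symm
    rw [hx]; exact Subgroup.one_mem _
  rwa [hN, hH] at h

theorem real_sign (α : (ZMod 0)ˣ →* A) :
    Real 0 A α (Subgroup.zpowers (α (-1))) {(1, 1), (1, α (-1)), (α (-1), 1)} := by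
  classical
  set ε := α (-1) with hε
  have hεε : ε * ε = 1 := by
    rw [hε, ← map_mul, neg_mul_neg, one_mul, map_one]
  have hεε' : (ε : WithZero A) * ε = 1 := by exact_mod_cast hεε
  let χ : ℚ →*₀ WithZero A :=
    { toFun := fun a => if a = 0 then 0 else if 0 < a then 1 else (ε : WithZero A)
      map_zero' := by simp
      map_one' := by simp
      map_mul' := by
        intro a b
        rcases lt_trichotomy a 0 with ha | ha | ha
        · rcases lt_trichotomy b 0 with hb | hb | hb
          · rw [if_neg ha.ne, if_neg hb.ne, if_neg (mul_pos_of_neg_of_neg ha hb).ne',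
              if_pos (mul_pos_of_neg_of_neg ha hb), if_neg (not_lt.mpr ha.le),
              if_neg (not_lt.mpr hb.le), hεε']
          · simp [hb]
          · rw [if_neg ha.ne, if_neg hb.ne', if_neg (mul_neg_of_neg_of_pos ha hb).ne,
              if_neg (not_lt.mpr (mul_neg_of_neg_of_pos ha hb).le), if_neg (not_lt.mpr ha.le),
              if_pos hb, mul_one]
        · simp [ha]
        · rcases lt_trichotomy b 0 with hb | hb | hb
          · rw [if_neg ha.ne', if_neg hb.ne, if_neg (mul_neg_of_pos_of_neg ha hb).ne,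
              if_neg (not_lt.mpr (mul_neg_of_pos_of_neg ha hb).le), if_pos ha,
              if_neg (not_lt.mpr hb.le), one_mul]
          · simp [hb]
          · rw [if_neg ha.ne', if_neg hb.ne', if_neg (mul_pos ha hb).ne', if_pos (mul_pos ha hb),
              if_pos ha, if_pos hb, one_mul] }
  have hpos : ∀ a, 0 < a → χ a = 1 := fun a ha => by
    change (if a = 0 then 0 else if 0 < a then 1 else (ε : WithZero A)) = 1
    rw [if_neg ha.ne', if_pos ha]
  have hneg : ∀ a, a < 0 → χ a = (ε : WithZero A) := fun a ha => by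
    change (if a = 0 then 0 else if 0 < a then 1 else (ε : WithZero A)) = _
    rw [if_neg ha.ne, if_neg (not_lt.mpr ha.le)]
  have hcase : ∀ (a : ℚ) (x : A), χ a = x → (0 < a ∧ x = 1) ∨ (a < 0 ∧ x = ε) := by
    intro a x h
    rcases lt_trichotomy a 0 with ha | ha | ha
    · right
      rw [hneg a ha] at h
      exact ⟨ha, by exact_mod_cast h.symm⟩
    · exact absurd ha (ne_zero_of_coe χ h)
    · left
      rw [hpos a ha] at h
      exact ⟨ha, by exact_mod_cast h.symm⟩
  have hchar : CharP ℚ 0 := CharP.ofCharZero ℚ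
  refine ⟨ℚ, inferInstance, hchar, inferInstance, χ, ?_, ?_, ?_⟩
  · apply Set.Subset.antisymm
    · rintro ⟨x, y⟩ h
      obtain ⟨a, b, hab, ha, hb⟩ := (mem_NN_field χ x y).mp h
      rcases hcase a x ha with ⟨ha', rfl⟩ | ⟨ha', rfl⟩
      · rcases hcase b y hb with ⟨hb', rfl⟩ | ⟨hb', rfl⟩
        · exact Or.inl rfl
        · exact Or.inr (Or.inl rfl)
      · rcases hcase b y hb with ⟨hb', rfl⟩ | ⟨hb', rfl⟩
        · exact Or.inr (Or.inr rfl)
        · linarith
    · rintro p (rfl | rfl | rfl)
      · exact (mem_NN_field χ 1 1).mpr ⟨1 / 2, 1 / 2, by norm_num, hpos _ (by norm_num),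
          hpos _ (by norm_num)⟩
      · exact (mem_NN_field χ 1 ε).mpr ⟨2, -1, by norm_num, hpos _ (by norm_num),
          hneg _ (by norm_num)⟩
      · exact (mem_NN_field χ ε 1).mpr ⟨-1, 2, by norm_num, hneg _ (by norm_num),
          hpos _ (by norm_num)⟩
  · apply le_antisymm
    · unfold HH
      rw [Subgroup.closure_le]
      rintro x ⟨a, ha⟩
      rcases hcase a x ha with ⟨-, rfl⟩ | ⟨-, rfl⟩
      · exact Subgroup.one_mem _
      · exact Subgroup.mem_zpowers _
    · rw [Subgroup.zpowers_le]
      exact (mem_HH_field χ ε).mpr ⟨-1, hneg _ (by norm_num)⟩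
  · intro j u
    have hu : u = 1 ∨ u = -1 := Int.units_eq_one_or u
    rcases hu with rfl | rfl
    · rw [Units.val_one, map_one, map_one, map_one]; rfl
    · rw [Units.val_neg, Units.val_one, map_neg, map_one, hneg _ (by norm_num)]

end real

end HypQ
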