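import Pool.Agent.Lib.MP_9f0b3e_al.Prod

/-!
# Universality of the rational function fields

Data realised by an infinite field of characteristic `c` are realised by `F_c(x_1, ..., x_n)` for
all large `n`.
-/

set_option autoImplicit false

namespace HypQ

open Pointwise

theorem NN_comp_equiv {P Q A : Type*} [CommRing P] [CommRing Q] [CommGroup A] (e : P ≃+* Q)
    (ψ : Q →*₀ WithZero A) (ψ' : P →*₀ WithZero A) (h : ∀ a, ψ' a = ψ (e a)) : NN ψ' = NN ψ := by
  ext ⟨x, y⟩
  constructor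
  · rintro ⟨a, b, c, hc, habc, hx, hy⟩
    refine ⟨e a, e b, e c, (map_ne_zero_iff e e.injective).2 hc, by rw [← map_add, habc], ?_, ?_⟩
    · rw [← h, ← h]; exact hx
    · rw [← h, ← h]; exact hy
  · rintro ⟨a, b, c, hc, habc, hx, hy⟩
    refine ⟨e.symm a, e.symm b, e.symm c, (map_ne_zero_iff e.symm e.symm.injective).2 hc,
      by rw [← map_add, habc], ?_, ?_⟩
    · rw [h, h, e.apply_symm_apply, e.apply_symm_apply]; exact hx
    · rw [h, h, e.apply_symm_apply, e.apply_symm_apply]; exact hy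

theorem HH_comp_equiv {P Q A : Type*} [CommRing P] [CommRing Q] [CommGroup A] (e : P ≃+* Q)
    (ψ : Q →*₀ WithZero A) (ψ' : P →*₀ WithZero A) (h : ∀ a, ψ' a = ψ (e a)) : HH ψ' = HH ψ := by
  unfold HH
  congr 1
  ext x
  constructor
  · rintro ⟨a, ha⟩
    exact ⟨e a, by rw [← h]; exact ha⟩
  · rintro ⟨a, ha⟩
    exact ⟨e.symm a, by rw [h, e.apply_symm_apply]; exact ha⟩

/-- Characters of `K[x_1, ..., x_n]` over a point `k`. -/
theorem point_char {K A : Type} [Field K] [CommGroup A] (χ : K →*₀ WithZero A) (ε : A)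
    (hε : χ (-1) = (ε : WithZero A)) (ht : tameSet ε (HH χ) ⊆ NN χ) :
    ∀ (n : ℕ) (k : Fin n → K), ∃ ψ : MvPolynomial (Fin n) K →*₀ WithZero A, NV ψ ∧
      (∀ a, MvPolynomial.eval k a ≠ 0 → ψ a = χ (MvPolynomial.eval k a)) ∧
      HH ψ = HH χ ∧ NN ψ = NN χ := by
  intro n
  induction n with
  | zero =>
    intro k
    let e : MvPolynomial (Fin 0) K ≃+* K := MvPolynomial.isEmptyRingEquiv K (Fin 0)
    have he : ∀ a, MvPolynomial.eval k a = e a := by
      intro a
      obtain ⟨r, rfl⟩ := e.symm.surjective a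
      rw [e.apply_symm_apply]
      change MvPolynomial.eval k ((MvPolynomial.isEmptyRingEquiv K (Fin 0)).symm r) = r
      rw [MvPolynomial.isEmptyRingEquiv_symm_apply, MvPolynomial.eval_C]
    let ψ : MvPolynomial (Fin 0) K →*₀ WithZero A := χ.comp (e.toRingHom.toMonoidWithZeroHom)
    have hψ : ∀ a, ψ a = χ (e a) := fun a => rfl
    refine ⟨ψ, ?_, ?_, HH_comp_equiv e χ ψ hψ, NN_comp_equiv e χ ψ hψ⟩
    · intro a ha
      rw [hψ]
      exact char_ne_zero χ ((map_ne_zero_iff e e.injective).2 ha)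
    · intro a _
      rw [hψ, he]
  | succ n ih =>
    intro k
    obtain ⟨ψ, h1, h2, h3, h4⟩ := ih (Fin.tail k)
    let e := MvPolynomial.finSuccEquiv K n
    let f : MvPolynomial (Fin (n + 1)) K →+* MvPolynomial (Fin n) K :=
      (Polynomial.evalRingHom (MvPolynomial.C (k 0))).comp (e : _ →+* _)
    have hfe : ∀ a, f a = (e a).eval (MvPolynomial.C (k 0)) := fun a => rfl
    have hev : ∀ a, MvPolynomial.eval k a = MvPolynomial.eval (Fin.tail k) (f a) := by
      intro a
      have h5 := MvPolynomial.eval_eq_eval_mv_eval' (Fin.tail k) (k 0) a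
      rw [Fin.cons_self_tail] at h5
      have h6 := Polynomial.eval_map_apply (p := e a) (f := MvPolynomial.eval (Fin.tail k))
        (x := MvPolynomial.C (k 0))
      rw [MvPolynomial.eval_C] at h6
      rw [h5, hfe, ← h6]
    have hfs : Function.Surjective f := by
      intro q
      refine ⟨e.symm (Polynomial.C q), ?_⟩
      rw [hfe, e.apply_symm_apply, Polynomial.eval_C]
    let π : MvPolynomial (Fin (n + 1)) K := e.symm (Polynomial.X - Polynomial.C (MvPolynomial.C (k 0)))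
    have heπ : e π = Polynomial.X - Polynomial.C (MvPolynomial.C (k 0)) := e.apply_symm_apply _
    have hπ : π ≠ 0 := by
      intro h0
      rw [h0, map_zero] at heπ
      exact Polynomial.X_sub_C_ne_zero _ heπ.symm
    have hf : ∀ b, f b = 0 ↔ π ∣ b := by
      intro b
      rw [hfe, ← Polynomial.IsRoot.def, ← Polynomial.dvd_iff_isRoot, ← heπ]
      exact map_dvd_iff e
    have hπu : ¬ IsUnit π := by
      intro hu
      have h5 := hu.map f
      rw [(hf π).2 dvd_rfl] at h5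
      exact not_isUnit_zero h5
    have hε' : ψ (-1) = (ε : WithZero A) := by
      rw [h2 (-1) (by simp)]
      simpa using hε
    obtain ⟨ψ', g1, g2, g3, g4, g5⟩ := red_char f hfs π hπ hf (by
      intro a ha
      obtain ⟨m, b, hb, hab⟩ := WfDvdMonoid.max_power_factor' ha hπu
      exact ⟨m, b, fun h0 => hb ((hf b).1 h0), hab⟩) ψ h1 ε hε'
    refine ⟨ψ', g1, ?_, by rw [g3, h3], ?_⟩
    · intro a ha
      rw [hev] at ha
      have hfa : f a ≠ 0 := by
        intro h0
        rw [h0, map_zero] at ha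
        exact ha rfl
      rw [g2 a hfa, h2 _ ha, hev]
    · rw [h4, h3] at g5
      rw [h4] at g4
      exact le_antisymm (g5.trans (Set.union_subset le_rfl ht)) g4

theorem real_univ {A : Type} [CommGroup A] [Finite A] {c : ℕ} (hc : c = 0 ∨ c.Prime)
    {α : (ZMod c)ˣ →* A} {H : Subgroup A} {N : Set (A × A)} (h : Real c A α H N) :
    ∃ n₀ : ℕ, ∀ n ≥ n₀, RealU c n A α H N := by
  classical
  have ht := tame_subset_of_real h
  obtain ⟨K, _, _, _, χ, hN, hH, hα⟩ := h
  have hε := isPrimeRes_neg_one hα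
  rw [← hN, ← hH] at ht
  -- finitely many elements of `K`
  have hfin : N.Finite := Set.toFinite N
  have hch : ∀ p : A × A, ∃ s t : K, p ∈ N → s + t = 1 ∧ χ s = p.1 ∧ χ t = p.2 := by
    intro p
    by_cases hp : p ∈ N
    · rw [← hN] at hp
      obtain ⟨s, t, hst⟩ := (mem_NN_field χ p.1 p.2).mp hp
      exact ⟨s, t, fun _ => hst⟩
    · exact ⟨0, 0, fun h => absurd h hp⟩
  choose s t hst using hch
  have hch2 : ∀ x : A, ∃ r : K, x ∈ H → χ r = x := by
    intro x
    by_cases hx : x ∈ H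
    · rw [← hH] at hx
      obtain ⟨r, hr⟩ := (mem_HH_field χ x).mp hx
      exact ⟨r, fun _ => hr⟩
    · exact ⟨0, fun h => absurd h hx⟩
  choose r hr using hch2
  have := Fintype.ofFinite A
  let S : Finset K := Finset.univ.image s ∪ Finset.univ.image t ∪ Finset.univ.image r
  refine ⟨S.card, fun n hn => ?_⟩
  -- a point whose coordinates contain `S`
  obtain ⟨k, hk⟩ : ∃ k : Fin n → K, ∀ x ∈ S, ∃ i, k i = x := by
    refine ⟨fun i => if h : (i : ℕ) < S.card then (S.equivFin.symm ⟨i, h⟩ : K) else 0, ?_⟩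
    intro x hx
    let i := S.equivFin ⟨x, hx⟩
    refine ⟨⟨i, lt_of_lt_of_le i.2 hn⟩, ?_⟩
    simp [i]
  obtain ⟨ψ, p1, p2, p3, p4⟩ := point_char χ (α (-1)) hε ht n k
  let ι : UP c n →+* MvPolynomial (Fin n) K := MvPolynomial.map (ZMod.castHom (dvd_refl c) K)
  have hι : Function.Injective ι := MvPolynomial.map_injective _ (ZMod.castHom_injective K)
  let ψU : UP c n →*₀ WithZero A := ψ.comp ι.toMonoidWithZeroHom
  have hψU : ∀ a, ψU a = ψ (ι a) := fun a => rfl
  have hNV : NV ψU := fun a ha => by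
    rw [hψU]; exact p1 _ ((map_ne_zero_iff ι hι).2 ha)
  have hX : ∀ i, k i ≠ 0 → ψU (MvPolynomial.X i) = χ (k i) := by
    intro i hi
    have h5 : ι (MvPolynomial.X i) = MvPolynomial.X i := MvPolynomial.map_X _ i
    rw [hψU, h5, p2 _ (by rw [MvPolynomial.eval_X]; exact hi), MvPolynomial.eval_X]
  refine ⟨ψU, hNV, ?_, ?_, ?_⟩
  · apply le_antisymm
    · rintro ⟨x, y⟩ ⟨a, b, d, hd, habd, hx, hy⟩
      rw [← hN, ← p4]
      exact ⟨ι a, ι b, ι d, (map_ne_zero_iff ι hι).2 hd, by rw [← map_add, habd], hx, hy⟩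
    · intro p hp
      obtain ⟨e1, e2, e3⟩ := hst p hp
      obtain ⟨i, hi⟩ := hk (s p) (by simp [S])
      obtain ⟨j, hj⟩ := hk (t p) (by simp [S])
      have hs0 : k i ≠ 0 := by rw [hi]; exact ne_zero_of_coe χ e2
      have ht0 : k j ≠ 0 := by rw [hj]; exact ne_zero_of_coe χ e3
      have h6 : MvPolynomial.eval k (ι (MvPolynomial.X i + MvPolynomial.X j)) = 1 := by
        have h5 : ι (MvPolynomial.X i) = MvPolynomial.X i := MvPolynomial.map_X _ i
        have h5' : ι (MvPolynomial.X j) = MvPolynomial.X j := MvPolynomial.map_X _ j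
        rw [map_add, h5, h5', map_add, MvPolynomial.eval_X, MvPolynomial.eval_X, hi, hj, e1]
      have h7 : ψU (MvPolynomial.X i + MvPolynomial.X j) = 1 := by
        rw [hψU, p2 _ (by rw [h6]; exact one_ne_zero), h6, map_one]
      refine ⟨MvPolynomial.X i, MvPolynomial.X j, _, ?_, rfl, ?_, ?_⟩
      · intro h0
        rw [h0, map_zero, map_zero] at h6
        exact zero_ne_one h6
      · rw [h7, mul_one, hX i hs0, hi, e2]
      · rw [h7, mul_one, hX j ht0, hj, e3]
  · apply le_antisymm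
    · conv_lhs => unfold HH
      rw [Subgroup.closure_le]
      rintro x ⟨a, ha⟩
      rw [← hH, ← p3]
      exact Subgroup.subset_closure ⟨ι a, ha⟩
    · intro x hx
      obtain ⟨i, hi⟩ := hk (r x) (by simp [S])
      have h5 := hr x hx
      refine Subgroup.subset_closure ⟨MvPolynomial.X i, ?_⟩
      rw [hX i (by rw [hi]; exact ne_zero_of_coe χ h5), hi, h5]
  · intro j u
    have h5 : MvPolynomial.eval k (ι (j (u : ZMod c))) ≠ 0 := by
      have : IsUnit (((MvPolynomial.eval k).comp (ι.comp j)) (u : ZMod c)) :=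
        u.isUnit.map ((MvPolynomial.eval k).comp (ι.comp j))
      exact this.ne_zero
    rw [hψU, p2 _ h5]
    exact hα ((MvPolynomial.eval k).comp (ι.comp j)) u

theorem realU_real {A : Type} [CommGroup A] {c : ℕ} (hc : c = 0 ∨ c.Prime)
    {α : (ZMod c)ˣ →* A} {H : Subgroup A} {N : Set (A × A)} {n : ℕ} (hn : 1 ≤ n)
    (h : RealU c n A α H N) : Real c A α H N := by
  have hdom : IsDomain (ZMod c) := by
    rcases hc with rfl | hc
    · exact inferInstanceAs (IsDomain ℤ)
    · have := Fact.mk hc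
      infer_instance
  have : Nonempty (Fin n) := ⟨⟨0, hn⟩⟩
  obtain ⟨ψ, a1, a2, a3, a4⟩ := h
  rw [← a2, ← a3]
  exact real_of_domain ψ a1 α a4

theorem real_prod {A : Type} [CommGroup A] [Finite A] {c : ℕ} (hc : c = 0 ∨ c.Prime)
    {α₁ α₂ : (ZMod c)ˣ →* A} {H₁ H₂ : Subgroup A} {N₁ N₂ : Set (A × A)}
    (h₁ : Real c A α₁ H₁ N₁) (h₂ : Real c A α₂ H₂ N₂) :
    Real c A (α₁ * α₂) (H₁ ⊔ H₂) (N₁ * N₂) := by
  obtain ⟨n₁, hn₁⟩ := real_univ hc h₁
  obtain ⟨n₂, hn₂⟩ := real_univ hc h₂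
  exact real_prod_of_univ hc h₁ h₂
    ⟨max n₁ n₂, hn₁ _ (le_max_left _ _), hn₂ _ (le_max_right _ _)⟩

theorem real_red {A : Type} [CommGroup A] [Finite A] {p : ℕ} (hp : p.Prime)
    {α : (ZMod p)ˣ →* A} {α₀ : (ZMod 0)ˣ →* A} (hα : α₀ (-1) = α (-1)) {H : Subgroup A}
    {N : Set (A × A)} (h : Real p A α H N) : Real 0 A α₀ H N := by
  obtain ⟨n₀, hn⟩ := real_univ (Or.inr hp) h
  exact real_red_of_univ hp hα h ⟨n₀, hn n₀ le_rfl⟩

end HypQ
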