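import Pool.Agent.Lib.MP_9f0b3e_al.Free
import Pool.Agent.Lib.MP_9f0b3e_al.Univ
import Pool.Agent.Lib.MP_9f0b3e_al.Tame1

/-!
# Soundness of the rule lift
-/

set_option autoImplicit false

namespace HypQ

open Pointwise

/-- The data with `S` and all pairs of elements of `S` are realised. -/
theorem real_full {c : ℕ} (hc : c = 0 ∨ c.Prime) {A : Type} [CommGroup A] [Finite A]
    (S : Subgroup A) : Real c A 1 S ((S : Set A) ×ˢ (S : Set A)) := by
  classical
  -- the basic building block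
  have hblock : ∀ t ∈ S, ∃ (H : Subgroup A) (N : Set (A × A)), Real c A 1 H N ∧ H ≤ S ∧
      N ⊆ (S : Set A) ×ˢ (S : Set A) ∧ t ∈ H ∧ (1, 1) ∈ N ∧ (t, 1) ∈ N ∧ (1, t) ∈ N := by
    intro t ht
    have hH : (⊥ ⊔ Subgroup.zpowers t : Subgroup A) = Subgroup.zpowers t := bot_sup_eq _
    have hle : Subgroup.zpowers t ≤ S := by
      rw [Subgroup.zpowers_le]
      exact ht
    have h := real_tame t (real_triv (A := A) hc)
    rw [hH] at h
    refine ⟨_, _, h, hle, ?_, Subgroup.mem_zpowers t, Or.inl rfl, ?_, ?_⟩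
    · rintro p (hp | hp)
      · rw [Set.mem_singleton_iff] at hp
        subst hp
        exact ⟨S.one_mem, S.one_mem⟩
      · obtain ⟨y, hy, rfl | rfl | rfl⟩ := hp
        · exact ⟨hle hy, S.one_mem⟩
        · exact ⟨S.one_mem, hle hy⟩
        · refine ⟨hle hy, ?_⟩
          simpa using hle hy
    · exact Or.inr ⟨t, Subgroup.mem_zpowers t, Or.inl rfl⟩
    · exact Or.inr ⟨t, Subgroup.mem_zpowers t, Or.inr (Or.inl rfl)⟩
  have hprodsub : ∀ N₁ N₂ : Set (A × A), N₁ ⊆ (S : Set A) ×ˢ (S : Set A) →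
      N₂ ⊆ (S : Set A) ×ˢ (S : Set A) → N₁ * N₂ ⊆ (S : Set A) ×ˢ (S : Set A) := by
    intro N₁ N₂ h₁ h₂ p hp
    obtain ⟨a, ha, b, hb, rfl⟩ := Set.mem_mul.mp hp
    exact ⟨S.mul_mem (h₁ ha).1 (h₂ hb).1, S.mul_mem (h₁ ha).2 (h₂ hb).2⟩
  have hind : ∀ T : Finset A, (∀ t ∈ T, t ∈ S) → ∃ (H : Subgroup A) (N : Set (A × A)),
      Real c A 1 H N ∧ H ≤ S ∧ N ⊆ (S : Set A) ×ˢ (S : Set A) ∧ (∀ t ∈ T, t ∈ H) ∧
      (∀ s s' : A, (s = 1 ∨ s ∈ T) → (s' = 1 ∨ s' ∈ T) → (s, s') ∈ N) := by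
    intro T
    induction T using Finset.induction_on with
    | empty =>
      intro _
      refine ⟨⊥, {(1, 1)}, real_triv hc, bot_le, ?_, by simp, ?_⟩
      · rintro p hp
        rw [Set.mem_singleton_iff] at hp
        subst hp
        exact ⟨S.one_mem, S.one_mem⟩
      · rintro s s' (rfl | h) (rfl | h')
        · rfl
        · simp at h'
        · simp at h
        · simp at h
    | insert t T htT ih =>
      intro hT
      obtain ⟨H, N, h1, h2, h3, h4, h5⟩ := ih (fun s hs => hT s (Finset.mem_insert_of_mem hs))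
      obtain ⟨H', N', b1, b2, b3, b4, b5, b6, b7⟩ := hblock t (hT t (Finset.mem_insert_self t T))
      refine ⟨H ⊔ (H' ⊔ H'), N * (N' * N'), ?_, sup_le h2 (sup_le b2 b2), ?_, ?_, ?_⟩
      · have := real_prod hc h1 (real_prod hc b1 b1)
        simpa using this
      · exact hprodsub _ _ h3 (hprodsub _ _ b3 b3)
      · intro s hs
        rcases Finset.mem_insert.mp hs with rfl | hs
        · exact Subgroup.mem_sup_right (Subgroup.mem_sup_left b4)
        · exact Subgroup.mem_sup_left (h4 s hs)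
      · have hmem : ∀ x y x₁ y₁ x₂ y₂ : A, (x, y) ∈ N → (x₁, y₁) ∈ N' → (x₂, y₂) ∈ N' →
            (x * (x₁ * x₂), y * (y₁ * y₂)) ∈ N * (N' * N') := by
          intro x y x₁ y₁ x₂ y₂ hx hx₁ hx₂
          exact Set.mul_mem_mul hx (Set.mul_mem_mul hx₁ hx₂)
        have e1 : (1 : A) = 1 ∨ (1 : A) ∈ T := Or.inl rfl
        have key : ∀ s : A, (s = 1 ∨ s ∈ insert t T) → s = t ∨ (s = 1 ∨ s ∈ T) := by
          rintro s (hs | hs)
          · exact Or.inr (Or.inl hs)
          · rcases Finset.mem_insert.mp hs with hs | hs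
            · exact Or.inl hs
            · exact Or.inr (Or.inr hs)
        intro s s' hs hs'
        rcases key s hs with k1 | k1 <;> rcases key s' hs' with k2 | k2
        · simpa [k1, k2] using hmem 1 1 _ _ _ _ (h5 1 1 e1 e1) b6 b7
        · simpa [k1] using hmem 1 s' _ _ _ _ (h5 1 s' e1 k2) b6 b5
        · simpa [k2] using hmem s 1 _ _ _ _ (h5 s 1 k1 e1) b7 b5
        · simpa using hmem s s' _ _ _ _ (h5 s s' k1 k2) b5 b5
  have := Fintype.ofFinite A
  obtain ⟨H, N, h1, h2, h3, h4, h5⟩ := hind (Finset.univ.filter (fun a : A => a ∈ S)) (by simp)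
  have hH : H = S := le_antisymm h2 (fun s hs => h4 s (by simp [hs]))
  have hN : N = (S : Set A) ×ˢ (S : Set A) := by
    apply Set.Subset.antisymm h3
    rintro ⟨s, s'⟩ ⟨hs, hs'⟩
    exact h5 s s' (Or.inr (by simpa using hs)) (Or.inr (by simpa using hs'))
  rw [← hH, ← hN] at *
  rw [hN] at h1
  rw [hH] at h1
  rw [hH]
  exact h1

/-- The rule lift: soundness. -/
theorem real_lift {c : ℕ} (hc : c = 0 ∨ c.Prime) {A A' : Type} [CommGroup A] [CommGroup A']
    [Finite A] (φ : A →* A') (hφ : Function.Surjective φ) (α : (ZMod c)ˣ →* A)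
    (H' : Subgroup A') (N' : Set (A' × A')) (h : Real c A' (φ.comp α) H' N') :
    Real c A α (H'.comap φ) {p | (φ p.1, φ p.2) ∈ N'} := by
  classical
  have : Finite A' := Finite.of_surjective φ hφ
  obtain ⟨n₀, hn₀⟩ := real_univ hc h
  obtain ⟨n, hn1, hn2⟩ : ∃ n : ℕ, 1 ≤ n ∧ n₀ ≤ n :=
    ⟨max n₀ 1, le_max_right _ _, le_max_left _ _⟩
  obtain ⟨ψ, hψ0, hψN, hψH, hψα⟩ := hn₀ n hn2
  obtain ⟨L, hL0, hL, hLα⟩ := free_lift hc φ hφ ψ hψ0 α (fun u => hψα MvPolynomial.C u)
  -- the values of L and ψ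
  have hval : ∀ (f : UP c n) (x : A), L f = (x : WithZero A) → ψ f = (φ x : WithZero A') := by
    intro f x hx
    rw [← hL f, hx, WithZero.map'_coe]
  have hval' : ∀ f : UP c n, f ≠ 0 → ∃ x : A, L f = (x : WithZero A) := by
    intro f hf
    obtain ⟨x, hx⟩ := WithZero.ne_zero_iff_exists.mp (hL0 f hf)
    exact ⟨x, hx.symm⟩
  have hLR : Real c A α (HH L) (NN L) := by
    apply realU_real hc hn1
    refine ⟨L, hL0, rfl, rfl, fun j u => ?_⟩
    have hj : j = MvPolynomial.C := by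
      apply RingHom.ext
      intro x
      obtain ⟨k, rfl⟩ := ZMod.intCast_surjective x
      rw [map_intCast, map_intCast]
    rw [hj]
    exact hLα u
  have hS := real_full hc φ.ker
  have hp := real_prod hc hLR hS
  rw [mul_one] at hp
  have hHH : HH L ⊔ φ.ker = H'.comap φ := by
    rw [← hψH, ← Subgroup.comap_map_eq]
    congr 1
    rw [HH, HH, MonoidHom.map_closure]
    congr 1
    ext y
    constructor
    · rintro ⟨x, ⟨a, ha⟩, rfl⟩
      exact ⟨a, hval a x ha⟩
    · rintro ⟨a, ha⟩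
      have ha0 : a ≠ 0 := by
        rintro rfl
        rw [map_zero] at ha
        exact WithZero.coe_ne_zero ha.symm
      obtain ⟨x, hx⟩ := hval' a ha0
      refine ⟨x, ⟨a, hx⟩, ?_⟩
      have := hval a x hx
      rw [ha] at this
      exact (WithZero.coe_inj.mp this).symm
  have hNN : NN L * ((φ.ker : Set A) ×ˢ (φ.ker : Set A)) = {p | (φ p.1, φ p.2) ∈ N'} := by
    rw [← hψN]
    ext ⟨x, y⟩
    constructor
    · rintro hxy
      obtain ⟨⟨x₁, y₁⟩, ⟨a, b, d, hd, hab, ha, hb⟩, ⟨x₂, y₂⟩, ⟨hx₂, hy₂⟩, he⟩ := Set.mem_mul.mp hxy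
      have hx : x = x₁ * x₂ := (congrArg Prod.fst he).symm
      have hy : y = y₁ * y₂ := (congrArg Prod.snd he).symm
      have hx₂' : φ x₂ = 1 := hx₂
      have hy₂' : φ y₂ = 1 := hy₂
      refine ⟨a, b, d, hd, hab, ?_, ?_⟩
      · change ψ a = ((φ x : A') : WithZero A') * ψ d
        rw [← hL a, ha, map_mul, hL d, WithZero.map'_coe, hx, map_mul, hx₂', mul_one]
      · change ψ b = ((φ y : A') : WithZero A') * ψ d
        rw [← hL b, hb, map_mul, hL d, WithZero.map'_coe, hy, map_mul, hy₂', mul_one]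
    · rintro ⟨a, b, d, hd, hab, ha, hb⟩
      change ψ a = ((φ x : A') : WithZero A') * ψ d at ha
      change ψ b = ((φ y : A') : WithZero A') * ψ d at hb
      have ha0 : a ≠ 0 := by
        rintro rfl
        rw [map_zero] at ha
        exact (mul_ne_zero WithZero.coe_ne_zero (hψ0 d hd)) ha.symm
      have hb0 : b ≠ 0 := by
        rintro rfl
        rw [map_zero] at hb
        exact (mul_ne_zero WithZero.coe_ne_zero (hψ0 d hd)) hb.symm
      obtain ⟨xa, hxa⟩ := hval' a ha0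
      obtain ⟨xb, hxb⟩ := hval' b hb0
      obtain ⟨xd, hxd⟩ := hval' d hd
      have h1 : φ xa = φ x * φ xd := by
        rw [hval a xa hxa, hval d xd hxd, ← WithZero.coe_mul] at ha
        exact WithZero.coe_inj.mp ha
      have h2 : φ xb = φ y * φ xd := by
        rw [hval b xb hxb, hval d xd hxd, ← WithZero.coe_mul] at hb
        exact WithZero.coe_inj.mp hb
      refine Set.mem_mul.mpr ⟨(xa * xd⁻¹, xb * xd⁻¹), ⟨a, b, d, hd, hab, ?_, ?_⟩,
        (x * (xa * xd⁻¹)⁻¹, y * (xb * xd⁻¹)⁻¹), ⟨?_, ?_⟩, ?_⟩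
      · change L a = ((xa * xd⁻¹ : A) : WithZero A) * L d
        rw [hxa, hxd, ← WithZero.coe_mul, inv_mul_cancel_right]
      · change L b = ((xb * xd⁻¹ : A) : WithZero A) * L d
        rw [hxb, hxd, ← WithZero.coe_mul, inv_mul_cancel_right]
      · change φ (x * (xa * xd⁻¹)⁻¹) = 1
        rw [map_mul, map_inv, map_mul, map_inv, h1]
        group
      · change φ (y * (xb * xd⁻¹)⁻¹) = 1
        rw [map_mul, map_inv, map_mul, map_inv, h2]
        group
      · rw [Prod.mk_mul_mk, mul_comm x, mul_comm y, mul_inv_cancel_left, mul_inv_cancel_left]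
  rw [hHH, hNN] at hp
  exact hp

end HypQ
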