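import Pool.Agent.Lib.MP_9f0b3e_al.Defs
import Pool.Agent.Lib.MP_9f0b3e_al.Dvr

/-!
# The standard discrete valuation rings

For a prime `p`, `n ≥ 1`, `e ≥ 1` and `c ∈ {0, p}` there is a discrete valuation ring of
characteristic `c` with residue field the fraction field of `F_p[x_1, ..., x_n]` in which, for
`c = 0`, `p = π^e x` with `x` a lift of `x_1`.
-/

set_option autoImplicit false

namespace HypQ

namespace StdAux

open Polynomial in
/-- the common part of the two cases. -/
lemma std_of {R : Type} [CommRing R] [IsNoetherianRing R] (p : ℕ) (hp : p.Prime) (n : ℕ)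
    (s : Finset R) (y : R) (g : R →+* UP p n) (hg : Function.Surjective g)
    (hk : Ideal.span (insert y (s : Set R)) = RingHom.ker g)
    (hh : (s.card : ℕ∞) < (RingHom.ker g).height) :
    ∃ (O : Type) (_ : CommRing O) (_ : IsDomain O) (_ : IsDiscreteValuationRing O)
      (f : R →+* O) (F : UP p n →+* IsLocalRing.ResidueField O),
      (∀ r ∈ s, f r = 0) ∧ Irreducible (f y) ∧ Function.Injective F ∧
      (∀ z : IsLocalRing.ResidueField O, ∃ a b : UP p n, b ≠ 0 ∧ z * F b = F a) ∧
      (∀ r : R, IsLocalRing.residue O (f r) = F (g r)) := by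
  have : Fact p.Prime := ⟨hp⟩
  have : (RingHom.ker g).IsPrime := RingHom.ker_isPrime g
  obtain ⟨O, i1, i2, i3, f, hs, hy, hu, -, hfr⟩ := dvr_of_height (RingHom.ker g) s y hk hh
  have hker : RingHom.ker g ≤ RingHom.ker ((IsLocalRing.residue O).comp f) := by
    intro r hr
    rw [RingHom.mem_ker, RingHom.comp_apply, IsLocalRing.residue_eq_zero_iff]
    intro hunit
    exact (hu r).2 hunit hr
  let F : UP p n →+* IsLocalRing.ResidueField O :=
    g.liftOfSurjective hg ⟨(IsLocalRing.residue O).comp f, hker⟩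
  have hF : ∀ r : R, F (g r) = IsLocalRing.residue O (f r) := fun r =>
    g.liftOfSurjective_comp_apply hg ⟨(IsLocalRing.residue O).comp f, hker⟩ r
  refine ⟨O, i1, i2, i3, f, F, hs, hy, ?_, ?_, fun r => (hF r).symm⟩
  · rw [injective_iff_map_eq_zero]
    intro a ha
    obtain ⟨r, rfl⟩ := hg a
    rw [hF, IsLocalRing.residue_eq_zero_iff] at ha
    by_contra hne
    exact ha ((hu r).1 hne)
  · intro z
    obtain ⟨z, rfl⟩ := IsLocalRing.residue_surjective z
    obtain ⟨a, b, hb, hab⟩ := hfr z
    refine ⟨g a, g b, hb, ?_⟩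
    rw [hF, hF, ← hab, map_mul]

/-- `p` in the ring `Z[x_1, ..., x_n][y]`. -/
lemma ker_mapInt (p n : ℕ) (a : MvPolynomial (Fin n) ℤ)
    (ha : MvPolynomial.map (Int.castRingHom (ZMod p)) a = 0) :
    ∃ b : MvPolynomial (Fin n) ℤ, a = (p : MvPolynomial (Fin n) ℤ) * b := by
  have h1 : a ∈ RingHom.ker (MvPolynomial.map (Int.castRingHom (ZMod p)) :
      MvPolynomial (Fin n) ℤ →+* MvPolynomial (Fin n) (ZMod p)) := ha
  rw [MvPolynomial.ker_map, ZMod.ker_intCastRingHom, Ideal.map_span, Set.image_singleton,
    Ideal.mem_span_singleton] at h1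
  obtain ⟨b, hb⟩ := h1
  refine ⟨b, ?_⟩
  rw [hb]
  simp

end StdAux

open StdAux Polynomial in
theorem exists_stdDVR (p : ℕ) (hp : p.Prime) (n e : ℕ) (hn : 1 ≤ n) (he : 1 ≤ e) (c : ℕ)
    (hc : c = 0 ∨ c = p) :
    ∃ (O : Type) (_ : CommRing O) (_ : IsDomain O) (_ : IsDiscreteValuationRing O)
      (_ : CharP O c) (π : O) (f : UP p n →+* IsLocalRing.ResidueField O) (x : O),
      Irreducible π ∧ Function.Injective f ∧
      (∀ y : IsLocalRing.ResidueField O, ∃ a b : UP p n, b ≠ 0 ∧ y * f b = f a) ∧
      IsLocalRing.residue O x = f (MvPolynomial.X ⟨0, hn⟩) ∧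
      (c = 0 → (p : O) = π ^ e * x) := by
  classical
  have : Fact p.Prime := ⟨hp⟩
  rcases hc with rfl | rfl
  · -- characteristic zero
    let m : MvPolynomial (Fin n) ℤ →+* UP p n := MvPolynomial.map (Int.castRingHom (ZMod p))
    have hm : Function.Surjective m :=
      MvPolynomial.map_surjective _ (ZMod.ringHom_surjective _)
    let M : (MvPolynomial (Fin n) ℤ)[X] →+* (UP p n)[X] := Polynomial.mapRingHom m
    let g : (MvPolynomial (Fin n) ℤ)[X] →+* UP p n := (Polynomial.evalRingHom (0 : UP p n)).comp M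
    have hgC : ∀ a, g (C a) = m a := by
      intro a
      simp [g, M]
    have hgX : g X = 0 := by simp [g, M]
    have hgs : Function.Surjective g := by
      intro a
      obtain ⟨b, rfl⟩ := hm a
      exact ⟨C b, hgC b⟩
    let r : (MvPolynomial (Fin n) ℤ)[X] :=
      X ^ e * C (MvPolynomial.X ⟨0, hn⟩) - (p : (MvPolynomial (Fin n) ℤ)[X])
    have hgp : g (p : (MvPolynomial (Fin n) ℤ)[X]) = 0 := by
      rw [map_natCast]
      exact CharP.cast_eq_zero _ _
    have hgr : g r = 0 := by
      simp only [r]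
      rw [map_sub, map_mul, map_pow, hgX, hgp, zero_pow (by omega)]
      simp
    have hk : Ideal.span (insert X (({r} : Finset ((MvPolynomial (Fin n) ℤ)[X])) :
        Set ((MvPolynomial (Fin n) ℤ)[X]))) = RingHom.ker g := by
      apply le_antisymm
      · rw [Ideal.span_le]
        intro a ha
        rw [Finset.coe_singleton, Set.mem_insert_iff, Set.mem_singleton_iff] at ha
        rcases ha with rfl | rfl
        · exact hgX
        · exact hgr
      · intro a ha
        have hX : (X : (MvPolynomial (Fin n) ℤ)[X]) ∈ Ideal.span (insert X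
            (({r} : Finset ((MvPolynomial (Fin n) ℤ)[X])) : Set ((MvPolynomial (Fin n) ℤ)[X]))) :=
          Ideal.subset_span (Set.mem_insert _ _)
        have hr : r ∈ Ideal.span (insert X
            (({r} : Finset ((MvPolynomial (Fin n) ℤ)[X])) : Set ((MvPolynomial (Fin n) ℤ)[X]))) :=
          Ideal.subset_span (Set.mem_insert_of_mem _ (by simp))
        have hpm : (p : (MvPolynomial (Fin n) ℤ)[X]) ∈ Ideal.span (insert X
            (({r} : Finset ((MvPolynomial (Fin n) ℤ)[X])) : Set ((MvPolynomial (Fin n) ℤ)[X]))) := by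
          have h1 : (p : (MvPolynomial (Fin n) ℤ)[X]) =
              (X ^ (e - 1) * C (MvPolynomial.X ⟨0, hn⟩)) * X - r := by
            obtain ⟨k, rfl⟩ : ∃ k, e = k + 1 := ⟨e - 1, by omega⟩
            simp only [r, Nat.add_sub_cancel]
            ring
          rw [h1]
          exact Ideal.sub_mem _ (Ideal.mul_mem_left _ _ hX) hr
        rw [RingHom.mem_ker] at ha
        rw [← Polynomial.divX_mul_X_add a] at ha ⊢
        rw [map_add, map_mul, hgX, mul_zero, zero_add, hgC] at ha
        obtain ⟨b, hb⟩ := ker_mapInt p n _ ha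
        rw [hb, map_mul]
        refine Ideal.add_mem _ (Ideal.mul_mem_left _ _ hX) ?_
        rw [map_natCast]
        exact Ideal.mul_mem_right _ _ hpm
    have hh : (((({r} : Finset ((MvPolynomial (Fin n) ℤ)[X])).card : ℕ) : ℕ∞)) <
        (RingHom.ker g).height := by
      have : (RingHom.ker g).IsPrime := RingHom.ker_isPrime g
      have : (RingHom.ker M).IsPrime := RingHom.ker_isPrime M
      have : (⊥ : Ideal ((MvPolynomial (Fin n) ℤ)[X])).IsPrime := Ideal.isPrime_bot
      have h1 : (⊥ : Ideal ((MvPolynomial (Fin n) ℤ)[X])) < RingHom.ker M := by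
        rw [bot_lt_iff_ne_bot]
        intro h
        have h2 : (p : (MvPolynomial (Fin n) ℤ)[X]) ∈ RingHom.ker M := by
          rw [RingHom.mem_ker, map_natCast]
          exact CharP.cast_eq_zero _ _
        rw [h, Ideal.mem_bot] at h2
        exact hp.ne_zero (by exact_mod_cast h2)
      have h2 : RingHom.ker M < RingHom.ker g := by
        refine lt_of_le_of_ne ?_ ?_
        · intro a ha
          rw [RingHom.mem_ker] at ha ⊢
          rw [RingHom.comp_apply, ha, map_zero]
        · intro h
          have h3 : (X : (MvPolynomial (Fin n) ℤ)[X]) ∈ RingHom.ker g := hgX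
          rw [← h, RingHom.mem_ker] at h3
          simp [M] at h3
      have h3 := Ideal.height_add_one_le_of_lt_of_isPrime h1
      have h4 := Ideal.height_add_one_le_of_lt_of_isPrime h2
      have h5 : (1 : ℕ∞) ≤ (RingHom.ker M).height := le_trans (by simp) h3
      have h6 : (1 : ℕ∞) + 1 ≤ (RingHom.ker g).height := le_trans (by gcongr) h4
      rw [Finset.card_singleton, Nat.cast_one]
      refine lt_of_lt_of_le ?_ h6
      norm_num
    obtain ⟨O, i1, i2, i3, f, F, hs, hy, hF, hfr, hres⟩ :=
      std_of p hp n {r} X g hgs hk hh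
    have hx : IsLocalRing.residue O (f (C (MvPolynomial.X ⟨0, hn⟩))) =
        F (MvPolynomial.X ⟨0, hn⟩) := by
      rw [hres, hgC]
      simp [m]
    have hpe : (p : O) = f X ^ e * f (C (MvPolynomial.X ⟨0, hn⟩)) := by
      have h1 := hs r (by simp)
      simp only [r] at h1
      rw [map_sub, map_mul, map_pow, map_natCast, sub_eq_zero] at h1
      exact h1.symm
    have hx0 : f (C (MvPolynomial.X ⟨0, hn⟩)) ≠ 0 := by
      intro h
      rw [h, map_zero] at hx
      have h1 := hF (hx.symm.trans (map_zero F).symm)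
      exact MvPolynomial.X_ne_zero _ h1
    have hchar : CharP O 0 := by
      obtain ⟨q, hq⟩ := CharP.exists O
      rcases CharP.char_is_prime_or_zero O q with h | h
      · exfalso
        have h1 : (q : O) = 0 := CharP.cast_eq_zero O q
        have h2 : F (q : UP p n) = 0 := by
          rw [map_natCast, ← map_natCast (IsLocalRing.residue O), h1, map_zero]
        have h3 : (q : UP p n) = 0 := hF (h2.trans (map_zero F).symm)
        have h4 : p ∣ q := (CharP.cast_eq_zero_iff (UP p n) p q).1 h3
        have h5 : p = q := (Nat.prime_dvd_prime_iff_eq hp h).1 h4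
        rw [← h5, hpe] at h1
        rcases mul_eq_zero.1 h1 with h6 | h6
        · exact hy.ne_zero (pow_eq_zero_iff (by omega : e ≠ 0) |>.1 h6)
        · exact hx0 h6
      · rw [h] at hq; exact hq
    exact ⟨O, i1, i2, i3, hchar, f X, F, f (C (MvPolynomial.X ⟨0, hn⟩)), hy, hF, hfr, hx,
      fun _ => hpe⟩
  · -- characteristic p
    let g : (UP c n)[X] →+* UP c n := Polynomial.evalRingHom (0 : UP c n)
    have hgC : ∀ a, g (C a) = a := by
      intro a
      simp [g]
    have hgX : g X = 0 := by simp [g]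
    have hgs : Function.Surjective g := fun a => ⟨C a, hgC a⟩
    have hk : Ideal.span (insert X ((∅ : Finset ((UP c n)[X])) : Set ((UP c n)[X]))) =
        RingHom.ker g := by
      rw [Finset.coe_empty, insert_empty_eq, Polynomial.ker_evalRingHom, map_zero, sub_zero]
    have hh : ((((∅ : Finset ((UP c n)[X])).card : ℕ) : ℕ∞)) < (RingHom.ker g).height := by
      have : (RingHom.ker g).IsPrime := RingHom.ker_isPrime g
      have : (⊥ : Ideal ((UP c n)[X])).IsPrime := Ideal.isPrime_bot
      have h1 : (⊥ : Ideal ((UP c n)[X])) < RingHom.ker g := by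
        rw [bot_lt_iff_ne_bot]
        intro h
        have h2 : (X : (UP c n)[X]) ∈ RingHom.ker g := hgX
        rw [h, Ideal.mem_bot] at h2
        exact Polynomial.X_ne_zero h2
      have h3 := Ideal.height_add_one_le_of_lt_of_isPrime h1
      have h5 : (1 : ℕ∞) ≤ (RingHom.ker g).height := le_trans (by simp) h3
      rw [Finset.card_empty, Nat.cast_zero]
      exact lt_of_lt_of_le (by norm_num) h5
    obtain ⟨O, i1, i2, i3, f, F, hs, hy, hF, hfr, hres⟩ :=
      std_of c hp n ∅ X g hgs hk hh
    have hchar : CharP O c := by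
      rw [CharP.charP_iff_prime_eq_zero hp, ← map_natCast f, CharP.cast_eq_zero, map_zero]
    refine ⟨O, i1, i2, i3, hchar, f X, F, f (C (MvPolynomial.X ⟨0, hn⟩)), hy, hF, hfr, ?_, ?_⟩
    · rw [hres, hgC]
    · intro h
      exact absurd h hp.ne_zero

end HypQ
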