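import Pool.Agent.Lib.MP_9f0b3e_al.WildSLem
import Pool.Agent.Lib.MP_9f0b3e_al.WildF
import Pool.Agent.Lib.MP_9f0b3e_al.DvrForm
import Pool.Agent.Lib.MP_9f0b3e_al.Univ
import Pool.Agent.Lib.MP_9f0b3e_al.StdDvr

/-!
# MP_9f0b3e_al: soundness of the wild rule (helper62)
-/

set_option autoImplicit false

namespace HypQ

open Pointwise IsLocalRing

/-- the kernel of `φ` is a `p`-group. -/
theorem ChainOK.pow_ker {A A' : Type*} [CommGroup A] [CommGroup A'] {p e M : ℕ} {φ : A →* A'}
    {ε : A} {B : ℕ → Subgroup A} (hB : ChainOK p e M φ ε B) (hp : p.Prime) {b : A}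
    (hb : b ∈ φ.ker) : b ^ (p ^ M) = 1 := by
  have hanti : ∀ k n, 1 ≤ n → B (n + k) ≤ B n := by
    intro k
    induction k with
    | zero => intro n _; exact le_rfl
    | succ k ih =>
      intro n hn
      exact (hB.anti (n + k) (by omega)).trans (ih n hn)
  have key : ∀ k, b ^ (p ^ k) ∈ B (1 + k) := by
    intro k
    induction k with
    | zero => simpa [hB.one] using hb
    | succ k ih =>
      have h1 := hB.pow (1 + k) (by omega) _ ih
      rw [← pow_mul, ← pow_succ] at h1
      have h2 : 1 + (k + 1) ≤ min (p * (1 + k)) (1 + k + e) := by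
        apply le_min
        · have := hp.two_le
          nlinarith
        · have := hB.e_pos
          omega
      obtain ⟨d, hd⟩ := Nat.exists_eq_add_of_le h2
      rw [hd] at h1
      exact hanti d _ (by omega) h1
  have h := key M
  rw [hB.top (1 + M) (by omega), Subgroup.mem_bot] at h
  exact h

/-- sections over a purely transcendental field -/
theorem section_of_lift {p n : ℕ} (hp : p.Prime) {κ Q : Type} [Field κ] [CommGroup Q]
    (f : UP p n →+* κ) (hf : Function.Injective f)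
    (hfr : ∀ y : κ, ∃ a b : UP p n, b ≠ 0 ∧ y * f b = f a) (q : Q →* κˣ)
    (hq : Function.Surjective q) (h₀ : (ZMod p)ˣ →* Q)
    (hh₀ : ∀ u : (ZMod p)ˣ, ((q (h₀ u) : κˣ) : κ) = f (MvPolynomial.C (u : ZMod p))) :
    ∃ s : κˣ →* Q, (∀ x, q (s x) = x) ∧
      ∀ (x : κˣ) (u : (ZMod p)ˣ), (x : κ) = f (MvPolynomial.C (u : ZMod p)) → s x = h₀ u := by
  classical
  have := zmod_isDomain (c := p) (Or.inr hp)
  let E : WithZero κˣ ≃* κ := WithZero.withZeroUnitsEquiv
  have hE : ∀ y : κˣ, E (y : WithZero κˣ) = (y : κ) := fun y => rfl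
  have hE0 : E 0 = 0 := rfl
  let h : UP p n →*₀ WithZero κˣ :=
    { toFun := fun a => E.symm (f a)
      map_zero' := by rw [map_zero, MulEquiv.symm_apply_eq, hE0]
      map_one' := by rw [map_one, map_one]
      map_mul' := fun a b => by rw [map_mul, map_mul] }
  have hhE : ∀ a, E (h a) = f a := fun a => E.apply_symm_apply _
  have hNV : NV h := by
    intro a ha h0
    have := hhE a
    rw [h0, hE0] at this
    exact ha (hf (by rw [← this, map_zero]))
  obtain ⟨h', hh'NV, hh'q, hh'C⟩ := free_lift (Or.inr hp) q hq h hNV h₀ (fun u => by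
    apply E.injective
    rw [hhE, hE, hh₀])
  obtain ⟨s, hs, -, -⟩ := frac_char' f hf hfr h' hh'NV
  refine ⟨uHom s, ?_, ?_⟩
  · intro x
    obtain ⟨a, b, hb, hab⟩ := hfr (x : κ)
    have h1 : s (x : κ) * h' b = h' a := by rw [← hs, ← hs, ← map_mul, hab]
    have h2 : WithZero.map' q (s (x : κ)) * h b = h a := by
      rw [← hh'q, ← hh'q, ← map_mul, h1]
    rw [← uHom_coe, WithZero.map'_coe] at h2
    have h3 := congrArg E h2
    rw [map_mul, hhE, hhE, hE, ← hab] at h3
    have hfb : f b ≠ 0 := fun h0 => hb (hf (by rw [h0, map_zero]))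
    exact Units.ext (mul_right_cancel₀ hfb h3)
  · intro x u hx
    have h1 : (uHom s x : WithZero Q) = (h₀ u : WithZero Q) := by
      rw [uHom_coe, hx, hs, hh'C]
    exact_mod_cast h1

/-- `wildSet` only depends on `B n`, `n ≥ 1`. -/
theorem wildSet_congr {A A' : Type*} [CommGroup A] [CommGroup A'] (φ : A →* A') (ε g : A)
    (H' : Subgroup A') (N' : Set (A' × A')) {B B' : ℕ → Subgroup A}
    (h : ∀ n, 1 ≤ n → B n = B' n) : wildSet φ ε g H' N' B = wildSet φ ε g H' N' B' := by
  unfold wildSet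
  congr 2
  ext p
  constructor
  · rintro ⟨n, hn, h1, h2⟩
    exact ⟨n, hn, h1, by rwa [← h n hn]⟩
  · rintro ⟨n, hn, h1, h2⟩
    exact ⟨n, hn, h1, by rwa [h n hn]⟩

/-- The statement of module FILT (`exists_filtered`). -/
def FilteredStatement : Prop :=
  ∀ {O : Type} [CommRing O] [IsDomain O] [IsDiscreteValuationRing O] {π : O}
    (_ : Irreducible π) {p : ℕ} (_ : p.Prime) {n e : ℕ} (hn : 1 ≤ n) (_ : 1 ≤ e) (c : ℕ)
    (_ : c = 0 ∨ c = p) [CharP O c] (f : UP p n →+* IsLocalRing.ResidueField O)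
    (_ : Function.Injective f)
    (_ : ∀ y : IsLocalRing.ResidueField O, ∃ a b : UP p n, b ≠ 0 ∧ y * f b = f a) (x : O)
    (_ : IsLocalRing.residue O x = f (MvPolynomial.X ⟨0, hn⟩))
    (_ : c = 0 → (p : O) = π ^ e * x) {A A' : Type} [CommGroup A] [Finite A] [CommGroup A']
    (φ : A →* A') (ε : A) (M : ℕ) (B : ℕ → Subgroup A) (_ : ChainOK p e M φ ε B)
    (_ : c = p → M ≤ e) (_ : ε ^ 2 = 1),
    ∃ X₁ : {u : Oˣ // π ∣ (u : O) - 1} → A,
      (∀ u v w : {u : Oˣ // π ∣ (u : O) - 1}, (w : Oˣ) = u * v → X₁ w = X₁ u * X₁ v) ∧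
      (∀ m, 1 ≤ m → ∀ b : A, b ∈ B m ↔ ∃ u : {u : Oˣ // π ∣ (u : O) - 1},
        π ^ m ∣ ((u : Oˣ) : O) - 1 ∧ X₁ u = b) ∧
      (p = 2 → ∀ u : {u : Oˣ // π ∣ (u : O) - 1}, (u : Oˣ) = -1 → X₁ u = ε)

/-- The wild rule is sound. -/
theorem real_wild_of (exists_filtered : FilteredStatement) (c p : ℕ) (hp : p.Prime) (A A' : Type) [CommGroup A] [CommGroup A'] [Finite A]
    (φ : A →* A') (hφ : Function.Surjective φ) (α : (ZMod c)ˣ →* A) (α' : (ZMod p)ˣ →* A')
    (H' : Subgroup A') (N' : Set (A' × A')) (g : A) (B : ℕ → Subgroup A) (e M : ℕ)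
    (hc : (c = 0 ∧ φ (α (-1)) = α' (-1)) ∨
      (c = p ∧ M ≤ e ∧ ∀ (u : (ZMod c)ˣ) (v : (ZMod p)ˣ), ((u : ZMod c).val = (v : ZMod p).val) →
        φ (α u) = α' v))
    (hB : ChainOK p e M φ (α (-1)) B) (h : Real p A' α' H' N') :
    Real c A α (H'.comap φ ⊔ Subgroup.zpowers g) (wildSet φ (α (-1)) g H' N' B) := by
  classical
  have : Finite A' := Finite.of_surjective φ hφ
  have hc' : c = 0 ∨ c = p := by
    rcases hc with h | h
    · exact Or.inl h.1
    · exact Or.inr h.1
  have hε : (α (-1)) ^ 2 = 1 := by rw [← map_pow, neg_one_sq, map_one]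
  obtain ⟨n₀, hn₀⟩ := real_univ (Or.inr hp) h
  obtain ⟨ψ', hψ'NV, hψ'N, hψ'H, hψ'α⟩ := hn₀ (n₀ + 1) (by omega)
  have hn : 1 ≤ n₀ + 1 := by omega
  obtain ⟨O, _, _, _, _, π, f, x, hπ, hf, hfr, hx, hpx⟩ :=
    exists_stdDVR p hp (n₀ + 1) e hn hB.e_pos c hc'
  have : Fact p.Prime := ⟨hp⟩
  have : NeZero p := ⟨hp.ne_zero⟩
  have hcM : c = p → M ≤ e := by
    intro h
    rcases hc with ⟨h1, -⟩ | ⟨-, h1, -⟩
    · exact absurd (h1.symm.trans h) hp.ne_zero.symm
    · exact h1
  obtain ⟨X₁', hmul, hBm, heps⟩ := exists_filtered hπ hp hn hB.e_pos c hc' f hf hfr x hx hpx φ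
    (α (-1)) M B hB hcM hε
  have hp0 : (p : ResidueField O) = 0 := by
    have : (p : UP p (n₀ + 1)) = 0 := CharP.cast_eq_zero _ _
    rw [← map_natCast f, this, map_zero]
  have hchar : CharP (ResidueField O) p := charP_of_injective_ringHom hf p
  have : Nonempty (Fin (n₀ + 1)) := ⟨0⟩
  have : Infinite (UP p (n₀ + 1)) := inferInstance
  have hinf : Infinite (ResidueField O) := Infinite.of_injective f hf
  -- the residue homomorphism
  let R : Oˣ →* (ResidueField O)ˣ := Units.map (residue O).toMonoidHom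
  have hRcoe : ∀ u : Oˣ, ((R u : (ResidueField O)ˣ) : ResidueField O) = residue O u := fun u => rfl
  have hRker : ∀ u : Oˣ, u ∈ R.ker ↔ π ∣ (u : O) - 1 := by
    intro u
    rw [MonoidHom.mem_ker, ← residue_eq_iff hπ, map_one, ← hRcoe, Units.val_eq_one]
  have hR : Function.Surjective R := by
    intro y
    obtain ⟨w, hw⟩ := residue_surjective (y : ResidueField O)
    obtain ⟨u, hu⟩ : IsUnit w := (isUnit_iff_residue w).mpr (by rw [hw]; exact y.ne_zero)
    exact ⟨u, Units.ext (by rw [hRcoe, hu, hw])⟩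
  let X₁ : R.ker →* A := MonoidHom.mk' (fun v => X₁' ⟨v, (hRker v).mp v.2⟩)
    (fun u v => hmul _ _ _ rfl)
  have hX₁' : ∀ (u : Oˣ) (hu : u ∈ R.ker), X₁ ⟨u, hu⟩ = X₁' ⟨u, (hRker u).mp hu⟩ :=
    fun u hu => rfl
  have hX₁ : ∀ u, φ (X₁ u) = 1 := by
    rintro ⟨u, hu⟩
    rw [hX₁', ← MonoidHom.mem_ker, ← hB.one, hBm 1 le_rfl]
    exact ⟨_, by rw [pow_one]; exact (hRker u).mp hu, rfl⟩
  -- the residue character
  obtain ⟨χ', hχ'1, hχ'N, hχ'H⟩ := frac_char' f hf hfr ψ' hψ'NV
  let hA := uHom χ'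
  have hAC : ∀ (y : (ResidueField O)ˣ) (u : (ZMod p)ˣ),
      (y : ResidueField O) = f (MvPolynomial.C (u : ZMod p)) → hA y = α' u := by
    intro y u hy
    have h1 : (hA y : WithZero A') = (α' u : WithZero A') := by
      rw [uHom_coe, hy, hχ'1]
      exact hψ'α MvPolynomial.C u
    exact_mod_cast h1
  obtain ⟨Q, _, q, cl, hq, hcl, hqcl, hcl1, hext⟩ := extend_char R hR φ hφ hA X₁ hX₁
  -- torsion of the kernel of `q`
  have htor : ∀ y, q y = 1 → y ^ (p ^ M) = 1 := by
    intro y hy
    obtain ⟨⟨⟨u, a⟩, hua⟩, rfl⟩ := hcl y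
    rw [hqcl] at hy
    have hu : u ∈ R.ker := hy
    have hua' : φ a = hA (R u) := hua
    have hb : a * (X₁ ⟨u, hu⟩)⁻¹ ∈ φ.ker := by
      rw [MonoidHom.mem_ker, map_mul, map_inv, hX₁, inv_one, mul_one, hua']
      rw [show R u = 1 from hu, map_one]
    have hb' := hB.pow_ker hp hb
    rw [← map_pow, hcl1]
    refine ⟨(⟨u, hu⟩ : R.ker) ^ (p ^ M), ?_⟩
    rw [mul_pow, inv_pow, mul_inv_eq_one] at hb'
    rw [Subgroup.coe_pow, map_pow, ← hb']
    rfl
  -- the homomorphism on the prime field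
  obtain ⟨h₀, hh₀, hh₀c⟩ : ∃ h₀ : (ZMod p)ˣ →* Q,
      (∀ u : (ZMod p)ˣ, ((q (h₀ u) : (ResidueField O)ˣ) : ResidueField O) =
        f (MvPolynomial.C (u : ZMod p))) ∧
      (∀ (_ : c = p) (v : (ZMod c)ˣ) (u : (ZMod p)ˣ) (w : Oˣ) (hw : (w, α v) ∈ PB R φ hA),
        (v : ZMod c).val = (u : ZMod p).val → (w : O) = ((v : ZMod c).val : O) →
        h₀ u = cl ⟨(w, α v), hw⟩) := by
    rcases hc with ⟨hc0, -⟩ | ⟨hcp, -, hcompat⟩
    · -- lift with coprime exponents
      let j : (ZMod p)ˣ →* (ResidueField O)ˣ :=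
        Units.map (f.comp MvPolynomial.C).toMonoidHom
      have hj : ∀ u, j u ^ (p ^ M) = j u := by
        intro u
        rw [← map_pow]
        congr 1
        apply Units.ext
        rw [Units.val_pow_eq_pow_val]
        have : ∀ k, (u : ZMod p) ^ (p ^ k) = u := by
          intro k
          induction k with
          | zero => simp
          | succ k ih => rw [pow_succ, pow_mul, ih, ZMod.pow_card]
        exact this M
      obtain ⟨h₀, h⟩ := coprime_lift q hq (p ^ M) htor j hj
      refine ⟨h₀, fun u => by rw [h]; rfl, fun hcp => ?_⟩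
      exact absurd (hc0.symm.trans hcp) hp.ne_zero.symm
    · subst hcp
      let jO : (ZMod c)ˣ →* Oˣ := Units.map (ZMod.castHom (dvd_refl c) O).toMonoidHom
      have hjR : ∀ u, ((R (jO u) : (ResidueField O)ˣ) : ResidueField O) =
          f (MvPolynomial.C (u : ZMod c)) := by
        intro u
        have h1 : (residue O).comp (ZMod.castHom (dvd_refl c) O) = f.comp MvPolynomial.C :=
          Subsingleton.elim _ _
        exact congrArg (fun g : ZMod c →+* ResidueField O => g (u : ZMod c)) h1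
      have hmem : ∀ u, (MonoidHom.prod jO α) u ∈ PB R φ hA := by
        intro u
        change φ (α u) = hA (R (jO u))
        rw [hAC _ u (hjR u)]
        exact hcompat u u rfl
      refine ⟨cl.comp ((MonoidHom.prod jO α).codRestrict (PB R φ hA) hmem), ?_, ?_⟩
      · intro u
        rw [MonoidHom.comp_apply, hqcl]
        exact hjR u
      · intro _ v u w hw hvu hwv
        have huv : v = u := Units.ext (ZMod.val_injective c hvu)
        subst huv
        have hw' : w = jO v := by
          apply Units.ext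
          rw [hwv]
          change _ = ZMod.castHom (dvd_refl c) O (v : ZMod c)
          rw [ZMod.castHom_apply, ZMod.natCast_val]
        subst hw'
        rfl
  obtain ⟨s, hs1, hs2⟩ := section_of_lift hp f hf hfr q hq h₀ hh₀
  obtain ⟨X, hXX₁, hφX, hXcl⟩ := hext s hs1
  -- the filtration
  have hBB : ∀ m, 1 ≤ m → BB π X m = B m := by
    intro m hm
    ext b
    rw [hBm m hm, mem_BB]
    constructor
    · rintro ⟨u, hu, rfl⟩
      have hu1 : π ∣ (u : O) - 1 := (dvd_pow_self π (by omega)).trans hu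
      refine ⟨⟨u, hu1⟩, hu, ?_⟩
      have := hXX₁ ⟨u, (hRker u).mpr hu1⟩
      rw [hX₁'] at this
      exact this.symm
    · rintro ⟨⟨u, hu1⟩, hu, hub⟩
      refine ⟨u, hu, ?_⟩
      have := hXX₁ ⟨u, (hRker u).mpr hu1⟩
      rw [hX₁'] at this
      rw [← hub]
      exact this
  have hχ'res : ∀ u : Oˣ, χ' (residue O u) = φ (X u) := by
    intro u
    rw [hφX, uHom_coe]
    rfl
  -- the values on the prime field for `c = p`
  have hXα : ∀ (_ : c = p) (v : (ZMod c)ˣ) (w : Oˣ), (w : O) = ((v : ZMod c).val : O) →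
      X w = α v := by
    intro hcp v w hwv
    obtain ⟨hMe, hcompat⟩ : M ≤ e ∧ ∀ (u : (ZMod c)ˣ) (v : (ZMod p)ˣ),
        ((u : ZMod c).val = (v : ZMod p).val) → φ (α u) = α' v := by
      rcases hc with ⟨hc0, -⟩ | ⟨-, h1, h2⟩
      · exact absurd (hc0.symm.trans hcp) hp.ne_zero.symm
      · exact ⟨h1, h2⟩
    subst hcp
    have hRw : ((R w : (ResidueField O)ˣ) : ResidueField O) =
        f (MvPolynomial.C (v : ZMod c)) := by
      have h1 : (residue O).comp (ZMod.castHom (dvd_refl c) O) = f.comp MvPolynomial.C :=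
        Subsingleton.elim _ _
      have h2 := congrArg (fun g : ZMod c →+* ResidueField O => g (v : ZMod c)) h1
      have h3 : ((v : ZMod c).val : O) = ZMod.castHom (dvd_refl c) O (v : ZMod c) := by
        rw [ZMod.castHom_apply, ZMod.natCast_val]
      rw [hRcoe, hwv, h3]
      exact h2
    have hw : (w, α v) ∈ PB R φ hA := by
      change φ (α v) = hA (R w)
      rw [hAC _ v hRw]
      exact hcompat v v rfl
    refine hXcl ⟨(w, α v), hw⟩ ?_
    rw [← hh₀c rfl v v w hw rfl hwv]
    exact hs2 _ v hRw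
  -- the value at `-1`
  have hneg : X (-1) = α (-1) := by
    by_cases hcp : c = p
    · refine hXα hcp (-1) (-1) ?_
      subst hcp
      have h9 : ZMod.castHom (dvd_refl c) O (-1) = -1 := by rw [map_neg, map_one]
      rw [ZMod.castHom_apply] at h9
      rw [ZMod.natCast_val, Units.val_neg, Units.val_one, Units.val_neg, Units.val_one]
      exact h9.symm
    · have hφε : φ (α (-1)) = α' (-1) := by
        rcases hc with ⟨-, h1⟩ | ⟨h1, -⟩
        · exact h1
        · exact absurd h1 hcp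
      by_cases hp2 : p = 2
      · have h1 : (-1 : Oˣ) ∈ R.ker := by
          rw [hRker, ← residue_zero_iff hπ]
          have h2 : (((-1 : Oˣ) : O) - 1) = -(2 : O) := by
            rw [Units.val_neg, Units.val_one]; ring
          have h3 : (2 : ResidueField O) = 0 := by
            have := hp0
            rw [hp2] at this
            exact_mod_cast this
          rw [h2, map_neg, map_ofNat, h3, neg_zero]
        have h2 := hXX₁ ⟨-1, h1⟩
        rw [hX₁'] at h2
        exact h2.trans (heps hp2 _ rfl)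
      · have h1 : φ (X (-1)) = α' (-1) := by
          rw [hφX]
          refine hAC _ (-1) ?_
          rw [hRcoe, Units.val_neg, Units.val_one, map_neg, map_one, Units.val_neg, Units.val_one,
            map_neg, map_neg, map_one, map_one]
        have h2 : X (-1) * (α (-1))⁻¹ ∈ φ.ker := by
          rw [MonoidHom.mem_ker, map_mul, map_inv, h1, hφε, mul_inv_cancel]
        have h3 := hB.pow_ker hp h2
        have h4 : (X (-1) * (α (-1))⁻¹) ^ 2 = 1 := by
          rw [mul_pow, inv_pow, hε, ← map_pow, neg_one_sq, map_one, inv_one, mul_one]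
        have h5 : Nat.Coprime 2 (p ^ M) := by
          apply Nat.Coprime.pow_right
          rw [Nat.coprime_primes Nat.prime_two hp]
          exact fun h => hp2 h.symm
        have h6 : (X (-1) * (α (-1))⁻¹) ^ (Nat.gcd 2 (p ^ M)) = 1 := pow_gcd_eq_one.mpr ⟨h4, h3⟩
        rw [h5.gcd_eq_one, pow_one, mul_inv_eq_one] at h6
        exact h6
  obtain ⟨ψ, hNV, hψu, hψπ, hψN, hψH⟩ := dvr_formula hπ X g
  obtain ⟨χ, hχ1, hχ2, hχ3⟩ := frac_char ψ hNV
  have : CharP (FractionRing O) c :=
    charP_of_injective_algebraMap (IsFractionRing.injective O (FractionRing O)) c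
  have : Infinite O := Infinite.of_surjective (residue O) residue_surjective
  have : Infinite (FractionRing O) :=
    Infinite.of_injective _ (IsFractionRing.injective O (FractionRing O))
  have hker : φ.ker = BB π X 1 := by rw [hBB 1 le_rfl, hB.one]
  refine ⟨FractionRing O, inferInstance, inferInstance, inferInstance, χ, ?_, ?_, ?_⟩
  · rw [hχ2, hψN, wild_formula hπ hp X g hB.M_pos
      (by rw [hBB M hB.M_pos]; exact hB.top M le_rfl) φ hφ hker χ' hχ'res, hneg, hχ'H, hψ'H, hχ'N,
      hψ'N]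
    exact wildSet_congr _ _ _ _ _ hBB
  · rw [hχ3, hψH]
    congr 1
    ext a
    rw [← range_resChar X φ hker χ' hχ'res a, hχ'H, hψ'H]
    rfl
  · intro j u
    by_cases hcp : c = p
    · have hcc : NeZero c := by rw [hcp]; infer_instance
      let w : Oˣ := Units.map (ZMod.castHom (dvd_refl c) O).toMonoidHom u
      have hw : (w : O) = ((u : ZMod c).val : O) := by
        change ZMod.castHom (dvd_refl c) O (u : ZMod c) = _
        rw [ZMod.castHom_apply, ZMod.natCast_val]
      have h1 : j (u : ZMod c) = algebraMap O (FractionRing O) (w : O) := by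
        have h2 : j = (algebraMap O (FractionRing O)).comp (ZMod.castHom (dvd_refl c) O) :=
          Subsingleton.elim _ _
        rw [h2]
        rfl
      rw [h1, hχ1, hψu, hXα hcp u w hw]
    · have hc0 : c = 0 := by
        rcases hc' with h | h
        · exact h
        · exact absurd h hcp
      subst hc0
      have hu : u = 1 ∨ u = (-1 : (ZMod 0)ˣ) := Int.units_eq_one_or u
      rcases hu with hu | hu
      · rw [hu, Units.val_one, map_one, map_one, map_one]
        rfl
      · have h1 : j ((u : ZMod 0)) = algebraMap O (FractionRing O) ((-1 : Oˣ) : O) := by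
          rw [hu, Units.val_neg, Units.val_one, map_neg, map_one, Units.val_neg, Units.val_one,
            map_neg, map_one]
        rw [h1, hχ1, hψu, hneg, hu]

end HypQ
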