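import Pool.Agent.Lib.MP_9f0b3e_al.Filt
import Pool.Agent.Lib.MP_9f0b3e_al.WildS
import Pool.Agent.Lib.MP_9f0b3e_al.LiftS
import Pool.Agent.Lib.MP_9f0b3e_al.Univ
import Pool.Agent.Lib.MP_9f0b3e_al.Tame1
import Pool.Agent.Lib.MP_9f0b3e_al.DvrForm

/-!
# Soundness: every derivable datum is realised by an infinite field (MP_9f0b3e_al)
-/

set_option autoImplicit false

namespace HypQ

theorem real_wild (c p : ℕ) (hp : p.Prime) (A A' : Type) [CommGroup A] [CommGroup A'] [Finite A]
    (φ : A →* A') (hφ : Function.Surjective φ) (α : (ZMod c)ˣ →* A) (α' : (ZMod p)ˣ →* A')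
    (H' : Subgroup A') (N' : Set (A' × A')) (g : A) (B : ℕ → Subgroup A) (e M : ℕ)
    (hc : (c = 0 ∧ φ (α (-1)) = α' (-1)) ∨
      (c = p ∧ M ≤ e ∧ ∀ (u : (ZMod c)ˣ) (v : (ZMod p)ˣ), ((u : ZMod c).val = (v : ZMod p).val) →
        φ (α u) = α' v))
    (hB : ChainOK p e M φ (α (-1)) B) (h : Real p A' α' H' N') :
    Real c A α (H'.comap φ ⊔ Subgroup.zpowers g) (wildSet φ (α (-1)) g H' N' B) :=
  real_wild_of @exists_filtered c p hp A A' φ hφ α α' H' N' g B e M hc hB h

theorem soundness {c : ℕ} (hc : c = 0 ∨ c.Prime) {A : Type} [CommGroup A] [Finite A]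
    {α : (ZMod c)ˣ →* A} {H : Subgroup A} {N : Set (A × A)} (h : Der c A α H N) :
    Real c A α H N := by
  rename_i i1 i2
  revert i2 hc
  induction h with
  | triv c hc A => intro hc _; exact real_triv hc
  | sign A α => intro _ _; exact real_sign α
  | prod c A α₁ α₂ H₁ H₂ N₁ N₂ h₁ h₂ ih₁ ih₂ =>
    intro hc _; exact real_prod hc (ih₁ hc) (ih₂ hc)
  | lift c A A' φ hφ α H' N' h ih =>
    intro hc _
    have : Finite A' := Finite.of_surjective φ hφ
    exact real_lift hc φ hφ α H' N' (ih hc)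
  | tame c A α H N g h ih => intro hc _; exact real_tame g (ih hc)
  | red p hp A α α₀ hα H N h ih => intro hc _; exact real_red hp hα (ih (Or.inr hp))
  | fin c hc A R π hR j X g => intro _ _; exact real_fin hc hR j X g
  | wild c p hp A A' φ hφ α α' H' N' g B e M hc hB h ih =>
    intro _ _
    have : Finite A' := Finite.of_surjective φ hφ
    exact real_wild c p hp A A' φ hφ α α' H' N' g B e M hc hB (ih (Or.inr hp))
end HypQ
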