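import Pool.Agent.Lib.MP_9f0b3e_al.TabDef
import Pool.Agent.Lib.MP_9f0b3e_al.Pair
import Pool.Agent.Lib.MP_9f0b3e_al.CoRe
import Pool.Agent.Lib.MP_9f0b3e_al.Sound
import Pool.Agent.Lib.MP_9f0b3e_al.Complete

/-!
# The frozen predicate in terms of derivations (MP_9f0b3e_al, S02499)

A table is the table of the quotient of an infinite field exactly when it is the table of the
quotient hyperfield of a derivable datum.
-/

set_option autoImplicit false

namespace HypQ

/-- The hyperaddition of the quotient in terms of the pair set. -/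
theorem hSum_iff {K A : Type} [Field K] [CommGroup A] (χ : K →*₀ WithZero A)
    (hs : Function.Surjective χ) (ε : A) (hε : χ (-1) = (ε : WithZero A)) (x y z : WithZero A) :
    HSum ε (NN χ) x y z ↔ ∃ x' y' : K, χ x' = x ∧ χ y' = y ∧ χ (x' + y') = z := by
  constructor
  · rintro (⟨rfl, rfl⟩ | ⟨rfl, rfl⟩ | ⟨a, rfl, rfl, rfl⟩ | ⟨a, b, w, rfl, rfl, rfl, hN⟩)
    · obtain ⟨y', hy'⟩ := hs z
      exact ⟨0, y', map_zero χ, hy', by rw [zero_add, hy']⟩
    · obtain ⟨x', hx'⟩ := hs z
      exact ⟨x', 0, hx', map_zero χ, by rw [add_zero, hx']⟩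
    · obtain ⟨x', hx'⟩ := hs (a : WithZero A)
      refine ⟨x', -x', hx', ?_, ?_⟩
      · rw [neg_eq_neg_one_mul, map_mul, hx', hε, WithZero.coe_mul]
      · rw [add_neg_cancel, map_zero]
    · obtain ⟨p, q, r, hr, hpq, hp, hq⟩ := hN
      obtain ⟨W, hW⟩ := hs (w : WithZero A)
      have hr' : χ r ≠ 0 := (map_ne_zero χ).mpr hr
      have hw : (w : WithZero A) ≠ 0 := WithZero.coe_ne_zero
      simp only at hp hq
      refine ⟨p * (W / r), q * (W / r), ?_, ?_, ?_⟩
      · rw [map_mul, map_div₀, hp, hW, WithZero.coe_div]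
        field_simp
      · rw [map_mul, map_div₀, hq, hW, WithZero.coe_div]
        field_simp
      · rw [← add_mul, hpq, mul_div_cancel₀ _ hr, hW]
  · rintro ⟨x', y', rfl, rfl, rfl⟩
    by_cases hx : x' = 0
    · left
      rw [hx, map_zero, zero_add]
      exact ⟨rfl, rfl⟩
    by_cases hy : y' = 0
    · right; left
      rw [hy, map_zero, add_zero]
      exact ⟨rfl, rfl⟩
    have hx' : χ x' ≠ 0 := (map_ne_zero χ).mpr hx
    have hy' : χ y' ≠ 0 := (map_ne_zero χ).mpr hy
    obtain ⟨a, ha⟩ := WithZero.ne_zero_iff_exists.mp hx'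
    obtain ⟨b, hb⟩ := WithZero.ne_zero_iff_exists.mp hy'
    by_cases hxy : x' + y' = 0
    · right; right; left
      refine ⟨a, ha.symm, ?_, ?_⟩
      · rw [eq_neg_of_add_eq_zero_right hxy, neg_eq_neg_one_mul, map_mul, hε, ← ha,
          WithZero.coe_mul]
      · rw [hxy, map_zero]
    · right; right; right
      have hz' : χ (x' + y') ≠ 0 := (map_ne_zero χ).mpr hxy
      obtain ⟨w, hw⟩ := WithZero.ne_zero_iff_exists.mp hz'
      refine ⟨a, b, w, ha.symm, hb.symm, hw.symm, x', y', x' + y', hxy, rfl, ?_, ?_⟩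
      · change χ x' = ((a / w : A) : WithZero A) * χ (x' + y')
        rw [← ha, ← hw, ← WithZero.coe_mul, div_mul_cancel]
      · change χ y' = ((b / w : A) : WithZero A) * χ (x' + y')
        rw [← hb, ← hw, ← WithZero.coe_mul, div_mul_cancel]

theorem tabOK_of_map {c : CoRe.Tab} {K A : Type} [Field K] [Infinite K] [CommGroup A]
    (π : Kˣ →* A) (hπ : Function.Surjective π) (f : K → ℕ)
    (f1 : ∀ x : K, f x < c.1) (f2 : ∀ i : ℕ, i < c.1 → ∃ x : K, f x = i)
    (f3 : ∀ x y : K, f x = f y ↔
      ((x = 0 ∧ y = 0) ∨ (∃ hx : x ≠ 0, ∃ hy : y ≠ 0, π (Units.mk0 x hx) = π (Units.mk0 y hy))))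
    (f4 : ∀ x y : K, f (x * y) = (c.2.1.getD (f x) []).getD (f y) 0)
    (f5 : ∀ x y : K, ∀ z : ℕ, z < c.1 →
      (z ∈ (c.2.2.getD (f x) []).getD (f y) [] ↔
        ∃ x' y' : K, f x' = f x ∧ f y' = f y ∧ f (x' + y') = z)) : TabOK c := by
  classical
  -- the character
  let χ : K →*₀ WithZero A :=
    { toFun := fun x => if hx : x = 0 then 0 else ((π (Units.mk0 x hx) : A) : WithZero A)
      map_zero' := by simp
      map_one' := by
        rw [dif_neg one_ne_zero]
        have : (Units.mk0 (1 : K) one_ne_zero) = 1 := Units.ext rfl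
        rw [this, map_one]
        rfl
      map_mul' := by
        intro x y
        by_cases hx : x = 0
        · subst hx
          rw [zero_mul, dif_pos rfl, zero_mul]
        by_cases hy : y = 0
        · subst hy
          rw [mul_zero, dif_pos rfl, mul_zero]
        rw [dif_neg hx, dif_neg hy, dif_neg (mul_ne_zero hx hy), ← WithZero.coe_mul, ← map_mul]
        congr 2
        exact Units.ext rfl }
  have χv : ∀ (x : K) (hx : x ≠ 0), χ x = ((π (Units.mk0 x hx) : A) : WithZero A) :=
    fun x hx => dif_neg hx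
  have χu : ∀ u : Kˣ, χ (u : K) = ((π u : A) : WithZero A) := by
    intro u
    rw [χv (u : K) u.ne_zero]
    congr 2
    exact Units.ext rfl
  have χs : Function.Surjective χ := by
    intro y
    by_cases hy : y = 0
    · exact ⟨0, by rw [map_zero, hy]⟩
    · obtain ⟨q, rfl⟩ := WithZero.ne_zero_iff_exists.mp hy
      obtain ⟨u, rfl⟩ := hπ q
      exact ⟨u, χu u⟩
  have key : ∀ x y : K, f x = f y ↔ χ x = χ y := by
    intro x y
    rw [f3]
    by_cases hx : x = 0
    · by_cases hy : y = 0
      · simp [hx, hy]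
      · constructor
        · rintro (⟨-, h⟩ | ⟨h, -⟩)
          · exact absurd h hy
          · exact absurd hx h
        · intro h
          rw [hx, map_zero] at h
          exact absurd ((map_eq_zero χ).mp h.symm) hy
    · by_cases hy : y = 0
      · constructor
        · rintro (⟨h, -⟩ | ⟨-, h, -⟩)
          · exact absurd h hx
          · exact absurd hy h
        · intro h
          rw [hy, map_zero] at h
          exact absurd ((map_eq_zero χ).mp h) hx
      · rw [χv x hx, χv y hy, WithZero.coe_inj]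
        constructor
        · rintro (⟨h, -⟩ | ⟨_, _, h⟩)
          · exact absurd h hx
          · exact h
        · intro h
          exact Or.inr ⟨hx, hy, h⟩
  -- the section
  let s : WithZero A → K := Function.surjInv χs
  have hs : ∀ y, χ (s y) = y := Function.surjInv_eq χs
  let β : WithZero A → ℕ := fun y => f (s y)
  have hβ : ∀ x, β (χ x) = f x := fun x => (key _ _).mpr (hs _)
  have hβi : Function.Injective β := by
    intro a b hab
    have := (key _ _).mp hab
    rwa [hs, hs] at this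
  have hβlt : ∀ y, β y < c.1 := fun y => f1 _
  have hfin' : Finite (WithZero A) :=
    Finite.of_injective (fun y => (⟨β y, hβlt y⟩ : Fin c.1)) (fun a b hab => hβi (by
      simpa using hab))
  have hfin : Finite A :=
    Finite.of_injective (fun q : A => (q : WithZero A)) (fun a b h => WithZero.coe_inj.mp h)
  -- the characteristic
  obtain ⟨q, hq⟩ := CharP.exists K
  have hq' : q = 0 ∨ q.Prime := (CharP.char_is_prime_or_zero K q).symm
  let α : (ZMod q)ˣ →* A := π.comp (Units.map (ZMod.castHom (dvd_refl q) K).toMonoidHom)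
  have hα : IsPrimeRes q χ α := by
    intro j u
    have hj : j = ZMod.castHom (dvd_refl q) K := Subsingleton.elim _ _
    rw [hj]
    exact χu (Units.map (ZMod.castHom (dvd_refl q) K).toMonoidHom u)
  have hD := completeness hq' χ α hα
  have hHH : HH χ = ⊤ := by
    rw [eq_top_iff]
    intro x _
    exact (mem_HH_field χ x).mpr (χs _)
  rw [hHH] at hD
  have hα1 : α (-1) = π (-1) := by
    change π (Units.map (ZMod.castHom (dvd_refl q) K).toMonoidHom (-1)) = _
    congr 1
    apply Units.ext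
    simp
  have hε : χ (-1) = ((π (-1) : A) : WithZero A) := by
    have := χu (-1)
    rwa [Units.val_neg, Units.val_one] at this
  obtain ⟨α₀, hα₀, hD₀⟩ : ∃ α₀ : (ZMod 0)ˣ →* A, α₀ (-1) = π (-1) ∧ Der 0 A α₀ ⊤ (NN χ) := by
    rcases hq' with h0 | hp
    · subst h0
      exact ⟨α, hα1, hD⟩
    · let α₀ : (ZMod 0)ˣ →* A := π.comp
        (Units.map (Int.castRingHom K).toMonoidHom : ℤˣ →* Kˣ)
      have h1 : α₀ (-1) = π (-1) := by
        change π ((Units.map (Int.castRingHom K).toMonoidHom : ℤˣ →* Kˣ) (-1)) = _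
        congr 1
        apply Units.ext
        simp
      exact ⟨α₀, h1, Der.red q hp _ α α₀ (h1.trans hα1.symm) ⊤ (NN χ) hD⟩
  refine ⟨A, inferInstance, hfin, β, α₀, NN χ, hD₀, hβi, hβlt, ?_, ?_, ?_⟩
  · intro i hi
    obtain ⟨x, hx⟩ := f2 i hi
    exact ⟨χ x, by rw [hβ, hx]⟩
  · intro x y
    change β (x * y) = (c.2.1.getD (f (s x)) []).getD (f (s y)) 0
    rw [← f4 (s x) (s y)]
    have : x * y = χ (s x * s y) := by rw [map_mul, hs, hs]
    rw [this, hβ]
  · intro x y z
    rw [hα₀, hSum_iff χ χs _ hε]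
    refine (f5 (s x) (s y) (β z) (hβlt z)).trans ?_
    constructor
    · rintro ⟨x', y', h1, h2, h3⟩
      refine ⟨x', y', ?_, ?_, ?_⟩
      · rw [(key _ _).mp h1, hs]
      · rw [(key _ _).mp h2, hs]
      · rw [(key _ _).mp h3, hs]
    · rintro ⟨x', y', h1, h2, h3⟩
      exact ⟨x', y', (key _ _).mpr (by rw [h1, hs]), (key _ _).mpr (by rw [h2, hs]),
        (key _ _).mpr (by rw [h3, hs])⟩

theorem tabOK_of_frozen {c : CoRe.Tab} (hc : CoRe.Real c) : TabOK c := by
  obtain ⟨K, inst, hinf, G, f, f1, f2, f3, f4, f5⟩ := hc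
  refine @tabOK_of_map c K (Kˣ ⧸ G) inst hinf inferInstance (QuotientGroup.mk' G)
    (QuotientGroup.mk'_surjective G) f f1 f2 ?_ f4 f5
  intro x y
  rw [f3]
  apply or_congr Iff.rfl
  constructor
  · rintro ⟨hx, hy, h⟩
    refine ⟨hx, hy, ?_⟩
    rw [QuotientGroup.mk'_apply, QuotientGroup.mk'_apply, eq_comm, QuotientGroup.eq, mul_comm,
      ← div_eq_mul_inv]
    exact h
  · rintro ⟨hx, hy, h⟩
    refine ⟨hx, hy, ?_⟩
    rw [QuotientGroup.mk'_apply, QuotientGroup.mk'_apply, eq_comm, QuotientGroup.eq, mul_comm,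
      ← div_eq_mul_inv] at h
    exact h

theorem frozen_of_tabOK {c : CoRe.Tab} (hc : TabOK c) : CoRe.Real c := by
  classical
  obtain ⟨A, instA, hfin, β, α, N, hD, hβi, hβlt, hβs, hβm, hβa⟩ := hc
  obtain ⟨K, instK, hchar, hinf, χ, hN, hH, hα⟩ := soundness (Or.inl rfl) hD
  have χs : Function.Surjective χ := by
    intro y
    by_cases hy : y = 0
    · exact ⟨0, by rw [map_zero, hy]⟩
    · obtain ⟨q, rfl⟩ := WithZero.ne_zero_iff_exists.mp hy
      have : q ∈ HH χ := by rw [hH]; trivial
      exact (mem_HH_field χ q).mp this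
  have hε : χ (-1) = (α (-1) : WithZero A) := by
    have := hα (Int.castRingHom K) (-1)
    rw [← this]
    congr 1
    change (-1 : K) = Int.castRingHom K (-1)
    simp
  let G : Subgroup Kˣ :=
    { carrier := {u | χ (u : K) = 1}
      mul_mem' := by
        intro u v hu hv
        change χ ((u * v : Kˣ) : K) = 1
        rw [Units.val_mul, map_mul, show χ (u : K) = 1 from hu, show χ (v : K) = 1 from hv,
          one_mul]
      one_mem' := by
        change χ ((1 : Kˣ) : K) = 1
        rw [Units.val_one, map_one]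
      inv_mem' := by
        intro u hu
        change χ ((u⁻¹ : Kˣ) : K) = 1
        rw [Units.val_inv_eq_inv_val, map_inv₀, show χ (u : K) = 1 from hu, inv_one] }
  have hG : ∀ u : Kˣ, u ∈ G ↔ χ (u : K) = 1 := fun u => Iff.rfl
  refine ⟨K, instK, hinf, G, fun x => β (χ x), fun x => hβlt _, ?_, ?_, ?_, ?_⟩
  · intro i hi
    obtain ⟨y, hy⟩ := hβs i hi
    obtain ⟨x, hx⟩ := χs y
    exact ⟨x, by change β (χ x) = i; rw [hx, hy]⟩
  · intro x y
    constructor
    · intro h
      have h' : χ x = χ y := hβi h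
      by_cases hx : x = 0
      · left
        refine ⟨hx, ?_⟩
        rw [hx, map_zero] at h'
        exact (map_eq_zero χ).mp h'.symm
      · right
        have hy : y ≠ 0 := by
          rintro rfl
          rw [map_zero] at h'
          exact hx ((map_eq_zero χ).mp h')
        refine ⟨hx, hy, ?_⟩
        rw [hG, Units.val_div_eq_div_val, Units.val_mk0, Units.val_mk0, map_div₀, h']
        exact div_self ((map_ne_zero χ).mpr hy)
    · rintro (⟨rfl, rfl⟩ | ⟨hx, hy, h⟩)
      · rfl
      · rw [hG, Units.val_div_eq_div_val, Units.val_mk0, Units.val_mk0, map_div₀] at h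
        have h1 : χ y ≠ 0 := (map_ne_zero χ).mpr hy
        have : χ x = χ y := by
          rw [div_eq_one_iff_eq h1] at h
          exact h
        change β (χ x) = β (χ y)
        rw [this]
  · intro x y
    change β (χ (x * y)) = _
    rw [map_mul, hβm]
    rfl
  · intro x y z hz
    obtain ⟨w, rfl⟩ := hβs z hz
    refine (hβa (χ x) (χ y) w).trans ?_
    rw [← hN, hSum_iff χ χs _ hε]
    constructor
    · rintro ⟨x', y', h1, h2, h3⟩
      exact ⟨x', y', congrArg β h1, congrArg β h2, congrArg β h3⟩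
    · rintro ⟨x', y', h1, h2, h3⟩
      exact ⟨x', y', hβi h1, hβi h2, hβi h3⟩

theorem real_iff_tabOK (c : CoRe.Tab) : CoRe.Real c ↔ TabOK c :=
  ⟨tabOK_of_frozen, frozen_of_tabOK⟩

end HypQ
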