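import Pool.Agent.Lib.MP_9f0b3e_al.Defs

/-!
# Characters of a unique factorisation domain lift

The monoid of nonzero elements of a unique factorisation domain is free up to units, so a
character with values in a quotient group lifts to the group, with prescribed values on the units.
-/

set_option autoImplicit false

namespace HypQ

open UniqueFactorizationMonoid

/-- Lifting of characters of a unique factorisation domain. -/
theorem ufd_lift {R : Type*} [CommRing R] [IsDomain R] [UniqueFactorizationMonoid R]
    {Q Q' : Type*} [CommGroup Q] [CommGroup Q'] (q : Q →* Q') (hq : Function.Surjective q)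
    (h : R →*₀ WithZero Q') (hh : NV h) (h₀ : Rˣ →* Q)
    (hh₀ : ∀ u : Rˣ, h u = (q (h₀ u) : WithZero Q')) :
    ∃ h' : R →*₀ WithZero Q, NV h' ∧ (∀ f, WithZero.map' q (h' f) = h f) ∧
      ∀ u : Rˣ, h' u = (h₀ u : WithZero Q) := by
  classical
  let _ : StrongNormalizationMonoid R := UniqueFactorizationMonoid.strongNormalizationMonoid
  -- choice of values on the normalised prime elements
  have hch : ∀ r : R, ∃ x : Q, r ≠ 0 → h r = (q x : WithZero Q') := by
    intro r
    by_cases hr : r = 0
    · exact ⟨1, fun h0 => absurd hr h0⟩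
    · obtain ⟨y, hy⟩ := WithZero.ne_zero_iff_exists.mp (hh r hr)
      obtain ⟨x, hx⟩ := hq y
      exact ⟨x, fun _ => by rw [hx, hy]⟩
  choose v hv using hch
  -- the value on nonzero elements
  let w : R → Q := fun r => (h₀ (normUnit r))⁻¹ * ((normalizedFactors r).map v).prod
  have hw1 : w 1 = 1 := by simp [w]
  have hwm : ∀ a b : R, a ≠ 0 → b ≠ 0 → w (a * b) = w a * w b := by
    intro a b ha hb
    simp only [w]
    rw [normUnit_mul ha hb, normalizedFactors_mul ha hb, map_mul, Multiset.map_add,
      Multiset.prod_add, mul_inv]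
    exact mul_mul_mul_comm _ _ _ _
  have hprod : ∀ s : Multiset R, (∀ r ∈ s, r ≠ 0) →
      h s.prod = (q ((s.map v).prod) : WithZero Q') := by
    intro s
    induction s using Multiset.induction_on with
    | empty => intro _; simp
    | cons a s ih =>
      intro hs
      rw [Multiset.prod_cons, map_mul, Multiset.map_cons, Multiset.prod_cons, map_mul,
        ih (fun r hr => hs r (Multiset.mem_cons_of_mem hr)),
        hv a (hs a (Multiset.mem_cons_self a s)), WithZero.coe_mul]
  have hqw : ∀ r : R, r ≠ 0 → h r = (q (w r) : WithZero Q') := by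
    intro r hr
    have h1 : h (normalizedFactors r).prod =
        (q (((normalizedFactors r).map v).prod) : WithZero Q') :=
      hprod _ (fun x hx => (prime_of_normalized_factor x hx).ne_zero)
    rw [prod_normalizedFactors_eq hr, normalize_apply, map_mul, hh₀] at h1
    have h2 : (q (h₀ (normUnit r)) : WithZero Q') ≠ 0 := WithZero.coe_ne_zero
    simp only [w]
    rw [map_mul, map_inv, WithZero.coe_mul, WithZero.coe_inv, ← h1]
    field_simp
  let h' : R →*₀ WithZero Q :=
    { toFun := fun r => if r = 0 then 0 else (w r : WithZero Q)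
      map_zero' := by simp
      map_one' := by simp [hw1]
      map_mul' := by
        intro a b
        by_cases ha : a = 0
        · simp [ha]
        by_cases hb : b = 0
        · simp [hb]
        rw [if_neg ha, if_neg hb, if_neg (mul_ne_zero ha hb), hwm a b ha hb, WithZero.coe_mul] }
  have h'v : ∀ r : R, r ≠ 0 → h' r = (w r : WithZero Q) := fun r hr => if_neg hr
  refine ⟨h', fun a ha => ?_, fun f => ?_, fun u => ?_⟩
  · rw [h'v a ha]
    exact WithZero.coe_ne_zero
  · by_cases hf : f = 0
    · rw [hf, map_zero, map_zero, map_zero]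
    · rw [h'v f hf, WithZero.map'_coe, hqw f hf]
  · rw [h'v (u : R) u.ne_zero]
    simp only [w]
    rw [normUnit_coe_units, normalizedFactors_of_isUnit u.isUnit]
    simp

/-- The prime ring `ZMod c`, `c = 0` or prime, is a domain with unique factorisation. -/
theorem zmod_isDomain {c : ℕ} (hc : c = 0 ∨ c.Prime) : IsDomain (ZMod c) := by
  rcases hc with rfl | hc
  · exact inferInstanceAs (IsDomain ℤ)
  · haveI := Fact.mk hc
    infer_instance

theorem zmod_ufd {c : ℕ} (hc : c = 0 ∨ c.Prime) :
    haveI := zmod_isDomain hc; UniqueFactorizationMonoid (ZMod c) := by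
  rcases hc with rfl | hc
  · exact inferInstanceAs (UniqueFactorizationMonoid ℤ)
  · haveI := Fact.mk hc
    infer_instance

theorem free_lift {c n : ℕ} (hc : c = 0 ∨ c.Prime) {Q Q' : Type} [CommGroup Q] [CommGroup Q']
    (q : Q →* Q') (hq : Function.Surjective q) (h : UP c n →*₀ WithZero Q') (hh : NV h)
    (h₀ : (ZMod c)ˣ →* Q)
    (hh₀ : ∀ u : (ZMod c)ˣ, h (MvPolynomial.C (u : ZMod c)) = (q (h₀ u) : WithZero Q')) :
    ∃ h' : UP c n →*₀ WithZero Q, NV h' ∧ (∀ f, WithZero.map' q (h' f) = h f) ∧
      ∀ u : (ZMod c)ˣ, h' (MvPolynomial.C (u : ZMod c)) = (h₀ u : WithZero Q) := by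
  haveI := zmod_isDomain hc
  haveI := zmod_ufd hc
  let κ : (UP c n)ˣ →* (ZMod c)ˣ :=
    Units.map (MvPolynomial.constantCoeff (R := ZMod c) (σ := Fin n)).toMonoidHom
  have hκ : ∀ u : (UP c n)ˣ, MvPolynomial.C ((κ u : (ZMod c)ˣ) : ZMod c) = (u : UP c n) := by
    intro u
    obtain ⟨r, _, hr⟩ := MvPolynomial.isUnit_iff_eq_C_of_isReduced.mp u.isUnit
    have : ((κ u : (ZMod c)ˣ) : ZMod c) = MvPolynomial.constantCoeff (u : UP c n) := rfl
    rw [this, hr, MvPolynomial.constantCoeff_C]
  obtain ⟨h', h1, h2, h3⟩ := ufd_lift q hq h hh (h₀.comp κ) (fun u => by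
    rw [← hκ u]; exact hh₀ (κ u))
  refine ⟨h', h1, h2, fun u => ?_⟩
  have h4 := h3 (Units.map (MvPolynomial.C (R := ZMod c) (σ := Fin n)).toMonoidHom u)
  have h5 : κ (Units.map (MvPolynomial.C (R := ZMod c) (σ := Fin n)).toMonoidHom u) = u := by
    apply Units.ext
    change MvPolynomial.constantCoeff (MvPolynomial.C (u : ZMod c)) = (u : ZMod c)
    rw [MvPolynomial.constantCoeff_C]
  rw [MonoidHom.comp_apply, h5] at h4
  exact h4

end HypQ
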