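import Pool.Agent.Lib.MP_9f0b3e_al.Ext

/-!
# The ring `R` is a semilocal Bezout domain and `D` is its Jacobson radical
-/

set_option autoImplicit false

namespace HypQ

open Finset

variable {K L Γ : Type*} [Field K] [Field L] [Algebra K L] [CommGroupWithZero Γ]

/-- `D` as an ideal of `R`. -/
def idealD {ψ : L →*₀ Γ} (hR : RedExt K ψ) : Ideal (ringR hR) where
  carrier := {r | MemD K ψ (r : L)}
  add_mem' := by
    intro a b ha hb
    exact MemD.add hR ha hb
  zero_mem' := memD_zero ψ
  smul_mem' := by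
    intro c x hx
    exact c.2 _ hx

theorem mem_idealD {ψ : L →*₀ Γ} (hR : RedExt K ψ) {r : ringR hR} :
    r ∈ idealD hR ↔ MemD K ψ (r : L) := Iff.rfl

theorem isUnit_of_inv_mem {R : Subring L} {r : R} (h0 : (r : L) ≠ 0) (h : (r : L)⁻¹ ∈ R) :
    IsUnit r := by
  refine ⟨⟨r, ⟨(r : L)⁻¹, h⟩, ?_, ?_⟩, rfl⟩
  · ext; simp [h0]
  · ext; simp [h0]

theorem isUnit_one_add_D {ψ : L →*₀ Γ} (hR : RedExt K ψ) {r : ringR hR} (hr : r ∈ idealD hR) :
    IsUnit (1 + r) := by
  obtain ⟨h0, h1⟩ := MemD.inv_one_add hR hr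
  exact isUnit_of_inv_mem (r := 1 + r) (by simpa using h0) (by simpa using h1)

theorem idealD_le_maximal {ψ : L →*₀ Γ} (hR : RedExt K ψ) (M : Ideal (ringR hR))
    (hM : M.IsMaximal) : idealD hR ≤ M := by
  intro r hr
  by_contra h
  -- `M ⊔ span r = ⊤`
  obtain ⟨s, m, hm, hs⟩ := hM.exists_inv h
  -- s * r + m = 1
  have h1 : -(s * r) ∈ idealD hR := (idealD hR).neg_mem ((idealD hR).mul_mem_left _ hr)
  have h2 := isUnit_one_add_D hR h1
  have h3 : (1 + -(s * r)) = m := by rw [← hs]; ring
  rw [h3] at h2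
  exact hM.ne_top (Ideal.eq_top_of_isUnit_mem _ hm h2)

section

variable {ψ : L →*₀ Γ} (hR : RedExt K ψ) {C : Finset K}
  (hC : ∀ x : L, ∃ c ∈ C, x + algebraMap K L c ≠ 0 ∧ (x + algebraMap K L c)⁻¹ ∈ ringR hR)

include hC

/-- fewer than `#C` maximal ideals. -/
theorem card_maximal_lt : Finite (MaximalSpectrum (ringR hR)) ∧
    Nat.card (MaximalSpectrum (ringR hR)) < C.card := by
  classical
  -- there is no injection from `C` into the maximal spectrum
  have key : ∀ f : C → MaximalSpectrum (ringR hR), ¬ Function.Injective f := by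
    intro f hf
    have hcop : Pairwise (Function.onFun IsCoprime (fun i : C => (f i).asIdeal)) := by
      intro i j hij
      have hne : (f i).asIdeal ≠ (f j).asIdeal := by
        intro h
        exact hij (hf (MaximalSpectrum.ext h))
      have := (f i).isMaximal
      have := (f j).isMaximal
      exact Ideal.isCoprime_of_isMaximal hne
    obtain ⟨r, hr⟩ := Ideal.exists_forall_sub_mem_ideal hcop
      (fun c : C => -(⟨algebraMap K L c, algebraMap_mem_ringR hR _⟩ : ringR hR))
    obtain ⟨c, hc, h0, h1⟩ := hC (r : L)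
    have hu : IsUnit (r + (⟨algebraMap K L c, algebraMap_mem_ringR hR _⟩ : ringR hR)) :=
      isUnit_of_inv_mem (r := r + (⟨algebraMap K L c, algebraMap_mem_ringR hR _⟩ : ringR hR))
        (by simpa using h0) (by simpa using h1)
    have hm := hr ⟨c, hc⟩
    rw [sub_neg_eq_add] at hm
    exact (f ⟨c, hc⟩).isMaximal.ne_top (Ideal.eq_top_of_isUnit_mem _ hm hu)
  have hfin : Finite (MaximalSpectrum (ringR hR)) := by
    by_contra hinf
    rw [not_finite_iff_infinite] at hinf
    obtain ⟨g⟩ := (Infinite.natEmbedding (MaximalSpectrum (ringR hR)) : ℕ ↪ _) |> Nonempty.intro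
    let e : C ↪ ℕ := (Fintype.equivFin C).toEmbedding.trans Fin.valEmbedding
    exact key _ (e.trans g).injective
  refine ⟨hfin, ?_⟩
  by_contra hlt
  push Not at hlt
  have := Fintype.ofFinite (MaximalSpectrum (ringR hR))
  have hle : Fintype.card C ≤ Fintype.card (MaximalSpectrum (ringR hR)) := by
    rw [Fintype.card_coe, ← Nat.card_eq_fintype_card]; exact hlt
  obtain ⟨g⟩ := Function.Embedding.nonempty_of_card_le hle
  exact key g g.injective

/-- Bezout property. -/
theorem bezout (x u : L) (hu : u ≠ 0) : ∃ c : K, x + algebraMap K L c * u ≠ 0 ∧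
    u / (x + algebraMap K L c * u) ∈ ringR hR ∧ x / (x + algebraMap K L c * u) ∈ ringR hR := by
  obtain ⟨c, -, h0, h1⟩ := hC (x / u)
  have e1 : (x / u + algebraMap K L c) = (x + algebraMap K L c * u) / u := by field_simp
  have hg : x + algebraMap K L c * u ≠ 0 := by
    intro h
    rw [e1, h, zero_div] at h0
    exact h0 rfl
  have h2 : u / (x + algebraMap K L c * u) ∈ ringR hR := by
    rw [e1, inv_div] at h1
    exact h1
  refine ⟨c, hg, h2, ?_⟩
  have h3 : x / (x + algebraMap K L c * u)
      = 1 - algebraMap K L c * (u / (x + algebraMap K L c * u)) := by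
    field_simp
    ring
  rw [h3]
  exact (ringR hR).sub_mem (ringR hR).one_mem
    ((ringR hR).mul_mem (algebraMap_mem_ringR hR _) h2)

variable (hP : ∀ u : L, MemD K ψ u → u ≠ 0 → ∃ v : L, v ≠ 0 ∧ MemD K ψ v ∧ MemD K ψ (u / v))

include hP

theorem radicalD (x : L) (hx : x ^ 2 ∈ {u | MemD K ψ u}) : MemD K ψ x := by
  by_cases h0 : x = 0
  · rw [h0]; exact memD_zero ψ
  obtain ⟨v, hv0, hv, hw⟩ := hP (x ^ 2) hx (pow_ne_zero 2 h0)
  obtain ⟨c, hg, hr, hs⟩ := bezout hR hC x v hv0
  set g := x + algebraMap K L c * v with hgdef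
  have h1 : MemD K ψ (x / g * v) := hs _ hv
  have h2 : MemD K ψ (v / g * (x ^ 2 / v)) := hr _ hw
  have h3 : x = v / g * (x ^ 2 / v) + algebraMap K L c * (x / g * v) := by
    field_simp
    rw [hgdef]; ring
  rw [h3]
  exact h2.add hR (h1.smul c)

/-- the prime ideal below a maximal ideal -/
theorem exists_prime (M : Ideal (ringR hR)) (hM : M.IsMaximal) :
    ∃ P : Ideal (ringR hR), P.IsPrime ∧ P ≤ M ∧ idealD hR ≤ P ∧
      ∀ r, r ∈ P ↔ ∃ s, s ∉ M ∧ r * s ∈ idealD hR := by
  have hMp : M.IsPrime := hM.isPrime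
  let P : Ideal (ringR hR) :=
    { carrier := {r | ∃ s, s ∉ M ∧ r * s ∈ idealD hR}
      add_mem' := by
        rintro a b ⟨s, hs, has⟩ ⟨t, ht, hbt⟩
        refine ⟨s * t, fun h => (hMp.mem_or_mem h).elim hs ht, ?_⟩
        have : (a + b) * (s * t) = t * (a * s) + s * (b * t) := by ring
        rw [this]
        exact (idealD hR).add_mem ((idealD hR).mul_mem_left _ has)
          ((idealD hR).mul_mem_left _ hbt)
      zero_mem' := ⟨1, (Ideal.ne_top_iff_one _).mp hM.ne_top, by simp⟩
      smul_mem' := by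
        rintro c x ⟨s, hs, hxs⟩
        refine ⟨s, hs, ?_⟩
        rw [smul_eq_mul, mul_assoc]
        exact (idealD hR).mul_mem_left _ hxs }
  have hPmem : ∀ r, r ∈ P ↔ ∃ s, s ∉ M ∧ r * s ∈ idealD hR := fun r => Iff.rfl
  have hPM : P ≤ M := by
    rintro r ⟨s, hs, hrs⟩
    exact (hMp.mem_or_mem (idealD_le_maximal hR M hM hrs)).resolve_right hs
  refine ⟨P, ?_, hPM, ?_, hPmem⟩
  · refine ⟨fun h => hM.ne_top (top_le_iff.mp (h ▸ hPM)), ?_⟩
    intro a b hab
    obtain ⟨s, hs, habs⟩ := hab
    -- WLOG `b ≠ 0`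
    by_cases hb0 : (b : L) = 0
    · right
      have : b = 0 := Subtype.ext hb0
      rw [this]; exact P.zero_mem
    obtain ⟨c, hg, hb, ha⟩ := bezout hR hC (a : L) (b : L) hb0
    set g : L := a + algebraMap K L c * b with hgdef
    have hgR : g ∈ ringR hR :=
      (ringR hR).add_mem a.2 ((ringR hR).mul_mem (algebraMap_mem_ringR hR _) b.2)
    let a' : ringR hR := ⟨a / g, ha⟩
    let b' : ringR hR := ⟨b / g, hb⟩
    have hsum : a' + (⟨algebraMap K L c, algebraMap_mem_ringR hR _⟩ : ringR hR) * b' = 1 := by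
      ext
      simp only [a', b', Subring.coe_add, Subring.coe_mul, Subring.coe_one]
      rw [hgdef] at hg ⊢
      field_simp
    have hor : a' ∉ M ∨ b' ∉ M := by
      by_contra h
      push Not at h
      apply hM.ne_top
      rw [Ideal.eq_top_iff_one, ← hsum]
      exact M.add_mem h.1 (M.mul_mem_left _ h.2)
    have habs' : MemD K ψ ((a : L) * b * s) := by simpa [mem_idealD] using habs
    rcases hor with h | h
    · right
      refine ⟨a' * s, fun hh => (hMp.mem_or_mem hh).elim h hs, ?_⟩
      rw [mem_idealD]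
      apply radicalD hR hC hP
      have e : ((b * (a' * s) : ringR hR) : L) ^ 2
          = ((b / g : L) * (a / g) * s) * ((a : L) * b * s) * (g / g) := by
        simp only [Subring.coe_mul, a']
        field_simp
      change MemD K ψ _
      rw [e, div_self hg, mul_one]
      exact ((ringR hR).mul_mem ((ringR hR).mul_mem hb ha) s.2) _ habs'
    · left
      refine ⟨b' * s, fun hh => (hMp.mem_or_mem hh).elim h hs, ?_⟩
      rw [mem_idealD]
      apply radicalD hR hC hP
      have e : ((a * (b' * s) : ringR hR) : L) ^ 2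
          = ((b / g : L) * (a / g) * s) * ((a : L) * b * s) * (g / g) := by
        simp only [Subring.coe_mul, b']
        field_simp
      change MemD K ψ _
      rw [e, div_self hg, mul_one]
      exact ((ringR hR).mul_mem ((ringR hR).mul_mem hb ha) s.2) _ habs'
  · intro r hr
    exact ⟨1, (Ideal.ne_top_iff_one _).mp hM.ne_top, by simpa using hr⟩

/-- `D` is the intersection of the maximal ideals of `R`. -/
theorem mem_idealD_iff (r : ringR hR) :
    r ∈ idealD hR ↔ ∀ M : Ideal (ringR hR), M.IsMaximal → r ∈ M := by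
  classical
  refine ⟨fun h M hM => idealD_le_maximal hR M hM h, fun h => ?_⟩
  have hfin := (card_maximal_lt hR hC).1
  have := Fintype.ofFinite (MaximalSpectrum (ringR hR))
  choose P hP1 hP2 hP3 hP4 using fun M : MaximalSpectrum (ringR hR) =>
    exists_prime hR hC hP M.asIdeal M.isMaximal
  -- an element lying in all `P M` is in `D`
  have hall : ∀ x : ringR hR, (∀ M, x ∈ P M) → x ∈ idealD hR := by
    intro x hx
    -- the annihilator ideal
    let J : Ideal (ringR hR) :=
      { carrier := {s | x * s ∈ idealD hR}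
        add_mem' := by
          intro s t hs ht
          change x * (s + t) ∈ idealD hR
          rw [mul_add]; exact (idealD hR).add_mem hs ht
        zero_mem' := by simp
        smul_mem' := by
          intro c s hs
          change x * (c * s) ∈ idealD hR
          rw [mul_left_comm]; exact (idealD hR).mul_mem_left _ hs }
    by_cases hJ : J = ⊤
    · have h1 : (1 : ringR hR) ∈ J := by rw [hJ]; trivial
      have h2 : x * 1 ∈ idealD hR := h1
      rwa [mul_one] at h2
    · exfalso
      obtain ⟨M, hM, hJM⟩ := Ideal.exists_le_maximal J hJ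
      obtain ⟨s, hs, hxs⟩ := (hP4 ⟨M, hM⟩ x).mp (hx ⟨M, hM⟩)
      exact hs (hJM hxs)
  -- all `P M = M`
  have hPM : ∀ M : MaximalSpectrum (ringR hR), P M = M.asIdeal := by
    intro M
    by_contra hne
    -- `M` is contained in no `P N`
    have hnot : ∀ N, ¬ M.asIdeal ≤ P N := by
      intro N hN
      have h1 : M.asIdeal ≤ N.asIdeal := hN.trans (hP2 N)
      have h2 : M.asIdeal = N.asIdeal := M.isMaximal.eq_of_le N.isMaximal.ne_top h1
      have h3 : M = N := MaximalSpectrum.ext h2
      subst h3
      exact hne (le_antisymm (hP2 M) hN)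
    have havoid : ¬ ((M.asIdeal : Set (ringR hR)) ⊆
        ⋃ N ∈ (↑(Finset.univ : Finset (MaximalSpectrum (ringR hR))) : Set _), (P N : Set _)) := by
      rw [Ideal.subset_union_prime M M (fun N _ _ _ => hP1 N)]
      rintro ⟨N, -, hN⟩
      exact hnot N hN
    rw [Set.not_subset] at havoid
    obtain ⟨x, hxM, hx⟩ := havoid
    have hxN : ∀ N, x ∉ P N := by
      intro N hN
      apply hx
      simp only [Set.mem_iUnion]
      exact ⟨N, by simp, hN⟩
    -- `(D : x) = D`
    have hann : ∀ s, x * s ∈ idealD hR → s ∈ idealD hR := by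
      intro s hs
      apply hall
      intro N
      exact ((hP1 N).mem_or_mem (hP3 N hs)).resolve_left (hxN N)
    have hx0 : (x : L) ≠ 0 := by
      intro h0
      have : x = 0 := Subtype.ext h0
      exact hxN M (by rw [this]; exact (P M).zero_mem)
    -- `D = x D`
    have hinv : (x : L)⁻¹ ∈ ringR hR := by
      intro u hu
      by_cases hu0 : u = 0
      · rw [hu0, mul_zero]; exact memD_zero ψ
      obtain ⟨c, hg, hur, hxs⟩ := bezout hR hC (x : L) u hu0
      set g : L := x + algebraMap K L c * u with hgdef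
      let r : ringR hR := ⟨u / g, hur⟩
      let s : ringR hR := ⟨(x : L) / g, hxs⟩
      have h1 : x * r ∈ idealD hR := by
        rw [mem_idealD]
        have e : ((x * r : ringR hR) : L) = (x / g : L) * u := by
          simp only [Subring.coe_mul, r]; field_simp
        rw [e]
        exact hxs _ hu
      have h2 : r ∈ idealD hR := hann r h1
      -- s = 1 - c r is a unit
      have h3 : (-(⟨algebraMap K L c, algebraMap_mem_ringR hR _⟩ : ringR hR) * r) ∈ idealD hR :=
        (idealD hR).mul_mem_left _ h2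
      have h4 := isUnit_one_add_D hR h3
      have h5 : (1 + -(⟨algebraMap K L c, algebraMap_mem_ringR hR _⟩ : ringR hR) * r) = s := by
        ext
        simp only [r, s, Subring.coe_add, Subring.coe_mul, Subring.coe_one, Subring.coe_neg]
        rw [hgdef] at hg ⊢
        field_simp
        ring
      rw [h5] at h4
      obtain ⟨w, hw⟩ := h4
      have h6 : (w⁻¹ : (ringR hR)ˣ).val * s = 1 := by rw [← hw]; exact w.inv_mul
      have h7 : ((w⁻¹ : (ringR hR)ˣ).val : L) * ((x : L) / g) = 1 := by
        have := congrArg (Subtype.val) h6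
        simpa [s] using this
      have h8 : (x : L)⁻¹ * u = ((w⁻¹ : (ringR hR)ˣ).val : L) * (r : L) := by
        simp only [r]
        have hw' : ((w⁻¹ : (ringR hR)ˣ).val : L) = g / (x : L) := by
          field_simp at h7 ⊢
          linear_combination h7
        rw [hw']
        field_simp
      rw [h8]
      exact (idealD hR).mul_mem_left _ h2
    exact M.isMaximal.ne_top (Ideal.eq_top_of_isUnit_mem _ hxM (isUnit_of_inv_mem hx0 hinv))
  apply hall
  intro M
  rw [hPM]
  exact h _ M.isMaximal

end

end HypQ
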