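import Pool.Agent.Lib.MP_9f0b3e_al.Comp

/-!
# The component characters are local; the decomposition theorem for countable fields
-/

set_option autoImplicit false

namespace HypQ

open Finset Filter

noncomputable section

variable {K Γ : Type*} [Field K] [Infinite K] [Countable K] [CommGroupWithZero Γ] [Finite Γ]

section

variable {χ : K →*₀ Γ} (hχ : RedExt K χ)

/-- finitary form: shifts by more than `n` elements of `K`. -/
theorem exists_uniform (C' : Finset K)
    (hcard : Nat.card (MaximalSpectrum (ringR (redExt_ultra hχ))) < C'.card) :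
    ∃ F : Finset K, ∀ x : K, ∃ c ∈ C', x + c ≠ 0 ∧ ∀ a : K, (∀ f ∈ F, χ (1 + f * a) = 1) →
      χ (1 + a / (x + c)) = 1 := by
  classical
  obtain ⟨f, hf⟩ := exists_surjective_nat K
  by_contra h
  push Not at h
  choose x hx using fun n : ℕ => h ((Finset.range (n + 1)).image f)
  obtain ⟨C, hC⟩ := exists_good_shift (redExt_ultra hχ)
  obtain ⟨c, hc, h0, h1⟩ := good_of_card (redExt_ultra hχ) hC C' hcard (ofSeq x)
  rw [algebraMap_UL, ← ofSeq_add, ofSeq_ne_zero] at h0
  -- choose bad elements
  have hbad : ∀ n, ∃ a : K, x n + c ≠ 0 → (∀ g ∈ (Finset.range (n + 1)).image f,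
      χ (1 + g * a) = 1) ∧ χ (1 + a / (x n + c)) ≠ 1 := by
    intro n
    by_cases hn : x n + c ≠ 0
    · obtain ⟨a, ha, ha'⟩ := hx n c hc hn
      exact ⟨a, fun _ => ⟨ha, ha'⟩⟩
    · exact ⟨0, fun h => absurd h hn⟩
  choose a ha using hbad
  have hD : MemD K (ultra χ) (ofSeq a) := by
    rw [memD_ofSeq]
    intro l
    obtain ⟨k, rfl⟩ := hf l
    refine ((ae_ge k).and h0).mono ?_
    rintro n ⟨hn, hn0⟩
    apply (ha n hn0).1
    exact Finset.mem_image_of_mem _ (Finset.mem_range.mpr (Nat.lt_succ_of_le hn))
  have h2 := (h1 _ hD).one_add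
  rw [algebraMap_UL, ← ofSeq_add, ← ofSeq_inv, ← ofSeq_mul, ← ofSeq_one, ← ofSeq_add,
    ultra_ofSeq] at h2
  obtain ⟨n, hn, hn0⟩ := (h2.and h0).exists
  apply (ha n hn0).2
  rw [← hn]
  congr 1
  simp only [Pi.add_apply, Pi.mul_apply, Pi.inv_apply]
  rw [div_eq_mul_inv, mul_comm]

omit [Infinite K] [Countable K] in
/-- transfer of `exists_uniform` to the ultrapower. -/
theorem uniform_transfer {C' : Finset K} {F : Finset K}
    (hF : ∀ x : K, ∃ c ∈ C', x + c ≠ 0 ∧ ∀ a : K, (∀ f ∈ F, χ (1 + f * a) = 1) →
      χ (1 + a / (x + c)) = 1) (y : UL K) :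
    ∃ c ∈ C', y + algebraMap K (UL K) c ≠ 0 ∧ ∀ u : UL K,
      (∀ f ∈ F, ultra χ (1 + algebraMap K (UL K) f * u) = 1) →
      ultra χ (1 + u / (y + algebraMap K (UL K) c)) = 1 := by
  obtain ⟨x, rfl⟩ := ofSeq_surj y
  choose c hc h0 h1 using hF
  obtain ⟨d, hd⟩ := exists_ae_eq (fun n => (⟨c (x n), hc (x n)⟩ : C'))
  refine ⟨d, d.2, ?_, ?_⟩
  · rw [algebraMap_UL, ← ofSeq_add, ofSeq_ne_zero]
    refine hd.mono ?_
    intro n hn
    have := h0 (x n)
    rw [Subtype.ext_iff] at hn
    simp only at hn
    rw [hn] at this
    exact this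
  · intro u hu
    obtain ⟨w, rfl⟩ := ofSeq_surj u
    rw [algebraMap_UL, ← ofSeq_add, ← ofSeq_div, ← ofSeq_one, ← ofSeq_add, ultra_ofSeq]
    have h2 : Ae (fun n => ∀ f ∈ F, χ (1 + f * w n) = 1) := by
      apply ae_forall_finset
      intro f hf
      have := hu f hf
      rw [algebraMap_UL, ← ofSeq_mul, ← ofSeq_one, ← ofSeq_add, ultra_ofSeq] at this
      exact this
    refine (hd.and h2).mono ?_
    rintro n ⟨hn, hn2⟩
    rw [Subtype.ext_iff] at hn
    simp only at hn
    have := h1 (x n) (w n) hn2
    rw [hn] at this
    exact this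

include hχ in
/-- The main technical statement: a nontrivial component is local. -/
theorem compChar_loc (hR : RedExt K (ultra χ)) {C : Finset K}
    (hC : ∀ x : UL K, ∃ c ∈ C, x + algebraMap K (UL K) c ≠ 0 ∧
      (x + algebraMap K (UL K) c)⁻¹ ∈ ringR hR)
    (hP : ∀ u : UL K, MemD K (ultra χ) u → u ≠ 0 →
      ∃ v : UL K, v ≠ 0 ∧ MemD K (ultra χ) v ∧ MemD K (ultra χ) (u / v))
    {e : MaximalSpectrum (ringR hR) → ringR hR}
    (he : Idem hR e) (i : MaximalSpectrum (ringR hR))
    (hnt : ¬ Triv (compChar hR hC hP he i)) :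
    Loc (compChar hR hC hP he i) := by
  classical
  have hfin := (card_maximal_lt hR hC).1
  have := Fintype.ofFinite (MaximalSpectrum (ringR hR))
  set X := compChar hR hC hP he i with hX
  -- distinct shifts
  obtain ⟨s, hs⟩ : ∃ s : MaximalSpectrum (ringR hR) → K, Function.Injective s ∧ s i = 0 ∧
      ∀ j, s j ≠ 1 := by
    have hinf : Infinite {x : K // x ≠ 0 ∧ x ≠ 1} := by
      have : ({0, 1} : Set K)ᶜ.Infinite := Set.Finite.infinite_compl (by simp)
      have h2 : {x : K | x ≠ 0 ∧ x ≠ 1} = ({0, 1} : Set K)ᶜ := by
        ext x; simp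
      rw [← h2] at this
      exact this.to_subtype
    obtain ⟨g⟩ : Nonempty (MaximalSpectrum (ringR hR) ↪ {x : K // x ≠ 0 ∧ x ≠ 1}) := by
      exact ⟨(Fintype.equivFin _).toEmbedding.trans
        (Fin.valEmbedding.trans (Infinite.natEmbedding _))⟩
    refine ⟨fun j => if j = i then 0 else (g j : K), ?_, by simp, ?_⟩
    · intro j k hjk
      simp only at hjk
      by_cases hj : j = i
      · by_cases hk : k = i
        · rw [hj, hk]
        · rw [if_pos hj, if_neg hk] at hjk
          exact absurd hjk.symm (g k).2.1
      · by_cases hk : k = i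
        · rw [if_neg hj, if_pos hk] at hjk
          exact absurd hjk (g j).2.1
        · rw [if_neg hj, if_neg hk] at hjk
          exact g.injective (Subtype.ext hjk)
    · intro j
      simp only
      split_ifs
      · exact zero_ne_one
      · exact (g j).2.2
  obtain ⟨hsinj, hsi, hs1⟩ := hs
  let C' : Finset K := insert 1 (Finset.univ.image s)
  have hcard : Nat.card (MaximalSpectrum (ringR hR)) < C'.card := by
    rw [Finset.card_insert_of_notMem, Finset.card_image_of_injective _ hsinj, Finset.card_univ,
      Nat.card_eq_fintype_card]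
    · omega
    · intro h
      rw [Finset.mem_image] at h
      obtain ⟨j, -, hj⟩ := h
      exact hs1 j hj
  obtain ⟨F, hF⟩ := exists_uniform hχ C' hcard
  -- key claim
  have key : ∀ x c : K, ∀ y : ringR hR, (y - kR hR x ∈ i.asIdeal) →
      ((y : UL K) + algebraMap K (UL K) c ≠ 0) →
      (∀ u : UL K, (∀ f ∈ F, ultra χ (1 + algebraMap K (UL K) f * u) = 1) →
        ultra χ (1 + u / ((y : UL K) + algebraMap K (UL K) c)) = 1) →
      x + c ≠ 0 ∧ ∀ a : K, (∀ f ∈ F, X (1 + f * a) = 1) → X (1 + a / (x + c)) = 1 := by
    intro x c y hy hne hgood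
    let t : ringR hR := y + kR hR c
    have htv : (t : UL K) = (y : UL K) + algebraMap K (UL K) c := rfl
    have hinv : (t : UL K)⁻¹ ∈ ringR hR := by
      apply mem_ringR_of
      intro u hu
      have := hgood u (fun f _ => hu f)
      rw [htv, ← this, div_eq_mul_inv, mul_comm]
    have hne' : (t : UL K) ≠ 0 := hne
    have htsub : t - kR hR (x + c) ∈ i.asIdeal := by
      have : t - kR hR (x + c) = y - kR hR x := by
        simp only [t]; rw [kR_add]; ring
      rw [this]; exact hy
    have hxc : x + c ≠ 0 := by
      intro h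
      rw [h, kR_zero, sub_zero] at htsub
      exact not_mem_of_inv_mem hR hne' hinv i htsub
    refine ⟨hxc, fun a ha => ?_⟩
    let ti : ringR hR := ⟨(t : UL K)⁻¹, hinv⟩
    have htti : t * ti = 1 := by ext; simp [ti, hne']
    -- the element `w`
    let w : ringR hR := 1 + kR hR a * e i * ti
    -- `e i * u` satisfies the hypotheses, also after adding `d t`
    have hmem : ∀ d : UL K, MemD K (ultra χ) d → ultra χ ((w : UL K) + d) = 1 := by
      intro d hd
      have h1 := hgood ((kR hR a * e i : ringR hR) + d * (t : UL K)) ?_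
      · rw [← h1]
        congr 1
        have : (w : UL K) = 1 + ((kR hR a * e i : ringR hR) : UL K) * (t : UL K)⁻¹ := rfl
        rw [this, ← htv]
        field_simp
        ring
      · intro f hf
        have h2 : X (1 + f * a) = 1 := ha f hf
        have h3 : 1 + f * a ≠ 0 := by
          intro h; rw [h, map_zero] at h2; exact zero_ne_one h2
        rw [hX, compChar_apply hR hC hP he i h3] at h2
        have h4 : (lift1 hR e i (1 + f * a) : UL K)
            = 1 + algebraMap K (UL K) f * ((kR hR a * e i : ringR hR) : UL K) := by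
          have : lift1 hR e i (1 + f * a) = 1 + kR hR f * (kR hR a * e i) := by
            unfold lift1
            rw [kR_add, kR_mul, kR_one]
            ring
          rw [this]; rfl
        rw [h4] at h2
        rw [← h2]
        -- unit
        have h5 : ∀ M : MaximalSpectrum (ringR hR), lift1 hR e i (1 + f * a) ∉ M.asIdeal := by
          intro M
          by_cases hiM : i = M
          · subst hiM
            exact notMem_of_sub hR h3 (lift1_sub hR he i _)
          · refine notMem_of_sub hR (one_ne_zero : (1 : K) ≠ 0) ?_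
            rw [kR_one]
            exact lift1_sub_one hR he hiM _
        obtain ⟨h6, h7⟩ := inv_mem_of_forall hR h5
        rw [h4] at h6 h7
        apply psi_congr hR h6 h7
        have h8 : MemD K (ultra χ) (algebraMap K (UL K) f * (d * (t : UL K))) := by
          have h9 : MemD K (ultra χ) ((t : UL K) * d) := t.2 _ hd
          have := h9.smul f
          rwa [mul_comm (t : UL K) d] at this
        convert h8 using 1
        ring
    have hw1 : ultra χ (w : UL K) = 1 := by
      have := hmem 0 (memD_zero _)
      rwa [add_zero] at this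
    have hwi : w - kR hR (1 + a / (x + c)) ∈ i.asIdeal := by
      -- `ti ≡ 1/(x+c)`
      have h1 : ti - kR hR ((x + c)⁻¹) ∈ i.asIdeal := by
        have h2 : ti - kR hR ((x + c)⁻¹) = - (ti * kR hR ((x + c)⁻¹)) * (t - kR hR (x + c)) := by
          have h3 : kR hR ((x + c)⁻¹) * kR hR (x + c) = 1 := by
            rw [← kR_mul, inv_mul_cancel₀ hxc, kR_one]
          linear_combination (kR hR ((x + c)⁻¹)) * htti - ti * h3
        rw [h2]
        exact i.asIdeal.mul_mem_left _ htsub
      have h2 : w - kR hR (1 + a / (x + c))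
          = kR hR a * (e i - 1) * ti + kR hR a * (ti - kR hR ((x + c)⁻¹)) := by
        rw [kR_add, div_eq_mul_inv, kR_mul, kR_one]
        simp only [w]
        ring
      rw [h2]
      refine i.asIdeal.add_mem ?_ (i.asIdeal.mul_mem_left _ h1)
      have h3 : kR hR a * (e i - 1) * ti = kR hR a * ti * (e i - 1) := by ring
      rw [h3]
      exact i.asIdeal.mul_mem_left _ ((he i i).1 rfl)
    have hwj : ∀ j, i ≠ j → w - 1 ∈ j.asIdeal := by
      intro j hij
      have : w - 1 = kR hR a * ti * e i := by simp only [w]; ring
      rw [this]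
      exact j.asIdeal.mul_mem_left _ ((he i j).2 hij)
    by_cases h0 : 1 + a / (x + c) = 0
    · -- contradiction with nontriviality
      exfalso
      unfold Triv at hnt
      push Not at hnt
      obtain ⟨g, hg0, hg⟩ := hnt
      apply hg
      rw [compChar_apply hR hC hP he i hg0]
      have h1 : MemD K (ultra χ) ((w * (lift1 hR e i g - 1) : ringR hR) : UL K) := by
        apply memD_of_forall hR hC hP
        intro M
        by_cases hiM : i = M
        · subst hiM
          rw [h0, kR_zero, sub_zero] at hwi
          exact i.asIdeal.mul_mem_right _ hwi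
        · exact M.asIdeal.mul_mem_left _ (lift1_sub_one hR he hiM g)
      have h2 := hmem _ h1
      have h3 : (w : UL K) + ((w * (lift1 hR e i g - 1) : ringR hR) : UL K)
          = (w : UL K) * (lift1 hR e i g : UL K) := by
        have : w + w * (lift1 hR e i g - 1) = w * lift1 hR e i g := by ring
        have := congrArg Subtype.val this
        simpa using this
      rw [h3, map_mul, hw1, one_mul] at h2
      exact h2
    · rw [hX, compChar_apply hR hC hP he i h0, ← hw1]
      apply psi_eq_of_congr hR hC hP (y := w)
      · intro M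
        by_cases hiM : i = M
        · subst hiM
          exact notMem_of_sub hR h0 hwi
        · refine notMem_of_sub hR (one_ne_zero : (1 : K) ≠ 0) ?_
          rw [kR_one]
          exact hwj M hiM
      · intro M
        by_cases hiM : i = M
        · subst hiM
          have := i.asIdeal.sub_mem (lift1_sub hR he i (1 + a / (x + c))) hwi
          convert this using 1
          ring
        · have := M.asIdeal.sub_mem (lift1_sub_one hR he hiM (1 + a / (x + c))) (hwj M hiM)
          convert this using 1
          ring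
  refine ⟨F, fun x => ?_⟩
  let b : MaximalSpectrum (ringR hR) → K := fun j => if j = i then x else - s j
  let y : ringR hR := comb hR e b
  have hy : ∀ j : MaximalSpectrum (ringR hR), y - kR hR (b j) ∈ j.asIdeal := comb_sub hR he b
  have hyi : y - kR hR x ∈ i.asIdeal := by
    have := hy i
    simpa [b] using this
  obtain ⟨c, hc, hne, hgood⟩ := uniform_transfer hF (y : UL K)
  rw [Finset.mem_insert] at hc
  rcases hc with rfl | hc
  · right
    have := key x 1 y hyi hne hgood
    exact this
  · rw [Finset.mem_image] at hc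
    obtain ⟨j, -, rfl⟩ := hc
    by_cases hj : j = i
    · subst hj
      left
      have := key x (s j) y hyi hne hgood
      rw [hsi, add_zero] at this
      exact this
    · exfalso
      -- `y + s j ∈ j` but is a unit
      have h1 : y + kR hR (s j) ∈ j.asIdeal := by
        have := hy j
        simp only [b, if_neg hj] at this
        rwa [kR_neg, sub_neg_eq_add] at this
      refine not_mem_of_inv_mem hR (y := y + kR hR (s j)) hne ?_ j h1
      apply mem_ringR_of
      intro u hu
      have := hgood u (fun f _ => hu f)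
      rw [← this, div_eq_mul_inv, mul_comm]
      rfl

end

end

end HypQ
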