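import Pool.Agent.Lib.MP_9f0b3e_al.Red

/-!
# Products of data

Two characters of the same field `F` give, through the places `T = 0` and `T = 1` of `F[T]`, a
character of `F(T)` whose pair set is the product of the two pair sets.
-/

set_option autoImplicit false

namespace HypQ

open Pointwise Polynomial

/-- A character of an infinite domain realises its data. -/
theorem real_of_domain {P : Type} [CommRing P] [IsDomain P] [Infinite P] {c : ℕ} [CharP P c]
    {A : Type} [CommGroup A] (ψ : P →*₀ WithZero A) (hψ : NV ψ) (α : (ZMod c)ˣ →* A)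
    (hα : IsPrimeRes c ψ α) : Real c A α (HH ψ) (NN ψ) := by
  obtain ⟨χ, hχ, hN, hH⟩ := frac_char ψ hψ
  have hinj : Function.Injective (algebraMap P (FractionRing P)) := IsFractionRing.injective P _
  refine ⟨FractionRing P, inferInstance, charP_of_injective_algebraMap hinj c,
    Infinite.of_injective _ hinj, χ, hN, hH, ?_⟩
  intro j u
  have hj : j = (algebraMap P (FractionRing P)).comp (ZMod.castHom (dvd_refl c) P) :=
    Subsingleton.elim _ _
  rw [hj, RingHom.comp_apply, hχ]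
  exact hα _ u

/-- The pair set of an infinite realisation contains the tame pairs. -/
theorem tame_subset_of_real {c : ℕ} {A : Type} [CommGroup A] [Finite A] {α : (ZMod c)ˣ →* A}
    {H : Subgroup A} {N : Set (A × A)} (h : Real c A α H N) : tameSet (α (-1)) H ⊆ N := by
  obtain ⟨K, _, _, _, χ, hN, hH, hα'⟩ := h
  have hε : χ (-1) = (α (-1) : WithZero A) := by
    have := hα' (ZMod.castHom (dvd_refl c) K) (-1)
    simpa using this
  rw [← hN, ← hH]
  exact tameSet_subset_NN χ (α (-1)) hε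

theorem isPrimeRes_neg_one {c : ℕ} {K A : Type*} [CommRing K] [CharP K c] [CommGroup A]
    {χ : K →*₀ WithZero A} {α : (ZMod c)ˣ →* A} (h : IsPrimeRes c χ α) :
    χ (-1) = (α (-1) : WithZero A) := by
  have := h (ZMod.castHom (dvd_refl c) K) (-1)
  simpa using this

/-- Evaluation at `r` : `F[T] → F`, with kernel `(T - r)`. -/
theorem eval_char {F A : Type} [Field F] [CommGroup A] (r : F) (χ : F →*₀ WithZero A) (ε : A)
    (hε : χ (-1) = (ε : WithZero A)) (ht : tameSet ε (HH χ) ⊆ NN χ) :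
    ∃ ψ : F[X] →*₀ WithZero A, NV ψ ∧ (∀ a : F[X], a.eval r ≠ 0 → ψ a = χ (a.eval r)) ∧
      HH ψ = HH χ ∧ NN ψ = NN χ := by
  have hf : ∀ b : F[X], Polynomial.evalRingHom r b = 0 ↔ (X - C r) ∣ b := by
    intro b
    rw [Polynomial.coe_evalRingHom, Polynomial.dvd_iff_isRoot, Polynomial.IsRoot.def]
  have hirr : Irreducible (X - C r : F[X]) := Polynomial.irreducible_X_sub_C r
  obtain ⟨ψ, h1, h2, h3, h4, h5⟩ := red_char (Polynomial.evalRingHom r)
    (fun x => ⟨C x, by simp⟩) (X - C r) hirr.ne_zero hf (by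
      intro a ha
      obtain ⟨k, b, hb, hab⟩ := WfDvdMonoid.max_power_factor ha hirr
      exact ⟨k, b, fun h0 => hb ((hf b).1 h0), hab⟩) χ (fun a ha => char_ne_zero χ ha) ε hε
  refine ⟨ψ, h1, h2, h3, le_antisymm ?_ h4⟩
  exact h5.trans (Set.union_subset le_rfl ht)

/-- The product of two characters of the same field. -/
theorem real_prod_field {F A : Type} [Field F] [CommGroup A] {c : ℕ} [CharP F c]
    (χ₁ χ₂ : F →*₀ WithZero A) {α₁ α₂ : (ZMod c)ˣ →* A} (h₁ : IsPrimeRes c χ₁ α₁)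
    (h₂ : IsPrimeRes c χ₂ α₂) (ht₁ : tameSet (α₁ (-1)) (HH χ₁) ⊆ NN χ₁)
    (ht₂ : tameSet (α₂ (-1)) (HH χ₂) ⊆ NN χ₂) :
    Real c A (α₁ * α₂) (HH χ₁ ⊔ HH χ₂) (NN χ₁ * NN χ₂) := by
  obtain ⟨ψ₁, a1, a2, a3, a4⟩ := eval_char 0 χ₁ (α₁ (-1)) (isPrimeRes_neg_one h₁) ht₁
  obtain ⟨ψ₂, b1, b2, b3, b4⟩ := eval_char 1 χ₂ (α₂ (-1)) (isPrimeRes_neg_one h₂) ht₂
  let ψ : F[X] →*₀ WithZero A := ψ₁ * ψ₂
  have hψ : ∀ a, ψ a = ψ₁ a * ψ₂ a := fun a => rfl
  have hNV : NV ψ := fun a ha => by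
    rw [hψ]; exact mul_ne_zero (a1 a ha) (b1 a ha)
  -- the interpolating polynomial
  have hint : ∀ s t : F, s ≠ 0 → t ≠ 0 → ψ (C s + C (t - s) * X) = χ₁ s * χ₂ t := by
    intro s t hs ht
    have e1 : (C s + C (t - s) * X : F[X]).eval 0 = s := by simp
    have e2 : (C s + C (t - s) * X : F[X]).eval 1 = t := by simp
    rw [hψ, a2 _ (by rw [e1]; exact hs), b2 _ (by rw [e2]; exact ht), e1, e2]
  have hHH : HH ψ = HH χ₁ ⊔ HH χ₂ := by
    apply le_antisymm
    · conv_lhs => unfold HH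
      rw [Subgroup.closure_le]
      rintro x ⟨a, ha⟩
      have ha0 : a ≠ 0 := by
        rintro rfl
        rw [map_zero] at ha
        exact WithZero.coe_ne_zero ha.symm
      obtain ⟨x₁, hx₁⟩ := WithZero.ne_zero_iff_exists.mp (a1 a ha0)
      obtain ⟨x₂, hx₂⟩ := WithZero.ne_zero_iff_exists.mp (b1 a ha0)
      rw [hψ, ← hx₁, ← hx₂] at ha
      have hx : x = x₁ * x₂ := by
        have : ((x₁ * x₂ : A) : WithZero A) = x := by rw [← ha]; norm_cast
        exact (WithZero.coe_injective this).symm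
      rw [hx]
      refine Subgroup.mul_mem_sup ?_ ?_
      · rw [← a3]; exact Subgroup.subset_closure ⟨a, hx₁.symm⟩
      · rw [← b3]; exact Subgroup.subset_closure ⟨a, hx₂.symm⟩
    · apply sup_le
      · intro x hx
        obtain ⟨s, hs⟩ := (mem_HH_field χ₁ x).mp hx
        refine Subgroup.subset_closure ⟨C s + C (1 - s) * X, ?_⟩
        rw [hint s 1 (ne_zero_of_coe χ₁ hs) one_ne_zero, hs]
        simp
      · intro x hx
        obtain ⟨s, hs⟩ := (mem_HH_field χ₂ x).mp hx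
        refine Subgroup.subset_closure ⟨C 1 + C (s - 1) * X, ?_⟩
        rw [hint 1 s one_ne_zero (ne_zero_of_coe χ₂ hs), hs]
        simp
  have hNN : NN ψ = NN χ₁ * NN χ₂ := by
    ext ⟨x, y⟩
    constructor
    · rintro ⟨a, b, c', hc, habc, hx, hy⟩
      have ha : a ≠ 0 := by
        rintro rfl
        rw [map_zero] at hx
        exact mul_ne_zero WithZero.coe_ne_zero (hNV c' hc) hx.symm
      have hb : b ≠ 0 := by
        rintro rfl
        rw [map_zero] at hy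
        exact mul_ne_zero WithZero.coe_ne_zero (hNV c' hc) hy.symm
      obtain ⟨u₁, hu₁⟩ := WithZero.ne_zero_iff_exists.mp (a1 a ha)
      obtain ⟨u₂, hu₂⟩ := WithZero.ne_zero_iff_exists.mp (b1 a ha)
      obtain ⟨v₁, hv₁⟩ := WithZero.ne_zero_iff_exists.mp (a1 b hb)
      obtain ⟨v₂, hv₂⟩ := WithZero.ne_zero_iff_exists.mp (b1 b hb)
      obtain ⟨w₁, hw₁⟩ := WithZero.ne_zero_iff_exists.mp (a1 c' hc)
      obtain ⟨w₂, hw₂⟩ := WithZero.ne_zero_iff_exists.mp (b1 c' hc)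
      rw [hψ, hψ, ← hu₁, ← hu₂, ← hw₁, ← hw₂] at hx
      rw [hψ, hψ, ← hv₁, ← hv₂, ← hw₁, ← hw₂] at hy
      have hx' : u₁ * u₂ = x * (w₁ * w₂) := by exact_mod_cast hx
      have hy' : v₁ * v₂ = y * (w₁ * w₂) := by exact_mod_cast hy
      have m₁ : (u₁ * w₁⁻¹, v₁ * w₁⁻¹) ∈ NN χ₁ := by
        rw [← a4]
        refine ⟨a, b, c', hc, habc, ?_, ?_⟩
        · rw [← hu₁, ← hw₁, ← WithZero.coe_mul, inv_mul_cancel_right]
        · rw [← hv₁, ← hw₁, ← WithZero.coe_mul, inv_mul_cancel_right]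
      have m₂ : (u₂ * w₂⁻¹, v₂ * w₂⁻¹) ∈ NN χ₂ := by
        rw [← b4]
        refine ⟨a, b, c', hc, habc, ?_, ?_⟩
        · rw [← hu₂, ← hw₂, ← WithZero.coe_mul, inv_mul_cancel_right]
        · rw [← hv₂, ← hw₂, ← WithZero.coe_mul, inv_mul_cancel_right]
      refine Set.mem_mul.2 ⟨_, m₁, _, m₂, ?_⟩
      rw [Prod.mk_mul_mk]
      congr 1
      · rw [mul_mul_mul_comm, hx', ← mul_inv, mul_inv_cancel_right]
      · rw [mul_mul_mul_comm, hy', ← mul_inv, mul_inv_cancel_right]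
    · rintro ⟨⟨x₁, y₁⟩, m₁, ⟨x₂, y₂⟩, m₂, h⟩
      obtain ⟨s₁, t₁, e₁, p₁, q₁⟩ := (mem_NN_field χ₁ x₁ y₁).mp m₁
      obtain ⟨s₂, t₂, e₂, p₂, q₂⟩ := (mem_NN_field χ₂ x₂ y₂).mp m₂
      have hxy : x = x₁ * x₂ ∧ y = y₁ * y₂ := by
        have h' : ((x₁ * x₂, y₁ * y₂) : A × A) = (x, y) := h
        rw [Prod.mk.injEq] at h'
        exact ⟨h'.1.symm, h'.2.symm⟩
      refine ⟨C s₁ + C (s₂ - s₁) * X, C t₁ + C (t₂ - t₁) * X, 1, one_ne_zero, ?_, ?_, ?_⟩
      · have f₁ : t₁ = 1 - s₁ := by linear_combination e₁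
        have f₂ : t₂ = 1 - s₂ := by linear_combination e₂
        rw [f₁, f₂]
        simp only [C_sub, C_1]
        ring
      · rw [hint _ _ (ne_zero_of_coe χ₁ p₁) (ne_zero_of_coe χ₂ p₂), p₁, p₂, map_one, mul_one, hxy.1]
        norm_cast
      · rw [hint _ _ (ne_zero_of_coe χ₁ q₁) (ne_zero_of_coe χ₂ q₂), q₁, q₂, map_one, mul_one, hxy.2]
        norm_cast
  rw [← hNN, ← hHH]
  refine real_of_domain ψ hNV (α₁ * α₂) ?_
  intro j u
  have k : ∀ r : F, (j (u : ZMod c)).eval r ≠ 0 := by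
    intro r
    have : IsUnit ((Polynomial.evalRingHom r).comp j (u : ZMod c)) :=
      u.isUnit.map ((Polynomial.evalRingHom r).comp j)
    exact this.ne_zero
  rw [hψ, a2 _ (k 0), b2 _ (k 1)]
  have g₁ := h₁ ((Polynomial.evalRingHom 0).comp j) u
  have g₂ := h₂ ((Polynomial.evalRingHom 1).comp j) u
  rw [RingHom.comp_apply, Polynomial.coe_evalRingHom] at g₁ g₂
  rw [g₁, g₂, MonoidHom.mul_apply, WithZero.coe_mul]

/-- The product of two data that are realised over the same universal domain. -/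
theorem real_prod_of_univ {A : Type} [CommGroup A] [Finite A] {c : ℕ} (hc : c = 0 ∨ c.Prime)
    {α₁ α₂ : (ZMod c)ˣ →* A} {H₁ H₂ : Subgroup A} {N₁ N₂ : Set (A × A)}
    (h₁ : Real c A α₁ H₁ N₁) (h₂ : Real c A α₂ H₂ N₂)
    (hU : ∃ n : ℕ, RealU c n A α₁ H₁ N₁ ∧ RealU c n A α₂ H₂ N₂) :
    Real c A (α₁ * α₂) (H₁ ⊔ H₂) (N₁ * N₂) := by
  have hdom : IsDomain (ZMod c) := by
    rcases hc with rfl | hc
    · exact inferInstanceAs (IsDomain ℤ)
    · have := Fact.mk hc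
      infer_instance
  obtain ⟨n, ⟨ψ₁, a1, a2, a3, a4⟩, ⟨ψ₂, b1, b2, b3, b4⟩⟩ := hU
  obtain ⟨χ₁, c1, c2, c3⟩ := frac_char ψ₁ a1
  obtain ⟨χ₂, d1, d2, d3⟩ := frac_char ψ₂ b1
  have hinj : Function.Injective (algebraMap (UP c n) (FractionRing (UP c n))) :=
    IsFractionRing.injective _ _
  have hchar : CharP (FractionRing (UP c n)) c := charP_of_injective_algebraMap hinj c
  have hres : ∀ (ψ : UP c n →*₀ WithZero A) (χ : FractionRing (UP c n) →*₀ WithZero A)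
      (α : (ZMod c)ˣ →* A), (∀ a, χ (algebraMap _ _ a) = ψ a) → IsPrimeRes c ψ α →
      IsPrimeRes c χ α := by
    intro ψ χ α h1 h2 j u
    have hj : j = (algebraMap (UP c n) (FractionRing (UP c n))).comp (MvPolynomial.C) :=
      Subsingleton.elim _ _
    rw [hj, RingHom.comp_apply, h1]
    exact h2 _ u
  have := real_prod_field χ₁ χ₂ (hres ψ₁ χ₁ α₁ c1 a4) (hres ψ₂ χ₂ α₂ d1 b4)
    (by rw [c2, c3, a2, a3]; exact tame_subset_of_real h₁)
    (by rw [d2, d3, b2, b3]; exact tame_subset_of_real h₂)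
  rwa [c2, c3, d2, d3, a2, a3, b2, b3] at this

end HypQ
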