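import Pool.Agent.Lib.MP_9f0b3e_al.ReCompl

/-!
# `TabOK` is recursively enumerable
-/

set_option autoImplicit false

namespace HypQ

namespace RE

open CoRe Pointwise

section grp

variable {g : Ctx}

/-- the group of the valid codes -/
def GT (g : Ctx) : Type := {x : ℕ // x < nn g ∧ ¬ x = g.2.1}

theorem enc_of_grpOK (hg : GrpOK g) : ∃ (A : Type) (_ : CommGroup A) (β : A → ℕ), Enc g A β := by
  obtain ⟨h1, h2, h3, h4, h5⟩ := hg
  have hall : ∀ {P : ℕ → Prop}, AllV g P → ∀ x : GT g, P x.1 :=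
    fun hP x => hP _ x.2.1 x.2.2
  have g1 : ∀ x : GT g, mm g g.2.2 x.1 = x.1 := fun x => (hall h5 x).1
  have g2 : ∀ x : GT g, ∃ y : GT g, mm g y.1 x.1 = g.2.2 := by
    intro x
    obtain ⟨y, hy, hy2, hy3⟩ := (hall h5 x).2.1
    exact ⟨⟨y, hy, hy2⟩, hy3⟩
  have g3 : ∀ x y : GT g, mm g x.1 y.1 < nn g ∧ ¬ mm g x.1 y.1 = g.2.1 :=
    fun x y => (hall (hall h5 x).2.2 y).1
  have g4 : ∀ x y : GT g, mm g x.1 y.1 = mm g y.1 x.1 :=
    fun x y => (hall (hall h5 x).2.2 y).2.1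
  have g5 : ∀ x y z : GT g, mm g (mm g x.1 y.1) z.1 = mm g x.1 (mm g y.1 z.1) :=
    fun x y z => hall (hall (hall h5 x).2.2 y).2.2 z
  choose iv hiv using g2
  let _ : Mul (GT g) := ⟨fun x y => ⟨mm g x.1 y.1, g3 x y⟩⟩
  let _ : One (GT g) := ⟨⟨g.2.2, h2, h3⟩⟩
  let _ : Inv (GT g) := ⟨iv⟩
  let G₀ : Group (GT g) := Group.ofLeftAxioms
    (fun x y z => Subtype.ext (g5 x y z))
    (fun x => Subtype.ext (g1 x))
    (fun x => Subtype.ext (hiv x))
  let G₁ : CommGroup (GT g) := { G₀ with mul_comm := fun x y => Subtype.ext (g4 x y) }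
  refine ⟨GT g, G₁, fun x => x.1, ?_⟩
  exact
    { inj := fun a b hab => Subtype.ext hab
      lt := fun a => a.2.1
      ne := fun a => a.2.2
      surj := fun x hx hx' => ⟨⟨x, hx, hx'⟩, rfl⟩
      mul := fun a b => rfl
      one := rfl }

theorem grpOK_of_enc {A : Type} [CommGroup A] {β : A → ℕ} (h : Enc g A β) (ho : g.2.1 < nn g)
    (h0 : ∀ x < nn g, mm g x g.2.1 = g.2.1 ∧ mm g g.2.1 x = g.2.1) : GrpOK g := by
  unfold GrpOK
  refine ⟨ho, ?_, ?_, h0, ?_⟩
  · rw [h.one]; exact h.lt _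
  · rw [h.one]; exact h.ne _
  · simp only [h.AllV_iff, h.ExV_iff, h.mul, h.one, h.inj.eq_iff]
    intro a
    refine ⟨one_mul a, ⟨a⁻¹, inv_mul_cancel a⟩, ?_⟩
    intro b
    exact ⟨⟨h.lt _, h.ne _⟩, mul_comm a b, fun d => mul_assoc a b d⟩

end grp

/-- from a certificate to a derivable table -/
theorem tabOK_of_cert {c : Tab} {x : ℕ × ℕ × List Entry} (hx : Cert c x) : TabOK c := by
  classical
  obtain ⟨o, i, l⟩ := x
  obtain ⟨hg, hl, ⟨w, ch, S, al, Hl, Nl⟩, he, hf⟩ := hx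
  replace hg : GrpOK (c, o, i) := hg
  replace hl : Valid (c, o, i) l := hl
  obtain ⟨A, _, β, h⟩ := enc_of_grpOK hg
  have hcard := h.card_lt hg.1
  have hfin := h.finite
  obtain ⟨hc, B, _, q, α, H, N, hq, hN, hD⟩ := sem_of_valid h hcard hl _ he
  obtain ⟨h1, h2, h3, h4⟩ := hf
  replace h1 : ch = 0 := h1
  subst h1
  replace h2 : AllV (c, o, i) (fun x => x ∈ S → x = i) := h2
  replace h3 : AllV (c, o, i) (fun x => x ∈ Hl) := h3
  have hi : i = β 1 := h.one
  rw [h.AllV_iff] at h2 h3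
  have hker : ∀ a, q a = 1 → a = 1 := by
    intro a ha
    have := h2 a ((hq.ker a).mpr ha)
    rw [hi] at this
    exact h.inj this
  obtain ⟨ψ, hψ⟩ := exists_factor q (MonoidHom.id A) hq.surj (fun a ha => hker a ha)
  replace hψ : ∀ a, ψ (q a) = a := hψ
  have hψ2 : ∀ b, q (ψ b) = b := by
    intro b
    obtain ⟨a, rfl⟩ := hq.surj b
    rw [hψ]
  have hD' : Der 0 A (ψ.comp α) (H.comap q) {p | (q p.1, q p.2) ∈ N} := by
    refine Der.lift 0 A B q hq.surj (ψ.comp α) H N ?_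
    have h5 : q.comp (ψ.comp α) = α := by ext u; exact hψ2 _
    rw [h5]; exact hD
  have hH : H.comap q = ⊤ := by
    rw [eq_top_iff]
    intro a _
    exact (hN.H a).mp (h3 a)
  rw [hH] at hD'
  let β₀ : WithZero A → ℕ := fun x => Option.elim x o β
  have b0 : β₀ 0 = o := rfl
  have b1 : ∀ a : A, β₀ (a : WithZero A) = β a := fun a => rfl
  have hne : ∀ a : A, β a ≠ o := fun a => h.ne a
  have h0 := hg.2.2.2.1
  have hcase : ∀ x : WithZero A, x = 0 ∨ ∃ a : A, x = (a : WithZero A) := by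
    intro x
    by_cases hx : x = 0
    · exact Or.inl hx
    · exact Or.inr ⟨WithZero.unzero hx, (WithZero.coe_unzero hx).symm⟩
  have hb : ∀ x, β₀ x < c.1 := by
    intro x
    rcases hcase x with rfl | ⟨a, rfl⟩
    · exact hg.1
    · exact h.lt a
  have hz : ∀ x, β₀ x = o ↔ x = 0 := by
    intro x
    rcases hcase x with rfl | ⟨a, rfl⟩
    · simp [b0]
    · rw [b1]
      constructor
      · intro h5; exact absurd h5 (hne a)
      · intro h5; exact absurd h5 WithZero.coe_ne_zero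
  refine ⟨A, inferInstance, hfin, β₀, ψ.comp α, {p | (q p.1, q p.2) ∈ N}, hD', ?_, hb, ?_, ?_, ?_⟩
  · intro x y hxy
    rcases hcase x with rfl | ⟨a, rfl⟩ <;> rcases hcase y with rfl | ⟨b, rfl⟩
    · rfl
    · exact absurd hxy.symm (hne b)
    · exact absurd hxy (hne a)
    · rw [b1, b1] at hxy; rw [h.inj hxy]
  · intro k hk
    by_cases hko : k = o
    · exact ⟨0, hko.symm⟩
    · obtain ⟨a, ha⟩ := h.surj k hk hko
      exact ⟨(a : WithZero A), ha⟩
  · intro x y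
    rcases hcase x with rfl | ⟨a, rfl⟩
    · rw [zero_mul]
      exact ((h0 _ (hb y)).2).symm
    · rcases hcase y with rfl | ⟨b, rfl⟩
      · rw [mul_zero]
        exact ((h0 _ (hb _)).1).symm
      · rw [← WithZero.coe_mul, b1, b1, b1]
        exact (h.mul a b).symm
  · intro x y z
    have h5 := h4 (β₀ x) (hb x) (β₀ y) (hb y) (β₀ z) (hb z)
    rw [h5]
    unfold HSumC HSum
    show ((β₀ x = o ∧ β₀ z = β₀ y) ∨ (β₀ y = o ∧ β₀ z = β₀ x) ∨
      (¬ β₀ x = o ∧ ¬ β₀ y = o ∧ β₀ z = o ∧ β₀ y = mm (c, o, i) (al.getD 0 0) (β₀ x)) ∨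
      (¬ β₀ x = o ∧ ¬ β₀ y = o ∧ ¬ β₀ z = o ∧ ExV (c, o, i) (fun a => ExV (c, o, i) (fun b =>
        mm (c, o, i) a (β₀ z) = β₀ x ∧ mm (c, o, i) b (β₀ z) = β₀ y ∧ (a, b) ∈ Nl)))) ↔ _
    obtain ⟨e, he1, he2⟩ := hq.al (-1)
    rw [key_neg_one (Or.inl rfl)] at he1
    replace he1 : al.getD 0 0 = β e := he1
    have he3 : (ψ.comp α) (-1) = e := by
      rw [MonoidHom.comp_apply, ← he2, hψ]
    rw [he3, he1]
    simp only [hz, h.ExV_iff]
    have hinj : ∀ x y : WithZero A, β₀ x = β₀ y ↔ x = y := by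
      intro x y
      constructor
      · intro hxy
        rcases hcase x with rfl | ⟨a, rfl⟩ <;> rcases hcase y with rfl | ⟨b, rfl⟩
        · rfl
        · exact absurd hxy.symm (hne b)
        · exact absurd hxy (hne a)
        · rw [b1, b1] at hxy; rw [h.inj hxy]
      · intro hxy; rw [hxy]
    refine or_congr ?_ (or_congr ?_ (or_congr ?_ ?_))
    · rw [hinj]
    · rw [hinj]
    · constructor
      · rintro ⟨hx, hy, hz', h6⟩
        obtain ⟨a, rfl⟩ := (hcase x).resolve_left hx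
        rw [b1, h.mul, ← b1, hinj] at h6
        exact ⟨a, rfl, h6, hz'⟩
      · rintro ⟨a, rfl, rfl, hz'⟩
        refine ⟨WithZero.coe_ne_zero, WithZero.coe_ne_zero, hz', ?_⟩
        rw [b1, b1, h.mul]
    · constructor
      · rintro ⟨hx, hy, hz', a, b, h6, h7, h8⟩
        obtain ⟨a', rfl⟩ := (hcase x).resolve_left hx
        obtain ⟨b', rfl⟩ := (hcase y).resolve_left hy
        obtain ⟨d', rfl⟩ := (hcase z).resolve_left hz'
        rw [b1, b1, h.mul, h.inj.eq_iff] at h6 h7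
        refine ⟨a', b', d', rfl, rfl, rfl, ?_⟩
        rw [← h6, ← h7, mul_div_cancel_right, mul_div_cancel_right]
        exact (hN.N a b).mp h8
      · rintro ⟨a, b, d, rfl, rfl, rfl, h6⟩
        refine ⟨WithZero.coe_ne_zero, WithZero.coe_ne_zero, WithZero.coe_ne_zero, a / d, b / d,
          ?_, ?_, ?_⟩
        · rw [b1, b1, h.mul, div_mul_cancel]
        · rw [b1, b1, h.mul, div_mul_cancel]
        · rw [hN.N]; exact h6

/-- from a derivable table to a certificate -/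
theorem cert_of_tabOK {c : Tab} (hc : TabOK c) : ∃ x, Cert c x := by
  obtain ⟨A, _, hfin, β₀, α, N, hD, hinj, hlt, hsurj, hmul, hadd⟩ := hc
  let o : ℕ := β₀ 0
  let i : ℕ := β₀ ((1 : A) : WithZero A)
  let β : A → ℕ := fun a => β₀ (a : WithZero A)
  have h : Enc (c, o, i) A β :=
    { inj := fun a b hab => WithZero.coe_injective (hinj hab)
      lt := fun a => hlt _
      ne := fun a hab => WithZero.coe_ne_zero (hinj hab)
      surj := by
        intro x hx hx'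
        obtain ⟨y, rfl⟩ := hsurj x hx
        have hy : y ≠ 0 := by
          rintro rfl
          exact hx' rfl
        refine ⟨WithZero.unzero hy, ?_⟩
        show β₀ _ = β₀ y
        rw [WithZero.coe_unzero]
      mul := by
        intro a b
        show mulT c (β₀ a) (β₀ b) = β₀ _
        rw [← hmul, WithZero.coe_mul]
      one := rfl }
  have ho : o < nn (c, o, i) := hlt 0
  have hcard := h.card_lt ho
  have hg : GrpOK (c, o, i) := by
    refine grpOK_of_enc h ho ?_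
    intro x hx
    obtain ⟨y, rfl⟩ := hsurj x hx
    constructor
    · show mulT c (β₀ y) (β₀ 0) = β₀ 0
      rw [← hmul, mul_zero]
    · show mulT c (β₀ 0) (β₀ y) = β₀ 0
      rw [← hmul, zero_mul]
  obtain ⟨S, al, hq⟩ := exists_code0 h.inj (Or.inl rfl) (MonoidHom.id A)
    (fun a => ⟨a, rfl⟩) α
  obtain ⟨Hl, Nl, hN⟩ := exists_codeHN h.inj (MonoidHom.id A) ⊤ N
  obtain ⟨w, l, hv⟩ := exists_valid h hcard hD (MonoidHom.id A) S al Hl Nl hq hN
  refine ⟨(o, i, (w, (0, S, al, Hl, Nl)) :: l), hg, hv, _, List.mem_cons_self, ?_⟩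
  unfold finC
  refine ⟨rfl, ?_, ?_, ?_⟩
  · show AllV (c, o, i) (fun x => x ∈ S → x = i)
    rw [h.AllV_iff]
    intro a ha
    rw [hq.ker] at ha
    replace ha : a = 1 := ha
    rw [ha]
  · show AllV (c, o, i) (fun x => x ∈ Hl)
    rw [h.AllV_iff]
    intro a
    rw [hN.H]
    exact Subgroup.mem_top _
  · intro x hx y hy z hz
    obtain ⟨x, rfl⟩ := hsurj x hx
    obtain ⟨y, rfl⟩ := hsurj y hy
    obtain ⟨z, rfl⟩ := hsurj z hz
    show β₀ z ∈ addT c (β₀ x) (β₀ y) ↔ _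
    rw [hadd]
    have hzo : ∀ x, β₀ x = o ↔ x = 0 := fun x => hinj.eq_iff
    unfold HSumC HSum
    show _ ↔ ((β₀ x = o ∧ β₀ z = β₀ y) ∨ (β₀ y = o ∧ β₀ z = β₀ x) ∨
      (¬ β₀ x = o ∧ ¬ β₀ y = o ∧ β₀ z = o ∧ β₀ y = mm (c, o, i) (al.getD 0 0) (β₀ x)) ∨
      (¬ β₀ x = o ∧ ¬ β₀ y = o ∧ ¬ β₀ z = o ∧ ExV (c, o, i) (fun a => ExV (c, o, i) (fun b =>
        mm (c, o, i) a (β₀ z) = β₀ x ∧ mm (c, o, i) b (β₀ z) = β₀ y ∧ (a, b) ∈ Nl))))
    obtain ⟨e, he1, he2⟩ := hq.al (-1)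
    rw [key_neg_one (Or.inl rfl)] at he1
    replace he1 : al.getD 0 0 = β e := he1
    replace he2 : e = α (-1) := he2
    rw [← he2, he1]
    simp only [hzo, h.ExV_iff, hinj.eq_iff]
    have hcase : ∀ x : WithZero A, x = 0 ∨ ∃ a : A, x = (a : WithZero A) := by
      intro x
      by_cases hx : x = 0
      · exact Or.inl hx
      · exact Or.inr ⟨WithZero.unzero hx, (WithZero.coe_unzero hx).symm⟩
    have b1 : ∀ a : A, β₀ (a : WithZero A) = β a := fun a => rfl
    refine or_congr Iff.rfl (or_congr Iff.rfl (or_congr ?_ ?_))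
    · constructor
      · rintro ⟨a, rfl, rfl, hz'⟩
        refine ⟨WithZero.coe_ne_zero, WithZero.coe_ne_zero, hz', ?_⟩
        rw [b1, b1, h.mul]
      · rintro ⟨hx, hy, hz', h6⟩
        obtain ⟨a, rfl⟩ := (hcase x).resolve_left hx
        rw [b1, h.mul, ← b1, hinj.eq_iff] at h6
        exact ⟨a, rfl, h6, hz'⟩
    · constructor
      · rintro ⟨a, b, d, rfl, rfl, rfl, h6⟩
        refine ⟨WithZero.coe_ne_zero, WithZero.coe_ne_zero, WithZero.coe_ne_zero, a / d, b / d,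
          ?_, ?_, ?_⟩
        · rw [b1, b1, h.mul, div_mul_cancel]
        · rw [b1, b1, h.mul, div_mul_cancel]
        · rw [hN.N]; exact h6
      · rintro ⟨hx, hy, hz', a, b, h6, h7, h8⟩
        obtain ⟨a', rfl⟩ := (hcase x).resolve_left hx
        obtain ⟨b', rfl⟩ := (hcase y).resolve_left hy
        obtain ⟨d', rfl⟩ := (hcase z).resolve_left hz'
        rw [b1, b1, h.mul, h.inj.eq_iff] at h6 h7
        refine ⟨a', b', d', rfl, rfl, rfl, ?_⟩
        rw [← h6, ← h7, mul_div_cancel_right, mul_div_cancel_right]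
        exact (hN.N a b).mp h8

end RE

/-- **Derivable tables are recursively enumerable.** -/
theorem re_tabOK : REPred TabOK := by
  refine RE.re_cert.of_eq ?_
  intro c
  exact ⟨fun ⟨_, hx⟩ => RE.tabOK_of_cert hx, RE.cert_of_tabOK⟩

/-- Decidability of the frozen predicate, given that it is `TabOK`. -/
theorem computable_real (h : ∀ c, CoRe.Real c ↔ TabOK c) : ComputablePred CoRe.Real :=
  CoRe.computable_of_re (re_tabOK.of_eq (fun c => (h c).symm))

end HypQ
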