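import Pool.Agent.Lib.MP_9f0b3e_al.ReSound

/-!
# Derivations can be coded
-/

set_option autoImplicit false

namespace HypQ

namespace RE

open CoRe Pointwise

theorem Der.char {c : ℕ} {A : Type} [CommGroup A] {α : (ZMod c)ˣ →* A} {H : Subgroup A}
    {N : Set (A × A)} (h : Der c A α H N) : c = 0 ∨ c.Prime := by
  induction h with
  | triv c hc A => exact hc
  | sign A α => exact Or.inl rfl
  | prod c A α₁ α₂ H₁ H₂ N₁ N₂ h₁ h₂ ih₁ ih₂ => exact ih₁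
  | lift c A A' φ hφ α H' N' h ih => exact ih
  | tame c A α H N g h ih => exact ih
  | red p hp A α α₀ hα H N h ih => exact Or.inl rfl
  | fin c hc A R π hR j X g => exact hc
  | wild c p hp A A' φ hφ α α' H' N' g B e M hc hB h ih =>
    rcases hc with hc | hc
    · exact Or.inl hc.1
    · rw [hc.1]; exact Or.inr hp

section compl

variable {g : Ctx} {A : Type} [CommGroup A] {β : A → ℕ}

theorem key_inj {ch : ℕ} {u v : (ZMod ch)ˣ} (huv : key ch u = key ch v) : u = v := by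
  by_cases hc : ch = 0
  · subst hc
    rcases key_zero u with ⟨h1, h2⟩ | ⟨h1, h2⟩ <;> rcases key_zero v with ⟨h3, h4⟩ | ⟨h3, h4⟩
    · rw [h1, h3]
    · rw [h2, h4] at huv; exact absurd huv (by norm_num)
    · rw [h2, h4] at huv; exact absurd huv (by norm_num)
    · rw [h1, h3]
  · rw [key_pos hc, key_pos hc] at huv
    have : NeZero ch := ⟨hc⟩
    exact Units.ext (ZMod.val_injective ch huv)

omit [CommGroup A] in
theorem exists_codeSet [Finite A] (hβ : Function.Injective β) (P : A → Prop) :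
    ∃ l : List ℕ, ∀ a, β a ∈ l ↔ P a := by
  classical
  have : Fintype A := Fintype.ofFinite A
  refine ⟨((Finset.univ.filter P).image β).toList, ?_⟩
  intro a
  rw [Finset.mem_toList, Finset.mem_image]
  constructor
  · rintro ⟨b, hb, hab⟩
    rw [← hβ hab]
    exact (Finset.mem_filter.mp hb).2
  · intro ha
    exact ⟨a, Finset.mem_filter.mpr ⟨Finset.mem_univ _, ha⟩, rfl⟩

omit [CommGroup A] in
theorem exists_codeRel [Finite A] (hβ : Function.Injective β) (P : A → A → Prop) :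
    ∃ l : List (ℕ × ℕ), ∀ a b, (β a, β b) ∈ l ↔ P a b := by
  classical
  have : Fintype A := Fintype.ofFinite A
  refine ⟨((Finset.univ.filter (fun p : A × A => P p.1 p.2)).image
    (fun p => (β p.1, β p.2))).toList, ?_⟩
  intro a b
  rw [Finset.mem_toList, Finset.mem_image]
  constructor
  · rintro ⟨p, hp, hab⟩
    rw [Prod.mk.injEq] at hab
    rw [← hβ hab.1, ← hβ hab.2]
    exact (Finset.mem_filter.mp hp).2
  · intro ha
    exact ⟨(a, b), Finset.mem_filter.mpr ⟨Finset.mem_univ _, ha⟩, rfl⟩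

theorem exists_code0 [Finite A] (hβ : Function.Injective β) {B : Type} [CommGroup B] {c : ℕ}
    (hc : c = 0 ∨ c.Prime) (q : A →* B) (hq : Function.Surjective q) (α : (ZMod c)ˣ →* B) :
    ∃ S al : List ℕ, Cod0 β c S al q α := by
  classical
  obtain ⟨S, hS⟩ := exists_codeSet hβ (fun a => q a = 1)
  obtain ⟨al, hal⟩ := exists_list (c + 2) (fun k => if hk : ∃ u : (ZMod c)ˣ, key c u = k then
    β (Classical.choose (hq (α (Classical.choose hk)))) else 0)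
  refine ⟨S, al, hq, hS, ?_⟩
  intro u
  have hk : ∃ v : (ZMod c)ˣ, key c v = key c u := ⟨u, rfl⟩
  have h1 := hal (key c u) (key_lt (isKey_key hc u))
  rw [dif_pos hk] at h1
  refine ⟨_, h1, ?_⟩
  rw [Classical.choose_spec (hq (α (Classical.choose hk))), key_inj (Classical.choose_spec hk)]

theorem exists_codeHN [Finite A] (hβ : Function.Injective β) {B : Type} [CommGroup B]
    (q : A →* B) (H : Subgroup B) (N : Set (B × B)) :
    ∃ (Hl : List ℕ) (Nl : List (ℕ × ℕ)), CodHN β Hl Nl q H N := by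
  obtain ⟨Hl, hH⟩ := exists_codeSet hβ (fun a => q a ∈ H)
  obtain ⟨Nl, hN⟩ := exists_codeRel hβ (fun a b => (q a, q b) ∈ N)
  exact ⟨Hl, Nl, hH, hN⟩

/-- dummy ring code -/
def r0 : RC := (0, [], [], 0, 0)

theorem exists_valid (h : Enc g A β) (hcard : Nat.card A < nn g)
    {c : ℕ} {B : Type} [CommGroup B] {α : (ZMod c)ˣ →* B} {H : Subgroup B} {N : Set (B × B)}
    (hD : Der c B α H N) : ∀ (q : A →* B) (S al Hl : List ℕ) (Nl : List (ℕ × ℕ)),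
    Cod0 β c S al q α → CodHN β Hl Nl q H N →
    ∃ (w : Wit) (l : List Entry), Valid g ((w, (c, S, al, Hl, Nl)) :: l) := by
  have := h.finite
  induction hD with
  | triv c hc B =>
    intro q S al Hl Nl hq hN
    refine ⟨e0.1, [], ⟨base_of_cod0 h hc hq, Or.inl ?_⟩, trivial⟩
    exact (trivR_iff h hc hq).mpr ⟨rfl, hN⟩
  | sign B α =>
    intro q S al Hl Nl hq hN
    refine ⟨e0.1, [], ⟨base_of_cod0 h (Or.inl rfl) hq, Or.inr (Or.inl ?_)⟩, trivial⟩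
    exact (signR_iff h hq).mpr hN
  | prod c B α₁ α₂ H₁ H₂ N₁ N₂ h₁ h₂ ih₁ ih₂ =>
    intro q S al Hl Nl hq hN
    have hc := Der.char h₁
    obtain ⟨S₁, al₁, hq₁⟩ := exists_code0 h.inj hc q hq.surj α₁
    obtain ⟨Hl₁, Nl₁, hN₁⟩ := exists_codeHN h.inj q H₁ N₁
    obtain ⟨S₂, al₂, hq₂⟩ := exists_code0 h.inj hc q hq.surj α₂
    obtain ⟨Hl₂, Nl₂, hN₂⟩ := exists_codeHN h.inj q H₂ N₂
    obtain ⟨w₁, l₁, hv₁⟩ := ih₁ q S₁ al₁ Hl₁ Nl₁ hq₁ hN₁
    obtain ⟨w₂, l₂, hv₂⟩ := ih₂ q S₂ al₂ Hl₂ Nl₂ hq₂ hN₂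
    refine ⟨e0.1, _, ⟨base_of_cod0 h hc hq, Or.inr (Or.inr (Or.inl ?_))⟩, hv₁.append hv₂⟩
    refine ⟨(c, S₁, al₁, Hl₁, Nl₁), ?_, (c, S₂, al₂, Hl₂, Nl₂), ?_,
      (prodR_iff h hc hq hq₁ hq₂ hN₁ hN₂).mpr ⟨rfl, hN⟩⟩
    · simp
    · simp
  | lift c B B' φ hφ α H' N' h' ih =>
    intro q S al Hl Nl hq hN
    have hc := Der.char h'
    obtain ⟨S₁, al₁, hq₁⟩ := exists_code0 h.inj hc (φ.comp q) (hφ.comp hq.surj) (φ.comp α)
    obtain ⟨Hl₁, Nl₁, hN₁⟩ := exists_codeHN h.inj (φ.comp q) H' N'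
    obtain ⟨w₁, l₁, hv₁⟩ := ih (φ.comp q) S₁ al₁ Hl₁ Nl₁ hq₁ hN₁
    refine ⟨e0.1, _, ⟨base_of_cod0 h hc hq, Or.inr (Or.inr (Or.inr (Or.inl ?_)))⟩, hv₁⟩
    exact ⟨(c, S₁, al₁, Hl₁, Nl₁), by simp,
      (liftR_iff h hc hq hq₁ hN₁ (fun a => rfl)).mpr ⟨rfl, hN⟩⟩
  | tame c B α H N t h' ih =>
    intro q S al Hl Nl hq hN
    have hc := Der.char h'
    obtain ⟨t', rfl⟩ := hq.surj t
    obtain ⟨S₁, al₁, hq₁⟩ := exists_code0 h.inj hc q hq.surj α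
    obtain ⟨Hl₁, Nl₁, hN₁⟩ := exists_codeHN h.inj q H N
    obtain ⟨w₁, l₁, hv₁⟩ := ih q S₁ al₁ Hl₁ Nl₁ hq₁ hN₁
    refine ⟨(r0, (0, 0, β t'), [], (0, 0, 0), []), _, ⟨base_of_cod0 h hc hq,
      Or.inr (Or.inr (Or.inr (Or.inr (Or.inl ?_))))⟩, hv₁⟩
    exact ⟨(c, S₁, al₁, Hl₁, Nl₁), by simp,
      (tameR_iff h hcard hc hq hq₁ hN₁ t').mpr ⟨rfl, hN⟩⟩
  | red p hp B α α₀ hα H N h' ih =>
    intro q S al Hl Nl hq hN
    obtain ⟨S₁, al₁, hq₁⟩ := exists_code0 h.inj (Or.inr hp) q hq.surj α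
    obtain ⟨Hl₁, Nl₁, hN₁⟩ := exists_codeHN h.inj q H N
    obtain ⟨w₁, l₁, hv₁⟩ := ih q S₁ al₁ Hl₁ Nl₁ hq₁ hN₁
    refine ⟨e0.1, _, ⟨base_of_cod0 h (Or.inl rfl) hq,
      Or.inr (Or.inr (Or.inr (Or.inr (Or.inr (Or.inl ?_)))))⟩, hv₁⟩
    exact ⟨(p, S₁, al₁, Hl₁, Nl₁), by simp, (redR_iff h hp hq hq₁ hN₁).mpr ⟨hα, hN⟩⟩
  | fin c hc B R π hR j X t =>
    intro q S al Hl Nl hq hN
    obtain ⟨t', rfl⟩ := hq.surj t
    obtain ⟨r, ρ, hr⟩ := exists_encR R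
    obtain ⟨hnt, ⟨n, hn⟩, hch⟩ := hR
    classical
    obtain ⟨Xl, hXl⟩ := exists_list r.1 (fun k => if hk : ∃ u : Rˣ, ρ u = k then
      β (Classical.choose (hq.surj (X (Classical.choose hk)))) else 0)
    have hX : ∀ u : Rˣ, ∃ a, Xl.getD (ρ u) 0 = β a ∧ q a = X u := by
      intro u
      have hk : ∃ v : Rˣ, ρ v = ρ u := ⟨u, rfl⟩
      have h1 := hXl (ρ u) (hr.lt _)
      rw [dif_pos hk] at h1
      refine ⟨_, h1, ?_⟩
      rw [Classical.choose_spec (hq.surj (X (Classical.choose hk)))]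
      have h2 : Classical.choose hk = u := Units.ext (hr.inj (Classical.choose_spec hk))
      rw [h2]
    refine ⟨(r, (ρ π, n, β t'), Xl, (0, 0, 0), []), [], ⟨base_of_cod0 h hc hq,
      Or.inr (Or.inr (Or.inr (Or.inr (Or.inr (Or.inr (Or.inl ?_))))))⟩, trivial⟩
    refine (finR_iff (w := (r, (ρ π, n, β t'), Xl, (0, 0, 0), [])) h hcard hc hq hr X hX rfl rfl
      j).mpr ⟨⟨?_, hn, hch⟩, rfl, hN⟩
    exact zero_ne_one
  | wild c p hp B B' φ hφ α α' H' N' t F e M hc hB h' ih =>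
    intro q S al Hl Nl hq hN
    have hcc : c = 0 ∨ c.Prime := by
      rcases hc with hc | hc
      · exact Or.inl hc.1
      · rw [hc.1]; exact Or.inr hp
    obtain ⟨t', rfl⟩ := hq.surj t
    obtain ⟨S₁, al₁, hq₁⟩ := exists_code0 h.inj (Or.inr hp) (φ.comp q) (hφ.comp hq.surj) α'
    obtain ⟨Hl₁, Nl₁, hN₁⟩ := exists_codeHN h.inj (φ.comp q) H' N'
    obtain ⟨w₁, l₁, hv₁⟩ := ih (φ.comp q) S₁ al₁ Hl₁ Nl₁ hq₁ hN₁
    have hfl : ∀ n, ∃ l : List ℕ, ∀ a, β a ∈ l ↔ q a ∈ F n :=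
      fun n => exists_codeSet h.inj (fun a => q a ∈ F n)
    choose fl hfl using hfl
    obtain ⟨Bl, hBl⟩ := exists_listl M fl
    have hF : ∀ n, 1 ≤ n → ∀ a, β a ∈ BL S (r0, (0, 0, β t'), [], (p, e, M), Bl) n ↔
        q a ∈ F n := by
      intro n _ a
      unfold BL
      by_cases hnM : n < M
      · rw [if_pos hnM]
        show β a ∈ Bl.getD n [] ↔ _
        rw [hBl n hnM, hfl]
      · rw [if_neg hnM, hq.ker, hB.top n (by omega), Subgroup.mem_bot]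
    refine ⟨(r0, (0, 0, β t'), [], (p, e, M), Bl), _, ⟨base_of_cod0 h hcc hq,
      Or.inr (Or.inr (Or.inr (Or.inr (Or.inr (Or.inr (Or.inr ?_))))))⟩, hv₁⟩
    exact ⟨(p, S₁, al₁, Hl₁, Nl₁), by simp,
      (wildR_iff (w := (r0, (0, 0, β t'), [], (p, e, M), Bl)) h hcard hcc hp hq hq₁ hN₁
        (fun a => rfl) hF rfl rfl).mpr ⟨hc, hB, hN⟩⟩

end compl

end RE

end HypQ
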