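import Pool.Agent.Lib.MP_9f0b3e_al.TabDef

/-!
# Coded derivations: definitions and primitive recursiveness

Module RE of S02499. The root group is coded by the nonzero codes of a table; a state
`(ch, S, al, H, N)` consists of lists of codes.
-/

set_option autoImplicit false

namespace HypQ

namespace RE

open CoRe

/-- table, code of zero, code of one -/
abbrev Ctx : Type := Tab × ℕ × ℕ

/-- number of codes -/
def nn (g : Ctx) : ℕ := g.1.1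
/-- multiplication of codes -/
def mm (g : Ctx) (x y : ℕ) : ℕ := mulT g.1 x y
/-- powers of codes -/
def pw (g : Ctx) (x k : ℕ) : ℕ := Nat.rec g.2.2 (fun _ r => mm g x r) k
/-- all valid codes -/
def AllV (g : Ctx) (P : ℕ → Prop) : Prop := ∀ x < nn g, ¬ x = g.2.1 → P x
/-- some valid code -/
def ExV (g : Ctx) (P : ℕ → Prop) : Prop := ∃ x < nn g, ¬ x = g.2.1 ∧ P x
/-- equality modulo a subgroup -/
def Eqv (g : Ctx) (S : List ℕ) (x y : ℕ) : Prop := ExV g (fun s => s ∈ S ∧ mm g s y = x)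

/-- states -/
abbrev State : Type := ℕ × List ℕ × List ℕ × List ℕ × List (ℕ × ℕ)

/-- the table of a binary operation -/
def tb (T : List (List ℕ)) (x y : ℕ) : ℕ := (T.getD x []).getD y 0

/-! ### Basic primitive recursive facts -/

section prim

variable {β : Type*} [Primcodable β]

theorem iff_p {p q : β → Prop} (hp : PrimrecPred p) (hq : PrimrecPred q) :
    PrimrecPred (fun x => p x ↔ q x) := by
  refine PrimrecPred.of_eq ((imp_p hp hq).and (imp_p hq hp)) ?_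
  intro a; tauto

theorem and_p {p q : β → Prop} (hp : PrimrecPred p) (hq : PrimrecPred q) :
    PrimrecPred (fun x => p x ∧ q x) := hp.and hq

theorem or_p {p q : β → Prop} (hp : PrimrecPred p) (hq : PrimrecPred q) :
    PrimrecPred (fun x => p x ∨ q x) := hp.or hq

theorem not_p {p : β → Prop} (hp : PrimrecPred p) : PrimrecPred (fun x => ¬ p x) := hp.not

theorem lt_p {f h : β → ℕ} (hf : Primrec f) (hh : Primrec h) : PrimrecPred (fun x => f x < h x) :=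
  Primrec.nat_lt.comp hf hh

theorem le_p {f h : β → ℕ} (hf : Primrec f) (hh : Primrec h) : PrimrecPred (fun x => f x ≤ h x) :=
  Primrec.nat_le.comp hf hh

theorem mem2_p {f h : β → ℕ} {l : β → List (ℕ × ℕ)} (hf : Primrec f) (hh : Primrec h)
    (hl : Primrec l) : PrimrecPred (fun x => (f x, h x) ∈ l x) := by
  have h1 : PrimrecRel (fun (t : ℕ × ℕ) (y : ℕ × ℕ) => t = y) := Primrec.eq
  refine PrimrecPred.of_eq (h1.exists_mem_list.comp hl (Primrec.pair hf hh)) ?_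
  intro x
  simp

theorem add_p {f h : β → ℕ} (hf : Primrec f) (hh : Primrec h) : Primrec (fun x => f x + h x) :=
  Primrec.nat_add.comp hf hh

theorem sub_p {f h : β → ℕ} (hf : Primrec f) (hh : Primrec h) : Primrec (fun x => f x - h x) :=
  Primrec.nat_sub.comp hf hh

theorem mul_p {f h : β → ℕ} (hf : Primrec f) (hh : Primrec h) : Primrec (fun x => f x * h x) :=
  Primrec.nat_mul.comp hf hh

theorem min_p {f h : β → ℕ} (hf : Primrec f) (hh : Primrec h) : Primrec (fun x => min (f x) (h x)) :=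
  Primrec.nat_min.comp hf hh

theorem mod_p {f h : β → ℕ} (hf : Primrec f) (hh : Primrec h) : Primrec (fun x => f x % h x) :=
  Primrec.nat_mod.comp hf hh

theorem getDn_p {l : β → List ℕ} {f : β → ℕ} (hl : Primrec l) (hf : Primrec f) :
    Primrec (fun x => (l x).getD (f x) 0) := (Primrec.list_getD 0).comp hl hf

theorem getDl_p {l : β → List (List ℕ)} {f : β → ℕ} (hl : Primrec l) (hf : Primrec f) :
    Primrec (fun x => (l x).getD (f x) []) := (Primrec.list_getD []).comp hl hf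

theorem tb_p {T : β → List (List ℕ)} {f h : β → ℕ} (hT : Primrec T) (hf : Primrec f)
    (hh : Primrec h) : Primrec (fun x => tb (T x) (f x) (h x)) :=
  getDn_p (getDl_p hT hf) hh

theorem ite_p {σ : Type*} [Primcodable σ] {p : β → Prop} [∀ x, Decidable (p x)] {f h : β → σ}
    (hp : PrimrecPred p) (hf : Primrec f) (hh : Primrec h) :
    Primrec (fun x => if p x then f x else h x) := Primrec.ite hp hf hh

variable {g : β → Ctx}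

theorem nn_p (hg : Primrec g) : Primrec (fun x => nn (g x)) :=
  Primrec.fst.comp (Primrec.fst.comp hg)

theorem mm_p {f h : β → ℕ} (hg : Primrec g) (hf : Primrec f) (hh : Primrec h) :
    Primrec (fun x => mm (g x) (f x) (h x)) := mulT_p (Primrec.fst.comp hg) hf hh

theorem o_p (hg : Primrec g) : Primrec (fun x => (g x).2.1) :=
  Primrec.fst.comp (Primrec.snd.comp hg)

theorem i_p (hg : Primrec g) : Primrec (fun x => (g x).2.2) :=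
  Primrec.snd.comp (Primrec.snd.comp hg)

theorem pw_p {f h : β → ℕ} (hg : Primrec g) (hf : Primrec f) (hh : Primrec h) :
    Primrec (fun x => pw (g x) (f x) (h x)) := by
  unfold pw
  refine Primrec.nat_rec' (h := fun x (q : ℕ × ℕ) => mm (g x) (f x) q.2) hh (i_p hg) ?_
  exact mm_p (hg.comp Primrec.fst) (hf.comp Primrec.fst) (Primrec.snd.comp Primrec.snd)

theorem AllV_p {P : β → ℕ → Prop} (hg : Primrec g)
    (hP : PrimrecPred (fun x : β × ℕ => P x.1 x.2)) : PrimrecPred (fun x => AllV (g x) (P x)) := by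
  unfold AllV
  refine forall_lt_p (nn_p hg) ?_
  exact imp_p (not_p (eq_p Primrec.snd (o_p (hg.comp Primrec.fst)))) hP

theorem ExV_p {P : β → ℕ → Prop} (hg : Primrec g)
    (hP : PrimrecPred (fun x : β × ℕ => P x.1 x.2)) : PrimrecPred (fun x => ExV (g x) (P x)) := by
  unfold ExV
  refine exists_lt_p (nn_p hg) ?_
  exact and_p (not_p (eq_p Primrec.snd (o_p (hg.comp Primrec.fst)))) hP

theorem Eqv_p {S : β → List ℕ} {f h : β → ℕ} (hg : Primrec g) (hS : Primrec S) (hf : Primrec f)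
    (hh : Primrec h) : PrimrecPred (fun x => Eqv (g x) (S x) (f x) (h x)) := by
  unfold Eqv
  refine ExV_p hg ?_
  exact and_p (mem_p Primrec.snd (hS.comp Primrec.fst))
    (eq_p (mm_p (hg.comp Primrec.fst) Primrec.snd (hh.comp Primrec.fst)) (hf.comp Primrec.fst))

end prim

/-! ### Keys: codes of the units of `ZMod ch` -/

/-- `k` is the key of a unit of `ZMod ch` -/
def IsKey (ch k : ℕ) : Prop := (ch = 0 ∧ k < 2) ∨ (¬ ch = 0 ∧ 0 < k ∧ k < ch)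

/-- multiplication of keys -/
def kmul (ch k l : ℕ) : ℕ := if ch = 0 then (if k = l then 1 else 0) else k * l % ch

/-- coded primality -/
def PrimeC (p : ℕ) : Prop := 1 < p ∧ ∀ a < p, ∀ b < p, ¬ a * b = p

section prim2

variable {β : Type*} [Primcodable β]

theorem IsKey_p {f h : β → ℕ} (hf : Primrec f) (hh : Primrec h) :
    PrimrecPred (fun x => IsKey (f x) (h x)) := by
  unfold IsKey
  exact or_p (and_p (eq_p hf (Primrec.const 0)) (lt_p hh (Primrec.const 2)))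
    (and_p (not_p (eq_p hf (Primrec.const 0))) (and_p (lt_p (Primrec.const 0) hh) (lt_p hh hf)))

theorem kmul_p {f h k : β → ℕ} (hf : Primrec f) (hh : Primrec h) (hk : Primrec k) :
    Primrec (fun x => kmul (f x) (h x) (k x)) := by
  unfold kmul
  exact ite_p (eq_p hf (Primrec.const 0)) (ite_p (eq_p hh hk) (Primrec.const 1) (Primrec.const 0))
    (mod_p (mul_p hh hk) hf)

theorem PrimeC_p {f : β → ℕ} (hf : Primrec f) : PrimrecPred (fun x => PrimeC (f x)) := by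
  unfold PrimeC
  refine and_p (lt_p (Primrec.const 1) hf) (forall_lt_p hf (forall_lt_p (hf.comp Primrec.fst) ?_))
  exact not_p (eq_p (mul_p (Primrec.snd.comp Primrec.fst) Primrec.snd)
    (hf.comp (Primrec.fst.comp Primrec.fst)))

end prim2

/-! ### The rules -/

/-- Conditions on every state. -/
def Base (g : Ctx) (s : State) : Prop :=
  (s.1 = 0 ∨ PrimeC s.1) ∧ g.2.2 ∈ s.2.1 ∧
  AllV g (fun x => x ∈ s.2.1 → AllV g (fun y => y ∈ s.2.1 → mm g x y ∈ s.2.1)) ∧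
  AllV g (fun x => x ∈ s.2.1 → ExV g (fun y => y ∈ s.2.1 ∧ mm g x y = g.2.2)) ∧
  (∀ k < s.1 + 2, IsKey s.1 k →
    ExV g (fun x => s.2.2.1.getD k 0 = x) ∧
    ∀ l < s.1 + 2, IsKey s.1 l → Eqv g s.2.1 (s.2.2.1.getD (kmul s.1 k l) 0)
      (mm g (s.2.2.1.getD k 0) (s.2.2.1.getD l 0)))

/-- trivial datum -/
def trivR (g : Ctx) (s : State) : Prop :=
  (∀ k < s.1 + 2, IsKey s.1 k → s.2.2.1.getD k 0 ∈ s.2.1) ∧
  AllV g (fun x => x ∈ s.2.2.2.1 ↔ x ∈ s.2.1) ∧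
  AllV g (fun x => AllV g (fun y => (x, y) ∈ s.2.2.2.2 ↔ x ∈ s.2.1 ∧ y ∈ s.2.1))

/-- sign datum -/
def signR (g : Ctx) (s : State) : Prop :=
  s.1 = 0 ∧
  AllV g (fun x => x ∈ s.2.2.2.1 ↔ x ∈ s.2.1 ∨ Eqv g s.2.1 x (s.2.2.1.getD 0 0)) ∧
  AllV g (fun x => AllV g (fun y => (x, y) ∈ s.2.2.2.2 ↔ (x ∈ s.2.1 ∧ y ∈ s.2.1) ∨
    (x ∈ s.2.1 ∧ Eqv g s.2.1 y (s.2.2.1.getD 0 0)) ∨
    (Eqv g s.2.1 x (s.2.2.1.getD 0 0) ∧ y ∈ s.2.1)))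

/-- same characteristic and kernel -/
def sameK (g : Ctx) (s₁ s : State) : Prop :=
  s.1 = s₁.1 ∧ AllV g (fun x => x ∈ s.2.1 ↔ x ∈ s₁.2.1)

/-- product -/
def prodR (g : Ctx) (s₁ s₂ s : State) : Prop :=
  sameK g s₁ s ∧ sameK g s₂ s ∧
  (∀ k < s.1 + 2, IsKey s.1 k → Eqv g s.2.1 (s.2.2.1.getD k 0)
    (mm g (s₁.2.2.1.getD k 0) (s₂.2.2.1.getD k 0))) ∧
  AllV g (fun x => x ∈ s.2.2.2.1 ↔ ExV g (fun y => y ∈ s₁.2.2.2.1 ∧
    ExV g (fun z => z ∈ s₂.2.2.2.1 ∧ x = mm g y z))) ∧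
  AllV g (fun x => AllV g (fun y => (x, y) ∈ s.2.2.2.2 ↔
    ExV g (fun x₁ => ExV g (fun y₁ => (x₁, y₁) ∈ s₁.2.2.2.2 ∧
      ExV g (fun x₂ => ExV g (fun y₂ => (x₂, y₂) ∈ s₂.2.2.2.2 ∧
        x = mm g x₁ x₂ ∧ y = mm g y₁ y₂))))))

/-- same `H` and `N` -/
def sameHN (g : Ctx) (s₁ s : State) : Prop :=
  AllV g (fun x => x ∈ s.2.2.2.1 ↔ x ∈ s₁.2.2.2.1) ∧
  AllV g (fun x => AllV g (fun y => (x, y) ∈ s.2.2.2.2 ↔ (x, y) ∈ s₁.2.2.2.2))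

/-- lift -/
def liftR (g : Ctx) (s₁ s : State) : Prop :=
  s.1 = s₁.1 ∧ AllV g (fun x => x ∈ s.2.1 → x ∈ s₁.2.1) ∧
  (∀ k < s.1 + 2, IsKey s.1 k → Eqv g s₁.2.1 (s.2.2.1.getD k 0) (s₁.2.2.1.getD k 0)) ∧
  sameHN g s₁ s

/-- tame extension -/
def tameR (g : Ctx) (h : ℕ) (s₁ s : State) : Prop :=
  sameK g s₁ s ∧ ExV g (fun x => h = x) ∧
  (∀ k < s.1 + 2, IsKey s.1 k → Eqv g s.2.1 (s.2.2.1.getD k 0) (s₁.2.2.1.getD k 0)) ∧
  AllV g (fun x => x ∈ s.2.2.2.1 ↔ ExV g (fun y => y ∈ s₁.2.2.2.1 ∧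
    ∃ k < nn g, x = mm g y (pw g h k))) ∧
  AllV g (fun x => AllV g (fun y => (x, y) ∈ s.2.2.2.2 ↔ (x, y) ∈ s₁.2.2.2.2 ∨
    (x ∈ s.2.2.2.1 ∧ y ∈ s.2.1) ∨ (x ∈ s.2.1 ∧ y ∈ s.2.2.2.1) ∨
    (x ∈ s.2.2.2.1 ∧ Eqv g s.2.1 y (mm g (s.2.2.1.getD (s.1 - 1) 0) x))))

/-- reduction of the characteristic -/
def redR (g : Ctx) (s₁ s : State) : Prop :=
  s.1 = 0 ∧ ¬ s₁.1 = 0 ∧ AllV g (fun x => x ∈ s.2.1 ↔ x ∈ s₁.2.1) ∧
  Eqv g s.2.1 (s.2.2.1.getD 0 0) (s₁.2.2.1.getD (s₁.1 - 1) 0) ∧ sameHN g s₁ s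

/-- codes of rings: size, addition, multiplication, zero, one -/
abbrev RC : Type := ℕ × List (List ℕ) × List (List ℕ) × ℕ × ℕ

/-- powers in coded rings -/
def rpw (r : RC) (x k : ℕ) : ℕ := Nat.rec r.2.2.2.2 (fun _ z => tb r.2.2.1 x z) k

/-- natural numbers in coded rings -/
def rnat (r : RC) (k : ℕ) : ℕ := Nat.rec r.2.2.2.1 (fun _ z => tb r.2.1 z r.2.2.2.2) k

/-- units in coded rings -/
def rU (r : RC) (x : ℕ) : Prop := ∃ y < r.1, tb r.2.2.1 x y = r.2.2.2.2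

/-- coded rings -/
def RingOK (r : RC) : Prop :=
  r.2.2.2.1 < r.1 ∧ r.2.2.2.2 < r.1 ∧
  ∀ x < r.1, tb r.2.1 r.2.2.2.1 x = x ∧ tb r.2.2.1 r.2.2.2.2 x = x ∧
    (∃ y < r.1, tb r.2.1 y x = r.2.2.2.1) ∧
    ∀ y < r.1, tb r.2.1 x y < r.1 ∧ tb r.2.2.1 x y < r.1 ∧
      tb r.2.2.1 x y = tb r.2.2.1 y x ∧
      ∀ z < r.1, tb r.2.1 (tb r.2.1 x y) z = tb r.2.1 x (tb r.2.1 y z) ∧
        tb r.2.2.1 (tb r.2.2.1 x y) z = tb r.2.2.1 x (tb r.2.2.1 y z) ∧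
        tb r.2.2.1 x (tb r.2.1 y z) = tb r.2.1 (tb r.2.2.1 x y) (tb r.2.2.1 x z)

/-- witnesses: ring, (π, nilpotency exponent, g), values of `X`; (p, e, M), filtration -/
abbrev Wit : Type := RC × (ℕ × ℕ × ℕ) × List ℕ × (ℕ × ℕ × ℕ) × List (List ℕ)

/-- the small pairs of a coded chain ring -/
def smR (g : Ctx) (S : List ℕ) (w : Wit) (x y : ℕ) : Prop :=
  ∃ k < w.2.1.2.1 + nn g + 1, 0 < k ∧ ∃ a < w.1.1, rU w.1 a ∧ ∃ b < w.1.1, rU w.1 b ∧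
    tb w.1.2.1 b (tb w.1.2.2.1 (rpw w.1 w.2.1.1 k) a) = w.1.2.2.2.2 ∧
    Eqv g S x (mm g (pw g w.2.1.2.2 k) (w.2.2.1.getD a 0)) ∧
    Eqv g S y (w.2.2.1.getD b 0)

/-- finite chain ring -/
def finR (g : Ctx) (w : Wit) (s : State) : Prop :=
  RingOK w.1 ∧ ¬ w.1.2.2.2.1 = w.1.2.2.2.2 ∧ w.2.1.1 < w.1.1 ∧
  rpw w.1 w.2.1.1 w.2.1.2.1 = w.1.2.2.2.1 ∧
  (∀ x < w.1.1, rU w.1 x ∨ ∃ y < w.1.1, x = tb w.1.2.2.1 w.2.1.1 y) ∧
  (∀ x < w.1.1, rU w.1 x → ExV g (fun a => w.2.2.1.getD x 0 = a) ∧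
    ∀ y < w.1.1, rU w.1 y → Eqv g s.2.1 (w.2.2.1.getD (tb w.1.2.2.1 x y) 0)
      (mm g (w.2.2.1.getD x 0) (w.2.2.1.getD y 0))) ∧
  ExV g (fun a => w.2.1.2.2 = a) ∧
  rnat w.1 s.1 = w.1.2.2.2.1 ∧
  (∀ k < s.1 + 2, IsKey s.1 k → ∀ z < w.1.1,
    ((¬ s.1 = 0 ∧ z = rnat w.1 k) ∨ (s.1 = 0 ∧ k = 1 ∧ z = w.1.2.2.2.2) ∨
      (s.1 = 0 ∧ k = 0 ∧ tb w.1.2.1 z w.1.2.2.2.2 = w.1.2.2.2.1)) →
      Eqv g s.2.1 (s.2.2.1.getD k 0) (w.2.2.1.getD z 0)) ∧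
  AllV g (fun x => x ∈ s.2.2.2.1 ↔ ∃ u < w.1.1, rU w.1 u ∧ ∃ k < nn g,
    Eqv g s.2.1 x (mm g (w.2.2.1.getD u 0) (pw g w.2.1.2.2 k))) ∧
  AllV g (fun x => AllV g (fun y => (x, y) ∈ s.2.2.2.2 ↔
    (∃ u < w.1.1, rU w.1 u ∧ ∃ v < w.1.1, rU w.1 v ∧ tb w.1.2.1 u v = w.1.2.2.2.2 ∧
      Eqv g s.2.1 x (w.2.2.1.getD u 0) ∧ Eqv g s.2.1 y (w.2.2.1.getD v 0)) ∨
    smR g s.2.1 w x y ∨ smR g s.2.1 w y x ∨
    ExV g (fun y' => ExV g (fun b => smR g s.2.1 w y' b ∧ mm g x y' ∈ s.2.1 ∧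
      Eqv g s.2.1 y (mm g (mm g (s.2.2.1.getD (s.1 - 1) 0) b) x)))))

/-- the filtration -/
def BL (S : List ℕ) (w : Wit) (k : ℕ) : List ℕ :=
  if k < w.2.2.2.1.2.2 then w.2.2.2.2.getD k [] else S

/-- the wild place pairs -/
def wR (g : Ctx) (S H₁ : List ℕ) (w : Wit) (x y : ℕ) : Prop :=
  ∃ k < w.2.2.2.1.2.2 + nn g + 1, 0 < k ∧
    ExV g (fun h => h ∈ H₁ ∧ x = mm g h (pw g w.2.1.2.2 k)) ∧ y ∈ BL S w k

/-- wild place: `p = w.2.2.2.1.1`, `e = w.2.2.2.1.2.1`, `M = w.2.2.2.1.2.2`, `g = w.2.1.2.2` -/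
def wildR (g : Ctx) (w : Wit) (s₁ s : State) : Prop :=
  s₁.1 = w.2.2.2.1.1 ∧ ¬ s₁.1 = 0 ∧
  ((s.1 = 0 ∧ Eqv g s₁.2.1 (s.2.2.1.getD 0 0) (s₁.2.2.1.getD (s₁.1 - 1) 0)) ∨
    (s.1 = s₁.1 ∧ w.2.2.2.1.2.2 ≤ w.2.2.2.1.2.1 ∧
      ∀ k < s.1 + 2, IsKey s.1 k → Eqv g s₁.2.1 (s.2.2.1.getD k 0) (s₁.2.2.1.getD k 0))) ∧
  ExV g (fun a => w.2.1.2.2 = a) ∧ 0 < w.2.2.2.1.2.1 ∧ 0 < w.2.2.2.1.2.2 ∧
  AllV g (fun x => x ∈ s₁.2.1 ↔ x ∈ BL s.2.1 w 1) ∧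
  (∀ k < w.2.2.2.1.2.2, 0 < k → g.2.2 ∈ BL s.2.1 w k ∧
    AllV g (fun x => x ∈ s.2.1 → x ∈ BL s.2.1 w k) ∧
    AllV g (fun x => x ∈ BL s.2.1 w (k + 1) → x ∈ BL s.2.1 w k) ∧
    AllV g (fun x => x ∈ BL s.2.1 w k → AllV g (fun y => y ∈ BL s.2.1 w k →
      mm g x y ∈ BL s.2.1 w k)) ∧
    AllV g (fun x => x ∈ BL s.2.1 w k → ExV g (fun y => y ∈ BL s.2.1 w k ∧ mm g x y = g.2.2)) ∧
    AllV g (fun x => x ∈ BL s.2.1 w k → pw g x w.2.2.2.1.1 ∈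
      BL s.2.1 w (min (w.2.2.2.1.1 * k) (k + w.2.2.2.1.2.1))) ∧
    (w.2.2.2.1.2.1 < k * (w.2.2.2.1.1 - 1) → AllV g (fun x =>
      x ∈ BL s.2.1 w (k + w.2.2.2.1.2.1) → ExV g (fun y => y ∈ BL s.2.1 w k ∧
        ExV g (fun z => z ∈ BL s.2.1 w (k + w.2.2.2.1.2.1 + 1) ∧
          Eqv g s.2.1 x (mm g (pw g y w.2.2.2.1.1) z)))))) ∧
  (w.2.2.2.1.1 = 2 → s.2.2.1.getD (s.1 - 1) 0 ∈ BL s.2.1 w w.2.2.2.1.2.1) ∧
  AllV g (fun x => x ∈ s.2.2.2.1 ↔ ExV g (fun y => y ∈ s₁.2.2.2.1 ∧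
    ∃ k < nn g, x = mm g y (pw g w.2.1.2.2 k))) ∧
  AllV g (fun x => AllV g (fun y => (x, y) ∈ s.2.2.2.2 ↔
    (x, y) ∈ s₁.2.2.2.2 ∨ wR g s.2.1 s₁.2.2.2.1 w x y ∨ wR g s.2.1 s₁.2.2.2.1 w y x ∨
    ExV g (fun y' => ExV g (fun b => wR g s.2.1 s₁.2.2.2.1 w y' b ∧ mm g x y' ∈ s.2.1 ∧
      Eqv g s.2.1 y (mm g (mm g (s.2.2.1.getD (s.1 - 1) 0) b) x)))))

/-- one step of a coded derivation -/
def Stp (g : Ctx) (w : Wit) (t : List State) (s : State) : Prop :=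
  Base g s ∧ (trivR g s ∨ signR g s ∨ (∃ s₁ ∈ t, ∃ s₂ ∈ t, prodR g s₁ s₂ s) ∨
    (∃ s₁ ∈ t, liftR g s₁ s) ∨ (∃ s₁ ∈ t, tameR g w.2.1.2.2 s₁ s) ∨ (∃ s₁ ∈ t, redR g s₁ s) ∨
    finR g w s ∨ (∃ s₁ ∈ t, wildR g w s₁ s))

end RE

end HypQ
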