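import Pool.Agent.Lib.MP_9f0b3e_al.ReDef

/-!
# Coded derivations: encodings of groups and of data
-/

set_option autoImplicit false

namespace HypQ

namespace RE

open CoRe

/-- `β` codes the group `A` by the valid codes of `g`. -/
structure Enc (g : Ctx) (A : Type) [CommGroup A] (β : A → ℕ) : Prop where
  inj : Function.Injective β
  lt : ∀ a, β a < nn g
  ne : ∀ a, ¬ β a = g.2.1
  surj : ∀ x < nn g, ¬ x = g.2.1 → ∃ a, β a = x
  mul : ∀ a b, mm g (β a) (β b) = β (a * b)
  one : g.2.2 = β 1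

section enc

variable {g : Ctx} {A : Type} [CommGroup A] {β : A → ℕ}

theorem Enc.AllV_iff (h : Enc g A β) {P : ℕ → Prop} : AllV g P ↔ ∀ a, P (β a) := by
  constructor
  · intro hP a
    exact hP _ (h.lt a) (h.ne a)
  · intro hP x hx hx'
    obtain ⟨a, rfl⟩ := h.surj x hx hx'
    exact hP a

theorem Enc.ExV_iff (h : Enc g A β) {P : ℕ → Prop} : ExV g P ↔ ∃ a, P (β a) := by
  constructor
  · rintro ⟨x, hx, hx', hP⟩
    obtain ⟨a, rfl⟩ := h.surj x hx hx'
    exact ⟨a, hP⟩
  · rintro ⟨a, hP⟩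
    exact ⟨β a, h.lt a, h.ne a, hP⟩

theorem Enc.pw (h : Enc g A β) (a : A) (k : ℕ) : RE.pw g (β a) k = β (a ^ k) := by
  induction k with
  | zero => rw [pow_zero]; exact h.one
  | succ k ih =>
    have : RE.pw g (β a) (k + 1) = mm g (β a) (RE.pw g (β a) k) := rfl
    rw [this, ih, h.mul, pow_succ']

theorem Enc.finite (h : Enc g A β) : Finite A := by
  have : Function.Injective (fun a : A => (⟨β a, h.lt a⟩ : Fin (nn g))) := by
    intro a b hab
    apply h.inj
    simpa using hab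
  exact Finite.of_injective _ this

theorem Enc.card_lt (h : Enc g A β) (ho : g.2.1 < nn g) : Nat.card A < nn g := by
  classical
  have := h.finite
  have : Fintype A := Fintype.ofFinite A
  have h1 : (Finset.univ.image β) ⊆ (Finset.range (nn g)).erase g.2.1 := by
    intro x hx
    rw [Finset.mem_image] at hx
    obtain ⟨a, -, rfl⟩ := hx
    rw [Finset.mem_erase, Finset.mem_range]
    exact ⟨h.ne a, h.lt a⟩
  have h2 := Finset.card_le_card h1
  rw [Finset.card_image_of_injective _ h.inj, Finset.card_erase_of_mem (Finset.mem_range.mpr ho),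
    Finset.card_range, Finset.card_univ] at h2
  rw [Nat.card_eq_fintype_card]
  omega

/-- powers with bounded exponents -/
theorem exists_pow_lt [Finite A] {n : ℕ} (hn : Nat.card A < n) (a b : A)
    (hb : b ∈ Subgroup.zpowers a) : ∃ k < n, a ^ k = b := by
  classical
  have h1 : 0 < orderOf a := orderOf_pos a
  rw [mem_zpowers_iff_mem_range_orderOf, Finset.mem_image] at hb
  obtain ⟨k, hk, hk2⟩ := hb
  rw [Finset.mem_range] at hk
  refine ⟨k, ?_, hk2⟩
  have : orderOf a ≤ Nat.card A := orderOf_le_card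
  omega

end enc

/-! ### Keys -/

open Classical in
/-- the key of a unit of `ZMod ch` -/
noncomputable def key (ch : ℕ) (u : (ZMod ch)ˣ) : ℕ :=
  if ch = 0 then (if u = 1 then 1 else 0) else (u : ZMod ch).val

theorem primeC_iff (p : ℕ) : PrimeC p ↔ p.Prime := by
  unfold PrimeC
  constructor
  · rintro ⟨h1, h2⟩
    rw [Nat.prime_def_lt]
    refine ⟨h1, ?_⟩
    intro m hm hd
    obtain ⟨k, hk⟩ := hd
    by_contra hne
    have hm0 : 0 < m := by
      rcases Nat.eq_zero_or_pos m with h | h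
      · subst h; omega
      · exact h
    have hk' : k < p := by
      have hk0 : 0 < k := by
        rcases Nat.eq_zero_or_pos k with h | h
        · subst h; omega
        · exact h
      have : 2 ≤ m := by omega
      nlinarith
    exact h2 m hm k hk' hk.symm
  · intro h
    refine ⟨h.one_lt, ?_⟩
    intro a ha b hb hab
    rcases Nat.eq_zero_or_pos a with h0 | h0
    · subst h0
      have := h.pos
      omega
    have h3 : a ∣ p := ⟨b, hab.symm⟩
    rcases (Nat.dvd_prime h).mp h3 with h4 | h4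
    · subst h4; omega
    · omega

theorem key_zero (u : (ZMod 0)ˣ) : (u = 1 ∧ key 0 u = 1) ∨ (u = -1 ∧ key 0 u = 0) := by
  have h : u = 1 ∨ u = -1 := Int.units_eq_one_or (u : ℤˣ)
  rcases h with h | h
  · left
    refine ⟨h, ?_⟩
    unfold key
    simp [h]
  · right
    refine ⟨h, ?_⟩
    unfold key
    rw [if_pos rfl, if_neg]
    rw [h]
    intro h1
    have h2 : ((-1 : ℤˣ) : ℤ) = ((1 : ℤˣ) : ℤ) := congrArg _ h1
    norm_num at h2

theorem key_pos {ch : ℕ} (hc : ¬ ch = 0) (u : (ZMod ch)ˣ) : key ch u = (u : ZMod ch).val := by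
  unfold key
  rw [if_neg hc]

theorem isKey_key {ch : ℕ} (hc : ch = 0 ∨ ch.Prime) (u : (ZMod ch)ˣ) : IsKey ch (key ch u) := by
  unfold IsKey
  rcases hc with hc | hc
  · subst hc
    left
    rcases key_zero u with ⟨-, h⟩ | ⟨-, h⟩ <;> rw [h] <;> simp
  · right
    have h0 : ¬ ch = 0 := hc.ne_zero
    have : Fact ch.Prime := ⟨hc⟩
    refine ⟨h0, ?_, ?_⟩
    · rw [key_pos h0]
      rw [Nat.pos_iff_ne_zero, ne_eq, ZMod.val_eq_zero]
      exact u.ne_zero
    · rw [key_pos h0]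
      exact ZMod.val_lt _

theorem key_surj {ch : ℕ} (hc : ch = 0 ∨ ch.Prime) {k : ℕ} (hk : IsKey ch k) :
    ∃ u : (ZMod ch)ˣ, key ch u = k := by
  rcases hc with hc | hc
  · subst hc
    rcases hk with ⟨-, hk⟩ | ⟨hk, -⟩
    · rcases Nat.lt_succ_iff_lt_or_eq.mp hk with h | h
      · refine ⟨-1, ?_⟩
        have h0 : k = 0 := by omega
        rcases key_zero (-1) with ⟨h1, h2⟩ | ⟨h1, h2⟩
        · exfalso
          have h2 : ((-1 : ℤˣ) : ℤ) = ((1 : ℤˣ) : ℤ) := congrArg _ h1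
          norm_num at h2
        · rw [h2, h0]
      · refine ⟨1, ?_⟩
        rcases key_zero 1 with ⟨h1, h2⟩ | ⟨h1, h2⟩
        · rw [h2, h]
        · exfalso
          have h2 : ((1 : ℤˣ) : ℤ) = ((-1 : ℤˣ) : ℤ) := congrArg _ h1
          norm_num at h2
    · exact absurd rfl hk
  · have : Fact ch.Prime := ⟨hc⟩
    have h0 : ¬ ch = 0 := hc.ne_zero
    rcases hk with ⟨hk, -⟩ | ⟨-, hk1, hk2⟩
    · exact absurd hk h0
    · have hk3 : (k : ZMod ch) ≠ 0 := by
        rw [ne_eq, ZMod.natCast_eq_zero_iff]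
        intro hd
        exact absurd (Nat.le_of_dvd hk1 hd) (by omega)
      refine ⟨Units.mk0 _ hk3, ?_⟩
      rw [key_pos h0, Units.val_mk0]
      exact ZMod.val_cast_of_lt hk2

theorem key_lt {ch k : ℕ} (hk : IsKey ch k) : k < ch + 2 := by
  rcases hk with ⟨h1, h2⟩ | ⟨h1, h2, h3⟩ <;> omega

theorem key_mul {ch : ℕ} (u v : (ZMod ch)ˣ) :
    key ch (u * v) = kmul ch (key ch u) (key ch v) := by
  unfold kmul
  by_cases hc : ch = 0
  · subst hc
    rw [if_pos rfl]
    rcases key_zero u with ⟨h1, h2⟩ | ⟨h1, h2⟩ <;>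
    rcases key_zero v with ⟨h3, h4⟩ | ⟨h3, h4⟩ <;>
    rw [h2, h4] <;>
    rcases key_zero (u * v) with ⟨h5, h6⟩ | ⟨h5, h6⟩ <;> rw [h6] <;> simp <;>
    · rw [h1, h3] at h5
      have h7 := congrArg (fun z : ℤˣ => (z : ℤ)) h5
      simp at h7
  · rw [if_neg hc, key_pos hc, key_pos hc, key_pos hc, Units.val_mul, ZMod.val_mul]

theorem key_neg_one {ch : ℕ} (hc : ch = 0 ∨ ch.Prime) : key ch (-1) = ch - 1 := by
  rcases hc with hc | hc
  · subst hc
    rcases key_zero (-1) with ⟨h1, h2⟩ | ⟨h1, h2⟩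
    · exfalso
      have h2 : ((-1 : ℤˣ) : ℤ) = ((1 : ℤˣ) : ℤ) := congrArg _ h1
      norm_num at h2
    · rw [h2]
  · have h0 : ¬ ch = 0 := hc.ne_zero
    rw [key_pos h0]
    obtain ⟨n, rfl⟩ := Nat.exists_eq_succ_of_ne_zero h0
    rw [Units.val_neg, Units.val_one, ZMod.val_neg_one]
    simp

/-! ### Coded data -/

/-- The lists `S`, `al` code the kernel of `q` and the prime residue character `α`. -/
structure Cod0 {A B : Type} [CommGroup A] [CommGroup B] (β : A → ℕ) (ch : ℕ) (S al : List ℕ)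
    (q : A →* B) (α : (ZMod ch)ˣ →* B) : Prop where
  surj : Function.Surjective q
  ker : ∀ a, β a ∈ S ↔ q a = 1
  al : ∀ u, ∃ a, al.getD (key ch u) 0 = β a ∧ q a = α u

/-- The lists `Hl`, `Nl` code `H` and `N`. -/
structure CodHN {A B : Type} [CommGroup A] [CommGroup B] (β : A → ℕ) (Hl : List ℕ)
    (Nl : List (ℕ × ℕ)) (q : A →* B) (H : Subgroup B) (N : Set (B × B)) : Prop where
  H : ∀ a, β a ∈ Hl ↔ q a ∈ H
  N : ∀ a b, (β a, β b) ∈ Nl ↔ (q a, q b) ∈ N

section cod

variable {g : Ctx} {A : Type} [CommGroup A] {β : A → ℕ}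

theorem eqv_iff (h : Enc g A β) {B : Type} [CommGroup B] {q : A →* B} {S : List ℕ}
    (hS : ∀ a, β a ∈ S ↔ q a = 1) (a b : A) : Eqv g S (β a) (β b) ↔ q a = q b := by
  unfold Eqv
  rw [h.ExV_iff]
  constructor
  · rintro ⟨s, hs, h1⟩
    rw [h.mul] at h1
    have h2 := h.inj h1
    rw [← h2, map_mul, (hS s).mp hs, one_mul]
  · intro hab
    refine ⟨a / b, ?_, ?_⟩
    · rw [hS, map_div, hab, div_self']
    · rw [h.mul, div_mul_cancel]

/-- for all keys = for all units -/
theorem forall_key {ch : ℕ} (hc : ch = 0 ∨ ch.Prime) {P : ℕ → Prop} :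
    (∀ k < ch + 2, IsKey ch k → P k) ↔ ∀ u : (ZMod ch)ˣ, P (key ch u) := by
  constructor
  · intro h u
    exact h _ (key_lt (isKey_key hc u)) (isKey_key hc u)
  · intro h k _ hk
    obtain ⟨u, rfl⟩ := key_surj hc hk
    exact h u

theorem base_of_cod0 (h : Enc g A β) {B : Type} [CommGroup B] {ch : ℕ} {S al Hl : List ℕ}
    {Nl : List (ℕ × ℕ)} (hc : ch = 0 ∨ ch.Prime)
    {q : A →* B} {α : (ZMod ch)ˣ →* B} (hq : Cod0 β ch S al q α) :
    Base g (ch, S, al, Hl, Nl) := by
  unfold Base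
  refine ⟨?_, ?_, ?_, ?_, ?_⟩
  · rcases hc with hc | hc
    · exact Or.inl hc
    · exact Or.inr ((primeC_iff _).mpr hc)
  · show g.2.2 ∈ S
    rw [h.one, hq.ker, map_one]
  · show AllV g (fun x => x ∈ S → AllV g (fun y => y ∈ S → mm g x y ∈ S))
    simp only [h.AllV_iff]
    intro a ha b hb
    rw [hq.ker] at ha hb
    rw [h.mul, hq.ker, map_mul, ha, hb, one_mul]
  · show AllV g (fun x => x ∈ S → ExV g (fun y => y ∈ S ∧ mm g x y = g.2.2))
    simp only [h.AllV_iff, h.ExV_iff]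
    intro a ha
    refine ⟨a⁻¹, ?_, ?_⟩
    · rw [hq.ker] at ha ⊢
      rw [map_inv, ha, inv_one]
    · rw [h.mul, mul_inv_cancel, h.one]
  · show ∀ k < ch + 2, IsKey ch k → ExV g (fun x => al.getD k 0 = x) ∧
      ∀ l < ch + 2, IsKey ch l → Eqv g S (al.getD (kmul ch k l) 0) (mm g (al.getD k 0)
        (al.getD l 0))
    rw [forall_key hc]
    intro u
    obtain ⟨a, ha1, ha2⟩ := hq.al u
    refine ⟨?_, ?_⟩
    · rw [h.ExV_iff]; exact ⟨a, ha1⟩
    · rw [forall_key hc]
      intro v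
      obtain ⟨b, hb1, hb2⟩ := hq.al v
      obtain ⟨d, hd1, hd2⟩ := hq.al (u * v)
      rw [← key_mul, ha1, hb1, hd1, h.mul, eqv_iff h hq.ker, hd2, map_mul, map_mul, ha2, hb2]

theorem cod0_of_base (h : Enc g A β) {ch : ℕ} {S al Hl : List ℕ}
    {Nl : List (ℕ × ℕ)} (hb : Base g (ch, S, al, Hl, Nl)) : (ch = 0 ∨ ch.Prime) ∧
    ∃ (B : Type) (_ : CommGroup B) (q : A →* B) (α : (ZMod ch)ˣ →* B), Cod0 β ch S al q α := by
  obtain ⟨h1, h2, h3, h4, h5⟩ := hb
  have hc : ch = 0 ∨ ch.Prime := by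
    rcases h1 with h1 | h1
    · exact Or.inl h1
    · exact Or.inr ((primeC_iff _).mp h1)
  refine ⟨hc, ?_⟩
  replace h2 : g.2.2 ∈ S := h2
  replace h3 : AllV g (fun x => x ∈ S → AllV g (fun y => y ∈ S → mm g x y ∈ S)) := h3
  replace h4 : AllV g (fun x => x ∈ S → ExV g (fun y => y ∈ S ∧ mm g x y = g.2.2)) := h4
  replace h5 : ∀ k < ch + 2, IsKey ch k → ExV g (fun x => al.getD k 0 = x) ∧
      ∀ l < ch + 2, IsKey ch l → Eqv g S (al.getD (kmul ch k l) 0) (mm g (al.getD k 0)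
        (al.getD l 0)) := h5
  simp only [h.AllV_iff, h.ExV_iff] at h3 h4 h5
  rw [h.one] at h2 h4
  let S' : Subgroup A :=
    { carrier := {a | β a ∈ S}
      mul_mem' := by
        intro a b ha hb
        have := h3 a ha b hb
        rwa [h.mul] at this
      one_mem' := h2
      inv_mem' := by
        intro a ha
        obtain ⟨b, hb1, hb2⟩ := h4 a ha
        rw [h.mul] at hb2
        have hb3 : a * b = 1 := h.inj hb2
        have hb4 : a⁻¹ = b := inv_eq_of_mul_eq_one_right hb3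
        show β a⁻¹ ∈ S
        rw [hb4]; exact hb1 }
  have hS' : ∀ a, β a ∈ S ↔ (QuotientGroup.mk' S') a = 1 := by
    intro a
    rw [QuotientGroup.mk'_apply, QuotientGroup.eq_one_iff]
    exact Iff.rfl
  rw [forall_key hc] at h5
  choose f hf using fun u => (h5 u).1
  have h6 : ∀ u v, (QuotientGroup.mk' S') (f (u * v)) =
      (QuotientGroup.mk' S') (f u) * (QuotientGroup.mk' S') (f v) := by
    intro u v
    have h7 := (h5 u).2
    rw [forall_key hc] at h7
    have h8 := h7 v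
    rw [← key_mul, hf, hf, hf, h.mul, eqv_iff h hS'] at h8
    rw [h8, map_mul]
  refine ⟨A ⧸ S', inferInstance, QuotientGroup.mk' S', MonoidHom.mk' (fun u =>
    (QuotientGroup.mk' S') (f u)) h6, QuotientGroup.mk'_surjective S', hS', ?_⟩
  intro u
  exact ⟨f u, hf u, rfl⟩

/-- factorisation through a surjection -/
theorem exists_factor {B B' : Type} [CommGroup B] [CommGroup B'] (q : A →* B) (q' : A →* B')
    (hq : Function.Surjective q) (hk : ∀ a, q a = 1 → q' a = 1) :
    ∃ φ : B →* B', ∀ a, φ (q a) = q' a := by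
  choose f hf using hq
  have key : ∀ a b, q a = q b → q' a = q' b := by
    intro a b hab
    have : q (a / b) = 1 := by rw [map_div, hab, div_self']
    have := hk _ this
    rw [map_div] at this
    exact div_eq_one.mp this
  refine ⟨MonoidHom.mk' (fun b => q' (f b)) ?_, ?_⟩
  · intro a b
    rw [← map_mul]
    apply key
    rw [hf, map_mul, hf, hf]
  · intro a
    exact key _ _ (hf _)

end cod

end RE

end HypQ
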