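import Pool.Agent.Lib.MP_9f0b3e_al.ReRules

/-!
# Coded derivations: the rule for finite chain rings
-/

set_option autoImplicit false

namespace HypQ

namespace RE

open CoRe Pointwise

/-! ### Coded rings -/

/-- `ρ` codes the ring `R` by the numbers below `r.1`. -/
structure EncR (r : RC) (R : Type) [CommRing R] (ρ : R → ℕ) : Prop where
  inj : Function.Injective ρ
  lt : ∀ x, ρ x < r.1
  surj : ∀ k < r.1, ∃ x, ρ x = k
  add : ∀ x y, tb r.2.1 (ρ x) (ρ y) = ρ (x + y)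
  mul : ∀ x y, tb r.2.2.1 (ρ x) (ρ y) = ρ (x * y)
  zero : r.2.2.2.1 = ρ 0
  one : r.2.2.2.2 = ρ 1

section encR

variable {r : RC} {R : Type} [CommRing R] {ρ : R → ℕ}

theorem EncR.forall_iff (h : EncR r R ρ) {P : ℕ → Prop} : (∀ k < r.1, P k) ↔ ∀ x, P (ρ x) := by
  constructor
  · intro hP x; exact hP _ (h.lt x)
  · intro hP k hk
    obtain ⟨x, rfl⟩ := h.surj k hk
    exact hP x

theorem EncR.exists_iff (h : EncR r R ρ) {P : ℕ → Prop} :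
    (∃ k < r.1, P k) ↔ ∃ x, P (ρ x) := by
  constructor
  · rintro ⟨k, hk, hP⟩
    obtain ⟨x, rfl⟩ := h.surj k hk
    exact ⟨x, hP⟩
  · rintro ⟨x, hP⟩; exact ⟨_, h.lt x, hP⟩

theorem EncR.rU (h : EncR r R ρ) (x : R) : RE.rU r (ρ x) ↔ IsUnit x := by
  unfold RE.rU
  rw [h.exists_iff, isUnit_iff_exists_inv]
  simp only [h.mul, h.one, h.inj.eq_iff]

theorem EncR.rpw (h : EncR r R ρ) (x : R) (k : ℕ) : RE.rpw r (ρ x) k = ρ (x ^ k) := by
  induction k with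
  | zero => rw [pow_zero]; exact h.one
  | succ k ih =>
    have : RE.rpw r (ρ x) (k + 1) = tb r.2.2.1 (ρ x) (RE.rpw r (ρ x) k) := rfl
    rw [this, ih, h.mul, pow_succ']

theorem EncR.rnat (h : EncR r R ρ) (k : ℕ) : RE.rnat r k = ρ (k : R) := by
  induction k with
  | zero => rw [Nat.cast_zero]; exact h.zero
  | succ k ih =>
    have : RE.rnat r (k + 1) = tb r.2.1 (RE.rnat r k) r.2.2.2.2 := rfl
    rw [this, ih, h.one, h.add, Nat.cast_succ]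

theorem EncR.ringOK (h : EncR r R ρ) : RingOK r := by
  unfold RingOK
  rw [h.forall_iff]
  refine ⟨?_, ?_, ?_⟩
  · rw [h.zero]; exact h.lt _
  · rw [h.one]; exact h.lt _
  · intro x
    rw [h.zero, h.one, h.add, h.mul, zero_add, one_mul, h.exists_iff, h.forall_iff]
    refine ⟨rfl, rfl, ⟨-x, ?_⟩, ?_⟩
    · rw [h.add, neg_add_cancel]
    · intro y
      rw [h.add, h.mul, h.mul, h.forall_iff]
      refine ⟨h.lt _, h.lt _, by rw [mul_comm], ?_⟩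
      intro z
      simp only [h.add, h.mul]
      exact ⟨by rw [add_assoc], by rw [mul_assoc], by rw [mul_add]⟩

theorem enc_of_ringOK {r : RC} (hr : RingOK r) :
    ∃ (R : Type) (_ : CommRing R) (_ : Finite R) (ρ : R → ℕ), EncR r R ρ := by
  obtain ⟨h0, h1, h2⟩ := hr
  have hadd : ∀ x y : Fin r.1, tb r.2.1 x y < r.1 := fun x y => ((h2 x x.2).2.2.2 y y.2).1
  have hmul : ∀ x y : Fin r.1, tb r.2.2.1 x y < r.1 := fun x y => ((h2 x x.2).2.2.2 y y.2).2.1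
  have hneg : ∀ x : Fin r.1, ∃ y : Fin r.1, tb r.2.1 y x = r.2.2.2.1 := by
    intro x
    obtain ⟨y, hy, hy2⟩ := (h2 x x.2).2.2.1
    exact ⟨⟨y, hy⟩, hy2⟩
  choose ng hng using hneg
  let _ : Add (Fin r.1) := ⟨fun x y => ⟨tb r.2.1 x y, hadd x y⟩⟩
  let _ : Mul (Fin r.1) := ⟨fun x y => ⟨tb r.2.2.1 x y, hmul x y⟩⟩
  let _ : Neg (Fin r.1) := ⟨ng⟩
  let _ : Zero (Fin r.1) := ⟨⟨r.2.2.2.1, h0⟩⟩
  let _ : One (Fin r.1) := ⟨⟨r.2.2.2.2, h1⟩⟩
  let inst : CommRing (Fin r.1) := CommRing.ofMinimalAxioms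
    (fun a b c => Fin.ext (((h2 a a.2).2.2.2 b b.2).2.2.2 c c.2).1)
    (fun a => Fin.ext (h2 a a.2).1)
    (fun a => Fin.ext (hng a))
    (fun a b c => Fin.ext (((h2 a a.2).2.2.2 b b.2).2.2.2 c c.2).2.1)
    (fun a b => Fin.ext ((h2 a a.2).2.2.2 b b.2).2.2.1)
    (fun a => Fin.ext (h2 a a.2).2.1)
    (fun a b c => Fin.ext (((h2 a a.2).2.2.2 b b.2).2.2.2 c c.2).2.2)
  refine ⟨Fin r.1, inst, inferInstance, fun x => x, ?_⟩
  exact
    { inj := fun a b hab => Fin.ext hab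
      lt := fun x => x.2
      surj := fun k hk => ⟨⟨k, hk⟩, rfl⟩
      add := fun x y => rfl
      mul := fun x y => rfl
      zero := rfl
      one := rfl }

/-- tables of functions -/
theorem exists_tb (n : ℕ) (f : ℕ → ℕ → ℕ) :
    ∃ T : List (List ℕ), ∀ x < n, ∀ y < n, tb T x y = f x y := by
  refine ⟨(List.range n).map (fun x => (List.range n).map (fun y => f x y)), ?_⟩
  intro x hx y hy
  unfold tb
  simp [List.getD, hx, hy]

theorem exists_list (n : ℕ) (f : ℕ → ℕ) : ∃ T : List ℕ, ∀ x < n, T.getD x 0 = f x := by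
  refine ⟨(List.range n).map f, ?_⟩
  intro x hx
  simp [List.getD, hx]

theorem exists_listl (n : ℕ) (f : ℕ → List ℕ) :
    ∃ T : List (List ℕ), ∀ x < n, T.getD x [] = f x := by
  refine ⟨(List.range n).map f, ?_⟩
  intro x hx
  simp [List.getD, hx]

theorem exists_encR (R : Type) [CommRing R] [Finite R] : ∃ (r : RC) (ρ : R → ℕ), EncR r R ρ := by
  classical
  obtain ⟨n, ⟨e⟩⟩ := Finite.exists_equiv_fin R
  obtain ⟨T₁, hT₁⟩ := exists_tb n (fun x y => if h : x < n ∧ y < n then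
    (e (e.symm ⟨x, h.1⟩ + e.symm ⟨y, h.2⟩) : ℕ) else 0)
  obtain ⟨T₂, hT₂⟩ := exists_tb n (fun x y => if h : x < n ∧ y < n then
    (e (e.symm ⟨x, h.1⟩ * e.symm ⟨y, h.2⟩) : ℕ) else 0)
  refine ⟨(n, T₁, T₂, (e 0 : ℕ), (e 1 : ℕ)), fun x => (e x : ℕ), ?_⟩
  exact
    { inj := fun a b hab => e.injective (Fin.ext hab)
      lt := fun x => (e x).2
      surj := fun k hk => ⟨e.symm ⟨k, hk⟩, by simp⟩
      add := fun x y => by
        show tb T₁ (e x) (e y) = _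
        rw [hT₁ _ (e x).2 _ (e y).2, dif_pos ⟨(e x).2, (e y).2⟩]
        simp
      mul := fun x y => by
        show tb T₂ (e x) (e y) = _
        rw [hT₂ _ (e x).2 _ (e y).2, dif_pos ⟨(e x).2, (e y).2⟩]
        simp
      zero := rfl
      one := rfl }

end encR

/-! ### Place sets -/

section place

variable {g : Ctx} {A : Type} [CommGroup A] {β : A → ℕ} {B : Type} [CommGroup B]
variable {S : List ℕ} {q : A →* B}

theorem place_iff (h : Enc g A β) (hqs : Function.Surjective q) (hS : ∀ a, β a ∈ S ↔ q a = 1)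
    {W : ℕ → ℕ → Prop} {Y : Set (B × B)} (hW : ∀ a b, W (β a) (β b) ↔ (q a, q b) ∈ Y)
    {ε : B} {e : A} (he : q e = ε) (a b : A) :
    (W (β a) (β b) ∨ W (β b) (β a) ∨ ExV g (fun y' => ExV g (fun b' => W y' b' ∧
      mm g (β a) y' ∈ S ∧ Eqv g S (β b) (mm g (mm g (β e) b') (β a))))) ↔
    (q a, q b) ∈ placeSet ε Y := by
  simp only [h.ExV_iff, hW, h.mul, hS, eqv_iff h hS]
  unfold placeSet
  rw [Set.mem_ofPred_eq]
  constructor
  · rintro (h1 | h1 | ⟨y', b', h1, h2, h3⟩)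
    · exact ⟨_, _, h1, Or.inl rfl⟩
    · exact ⟨_, _, h1, Or.inr (Or.inl rfl)⟩
    · refine ⟨_, _, h1, Or.inr (Or.inr ?_)⟩
      rw [map_mul] at h2
      have h4 : q a = (q y')⁻¹ := eq_inv_of_mul_eq_one_left h2
      rw [Prod.mk.injEq]
      refine ⟨h4, ?_⟩
      rw [h3, map_mul, map_mul, he, h4]
  · rintro ⟨y, b', h1, h2 | h2 | h2⟩
    · rw [Prod.mk.injEq] at h2
      left
      rw [h2.1, h2.2]; exact h1
    · rw [Prod.mk.injEq] at h2
      right; left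
      rw [h2.1, h2.2]; exact h1
    · rw [Prod.mk.injEq] at h2
      right; right
      obtain ⟨y', rfl⟩ := hqs y
      obtain ⟨b'', rfl⟩ := hqs b'
      refine ⟨y', b'', h1, ?_, ?_⟩
      · rw [map_mul, h2.1, inv_mul_cancel]
      · rw [map_mul, map_mul, he, h2.2, h2.1]

/-- reduction of exponents -/
theorem exists_small_exp {m : ℕ} (hm : 0 < m) (N n : ℕ) (hn : 1 ≤ n) :
    ∃ k, 0 < k ∧ k < N + m + 1 ∧ k % m = n % m ∧ (k = n ∨ (N ≤ k ∧ N ≤ n)) := by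
  by_cases h : n < N + m + 1
  · exact ⟨n, hn, h, rfl, Or.inl rfl⟩
  · refine ⟨N + 1 + (n - (N + 1)) % m, by omega, ?_, ?_, Or.inr ⟨by omega, by omega⟩⟩
    · have := Nat.mod_lt (n - (N + 1)) hm
      omega
    · rw [Nat.add_mod, Nat.mod_mod, ← Nat.add_mod]
      congr 1
      omega

theorem pow_eq_of_mod {m k n : ℕ} {t : A} (ht : t ^ m = 1) (hk : k % m = n % m) :
    t ^ k = t ^ n := by
  rw [← Nat.div_add_mod k m, ← Nat.div_add_mod n m, pow_add, pow_add, pow_mul, pow_mul, ht, hk]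
  simp

end place

/-! ### The rule -/

section fin

variable {g : Ctx} {A : Type} [CommGroup A] {β : A → ℕ} {B : Type} [CommGroup B]
variable {ch : ℕ} {S al Hl : List ℕ} {Nl : List (ℕ × ℕ)} {q : A →* B} {α : (ZMod ch)ˣ →* B}
variable {R : Type} [CommRing R] {ρ : R → ℕ} {w : Wit}

theorem smR_iff [Finite A] (h : Enc g A β) (hcard : Nat.card A < nn g)
    (hS : ∀ a, β a ∈ S ↔ q a = 1) (hr : EncR w.1 R ρ)
    (X : Rˣ →* B) (hX : ∀ u : Rˣ, ∃ a, w.2.2.1.getD (ρ u) 0 = β a ∧ q a = X u)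
    {t : A} (ht : w.2.1.2.2 = β t) {π : R} (hπ : w.2.1.1 = ρ π) (hnil : π ^ w.2.1.2.1 = 0)
    (a b : A) :
    smR g S w (β a) (β b) ↔ (q a, q b) ∈ smallSet π X (q t) := by
  unfold smR smallSet
  rw [Set.mem_ofPred_eq]
  have e1 : ∀ k, (∃ a' < w.1.1, RE.rU w.1 a' ∧ ∃ b' < w.1.1, RE.rU w.1 b' ∧
      tb w.1.2.1 b' (tb w.1.2.2.1 (RE.rpw w.1 w.2.1.1 k) a') = w.1.2.2.2.2 ∧
      Eqv g S (β a) (mm g (RE.pw g w.2.1.2.2 k) (w.2.2.1.getD a' 0)) ∧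
      Eqv g S (β b) (w.2.2.1.getD b' 0)) ↔
      ∃ u v : Rˣ, (v : R) = 1 - π ^ k * u ∧ (q a, q b) = (q t ^ k * X u, X v) := by
    intro k
    rw [hr.exists_iff]
    constructor
    · rintro ⟨x, hx, y, hy1, hy2, hy3, hy4, hy5⟩
      obtain ⟨y', rfl⟩ := hr.surj y hy1
      rw [hr.rU] at hx hy2
      obtain ⟨u, rfl⟩ := hx
      obtain ⟨v, rfl⟩ := hy2
      rw [hπ, hr.rpw, hr.mul, hr.add, hr.one, hr.inj.eq_iff] at hy3
      obtain ⟨a₁, ha1, ha2⟩ := hX u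
      obtain ⟨b₁, hb1, hb2⟩ := hX v
      rw [ht, ha1, h.pw, h.mul, eqv_iff h hS] at hy4
      rw [hb1, eqv_iff h hS] at hy5
      refine ⟨u, v, ?_, ?_⟩
      · rw [← hy3]; ring
      · rw [Prod.mk.injEq]
        refine ⟨?_, ?_⟩
        · rw [hy4, map_mul, map_pow, ha2]
        · rw [hy5, hb2]
    · rintro ⟨u, v, h1, h2⟩
      rw [Prod.mk.injEq] at h2
      refine ⟨(u : R), (hr.rU _).mpr u.isUnit, ρ v, hr.lt _, (hr.rU _).mpr v.isUnit, ?_, ?_, ?_⟩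
      · rw [hπ, hr.rpw, hr.mul, hr.add, hr.one, hr.inj.eq_iff, h1]; ring
      · obtain ⟨a₁, ha1, ha2⟩ := hX u
        rw [ht, ha1, h.pw, h.mul, eqv_iff h hS, map_mul, map_pow, ha2, h2.1]
      · obtain ⟨b₁, hb1, hb2⟩ := hX v
        rw [hb1, eqv_iff h hS, hb2, h2.2]
  constructor
  · rintro ⟨k, hk1, hk2, hk3⟩
    obtain ⟨u, v, h1, h2⟩ := (e1 k).mp hk3
    exact ⟨k, u, v, hk2, h1, h2⟩
  · rintro ⟨n, u, v, hn, h1, h2⟩
    have hm : 0 < Nat.card A := Nat.card_pos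
    obtain ⟨k, hk1, hk2, hk3, hk4⟩ := exists_small_exp hm w.2.1.2.1 n hn
    refine ⟨k, by omega, hk1, (e1 k).mpr ⟨u, v, ?_, ?_⟩⟩
    · rcases hk4 with hk4 | ⟨hk4, hk5⟩
      · rw [hk4, h1]
      · rw [h1, pow_eq_zero_of_le hk4 hnil, pow_eq_zero_of_le hk5 hnil]
    · rw [h2]
      have h3 : q t ^ k = q t ^ n := by
        rw [← map_pow, ← map_pow, pow_eq_of_mod (pow_card_eq_one') hk3]
      rw [h3]

theorem finR_iff [Finite A] (h : Enc g A β) (hcard : Nat.card A < nn g)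
    (hc : ch = 0 ∨ ch.Prime) (hq : Cod0 β ch S al q α) (hr : EncR w.1 R ρ)
    (X : Rˣ →* B) (hX : ∀ u : Rˣ, ∃ a, w.2.2.1.getD (ρ u) 0 = β a ∧ q a = X u)
    {t : A} (ht : w.2.1.2.2 = β t) {π : R} (hπ : w.2.1.1 = ρ π) (j : ZMod ch →+* R) :
    finR g w (ch, S, al, Hl, Nl) ↔ ((0 : R) ≠ 1 ∧ π ^ w.2.1.2.1 = 0 ∧
      (∀ x : R, IsUnit x ∨ ∃ y, x = π * y)) ∧ α = X.comp (Units.map j.toMonoidHom) ∧
      CodHN β Hl Nl q (X.range ⊔ Subgroup.zpowers (q t)) (NR π X (q t)) := by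
  have hj : ((ch : ℕ) : R) = 0 := by
    have : ((ch : ℕ) : R) = j ((ch : ℕ) : ZMod ch) := by rw [map_natCast]
    rw [this, ZMod.natCast_self, map_zero]
  obtain ⟨e, he1, he2⟩ := hq.al (-1)
  rw [key_neg_one hc] at he1
  unfold finR
  show (RingOK w.1 ∧ ¬ w.1.2.2.2.1 = w.1.2.2.2.2 ∧ w.2.1.1 < w.1.1 ∧
    RE.rpw w.1 w.2.1.1 w.2.1.2.1 = w.1.2.2.2.1 ∧
    (∀ x < w.1.1, RE.rU w.1 x ∨ ∃ y < w.1.1, x = tb w.1.2.2.1 w.2.1.1 y) ∧
    (∀ x < w.1.1, RE.rU w.1 x → ExV g (fun a => w.2.2.1.getD x 0 = a) ∧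
      ∀ y < w.1.1, RE.rU w.1 y → Eqv g S (w.2.2.1.getD (tb w.1.2.2.1 x y) 0)
        (mm g (w.2.2.1.getD x 0) (w.2.2.1.getD y 0))) ∧
    ExV g (fun a => w.2.1.2.2 = a) ∧
    RE.rnat w.1 ch = w.1.2.2.2.1 ∧
    (∀ k < ch + 2, IsKey ch k → ∀ z < w.1.1,
      ((¬ ch = 0 ∧ z = RE.rnat w.1 k) ∨ (ch = 0 ∧ k = 1 ∧ z = w.1.2.2.2.2) ∨
        (ch = 0 ∧ k = 0 ∧ tb w.1.2.1 z w.1.2.2.2.2 = w.1.2.2.2.1)) →
        Eqv g S (al.getD k 0) (w.2.2.1.getD z 0)) ∧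
    AllV g (fun x => x ∈ Hl ↔ ∃ u < w.1.1, RE.rU w.1 u ∧ ∃ k < nn g,
      Eqv g S x (mm g (w.2.2.1.getD u 0) (RE.pw g w.2.1.2.2 k))) ∧
    AllV g (fun x => AllV g (fun y => (x, y) ∈ Nl ↔
      (∃ u < w.1.1, RE.rU w.1 u ∧ ∃ v < w.1.1, RE.rU w.1 v ∧ tb w.1.2.1 u v = w.1.2.2.2.2 ∧
        Eqv g S x (w.2.2.1.getD u 0) ∧ Eqv g S y (w.2.2.1.getD v 0)) ∨
      smR g S w x y ∨ smR g S w y x ∨
      ExV g (fun y' => ExV g (fun b => smR g S w y' b ∧ mm g x y' ∈ S ∧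
        Eqv g S y (mm g (mm g (al.getD (ch - 1) 0) b) x)))))) ↔ _
  rw [he1]
  -- the character on the prime ring
  have eα : (∀ k < ch + 2, IsKey ch k → ∀ z < w.1.1,
      ((¬ ch = 0 ∧ z = RE.rnat w.1 k) ∨ (ch = 0 ∧ k = 1 ∧ z = w.1.2.2.2.2) ∨
        (ch = 0 ∧ k = 0 ∧ tb w.1.2.1 z w.1.2.2.2.2 = w.1.2.2.2.1)) →
        Eqv g S (al.getD k 0) (w.2.2.1.getD z 0)) ↔ α = X.comp (Units.map j.toMonoidHom) := by
    rw [forall_key hc]
    have key1 : ∀ (u : (ZMod ch)ˣ) (z : R),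
        ((¬ ch = 0 ∧ ρ z = RE.rnat w.1 (key ch u)) ∨ (ch = 0 ∧ key ch u = 1 ∧
          ρ z = w.1.2.2.2.2) ∨ (ch = 0 ∧ key ch u = 0 ∧
          tb w.1.2.1 (ρ z) w.1.2.2.2.2 = w.1.2.2.2.1)) ↔ z = j (u : ZMod ch) := by
      intro u z
      rw [hr.rnat, hr.one, hr.zero, hr.add, hr.inj.eq_iff, hr.inj.eq_iff, hr.inj.eq_iff]
      by_cases h0 : ch = 0
      · subst h0
        simp only [true_and, not_true_eq_false, false_and, false_or]
        rcases key_zero u with ⟨h1, h2⟩ | ⟨h1, h2⟩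
        · rw [h1] at h2 ⊢
          simp [h2]
        · rw [h1] at h2 ⊢
          simp only [h2, zero_ne_one, false_and, true_and, false_or, Units.val_neg,
            Units.val_one, map_neg, map_one]
          exact ⟨fun hz => eq_neg_of_add_eq_zero_left hz, fun hz => by rw [hz]; ring⟩
      · have hp : ch.Prime := hc.resolve_left h0
        have : Fact ch.Prime := ⟨hp⟩
        simp only [h0, not_false_eq_true, true_and, false_and, or_false]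
        rw [key_pos h0]
        have h1 : ((u : ZMod ch).val : R) = j (u : ZMod ch) := by
          rw [← map_natCast j, ZMod.natCast_zmod_val]
        rw [h1]
    have key2 : ∀ u : (ZMod ch)ˣ, (∀ z < w.1.1,
        ((¬ ch = 0 ∧ z = RE.rnat w.1 (key ch u)) ∨ (ch = 0 ∧ key ch u = 1 ∧
          z = w.1.2.2.2.2) ∨ (ch = 0 ∧ key ch u = 0 ∧
          tb w.1.2.1 z w.1.2.2.2.2 = w.1.2.2.2.1)) →
          Eqv g S (al.getD (key ch u) 0) (w.2.2.1.getD z 0)) ↔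
        α u = X (Units.map j.toMonoidHom u) := by
      intro u
      rw [hr.forall_iff]
      obtain ⟨a₁, ha1, ha2⟩ := hX (Units.map j.toMonoidHom u)
      have ha3 : w.2.2.1.getD (ρ (j (u : ZMod ch))) 0 = β a₁ := ha1
      constructor
      · intro hz
        have := hz (j (u : ZMod ch)) ((key1 u _).mpr rfl)
        rw [ha3, key_al h hq] at this
        rw [this, ha2]
      · intro hu z hz
        rw [(key1 u z).mp hz, ha3, key_al h hq, ha2, hu]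
    simp only [key2]
    constructor
    · intro h1; ext u; exact h1 u
    · intro h1 u; rw [h1]; rfl
  rw [eα]
  simp only [hr.forall_iff, h.AllV_iff]
  -- H
  have eH : ∀ a, (∃ u < w.1.1, RE.rU w.1 u ∧ ∃ k < nn g,
      Eqv g S (β a) (mm g (w.2.2.1.getD u 0) (RE.pw g w.2.1.2.2 k))) ↔
      q a ∈ X.range ⊔ Subgroup.zpowers (q t) := by
    intro a
    rw [hr.exists_iff, Subgroup.mem_sup]
    constructor
    · rintro ⟨x, hx, k, hk, hk2⟩
      rw [hr.rU] at hx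
      obtain ⟨u, rfl⟩ := hx
      obtain ⟨a₁, ha1, ha2⟩ := hX u
      rw [ha1, ht, h.pw, h.mul, eqv_iff h hq.ker] at hk2
      refine ⟨X u, ⟨u, rfl⟩, q t ^ k, Subgroup.npow_mem_zpowers _ _, ?_⟩
      rw [hk2, map_mul, map_pow, ha2]
    · rintro ⟨y, ⟨u, rfl⟩, z, ⟨n, rfl⟩, hyz⟩
      have h1 : t ^ n ∈ Subgroup.zpowers t := ⟨n, rfl⟩
      obtain ⟨k, hk, hk2⟩ := exists_pow_lt hcard t _ h1
      obtain ⟨a₁, ha1, ha2⟩ := hX u
      refine ⟨(u : R), (hr.rU _).mpr u.isUnit, k, hk, ?_⟩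
      rw [ha1, ht, h.pw, h.mul, eqv_iff h hq.ker, ← hyz, map_mul, ha2, hk2, map_zpow]
  simp only [eH]
  have eU : ∀ a b, (∃ u < w.1.1, RE.rU w.1 u ∧ ∃ v < w.1.1, RE.rU w.1 v ∧
      tb w.1.2.1 u v = w.1.2.2.2.2 ∧
        Eqv g S (β a) (w.2.2.1.getD u 0) ∧ Eqv g S (β b) (w.2.2.1.getD v 0)) ↔
      (q a, q b) ∈ unitSet X := by
    intro a b
    rw [hr.exists_iff]
    unfold unitSet
    rw [Set.mem_ofPred_eq]
    constructor
    · rintro ⟨x, hx, y, hy1, hy2, hy3, hy4, hy5⟩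
      obtain ⟨y', rfl⟩ := hr.surj y hy1
      rw [hr.rU] at hx hy2
      obtain ⟨u, rfl⟩ := hx
      obtain ⟨v, rfl⟩ := hy2
      rw [hr.add, hr.one, hr.inj.eq_iff] at hy3
      obtain ⟨a₁, ha1, ha2⟩ := hX u
      obtain ⟨b₁, hb1, hb2⟩ := hX v
      rw [ha1, eqv_iff h hq.ker] at hy4
      rw [hb1, eqv_iff h hq.ker] at hy5
      exact ⟨u, v, hy3, by rw [hy4, hy5, ha2, hb2]⟩
    · rintro ⟨u, v, h1, h2⟩
      rw [Prod.mk.injEq] at h2
      refine ⟨(u : R), (hr.rU _).mpr u.isUnit, ρ v, hr.lt _, (hr.rU _).mpr v.isUnit, ?_, ?_, ?_⟩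
      · rw [hr.add, hr.one, h1]
      · obtain ⟨a₁, ha1, ha2⟩ := hX u
        rw [ha1, eqv_iff h hq.ker, ha2, h2.1]
      · obtain ⟨b₁, hb1, hb2⟩ := hX v
        rw [hb1, eqv_iff h hq.ker, hb2, h2.2]
  have eC : (∀ x : R, RE.rU w.1 (ρ x) ∨ ∃ y < w.1.1, ρ x = tb w.1.2.2.1 w.2.1.1 y) ↔
      ∀ x : R, IsUnit x ∨ ∃ y, x = π * y := by
    constructor
    · intro h1 x
      rcases h1 x with h2 | ⟨y, hy, h2⟩
      · left; rwa [hr.rU] at h2
      · right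
        obtain ⟨y', rfl⟩ := hr.surj y hy
        rw [hπ, hr.mul, hr.inj.eq_iff] at h2
        exact ⟨y', h2⟩
    · intro h1 x
      rcases h1 x with h2 | ⟨y, h2⟩
      · left; rwa [hr.rU]
      · right
        refine ⟨ρ y, hr.lt _, ?_⟩
        rw [hπ, hr.mul, ← h2]
  rw [eC]
  have eN : π ^ w.2.1.2.1 = 0 → α = X.comp (Units.map j.toMonoidHom) → ∀ a b,
      (smR g S w (β a) (β b) ∨ smR g S w (β b) (β a) ∨
      ExV g (fun y' => ExV g (fun b' => smR g S w y' b' ∧ mm g (β a) y' ∈ S ∧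
        Eqv g S (β b) (mm g (mm g (β e) b') (β a))))) ↔
      (q a, q b) ∈ placeSet (X (-1)) (smallSet π X (q t)) := by
    intro h1 h2 a b
    apply place_iff h hq.surj hq.ker
    · intro a b
      exact smR_iff h hcard hq.ker hr X hX ht hπ h1 a b
    · rw [he2, h2]
      simp
  constructor
  · rintro ⟨h1, h2, h3, h4, h5, h6, h7, h8, h9, h10, h11⟩
    rw [hr.zero, hr.one, hr.inj.eq_iff] at h2
    rw [hπ, hr.rpw, hr.zero, hr.inj.eq_iff] at h4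
    refine ⟨⟨h2, h4, h5⟩, h9, ⟨h10, ?_⟩⟩
    intro a b
    rw [h11, eU, eN h4 h9]
    rfl
  · rintro ⟨⟨h2, h4, h5⟩, h9, h12⟩
    refine ⟨hr.ringOK, ?_, ?_, ?_, h5, ?_, ?_, ?_, h9, h12.H, ?_⟩
    · rw [hr.zero, hr.one, hr.inj.eq_iff]; exact h2
    · rw [hπ]; exact hr.lt _
    · rw [hπ, hr.rpw, h4, hr.zero]
    · intro x hx
      rw [hr.rU] at hx
      obtain ⟨u, rfl⟩ := hx
      obtain ⟨a₁, ha1, ha2⟩ := hX u
      refine ⟨?_, ?_⟩
      · rw [h.ExV_iff]; exact ⟨a₁, ha1⟩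
      · intro y hy
        rw [hr.rU] at hy
        obtain ⟨v, rfl⟩ := hy
        obtain ⟨b₁, hb1, hb2⟩ := hX v
        obtain ⟨d₁, hd1, hd2⟩ := hX (u * v)
        rw [hr.mul, ← Units.val_mul, hd1, ha1, hb1, h.mul, eqv_iff h hq.ker, hd2, map_mul,
          map_mul, ha2, hb2]
    · rw [h.ExV_iff]; exact ⟨t, ht⟩
    · rw [hr.rnat, hj, hr.zero]
    · intro a b
      rw [h12.N, eU, eN h4 h9]
      rfl

end fin

end RE

end HypQ
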