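import Pool.Agent.Lib.MP_9f0b3e_al.ReDef

/-!
# Coded derivations: primitive recursiveness of the rules
-/

set_option autoImplicit false
set_option maxHeartbeats 4000000

namespace HypQ

namespace RE

open CoRe

section

variable {β : Type*} [Primcodable β]

theorem rpw_p {r : β → RC} {f h : β → ℕ} (hr : Primrec r) (hf : Primrec f) (hh : Primrec h) :
    Primrec (fun x => rpw (r x) (f x) (h x)) := by
  unfold rpw
  refine Primrec.nat_rec' (h := fun x (q : ℕ × ℕ) => tb (r x).2.2.1 (f x) q.2) hh
    (Primrec.snd.comp (Primrec.snd.comp (Primrec.snd.comp (Primrec.snd.comp hr)))) ?_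
  exact tb_p ((Primrec.fst.comp (Primrec.snd.comp (Primrec.snd.comp hr))).comp Primrec.fst)
    (hf.comp Primrec.fst) (Primrec.snd.comp Primrec.snd)

theorem rnat_p {r : β → RC} {h : β → ℕ} (hr : Primrec r) (hh : Primrec h) :
    Primrec (fun x => rnat (r x) (h x)) := by
  unfold rnat
  refine Primrec.nat_rec' (h := fun x (q : ℕ × ℕ) => tb (r x).2.1 q.2 (r x).2.2.2.2) hh
    (Primrec.fst.comp (Primrec.snd.comp (Primrec.snd.comp (Primrec.snd.comp hr)))) ?_
  exact tb_p ((Primrec.fst.comp (Primrec.snd.comp hr)).comp Primrec.fst)
    (Primrec.snd.comp Primrec.snd)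
    ((Primrec.snd.comp (Primrec.snd.comp (Primrec.snd.comp (Primrec.snd.comp hr)))).comp
      Primrec.fst)

end

theorem Base_p : PrimrecPred (fun x : Ctx × State => Base x.1 x.2) := by
  unfold Base
  repeat' (with_reducible first
    | apply iff_p | apply and_p | apply or_p
    | apply AllV_p | apply ExV_p | apply Eqv_p | apply mem_p | apply mem2_p
    | apply IsKey_p | apply kmul_p | apply PrimeC_p
    | apply forall_lt_p | apply exists_lt_p
    | apply not_p | apply eq_p | apply lt_p | apply le_p
    | apply imp_p
    | apply mm_p | apply pw_p | apply tb_p | apply getDn_p | apply getDl_p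
    | apply add_p | apply sub_p | apply mul_p | apply min_p | apply nn_p
    | exact Primrec.fst | exact Primrec.snd | exact Primrec.id
    | apply Primrec.fst.comp | apply Primrec.snd.comp
    | exact Primrec.const _)

theorem trivR_p : PrimrecPred (fun x : Ctx × State => trivR x.1 x.2) := by
  unfold trivR
  repeat' (with_reducible first
    | apply iff_p | apply and_p | apply or_p
    | apply AllV_p | apply ExV_p | apply Eqv_p | apply mem_p | apply mem2_p
    | apply IsKey_p | apply kmul_p | apply PrimeC_p
    | apply forall_lt_p | apply exists_lt_p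
    | apply not_p | apply eq_p | apply lt_p | apply le_p
    | apply imp_p
    | apply mm_p | apply pw_p | apply tb_p | apply getDn_p | apply getDl_p
    | apply add_p | apply sub_p | apply mul_p | apply min_p | apply nn_p
    | exact Primrec.fst | exact Primrec.snd | exact Primrec.id
    | apply Primrec.fst.comp | apply Primrec.snd.comp
    | exact Primrec.const _)

theorem signR_p : PrimrecPred (fun x : Ctx × State => signR x.1 x.2) := by
  unfold signR
  repeat' (with_reducible first
    | apply iff_p | apply and_p | apply or_p
    | apply AllV_p | apply ExV_p | apply Eqv_p | apply mem_p | apply mem2_p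
    | apply IsKey_p | apply kmul_p | apply PrimeC_p
    | apply forall_lt_p | apply exists_lt_p
    | apply not_p | apply eq_p | apply lt_p | apply le_p
    | apply imp_p
    | apply mm_p | apply pw_p | apply tb_p | apply getDn_p | apply getDl_p
    | apply add_p | apply sub_p | apply mul_p | apply min_p | apply nn_p
    | exact Primrec.fst | exact Primrec.snd | exact Primrec.id
    | apply Primrec.fst.comp | apply Primrec.snd.comp
    | exact Primrec.const _)

theorem prodR_p : PrimrecPred (fun x : Ctx × State × State × State =>
    prodR x.1 x.2.1 x.2.2.1 x.2.2.2) := by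
  unfold prodR sameK
  repeat' (with_reducible first
    | apply iff_p | apply and_p | apply or_p
    | apply AllV_p | apply ExV_p | apply Eqv_p | apply mem_p | apply mem2_p
    | apply IsKey_p | apply kmul_p | apply PrimeC_p
    | apply forall_lt_p | apply exists_lt_p
    | apply not_p | apply eq_p | apply lt_p | apply le_p
    | apply imp_p
    | apply mm_p | apply pw_p | apply tb_p | apply getDn_p | apply getDl_p
    | apply add_p | apply sub_p | apply mul_p | apply min_p | apply nn_p
    | exact Primrec.fst | exact Primrec.snd | exact Primrec.id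
    | apply Primrec.fst.comp | apply Primrec.snd.comp
    | exact Primrec.const _)

theorem liftR_p : PrimrecPred (fun x : Ctx × State × State => liftR x.1 x.2.1 x.2.2) := by
  unfold liftR sameHN
  repeat' (with_reducible first
    | apply iff_p | apply and_p | apply or_p
    | apply AllV_p | apply ExV_p | apply Eqv_p | apply mem_p | apply mem2_p
    | apply IsKey_p | apply kmul_p | apply PrimeC_p
    | apply forall_lt_p | apply exists_lt_p
    | apply not_p | apply eq_p | apply lt_p | apply le_p
    | apply imp_p
    | apply mm_p | apply pw_p | apply tb_p | apply getDn_p | apply getDl_p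
    | apply add_p | apply sub_p | apply mul_p | apply min_p | apply nn_p
    | exact Primrec.fst | exact Primrec.snd | exact Primrec.id
    | apply Primrec.fst.comp | apply Primrec.snd.comp
    | exact Primrec.const _)

theorem tameR_p : PrimrecPred (fun x : Ctx × ℕ × State × State =>
    tameR x.1 x.2.1 x.2.2.1 x.2.2.2) := by
  unfold tameR sameK
  repeat' (with_reducible first
    | apply iff_p | apply and_p | apply or_p
    | apply AllV_p | apply ExV_p | apply Eqv_p | apply mem_p | apply mem2_p
    | apply IsKey_p | apply kmul_p | apply PrimeC_p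
    | apply forall_lt_p | apply exists_lt_p
    | apply not_p | apply eq_p | apply lt_p | apply le_p
    | apply imp_p
    | apply mm_p | apply pw_p | apply tb_p | apply getDn_p | apply getDl_p
    | apply add_p | apply sub_p | apply mul_p | apply min_p | apply nn_p
    | exact Primrec.fst | exact Primrec.snd | exact Primrec.id
    | apply Primrec.fst.comp | apply Primrec.snd.comp
    | exact Primrec.const _)

theorem redR_p : PrimrecPred (fun x : Ctx × State × State => redR x.1 x.2.1 x.2.2) := by
  unfold redR sameHN
  repeat' (with_reducible first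
    | apply iff_p | apply and_p | apply or_p
    | apply AllV_p | apply ExV_p | apply Eqv_p | apply mem_p | apply mem2_p
    | apply IsKey_p | apply kmul_p | apply PrimeC_p
    | apply forall_lt_p | apply exists_lt_p
    | apply not_p | apply eq_p | apply lt_p | apply le_p
    | apply imp_p
    | apply mm_p | apply pw_p | apply tb_p | apply getDn_p | apply getDl_p
    | apply add_p | apply sub_p | apply mul_p | apply min_p | apply nn_p
    | exact Primrec.fst | exact Primrec.snd | exact Primrec.id
    | apply Primrec.fst.comp | apply Primrec.snd.comp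
    | exact Primrec.const _)

theorem RingOK_p : PrimrecPred (fun x : RC => RingOK x) := by
  unfold RingOK
  repeat' (with_reducible first
    | apply iff_p | apply and_p | apply or_p
    | apply AllV_p | apply ExV_p | apply Eqv_p | apply mem_p | apply mem2_p
    | apply IsKey_p | apply kmul_p | apply PrimeC_p
    | apply forall_lt_p | apply exists_lt_p
    | apply not_p | apply eq_p | apply lt_p | apply le_p
    | apply imp_p
    | apply mm_p | apply pw_p | apply tb_p | apply getDn_p | apply getDl_p
    | apply add_p | apply sub_p | apply mul_p | apply min_p | apply nn_p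
    | exact Primrec.fst | exact Primrec.snd | exact Primrec.id
    | apply Primrec.fst.comp | apply Primrec.snd.comp
    | exact Primrec.const _)

theorem rU_p : PrimrecPred (fun x : RC × ℕ => rU x.1 x.2) := by
  unfold rU
  repeat' (with_reducible first
    | apply iff_p | apply and_p | apply or_p
    | apply AllV_p | apply ExV_p | apply Eqv_p | apply mem_p | apply mem2_p
    | apply IsKey_p | apply kmul_p | apply PrimeC_p
    | apply forall_lt_p | apply exists_lt_p
    | apply not_p | apply eq_p | apply lt_p | apply le_p
    | apply imp_p
    | apply mm_p | apply pw_p | apply tb_p | apply getDn_p | apply getDl_p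
    | apply add_p | apply sub_p | apply mul_p | apply min_p | apply nn_p
    | exact Primrec.fst | exact Primrec.snd | exact Primrec.id
    | apply Primrec.fst.comp | apply Primrec.snd.comp
    | exact Primrec.const _)

theorem rU_p' {β : Type*} [Primcodable β] {r : β → RC} {f : β → ℕ} (hr : Primrec r)
    (hf : Primrec f) : PrimrecPred (fun x => rU (r x) (f x)) :=
  rU_p.comp (Primrec.pair hr hf)

theorem smR_p0 : PrimrecPred (fun x : Ctx × List ℕ × Wit × ℕ × ℕ =>
    smR x.1 x.2.1 x.2.2.1 x.2.2.2.1 x.2.2.2.2) := by
  unfold smR
  repeat' (with_reducible first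
    | apply iff_p | apply and_p | apply or_p
    | apply AllV_p | apply ExV_p | apply Eqv_p | apply mem_p | apply mem2_p
    | apply rU_p' | apply IsKey_p | apply kmul_p | apply PrimeC_p
    | apply forall_lt_p | apply exists_lt_p
    | apply not_p | apply eq_p | apply lt_p | apply le_p
    | apply imp_p
    | apply mm_p | apply pw_p | apply tb_p | apply getDn_p | apply getDl_p
    | apply rpw_p | apply rnat_p
    | apply add_p | apply sub_p | apply mul_p | apply min_p | apply nn_p
    | exact Primrec.fst | exact Primrec.snd | exact Primrec.id
    | apply Primrec.fst.comp | apply Primrec.snd.comp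
    | exact Primrec.const _)

theorem smR_p {β : Type*} [Primcodable β] {g : β → Ctx} {S : β → List ℕ} {w : β → Wit}
    {f h : β → ℕ} (hg : Primrec g) (hS : Primrec S) (hw : Primrec w)
    (hf : Primrec f) (hh : Primrec h) :
    PrimrecPred (fun x => smR (g x) (S x) (w x) (f x) (h x)) :=
  smR_p0.comp (Primrec.pair hg (Primrec.pair hS (Primrec.pair hw (Primrec.pair hf hh))))

theorem finR_p : PrimrecPred (fun x : Ctx × Wit × State => finR x.1 x.2.1 x.2.2) := by
  unfold finR
  refine and_p (RingOK_p.comp (Primrec.fst.comp (Primrec.fst.comp Primrec.snd))) ?_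
  repeat' (with_reducible first
    | apply iff_p | apply and_p | apply or_p
    | apply AllV_p | apply ExV_p | apply Eqv_p | apply mem_p | apply mem2_p
    | apply rU_p' | apply IsKey_p | apply kmul_p | apply PrimeC_p | apply smR_p
    | apply forall_lt_p | apply exists_lt_p
    | apply not_p | apply eq_p | apply lt_p | apply le_p
    | apply imp_p
    | apply mm_p | apply pw_p | apply tb_p | apply getDn_p | apply getDl_p
    | apply rpw_p | apply rnat_p
    | apply add_p | apply sub_p | apply mul_p | apply min_p | apply nn_p
    | exact Primrec.fst | exact Primrec.snd | exact Primrec.id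
    | apply Primrec.fst.comp | apply Primrec.snd.comp
    | exact Primrec.const _)

theorem BL_p {β : Type*} [Primcodable β] {S : β → List ℕ} {w : β → Wit}
    {f : β → ℕ} (hS : Primrec S) (hw : Primrec w) (hf : Primrec f) :
    Primrec (fun x => BL (S x) (w x) (f x)) := by
  unfold BL
  have h1 : Primrec (fun x => (w x).2.2.2) := Primrec.snd.comp (Primrec.snd.comp
    (Primrec.snd.comp hw))
  refine ite_p (lt_p hf (Primrec.snd.comp (Primrec.snd.comp (Primrec.fst.comp h1))))
    (getDl_p (Primrec.snd.comp h1) hf) hS

theorem wR_p0 : PrimrecPred (fun x : Ctx × List ℕ × List ℕ × Wit × ℕ × ℕ =>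
    wR x.1 x.2.1 x.2.2.1 x.2.2.2.1 x.2.2.2.2.1 x.2.2.2.2.2) := by
  unfold wR
  repeat' (with_reducible first
    | apply iff_p | apply and_p | apply or_p
    | apply AllV_p | apply ExV_p | apply Eqv_p | apply mem_p | apply mem2_p
    | apply IsKey_p | apply kmul_p | apply PrimeC_p | apply BL_p
    | apply forall_lt_p | apply exists_lt_p
    | apply not_p | apply eq_p | apply lt_p | apply le_p
    | apply imp_p
    | apply mm_p | apply pw_p | apply tb_p | apply getDn_p | apply getDl_p
    | apply add_p | apply sub_p | apply mul_p | apply min_p | apply nn_p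
    | exact Primrec.fst | exact Primrec.snd | exact Primrec.id
    | apply Primrec.fst.comp | apply Primrec.snd.comp
    | exact Primrec.const _)

theorem wR_p {β : Type*} [Primcodable β] {g : β → Ctx} {S H : β → List ℕ} {w : β → Wit}
    {f h : β → ℕ} (hg : Primrec g) (hS : Primrec S) (hH : Primrec H) (hw : Primrec w)
    (hf : Primrec f) (hh : Primrec h) :
    PrimrecPred (fun x => wR (g x) (S x) (H x) (w x) (f x) (h x)) :=
  wR_p0.comp (Primrec.pair hg (Primrec.pair hS (Primrec.pair hH (Primrec.pair hw
    (Primrec.pair hf hh)))))

theorem wildR_p : PrimrecPred (fun x : Ctx × Wit × State × State =>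
    wildR x.1 x.2.1 x.2.2.1 x.2.2.2) := by
  unfold wildR
  repeat' (with_reducible first
    | apply iff_p | apply and_p | apply or_p
    | apply AllV_p | apply ExV_p | apply Eqv_p | apply mem_p | apply mem2_p
    | apply IsKey_p | apply kmul_p | apply PrimeC_p | apply wR_p | apply BL_p
    | apply forall_lt_p | apply exists_lt_p
    | apply not_p | apply eq_p | apply lt_p | apply le_p
    | apply imp_p
    | apply mm_p | apply pw_p | apply tb_p | apply getDn_p | apply getDl_p
    | apply add_p | apply sub_p | apply mul_p | apply min_p | apply nn_p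
    | exact Primrec.fst | exact Primrec.snd | exact Primrec.id
    | apply Primrec.fst.comp | apply Primrec.snd.comp
    | exact Primrec.const _)

/-- bounded existential quantifier over a list of states -/
theorem exMem_p {β : Type*} [Primcodable β] {l : β → List State} {P : β → State → Prop}
    (hl : Primrec l) (hP : PrimrecPred (fun x : β × State => P x.1 x.2)) :
    PrimrecPred (fun x => ∃ s ∈ l x, P x s) := by
  have h1 : PrimrecRel (fun (s : State) (x : β) => P x s) :=
    hP.comp (Primrec.pair Primrec.snd Primrec.fst)
  exact h1.exists_mem_list.comp hl Primrec.id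

theorem Stp_p : PrimrecPred (fun x : Ctx × Wit × List State × State =>
    Stp x.1 x.2.1 x.2.2.1 x.2.2.2) := by
  unfold Stp
  have e1 : Primrec (fun x : (Ctx × Wit × List State × State) × State => x.1.1) :=
    Primrec.fst.comp Primrec.fst
  have e2 : Primrec (fun x : (Ctx × Wit × List State × State) × State => x.1.2.1) :=
    Primrec.fst.comp (Primrec.snd.comp Primrec.fst)
  have e3 : Primrec (fun x : (Ctx × Wit × List State × State) × State => x.1.2.2.1) :=
    Primrec.fst.comp (Primrec.snd.comp (Primrec.snd.comp Primrec.fst))
  have e4 : Primrec (fun x : (Ctx × Wit × List State × State) × State => x.1.2.2.2) :=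
    Primrec.snd.comp (Primrec.snd.comp (Primrec.snd.comp Primrec.fst))
  have f4 : Primrec (fun x : Ctx × Wit × List State × State => x.2.2.2) :=
    Primrec.snd.comp (Primrec.snd.comp Primrec.snd)
  have f3 : Primrec (fun x : Ctx × Wit × List State × State => x.2.2.1) :=
    Primrec.fst.comp (Primrec.snd.comp Primrec.snd)
  have f2 : Primrec (fun x : Ctx × Wit × List State × State => x.2.1) :=
    Primrec.fst.comp Primrec.snd
  refine and_p (Base_p.comp (Primrec.pair Primrec.fst f4)) ?_
  refine or_p (trivR_p.comp (Primrec.pair Primrec.fst f4)) ?_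
  refine or_p (signR_p.comp (Primrec.pair Primrec.fst f4)) ?_
  refine or_p ?_ ?_
  · refine exMem_p f3 (exMem_p e3 ?_)
    exact prodR_p.comp (Primrec.pair (e1.comp Primrec.fst) (Primrec.pair
      (Primrec.snd.comp Primrec.fst) (Primrec.pair Primrec.snd (e4.comp Primrec.fst))))
  refine or_p (exMem_p f3 (liftR_p.comp (Primrec.pair e1 (Primrec.pair Primrec.snd e4)))) ?_
  refine or_p ?_ ?_
  · refine exMem_p f3 (tameR_p.comp (Primrec.pair e1 (Primrec.pair ?_ (Primrec.pair
      Primrec.snd e4))))
    exact Primrec.snd.comp (Primrec.snd.comp (Primrec.fst.comp (Primrec.snd.comp e2)))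
  refine or_p (exMem_p f3 (redR_p.comp (Primrec.pair e1 (Primrec.pair Primrec.snd e4)))) ?_
  refine or_p (finR_p.comp (Primrec.pair Primrec.fst (Primrec.pair f2 f4))) ?_
  exact exMem_p f3 (wildR_p.comp (Primrec.pair e1 (Primrec.pair e2
    (Primrec.pair Primrec.snd e4))))

end RE

end HypQ
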