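import Pool.Agent.Lib.MP_9f0b3e_al.ReEnc

/-!
# Coded derivations: meaning of the simple rules
-/

set_option autoImplicit false

namespace HypQ

namespace RE

open CoRe Pointwise

section

variable {g : Ctx} {A : Type} [CommGroup A] {β : A → ℕ} {B : Type} [CommGroup B]
variable {ch : ℕ} {S al Hl : List ℕ} {Nl : List (ℕ × ℕ)} {q : A →* B} {α : (ZMod ch)ˣ →* B}

theorem key_al (h : Enc g A β) (hq : Cod0 β ch S al q α) (a : A) (u : (ZMod ch)ˣ) :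
    Eqv g S (al.getD (key ch u) 0) (β a) ↔ α u = q a := by
  obtain ⟨b, hb1, hb2⟩ := hq.al u
  rw [hb1, eqv_iff h hq.ker, hb2]

theorem trivR_iff (h : Enc g A β) (hc : ch = 0 ∨ ch.Prime) (hq : Cod0 β ch S al q α) :
    trivR g (ch, S, al, Hl, Nl) ↔ α = 1 ∧ CodHN β Hl Nl q ⊥ {(1, 1)} := by
  unfold trivR
  show ((∀ k < ch + 2, IsKey ch k → al.getD k 0 ∈ S) ∧
    AllV g (fun x => x ∈ Hl ↔ x ∈ S) ∧
    AllV g (fun x => AllV g (fun y => (x, y) ∈ Nl ↔ x ∈ S ∧ y ∈ S))) ↔ _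
  rw [forall_key hc]
  simp only [h.AllV_iff, hq.ker]
  constructor
  · rintro ⟨h1, h2, h3⟩
    refine ⟨?_, ⟨?_, ?_⟩⟩
    · ext u
      obtain ⟨a, ha1, ha2⟩ := hq.al u
      have := h1 u
      rw [ha1, hq.ker, ha2] at this
      rw [this]; rfl
    · intro a
      rw [h2, Subgroup.mem_bot]
    · intro a b
      rw [h3]
      simp
  · rintro ⟨h1, h2⟩
    refine ⟨?_, ?_, ?_⟩
    · intro u
      obtain ⟨a, ha1, ha2⟩ := hq.al u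
      rw [ha1, hq.ker, ha2, h1]; rfl
    · intro a
      rw [h2.H, Subgroup.mem_bot]
    · intro a b
      rw [h2.N]
      simp

theorem signR_iff {α : (ZMod 0)ˣ →* B} (h : Enc g A β) (hq : Cod0 β 0 S al q α) :
    signR g (0, S, al, Hl, Nl) ↔
      CodHN β Hl Nl q (Subgroup.zpowers (α (-1))) {(1, 1), (1, α (-1)), (α (-1), 1)} := by
  unfold signR
  show (0 = 0 ∧ AllV g (fun x => x ∈ Hl ↔ x ∈ S ∨ Eqv g S x (al.getD 0 0)) ∧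
    AllV g (fun x => AllV g (fun y => (x, y) ∈ Nl ↔ (x ∈ S ∧ y ∈ S) ∨
    (x ∈ S ∧ Eqv g S y (al.getD 0 0)) ∨ (Eqv g S x (al.getD 0 0) ∧ y ∈ S)))) ↔ _
  obtain ⟨e, he1, he2⟩ := hq.al (-1)
  rw [key_neg_one (Or.inl rfl)] at he1
  rw [he1]
  simp only [h.AllV_iff, hq.ker, eqv_iff h hq.ker, he2, true_and]
  have hz : ∀ b : B, b ∈ Subgroup.zpowers (α (-1)) ↔ b = 1 ∨ b = α (-1) := by
    intro b
    have hsq : α (-1) * α (-1) = 1 := by rw [← map_mul]; simp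
    constructor
    · intro hb
      rw [Subgroup.mem_zpowers_iff] at hb
      obtain ⟨k, rfl⟩ := hb
      rcases Int.even_or_odd k with ⟨m, rfl⟩ | ⟨m, rfl⟩
      · left
        rw [zpow_add, ← mul_zpow, hsq, one_zpow]
      · right
        rw [zpow_add, two_mul, zpow_add, ← mul_zpow, hsq, one_zpow, one_mul, zpow_one]
    · rintro (rfl | rfl)
      · exact one_mem _
      · exact Subgroup.mem_zpowers _
  constructor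
  · rintro ⟨h2, h3⟩
    refine ⟨?_, ?_⟩
    · intro a
      rw [h2, hz]
    · intro a b
      rw [h3]
      simp [Prod.ext_iff]
  · intro h2
    refine ⟨?_, ?_⟩
    · intro a
      rw [h2.H, hz]
    · intro a b
      rw [h2.N]
      simp [Prod.ext_iff]

theorem sameK_iff {ch₁ : ℕ} {S₁ al₁ Hl₁ : List ℕ} {Nl₁ : List (ℕ × ℕ)} (h : Enc g A β) :
    sameK g (ch₁, S₁, al₁, Hl₁, Nl₁) (ch, S, al, Hl, Nl) ↔
      ch = ch₁ ∧ ∀ a, β a ∈ S ↔ β a ∈ S₁ := by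
  unfold sameK
  show (ch = ch₁ ∧ AllV g (fun x => x ∈ S ↔ x ∈ S₁)) ↔ _
  rw [h.AllV_iff]

theorem prodR_iff {S₁ al₁ Hl₁ : List ℕ} {Nl₁ : List (ℕ × ℕ)}
    {S₂ al₂ Hl₂ : List ℕ} {Nl₂ : List (ℕ × ℕ)} {α₁ α₂ : (ZMod ch)ˣ →* B}
    {H₁ H₂ : Subgroup B} {N₁ N₂ : Set (B × B)}
    (h : Enc g A β) (hc : ch = 0 ∨ ch.Prime) (hq : Cod0 β ch S al q α)
    (hq₁ : Cod0 β ch S₁ al₁ q α₁) (hq₂ : Cod0 β ch S₂ al₂ q α₂)
    (h₁ : CodHN β Hl₁ Nl₁ q H₁ N₁) (h₂ : CodHN β Hl₂ Nl₂ q H₂ N₂) :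
    prodR g (ch, S₁, al₁, Hl₁, Nl₁) (ch, S₂, al₂, Hl₂, Nl₂) (ch, S, al, Hl, Nl) ↔
      α = α₁ * α₂ ∧ CodHN β Hl Nl q (H₁ ⊔ H₂) (N₁ * N₂) := by
  unfold prodR
  rw [sameK_iff h, sameK_iff h]
  show (_ ∧ _ ∧ (∀ k < ch + 2, IsKey ch k → Eqv g S (al.getD k 0)
      (mm g (al₁.getD k 0) (al₂.getD k 0))) ∧
    AllV g (fun x => x ∈ Hl ↔ ExV g (fun y => y ∈ Hl₁ ∧
      ExV g (fun z => z ∈ Hl₂ ∧ x = mm g y z))) ∧
    AllV g (fun x => AllV g (fun y => (x, y) ∈ Nl ↔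
      ExV g (fun x₁ => ExV g (fun y₁ => (x₁, y₁) ∈ Nl₁ ∧
        ExV g (fun x₂ => ExV g (fun y₂ => (x₂, y₂) ∈ Nl₂ ∧
          x = mm g x₁ x₂ ∧ y = mm g y₁ y₂))))))) ↔ _
  rw [forall_key hc]
  simp only [h.AllV_iff, h.ExV_iff, h.mul, hq.ker, hq₁.ker, hq₂.ker, h₁.H, h₂.H, h₁.N, h₂.N,
    h.inj.eq_iff, true_and, implies_true]
  have e1 : (∀ u : (ZMod ch)ˣ, Eqv g S (al.getD (key ch u) 0)
      (mm g (al₁.getD (key ch u) 0) (al₂.getD (key ch u) 0))) ↔ α = α₁ * α₂ := by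
    constructor
    · intro h1
      ext u
      obtain ⟨a, ha1, ha2⟩ := hq₁.al u
      obtain ⟨b, hb1, hb2⟩ := hq₂.al u
      have := h1 u
      rw [ha1, hb1, h.mul, key_al h hq, map_mul, ha2, hb2] at this
      rw [this]; rfl
    · intro h1 u
      obtain ⟨a, ha1, ha2⟩ := hq₁.al u
      obtain ⟨b, hb1, hb2⟩ := hq₂.al u
      rw [ha1, hb1, h.mul, key_al h hq, map_mul, ha2, hb2, h1]; rfl
  have e2 : ∀ a, (∃ b, q b ∈ H₁ ∧ ∃ d, q d ∈ H₂ ∧ a = b * d) ↔ q a ∈ H₁ ⊔ H₂ := by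
    intro a
    rw [Subgroup.mem_sup]
    constructor
    · rintro ⟨b, hb, d, hd, rfl⟩
      exact ⟨q b, hb, q d, hd, (map_mul _ _ _).symm⟩
    · rintro ⟨y, hy, z, hz, hyz⟩
      obtain ⟨b, rfl⟩ := hq.surj y
      refine ⟨b, hy, a / b, ?_, ?_⟩
      · have : q (a / b) = z := by
          rw [map_div, ← hyz, mul_div_cancel_left]
        rw [this]; exact hz
      · rw [mul_div_cancel]
  have e3 : ∀ a b, (∃ a₁ b₁, (q a₁, q b₁) ∈ N₁ ∧ ∃ a₂ b₂, (q a₂, q b₂) ∈ N₂ ∧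
      a = a₁ * a₂ ∧ b = b₁ * b₂) ↔ (q a, q b) ∈ N₁ * N₂ := by
    intro a b
    rw [Set.mem_mul]
    constructor
    · rintro ⟨a₁, b₁, h1, a₂, b₂, h2, rfl, rfl⟩
      exact ⟨_, h1, _, h2, by simp⟩
    · rintro ⟨⟨x₁, y₁⟩, h1, ⟨x₂, y₂⟩, h2, h3⟩
      obtain ⟨a₁, rfl⟩ := hq.surj x₁
      obtain ⟨b₁, rfl⟩ := hq.surj y₁
      rw [Prod.mk_mul_mk, Prod.mk.injEq] at h3
      refine ⟨a₁, b₁, h1, a / a₁, b / b₁, ?_, ?_, ?_⟩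
      · have e4 : q (a / a₁) = x₂ := by rw [map_div, ← h3.1, mul_div_cancel_left]
        have e5 : q (b / b₁) = y₂ := by rw [map_div, ← h3.2, mul_div_cancel_left]
        rw [e4, e5]; exact h2
      · rw [mul_div_cancel]
      · rw [mul_div_cancel]
  rw [e1]
  constructor
  · rintro ⟨h1, h2, h3⟩
    refine ⟨h1, ⟨?_, ?_⟩⟩
    · intro a; rw [h2, e2]
    · intro a b; rw [h3, e3]
  · rintro ⟨h1, h2⟩
    refine ⟨h1, ?_, ?_⟩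
    · intro a; rw [h2.H, e2]
    · intro a b; rw [h2.N, e3]

theorem al_iff {B' : Type} [CommGroup B'] {q₁ : A →* B'} {S₁ al₁ : List ℕ}
    {α₁ : (ZMod ch)ˣ →* B'} {φ : B →* B'} (h : Enc g A β)
    (hq : Cod0 β ch S al q α) (hq₁ : Cod0 β ch S₁ al₁ q₁ α₁) (hφ : ∀ a, φ (q a) = q₁ a) :
    (∀ u : (ZMod ch)ˣ, Eqv g S₁ (al.getD (key ch u) 0) (al₁.getD (key ch u) 0)) ↔
      φ.comp α = α₁ := by
  have e1 : ∀ u : (ZMod ch)ˣ, Eqv g S₁ (al.getD (key ch u) 0) (al₁.getD (key ch u) 0) ↔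
      φ (α u) = α₁ u := by
    intro u
    obtain ⟨a, ha1, ha2⟩ := hq.al u
    obtain ⟨b, hb1, hb2⟩ := hq₁.al u
    rw [ha1, hb1, eqv_iff h hq₁.ker, hb2, ← hφ, ha2]
  simp only [e1]
  constructor
  · intro h1; ext u; exact h1 u
  · intro h1 u; rw [← h1]; rfl

theorem liftR_iff {B' : Type} [CommGroup B'] {q₁ : A →* B'} {S₁ al₁ Hl₁ : List ℕ}
    {Nl₁ : List (ℕ × ℕ)} {α₁ : (ZMod ch)ˣ →* B'} {H₁ : Subgroup B'} {N₁ : Set (B' × B')}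
    {φ : B →* B'} (h : Enc g A β) (hc : ch = 0 ∨ ch.Prime) (hq : Cod0 β ch S al q α)
    (hq₁ : Cod0 β ch S₁ al₁ q₁ α₁) (h₁ : CodHN β Hl₁ Nl₁ q₁ H₁ N₁)
    (hφ : ∀ a, φ (q a) = q₁ a) :
    liftR g (ch, S₁, al₁, Hl₁, Nl₁) (ch, S, al, Hl, Nl) ↔
      φ.comp α = α₁ ∧ CodHN β Hl Nl q (H₁.comap φ) {p | (φ p.1, φ p.2) ∈ N₁} := by
  unfold liftR sameHN
  show (ch = ch ∧ AllV g (fun x => x ∈ S → x ∈ S₁) ∧
    (∀ k < ch + 2, IsKey ch k → Eqv g S₁ (al.getD k 0) (al₁.getD k 0)) ∧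
    AllV g (fun x => x ∈ Hl ↔ x ∈ Hl₁) ∧
    AllV g (fun x => AllV g (fun y => (x, y) ∈ Nl ↔ (x, y) ∈ Nl₁))) ↔ _
  rw [forall_key hc, al_iff h hq hq₁ hφ]
  simp only [h.AllV_iff, hq.ker, hq₁.ker, h₁.H, h₁.N, true_and]
  have e1 : ∀ a, q a = 1 → q₁ a = 1 := by
    intro a ha
    rw [← hφ, ha, map_one]
  constructor
  · rintro ⟨-, h1, h2, h3⟩
    refine ⟨h1, ⟨?_, ?_⟩⟩
    · intro a; rw [h2, Subgroup.mem_comap, hφ]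
    · intro a b; rw [h3]; simp [hφ]
  · rintro ⟨h1, h2⟩
    refine ⟨e1, h1, ?_, ?_⟩
    · intro a; rw [h2.H, Subgroup.mem_comap, hφ]
    · intro a b; rw [h2.N]; simp [hφ]

/-- membership in `H ⊔ ⟨t⟩` in codes -/
theorem sup_iff [Finite A] (hcard : Nat.card A < nn g)
    (H₁ : Subgroup B) (t a : A) :
    (∃ b, q b ∈ H₁ ∧ ∃ k < nn g, a = b * t ^ k) ↔ q a ∈ H₁ ⊔ Subgroup.zpowers (q t) := by
  rw [Subgroup.mem_sup]
  constructor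
  · rintro ⟨b, hb, k, -, rfl⟩
    refine ⟨q b, hb, q t ^ k, Subgroup.npow_mem_zpowers _ _, ?_⟩
    rw [map_mul, map_pow]
  · rintro ⟨y, hy, z, hz, hyz⟩
    obtain ⟨n, rfl⟩ := hz
    have h1 : t ^ n ∈ Subgroup.zpowers t := ⟨n, rfl⟩
    obtain ⟨k, hk, hk2⟩ := exists_pow_lt hcard t _ h1
    refine ⟨a / t ^ k, ?_, k, hk, ?_⟩
    · have h2 : q t ^ k = q t ^ n := by
        rw [← map_pow, hk2, map_zpow]
      have h3 : (fun x : ℤ => q t ^ x) n = q t ^ n := rfl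
      rw [map_div, map_pow, h2, ← hyz, h3, mul_div_cancel_right]
      exact hy
    · rw [div_mul_cancel]

theorem tameR_iff [Finite A] {S₁ al₁ Hl₁ : List ℕ}
    {Nl₁ : List (ℕ × ℕ)} {α₁ : (ZMod ch)ˣ →* B} {H₁ : Subgroup B} {N₁ : Set (B × B)}
    (h : Enc g A β) (hcard : Nat.card A < nn g) (hc : ch = 0 ∨ ch.Prime)
    (hq : Cod0 β ch S al q α)
    (hq₁ : Cod0 β ch S₁ al₁ q α₁) (h₁ : CodHN β Hl₁ Nl₁ q H₁ N₁) (t : A) :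
    tameR g (β t) (ch, S₁, al₁, Hl₁, Nl₁) (ch, S, al, Hl, Nl) ↔
      α = α₁ ∧ CodHN β Hl Nl q (H₁ ⊔ Subgroup.zpowers (q t))
        (N₁ ∪ tameSet (α (-1)) (H₁ ⊔ Subgroup.zpowers (q t))) := by
  unfold tameR
  rw [sameK_iff h]
  show (_ ∧ ExV g (fun x => β t = x) ∧
    (∀ k < ch + 2, IsKey ch k → Eqv g S (al.getD k 0) (al₁.getD k 0)) ∧
    AllV g (fun x => x ∈ Hl ↔ ExV g (fun y => y ∈ Hl₁ ∧
      ∃ k < nn g, x = mm g y (RE.pw g (β t) k))) ∧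
    AllV g (fun x => AllV g (fun y => (x, y) ∈ Nl ↔ (x, y) ∈ Nl₁ ∨
      (x ∈ Hl ∧ y ∈ S) ∨ (x ∈ S ∧ y ∈ Hl) ∨
      (x ∈ Hl ∧ Eqv g S y (mm g (al.getD (ch - 1) 0) x))))) ↔ _
  rw [forall_key hc]
  have hS : ∀ a, β a ∈ S₁ ↔ β a ∈ S := by intro a; rw [hq.ker, hq₁.ker]
  have e0 : (∀ u : (ZMod ch)ˣ, Eqv g S (al.getD (key ch u) 0) (al₁.getD (key ch u) 0)) ↔
      α = α₁ := by
    have hq₁' : Cod0 β ch S al₁ q α₁ := ⟨hq₁.surj, hq.ker, hq₁.al⟩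
    have := al_iff (φ := MonoidHom.id B) h hq hq₁' (fun a => rfl)
    rw [this, MonoidHom.id_comp]
  obtain ⟨e, he1, he2⟩ := hq.al (-1)
  rw [key_neg_one hc] at he1
  rw [e0, he1]
  simp only [h.AllV_iff, h.ExV_iff, h.mul, h.pw, hq.ker, hq₁.ker, h₁.H, h₁.N, eqv_iff h hq.ker,
    h.inj.eq_iff, true_and, implies_true, exists_eq', map_mul, he2]
  constructor
  · rintro ⟨h1, h2, h3⟩
    have e1 : ∀ a, β a ∈ Hl ↔ q a ∈ H₁ ⊔ Subgroup.zpowers (q t) := by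
      intro a; rw [h2, ← sup_iff hcard]
    refine ⟨h1, ⟨e1, ?_⟩⟩
    intro a b
    rw [h3]
    simp only [e1, tameSet, Set.mem_union, Set.mem_ofPred_eq, Prod.mk.injEq]
    constructor
    · rintro (h4 | ⟨h4, h5⟩ | ⟨h4, h5⟩ | ⟨h4, h5⟩)
      · left; exact h4
      · right; exact ⟨q a, h4, Or.inl ⟨rfl, h5⟩⟩
      · right; exact ⟨q b, h5, Or.inr (Or.inl ⟨h4, rfl⟩)⟩
      · right; exact ⟨q a, h4, Or.inr (Or.inr ⟨rfl, h5⟩)⟩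
    · rintro (h4 | ⟨y, hy, ⟨h4, h5⟩ | ⟨h4, h5⟩ | ⟨h4, h5⟩⟩)
      · left; exact h4
      · right; left; rw [h4]; exact ⟨hy, h5⟩
      · right; right; left; rw [h5]; exact ⟨h4, hy⟩
      · right; right; right; rw [h4]; exact ⟨hy, h5⟩
  · rintro ⟨h1, h2⟩
    refine ⟨h1, ?_, ?_⟩
    · intro a; rw [h2.H, ← sup_iff hcard]
    · intro a b
      rw [h2.N]
      simp only [h2.H, tameSet, Set.mem_union, Set.mem_ofPred_eq, Prod.mk.injEq]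
      constructor
      · rintro (h4 | ⟨y, hy, ⟨h4, h5⟩ | ⟨h4, h5⟩ | ⟨h4, h5⟩⟩)
        · left; exact h4
        · right; left; rw [h4]; exact ⟨hy, h5⟩
        · right; right; left; rw [h5]; exact ⟨h4, hy⟩
        · right; right; right; rw [h4]; exact ⟨hy, h5⟩
      · rintro (h4 | ⟨h4, h5⟩ | ⟨h4, h5⟩ | ⟨h4, h5⟩)
        · left; exact h4
        · right; exact ⟨q a, h4, Or.inl ⟨rfl, h5⟩⟩
        · right; exact ⟨q b, h5, Or.inr (Or.inl ⟨h4, rfl⟩)⟩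
        · right; exact ⟨q a, h4, Or.inr (Or.inr ⟨rfl, h5⟩)⟩

theorem redR_iff {p : ℕ} {S₁ al₁ Hl₁ : List ℕ}
    {Nl₁ : List (ℕ × ℕ)} {α : (ZMod 0)ˣ →* B} {α₁ : (ZMod p)ˣ →* B} {H₁ : Subgroup B}
    {N₁ : Set (B × B)} (h : Enc g A β) (hp : p.Prime)
    (hq : Cod0 β 0 S al q α)
    (hq₁ : Cod0 β p S₁ al₁ q α₁) (h₁ : CodHN β Hl₁ Nl₁ q H₁ N₁) :
    redR g (p, S₁, al₁, Hl₁, Nl₁) (0, S, al, Hl, Nl) ↔
      α (-1) = α₁ (-1) ∧ CodHN β Hl Nl q H₁ N₁ := by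
  unfold redR sameHN
  show (0 = 0 ∧ ¬ p = 0 ∧ AllV g (fun x => x ∈ S ↔ x ∈ S₁) ∧
    Eqv g S (al.getD 0 0) (al₁.getD (p - 1) 0) ∧
    AllV g (fun x => x ∈ Hl ↔ x ∈ Hl₁) ∧
    AllV g (fun x => AllV g (fun y => (x, y) ∈ Nl ↔ (x, y) ∈ Nl₁))) ↔ _
  obtain ⟨e, he1, he2⟩ := hq.al (-1)
  rw [key_neg_one (Or.inl rfl)] at he1
  obtain ⟨e', he1', he2'⟩ := hq₁.al (-1)
  rw [key_neg_one (Or.inr hp)] at he1'
  rw [he1, he1']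
  simp only [h.AllV_iff, hq.ker, hq₁.ker, h₁.H, h₁.N, true_and, eqv_iff h hq.ker,
    implies_true, he2, he2', hp.ne_zero, not_false_eq_true]
  constructor
  · rintro ⟨h1, h2, h3⟩
    exact ⟨h1, ⟨h2, h3⟩⟩
  · rintro ⟨h1, h2⟩
    exact ⟨h1, h2.H, h2.N⟩

end

end RE

end HypQ
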