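import Pool.Agent.Lib.MP_9f0b3e_al.RePrim

/-!
# Coded derivations: valid lists, root conditions, recursive enumerability
-/

set_option autoImplicit false
set_option maxHeartbeats 4000000

namespace HypQ

namespace RE

open CoRe

/-- entries of a derivation -/
abbrev Entry : Type := Wit × State

/-- valid derivations: the conclusion stands first -/
def Valid (g : Ctx) : List Entry → Prop
  | [] => True
  | e :: t => Stp g e.1 (t.map Prod.snd) e.2 ∧ Valid g t

theorem Stp.mono {g : Ctx} {w : Wit} {t t' : List State} {s : State} (h : Stp g w t s)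
    (ht : ∀ x ∈ t, x ∈ t') : Stp g w t' s := by
  obtain ⟨h1, h2⟩ := h
  refine ⟨h1, ?_⟩
  rcases h2 with h2 | h2 | ⟨s₁, hs₁, s₂, hs₂, h2⟩ | ⟨s₁, hs₁, h2⟩ | ⟨s₁, hs₁, h2⟩ |
    ⟨s₁, hs₁, h2⟩ | h2 | ⟨s₁, hs₁, h2⟩
  · exact Or.inl h2
  · exact Or.inr (Or.inl h2)
  · exact Or.inr (Or.inr (Or.inl ⟨s₁, ht _ hs₁, s₂, ht _ hs₂, h2⟩))
  · exact Or.inr (Or.inr (Or.inr (Or.inl ⟨s₁, ht _ hs₁, h2⟩)))
  · exact Or.inr (Or.inr (Or.inr (Or.inr (Or.inl ⟨s₁, ht _ hs₁, h2⟩))))
  · exact Or.inr (Or.inr (Or.inr (Or.inr (Or.inr (Or.inl ⟨s₁, ht _ hs₁, h2⟩)))))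
  · exact Or.inr (Or.inr (Or.inr (Or.inr (Or.inr (Or.inr (Or.inl h2))))))
  · exact Or.inr (Or.inr (Or.inr (Or.inr (Or.inr (Or.inr (Or.inr ⟨s₁, ht _ hs₁, h2⟩))))))

theorem Valid.append {g : Ctx} {l₁ l₂ : List Entry} (h₁ : Valid g l₁) (h₂ : Valid g l₂) :
    Valid g (l₁ ++ l₂) := by
  induction l₁ with
  | nil => exact h₂
  | cons e t ih =>
    refine ⟨h₁.1.mono ?_, ih h₁.2⟩
    intro x hx
    show x ∈ List.map Prod.snd (t ++ l₂)
    rw [List.map_append, List.mem_append]
    exact Or.inl hx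

/-- default entry -/
def e0 : Entry :=
  (((0, [], [], 0, 0), (0, 0, 0), [], (0, 0, 0), []), (0, [], [], [], []))

theorem valid_iff (g : Ctx) (l : List Entry) : Valid g l ↔ ∀ i < l.length,
    Stp g (l.getD i e0).1 ((l.drop (i + 1)).map Prod.snd) (l.getD i e0).2 := by
  induction l with
  | nil => simp [Valid]
  | cons e t ih =>
    show (Stp g e.1 (t.map Prod.snd) e.2 ∧ Valid g t) ↔ _
    rw [ih]
    constructor
    · rintro ⟨h1, h2⟩ i hi
      cases i with
      | zero => simpa using h1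
      | succ i => simpa using h2 i (by simpa using hi)
    · intro h
      refine ⟨by simpa using h 0 (by simp), ?_⟩
      intro i hi
      simpa using h (i + 1) (by simpa using hi)

theorem Valid_p : PrimrecPred (fun x : Ctx × List Entry => Valid x.1 x.2) := by
  refine PrimrecPred.of_eq (p := fun x : Ctx × List Entry => ∀ i < x.2.length,
    Stp x.1 (x.2.getD i e0).1 ((x.2.drop (i + 1)).map Prod.snd) (x.2.getD i e0).2) ?_
    (fun x => (valid_iff x.1 x.2).symm)
  refine forall_lt_p (Primrec.list_length.comp Primrec.snd) ?_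
  have h1 : Primrec (fun x : (Ctx × List Entry) × ℕ => x.1.2.getD x.2 e0) :=
    (Primrec.list_getD e0).comp (Primrec.snd.comp Primrec.fst) Primrec.snd
  have h2 : Primrec (fun x : (Ctx × List Entry) × ℕ => (x.1.2.drop (x.2 + 1)).map Prod.snd) := by
    refine Primrec.list_map ?_ ?_
    · exact Primrec.list_drop.comp (add_p Primrec.snd (Primrec.const 1))
        (Primrec.snd.comp Primrec.fst)
    · exact Primrec.snd.comp Primrec.snd
  exact Stp_p.comp (Primrec.pair (Primrec.fst.comp Primrec.fst)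
    (Primrec.pair (Primrec.fst.comp h1) (Primrec.pair h2 (Primrec.snd.comp h1))))

/-- the valid codes form a group -/
def GrpOK (g : Ctx) : Prop :=
  g.2.1 < nn g ∧ g.2.2 < nn g ∧ ¬ g.2.2 = g.2.1 ∧
  (∀ x < nn g, mm g x g.2.1 = g.2.1 ∧ mm g g.2.1 x = g.2.1) ∧
  AllV g (fun x => mm g g.2.2 x = x ∧ ExV g (fun y => mm g y x = g.2.2) ∧
    AllV g (fun y => (mm g x y < nn g ∧ ¬ mm g x y = g.2.1) ∧ mm g x y = mm g y x ∧
      AllV g (fun z => mm g (mm g x y) z = mm g x (mm g y z))))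

/-- coded hyperaddition -/
def HSumC (g : Ctx) (s : State) (x y z : ℕ) : Prop :=
  (x = g.2.1 ∧ z = y) ∨ (y = g.2.1 ∧ z = x) ∨
  (¬ x = g.2.1 ∧ ¬ y = g.2.1 ∧ z = g.2.1 ∧ y = mm g (s.2.2.1.getD 0 0) x) ∨
  (¬ x = g.2.1 ∧ ¬ y = g.2.1 ∧ ¬ z = g.2.1 ∧ ExV g (fun a => ExV g (fun b =>
    mm g a z = x ∧ mm g b z = y ∧ (a, b) ∈ s.2.2.2.2)))

/-- the condition on the final state -/
def finC (g : Ctx) (s : State) : Prop :=
  s.1 = 0 ∧ AllV g (fun x => x ∈ s.2.1 → x = g.2.2) ∧ AllV g (fun x => x ∈ s.2.2.2.1) ∧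
  ∀ x < nn g, ∀ y < nn g, ∀ z < nn g, z ∈ addT g.1 x y ↔ HSumC g s x y z

theorem GrpOK_p : PrimrecPred (fun x : Ctx => GrpOK x) := by
  unfold GrpOK
  repeat' (with_reducible first
    | apply iff_p | apply and_p | apply or_p
    | apply AllV_p | apply ExV_p
    | apply forall_lt_p | apply exists_lt_p
    | apply not_p | apply eq_p | apply lt_p
    | apply imp_p
    | apply mm_p | apply nn_p
    | exact Primrec.fst | exact Primrec.snd
    | apply Primrec.fst.comp | apply Primrec.snd.comp)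
  all_goals exact Primrec.id

theorem finC_p : PrimrecPred (fun x : Ctx × State => finC x.1 x.2) := by
  unfold finC HSumC
  repeat' (with_reducible first
    | apply iff_p | apply and_p | apply or_p
    | apply AllV_p | apply ExV_p | apply mem_p | apply mem2_p
    | apply forall_lt_p | apply exists_lt_p
    | apply not_p | apply eq_p | apply lt_p
    | apply imp_p
    | apply mm_p | apply addT_p | apply getDn_p | apply nn_p
    | exact Primrec.fst | exact Primrec.snd | exact Primrec.id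
    | apply Primrec.fst.comp | apply Primrec.snd.comp
    | exact Primrec.const _)

/-- bounded existential quantifier over the entries -/
theorem exMemE_p {β : Type*} [Primcodable β] {l : β → List Entry} {P : β → Entry → Prop}
    (hl : Primrec l) (hP : PrimrecPred (fun x : β × Entry => P x.1 x.2)) :
    PrimrecPred (fun x => ∃ s ∈ l x, P x s) := by
  have h1 : PrimrecRel (fun (s : Entry) (x : β) => P x s) :=
    hP.comp (Primrec.pair Primrec.snd Primrec.fst)
  exact h1.exists_mem_list.comp hl Primrec.id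

/-- the whole certificate -/
def Cert (c : Tab) (x : ℕ × ℕ × List Entry) : Prop :=
  GrpOK (c, x.1, x.2.1) ∧ Valid (c, x.1, x.2.1) x.2.2 ∧
    ∃ e ∈ x.2.2, finC (c, x.1, x.2.1) e.2

theorem Cert_p : PrimrecRel Cert := by
  unfold Cert
  have hg : Primrec (fun x : Tab × (ℕ × ℕ × List Entry) => ((x.1, x.2.1, x.2.2.1) : Ctx)) :=
    Primrec.pair Primrec.fst (Primrec.pair (Primrec.fst.comp Primrec.snd)
      (Primrec.fst.comp (Primrec.snd.comp Primrec.snd)))
  have hl : Primrec (fun x : Tab × (ℕ × ℕ × List Entry) => x.2.2.2) :=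
    Primrec.snd.comp (Primrec.snd.comp Primrec.snd)
  show PrimrecPred (fun x : Tab × (ℕ × ℕ × List Entry) =>
    GrpOK (x.1, x.2.1, x.2.2.1) ∧ Valid (x.1, x.2.1, x.2.2.1) x.2.2.2 ∧
    ∃ e ∈ x.2.2.2, finC (x.1, x.2.1, x.2.2.1) e.2)
  refine and_p (GrpOK_p.comp hg) (and_p (Valid_p.comp (Primrec.pair hg hl)) (exMemE_p hl ?_))
  exact finC_p.comp (Primrec.pair (hg.comp Primrec.fst) (Primrec.snd.comp Primrec.snd))

/-- Unbounded search over a primcodable type is r.e. -/
theorem rePred_exists {α γ : Type} [Primcodable α] [Primcodable γ] {Q : α → γ → Prop}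
    (hQ : PrimrecRel Q) : REPred (fun c => ∃ l, Q c l) := by
  classical
  have h1 : PrimrecRel (fun (c : α) (k : ℕ) => ∃ l ∈ (Encodable.decode k : Option γ), Q c l) := by
    have h2 : Primrec (fun x : α × ℕ => (Encodable.decode (α := γ) x.2).toList) :=
      Primrec.optionToList.comp (Primrec.decode.comp Primrec.snd)
    have h3 : PrimrecRel (fun (l : γ) (x : α × ℕ) => Q x.1 l) :=
      hQ.comp (Primrec.fst.comp Primrec.snd) Primrec.fst
    refine PrimrecPred.of_eq (h3.exists_mem_list.comp h2 Primrec.id) ?_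
    intro x
    simp
  refine (rePred_exists_nat h1).of_eq ?_
  intro c
  constructor
  · rintro ⟨k, l, -, hl⟩; exact ⟨l, hl⟩
  · rintro ⟨l, hl⟩
    exact ⟨Encodable.encode l, l, by simp, hl⟩

theorem re_cert : REPred (fun c : Tab => ∃ x, Cert c x) := rePred_exists Cert_p

end RE

end HypQ
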