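import Pool.Agent.Lib.MP_9f0b3e_al.ReWild
import Pool.Agent.Lib.MP_9f0b3e_al.ReVal

/-!
# Coded derivations are derivations
-/

set_option autoImplicit false

namespace HypQ

namespace RE

open CoRe Pointwise

section sound

variable {g : Ctx} {A : Type} [CommGroup A] {β : A → ℕ}

/-- the state codes a derivable datum -/
def Sem (β : A → ℕ) (s : State) : Prop :=
  (s.1 = 0 ∨ s.1.Prime) ∧ ∃ (B : Type) (_ : CommGroup B) (q : A →* B) (α : (ZMod s.1)ˣ →* B)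
    (H : Subgroup B) (N : Set (B × B)), Cod0 β s.1 s.2.1 s.2.2.1 q α ∧
      CodHN β s.2.2.2.1 s.2.2.2.2 q H N ∧ Der s.1 B α H N

/-- transport of a datum to an isomorphic quotient -/
theorem transport {B B₁ : Type} [CommGroup B] [CommGroup B₁] {c : ℕ} {S₁ al₁ Hl₁ : List ℕ}
    {Nl₁ : List (ℕ × ℕ)} {q : A →* B} (hqs : Function.Surjective q)
    (hk : ∀ a, β a ∈ S₁ ↔ q a = 1) {q₁ : A →* B₁} {α₁ : (ZMod c)ˣ →* B₁}
    {H₁ : Subgroup B₁} {N₁ : Set (B₁ × B₁)} (hq₁ : Cod0 β c S₁ al₁ q₁ α₁)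
    (h₁ : CodHN β Hl₁ Nl₁ q₁ H₁ N₁) (hD : Der c B₁ α₁ H₁ N₁) :
    ∃ (α : (ZMod c)ˣ →* B) (H : Subgroup B) (N : Set (B × B)), Cod0 β c S₁ al₁ q α ∧
      CodHN β Hl₁ Nl₁ q H N ∧ Der c B α H N := by
  have hk' : ∀ a, q a = 1 ↔ q₁ a = 1 := fun a => by rw [← hk, hq₁.ker]
  obtain ⟨φ, hφ⟩ := exists_factor q q₁ hqs (fun a ha => (hk' a).mp ha)
  obtain ⟨ψ, hψ⟩ := exists_factor q₁ q hq₁.surj (fun a ha => (hk' a).mpr ha)
  have h1 : ∀ b, φ (ψ b) = b := by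
    intro b
    obtain ⟨a, rfl⟩ := hq₁.surj b
    rw [hψ, hφ]
  have hφs : Function.Surjective φ := fun b => ⟨ψ b, h1 b⟩
  have h2 : φ.comp (ψ.comp α₁) = α₁ := by
    ext u; exact h1 _
  refine ⟨ψ.comp α₁, H₁.comap φ, {p | (φ p.1, φ p.2) ∈ N₁}, ⟨hqs, hk, ?_⟩, ⟨?_, ?_⟩, ?_⟩
  · intro u
    obtain ⟨a, ha1, ha2⟩ := hq₁.al u
    refine ⟨a, ha1, ?_⟩
    rw [MonoidHom.comp_apply, ← ha2, hψ]
  · intro a
    rw [h₁.H, Subgroup.mem_comap, hφ]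
  · intro a b
    rw [h₁.N, Set.mem_ofPred_eq, hφ, hφ]
  · refine Der.lift c B B₁ φ hφs (ψ.comp α₁) H₁ N₁ ?_
    rw [h2]; exact hD

/-- the filtration of a coded wild place -/
theorem exists_filtration {B : Type} [CommGroup B] {q : A →* B} {S : List ℕ} {w : Wit}
    (h : Enc g A β) (hS : ∀ a, β a ∈ S ↔ q a = 1)
    (h8 : ∀ k < w.2.2.2.1.2.2, 0 < k → g.2.2 ∈ BL S w k ∧
      AllV g (fun x => x ∈ S → x ∈ BL S w k) ∧
      AllV g (fun x => x ∈ BL S w k → AllV g (fun y => y ∈ BL S w k →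
        mm g x y ∈ BL S w k)) ∧
      AllV g (fun x => x ∈ BL S w k → ExV g (fun y => y ∈ BL S w k ∧ mm g x y = g.2.2))) :
    ∃ F : ℕ → Subgroup B, ∀ n, 1 ≤ n → ∀ a, β a ∈ BL S w n ↔ q a ∈ F n := by
  have key : ∀ n, ∃ F : Subgroup B, 1 ≤ n → ∀ a, β a ∈ BL S w n ↔ q a ∈ F := by
    intro n
    by_cases hn : n < w.2.2.2.1.2.2 ∧ 0 < n
    · obtain ⟨h1, h2, h3, h4⟩ := h8 n hn.1 hn.2
      simp only [h.AllV_iff, h.ExV_iff] at h2 h3 h4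
      rw [h.one] at h1 h4
      have hsat : ∀ a b, q a = q b → β b ∈ BL S w n → β a ∈ BL S w n := by
        intro a b hab hb
        have h5 : β (a / b) ∈ BL S w n := by
          apply h2
          rw [hS, map_div, hab, div_self']
        have h6 := h3 _ h5 _ hb
        rw [h.mul, div_mul_cancel] at h6
        exact h6
      refine ⟨{ carrier := {b | ∃ a, q a = b ∧ β a ∈ BL S w n}, mul_mem' := ?_, one_mem' := ?_,
                inv_mem' := ?_ }, ?_⟩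
      · rintro _ _ ⟨a, rfl, ha⟩ ⟨b, rfl, hb⟩
        refine ⟨a * b, map_mul _ _ _, ?_⟩
        rw [← h.mul]; exact h3 a ha b hb
      · exact ⟨1, map_one _, h1⟩
      · rintro _ ⟨a, rfl, ha⟩
        obtain ⟨b, hb1, hb2⟩ := h4 a ha
        rw [h.mul] at hb2
        have hb3 : a * b = 1 := h.inj hb2
        refine ⟨b, ?_, hb1⟩
        rw [← map_inv, inv_eq_of_mul_eq_one_right hb3]
      · intro _ a
        constructor
        · intro ha; exact ⟨a, rfl, ha⟩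
        · rintro ⟨b, hb1, hb2⟩
          exact hsat a b hb1.symm hb2
    · refine ⟨⊥, ?_⟩
      intro hn1 a
      rw [BL_ge (by omega), hS, Subgroup.mem_bot]
  choose F hF using key
  exact ⟨F, fun n hn a => hF n hn a⟩

theorem sem_of_stp (h : Enc g A β) (hcard : Nat.card A < nn g) {w : Wit} {t : List State}
    {s : State} (ht : ∀ s' ∈ t, Sem β s') (hs : Stp g w t s) : Sem β s := by
  have := h.finite
  obtain ⟨ch, S, al, Hl, Nl⟩ := s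
  obtain ⟨hb, hr⟩ := hs
  obtain ⟨hc, B, _, q, α, hq⟩ := cod0_of_base h hb
  rcases hr with h2 | h2 | ⟨s₁, hs₁, s₂, hs₂, h2⟩ | ⟨s₁, hs₁, h2⟩ | ⟨s₁, hs₁, h2⟩ |
    ⟨s₁, hs₁, h2⟩ | h2 | ⟨s₁, hs₁, h2⟩
  · -- triv
    obtain ⟨h3, h4⟩ := (trivR_iff h hc hq).mp h2
    subst h3
    exact ⟨hc, B, _, q, 1, ⊥, {(1, 1)}, hq, h4, Der.triv ch hc B⟩
  · -- sign
    have h3 : ch = 0 := h2.1
    subst h3
    exact ⟨hc, B, _, q, α, _, _, hq, (signR_iff h hq).mp h2, Der.sign B α⟩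
  · -- prod
    obtain ⟨ch₁, S₁, al₁, Hl₁, Nl₁⟩ := s₁
    obtain ⟨ch₂, S₂, al₂, Hl₂, Nl₂⟩ := s₂
    obtain ⟨hc₁, B₁, _, q₁, α₁, H₁, N₁, hq₁, h₁, hD₁⟩ := ht _ hs₁
    obtain ⟨hc₂, B₂, _, q₂, α₂, H₂, N₂, hq₂, h₂, hD₂⟩ := ht _ hs₂
    obtain ⟨h3, h4⟩ := (sameK_iff h).mp h2.1
    obtain ⟨h5, h6⟩ := (sameK_iff h).mp h2.2.1
    subst h3
    subst h5
    obtain ⟨α₁', H₁', N₁', hq₁', h₁', hD₁'⟩ := transport hq.surj
      (fun a => by rw [← h4, hq.ker]) hq₁ h₁ hD₁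
    obtain ⟨α₂', H₂', N₂', hq₂', h₂', hD₂'⟩ := transport hq.surj
      (fun a => by rw [← h6, hq.ker]) hq₂ h₂ hD₂
    obtain ⟨h7, h8⟩ := (prodR_iff h hc hq hq₁' hq₂' h₁' h₂').mp h2
    subst h7
    exact ⟨hc, B, _, q, _, _, _, hq, h8, Der.prod ch B _ _ _ _ _ _ hD₁' hD₂'⟩
  · -- lift
    obtain ⟨ch₁, S₁, al₁, Hl₁, Nl₁⟩ := s₁
    obtain ⟨hc₁, B₁, _, q₁, α₁, H₁, N₁, hq₁, h₁, hD₁⟩ := ht _ hs₁
    have h3 : ch = ch₁ := h2.1
    subst h3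
    have h4 : AllV g (fun x => x ∈ S → x ∈ S₁) := h2.2.1
    rw [h.AllV_iff] at h4
    obtain ⟨φ, hφ⟩ := exists_factor q q₁ hq.surj
      (fun a ha => (hq₁.ker a).mp (h4 a ((hq.ker a).mpr ha)))
    have hφs : Function.Surjective φ := by
      intro b
      obtain ⟨a, rfl⟩ := hq₁.surj b
      exact ⟨q a, hφ a⟩
    obtain ⟨h5, h6⟩ := (liftR_iff h hc hq hq₁ h₁ hφ).mp h2
    refine ⟨hc, B, _, q, α, _, _, hq, h6, Der.lift ch B B₁ φ hφs α H₁ N₁ ?_⟩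
    rw [h5]; exact hD₁
  · -- tame
    obtain ⟨ch₁, S₁, al₁, Hl₁, Nl₁⟩ := s₁
    obtain ⟨hc₁, B₁, _, q₁, α₁, H₁, N₁, hq₁, h₁, hD₁⟩ := ht _ hs₁
    obtain ⟨h3, h4⟩ := (sameK_iff h).mp h2.1
    subst h3
    obtain ⟨α₁', H₁', N₁', hq₁', h₁', hD₁'⟩ := transport hq.surj
      (fun a => by rw [← h4, hq.ker]) hq₁ h₁ hD₁
    have h5 := h2.2.1
    rw [h.ExV_iff] at h5
    obtain ⟨t', ht'⟩ := h5
    rw [ht'] at h2
    obtain ⟨h7, h8⟩ := (tameR_iff h hcard hc hq hq₁' h₁' t').mp h2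
    subst h7
    exact ⟨hc, B, _, q, _, _, _, hq, h8, Der.tame ch B _ _ _ _ hD₁'⟩
  · -- red
    obtain ⟨p, S₁, al₁, Hl₁, Nl₁⟩ := s₁
    obtain ⟨hc₁, B₁, _, q₁, α₁, H₁, N₁, hq₁, h₁, hD₁⟩ := ht _ hs₁
    have h3 : ch = 0 := h2.1
    subst h3
    have h4 : ¬ p = 0 := h2.2.1
    have hp : p.Prime := hc₁.resolve_left h4
    have h5 : AllV g (fun x => x ∈ S ↔ x ∈ S₁) := h2.2.2.1
    rw [h.AllV_iff] at h5
    obtain ⟨α₁', H₁', N₁', hq₁', h₁', hD₁'⟩ := transport hq.surj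
      (fun a => by rw [← h5, hq.ker]) hq₁ h₁ hD₁
    obtain ⟨h7, h8⟩ := (redR_iff h hp hq hq₁' h₁').mp h2
    exact ⟨hc, B, _, q, α, _, _, hq, h8, Der.red p hp B _ _ h7 _ _ hD₁'⟩
  · -- fin
    have hrok : RingOK w.1 := h2.1
    obtain ⟨R, _, _, ρ, hr⟩ := enc_of_ringOK hrok
    obtain ⟨π, hπ⟩ := hr.surj _ h2.2.2.1
    have h6 := h2.2.2.2.2.2.1
    have h7 := h2.2.2.2.2.2.2.1
    have h8 : RE.rnat w.1 ch = w.1.2.2.2.1 := h2.2.2.2.2.2.2.2.1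
    rw [h.ExV_iff] at h7
    obtain ⟨t', ht'⟩ := h7
    rw [hr.rnat, hr.zero, hr.inj.eq_iff] at h8
    let j : ZMod ch →+* R := ZMod.castHom (ringChar.dvd h8) R
    replace h6 : ∀ x < w.1.1, RE.rU w.1 x → ExV g (fun a => w.2.2.1.getD x 0 = a) ∧
      ∀ y < w.1.1, RE.rU w.1 y → Eqv g S (w.2.2.1.getD (tb w.1.2.2.1 x y) 0)
        (mm g (w.2.2.1.getD x 0) (w.2.2.1.getD y 0)) := h6
    have h9 : ∀ u : Rˣ, ∃ a, w.2.2.1.getD (ρ u) 0 = β a := by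
      intro u
      have := (h6 (ρ u) (hr.lt _) ((hr.rU _).mpr u.isUnit)).1
      rwa [h.ExV_iff] at this
    choose f hf using h9
    have h10 : ∀ u v : Rˣ, q (f (u * v)) = q (f u) * q (f v) := by
      intro u v
      have := (h6 (ρ u) (hr.lt _) ((hr.rU _).mpr u.isUnit)).2 (ρ v) (hr.lt _)
        ((hr.rU _).mpr v.isUnit)
      rw [hr.mul, ← Units.val_mul, hf, hf, hf, h.mul, eqv_iff h hq.ker] at this
      rw [this, map_mul]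
    let X : Rˣ →* B := MonoidHom.mk' (fun u => q (f u)) h10
    have hX : ∀ u : Rˣ, ∃ a, w.2.2.1.getD (ρ u) 0 = β a ∧ q a = X u :=
      fun u => ⟨f u, hf u, rfl⟩
    obtain ⟨⟨h11, h12, h13⟩, h14, h15⟩ :=
      (finR_iff h hcard hc hq hr X hX ht' hπ.symm j).mp h2
    have hchain : IsChain R π := ⟨⟨⟨0, 1, h11⟩⟩, ⟨_, h12⟩, h13⟩
    subst h14
    exact ⟨hc, B, _, q, _, _, _, hq, h15, Der.fin ch hc B R π hchain j X (q t')⟩
  · -- wild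
    obtain ⟨p, S₁, al₁, Hl₁, Nl₁⟩ := s₁
    obtain ⟨hc₁, B₁, _, q₁, α₁, H₁, N₁, hq₁, h₁, hD₁⟩ := ht _ hs₁
    have hpw : p = w.2.2.2.1.1 := h2.1
    have h4 : ¬ p = 0 := h2.2.1
    have hp : p.Prime := hc₁.resolve_left h4
    have h5 := h2.2.2.2.1
    rw [h.ExV_iff] at h5
    obtain ⟨t', ht'⟩ := h5
    have h7 : AllV g (fun x => x ∈ S₁ ↔ x ∈ BL S w 1) := h2.2.2.2.2.2.2.1
    have h8 := h2.2.2.2.2.2.2.2.1
    obtain ⟨F, hF⟩ := exists_filtration (w := w) h hq.ker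
      (fun k hk hk0 => ⟨(h8 k hk hk0).1, (h8 k hk hk0).2.1, (h8 k hk hk0).2.2.2.1,
        (h8 k hk hk0).2.2.2.2.1⟩)
    rw [h.AllV_iff] at h7
    obtain ⟨φ, hφ⟩ := exists_factor q q₁ hq.surj (by
      intro a ha
      rw [← hq₁.ker, h7, hF 1 le_rfl, ha]
      exact one_mem _)
    have hφs : Function.Surjective φ := by
      intro b
      obtain ⟨a, rfl⟩ := hq₁.surj b
      exact ⟨q a, hφ a⟩
    obtain ⟨h9, h10, h11⟩ := (wildR_iff h hcard hc hp hq hq₁ h₁ hφ hF ht' hpw).mp h2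
    exact ⟨hc, B, _, q, α, _, _, hq, h11, Der.wild ch p hp B B₁ φ hφs α α₁ H₁ N₁ (q t') F _ _
      h9 h10 hD₁⟩

theorem sem_of_valid (h : Enc g A β) (hcard : Nat.card A < nn g) {l : List Entry}
    (hl : Valid g l) : ∀ e ∈ l, Sem β e.2 := by
  induction l with
  | nil => intro e he; simp at he
  | cons e t ih =>
    have h1 := ih hl.2
    intro e' he'
    rcases List.mem_cons.mp he' with he' | he'
    · subst he'
      refine sem_of_stp h hcard ?_ hl.1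
      intro s' hs'
      obtain ⟨e'', he'', rfl⟩ := List.mem_map.mp hs'
      exact h1 e'' he''
    · exact h1 e' he'

end sound

end RE

end HypQ
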