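import Pool.Agent.Lib.MP_9f0b3e_al.ReFin

/-!
# Coded derivations: the rule for wild places
-/

set_option autoImplicit false

namespace HypQ

namespace RE

open CoRe Pointwise

section wild

variable {g : Ctx} {A : Type} [CommGroup A] {β : A → ℕ} {B B' : Type} [CommGroup B]
variable [CommGroup B'] {ch p : ℕ} {S al Hl S₁ al₁ Hl₁ : List ℕ} {Nl Nl₁ : List (ℕ × ℕ)}
variable {q : A →* B} {α : (ZMod ch)ˣ →* B} {q₁ : A →* B'} {α₁ : (ZMod p)ˣ →* B'} {w : Wit}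
variable {H₁ : Subgroup B'} {N₁ : Set (B' × B')}

theorem BL_ge {k : ℕ} (hk : w.2.2.2.1.2.2 ≤ k) : BL S w k = S := by
  unfold BL
  rw [if_neg (by omega)]

theorem F_ge (hqs : Function.Surjective q) (hS : ∀ a, β a ∈ S ↔ q a = 1)
    {F : ℕ → Subgroup B} (hF : ∀ n, 1 ≤ n → ∀ a, β a ∈ BL S w n ↔ q a ∈ F n)
    {n : ℕ} (hn : 1 ≤ n) (hM : w.2.2.2.1.2.2 ≤ n) : F n = ⊥ := by
  rw [eq_bot_iff]
  intro b hb
  obtain ⟨a, rfl⟩ := hqs b
  rw [← hF n hn, BL_ge hM, hS] at hb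
  rw [Subgroup.mem_bot]; exact hb

theorem wR_iff [Finite A] (h : Enc g A β) (hcard : Nat.card A < nn g)
    (hqs : Function.Surjective q) (hS : ∀ a, β a ∈ S ↔ q a = 1)
    (h₁ : CodHN β Hl₁ Nl₁ q₁ H₁ N₁) {φ : B →* B'} (hφ : ∀ a, φ (q a) = q₁ a)
    {F : ℕ → Subgroup B} (hF : ∀ n, 1 ≤ n → ∀ a, β a ∈ BL S w n ↔ q a ∈ F n)
    {t : A} (ht : w.2.1.2.2 = β t) (a b : A) :
    wR g S Hl₁ w (β a) (β b) ↔
      (q a, q b) ∈ {p : B × B | ∃ n : ℕ, 1 ≤ n ∧ φ (p.1 * (q t ^ n)⁻¹) ∈ H₁ ∧ p.2 ∈ F n} := by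
  unfold wR
  rw [Set.mem_ofPred_eq]
  have e1 : ∀ k, 0 < k → ((ExV g (fun x => x ∈ Hl₁ ∧ β a = mm g x (RE.pw g w.2.1.2.2 k)) ∧
      β b ∈ BL S w k) ↔ (φ (q a * (q t ^ k)⁻¹) ∈ H₁ ∧ q b ∈ F k)) := by
    intro k hk
    rw [h.ExV_iff, hF k hk]
    refine and_congr ?_ Iff.rfl
    simp only [ht, h.pw, h.mul, h.inj.eq_iff, h₁.H]
    constructor
    · rintro ⟨a₁, h2, rfl⟩
      rw [map_mul q, map_pow q, mul_inv_cancel_right, hφ]
      exact h2
    · intro h2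
      refine ⟨a / t ^ k, ?_, ?_⟩
      · rw [← hφ, map_div, map_pow, div_eq_mul_inv]; exact h2
      · rw [div_mul_cancel]
  constructor
  · rintro ⟨k, hk1, hk2, hk3⟩
    exact ⟨k, hk2, (e1 k hk2).mp hk3⟩
  · rintro ⟨n, hn, h2, h3⟩
    have hm : 0 < Nat.card A := Nat.card_pos
    obtain ⟨k, hk1, hk2, hk3, hk4⟩ := exists_small_exp hm w.2.2.2.1.2.2 n hn
    have h4 : q t ^ k = q t ^ n := by
      rw [← map_pow, ← map_pow, pow_eq_of_mod (pow_card_eq_one') hk3]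
    refine ⟨k, by omega, hk1, (e1 k hk1).mpr ⟨?_, ?_⟩⟩
    · rw [h4]; exact h2
    · rcases hk4 with hk4 | ⟨hk4, hk5⟩
      · rw [hk4]; exact h3
      · rw [F_ge hqs hS hF hn hk5] at h3
        rw [F_ge hqs hS hF hk1 hk4]
        exact h3

theorem wildR_iff [Finite A] (h : Enc g A β) (hcard : Nat.card A < nn g)
    (hc : ch = 0 ∨ ch.Prime) (hp : p.Prime) (hq : Cod0 β ch S al q α)
    (hq₁ : Cod0 β p S₁ al₁ q₁ α₁)
    (h₁ : CodHN β Hl₁ Nl₁ q₁ H₁ N₁) {φ : B →* B'} (hφ : ∀ a, φ (q a) = q₁ a)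
    {F : ℕ → Subgroup B} (hF : ∀ n, 1 ≤ n → ∀ a, β a ∈ BL S w n ↔ q a ∈ F n)
    {t : A} (ht : w.2.1.2.2 = β t) (hpw : p = w.2.2.2.1.1) :
    wildR g w (p, S₁, al₁, Hl₁, Nl₁) (ch, S, al, Hl, Nl) ↔
      ((ch = 0 ∧ φ (α (-1)) = α₁ (-1)) ∨
        (ch = p ∧ w.2.2.2.1.2.2 ≤ w.2.2.2.1.2.1 ∧ ∀ (u : (ZMod ch)ˣ) (v : (ZMod p)ˣ),
          ((u : ZMod ch).val = (v : ZMod p).val) → φ (α u) = α₁ v)) ∧
      ChainOK p w.2.2.2.1.2.1 w.2.2.2.1.2.2 φ (α (-1)) F ∧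
      CodHN β Hl Nl q (H₁.comap φ ⊔ Subgroup.zpowers (q t))
        (wildSet φ (α (-1)) (q t) H₁ N₁ F) := by
  obtain ⟨e, he1, he2⟩ := hq.al (-1)
  rw [key_neg_one hc] at he1
  obtain ⟨e', he1', he2'⟩ := hq₁.al (-1)
  rw [key_neg_one (Or.inr hp)] at he1'
  unfold wildR
  show (p = w.2.2.2.1.1 ∧ ¬ p = 0 ∧
    ((ch = 0 ∧ Eqv g S₁ (al.getD 0 0) (al₁.getD (p - 1) 0)) ∨
      (ch = p ∧ w.2.2.2.1.2.2 ≤ w.2.2.2.1.2.1 ∧
        ∀ k < ch + 2, IsKey ch k → Eqv g S₁ (al.getD k 0) (al₁.getD k 0))) ∧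
    ExV g (fun a => w.2.1.2.2 = a) ∧ 0 < w.2.2.2.1.2.1 ∧ 0 < w.2.2.2.1.2.2 ∧
    AllV g (fun x => x ∈ S₁ ↔ x ∈ BL S w 1) ∧
    (∀ k < w.2.2.2.1.2.2, 0 < k → g.2.2 ∈ BL S w k ∧
      AllV g (fun x => x ∈ S → x ∈ BL S w k) ∧
      AllV g (fun x => x ∈ BL S w (k + 1) → x ∈ BL S w k) ∧
      AllV g (fun x => x ∈ BL S w k → AllV g (fun y => y ∈ BL S w k →
        mm g x y ∈ BL S w k)) ∧
      AllV g (fun x => x ∈ BL S w k → ExV g (fun y => y ∈ BL S w k ∧ mm g x y = g.2.2)) ∧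
      AllV g (fun x => x ∈ BL S w k → RE.pw g x w.2.2.2.1.1 ∈
        BL S w (min (w.2.2.2.1.1 * k) (k + w.2.2.2.1.2.1))) ∧
      (w.2.2.2.1.2.1 < k * (w.2.2.2.1.1 - 1) → AllV g (fun x =>
        x ∈ BL S w (k + w.2.2.2.1.2.1) → ExV g (fun y => y ∈ BL S w k ∧
          ExV g (fun z => z ∈ BL S w (k + w.2.2.2.1.2.1 + 1) ∧
            Eqv g S x (mm g (RE.pw g y w.2.2.2.1.1) z)))))) ∧
    (w.2.2.2.1.1 = 2 → al.getD (ch - 1) 0 ∈ BL S w w.2.2.2.1.2.1) ∧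
    AllV g (fun x => x ∈ Hl ↔ ExV g (fun y => y ∈ Hl₁ ∧
      ∃ k < nn g, x = mm g y (RE.pw g w.2.1.2.2 k))) ∧
    AllV g (fun x => AllV g (fun y => (x, y) ∈ Nl ↔
      (x, y) ∈ Nl₁ ∨ wR g S Hl₁ w x y ∨ wR g S Hl₁ w y x ∨
      ExV g (fun y' => ExV g (fun b => wR g S Hl₁ w y' b ∧ mm g x y' ∈ S ∧
        Eqv g S y (mm g (mm g (al.getD (ch - 1) 0) b) x)))))) ↔ _
  rw [he1, ← hpw]
  -- characters
  have ec : ((ch = 0 ∧ Eqv g S₁ (al.getD 0 0) (al₁.getD (p - 1) 0)) ∨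
      (ch = p ∧ w.2.2.2.1.2.2 ≤ w.2.2.2.1.2.1 ∧
        ∀ k < ch + 2, IsKey ch k → Eqv g S₁ (al.getD k 0) (al₁.getD k 0))) ↔
      ((ch = 0 ∧ φ (α (-1)) = α₁ (-1)) ∨
        (ch = p ∧ w.2.2.2.1.2.2 ≤ w.2.2.2.1.2.1 ∧ ∀ (u : (ZMod ch)ˣ) (v : (ZMod p)ˣ),
          ((u : ZMod ch).val = (v : ZMod p).val) → φ (α u) = α₁ v)) := by
    refine or_congr ?_ ?_
    · refine and_congr_right ?_
      intro h0
      subst h0
      have he1 : al.getD 0 0 = β e := he1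
      rw [he1, he1', eqv_iff h hq₁.ker, ← hφ, he2, he2']
    · refine and_congr_right ?_
      intro h0
      subst h0
      refine and_congr_right ?_
      intro _
      rw [forall_key hc, al_iff h hq hq₁ hφ]
      have : Fact ch.Prime := ⟨hp⟩
      constructor
      · intro h2 u v huv
        have h3 : u = v := Units.ext (ZMod.val_injective ch huv)
        rw [h3, ← h2]; rfl
      · intro h2
        ext u
        exact h2 u u rfl
  rw [ec]
  -- H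
  have eH : AllV g (fun x => x ∈ Hl ↔ ExV g (fun y => y ∈ Hl₁ ∧
      ∃ k < nn g, x = mm g y (RE.pw g w.2.1.2.2 k))) ↔
      ∀ a, β a ∈ Hl ↔ q a ∈ H₁.comap φ ⊔ Subgroup.zpowers (q t) := by
    simp only [h.AllV_iff, h.ExV_iff, ht, h.pw, h.mul, h.inj.eq_iff, h₁.H]
    have e1 : ∀ a, (∃ b, q₁ b ∈ H₁ ∧ ∃ k < nn g, a = b * t ^ k) ↔
        q a ∈ H₁.comap φ ⊔ Subgroup.zpowers (q t) := by
      intro a
      rw [← sup_iff hcard]
      simp only [Subgroup.mem_comap, hφ]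
    simp only [e1]
  rw [eH]
  -- N
  have eN : AllV g (fun x => AllV g (fun y => (x, y) ∈ Nl ↔
      (x, y) ∈ Nl₁ ∨ wR g S Hl₁ w x y ∨ wR g S Hl₁ w y x ∨
      ExV g (fun y' => ExV g (fun b => wR g S Hl₁ w y' b ∧ mm g x y' ∈ S ∧
        Eqv g S y (mm g (mm g (β e) b) x))))) ↔
      ∀ a b, (β a, β b) ∈ Nl ↔ (q a, q b) ∈ wildSet φ (α (-1)) (q t) H₁ N₁ F := by
    rw [h.AllV_iff]
    refine forall_congr' ?_
    intro a
    rw [h.AllV_iff]
    refine forall_congr' ?_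
    intro b
    rw [place_iff h hq.surj hq.ker
      (fun a b => wR_iff h hcard hq.surj hq.ker h₁ hφ hF ht a b) he2, h₁.N]
    unfold wildSet
    rw [Set.mem_union, Set.mem_ofPred_eq]
    simp only [hφ]
  rw [eN]
  -- the chain
  have eB : ∀ k < w.2.2.2.1.2.2, 0 < k → (AllV g (fun x => x ∈ BL S w k → RE.pw g x p ∈
        BL S w (min (p * k) (k + w.2.2.2.1.2.1))) ↔
        ∀ b ∈ F k, b ^ p ∈ F (min (p * k) (k + w.2.2.2.1.2.1))) := by
    intro k _ hk0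
    have hmin : 1 ≤ min (p * k) (k + w.2.2.2.1.2.1) := by
      have := hp.pos
      rw [le_min_iff]
      exact ⟨Nat.mul_pos this hk0, by omega⟩
    rw [h.AllV_iff]
    simp only [h.pw, hF k hk0, hF _ hmin]
    constructor
    · intro h2 b hb
      obtain ⟨a, rfl⟩ := hq.surj b
      rw [← map_pow]; exact h2 a hb
    · intro h2 a ha
      rw [map_pow]; exact h2 _ ha
  constructor
  · rintro ⟨-, -, h3, h4, h5, h6, h7, h8, h9, h10, h11⟩
    refine ⟨h3, ?_, ⟨h10, h11⟩⟩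
    rw [h.AllV_iff] at h7
    refine
      { e_pos := h5
        M_pos := h6
        anti := ?_
        one := ?_
        top := ?_
        pow := ?_
        gen := ?_
        eps := ?_ }
    · intro n hn
      by_cases hnM : n < w.2.2.2.1.2.2
      · intro b hb
        obtain ⟨a, rfl⟩ := hq.surj b
        have h12 := (h8 n hnM hn).2.2.1
        rw [h.AllV_iff] at h12
        rw [← hF n hn]
        rw [← hF (n + 1) (by omega)] at hb
        exact h12 a hb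
      · rw [F_ge hq.surj hq.ker hF (by omega : 1 ≤ n + 1) (by omega)]
        exact bot_le
    · ext b
      obtain ⟨a, rfl⟩ := hq.surj b
      rw [← hF 1 le_rfl, ← h7 a, hq₁.ker, MonoidHom.mem_ker, hφ]
    · intro n hn
      exact F_ge hq.surj hq.ker hF (by omega) hn
    · intro n hn
      by_cases hnM : n < w.2.2.2.1.2.2
      · exact (eB n hnM hn).mp (h8 n hnM hn).2.2.2.2.2.1
      · intro b hb
        rw [F_ge hq.surj hq.ker hF hn (by omega), Subgroup.mem_bot] at hb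
        rw [hb, one_pow]
        exact one_mem _
    · intro n hn hen b hb
      by_cases hnM : n < w.2.2.2.1.2.2
      · have h12 := (h8 n hnM hn).2.2.2.2.2.2 hen
        rw [h.AllV_iff] at h12
        obtain ⟨a, rfl⟩ := hq.surj b
        rw [← hF (n + _) (by omega)] at hb
        have h13 := h12 a hb
        rw [h.ExV_iff] at h13
        obtain ⟨y, hy, h14⟩ := h13
        rw [h.ExV_iff] at h14
        obtain ⟨z, hz, h15⟩ := h14
        rw [h.pw, h.mul, eqv_iff h hq.ker] at h15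
        rw [hF n hn] at hy
        rw [hF _ (by omega)] at hz
        exact ⟨q y, hy, q z, hz, by rw [h15, map_mul, map_pow]⟩
      · rw [F_ge hq.surj hq.ker hF (by omega : 1 ≤ n + _) (by omega), Subgroup.mem_bot] at hb
        exact ⟨1, one_mem _, 1, one_mem _, by rw [hb]; simp⟩
    · intro hp2
      have := h9 hp2
      rw [hF _ h5, he2] at this
      exact this
  · rintro ⟨h3, hch, h12⟩
    have h5 := hch.e_pos
    refine ⟨rfl, hp.ne_zero, h3, ?_, h5, hch.M_pos, ?_, ?_, ?_, h12.H, h12.N⟩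
    · rw [h.ExV_iff]; exact ⟨t, ht⟩
    · rw [h.AllV_iff]
      intro a
      rw [hF 1 le_rfl, hch.one, hq₁.ker, MonoidHom.mem_ker, hφ]
    · intro k hkM hk0
      refine ⟨?_, ?_, ?_, ?_, ?_, ?_, ?_⟩
      · rw [h.one, hF k hk0, map_one]; exact one_mem _
      · rw [h.AllV_iff]
        intro a ha
        rw [hq.ker] at ha
        rw [hF k hk0, ha]; exact one_mem _
      · rw [h.AllV_iff]
        intro a ha
        rw [hF _ (by omega)] at ha
        rw [hF k hk0]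
        exact hch.anti k hk0 ha
      · rw [h.AllV_iff]
        intro a ha
        rw [h.AllV_iff]
        intro b hb
        rw [hF k hk0] at ha hb
        rw [h.mul, hF k hk0, map_mul]
        exact mul_mem ha hb
      · rw [h.AllV_iff]
        intro a ha
        rw [h.ExV_iff]
        rw [hF k hk0] at ha
        refine ⟨a⁻¹, ?_, ?_⟩
        · rw [hF k hk0, map_inv]; exact inv_mem ha
        · rw [h.mul, mul_inv_cancel, h.one]
      · exact (eB k hkM hk0).mpr (hch.pow k hk0)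
      · intro hen
        rw [h.AllV_iff]
        intro a ha
        rw [hF _ (by omega)] at ha
        obtain ⟨b₁, hb₁, b₂, hb₂, h13⟩ := hch.gen k hk0 hen _ ha
        obtain ⟨y, rfl⟩ := hq.surj b₁
        obtain ⟨z, rfl⟩ := hq.surj b₂
        rw [h.ExV_iff]
        refine ⟨y, (hF k hk0 y).mpr hb₁, ?_⟩
        rw [h.ExV_iff]
        refine ⟨z, (hF _ (by omega) z).mpr hb₂, ?_⟩
        rw [h.pw, h.mul, eqv_iff h hq.ker, h13, map_mul, map_pow]
    · intro hp2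
      rw [hF _ h5, he2]
      exact hch.eps hp2

end wild

end RE

end HypQ
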