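import Pool.Agent.Lib.MP_9f0b3e_al.Pair

/-!
# Reduction modulo a prime: characteristic `p` data are characteristic `0` data

A character of `(Z/p)[x_1, ..., x_n]` gives a character of `Z[x_1, ..., x_n]`, trivial on `p`,
with the same pair set: the new pairs are tame pairs, and these are pairs of any infinite field.
-/

set_option autoImplicit false

namespace HypQ

section red

variable {P Q A : Type*} [CommRing P] [IsDomain P] [CommRing Q] [IsDomain Q] [CommGroup A]

/-- The character of `P` induced from one of `P / π`, trivial on the prime element `π`. -/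
theorem red_char (f : P →+* Q) (hfs : Function.Surjective f) (π : P) (hπ : π ≠ 0)
    (hf : ∀ b : P, f b = 0 ↔ π ∣ b) (hm : ∀ a : P, a ≠ 0 → ∃ (n : ℕ) (b : P), f b ≠ 0 ∧ a = π ^ n * b)
    (ψ : Q →*₀ WithZero A) (hψ : NV ψ) (ε : A) (hε : ψ (-1) = (ε : WithZero A)) :
    ∃ ψ₀ : P →*₀ WithZero A, NV ψ₀ ∧ (∀ a : P, f a ≠ 0 → ψ₀ a = ψ (f a)) ∧ HH ψ₀ = HH ψ ∧
      NN ψ ⊆ NN ψ₀ ∧ NN ψ₀ ⊆ NN ψ ∪ tameSet ε (HH ψ) := by
  classical
  have hfπ : f π = 0 := (hf π).2 dvd_rfl
  -- uniqueness of the decomposition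
  have huniq : ∀ (n m : ℕ) (b b' : P), f b ≠ 0 → f b' ≠ 0 → π ^ n * b = π ^ m * b' → b = b' := by
    intro n m b b' hb hb' h
    rcases lt_trichotomy n m with hnm | hnm | hnm
    · exfalso
      obtain ⟨k, rfl⟩ := Nat.exists_eq_add_of_lt hnm
      have h1 : π ^ n * b = π ^ n * (π * (π ^ k * b')) := by rw [h]; ring
      have h2 := mul_left_cancel₀ (pow_ne_zero n hπ) h1
      exact hb (by rw [h2, map_mul, hfπ, zero_mul])
    · rw [hnm] at h
      exact mul_left_cancel₀ (pow_ne_zero m hπ) h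
    · exfalso
      obtain ⟨k, rfl⟩ := Nat.exists_eq_add_of_lt hnm
      have h1 : π ^ m * b' = π ^ m * (π * (π ^ k * b)) := by rw [← h]; ring
      have h2 := mul_left_cancel₀ (pow_ne_zero m hπ) h1
      exact hb' (by rw [h2, map_mul, hfπ, zero_mul])
  have hm' : ∀ a : P, ∃ (n : ℕ) (b : P), a ≠ 0 → f b ≠ 0 ∧ a = π ^ n * b := by
    intro a
    by_cases ha : a = 0
    · exact ⟨0, 0, fun h => absurd ha h⟩
    · obtain ⟨n, b, h⟩ := hm a ha
      exact ⟨n, b, fun _ => h⟩
  choose v r hr using hm'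
  have hval : ∀ (a : P) (n : ℕ) (b : P), f b ≠ 0 → a = π ^ n * b → r a = b := by
    intro a n b hb h
    have ha : a ≠ 0 := by
      rw [h]
      refine mul_ne_zero (pow_ne_zero n hπ) ?_
      rintro rfl
      exact hb (map_zero f)
    obtain ⟨h1, h2⟩ := hr a ha
    exact huniq (v a) n (r a) b h1 hb (by rw [← h2, h])
  let ψ₀ : P →*₀ WithZero A :=
    { toFun := fun a => if a = 0 then 0 else ψ (f (r a))
      map_zero' := by simp
      map_one' := by
        have : r 1 = 1 := hval 1 0 1 (by simp) (by simp)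
        simp [this]
      map_mul' := by
        intro a b
        by_cases ha : a = 0
        · simp [ha]
        by_cases hb : b = 0
        · simp [hb]
        rw [if_neg ha, if_neg hb, if_neg (mul_ne_zero ha hb)]
        obtain ⟨h1, h2⟩ := hr a ha
        obtain ⟨h3, h4⟩ := hr b hb
        have : r (a * b) = r a * r b := hval (a * b) (v a + v b) (r a * r b)
          (by rw [map_mul]; exact mul_ne_zero h1 h3) (by
            calc a * b = (π ^ v a * r a) * (π ^ v b * r b) := by rw [← h2, ← h4]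
              _ = _ := by ring)
        rw [this, map_mul, map_mul] }
  have hψ₀ : ∀ a : P, a ≠ 0 → ψ₀ a = ψ (f (r a)) := fun a ha => if_neg ha
  have hψ₀' : ∀ a : P, f a ≠ 0 → ψ₀ a = ψ (f a) := by
    intro a ha
    have ha0 : a ≠ 0 := by rintro rfl; exact ha (map_zero f)
    rw [hψ₀ a ha0, hval a 0 a ha (by simp)]
  have hπ1 : ∀ n : ℕ, ψ₀ (π ^ n) = 1 := by
    intro n
    have : r (π ^ n) = 1 := hval (π ^ n) n 1 (by simp) (by simp)
    rw [hψ₀ _ (pow_ne_zero n hπ), this]
    simp
  have hNV : NV ψ₀ := fun a ha => by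
    rw [hψ₀ a ha]
    exact hψ _ (hr a ha).1
  -- values of `ψ₀` lie in `HH ψ`
  have hmem : ∀ (a : P) (x : A), ψ₀ a = (x : WithZero A) → x ∈ HH ψ := by
    intro a x hx
    have ha : a ≠ 0 := by
      rintro rfl
      rw [map_zero] at hx
      exact WithZero.coe_ne_zero hx.symm
    rw [hψ₀ a ha] at hx
    exact Subgroup.subset_closure ⟨_, hx⟩
  have hcoe : ∀ a : P, a ≠ 0 → ∃ x : A, ψ₀ a = (x : WithZero A) := by
    intro a ha
    obtain ⟨x, hx⟩ := WithZero.ne_zero_iff_exists.mp (hNV a ha)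
    exact ⟨x, hx.symm⟩
  have hmem2 : ∀ (a c : P) (x : A), c ≠ 0 → ψ₀ a = (x : WithZero A) * ψ₀ c → x ∈ HH ψ := by
    intro a c x hc hx
    obtain ⟨t, ht⟩ := hcoe c hc
    have h1 : ψ₀ a = ((x * t : A) : WithZero A) := by rw [hx, ht]; norm_cast
    have h2 := hmem a _ h1
    have h3 := hmem c _ ht
    have h4 := (HH ψ).mul_mem h2 ((HH ψ).inv_mem h3)
    rwa [mul_inv_cancel_right] at h4
  refine ⟨ψ₀, hNV, hψ₀', ?_, ?_, ?_⟩
  · apply le_antisymm
    · conv_lhs => unfold HH
      rw [Subgroup.closure_le]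
      rintro x ⟨a, ha⟩
      exact hmem a x ha
    · conv_lhs => unfold HH
      rw [Subgroup.closure_le]
      rintro x ⟨a, ha⟩
      obtain ⟨b, rfl⟩ := hfs a
      refine Subgroup.subset_closure ⟨b, ?_⟩
      rw [hψ₀' b, ha]
      intro h0
      rw [h0, map_zero] at ha
      exact WithZero.coe_ne_zero ha.symm
  · rintro ⟨x, y⟩ ⟨a, b, c, hc, habc, hx, hy⟩
    obtain ⟨a', rfl⟩ := hfs a
    obtain ⟨b', rfl⟩ := hfs b
    have hc' : f (a' + b') = c := by rw [map_add, habc]
    have hca : f (a' + b') ≠ 0 := by rw [hc']; exact hc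
    have ha : f a' ≠ 0 := by
      intro h0
      rw [h0, map_zero] at hx
      exact mul_ne_zero WithZero.coe_ne_zero (hψ c hc) hx.symm
    have hb : f b' ≠ 0 := by
      intro h0
      rw [h0, map_zero] at hy
      exact mul_ne_zero WithZero.coe_ne_zero (hψ c hc) hy.symm
    refine ⟨a', b', a' + b', ?_, rfl, ?_, ?_⟩
    · intro h0
      exact hca (by rw [h0, map_zero])
    · rw [hψ₀' _ ha, hψ₀' _ hca, hc', hx]
    · rw [hψ₀' _ hb, hψ₀' _ hca, hc', hy]
  · rintro ⟨x, y⟩ ⟨a, b, c, hc, habc, hx, hy⟩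
    have ha : a ≠ 0 := by
      intro h0
      rw [h0, map_zero] at hx
      exact mul_ne_zero WithZero.coe_ne_zero (hNV c hc) hx.symm
    have hb : b ≠ 0 := by
      intro h0
      rw [h0, map_zero] at hy
      exact mul_ne_zero WithZero.coe_ne_zero (hNV c hc) hy.symm
    have hxH := hmem2 a c x hc hx
    have hyH := hmem2 b c y hc hy
    -- divide by the common power of `π`
    obtain ⟨m, a', b', c', rfl, rfl, rfl, hne⟩ : ∃ (m : ℕ) (a' b' c' : P),
        a = π ^ m * a' ∧ b = π ^ m * b' ∧ c = π ^ m * c' ∧ (f a' ≠ 0 ∨ f b' ≠ 0 ∨ f c' ≠ 0) := by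
      obtain ⟨ha1, ha2⟩ := hr a ha
      obtain ⟨hb1, hb2⟩ := hr b hb
      obtain ⟨hc1, hc2⟩ := hr c hc
      set m := min (v a) (min (v b) (v c)) with hmdef
      have hma : m ≤ v a := min_le_left _ _
      have hmb : m ≤ v b := le_trans (min_le_right _ _) (min_le_left _ _)
      have hmc : m ≤ v c := le_trans (min_le_right _ _) (min_le_right _ _)
      refine ⟨m, π ^ (v a - m) * r a, π ^ (v b - m) * r b, π ^ (v c - m) * r c, ?_, ?_, ?_, ?_⟩
      · rw [← mul_assoc, ← pow_add, Nat.add_sub_cancel' hma]; exact ha2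
      · rw [← mul_assoc, ← pow_add, Nat.add_sub_cancel' hmb]; exact hb2
      · rw [← mul_assoc, ← pow_add, Nat.add_sub_cancel' hmc]; exact hc2
      · have h3 : m = v a ∨ m = v b ∨ m = v c := by omega
        rcases h3 with h3 | h3 | h3
        · left; rw [h3]; simpa using ha1
        · right; left; rw [h3]; simpa using hb1
        · right; right; rw [h3]; simpa using hc1
    have hπm : π ^ m ≠ 0 := pow_ne_zero m hπ
    have habc' : a' + b' = c' := by
      apply mul_left_cancel₀ hπm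
      rw [mul_add, habc]
    rw [map_mul, map_mul, hπ1, one_mul, one_mul] at hx hy
    have hc'0 : c' ≠ 0 := fun h => hc (by rw [h, mul_zero])
    have hfabc : f a' + f b' = f c' := by rw [← map_add, habc']
    by_cases hfa : f a' = 0
    · -- `y = 1`
      right
      have hfbc : f b' = f c' := by rw [← hfabc, hfa, zero_add]
      have hfc : f c' ≠ 0 := by
        rcases hne with h | h | h
        · exact absurd hfa h
        · rwa [← hfbc]
        · exact h
      have hfb : f b' ≠ 0 := by rwa [hfbc]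
      rw [hψ₀' _ hfb, hψ₀' _ hfc, hfbc] at hy
      have hy1 : (y : WithZero A) = 1 := by
        have := hψ _ hfc
        exact (mul_eq_right₀ this).1 hy.symm
      have hy1' : y = 1 := by exact_mod_cast hy1
      exact ⟨x, hxH, Or.inl (by rw [hy1'])⟩
    by_cases hfb : f b' = 0
    · right
      have hfac : f a' = f c' := by rw [← hfabc, hfb, add_zero]
      have hfc : f c' ≠ 0 := by rwa [← hfac]
      rw [hψ₀' _ hfa, hψ₀' _ hfc, hfac] at hx
      have hx1 : (x : WithZero A) = 1 := by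
        have := hψ _ hfc
        exact (mul_eq_right₀ this).1 hx.symm
      have hx1' : x = 1 := by exact_mod_cast hx1
      exact ⟨y, hyH, Or.inr (Or.inl (by rw [hx1']))⟩
    by_cases hfc : f c' = 0
    · right
      have hfba : f b' = (-1) * f a' := by
        rw [hfc] at hfabc
        linear_combination hfabc
      rw [hψ₀' _ hfa] at hx
      rw [hψ₀' _ hfb, hfba, map_mul, hε, hx, ← mul_assoc] at hy
      have hc'' := hNV _ hc'0
      have h5 := mul_right_cancel₀ hc'' hy
      have h6 : ε * x = y := by exact_mod_cast h5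
      exact ⟨x, hxH, Or.inr (Or.inr (by rw [h6]))⟩
    · left
      rw [hψ₀' _ hfa, hψ₀' _ hfc] at hx
      rw [hψ₀' _ hfb, hψ₀' _ hfc] at hy
      exact ⟨f a', f b', f c', hfc, hfabc, hx, hy⟩

end red

/-- The reduction from a universal realisation. -/
theorem real_red_of_realU {A : Type} [CommGroup A] {p : ℕ} (hp : p.Prime) {n : ℕ}
    {α : (ZMod p)ˣ →* A} {α₀ : (ZMod 0)ˣ →* A} (hα : α₀ (-1) = α (-1)) {H : Subgroup A}
    {N : Set (A × A)} (ht : tameSet (α (-1)) H ⊆ N) (h : RealU p n A α H N) :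
    Real 0 A α₀ H N := by
  have := Fact.mk hp
  obtain ⟨ψ, hψ, hN, hH, hα'⟩ := h
  have hε : ψ (-1) = (α (-1) : WithZero A) := by
    have := hα' (MvPolynomial.C) (-1)
    simpa using this
  let f : MvPolynomial (Fin n) ℤ →+* UP p n := MvPolynomial.map (Int.castRingHom (ZMod p))
  have hfs : Function.Surjective f :=
    MvPolynomial.map_surjective _ (ZMod.ringHom_surjective (Int.castRingHom (ZMod p)))
  have hpp : Prime (MvPolynomial.C (p : ℤ) : MvPolynomial (Fin n) ℤ) :=
    (MvPolynomial.prime_C_iff (Fin n)).2 (Nat.prime_iff_prime_int.1 hp)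
  have hf : ∀ b, f b = 0 ↔ (MvPolynomial.C (p : ℤ) : MvPolynomial (Fin n) ℤ) ∣ b := by
    intro b
    refine (MvPolynomial.C_dvd_iff_map_hom_eq_zero (Int.castRingHom (ZMod p)) (p : ℤ) ?_ b).symm
    intro r'
    exact ZMod.intCast_zmod_eq_zero_iff_dvd r' p
  obtain ⟨ψ₀, h1, h2, h3, h4, h5⟩ := red_char f hfs (MvPolynomial.C (p : ℤ)) hpp.ne_zero hf (by
    intro a ha
    obtain ⟨k, b, hb, hab⟩ := WfDvdMonoid.max_power_factor ha hpp.irreducible
    exact ⟨k, b, fun h0 => hb ((hf b).1 h0), hab⟩) ψ hψ (α (-1)) hε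
  obtain ⟨χ, hχ, hχN, hχH⟩ := frac_char ψ₀ h1
  have : CharP (FractionRing (MvPolynomial (Fin n) ℤ)) 0 := inferInstance
  refine ⟨FractionRing (MvPolynomial (Fin n) ℤ), inferInstance, inferInstance, ?_, χ, ?_, ?_, ?_⟩
  · exact Infinite.of_injective (fun k : ℤ => (k : FractionRing (MvPolynomial (Fin n) ℤ)))
      Int.cast_injective
  · rw [hχN, ← hN]
    apply le_antisymm _ h4
    refine h5.trans (Set.union_subset le_rfl ?_)
    rw [hH, hN]
    exact ht
  · rw [hχH, h3, hH]
  · intro j u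
    have hm1 : χ (-1) = (α (-1) : WithZero A) := by
      have h6 := hχ (-1)
      rw [map_neg, map_one] at h6
      rw [h6, h2 (-1) (by simp), map_neg, map_one, hε]
    have hu : u = 1 ∨ u = -1 := Int.units_eq_one_or u
    rcases hu with rfl | rfl
    · simp
    · rw [hα]
      have : j ((-1 : (ZMod 0)ˣ) : ZMod 0) = -1 := by simp
      rw [this, hm1]

/-- Characteristic `p` data, realised by an infinite field and by `F_p(x_1, ..., x_n)`, are
characteristic `0` data. -/
theorem real_red_of_univ {A : Type} [CommGroup A] [Finite A] {p : ℕ} (hp : p.Prime)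
    {α : (ZMod p)ˣ →* A} {α₀ : (ZMod 0)ˣ →* A} (hα : α₀ (-1) = α (-1)) {H : Subgroup A}
    {N : Set (A × A)} (h : Real p A α H N) (hU : ∃ n : ℕ, RealU p n A α H N) :
    Real 0 A α₀ H N := by
  obtain ⟨n, hn⟩ := hU
  refine real_red_of_realU hp hα ?_ hn
  obtain ⟨K, _, _, _, χ, hN, hH, hα'⟩ := h
  have hε : χ (-1) = (α (-1) : WithZero A) := by
    have := hα' (ZMod.castHom (dvd_refl p) K) (-1)
    simpa using this
  rw [← hN, ← hH]
  exact tameSet_subset_NN χ (α (-1)) hε

end HypQ
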