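import Pool.Agent.Lib.MP_9f0b3e_al.CoRe
import Pool.Agent.Lib.MP_9f0b3e_al.Defs

/-!
# Tables of derivable data

`TabOK c` : the tables `c` are those of a derivable datum `(0, A, α, ⊤, N)`. Interface between the
modules RE (`REPred TabOK`) and FINAL (`CoRe.Real c ↔ TabOK c`).
-/

set_option autoImplicit false

namespace HypQ

open CoRe

/-- `z ∈ x + y` in the hyperfield `A ∪ {0}` given by `ε` and the pair set `N`. -/
def HSum {A : Type} [CommGroup A] (ε : A) (N : Set (A × A)) (x y z : WithZero A) : Prop :=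
  (x = 0 ∧ z = y) ∨ (y = 0 ∧ z = x) ∨
  (∃ a : A, x = (a : WithZero A) ∧ y = ((ε * a : A) : WithZero A) ∧ z = 0) ∨
  (∃ a b d : A, x = (a : WithZero A) ∧ y = (b : WithZero A) ∧ z = (d : WithZero A) ∧
    (a / d, b / d) ∈ N)

/-- The table is the table of a derivable datum in characteristic `0`. -/
def TabOK (c : Tab) : Prop :=
  ∃ (A : Type) (_ : CommGroup A) (_ : Finite A) (β : WithZero A → ℕ) (α : (ZMod 0)ˣ →* A)
    (N : Set (A × A)), Der 0 A α ⊤ N ∧ Function.Injective β ∧ (∀ x, β x < c.1) ∧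
    (∀ i, i < c.1 → ∃ x, β x = i) ∧ (∀ x y, β (x * y) = mulT c (β x) (β y)) ∧
    (∀ x y z, β z ∈ addT c (β x) (β y) ↔ HSum (α (-1)) N x y z)

end HypQ
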