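import Pool.Agent.Lib.MP_9f0b3e_al.Jac

/-!
# The ultrapower of `(K, χ)` over `ℕ`
-/

set_option autoImplicit false

namespace HypQ

open Finset Filter

noncomputable section

/-- the ultrapower `K^ℕ / U`. -/
def UL (K : Type*) : Type _ := Filter.Germ ((Filter.hyperfilter ℕ : Ultrafilter ℕ) : Filter ℕ) K

instance instFieldUL (K : Type*) [Field K] : Field (UL K) :=
  inferInstanceAs (Field (Filter.Germ ((Filter.hyperfilter ℕ : Ultrafilter ℕ) : Filter ℕ) K))

/-- class of a sequence -/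
def ofSeq {K : Type*} (f : ℕ → K) : UL K :=
  ((f : Filter.Germ ((Filter.hyperfilter ℕ : Ultrafilter ℕ) : Filter ℕ) K))

/-- for almost all `n` -/
def Ae (p : ℕ → Prop) : Prop := ∀ᶠ n in ((Filter.hyperfilter ℕ : Ultrafilter ℕ) : Filter ℕ), p n

theorem Ae.mono {p q : ℕ → Prop} (h : Ae p) (hpq : ∀ n, p n → q n) : Ae q :=
  Filter.Eventually.mono h hpq

theorem Ae.and {p q : ℕ → Prop} (h : Ae p) (h' : Ae q) : Ae (fun n => p n ∧ q n) :=
  Filter.Eventually.and h h'

theorem Ae.exists {p : ℕ → Prop} (h : Ae p) : ∃ n, p n := Filter.Eventually.exists h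

theorem Ae.of_forall {p : ℕ → Prop} (h : ∀ n, p n) : Ae p := Filter.Eventually.of_forall h

theorem ae_not {p : ℕ → Prop} : ¬ Ae p ↔ Ae (fun n => ¬ p n) := by
  unfold Ae
  exact Ultrafilter.eventually_not.symm

theorem ae_or {p q : ℕ → Prop} : Ae (fun n => p n ∨ q n) ↔ Ae p ∨ Ae q := by
  unfold Ae
  exact Ultrafilter.eventually_or

theorem ae_forall_finset {ι : Type*} (s : Finset ι) {p : ι → ℕ → Prop}
    (h : ∀ i ∈ s, Ae (p i)) : Ae (fun n => ∀ i ∈ s, p i n) := by
  unfold Ae at *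
  exact (Filter.eventually_all_finset s).mpr h

theorem ae_ge (k : ℕ) : Ae (fun n => k ≤ n) := by
  unfold Ae
  have h1 : {n : ℕ | ¬ k ≤ n}.Finite := by
    apply Set.Finite.subset (Set.finite_Iio k)
    intro n hn
    simpa using hn
  have h2 : {n : ℕ | k ≤ n}ᶜ.Finite := h1
  exact Filter.mem_hyperfilter_of_finite_compl h2

theorem ofSeq_surj {K : Type*} (x : UL K) : ∃ f : ℕ → K, ofSeq f = x := by
  induction x using Filter.Germ.inductionOn with
  | h f => exact ⟨f, rfl⟩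

theorem ofSeq_eq {K : Type*} {f g : ℕ → K} : ofSeq f = ofSeq g ↔ Ae (fun n => f n = g n) :=
  Filter.Germ.coe_eq

section field

variable {K : Type*} [Field K]

theorem ofSeq_add (f g : ℕ → K) : ofSeq (f + g) = ofSeq f + ofSeq g := rfl
theorem ofSeq_mul (f g : ℕ → K) : ofSeq (f * g) = ofSeq f * ofSeq g := rfl
theorem ofSeq_sub (f g : ℕ → K) : ofSeq (f - g) = ofSeq f - ofSeq g := rfl
theorem ofSeq_neg (f : ℕ → K) : ofSeq (-f) = -ofSeq f := rfl
theorem ofSeq_inv (f : ℕ → K) : ofSeq (f⁻¹) = (ofSeq f)⁻¹ := rfl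
theorem ofSeq_div (f g : ℕ → K) : ofSeq (f / g) = ofSeq f / ofSeq g := rfl
theorem ofSeq_zero : ofSeq (fun _ => (0 : K)) = 0 := rfl
theorem ofSeq_one : ofSeq (fun _ => (1 : K)) = 1 := rfl

theorem ofSeq_ne_zero {f : ℕ → K} : ofSeq f ≠ 0 ↔ Ae (fun n => f n ≠ 0) := by
  rw [← ofSeq_zero, ne_eq, ofSeq_eq, ae_not]

/-- the diagonal embedding -/
def diag (K : Type*) [Field K] : K →+* UL K where
  toFun a := ofSeq (fun _ => a)
  map_one' := rfl
  map_mul' _ _ := rfl
  map_zero' := rfl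
  map_add' _ _ := rfl

instance instAlgebraUL (K : Type*) [Field K] : Algebra K (UL K) := (diag K).toAlgebra

theorem algebraMap_UL (a : K) : algebraMap K (UL K) a = ofSeq (fun _ => a) := rfl

end field

section char

variable {K Γ : Type*} [Field K] [CommGroupWithZero Γ] [Finite Γ]

theorem exists_ae_eq {Γ : Type*} [Finite Γ] (f : ℕ → Γ) : ∃ γ, Ae (fun n => f n = γ) := by
  by_contra h
  push Not at h
  have h1 : ∀ γ, Ae (fun n => f n ≠ γ) := fun γ => ae_not.mp (h γ)
  have h2 : ∀ᶠ n in ((Filter.hyperfilter ℕ : Ultrafilter ℕ) : Filter ℕ), ∀ γ, f n ≠ γ :=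
    Filter.eventually_all.mpr h1
  obtain ⟨n, hn⟩ := h2.exists
  exact hn _ rfl

theorem ae_unique {Γ : Type*} {f : ℕ → Γ} {γ δ : Γ} (h : Ae (fun n => f n = γ))
    (h' : Ae (fun n => f n = δ)) : γ = δ := by
  obtain ⟨n, hn, hn'⟩ := (h.and h').exists
  rw [← hn, hn']

/-- value of the extended character on a sequence -/
def seqVal (χ : K →*₀ Γ) (f : ℕ → K) : Γ := Classical.choose (exists_ae_eq (fun n => χ (f n)))

theorem seqVal_spec (χ : K →*₀ Γ) (f : ℕ → K) : Ae (fun n => χ (f n) = seqVal χ f) :=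
  Classical.choose_spec (exists_ae_eq (fun n => χ (f n)))

theorem seqVal_eq {χ : K →*₀ Γ} {f : ℕ → K} {γ : Γ} :
    seqVal χ f = γ ↔ Ae (fun n => χ (f n) = γ) := by
  constructor
  · rintro rfl; exact seqVal_spec χ f
  · intro h; exact ae_unique (seqVal_spec χ f) h

/-- the extension of `χ` to the ultrapower -/
def ultra (χ : K →*₀ Γ) : UL K →*₀ Γ where
  toFun x := seqVal χ (Classical.choose (ofSeq_surj x))
  map_zero' := by
    rw [seqVal_eq]
    have h := Classical.choose_spec (ofSeq_surj (0 : UL K))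
    rw [← ofSeq_zero, ofSeq_eq] at h
    exact h.mono (fun n hn => (congrArg χ hn).trans (map_zero χ))
  map_one' := by
    rw [seqVal_eq]
    have h := Classical.choose_spec (ofSeq_surj (1 : UL K))
    rw [← ofSeq_one, ofSeq_eq] at h
    exact h.mono (fun n hn => (congrArg χ hn).trans (map_one χ))
  map_mul' := by
    intro x y
    rw [seqVal_eq]
    have h := Classical.choose_spec (ofSeq_surj (x * y))
    have hx := Classical.choose_spec (ofSeq_surj x)
    have hy := Classical.choose_spec (ofSeq_surj y)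
    have h2 : ofSeq (Classical.choose (ofSeq_surj (x * y)))
        = ofSeq (Classical.choose (ofSeq_surj x) * Classical.choose (ofSeq_surj y)) := by
      rw [ofSeq_mul, h, hx, hy]
    rw [ofSeq_eq] at h2
    refine ((h2.and (seqVal_spec χ (Classical.choose (ofSeq_surj x)))).and
      (seqVal_spec χ (Classical.choose (ofSeq_surj y)))).mono ?_
    rintro n ⟨⟨h3, h4⟩, h5⟩
    rw [h3, Pi.mul_apply, map_mul, h4, h5]

theorem ultra_ofSeq {χ : K →*₀ Γ} {f : ℕ → K} {γ : Γ} :
    ultra χ (ofSeq f) = γ ↔ Ae (fun n => χ (f n) = γ) := by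
  change seqVal χ (Classical.choose (ofSeq_surj (ofSeq f))) = γ ↔ _
  rw [seqVal_eq]
  have h := ofSeq_eq.mp (Classical.choose_spec (ofSeq_surj (ofSeq f)))
  constructor
  · intro h'
    exact (h.and h').mono (fun n hn => by rw [← hn.1, hn.2])
  · intro h'
    exact (h.and h').mono (fun n hn => by rw [hn.1, hn.2])

theorem ultra_algebraMap (χ : K →*₀ Γ) (a : K) : ultra χ (algebraMap K (UL K) a) = χ a := by
  rw [algebraMap_UL, ultra_ofSeq]
  exact Ae.of_forall (fun _ => rfl)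

/-- Membership in `D` for a sequence. -/
theorem memD_ofSeq {χ : K →*₀ Γ} {f : ℕ → K} :
    MemD K (ultra χ) (ofSeq f) ↔ ∀ l : K, Ae (fun n => χ (1 + l * f n) = 1) := by
  unfold MemD
  apply forall_congr'
  intro l
  rw [algebraMap_UL, ← ofSeq_one, ← ofSeq_mul, ← ofSeq_add, ultra_ofSeq]
  rfl

/-- The extension of a reduced character to the ultrapower is reduced over `K`. -/
theorem redExt_ultra {χ : K →*₀ Γ} (h : RedExt K χ) : RedExt K (ultra χ) := by
  intro z hz
  obtain ⟨a, b, c, ha, hb, hc, habc, H⟩ := h z hz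
  refine ⟨a, b, c, ha, hb, hc, habc, ?_⟩
  intro a' b' c' hs h1 h2 h3
  obtain ⟨f, rfl⟩ := ofSeq_surj a'
  obtain ⟨g, rfl⟩ := ofSeq_surj b'
  obtain ⟨k, rfl⟩ := ofSeq_surj c'
  rw [← ofSeq_add, ← ofSeq_add, ← ofSeq_zero, ofSeq_eq] at hs
  rw [ultra_algebraMap, ultra_ofSeq] at h1 h2 h3
  obtain ⟨n, ⟨⟨hn, h1⟩, h2⟩, h3⟩ := (((hs.and h1).and h2).and h3).exists
  exact H (f n) (g n) (k n) hn h1 h2 h3

/-- small nonzero elements of `K` -/
theorem exists_small_ul [Infinite K] (χ : K →*₀ Γ) (F : Finset K) :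
    ∃ v : K, v ≠ 0 ∧ ∀ f ∈ F, χ (1 + f * v) = 1 := by
  classical
  obtain ⟨C, hC⟩ := gallai K (insert 1 F) Γ
  obtain ⟨c, d, -, hd, hm⟩ := hC (fun x => χ x)
  have hc : c ≠ 0 := by
    intro h
    have := hm 1 (Finset.mem_insert_self _ _)
    rw [h, map_zero, mul_one, zero_add, map_eq_zero] at this
    exact hd this
  have hχ : χ c ≠ 0 := by simpa [map_eq_zero] using hc
  refine ⟨d / c, div_ne_zero hd hc, ?_⟩
  intro f hf
  have h1 := hm f (Finset.mem_insert_of_mem hf)
  have h2 : 1 + f * (d / c) = (c + d * f) / c := by field_simp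
  rw [h2, map_div₀, h1, div_self hχ]

/-- `D` is idempotent (saturation). -/
theorem memD_split [Infinite K] [Countable K] (χ : K →*₀ Γ) (u : UL K)
    (hu : MemD K (ultra χ) u) : ∃ v : UL K, v ≠ 0 ∧ MemD K (ultra χ) v ∧
      MemD K (ultra χ) (u / v) := by
  classical
  obtain ⟨w, rfl⟩ := ofSeq_surj u
  obtain ⟨f, hf⟩ := exists_surjective_nat K
  have hsmall : ∀ k : ℕ, ∃ v : K, v ≠ 0 ∧ ∀ i ≤ k, χ (1 + f i * v) = 1 := by
    intro k
    obtain ⟨v, hv, h⟩ := exists_small_ul χ ((Finset.range (k+1)).image f)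
    refine ⟨v, hv, fun i hi => h _ ?_⟩
    exact Finset.mem_image_of_mem _ (Finset.mem_range.mpr (Nat.lt_succ_of_le hi))
  choose v hv0 hv using hsmall
  let p : ℕ → ℕ → Prop := fun n k => ∀ i ≤ k, χ (1 + f i * (w n / v k)) = 1
  let m : ℕ → ℕ := fun n => Nat.findGreatest (p n) n
  have hw := memD_ofSeq.mp hu
  have hev : ∀ k, Ae (fun n => p n k) := by
    intro k
    have h1 : Ae (fun n => ∀ i ∈ Finset.range (k+1), χ (1 + f i * (w n / v k)) = 1) := by
      apply ae_forall_finset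
      intro i _
      have := hw (f i / v k)
      refine this.mono (fun n hn => ?_)
      rw [← hn]; congr 2; field_simp
    exact h1.mono (fun n hn i hi => hn i (Finset.mem_range.mpr (Nat.lt_succ_of_le hi)))
  have hm : ∀ k, Ae (fun n => k ≤ m n ∧ p n (m n)) := by
    intro k
    refine ((hev k).and (ae_ge k)).mono ?_
    rintro n ⟨h1, h2⟩
    exact ⟨Nat.le_findGreatest h2 h1, Nat.findGreatest_spec (P := p n) h2 h1⟩
  refine ⟨ofSeq (fun n => v (m n)), ?_, ?_, ?_⟩
  · rw [ofSeq_ne_zero]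
    exact Ae.of_forall (fun n => hv0 _)
  · rw [memD_ofSeq]
    intro l
    obtain ⟨k, rfl⟩ := hf l
    exact (hm k).mono (fun n hn => hv _ k hn.1)
  · rw [← ofSeq_div, memD_ofSeq]
    intro l
    obtain ⟨k, rfl⟩ := hf l
    exact (hm k).mono (fun n hn => hn.2 k hn.1)

end char

end

end HypQ
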