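import Mathlib

/-!
# V-topologies on fields: bounded sets

`K` is a field with a ring topology which is Hausdorff, not discrete, and has the V-property.
-/

set_option autoImplicit false
set_option linter.unusedSectionVars false

namespace HypQ.VTop

open Filter Topology Pointwise

variable {K : Type*} [Field K] [TopologicalSpace K]

/-- the V-property of a ring topology on a field -/
def VProp (K : Type*) [Field K] [TopologicalSpace K] : Prop :=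
  ∀ N ∈ 𝓝 (0 : K), ∃ N' ∈ 𝓝 (0 : K), ∀ x y : K, x * y ∈ N' → x ∈ N ∨ y ∈ N

/-- bounded subsets of a topological field -/
def Bdd (B : Set K) : Prop :=
  ∀ N ∈ 𝓝 (0 : K), ∃ M ∈ 𝓝 (0 : K), ∀ b ∈ B, ∀ m ∈ M, b * m ∈ N

theorem Bdd.mono {B B' : Set K} (h : Bdd B) (hs : B' ⊆ B) : Bdd B' := by
  intro N hN
  obtain ⟨M, hM, h1⟩ := h N hN
  exact ⟨M, hM, fun b hb => h1 b (hs hb)⟩

theorem Bdd.union {B B' : Set K} (h : Bdd B) (h' : Bdd B') : Bdd (B ∪ B') := by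
  intro N hN
  obtain ⟨M, hM, h1⟩ := h N hN
  obtain ⟨M', hM', h1'⟩ := h' N hN
  refine ⟨M ∩ M', inter_mem hM hM', ?_⟩
  rintro b (hb | hb) m ⟨hm, hm'⟩
  · exact h1 b hb m hm
  · exact h1' b hb m hm'

theorem Bdd.mul {B B' : Set K} (h : Bdd B) (h' : Bdd B') : Bdd (B * B') := by
  intro N hN
  obtain ⟨M, hM, h1⟩ := h N hN
  obtain ⟨M', hM', h1'⟩ := h' M hM
  refine ⟨M', hM', ?_⟩
  rintro x hx m hm
  obtain ⟨b, hb, b', hb', rfl⟩ := Set.mem_mul.mp hx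
  rw [mul_assoc]
  exact h1 b hb _ (h1' b' hb' m hm)

variable [IsTopologicalRing K]

theorem bdd_singleton (a : K) : Bdd ({a} : Set K) := by
  intro N hN
  have h : Tendsto (fun x : K => a * x) (𝓝 0) (𝓝 0) := by
    have h1 : Continuous (fun x : K => a * x) := by fun_prop
    have := h1.tendsto 0
    simpa using this
  refine ⟨(fun x : K => a * x) ⁻¹' N, h hN, ?_⟩
  rintro b hb m hm
  rw [Set.mem_singleton_iff] at hb
  subst hb
  exact hm

theorem bdd_of_finite {B : Set K} (h : B.Finite) : Bdd B := by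
  induction B, h using Set.Finite.induction_on with
  | empty => intro N _; exact ⟨Set.univ, univ_mem, fun b hb => absurd hb (by simp)⟩
  | insert _ _ ih => rw [← Set.singleton_union]; exact (bdd_singleton _).union ih

theorem exists_add_sub {N : Set K} (hN : N ∈ 𝓝 (0 : K)) :
    ∃ M ∈ 𝓝 (0 : K), ∀ x ∈ M, ∀ y ∈ M, x + y ∈ N := by
  have h : Tendsto (fun p : K × K => p.1 + p.2) (𝓝 0 ×ˢ 𝓝 0) (𝓝 0) := by
    have := (continuous_add (M := K)).tendsto (0, 0)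
    rw [nhds_prod_eq] at this
    simpa using this
  obtain ⟨M, hM, h1⟩ := mem_prod_same_iff.mp (h hN)
  exact ⟨M, hM, fun x hx y hy => h1 (Set.mk_mem_prod hx hy)⟩

theorem exists_mul_sub {N : Set K} (hN : N ∈ 𝓝 (0 : K)) :
    ∃ M ∈ 𝓝 (0 : K), ∀ x ∈ M, ∀ y ∈ M, x * y ∈ N := by
  have h : Tendsto (fun p : K × K => p.1 * p.2) (𝓝 0 ×ˢ 𝓝 0) (𝓝 0) := by
    have := (continuous_mul (M := K)).tendsto (0, 0)
    rw [nhds_prod_eq] at this
    simpa using this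
  obtain ⟨M, hM, h1⟩ := mem_prod_same_iff.mp (h hN)
  exact ⟨M, hM, fun x hx y hy => h1 (Set.mk_mem_prod hx hy)⟩

theorem neg_mem_nhds {N : Set K} (hN : N ∈ 𝓝 (0 : K)) : {x | -x ∈ N} ∈ 𝓝 (0 : K) := by
  have : Tendsto (fun x : K => -x) (𝓝 0) (𝓝 0) := by
    have := (continuous_neg (G := K)).tendsto 0
    simpa using this
  exact this hN

theorem Bdd.add {B B' : Set K} (h : Bdd B) (h' : Bdd B') : Bdd (B + B') := by
  intro N hN
  obtain ⟨N', hN', hadd⟩ := exists_add_sub hN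
  obtain ⟨M, hM, h1⟩ := h N' hN'
  obtain ⟨M', hM', h1'⟩ := h' N' hN'
  refine ⟨M ∩ M', inter_mem hM hM', ?_⟩
  rintro x hx m ⟨hm, hm'⟩
  obtain ⟨b, hb, b', hb', rfl⟩ := Set.mem_add.mp hx
  rw [add_mul]
  exact hadd _ (h1 b hb m hm) _ (h1' b' hb' m hm')

theorem Bdd.neg {B : Set K} (h : Bdd B) : Bdd {x | -x ∈ B} := by
  intro N hN
  obtain ⟨M, hM, h1⟩ := h _ (neg_mem_nhds hN)
  refine ⟨M, hM, fun b hb m hm => ?_⟩
  have := h1 _ hb m hm
  simpa using this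

theorem Bdd.smul {B : Set K} (h : Bdd B) (a : K) : Bdd {x | ∃ b ∈ B, x = a * b} := by
  refine ((bdd_singleton a).mul h).mono ?_
  rintro x ⟨b, hb, rfl⟩
  exact Set.mul_mem_mul rfl hb

theorem smul_mem_nhds {N : Set K} (hN : N ∈ 𝓝 (0 : K)) (a : K) : {x | a * x ∈ N} ∈ 𝓝 (0 : K) := by
  obtain ⟨M, hM, h1⟩ := bdd_singleton a N hN
  exact mem_of_superset hM (fun m hm => h1 a rfl m hm)

omit [IsTopologicalRing K] in
theorem bdd_inv_compl (hV : VProp K) {N : Set K} (hN : N ∈ 𝓝 (0 : K)) :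
    Bdd {x : K | x⁻¹ ∉ N} := by
  intro M hM
  obtain ⟨N', hN', h1⟩ := hV (N ∩ M) (inter_mem hN hM)
  refine ⟨N', hN', fun b hb m hm => ?_⟩
  by_cases hb0 : b = 0
  · subst hb0; exact absurd (mem_of_mem_nhds hN) (by simpa using hb)
  have h2 : b⁻¹ * (b * m) ∈ N' := by rwa [← mul_assoc, inv_mul_cancel₀ hb0, one_mul]
  rcases h1 _ _ h2 with h | h
  · exact absurd h.1 hb
  · exact h.2

omit [IsTopologicalRing K] in
theorem compl_one_mem [T2Space K] : ({1}ᶜ : Set K) ∈ 𝓝 (0 : K) :=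
  isOpen_compl_singleton.mem_nhds (by simp)

/-- there is a bounded neighbourhood of zero -/
theorem exists_bdd_nhds [T2Space K] (hV : VProp K) : ∃ U ∈ 𝓝 (0 : K), Bdd U := by
  obtain ⟨M, hM, h1⟩ := exists_mul_sub (compl_one_mem (K := K))
  refine ⟨M, hM, ?_⟩
  have h2 : Bdd ({x : K | x⁻¹ ∉ M} ∪ {0}) := (bdd_inv_compl hV hM).union (bdd_singleton 0)
  refine h2.mono ?_
  intro x hx
  by_cases hx0 : x = 0
  · right; exact hx0
  · left
    intro h3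
    have := h1 _ h3 _ hx
    rw [inv_mul_cancel₀ hx0] at this
    exact this rfl

omit [IsTopologicalRing K] in
theorem exists_ne_zero_mem (hd : (𝓝[≠] (0 : K)).NeBot) {N : Set K} (hN : N ∈ 𝓝 (0 : K)) :
    ∃ c ∈ N, c ≠ 0 := by
  obtain ⟨c, hc⟩ := hd.nonempty_of_mem (inter_mem_nhdsWithin {(0 : K)}ᶜ hN)
  exact ⟨c, hc.2, hc.1⟩

/-- a bounded set can be scaled into any neighbourhood -/
theorem Bdd.exists_scale (hd : (𝓝[≠] (0 : K)).NeBot) {B : Set K} (hB : Bdd B) {N : Set K}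
    (hN : N ∈ 𝓝 (0 : K)) : ∃ c : K, c ≠ 0 ∧ ∀ b ∈ B, c * b ∈ N := by
  obtain ⟨M, hM, h1⟩ := hB N hN
  obtain ⟨c, hc, hc0⟩ := exists_ne_zero_mem hd hM
  exact ⟨c, hc0, fun b hb => by rw [mul_comm]; exact h1 b hb c hc⟩

theorem not_bdd_univ [T2Space K] (hd : (𝓝[≠] (0 : K)).NeBot) : ¬ Bdd (Set.univ : Set K) := by
  intro h
  obtain ⟨c, hc0, h1⟩ := h.exists_scale hd (compl_one_mem (K := K))
  have := h1 c⁻¹ (Set.mem_univ _)
  rw [mul_inv_cancel₀ hc0] at this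
  exact this rfl

/-- topologically nilpotent elements -/
def TNil (x : K) : Prop := Tendsto (fun n : ℕ => x ^ n) atTop (𝓝 0)

/-- power-bounded elements -/
def PBdd (x : K) : Prop := Bdd (Set.range (fun n : ℕ => x ^ n))

/-- If `b n` is bounded and `a n → 0` then `b n * a n = 1` cannot hold frequently. -/
theorem no_one [T2Space K] {B : Set K} (hB : Bdd B) {a : ℕ → K} (ha : Tendsto a atTop (𝓝 0))
    (h : ∀ m : ℕ, ∃ n, m ≤ n ∧ ∃ b ∈ B, b * a n = 1) : False := by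
  obtain ⟨M, hM, h1⟩ := hB _ (compl_one_mem (K := K))
  obtain ⟨m, hm⟩ := eventually_atTop.mp (ha hM)
  obtain ⟨n, hn, b, hb, h2⟩ := h m
  exact h1 b hb _ (hm n hn) h2

theorem TNil.inv_not_pbdd [T2Space K] {x : K} (hx0 : x ≠ 0) (h : TNil x) : ¬ PBdd x⁻¹ := by
  intro hb
  refine no_one hb h (fun m => ⟨m, le_rfl, (x⁻¹) ^ m, ⟨m, rfl⟩, ?_⟩)
  rw [← mul_pow, inv_mul_cancel₀ hx0, one_pow]

/-- a bounded multiplicatively closed neighbourhood not containing one and contained in `N` -/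
theorem exists_mul_closed [T2Space K] (hV : VProp K) (hd : (𝓝[≠] (0 : K)).NeBot) {N : Set K}
    (hN : N ∈ 𝓝 (0 : K)) :
    ∃ W ∈ 𝓝 (0 : K), Bdd W ∧ W ⊆ N ∧ (1 : K) ∉ W ∧ ∀ x ∈ W, ∀ y ∈ W, x * y ∈ W := by
  obtain ⟨U, hU, hUb⟩ := exists_bdd_nhds hV
  obtain ⟨M, hM, h1⟩ := (hUb.mul hUb) U hU
  obtain ⟨M', hM', h1'⟩ := hUb (N ∩ {1}ᶜ) (inter_mem hN compl_one_mem)
  obtain ⟨c, ⟨hc, hc'⟩, hc0⟩ := exists_ne_zero_mem hd (inter_mem hM hM')
  refine ⟨{x | c⁻¹ * x ∈ U}, smul_mem_nhds hU _, ?_, ?_, ?_, ?_⟩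
  · refine (hUb.smul c).mono ?_
    intro x hx
    exact ⟨_, hx, by rw [mul_inv_cancel_left₀ hc0]⟩
  · intro x hx
    have := h1' _ hx c hc'
    rw [mul_comm, mul_inv_cancel_left₀ hc0] at this
    exact this.1
  · intro hx
    have := h1' _ hx c hc'
    rw [mul_comm, mul_inv_cancel_left₀ hc0] at this
    exact this.2 rfl
  · intro x hx y hy
    have := h1 _ (Set.mul_mem_mul hx hy) c hc
    have e : c⁻¹ * (x * y) = c⁻¹ * x * (c⁻¹ * y) * c := by field_simp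
    change c⁻¹ * (x * y) ∈ U
    rw [e]
    exact this

theorem pow_mem_of_mul_closed {W : Set K} (h : ∀ x ∈ W, ∀ y ∈ W, x * y ∈ W) {x : K} (hx : x ∈ W) :
    ∀ n : ℕ, x ^ (n + 1) ∈ W := by
  intro n
  induction n with
  | zero => simpa using hx
  | succ n ih => rw [pow_succ]; exact h _ ih _ hx

/-- If `x` is not power bounded then `x⁻¹` is topologically nilpotent. -/
theorem tnil_inv_of_not_pbdd [T2Space K] (hV : VProp K) (hd : (𝓝[≠] (0 : K)).NeBot) {x : K}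
    (h : ¬ PBdd x) : TNil x⁻¹ := by
  -- small powers
  have hsmall : ∀ W ∈ 𝓝 (0 : K), ∃ n : ℕ, (x⁻¹) ^ n ∈ W := by
    intro W hW
    by_contra hcon
    push Not at hcon
    apply h
    refine (bdd_inv_compl hV hW).mono ?_
    rintro _ ⟨n, rfl⟩
    simpa using hcon n
  obtain ⟨W, hW, hWb, -, hW1, hWm⟩ := exists_mul_closed hV hd (univ_mem (f := 𝓝 (0 : K)))
  obtain ⟨n0, hn0⟩ := hsmall W hW
  have hn0' : n0 ≠ 0 := by
    rintro rfl
    apply hW1
    simpa using hn0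
  obtain ⟨n1, rfl⟩ := Nat.exists_eq_succ_of_ne_zero hn0'
  -- all powers lie in a bounded set
  let S : Set K := (fun i : ℕ => (x⁻¹) ^ i) '' (Set.Iio (n1 + 1))
  have hS : Bdd S := bdd_of_finite ((Set.finite_Iio _).image _)
  have hB : Bdd ((W ∪ {1}) * S) := (hWb.union (bdd_singleton 1)).mul hS
  have hall : ∀ m : ℕ, (x⁻¹) ^ m ∈ (W ∪ {1}) * S := by
    intro m
    have e : (x⁻¹) ^ m = ((x⁻¹) ^ (n1 + 1)) ^ (m / (n1 + 1)) * (x⁻¹) ^ (m % (n1 + 1)) := by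
      rw [← pow_mul, ← pow_add, Nat.div_add_mod]
    rw [e]
    refine Set.mul_mem_mul ?_ ⟨_, Nat.mod_lt _ (Nat.succ_pos _), rfl⟩
    rcases Nat.eq_zero_or_pos (m / (n1 + 1)) with h0 | h0
    · right; rw [h0, pow_zero]; rfl
    · left
      obtain ⟨j, hj⟩ := Nat.exists_eq_succ_of_ne_zero h0.ne'
      rw [hj]
      exact pow_mem_of_mul_closed hWm hn0 j
  rw [TNil, tendsto_def]
  intro V hV'
  obtain ⟨V', hV'', h1⟩ := hB V hV'
  obtain ⟨n', hn'⟩ := hsmall V' hV''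
  rw [mem_atTop_sets]
  refine ⟨n', fun m hm => ?_⟩
  have := h1 _ (hall (m - n')) _ hn'
  rw [← pow_add, Nat.sub_add_cancel hm] at this
  exact this

end HypQ.VTop
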