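import Pool.Agent.Lib.MP_9f0b3e_al.VTopVal

/-!
# V-topologies with unbounded integers: characters with open kernel are signs
-/

set_option autoImplicit false
set_option linter.unusedSectionVars false

namespace HypQ.VTop

open Filter Topology Pointwise

variable {K : Type*} [Field K] [TopologicalSpace K] [IsTopologicalRing K] [T2Space K]

/-- `1 / M` is small for suitable `M`. -/
theorem exists_inv_nat (hV : VProp K) (hZ : ¬ Bdd (Set.range (Int.cast : ℤ → K))) {W : Set K}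
    (hW : W ∈ 𝓝 (0 : K)) : ∃ M : ℕ, 2 ≤ M ∧ (M : K) ≠ 0 ∧ (M : K)⁻¹ ∈ W := by
  by_contra hcon
  push Not at hcon
  apply hZ
  have hC := bdd_inv_compl hV hW
  refine ((hC.union hC.neg).union (bdd_of_finite (Set.toFinite {(0 : K), 1, -1}))).mono ?_
  rintro _ ⟨n, rfl⟩
  by_cases h2 : 2 ≤ n.natAbs
  · by_cases h0 : ((n.natAbs : ℕ) : K) = 0
    · right; left
      rcases Int.natAbs_eq n with h | h
      · rw [h]; simpa using h0
      · rw [h]; simpa using h0
    · left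
      have h1 := hcon _ h2 h0
      rcases Int.natAbs_eq n with h | h
      · left
        rw [h]
        simpa using h1
      · right
        rw [h]
        simpa using h1
  · right
    have : n = 0 ∨ n = 1 ∨ n = -1 := by omega
    rcases this with rfl | rfl | rfl <;> simp

theorem charZero_of_unbdd (hZ : ¬ Bdd (Set.range (Int.cast : ℤ → K))) : CharZero K := by
  obtain ⟨p, hp⟩ := CharP.exists K
  rcases Nat.eq_zero_or_pos p with h | h
  · subst h; exact CharP.charP_to_charZero K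
  · exfalso
    apply hZ
    refine (bdd_of_finite (((Set.finite_Iio p).image (fun i : ℕ => (i : K))))).mono ?_
    rintro _ ⟨n, rfl⟩
    refine ⟨(n % (p : ℤ)).toNat, ?_, ?_⟩
    · have h1 := Int.emod_nonneg n (by omega : (p : ℤ) ≠ 0)
      have h2 := Int.emod_lt_of_pos n (by omega : (0 : ℤ) < p)
      simp only [Set.mem_Iio]
      omega
    · have h1 := Int.emod_nonneg n (by omega : (p : ℤ) ≠ 0)
      have h3 : (((n % (p : ℤ)).toNat : ℕ) : K) = ((n % (p : ℤ) : ℤ) : K) := by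
        conv_rhs => rw [← Int.toNat_of_nonneg h1]
        push_cast; rfl
      change (((n % (p : ℤ)).toNat : ℕ) : K) = (n : K)
      rw [h3]
      conv_rhs => rw [← Int.mul_ediv_add_emod n p]
      push_cast
      rw [CharP.cast_eq_zero K p, zero_mul, zero_add]

/-- `{(1 - w)⁻¹ : w ∈ W}` is bounded for small `W`. -/
theorem exists_bdd_inv_one_sub (hV : VProp K) : ∃ W ∈ 𝓝 (0 : K),
    Bdd {z : K | ∃ w ∈ W, z = (1 - w)⁻¹} := by
  obtain ⟨W, hW, h1⟩ := exists_add_sub (compl_one_mem (K := K))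
  refine ⟨W, hW, (bdd_inv_compl hV hW).mono ?_⟩
  rintro _ ⟨w, hw, rfl⟩
  intro h
  rw [inv_inv] at h
  have := h1 w hw _ h
  apply this
  rw [Set.mem_singleton_iff]; ring

section
variable [CharZero K]

/-- the rational points of `[0,1]` form a bounded set -/
theorem bdd_unit (hV : VProp K) (hd : (𝓝[≠] (0 : K)).NeBot)
    (hZ : ¬ Bdd (Set.range (Int.cast : ℤ → K))) :
    Bdd {x : K | ∃ q : ℚ, 0 ≤ q ∧ q ≤ 1 ∧ x = (q : K)} := by
  obtain ⟨U0, hU0, hU0b⟩ := exists_bdd_nhds hV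
  obtain ⟨W1, hW1, hW1b⟩ := exists_bdd_inv_one_sub hV
  obtain ⟨W0, hW0, hW0b, hW01, hW0one, hW0m⟩ := exists_mul_closed hV hd hW1
  obtain ⟨M1, hM1, h1⟩ := (hU0b.add hU0b) U0 hU0
  obtain ⟨M, hM2, hM0, hM⟩ := exists_inv_nat hV hZ (inter_mem hM1 hW0)
  have hadd : ∀ x ∈ U0, ∀ y ∈ U0, (M : K)⁻¹ * (x + y) ∈ U0 := fun x hx y hy => by
    rw [mul_comm]; exact h1 _ (Set.add_mem_add hx hy) _ hM.1
  -- scale the digits
  obtain ⟨c, hc0, hc⟩ := (bdd_of_finite ((Set.finite_Iio M).image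
    (fun i : ℕ => (i : K)))).exists_scale hd hU0
  have hdig : ∀ d : ℕ, d < M → c * (d : K) ∈ U0 := fun d hd' => hc _ ⟨d, hd', rfl⟩
  have hfrac : ∀ J a : ℕ, a < M ^ J → c * ((a : K) / (M : K) ^ J) ∈ U0 := by
    intro J
    induction J with
    | zero =>
      intro a ha
      have : a = 0 := by simpa using ha
      subst this
      simpa using mem_of_mem_nhds hU0
    | succ J ih =>
      intro a ha
      have hMJ : 0 < M ^ J := pow_pos (by omega) _
      have h2 := ih (a % M ^ J) (Nat.mod_lt _ hMJ)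
      have h3 : a / M ^ J < M := by
        rw [Nat.div_lt_iff_lt_mul hMJ, mul_comm, ← pow_succ]; exact ha
      have h4 := hadd _ (hdig _ h3) _ h2
      have e : (a : K) = (M : K) ^ J * ((a / M ^ J : ℕ) : K) + ((a % M ^ J : ℕ) : K) := by
        conv_lhs => rw [← Nat.div_add_mod a (M ^ J)]
        push_cast; ring
      have e2 : c * ((a : K) / (M : K) ^ (J + 1)) = (M : K)⁻¹ * (c * ((a / M ^ J : ℕ) : K)
          + c * (((a % M ^ J : ℕ) : K) / (M : K) ^ J)) := by
        conv_lhs => rw [e]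
        have hMJ0 : (M : K) ^ J ≠ 0 := pow_ne_zero _ hM0
        field_simp
        ring
      rw [e2]; exact h4
  set U : Set K := {x | c * x ∈ U0} with hU
  have hUb : Bdd U := by
    refine (hU0b.smul c⁻¹).mono ?_
    intro x hx
    exact ⟨_, hx, by rw [inv_mul_cancel_left₀ hc0]⟩
  set V1 : Set K := {z : K | ∃ w ∈ W1, z = (1 - w)⁻¹} with hV1
  have hBb : Bdd ((U + (W0 ∪ {1}) * (U * V1)) ∪ {1}) :=
    ((hUb.add ((hW0b.union (bdd_singleton 1)).mul (hUb.mul hW1b))).union (bdd_singleton 1))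
  refine hBb.mono ?_
  rintro _ ⟨q, hq0, hq1, rfl⟩
  rcases eq_or_lt_of_le hq1 with h | hq1'
  · right; rw [h]; simp
  left
  -- write `q = x / y`
  obtain ⟨x, hx⟩ : ∃ x : ℕ, (x : ℤ) = q.num := ⟨q.num.toNat, Int.toNat_of_nonneg
    (Rat.num_nonneg.mpr hq0)⟩
  set y := q.den with hy
  have hypos : 0 < y := q.den_pos
  have hy0 : (y : K) ≠ 0 := by exact_mod_cast hypos.ne'
  have hxy : x < y := by
    have h2 : q * y = x := by
      rw [hy, Rat.mul_den_eq_num, ← hx]; simp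
    have h3 : (x : ℚ) < y := by
      rw [← h2]
      have : (0 : ℚ) < y := by exact_mod_cast hypos
      nlinarith
    exact_mod_cast h3
  have hq : (q : K) = (x : K) / (y : K) := by
    rw [Rat.cast_def, ← hx]; simp [hy]
  rw [hq]
  -- pigeonhole
  obtain ⟨J, J', hJJ, hr⟩ : ∃ J J' : ℕ, J < J' ∧ (x * M ^ J) % y = (x * M ^ J') % y := by
    have hinf := Finite.exists_ne_map_eq_of_infinite
      (fun J : ℕ => (⟨(x * M ^ J) % y, Nat.mod_lt _ hypos⟩ : Fin y))
    obtain ⟨J, J', hne, h2⟩ := hinf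
    have h3 : (x * M ^ J) % y = (x * M ^ J') % y := by simpa using h2
    rcases lt_or_gt_of_ne hne with h | h
    · exact ⟨J, J', h, h3⟩
    · exact ⟨J', J, h, h3.symm⟩
  set r := (x * M ^ J) % y with hrdef
  set m := J' - J with hm
  have hm1 : m ≠ 0 := by omega
  have hMpos : ∀ i : ℕ, 0 < M ^ i := fun i => pow_pos (by omega) _
  have hMK : ∀ i : ℕ, (M : K) ^ i ≠ 0 := fun i => pow_ne_zero _ hM0
  have hry : r < y := Nat.mod_lt _ hypos
  have h5 : (r * M ^ m) % y = r := by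
    rw [hrdef]
    have : (x * M ^ J') % y = ((x * M ^ J) % y * M ^ m) % y := by
      rw [Nat.mod_mul_mod]
      congr 1
      rw [mul_assoc, ← pow_add]
      congr 2
      omega
    rw [← this]; exact hr.symm
  -- `s`
  set s : K := (r : K) / (y : K) with hs
  set a := (r * M ^ m) / y with ha
  have ham : a < M ^ m := by
    rw [ha, Nat.div_lt_iff_lt_mul hypos, mul_comm]
    exact Nat.mul_lt_mul_of_pos_left hry (hMpos m)
  have h6 : (r : K) * (M : K) ^ m = (y : K) * (a : K) + (r : K) := by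
    have h7 := Nat.div_add_mod (r * M ^ m) y
    rw [h5] at h7
    have := congrArg (Nat.cast : ℕ → K) h7
    push_cast at this
    rw [← this]
  have h8 : ((M : K)⁻¹) ^ m ∈ W0 := by
    obtain ⟨i, hi⟩ := Nat.exists_eq_succ_of_ne_zero hm1
    rw [hi]; exact pow_mem_of_mul_closed hW0m hM.2 i
  have h9 : 1 - ((M : K)⁻¹) ^ m ≠ 0 := by
    intro h
    rw [sub_eq_zero] at h
    rw [← h] at h8
    exact hW0one h8
  have hs2 : s = (a : K) / (M : K) ^ m * (1 - ((M : K)⁻¹) ^ m)⁻¹ := by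
    rw [eq_mul_inv_iff_mul_eq₀ h9, hs]
    have h10 : (r : K) * (M : K) ^ m - (r : K) = (y : K) * (a : K) := by rw [h6]; ring
    have hMm := hMK m
    rw [inv_pow]
    field_simp
    linear_combination h10
  have hsmem : s ∈ U * V1 := by
    rw [hs2]
    exact Set.mul_mem_mul (hfrac m a ham) ⟨_, hW01 h8, rfl⟩
  have h11 : (x : K) * (M : K) ^ J = (y : K) * ((x * M ^ J / y : ℕ) : K) + (r : K) := by
    have h7 := Nat.div_add_mod (x * M ^ J) y
    have := congrArg (Nat.cast : ℕ → K) h7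
    push_cast at this
    rw [← this]
  have h12 : (x : K) / (y : K)
      = ((x * M ^ J / y : ℕ) : K) / (M : K) ^ J + ((M : K)⁻¹) ^ J * s := by
    rw [hs, inv_pow]
    have hMJ := hMK J
    field_simp
    linear_combination h11
  rw [h12]
  refine Set.add_mem_add (hfrac J _ ?_) (Set.mul_mem_mul ?_ hsmem)
  · rw [Nat.div_lt_iff_lt_mul hypos, mul_comm]
    exact Nat.mul_lt_mul_of_pos_left hxy (hMpos J)
  · rcases Nat.eq_zero_or_pos J with h0 | h0
    · right; simp [h0]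
    · left
      obtain ⟨i, hi⟩ := Nat.exists_eq_succ_of_ne_zero h0.ne'
      rw [hi]; exact pow_mem_of_mul_closed hW0m hM.2 i

/-- One of the two segments from `1` to `a`, `-a` avoids a neighbourhood of zero. -/
theorem avoid (hV : VProp K) (hd : (𝓝[≠] (0 : K)).NeBot)
    (hZ : ¬ Bdd (Set.range (Int.cast : ℤ → K))) {a : K} (ha : a ≠ 0) :
    ∃ W ∈ 𝓝 (0 : K), (∀ t : ℚ, 0 ≤ t → t ≤ 1 → 1 - (t : K) + t * a ∉ W) ∨
      (∀ t : ℚ, 0 ≤ t → t ≤ 1 → 1 - (t : K) + t * (-a) ∉ W) := by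
  set I : Set K := {x : K | ∃ q : ℚ, 0 ≤ q ∧ q ≤ 1 ∧ x = (q : K)} with hI
  have hIb : Bdd I := bdd_unit hV hd hZ
  have hIn : Bdd {x : K | -x ∈ I} := hIb.neg
  -- the bounded set
  have hB1 : Bdd ({1} + {1 - a} * ((({1} + {x : K | -x ∈ I}) * I)
      + {a⁻¹} * (I + {x : K | -x ∈ I * I}))) :=
    (bdd_singleton _).add ((bdd_singleton _).mul ((((bdd_singleton _).add hIn).mul hIb).add
      ((bdd_singleton _).mul (hIb.add (hIb.mul hIb).neg))))
  have hB2 : Bdd ({1 - a} * ((({1} + {x : K | -x ∈ I}) * I)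
      + {x : K | -x ∈ ({a⁻¹} : Set K) * (I * I)})) :=
    ((bdd_singleton _).mul ((((bdd_singleton _).add hIn).mul hIb).add
      ((bdd_singleton _).mul (hIb.mul hIb)).neg))
  obtain ⟨N1, hN1, hN1a⟩ := exists_add_sub (compl_one_mem (K := K))
  obtain ⟨W, hW, hW1⟩ := (hB1.union hB2) N1 hN1
  refine ⟨W, hW, ?_⟩
  by_contra hcon
  push Not at hcon
  obtain ⟨⟨t, ht0, ht1, hw⟩, s, hs0, hs1, hw'⟩ := hcon
  set w := 1 - (t : K) + t * a with hwdef
  set w' := 1 - (s : K) + s * (-a) with hw'def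
  -- the ratio
  set σ : ℚ := s * (1 - t) + t * (1 - s) with hσ
  set ρ : ℚ := s * (1 - t) / σ with hρ
  have hp1 : 0 ≤ s * (1 - t) := mul_nonneg hs0 (by linarith)
  have hp2 : 0 ≤ t * (1 - s) := mul_nonneg ht0 (by linarith)
  have hρσ : s * (1 - t) = ρ * σ := by
    by_cases h0 : σ = 0
    · rw [h0, mul_zero]; linarith
    · rw [hρ, div_mul_cancel₀ _ h0]
  have hρ0 : 0 ≤ ρ := div_nonneg hp1 (by linarith)
  have hρ1 : ρ ≤ 1 := by
    rcases eq_or_lt_of_le (show 0 ≤ σ by linarith) with h0 | h0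
    · rw [hρ, ← h0, div_zero]; exact zero_le_one
    · rw [hρ, div_le_one h0]; linarith
  have hρσK : (s : K) * (1 - t) = ρ * (s * (1 - t) + t * (1 - s)) := by
    have := congrArg (Rat.cast : ℚ → K) hρσ
    rw [hσ] at this
    push_cast at this
    exact this
  have hz : (s : K) * (1 - t) + t * (1 - s) = s * w + t * w' := by
    rw [hwdef, hw'def]; ring
  have hst : (s : K) * t = a⁻¹ * (s * w - ρ * (s * w + t * w')) := by
    rw [← hz, ← hρσK, hwdef]
    field_simp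
    ring
  have ht : (t : K) = (1 - ρ) * (s * w + t * w') + a⁻¹ * (s * w - ρ * (s * w + t * w')) := by
    rw [← hst, ← hz]
    linear_combination (-1 : K) * hρσK
  have key : (1 : K) = (1 + (1 - a) * ((1 + -(ρ : K)) * s + a⁻¹ * (s + -(ρ * s)))) * w
      + ((1 - a) * ((1 + -(ρ : K)) * t + -(a⁻¹ * (ρ * t)))) * w' := by
    have h1 : (1 : K) = w + (1 - a) * t := by rw [hwdef]; ring
    have h2 : (1 - a) * t = (1 - a) * ((1 - ρ) * (s * w + t * w')
        + a⁻¹ * (s * w - ρ * (s * w + t * w'))) := by rw [← ht]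
    calc (1 : K) = w + (1 - a) * t := h1
      _ = w + (1 - a) * ((1 - ρ) * (s * w + t * w')
        + a⁻¹ * (s * w - ρ * (s * w + t * w'))) := by rw [h2]
      _ = _ := by ring
  have hsI : (s : K) ∈ I := ⟨s, hs0, hs1, rfl⟩
  have htI : (t : K) ∈ I := ⟨t, ht0, ht1, rfl⟩
  have hρI : (ρ : K) ∈ I := ⟨ρ, hρ0, hρ1, rfl⟩
  have h3 := hW1 _ (Or.inl (show 1 + (1 - a) * ((1 + -(ρ : K)) * s + a⁻¹ * (s + -(ρ * s))) ∈ _ from
    Set.add_mem_add rfl (Set.mul_mem_mul rfl (Set.add_mem_add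
      (Set.mul_mem_mul (Set.add_mem_add rfl (by simpa using hρI)) hsI)
      (Set.mul_mem_mul rfl (Set.add_mem_add hsI
        (by
          have : (ρ : K) * s ∈ I * I := Set.mul_mem_mul hρI hsI
          simpa using this))))))) w hw
  have h4 := hW1 _ (Or.inr (show (1 - a) * ((1 + -(ρ : K)) * t + -(a⁻¹ * (ρ * t))) ∈ _ from
    Set.mul_mem_mul rfl (Set.add_mem_add
      (Set.mul_mem_mul (Set.add_mem_add rfl (by simpa using hρI)) htI)
      (by
        have : a⁻¹ * ((ρ : K) * t) ∈ ({a⁻¹} : Set K) * (I * I) :=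
          Set.mul_mem_mul rfl (Set.mul_mem_mul hρI htI)
        simpa using this)))) w' hw'
  have h5 := hN1a _ h3 _ h4
  rw [← key] at h5
  exact h5 rfl

variable {Γ : Type*} [CommGroupWithZero Γ] {X : K →*₀ Γ}

theorem path (hV : VProp K) (hZ : ¬ Bdd (Set.range (Int.cast : ℤ → K))) {N : Set K}
    (hN : N ∈ 𝓝 (0 : K)) (hX : ∀ u ∈ N, X (1 + u) = 1) {a : K} {W : Set K}
    (hW : W ∈ 𝓝 (0 : K)) (h : ∀ t : ℚ, 0 ≤ t → t ≤ 1 → 1 - (t : K) + t * a ∉ W) : X a = 1 := by
  obtain ⟨M, hM, h1⟩ := ((bdd_inv_compl hV hW).mul (bdd_singleton (a - 1))) N hN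
  obtain ⟨n, hn2, hn0, hn⟩ := exists_inv_nat hV hZ hM
  have hnq : (n : ℚ) ≠ 0 := by
    have : n ≠ 0 := by omega
    exact_mod_cast this
  let f : ℕ → K := fun i => 1 - (((i : ℚ) / n : ℚ) : K) + (((i : ℚ) / n : ℚ) : K) * a
  have hfW : ∀ i : ℕ, i ≤ n → f i ∉ W := by
    intro i hi
    apply h
    · positivity
    · rw [div_le_one (by positivity)]; exact_mod_cast hi
  have hf0 : ∀ i : ℕ, i ≤ n → f i ≠ 0 := by
    intro i hi h0
    apply hfW i hi
    rw [h0]; exact mem_of_mem_nhds hW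
  have hstep : ∀ i : ℕ, i < n → X (f (i + 1)) = X (f i) := by
    intro i hi
    have h2 : f (i + 1) = f i * (1 + (f i)⁻¹ * (a - 1) * (n : K)⁻¹) := by
      have h3 : f (i + 1) = f i + (a - 1) * (n : K)⁻¹ := by
        simp only [f]; push_cast; field_simp; ring
      rw [h3]
      have := hf0 i hi.le
      field_simp
    rw [h2, map_mul, hX, mul_one]
    apply h1
    · refine Set.mul_mem_mul ?_ rfl
      change (f i)⁻¹⁻¹ ∉ W
      rw [inv_inv]; exact hfW i hi.le
    · exact hn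
  have hall : ∀ i : ℕ, i ≤ n → X (f i) = 1 := by
    intro i
    induction i with
    | zero => intro _; simp [f]
    | succ i ih => intro hi; rw [hstep i hi]; exact ih (by omega)
  have h4 := hall n le_rfl
  have h5 : f n = a := by simp only [f]; rw [div_self hnq]; simp
  rwa [h5] at h4

theorem sign_or (hV : VProp K) (hd : (𝓝[≠] (0 : K)).NeBot)
    (hZ : ¬ Bdd (Set.range (Int.cast : ℤ → K))) {N : Set K}
    (hN : N ∈ 𝓝 (0 : K)) (hX : ∀ u ∈ N, X (1 + u) = 1) {a : K} (ha : a ≠ 0) :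
    X a = 1 ∨ X (-a) = 1 := by
  obtain ⟨W, hW, h | h⟩ := avoid hV hd hZ ha
  · left; exact path hV hZ hN hX hW h
  · right; exact path hV hZ hN hX hW h

theorem sign_two (hV : VProp K) (hd : (𝓝[≠] (0 : K)).NeBot)
    (hZ : ¬ Bdd (Set.range (Int.cast : ℤ → K))) {N : Set K}
    (hN : N ∈ 𝓝 (0 : K)) (hX : ∀ u ∈ N, X (1 + u) = 1) : X 2 = 1 := by
  obtain ⟨W, hW, hW1⟩ := bdd_unit hV hd hZ _ (compl_one_mem (K := K))
  refine path hV hZ hN hX hW (fun t ht0 ht1 hmem => ?_)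
  have h1 : (0 : ℚ) < 1 + t := by linarith
  have h2 := hW1 (((1 + t)⁻¹ : ℚ) : K) ⟨(1 + t)⁻¹, by positivity, inv_le_one_of_one_le₀ (by linarith),
    rfl⟩ _ hmem
  apply h2
  have h3 : (1 : K) + t ≠ 0 := by
    have : ((1 + t : ℚ) : K) ≠ 0 := by exact_mod_cast h1.ne'
    simpa using this
  rw [Set.mem_singleton_iff]
  push_cast
  field_simp
  ring

theorem sign_add (hV : VProp K) (hd : (𝓝[≠] (0 : K)).NeBot)
    (hZ : ¬ Bdd (Set.range (Int.cast : ℤ → K))) {N : Set K}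
    (hN : N ∈ 𝓝 (0 : K)) (hX : ∀ u ∈ N, X (1 + u) = 1) (hneg : X (-1) ≠ 1) {x y : K}
    (hx : x ≠ 0) (hxy : X x = X y) : x + y ≠ 0 ∧ X (x + y) = X x := by
  have hX0 : X x ≠ 0 := (map_ne_zero X).mpr hx
  have hy : y ≠ 0 := by rw [← map_ne_zero X, ← hxy]; exact hX0
  set b := y / x with hb
  have hb0 : b ≠ 0 := div_ne_zero hy hx
  have hXb : X b = 1 := by rw [hb, map_div₀, ← hxy, div_self hX0]
  have key : X (1 + b) = 1 := by
    obtain ⟨W, hW, h | h⟩ := avoid hV hd hZ hb0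
    · have h1 : X ((1 + b) / 2) = 1 := by
        refine path hV hZ hN hX hW (fun t ht0 ht1 => ?_)
        have := h (t / 2) (by linarith) (by linarith)
        convert this using 2
        push_cast
        ring
      rw [map_div₀, sign_two hV hd hZ hN hX, div_one] at h1
      exact h1
    · exfalso
      apply hneg
      have h1 := path hV hZ hN hX hW h
      rw [← neg_one_mul, map_mul, hXb, mul_one] at h1
      exact h1
  have e : x + y = x * (1 + b) := by rw [hb]; field_simp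
  have h1b : 1 + b ≠ 0 := by
    rw [← map_ne_zero X, key]; exact one_ne_zero
  refine ⟨by rw [e]; exact mul_ne_zero hx h1b, ?_⟩
  rw [e, map_mul, key, mul_one]

end

/-- **Trichotomy for characters with open kernel in a V-topology.** -/
theorem trichotomy (hV : VProp K) (hd : (𝓝[≠] (0 : K)).NeBot) {Γ : Type*} [CommGroupWithZero Γ]
    (X : K →*₀ Γ) {N : Set K} (hN : N ∈ 𝓝 (0 : K)) (hX : ∀ u ∈ N, X (1 + u) = 1) :
    (CharZero K ∧ (∀ a : K, a ≠ 0 → X a = 1 ∨ X (-a) = 1) ∧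
      (X (-1) ≠ 1 → ∀ x y : K, x ≠ 0 → X x = X y → x + y ≠ 0 ∧ X (x + y) = X x)) ∨
    (∃ O : ValuationSubring K, O ≠ ⊤ ∧ ∀ x : K, O.valuation x < 1 → X (1 + x) = 1) ∨
    (∃ O : ValuationSubring K, O ≠ ⊤ ∧
      (∀ x b : K, b ≠ 0 → O.valuation x < 1 → ∃ n : ℕ, O.valuation (x ^ n) < O.valuation b) ∧
      ∃ c : K, c ≠ 0 ∧ ∀ x ∈ O, X (1 + c * x) = 1) := by
  by_cases hno : ∀ x : K, x ≠ 0 → ¬ TNil x
  · right; left
    obtain ⟨O, hO, h⟩ := tame_case hV hd hno hN
    exact ⟨O, hO, fun x hx => hX _ (h x hx)⟩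
  · push Not at hno
    obtain ⟨x0, hx0, hx⟩ := hno
    by_cases hZ : Bdd (Set.range (Int.cast : ℤ → K))
    · right; right
      obtain ⟨O, hO, h1, c, hc0, hc⟩ := rank_one_case hV hd hx0 hx hZ hN
      exact ⟨O, hO, h1, c, hc0, fun x hx => hX _ (hc x hx)⟩
    · left
      have := charZero_of_unbdd hZ
      exact ⟨this, fun a ha => sign_or hV hd hZ hN hX ha,
        fun hneg x y hx hxy => sign_add hV hd hZ hN hX hneg hx hxy⟩

end HypQ.VTop
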