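import Pool.Agent.Lib.MP_9f0b3e_al.VTopBasic

/-!
# V-topologies with bounded integers come from valuation rings
-/

set_option autoImplicit false
set_option linter.unusedSectionVars false

namespace HypQ.VTop

open Filter Topology Pointwise

variable {K : Type*} [Field K] [TopologicalSpace K] [IsTopologicalRing K] [T2Space K]

/-- If no nonzero element is topologically nilpotent then there is a bounded open valuation
ring. -/
theorem exists_bdd_valuationSubring (hV : VProp K) (hd : (𝓝[≠] (0 : K)).NeBot)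
    (hno : ∀ x : K, x ≠ 0 → ¬ TNil x) :
    ∃ O : ValuationSubring K, Bdd (O : Set K) ∧ (O : Set K) ∈ 𝓝 (0 : K) := by
  obtain ⟨U, hU, hUb⟩ := exists_bdd_nhds hV
  have hB : Bdd ((U + U) ∪ (U * U) ∪ U ∪ {x | -x ∈ U} ∪ {1} ∪ {x : K | x⁻¹ ∉ U}) :=
    (((((hUb.add hUb).union (hUb.mul hUb)).union hUb).union hUb.neg).union
      (bdd_singleton 1)).union (bdd_inv_compl hV hU)
  obtain ⟨k, hk0, hk⟩ := hB.exists_scale hd hU
  have hadd : ∀ x ∈ U, ∀ y ∈ U, k * (x + y) ∈ U := fun x hx y hy =>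
    hk _ (by left; left; left; left; left; exact Set.add_mem_add hx hy)
  have hmul : ∀ x ∈ U, ∀ y ∈ U, k * (x * y) ∈ U := fun x hx y hy =>
    hk _ (by left; left; left; left; right; exact Set.mul_mem_mul hx hy)
  have hself : ∀ x ∈ U, k * x ∈ U := fun x hx => hk _ (by left; left; left; right; exact hx)
  have hneg : ∀ x ∈ U, k * (-x) ∈ U := fun x hx =>
    hk _ (by left; left; right; simpa using hx)
  have hone : k * 1 ∈ U := hk _ (by left; right; rfl)
  have hinv : ∀ x, x⁻¹ ∉ U → k * x ∈ U := fun x hx => hk _ (by right; exact hx)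
  have hmono : ∀ (x : K) (n m : ℕ), n ≤ m → k ^ n * x ∈ U → k ^ m * x ∈ U := by
    intro x n m hnm h
    induction m, hnm using Nat.le_induction with
    | base => exact h
    | succ m _ ih => rw [pow_succ', mul_assoc]; exact hself _ ih
  let O : ValuationSubring K :=
    { carrier := {x | ∃ n : ℕ, k ^ n * x ∈ U}
      mul_mem' := by
        rintro x y ⟨n, hn⟩ ⟨m, hm⟩
        refine ⟨n + m + 1, ?_⟩
        have := hmul _ hn _ hm
        have e : k ^ (n + m + 1) * (x * y) = k * (k ^ n * x * (k ^ m * y)) := by ring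
        rw [e]; exact this
      one_mem' := ⟨1, by simpa using hone⟩
      add_mem' := by
        rintro x y ⟨n, hn⟩ ⟨m, hm⟩
        refine ⟨max n m + 1, ?_⟩
        have := hadd _ (hmono x n (max n m) (le_max_left _ _) hn) _
          (hmono y m (max n m) (le_max_right _ _) hm)
        have e : k ^ (max n m + 1) * (x + y)
            = k * (k ^ (max n m) * x + k ^ (max n m) * y) := by ring
        rw [e]; exact this
      zero_mem' := ⟨0, by simpa using mem_of_mem_nhds hU⟩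
      neg_mem' := by
        rintro x ⟨n, hn⟩
        refine ⟨n + 1, ?_⟩
        have := hneg _ hn
        have e : k ^ (n + 1) * (-x) = k * -(k ^ n * x) := by ring
        rw [e]; exact this
      mem_or_inv_mem' := by
        intro x
        by_cases h : x ∈ U
        · left; exact ⟨0, by simpa using h⟩
        · right; refine ⟨1, ?_⟩
          rw [pow_one]
          exact hinv _ (by simpa using h) }
  have hO : ∀ x, x ∈ O ↔ ∃ n : ℕ, k ^ n * x ∈ U := fun x => Iff.rfl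
  refine ⟨O, ?_, ?_⟩
  · have hkb : PBdd k⁻¹ := by
      by_contra h
      have := tnil_inv_of_not_pbdd hV hd h
      rw [inv_inv] at this
      exact hno k hk0 this
    refine (hkb.mul hUb).mono ?_
    rintro x ⟨n, hn⟩
    refine Set.mem_mul.mpr ⟨(k⁻¹) ^ n, ⟨n, rfl⟩, _, hn, ?_⟩
    rw [← mul_assoc, ← mul_pow, inv_mul_cancel₀ hk0, one_pow, one_mul]
  · refine mem_of_superset hU ?_
    intro x hx
    exact ⟨0, by simpa using hx⟩

theorem val_lt_one_iff' {O : ValuationSubring K} {x : K} (hx0 : x ≠ 0) :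
    O.valuation x < 1 ↔ x⁻¹ ∉ O := by
  rw [← O.valuation_le_one_iff, not_le, map_inv₀,
    one_lt_inv₀ (by rw [zero_lt_iff, Valuation.ne_zero_iff]; exact hx0)]

/-- **Tame case.** -/
theorem tame_case (hV : VProp K) (hd : (𝓝[≠] (0 : K)).NeBot)
    (hno : ∀ x : K, x ≠ 0 → ¬ TNil x) {N : Set K} (hN : N ∈ 𝓝 (0 : K)) :
    ∃ O : ValuationSubring K, O ≠ ⊤ ∧ ∀ x : K, O.valuation x < 1 → x ∈ N := by
  obtain ⟨O, hOb, hO⟩ := exists_bdd_valuationSubring hV hd hno
  obtain ⟨M, hM, h1⟩ := hOb N hN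
  obtain ⟨c, ⟨hcM, hcO⟩, hc0⟩ := exists_ne_zero_mem hd (inter_mem hM hO)
  have hcO' : c ∈ O := hcO
  have hmono : ∀ (x : K) (n m : ℕ), n ≤ m → c ^ n * x ∈ O → c ^ m * x ∈ O := by
    intro x n m hnm h
    induction m, hnm using Nat.le_induction with
    | base => exact h
    | succ m _ ih => rw [pow_succ', mul_assoc]; exact O.mul_mem _ _ hcO' ih
  let O' : ValuationSubring K :=
    { carrier := {x | ∃ n : ℕ, c ^ n * x ∈ O}
      mul_mem' := by
        rintro x y ⟨n, hn⟩ ⟨m, hm⟩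
        refine ⟨n + m, ?_⟩
        have := O.mul_mem _ _ hn hm
        have e : c ^ (n + m) * (x * y) = (c ^ n * x) * (c ^ m * y) := by ring
        rw [e]; exact this
      one_mem' := ⟨0, by simp⟩
      add_mem' := by
        rintro x y ⟨n, hn⟩ ⟨m, hm⟩
        refine ⟨max n m, ?_⟩
        have := O.add_mem _ _ (hmono x n (max n m) (le_max_left _ _) hn)
          (hmono y m (max n m) (le_max_right _ _) hm)
        rw [mul_add]; exact this
      zero_mem' := ⟨0, by simp⟩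
      neg_mem' := by
        rintro x ⟨n, hn⟩
        refine ⟨n, ?_⟩
        have := O.neg_mem _ hn
        rw [mul_neg]; exact this
      mem_or_inv_mem' := by
        intro x
        rcases O.mem_or_inv_mem x with h | h
        · left; exact ⟨0, by simpa using h⟩
        · right; exact ⟨0, by simpa using h⟩ }
  have hO' : ∀ x, x ∈ O' ↔ ∃ n : ℕ, c ^ n * x ∈ O := fun x => Iff.rfl
  refine ⟨O', ?_, ?_⟩
  · intro htop
    apply not_bdd_univ (K := K) hd
    have hcb : PBdd c⁻¹ := by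
      by_contra h
      have := tnil_inv_of_not_pbdd hV hd h
      rw [inv_inv] at this
      exact hno c hc0 this
    refine (hcb.mul hOb).mono ?_
    intro x _
    have hx : x ∈ O' := by rw [htop]; exact ValuationSubring.mem_top x
    obtain ⟨n, hn⟩ := (hO' x).mp hx
    refine Set.mem_mul.mpr ⟨(c⁻¹) ^ n, ⟨n, rfl⟩, _, hn, ?_⟩
    rw [← mul_assoc, ← mul_pow, inv_mul_cancel₀ hc0, one_pow, one_mul]
  · intro x hx
    by_cases hx0 : x = 0
    · rw [hx0]; exact mem_of_mem_nhds hN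
    rw [val_lt_one_iff' hx0] at hx
    have h2 : c⁻¹ * x ∈ O := by
      rcases O.mem_or_inv_mem (c⁻¹ * x) with h | h
      · exact h
      · exfalso
        apply hx
        rw [hO']
        refine ⟨1, ?_⟩
        rw [mul_inv, inv_inv] at h
        rwa [pow_one]
    have := h1 _ h2 c hcM
    rwa [mul_comm, mul_inv_cancel_left₀ hc0] at this

theorem TNil.pow {x : K} (h : TNil x) {j : ℕ} (hj : j ≠ 0) : TNil (x ^ j) := by
  unfold TNil at *
  have h1 : Tendsto (fun n : ℕ => j * n) atTop atTop :=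
    tendsto_id.const_mul_atTop' (Nat.pos_of_ne_zero hj)
  have := h.comp h1
  refine this.congr (fun n => ?_)
  simp [pow_mul]

theorem TNil.pbdd (hV : VProp K) {x : K} (h : TNil x) : PBdd x := by
  obtain ⟨U, hU, hUb⟩ := exists_bdd_nhds hV
  obtain ⟨m, hm⟩ := eventually_atTop.mp (h hU)
  have hS : Bdd ((fun i : ℕ => x ^ i) '' (Set.Iio m)) :=
    bdd_of_finite ((Set.finite_Iio _).image _)
  refine (hUb.union hS).mono ?_
  rintro _ ⟨n, rfl⟩
  rcases lt_or_ge n m with h' | h'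
  · right; exact ⟨n, h', rfl⟩
  · left; exact hm n h'

theorem exists_tnil_mem {x0 : K} (h0 : x0 ≠ 0) (h : TNil x0) {N : Set K}
    (hN : N ∈ 𝓝 (0 : K)) : ∃ k : K, k ≠ 0 ∧ TNil k ∧ k ∈ N := by
  obtain ⟨m, hm⟩ := eventually_atTop.mp (h hN)
  exact ⟨x0 ^ (m + 1), pow_ne_zero _ h0, h.pow (Nat.succ_ne_zero _), hm _ (Nat.le_succ _)⟩

theorem growth (N1 m0 : ℕ) : ∃ j : ℕ, N1 * (m0 + j) + 1 ≤ 2 ^ j := by
  set i := N1 + m0 + 4 with hi
  refine ⟨4 * i, ?_⟩
  have h1 : i + 1 ≤ 2 ^ i := Nat.lt_two_pow_self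
  have h2 : (i + 1) ^ 4 ≤ 2 ^ (4 * i) := by
    rw [mul_comm, pow_mul]; exact Nat.pow_le_pow_left h1 4
  have h3 : N1 * (m0 + 4 * i) ≤ i * (5 * i) := Nat.mul_le_mul (by omega) (by omega)
  have h4 : i * (5 * i) + 1 ≤ (i + 1) ^ 4 := by
    have : 4 ≤ i := by omega
    nlinarith [sq_nonneg i, this]
  omega

/-- sums of at most `2 ^ j` elements -/
theorem sum_mem {U B0 : Set K} {k : K} (h0 : (0 : K) ∈ U) (hB : B0 ⊆ U)
    (hadd : ∀ x ∈ U, ∀ y ∈ U, k * (x + y) ∈ U) (hself : ∀ x ∈ U, k * x ∈ U) :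
    ∀ (j n : ℕ) (b : ℕ → K), n ≤ 2 ^ j → (∀ i, b i ∈ B0) →
      k ^ j * ∑ i ∈ Finset.range n, b i ∈ U := by
  intro j
  induction j with
  | zero =>
    intro n b hn hb
    rw [pow_zero, one_mul]
    have : n = 0 ∨ n = 1 := by simp at hn; omega
    rcases this with rfl | rfl
    · simpa using h0
    · simpa using hB (hb 0)
  | succ j ih =>
    intro n b hn hb
    rcases le_or_gt n (2 ^ j) with h | h
    · rw [pow_succ', mul_assoc]; exact hself _ (ih n b h hb)
    · have e : n = 2 ^ j + (n - 2 ^ j) := by omega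
      rw [e, Finset.sum_range_add]
      have h1 := ih (2 ^ j) b le_rfl hb
      have h2 := ih (n - 2 ^ j) (fun i => b (2 ^ j + i)) (by rw [pow_succ] at hn; omega)
        (fun i => hb _)
      have h3 := hadd _ h1 _ h2
      rw [← mul_add, ← mul_assoc, ← pow_succ'] at h3
      exact h3

theorem pbdd_one_add (hV : VProp K) (hd : (𝓝[≠] (0 : K)).NeBot)
    {x0 : K} (hx0 : x0 ≠ 0) (hx : TNil x0) (hZ : Bdd (Set.range (Int.cast : ℤ → K)))
    {t : K} (ht : PBdd t) : PBdd (1 + t) := by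
  by_contra hcon
  have hs : TNil (1 + t)⁻¹ := tnil_inv_of_not_pbdd hV hd hcon
  have h1t : 1 + t ≠ 0 := by
    intro h
    apply hcon
    rw [h]
    refine (bdd_of_finite (Set.toFinite {(0 : K), 1})).mono ?_
    rintro _ ⟨n, rfl⟩
    rcases Nat.eq_zero_or_pos n with h0 | h0
    · subst h0; simp
    · left; simp [h0.ne']
  set s := (1 + t)⁻¹ with hsdef
  set B0 : Set K := Set.range (Int.cast : ℤ → K) * Set.range (fun n : ℕ => t ^ n) with hB0
  have hB0b : Bdd B0 := hZ.mul ht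
  obtain ⟨U0, hU0, hU0b⟩ := exists_bdd_nhds hV
  set U : Set K := U0 ∪ B0 with hUdef
  have hU : U ∈ 𝓝 (0 : K) := mem_of_superset hU0 Set.subset_union_left
  have hUb : Bdd U := hU0b.union hB0b
  obtain ⟨M, hM, hM1⟩ := ((hUb.add hUb).union hUb) U hU
  obtain ⟨k, hk0, hk, hkM⟩ := exists_tnil_mem hx0 hx hM
  have hadd : ∀ x ∈ U, ∀ y ∈ U, k * (x + y) ∈ U := fun x hx y hy => by
    rw [mul_comm]; exact hM1 _ (Or.inl (Set.add_mem_add hx hy)) _ hkM
  have hself : ∀ x ∈ U, k * x ∈ U := fun x hx => by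
    rw [mul_comm]; exact hM1 _ (Or.inr hx) _ hkM
  have hsum := sum_mem (mem_of_mem_nhds hU) (Set.subset_union_right : B0 ⊆ U) hadd hself
  have hpow : ∀ j : ℕ, k ^ j * (1 + t) ^ (2 ^ j - 1) ∈ U := by
    intro j
    have h2 : 1 ≤ 2 ^ j := Nat.one_le_two_pow
    have h1 := hsum j (2 ^ j) (fun i => ((((2 ^ j - 1).choose i : ℕ) : ℤ) : K) * t ^ i) le_rfl
      (fun i => Set.mul_mem_mul ⟨_, rfl⟩ ⟨i, rfl⟩)
    have e : (1 + t) ^ (2 ^ j - 1)
        = ∑ i ∈ Finset.range (2 ^ j), ((((2 ^ j - 1).choose i : ℕ) : ℤ) : K) * t ^ i := by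
      rw [add_comm, add_pow, Nat.sub_add_cancel h2]
      apply Finset.sum_congr rfl
      intro i _
      push_cast
      ring
    rw [e]; exact h1
  obtain ⟨W, hW, hWb, -, -, hWm⟩ := exists_mul_closed hV hd (univ_mem (f := 𝓝 (0 : K)))
  have hW2 : {x : K | (k⁻¹) ^ 2 * x ∈ W} ∈ 𝓝 (0 : K) := smul_mem_nhds hW _
  obtain ⟨m1, hm1⟩ := eventually_atTop.mp (hs hW2)
  set N1 := m1 + 1 with hN1
  set w := (k⁻¹) ^ 2 * s ^ N1 with hw
  have hwW : w ∈ W := hm1 N1 (Nat.le_succ _)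
  have hsN : s ^ N1 = k ^ 2 * w := by
    rw [hw, ← mul_assoc, ← mul_pow, mul_inv_cancel₀ hk0, one_pow, one_mul]
  clear_value w
  let S : Set K := (fun i : ℕ => s ^ i) '' (Set.Iio N1)
  have hS : Bdd S := bdd_of_finite ((Set.finite_Iio _).image _)
  have hbig : Bdd (U * S * (W ∪ {1})) := (hUb.mul hS).mul (hWb.union (bdd_singleton 1))
  refine no_one hbig (a := fun n => k ^ n) hk (fun m0 => ?_)
  obtain ⟨j, hj⟩ := growth N1 m0
  set m := (2 ^ j - 1) / N1 with hm
  have hmle : m0 + j ≤ m := by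
    have hN1pos : 0 < N1 := by omega
    rw [hm, Nat.le_div_iff_mul_le hN1pos, Nat.mul_comm]
    omega
  refine ⟨2 * m - j, by omega, k ^ j * (1 + t) ^ (2 ^ j - 1) * s ^ ((2 ^ j - 1) % N1) * w ^ m,
    ?_, ?_⟩
  · refine Set.mul_mem_mul (Set.mul_mem_mul (hpow j) ⟨_, Nat.mod_lt _ (Nat.succ_pos _), rfl⟩) ?_
    rcases Nat.eq_zero_or_pos m with h0 | h0
    · right; rw [h0, pow_zero]; rfl
    · left
      obtain ⟨i, hi⟩ := Nat.exists_eq_succ_of_ne_zero h0.ne'
      rw [hi]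
      exact pow_mem_of_mul_closed hWm hwW i
  · have e1 : s ^ (2 ^ j - 1) = s ^ ((2 ^ j - 1) % N1) * (k ^ 2 * w) ^ m := by
      rw [← hsN, ← pow_mul, ← pow_add, add_comm, Nat.div_add_mod]
    have e2 : (1 + t) ^ (2 ^ j - 1) * s ^ (2 ^ j - 1) = 1 := by
      rw [← mul_pow, hsdef, mul_inv_cancel₀ h1t, one_pow]
    have e3 : k ^ j * k ^ (2 * m - j) = k ^ (2 * m) := by
      rw [← pow_add]; congr 1; omega
    calc k ^ j * (1 + t) ^ (2 ^ j - 1) * s ^ ((2 ^ j - 1) % N1) * w ^ m * k ^ (2 * m - j)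
        = (1 + t) ^ (2 ^ j - 1) * (s ^ ((2 ^ j - 1) % N1) * ((k ^ j * k ^ (2 * m - j)) * w ^ m)) := by
          ring
      _ = (1 + t) ^ (2 ^ j - 1) * (s ^ ((2 ^ j - 1) % N1) * (k ^ 2 * w) ^ m) := by
          rw [e3, mul_pow, ← pow_mul]
      _ = 1 := by rw [← e1, e2]

theorem PBdd.mul {x y : K} (hx : PBdd x) (hy : PBdd y) : PBdd (x * y) := by
  refine (Bdd.mul hx hy).mono ?_
  rintro _ ⟨n, rfl⟩
  exact Set.mem_mul.mpr ⟨_, ⟨n, rfl⟩, _, ⟨n, rfl⟩, by simp [mul_pow]⟩

theorem PBdd.of_finite {x : K} (h : (Set.range (fun n : ℕ => x ^ n)).Finite) : PBdd x :=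
  bdd_of_finite h

theorem pbdd_zero : PBdd (0 : K) := by
  refine (bdd_of_finite (Set.toFinite {(0 : K), 1})).mono ?_
  rintro _ ⟨n, rfl⟩
  rcases Nat.eq_zero_or_pos n with h0 | h0
  · subst h0; simp
  · left; simp [h0.ne']

theorem pbdd_one : PBdd (1 : K) := by
  refine (bdd_singleton 1).mono ?_
  rintro _ ⟨n, rfl⟩
  simp

theorem pbdd_neg_one : PBdd (-1 : K) := by
  refine (bdd_of_finite (Set.toFinite {(1 : K), -1})).mono ?_
  rintro _ ⟨n, rfl⟩
  rcases neg_one_pow_eq_or K n with h | h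
  · left; exact h
  · right; exact h

/-- **Rank one case.** -/
theorem rank_one_case (hV : VProp K) (hd : (𝓝[≠] (0 : K)).NeBot)
    {x0 : K} (hx0 : x0 ≠ 0) (hx : TNil x0) (hZ : Bdd (Set.range (Int.cast : ℤ → K)))
    {N : Set K} (hN : N ∈ 𝓝 (0 : K)) :
    ∃ O : ValuationSubring K, O ≠ ⊤ ∧
      (∀ x b : K, b ≠ 0 → O.valuation x < 1 → ∃ n : ℕ, O.valuation (x ^ n) < O.valuation b) ∧
      ∃ c : K, c ≠ 0 ∧ ∀ x ∈ O, c * x ∈ N := by
  have hinvp : ∀ x : K, ¬ PBdd x → PBdd x⁻¹ := fun x h =>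
    (tnil_inv_of_not_pbdd hV hd h).pbdd hV
  have hadd1 : ∀ t : K, PBdd t → PBdd (1 + t) := fun t ht =>
    pbdd_one_add hV hd hx0 hx hZ ht
  have hadd : ∀ x y : K, PBdd x → PBdd y → PBdd (x + y) := by
    intro x y hx hy
    by_cases hx00 : x = 0
    · rw [hx00, zero_add]; exact hy
    by_cases hy00 : y = 0
    · rw [hy00, add_zero]; exact hx
    by_cases h : PBdd (y / x)
    · have e : x + y = x * (1 + y / x) := by field_simp
      rw [e]; exact hx.mul (hadd1 _ h)
    · have h' := hinvp _ h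
      have e : x + y = y * (1 + (y / x)⁻¹) := by field_simp; ring
      rw [e]; exact hy.mul (hadd1 _ h')
  let O : ValuationSubring K :=
    { carrier := {x | PBdd x}
      mul_mem' := fun {x y} hx hy => hx.mul hy
      one_mem' := pbdd_one
      add_mem' := fun {x y} hx hy => hadd x y hx hy
      zero_mem' := pbdd_zero
      neg_mem' := fun {x} hx => by
        have := (pbdd_neg_one (K := K)).mul hx
        rwa [neg_one_mul] at this
      mem_or_inv_mem' := by
        intro x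
        by_cases h : PBdd x
        · left; exact h
        · right; exact hinvp x h }
  have hO : ∀ x, x ∈ O ↔ PBdd x := fun x => Iff.rfl
  obtain ⟨U, hU, hUb⟩ := exists_bdd_nhds hV
  obtain ⟨M, hM, hM1⟩ := (((hUb.mul hUb).union hUb).union (bdd_inv_compl hV hU)) U hU
  obtain ⟨k, hk0, hk, hkM⟩ := exists_tnil_mem hx0 hx hM
  have hmul : ∀ x ∈ U, ∀ y ∈ U, k * (x * y) ∈ U := fun x hx y hy => by
    rw [mul_comm]; exact hM1 _ (Or.inl (Or.inl (Set.mul_mem_mul hx hy))) _ hkM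
  have hself : ∀ x ∈ U, k * x ∈ U := fun x hx => by
    rw [mul_comm]; exact hM1 _ (Or.inl (Or.inr hx)) _ hkM
  have hinv : ∀ x, x⁻¹ ∉ U → k * x ∈ U := fun x hx => by
    rw [mul_comm]; exact hM1 _ (Or.inr hx) _ hkM
  have hpw : ∀ u ∈ U, ∀ n : ℕ, k ^ n * u ^ (n + 1) ∈ U := by
    intro u hu n
    induction n with
    | zero => simpa using hu
    | succ n ih =>
      have := hmul _ ih _ hu
      have e : k ^ (n + 1) * u ^ (n + 1 + 1) = k * (k ^ n * u ^ (n + 1) * u) := by ring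
      rw [e]; exact this
  -- bounded
  have hbdd : ∀ y : K, PBdd y → k ^ 3 * y ∈ U := by
    intro y hy
    by_contra hcon
    have hy0 : y ≠ 0 := by
      rintro rfl; apply hcon; simpa using mem_of_mem_nhds hU
    have h1 := hinv (k ^ 3 * y)⁻¹ (by rwa [inv_inv])
    set u := k * (k ^ 3 * y)⁻¹ with hu
    have h2 : y⁻¹ = k ^ 2 * u := by rw [hu]; field_simp
    have h3 : TNil y⁻¹ := by
      unfold TNil
      rw [← tendsto_add_atTop_iff_nat 1]
      have h4 : ∀ n : ℕ, (y⁻¹) ^ (n + 1) = k ^ n * u ^ (n + 1) * k ^ (n + 2) := by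
        intro n; rw [h2]; ring
      rw [tendsto_def]
      intro V hV'
      obtain ⟨V', hV'', h5⟩ := hUb V hV'
      have h6 : Tendsto (fun n : ℕ => k ^ (n + 2)) atTop (𝓝 0) :=
        (tendsto_add_atTop_iff_nat 2).mpr hk
      filter_upwards [h6 hV''] with n hn
      change (y⁻¹) ^ (n + 1) ∈ V
      rw [h4]
      exact h5 _ (hpw u h1 n) _ hn
    have := h3.inv_not_pbdd (inv_ne_zero hy0)
    rw [inv_inv] at this
    exact this hy
  have hOb : Bdd (O : Set K) := by
    refine (hUb.smul (k⁻¹ ^ 3)).mono ?_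
    intro y hy
    refine ⟨_, hbdd y hy, ?_⟩
    rw [← mul_assoc, ← mul_pow, inv_mul_cancel₀ hk0, one_pow, one_mul]
  have hOn : (O : Set K) ∈ 𝓝 (0 : K) := by
    refine mem_of_superset (smul_mem_nhds hU k⁻¹) ?_
    intro y hy
    change PBdd y
    refine (hUb.union (bdd_singleton 1)).mono ?_
    rintro _ ⟨n, rfl⟩
    rcases Nat.eq_zero_or_pos n with h0 | h0
    · right; simp [h0]
    · left
      obtain ⟨i, rfl⟩ := Nat.exists_eq_succ_of_ne_zero h0.ne'
      have h1 := hself _ (hpw _ hy i)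
      have e : y ^ (i + 1) = k * (k ^ i * (k⁻¹ * y) ^ (i + 1)) := by
        calc y ^ (i + 1) = (k * (k⁻¹ * y)) ^ (i + 1) := by rw [mul_inv_cancel_left₀ hk0]
          _ = _ := by ring
      change y ^ (i + 1) ∈ U
      rw [e]; exact h1
  refine ⟨O, ?_, ?_, ?_⟩
  · intro htop
    apply not_bdd_univ (K := K) hd
    refine hOb.mono ?_
    intro x _
    change x ∈ O
    rw [htop]; exact ValuationSubring.mem_top x
  · intro x b hb hx1
    by_cases hx00 : x = 0
    · refine ⟨1, ?_⟩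
      rw [pow_one, hx00, map_zero, zero_lt_iff, Valuation.ne_zero_iff]
      exact hb
    rw [val_lt_one_iff' hx00, hO] at hx1
    have hxt := tnil_inv_of_not_pbdd hV hd hx1
    rw [inv_inv] at hxt
    obtain ⟨m, hm⟩ := eventually_atTop.mp (hxt (smul_mem_nhds hOn b⁻¹))
    have h1 : b⁻¹ * x ^ m ∈ O := hm m le_rfl
    refine ⟨m + 1, ?_⟩
    rw [← O.valuation_le_one_iff, map_mul, map_inv₀] at h1
    have hb1 : O.valuation b ≠ 0 := (Valuation.ne_zero_iff _).mpr hb
    have hx2 : O.valuation x < 1 := by rw [val_lt_one_iff' hx00, hO]; exact hx1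
    have h2 : O.valuation (x ^ m) ≤ O.valuation b := by
      have := mul_le_mul_right h1 (O.valuation b)
      rw [mul_one, ← mul_assoc, mul_inv_cancel₀ hb1, one_mul] at this
      exact this
    rw [pow_succ, map_mul]
    calc O.valuation (x ^ m) * O.valuation x < O.valuation (x ^ m) * 1 := by
          apply mul_lt_mul_of_pos_left hx2
          rw [zero_lt_iff, Valuation.ne_zero_iff]
          exact pow_ne_zero _ hx00
      _ ≤ O.valuation b := by rw [mul_one]; exact h2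
  · obtain ⟨c, hc0, hc⟩ := hOb.exists_scale hd hN
    exact ⟨c, hc0, hc⟩

end HypQ.VTop
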