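import Pool.Agent.Lib.MP_9f0b3e_al.Pair
import Pool.Agent.Lib.MP_9f0b3e_al.Free

/-!
# MP_9f0b3e_al: group theoretic lemmas for the soundness of the wild rule (helper62)
-/

set_option autoImplicit false

namespace HypQ

section ext

variable {G κ A A' : Type} [CommGroup G] [CommGroup κ] [CommGroup A] [CommGroup A']

/-- the pullback -/
def PB (R : G →* κ) (φ : A →* A') (hA : κ →* A') : Subgroup (G × A) :=
  (φ.comp (MonoidHom.snd G A)).eqLocus ((hA.comp R).comp (MonoidHom.fst G A))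

theorem mem_PB {R : G →* κ} {φ : A →* A'} {hA : κ →* A'} {x : G × A} :
    x ∈ PB R φ hA ↔ φ x.2 = hA (R x.1) := Iff.rfl

/-- the graph of `X₁` -/
def GX (R : G →* κ) (φ : A →* A') (hA : κ →* A') (X₁ : R.ker →* A) : Subgroup (PB R φ hA) where
  carrier := {x | ∃ v : R.ker, (x : G × A) = ((v : G), X₁ v)}
  mul_mem' := by
    rintro a b ⟨v, hv⟩ ⟨w, hw⟩
    refine ⟨v * w, ?_⟩
    rw [Subgroup.coe_mul, hv, hw]
    simp
  one_mem' := ⟨1, by simp; rfl⟩
  inv_mem' := by
    rintro a ⟨v, hv⟩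
    refine ⟨v⁻¹, ?_⟩
    rw [Subgroup.coe_inv, hv]
    simp

/-- Lifting homomorphisms through an extension. -/
theorem extend_char (R : G →* κ) (hR : Function.Surjective R) (φ : A →* A')
    (hφ : Function.Surjective φ) (hA : κ →* A') (X₁ : R.ker →* A) (hX₁ : ∀ u, φ (X₁ u) = 1) :
    ∃ (Q : Type) (_ : CommGroup Q) (q : Q →* κ) (cl : PB R φ hA →* Q),
      Function.Surjective q ∧ Function.Surjective cl ∧
      (∀ x, q (cl x) = R (x : G × A).1) ∧
      (∀ x, cl x = 1 ↔ ∃ v : R.ker, (x : G × A) = ((v : G), X₁ v)) ∧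
      (∀ s : κ →* Q, (∀ x, q (s x) = x) → ∃ X : G →* A, (∀ u : R.ker, X u = X₁ u) ∧
        (∀ u, φ (X u) = hA (R u)) ∧
        ∀ x : PB R φ hA, s (R (x : G × A).1) = cl x → X (x : G × A).1 = (x : G × A).2) := by
  classical
  let S := GX R φ hA X₁
  let q₀ : PB R φ hA →* κ := (R.comp (MonoidHom.fst G A)).comp (PB R φ hA).subtype
  have hS : S ≤ q₀.ker := by
    rintro x ⟨v, hv⟩
    rw [MonoidHom.mem_ker]
    change R (x : G × A).1 = 1
    rw [hv]
    exact v.2
  let q : (PB R φ hA ⧸ S) →* κ := QuotientGroup.lift S q₀ hS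
  have hcl1 : ∀ x : PB R φ hA, (QuotientGroup.mk' S) x = 1 ↔
      ∃ v : R.ker, (x : G × A) = ((v : G), X₁ v) := by
    intro x
    rw [QuotientGroup.mk'_apply, QuotientGroup.eq_one_iff]
    rfl
  have hq : ∀ x : PB R φ hA, q (QuotientGroup.mk' S x) = R (x : G × A).1 := fun x => rfl
  refine ⟨PB R φ hA ⧸ S, inferInstance, q, QuotientGroup.mk' S, ?_, QuotientGroup.mk'_surjective S,
    hq, hcl1, ?_⟩
  · intro x
    obtain ⟨u, rfl⟩ := hR x
    obtain ⟨a, ha⟩ := hφ (hA (R u))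
    exact ⟨QuotientGroup.mk' S ⟨(u, a), ha⟩, rfl⟩
  · intro s hs
    -- existence
    have hex : ∀ u : G, ∃ a : A, ∃ h : φ a = hA (R u),
        QuotientGroup.mk' S ⟨(u, a), h⟩ = s (R u) := by
      intro u
      obtain ⟨⟨⟨u', a'⟩, h'⟩, hx⟩ := QuotientGroup.mk'_surjective S (s (R u))
      have h1 : R u' = R u := by
        rw [← hs (R u), ← hx]; rfl
      have h2 : u'⁻¹ * u ∈ R.ker := by
        rw [MonoidHom.mem_ker, map_mul, map_inv, h1, inv_mul_cancel]
      refine ⟨a' * X₁ ⟨_, h2⟩, ?_, ?_⟩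
      · rw [map_mul, hX₁, mul_one, ← h1]
        exact h'
      · rw [← hx]
        rw [← inv_mul_eq_one, ← map_inv, ← map_mul, hcl1]
        refine ⟨⟨_, h2⟩⁻¹, ?_⟩
        rw [Subgroup.coe_mul, Subgroup.coe_inv, map_inv]
        simp
    choose a ha ha' using hex
    have huniq : ∀ (u : G) (b c : A) (hb : φ b = hA (R u)) (hc : φ c = hA (R u)),
        QuotientGroup.mk' S ⟨(u, b), hb⟩ = QuotientGroup.mk' S ⟨(u, c), hc⟩ → b = c := by
      intro u b c hb hc h
      rw [← inv_mul_eq_one, ← map_inv, ← map_mul, hcl1] at h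
      obtain ⟨v, hv⟩ := h
      rw [Subgroup.coe_mul, Subgroup.coe_inv] at hv
      simp only [Prod.inv_mk, Prod.mk_mul_mk, inv_mul_cancel, Prod.mk.injEq] at hv
      have hv1 : v = 1 := Subtype.ext hv.1.symm
      rw [hv1, map_one, inv_mul_eq_one] at hv
      exact hv.2
    have hmul : ∀ u v, a (u * v) = a u * a v := by
      intro u v
      have h1 : φ (a u * a v) = hA (R (u * v)) := by rw [map_mul, ha, ha, map_mul, map_mul]
      refine huniq (u * v) _ _ (ha _) h1 ?_
      rw [ha', map_mul, map_mul, ← ha' u, ← ha' v, ← map_mul]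
      rfl
    let X : G →* A := MonoidHom.mk' a hmul
    refine ⟨X, ?_, ha, ?_⟩
    · intro u
      have h1 : φ (X₁ u) = hA (R u) := by rw [hX₁, show R u = 1 from u.2, map_one]
      change a u = X₁ u
      refine huniq u _ _ (ha _) h1 ?_
      have h2 : QuotientGroup.mk' S ⟨((u : G), X₁ u), h1⟩ = 1 := (hcl1 _).mpr ⟨u, rfl⟩
      rw [h2, ha', show R u = 1 from u.2, map_one]
    · rintro ⟨⟨u, b⟩, hb⟩ h
      change a u = b
      refine huniq u _ _ (ha _) hb ?_
      rw [ha']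
      exact h

/-- lifting of homomorphisms through a surjection with torsion kernel of coprime exponent -/
theorem coprime_lift {Q κ U : Type} [CommGroup Q] [CommGroup κ] [CommGroup U] (q : Q →* κ)
    (hq : Function.Surjective q) (N : ℕ) (hN : ∀ x, q x = 1 → x ^ N = 1) (j : U →* κ)
    (hj : ∀ u, j u ^ N = j u) : ∃ h₀ : U →* Q, ∀ u, q (h₀ u) = j u := by
  classical
  choose y hy using fun u => hq (j u)
  refine ⟨MonoidHom.mk' (fun u => y u ^ N) ?_, ?_⟩
  · intro u v
    have h1 : q ((y u * y v)⁻¹ * y (u * v)) = 1 := by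
      rw [map_mul, map_inv, map_mul, hy, hy, hy, map_mul, inv_mul_cancel]
    have h2 := hN _ h1
    rw [mul_pow, inv_pow, inv_mul_eq_one] at h2
    rw [← h2, mul_pow]
  · intro u
    change q (y u ^ N) = j u
    rw [map_pow, hy, hj]

end ext

section frac

/-- from a domain to a field of fractions. -/
theorem frac_char' {P κ Q : Type} [CommRing P] [IsDomain P] [Field κ] [CommGroup Q]
    (f : P →+* κ) (hf : Function.Injective f)
    (hfr : ∀ y : κ, ∃ a b : P, b ≠ 0 ∧ y * f b = f a) (ψ : P →*₀ WithZero Q) (hψ : NV ψ) :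
    ∃ χ : κ →*₀ WithZero Q, (∀ a : P, χ (f a) = ψ a) ∧ NN χ = NN ψ ∧ HH χ = HH ψ := by
  classical
  obtain ⟨χ₀, h1, h2, h3⟩ := frac_char ψ hψ
  let _ : Algebra P κ := f.toAlgebra
  have hfa : ∀ a, algebraMap P κ a = f a := fun a => rfl
  have : IsFractionRing P κ := by
    refine (isLocalization_iff _ _).mpr ⟨?_, ?_, ?_⟩
    · rintro ⟨y, hy⟩
      rw [hfa]
      exact (isUnit_iff_ne_zero.mpr (fun h => nonZeroDivisors.ne_zero hy
        (hf (by rw [h, map_zero]))))
    · intro y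
      obtain ⟨a, b, hb, h⟩ := hfr y
      exact ⟨⟨a, ⟨b, mem_nonZeroDivisors_of_ne_zero hb⟩⟩, h⟩
    · intro x y h
      refine ⟨1, ?_⟩
      rw [hf h]
  let e : κ ≃ₐ[P] FractionRing P := (FractionRing.algEquiv P κ).symm
  have he : ∀ a : P, e (f a) = algebraMap P (FractionRing P) a := fun a => e.commutes a
  have he' : ∀ a : P, e.symm (algebraMap P (FractionRing P) a) = f a := fun a => e.symm.commutes a
  refine ⟨χ₀.comp (e.toRingEquiv.toRingHom.toMonoidWithZeroHom), fun a => ?_, ?_, ?_⟩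
  · change χ₀ (e (f a)) = ψ a
    rw [he, h1]
  · rw [← h2]
    ext ⟨x, y⟩
    rw [mem_NN_field, mem_NN_field]
    constructor
    · rintro ⟨a, b, hab, ha, hb⟩
      exact ⟨e a, e b, by rw [← map_add, hab, map_one], ha, hb⟩
    · rintro ⟨a, b, hab, ha, hb⟩
      refine ⟨e.symm a, e.symm b, by rw [← map_add, hab, map_one], ?_, ?_⟩
      · change χ₀ (e (e.symm a)) = x
        rw [e.apply_symm_apply, ha]
      · change χ₀ (e (e.symm b)) = y
        rw [e.apply_symm_apply, hb]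
  · rw [← h3]
    ext x
    rw [mem_HH_field, mem_HH_field]
    constructor
    · rintro ⟨a, ha⟩
      exact ⟨e a, ha⟩
    · rintro ⟨a, ha⟩
      refine ⟨e.symm a, ?_⟩
      change χ₀ (e (e.symm a)) = x
      rw [e.apply_symm_apply, ha]

/-- the homomorphism on units of a character -/
noncomputable def uHom {κ Q : Type} [Field κ] [CommGroup Q] (χ : κ →*₀ WithZero Q) : κˣ →* Q :=
  (WithZero.unitsWithZeroEquiv (α := Q)).toMonoidHom.comp (Units.map χ.toMonoidHom)

theorem uHom_coe {κ Q : Type} [Field κ] [CommGroup Q] (χ : κ →*₀ WithZero Q) (u : κˣ) :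
    (uHom χ u : WithZero Q) = χ (u : κ) := by
  unfold uHom
  have := WithZero.coe_unitsWithZeroEquiv_eq_units_val (Units.map χ.toMonoidHom u)
  rw [MonoidHom.comp_apply]
  exact this

end frac

end HypQ
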